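import Pool.Agent.Edge.RKBasic

/-!
# Affine changes of coordinates

`A : E ≃L[ℂ] E`, `z = z₀ + A ζ`, `J = |det_ℂ A|²` (the real Jacobian).
-/

namespace Pool.Agent.Edge

open MeasureTheory Filter Topology Complex

open scoped ComplexConjugate

variable {E : Type*} [NormedAddCommGroup E] [InnerProductSpace ℂ E] [FiniteDimensional ℂ E]
  [MeasurableSpace E] [BorelSpace E]

/-- the real Jacobian `|det_ℂ A|²`. -/
noncomputable def jac (A : E ≃L[ℂ] E) : ℝ := ‖LinearMap.det (A : E →ₗ[ℂ] E)‖ ^ 2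

theorem jac_pos (A : E ≃L[ℂ] E) : 0 < jac A := by
  unfold jac
  have h : LinearMap.det (A : E →ₗ[ℂ] E) ≠ 0 :=
    (LinearEquiv.isUnit_det' A.toLinearEquiv).ne_zero
  have := norm_pos_iff.2 h
  positivity

/-- the homeomorphism `ζ ↦ z₀ + A ζ`. -/
noncomputable def affHomeo (A : E ≃L[ℂ] E) (z₀ : E) : E ≃ₜ E :=
  A.toHomeomorph.trans (Homeomorph.addLeft z₀)

theorem affHomeo_apply (A : E ≃L[ℂ] E) (z₀ ζ : E) : affHomeo A z₀ ζ = z₀ + A ζ := rfl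

theorem map_affine (A : E ≃L[ℂ] E) (z₀ : E) :
    (om E).map (affHomeo A z₀) = ENNReal.ofReal ((jac A)⁻¹) • om E := by
  have hdet : LinearMap.det ((A : E →ₗ[ℂ] E).restrictScalars ℝ) = jac A := by
    rw [LinearMap.det_restrictScalars, Algebra.norm_complex_apply, Complex.normSq_eq_norm_sq]
    rfl
  have hne : LinearMap.det ((A : E →ₗ[ℂ] E).restrictScalars ℝ) ≠ 0 := by
    rw [hdet]; exact (jac_pos A).ne'
  have h1 := Measure.map_linearMap_addHaar_eq_smul_addHaar (om E) hne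
  have h2 : (affHomeo A z₀ : E → E) = (fun z => z₀ + z) ∘
      ((A : E →ₗ[ℂ] E).restrictScalars ℝ : E → E) := by
    funext ζ; rfl
  rw [h2, ← Measure.map_map (measurable_const_add z₀) (by
    have : Continuous ((A : E →ₗ[ℂ] E).restrictScalars ℝ : E → E) := A.continuous
    exact this.measurable), h1, Measure.map_smul, map_add_left_eq_self, hdet,
    abs_of_pos (inv_pos.2 (jac_pos A))]

/-- `∫ f(z₀+Aζ) dω(ζ) = J⁻¹ ∫ f dω` (`Measure.map_linearMap_addHaar_eq_smul_addHaar` or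
`integral_comp`-type lemmas, `LinearMap.det_restrictScalars`, `Algebra.norm_complex_eq`). -/
theorem integral_affine {G : Type*} [NormedAddCommGroup G] [NormedSpace ℝ G] (A : E ≃L[ℂ] E)
    (z₀ : E) (f : E → G) :
    ∫ ζ, f (z₀ + A ζ) ∂(om E) = (jac A)⁻¹ • ∫ z, f z ∂(om E) := by
  have h := (affHomeo A z₀).measurableEmbedding.integral_map (μ := om E) f
  rw [map_affine, integral_smul_measure,
    ENNReal.toReal_ofReal (inv_pos.2 (jac_pos A)).le] at h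
  exact h.symm

theorem integrable_affine {G : Type*} [NormedAddCommGroup G] (A : E ≃L[ℂ] E)
    (z₀ : E) (f : E → G) :
    Integrable (fun ζ => f (z₀ + A ζ)) (om E) ↔ Integrable f (om E) := by
  have h := (affHomeo A z₀).measurableEmbedding.integrable_map_iff (μ := om E) (g := f)
  rw [map_affine] at h
  rw [show (fun ζ => f (z₀ + A ζ)) = f ∘ (affHomeo A z₀) from rfl, ← h]
  exact integrable_smul_measure (by
    simpa using jac_pos A) ENNReal.ofReal_ne_top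

theorem isPot_affine {Q : E → ℝ} (hQ : IsPot Q) (A : E ≃L[ℂ] E) (z₀ : E) :
    IsPot (fun ζ => Q (z₀ + A ζ)) := by
  obtain ⟨hc, δ, C, hδ, hgr⟩ := hQ
  refine ⟨?_, δ, ?_⟩
  · have hA : ContDiff ℝ 2 (fun ζ : E => z₀ + A ζ) :=
      contDiff_const.add ((A : E →L[ℂ] E).restrictScalars ℝ).contDiff
    exact hc.comp hA
  · -- `‖ζ‖ ≤ M (‖z₀ + Aζ‖ + ‖z₀‖)`, so `1+‖ζ‖² ≤ L (1 + ‖z₀+Aζ‖²)`
    set M : ℝ := ‖((A.symm : E ≃L[ℂ] E) : E →L[ℂ] E)‖ with hM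
    have hM0 : 0 ≤ M := norm_nonneg _
    set L : ℝ := 1 + 2 * M ^ 2 * (1 + ‖z₀‖ ^ 2) with hL
    have hLpos : 1 ≤ L := by rw [hL]; nlinarith [mul_nonneg (sq_nonneg M) (by positivity : (0:ℝ) ≤ 1 + ‖z₀‖ ^ 2)]
    refine ⟨C + (1 + δ) * Real.log L, hδ, fun ζ => ?_⟩
    have h1 : ‖ζ‖ ≤ M * (‖z₀ + A ζ‖ + ‖z₀‖) := by
      have h2 : ζ = A.symm (z₀ + A ζ - z₀) := by simp
      calc ‖ζ‖ = ‖((A.symm : E ≃L[ℂ] E) : E →L[ℂ] E) (z₀ + A ζ - z₀)‖ := by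
            conv_lhs => rw [h2]
            rfl
        _ ≤ M * ‖z₀ + A ζ - z₀‖ := ContinuousLinearMap.le_opNorm _ _
        _ ≤ M * (‖z₀ + A ζ‖ + ‖z₀‖) := by
            apply mul_le_mul_of_nonneg_left (norm_sub_le _ _) hM0
    set t := ‖z₀ + A ζ‖ with ht
    have ht0 : 0 ≤ t := norm_nonneg _
    have hz0 : 0 ≤ ‖z₀‖ := norm_nonneg _
    have h3 : 1 + ‖ζ‖ ^ 2 ≤ L * (1 + t ^ 2) := by
      have h4 : ‖ζ‖ ^ 2 ≤ (M * (t + ‖z₀‖)) ^ 2 := by
        apply pow_le_pow_left₀ (norm_nonneg _) h1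
      have h5 : (t + ‖z₀‖) ^ 2 ≤ 2 * (t ^ 2 + ‖z₀‖ ^ 2) := by nlinarith [sq_nonneg (t - ‖z₀‖)]
      have h6 : (M * (t + ‖z₀‖)) ^ 2 ≤ M ^ 2 * (2 * (t ^ 2 + ‖z₀‖ ^ 2)) := by
        rw [mul_pow]
        exact mul_le_mul_of_nonneg_left h5 (sq_nonneg M)
      have h7 : t ^ 2 + ‖z₀‖ ^ 2 ≤ (1 + ‖z₀‖ ^ 2) * (1 + t ^ 2) := by nlinarith [sq_nonneg (t * ‖z₀‖)]
      have h8 : M ^ 2 * (2 * (t ^ 2 + ‖z₀‖ ^ 2)) ≤ 2 * M ^ 2 * (1 + ‖z₀‖ ^ 2) * (1 + t ^ 2) := by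
        have := mul_le_mul_of_nonneg_left h7 (by positivity : 0 ≤ 2 * M ^ 2)
        nlinarith
      rw [hL]
      nlinarith [sq_nonneg t]
    have h9 : Real.log (1 + ‖ζ‖ ^ 2) ≤ Real.log L + Real.log (1 + t ^ 2) := by
      rw [← Real.log_mul (by positivity) (by positivity)]
      exact Real.log_le_log (by positivity) h3
    have h10 := hgr (z₀ + A ζ)
    have h11 := mul_le_mul_of_nonneg_left h9 (by positivity : (0:ℝ) ≤ 1 + δ)
    rw [← ht] at h10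
    nlinarith

theorem fderiv_affine {F : Type*} [NormedAddCommGroup F] [NormedSpace ℝ F] (A : E ≃L[ℂ] E)
    (z₀ : E) (g : E → F) (w : E) :
    fderiv ℝ (fun ζ => g (z₀ + A ζ)) w =
      (fderiv ℝ g (z₀ + A w)).comp ((A.restrictScalars ℝ : E ≃L[ℝ] E) : E →L[ℝ] E) := by
  have h2 : (fun ζ => g (z₀ + A ζ)) = (fun z => g (z₀ + z)) ∘ (A.restrictScalars ℝ : E ≃L[ℝ] E) := by
    funext ζ; rfl
  rw [h2, ContinuousLinearEquiv.comp_right_fderiv, fderiv_comp_add_left]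
  rfl

theorem levi_affine (Q : E → ℝ) (A : E ≃L[ℂ] E) (z₀ ζ v : E) :
    Levi (fun ζ => Q (z₀ + A ζ)) ζ v = Levi Q (z₀ + A ζ) (A v) := by
  set AR : E ≃L[ℝ] E := A.restrictScalars ℝ with hAR
  set pre : (E →L[ℝ] ℝ) ≃L[ℝ] (E →L[ℝ] ℝ) :=
    AR.symm.arrowCongr (ContinuousLinearEquiv.refl ℝ ℝ) with hpre
  have h1 : fderiv ℝ (fun ζ => Q (z₀ + A ζ)) = pre ∘ (fun w => fderiv ℝ Q (z₀ + A w)) := by
    funext w
    rw [fderiv_affine]
    ext u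
    simp [hpre, hAR]
  have h2 : ∀ u w : E, fderiv ℝ (fderiv ℝ (fun ζ => Q (z₀ + A ζ))) ζ u w =
      fderiv ℝ (fderiv ℝ Q) (z₀ + A ζ) (A u) (A w) := by
    intro u w
    rw [h1, ContinuousLinearEquiv.comp_fderiv, fderiv_affine]
    simp [hpre, hAR]
  unfold Levi
  rw [h2, h2]
  simp

theorem isRK_affine {Q : E → ℝ} (A : E ≃L[ℂ] E) (z₀ : E) {n : ℕ} {k : E → E → ℂ}
    (hk : IsRK (Vsp n (0 : E → ℂ)) (fun z => n * Q z) k) :
    IsRK (Vsp n (0 : E → ℂ)) (fun ζ => n * Q (z₀ + A ζ))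
      (fun ζ η => (jac A : ℂ) * k (z₀ + A ζ) (z₀ + A η)) := by
  have hcont : Continuous (fun ζ : E => z₀ + A ζ) := by fun_prop
  have hJ := jac_pos A
  -- composition with affine isomorphisms preserves the space
  have hV : ∀ (A' : E ≃L[ℂ] E) (z' : E) {f : E → ℂ}, f ∈ Vsp n (0 : E → ℂ) →
      (fun ζ => f (z' + A' ζ)) ∈ Vsp n (0 : E → ℂ) := by
    intro A' z' f hf
    obtain ⟨hd, C, hC⟩ := mem_Vsp.1 hf
    refine mem_Vsp.2 ⟨hd.comp (by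
      exact (differentiable_const z').add (A' : E →L[ℂ] E).differentiable), ?_⟩
    set M : ℝ := ‖(A' : E →L[ℂ] E)‖ with hM
    set M' : ℝ := ‖((A'.symm : E ≃L[ℂ] E) : E →L[ℂ] E)‖ with hM'
    have hM0 : 0 ≤ M := norm_nonneg _
    have hM'0 : 0 ≤ M' := norm_nonneg _
    have hC0 : 0 ≤ C := by
      have := hC 0
      simp only [norm_zero, add_zero, one_pow, mul_one, one_mul] at this
      exact (norm_nonneg _).trans this
    set L : ℝ := 1 + ‖z'‖ + M with hL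
    set L' : ℝ := 1 + M' * (1 + ‖z'‖) with hL'
    have hz0 : 0 ≤ ‖z'‖ := norm_nonneg _
    have hL1 : 1 ≤ L := by rw [hL]; linarith
    have hL'1 : 1 ≤ L' := by rw [hL']; nlinarith [mul_nonneg hM'0 (by linarith : (0:ℝ) ≤ 1 + ‖z'‖)]
    refine ⟨L' * (C * L ^ n), fun ζ => ?_⟩
    have h1 : 1 + ‖z' + A' ζ‖ ≤ L * (1 + ‖ζ‖) := by
      have h2 : ‖A' ζ‖ ≤ M * ‖ζ‖ := (A' : E →L[ℂ] E).le_opNorm ζ
      have h3 : ‖z' + A' ζ‖ ≤ ‖z'‖ + ‖A' ζ‖ := norm_add_le _ _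
      have h4 := norm_nonneg ζ
      rw [hL]
      nlinarith [mul_nonneg hz0 h4]
    have h5 : 1 + ‖ζ‖ ≤ L' * (1 + ‖z' + A' ζ‖) := by
      have h6 : ζ = A'.symm (z' + A' ζ - z') := by simp
      have h7 : ‖ζ‖ ≤ M' * ‖z' + A' ζ - z'‖ := by
        calc ‖ζ‖ = ‖((A'.symm : E ≃L[ℂ] E) : E →L[ℂ] E) (z' + A' ζ - z')‖ := by
              conv_lhs => rw [h6]
              rfl
          _ ≤ _ := ContinuousLinearMap.le_opNorm _ _
      have h8 : ‖z' + A' ζ - z'‖ ≤ ‖z' + A' ζ‖ + ‖z'‖ := norm_sub_le _ _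
      have h9 := norm_nonneg (z' + A' ζ)
      have h10 : M' * ‖z' + A' ζ - z'‖ ≤ M' * (‖z' + A' ζ‖ + ‖z'‖) :=
        mul_le_mul_of_nonneg_left h8 hM'0
      rw [hL']
      nlinarith [mul_nonneg hM'0 hz0, mul_nonneg hM'0 h9, mul_nonneg (mul_nonneg hM'0 hz0) h9]
    have h11 := hC (z' + A' ζ)
    simp only [Pi.zero_apply, zero_div, Complex.exp_zero, mul_one] at h11 ⊢
    have h12 : (1 + ‖z' + A' ζ‖) ^ n ≤ (L * (1 + ‖ζ‖)) ^ n :=
      pow_le_pow_left₀ (by positivity) h1 n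
    calc (1 + ‖ζ‖) * ‖f (z' + A' ζ)‖ ≤ (L' * (1 + ‖z' + A' ζ‖)) * ‖f (z' + A' ζ)‖ := by
          apply mul_le_mul_of_nonneg_right h5 (norm_nonneg _)
      _ = L' * ((1 + ‖z' + A' ζ‖) * ‖f (z' + A' ζ)‖) := by ring
      _ ≤ L' * (C * (1 + ‖z' + A' ζ‖) ^ n) := by
          apply mul_le_mul_of_nonneg_left h11 (by linarith)
      _ ≤ L' * (C * (L * (1 + ‖ζ‖)) ^ n) := by
          apply mul_le_mul_of_nonneg_left _ (by linarith)
          exact mul_le_mul_of_nonneg_left h12 hC0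
      _ = _ := by rw [mul_pow]; ring
  -- every element of the space is a composition
  have hV' : ∀ {g : E → ℂ}, g ∈ Vsp n (0 : E → ℂ) → ∃ f ∈ Vsp n (0 : E → ℂ),
      g = fun ζ => f (z₀ + A ζ) := by
    intro g hg
    refine ⟨fun z => g (-(A.symm z₀) + A.symm z), hV A.symm (-(A.symm z₀)) hg, ?_⟩
    funext ζ
    simp
  refine ⟨hk.diff, ?_, ?_, ?_, ?_⟩
  · exact hk.wcont.comp hcont
  · intro η
    have h1 := hV A z₀ (hk.mem (z₀ + A η))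
    exact (Vsp n (0 : E → ℂ)).smul_mem (jac A : ℂ) h1
  · intro g hg
    obtain ⟨f, hf, rfl⟩ := hV' hg
    exact (integrable_affine A z₀ (fun z => ‖f z‖ ^ 2 * Real.exp (-(n * Q z)))).2 (hk.int f hf)
  · intro g hg η
    obtain ⟨f, hf, rfl⟩ := hV' hg
    have h1 := integral_affine A z₀ (fun z => (f z * conj (k z (z₀ + A η)) *
      (Real.exp (-(n * Q z)) : ℂ)))
    have h2 : (∫ ζ, f (z₀ + A ζ) * conj ((jac A : ℂ) * k (z₀ + A ζ) (z₀ + A η)) *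
        (Real.exp (-(n * Q (z₀ + A ζ))) : ℂ) ∂(om E)) = (jac A : ℂ) *
        ∫ ζ, f (z₀ + A ζ) * conj (k (z₀ + A ζ) (z₀ + A η)) *
        (Real.exp (-(n * Q (z₀ + A ζ))) : ℂ) ∂(om E) := by
      rw [← integral_const_mul]
      refine integral_congr_ae (Eventually.of_forall fun ζ => ?_)
      simp only [map_mul, Complex.conj_ofReal]
      ring
    change f (z₀ + A η) = _
    rw [h2, h1, ← hk.rep f hf (z₀ + A η), Complex.real_smul, ← mul_assoc, ← Complex.ofReal_mul,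
      mul_inv_cancel₀ hJ.ne', Complex.ofReal_one, one_mul]

/-- the `L¹` hypothesis is invariant: `eLpNorm (f ∘ (z₀ + A·)) 1 = J⁻¹ eLpNorm f 1`. -/
theorem limit_affine (A : E ≃L[ℂ] E) (z₀ : E) {F : ℕ → E → ℝ}
    (h : Tendsto (fun n => eLpNorm (F n) 1 (om E)) atTop (𝓝 0)) :
    Tendsto (fun n => eLpNorm (fun ζ => jac A * F n (z₀ + A ζ)) 1 (om E)) atTop (𝓝 0) := by
  have hJ := jac_pos A
  have key : ∀ f : E → ℝ, eLpNorm (fun ζ => jac A * f (z₀ + A ζ)) 1 (om E) =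
      eLpNorm f 1 (om E) := by
    intro f
    rw [eLpNorm_one_eq_lintegral_enorm, eLpNorm_one_eq_lintegral_enorm]
    have h1 := (affHomeo A z₀).measurableEmbedding.lintegral_map (μ := om E)
      (fun z => ‖f z‖ₑ)
    rw [map_affine, lintegral_smul_measure] at h1
    have h2 : ∀ ζ, ‖jac A * f (z₀ + A ζ)‖ₑ = ENNReal.ofReal (jac A) * ‖f (affHomeo A z₀ ζ)‖ₑ := by
      intro ζ
      rw [enorm_mul, affHomeo_apply, Real.enorm_eq_ofReal hJ.le]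
    simp only [h2]
    rw [lintegral_const_mul' _ _ ENNReal.ofReal_ne_top, ← h1, smul_eq_mul, ← mul_assoc,
      ← ENNReal.ofReal_mul hJ.le, mul_inv_cancel₀ hJ.ne', ENNReal.ofReal_one, one_mul]
  simpa only [key] using h

end Pool.Agent.Edge
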