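import Mathlib

/-!
# Locally uniform convergence as continuous convergence (proved; for use in all modules)
-/

namespace Pool.Agent.Edge

open Filter Topology

/-- For a continuous limit, locally uniform convergence is joint convergence. -/
theorem tlu_iff {ι α β : Type*} [TopologicalSpace α] [PseudoMetricSpace β] {l : Filter ι}
    {F : ι → α → β} {f : α → β} (hf : Continuous f) :
    TendstoLocallyUniformly F f l ↔
      ∀ x, Tendsto (fun p : ι × α => F p.1 p.2) (l ×ˢ 𝓝 x) (𝓝 (f x)) := by
  rw [tendstoLocallyUniformly_iff_forall_tendsto]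
  constructor
  · intro h x
    have h1 := h x
    rw [Metric.tendsto_nhds]
    intro ε hε
    have h2 : Tendsto (fun y : ι × α => f y.2) (l ×ˢ 𝓝 x) (𝓝 (f x)) :=
      (hf.tendsto x).comp tendsto_snd
    rw [Metric.uniformity_basis_dist.tendsto_right_iff] at h1
    filter_upwards [h1 (ε / 2) (half_pos hε), (Metric.tendsto_nhds.1 h2) (ε / 2) (half_pos hε)]
      with p hp hq
    calc dist (F p.1 p.2) (f x) ≤ dist (F p.1 p.2) (f p.2) + dist (f p.2) (f x) :=
          dist_triangle _ _ _
      _ < ε / 2 + ε / 2 := by rw [dist_comm (F p.1 p.2)]; exact add_lt_add hp hq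
      _ = ε := by ring
  · intro h x
    rw [Metric.uniformity_basis_dist.tendsto_right_iff]
    intro ε hε
    have h2 : Tendsto (fun y : ι × α => f y.2) (l ×ˢ 𝓝 x) (𝓝 (f x)) :=
      (hf.tendsto x).comp tendsto_snd
    filter_upwards [(Metric.tendsto_nhds.1 (h x)) (ε / 2) (half_pos hε),
      (Metric.tendsto_nhds.1 h2) (ε / 2) (half_pos hε)] with p hp hq
    calc dist (f p.2) (F p.1 p.2) ≤ dist (f p.2) (f x) + dist (F p.1 p.2) (f x) :=
          dist_triangle_right _ _ _
      _ < ε / 2 + ε / 2 := add_lt_add hq hp
      _ = ε := by ring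

/-- Locally uniform limits of products. -/
theorem tlu_mul {ι α : Type*} [TopologicalSpace α] {l : Filter ι} {F G : ι → α → ℂ}
    {f g : α → ℂ} (hf : Continuous f) (hg : Continuous g) (hF : TendstoLocallyUniformly F f l)
    (hG : TendstoLocallyUniformly G g l) :
    TendstoLocallyUniformly (fun i x => F i x * G i x) (fun x => f x * g x) l := by
  refine (tlu_iff (f := fun x => f x * g x) (hf.mul hg)).2 ?_
  rw [tlu_iff hf] at hF
  rw [tlu_iff hg] at hG
  exact fun x => (hF x).mul (hG x)

/-- Pointwise convergence from locally uniform convergence along moving points. -/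
theorem tlu_tendsto {ι α β : Type*} [TopologicalSpace α] [PseudoMetricSpace β] {l : Filter ι}
    {F : ι → α → β} {f : α → β} (hf : Continuous f) (h : TendstoLocallyUniformly F f l)
    {u : ι → α} {x : α} (hu : Tendsto u l (𝓝 x)) : Tendsto (fun i => F i (u i)) l (𝓝 (f x)) := by
  rw [tlu_iff hf] at h
  exact (h x).comp (tendsto_id.prodMk hu)

/-- composition with a continuous map on the right. -/
theorem tlu_comp {ι α α' β : Type*} [TopologicalSpace α] [TopologicalSpace α']
    [PseudoMetricSpace β] {l : Filter ι} {F : ι → α → β} {f : α → β} (hf : Continuous f)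
    (h : TendstoLocallyUniformly F f l) {g : α' → α} (hg : Continuous g) :
    TendstoLocallyUniformly (fun i x => F i (g x)) (fun x => f (g x)) l := by
  refine (tlu_iff (f := fun x => f (g x)) (hf.comp hg)).2 ?_
  rw [tlu_iff hf] at h
  intro x
  exact (h (g x)).comp (tendsto_fst.prodMk ((hg.tendsto x).comp tendsto_snd))

end Pool.Agent.Edge
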