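import Mathlib
import Pool.Agent.Edge.TLU

/-!
# Edge universality for polynomial Bergman kernels: base definitions

`E` is a finite dimensional complex inner product space.  The real structure on `E` is always the
one obtained by restriction of scalars (`NormedSpace.complexToReal`; where a real inner product is
needed use `letI : InnerProductSpace ℝ E := InnerProductSpace.complexToReal` inside proofs).
`om E` is the Haar measure of `E` with `∫ e^{-|z|²} = 1` (i.e. `π^{-d}` times Lebesgue measure).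
-/

namespace Pool.Agent.Edge

open MeasureTheory Filter Topology Complex

open scoped ComplexConjugate

section Defs

variable {E : Type*} [NormedAddCommGroup E] [InnerProductSpace ℂ E]

/-- (Four times) the Levi form: `Levi f z v = D²f(z)(v,v) + D²f(z)(iv,iv)`. -/
noncomputable def Levi (f : E → ℝ) (z v : E) : ℝ :=
  fderiv ℝ (fderiv ℝ f) z v v + fderiv ℝ (fderiv ℝ f) z (I • v) (I • v)

/-- Continuous plurisubharmonic functions on the whole space (global sub-mean value property on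
all complex circles). -/
def PSH (f : E → ℝ) : Prop :=
  Continuous f ∧ ∀ z v : E, f z ≤ Real.circleAverage (fun ζ : ℂ => f (z + ζ • v)) 0 1

/-- `f` is differentiable and `Df` is globally `K`-Lipschitz. -/
def C11 (K : ℝ) (f : E → ℝ) : Prop :=
  0 ≤ K ∧ Differentiable ℝ f ∧ ∀ x y, ‖fderiv ℝ f x - fderiv ℝ f y‖ ≤ K * ‖x - y‖

/-- Potentials: `C²` and `Q(z) ≥ (1+δ) log(1+|z|²) - C` for some `δ > 0`, `C`. -/
structure IsPot (Q : E → ℝ) : Prop where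
  cd : ContDiff ℝ 2 Q
  gr : ∃ δ C : ℝ, 0 < δ ∧ ∀ z, (1 + δ) * Real.log (1 + ‖z‖ ^ 2) - C ≤ Q z

/-- `ψ(z) ≤ log(1+|z|²) + C`. -/
def LogGrowth (ψ : E → ℝ) : Prop := ∃ C : ℝ, ∀ z, ψ z ≤ Real.log (1 + ‖z‖ ^ 2) + C

/-- Admissible functions for the envelope. -/
def Adm (Q ψ : E → ℝ) : Prop := PSH ψ ∧ (∀ z, ψ z ≤ Q z) ∧ LogGrowth ψ

/-- The envelope `Q̂`. -/
noncomputable def env (Q : E → ℝ) (z : E) : ℝ := sSup {t : ℝ | ∃ ψ, Adm Q ψ ∧ t = ψ z}

/-- The comparison (maximality) property of `φ` in the open set `V`. -/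
def Comp (φ : E → ℝ) (V : Set E) : Prop :=
  ∀ (U : Set E) (W : E → ℝ), IsOpen U → Bornology.IsBounded U → closure U ⊆ V →
    (∀ z ∈ closure U, ContDiffAt ℝ 2 W z) → (∀ z ∈ U, ∀ v, 0 ≤ Levi W z v) →
    ∀ M : ℝ, (∀ z ∈ frontier U, W z - φ z ≤ M) → ∀ z ∈ U, W z - φ z ≤ M

/-- The blow-up potential at the edge: `|ζ|² - 2 (x_+)²`, `x = Re ⟪m, ζ⟫`. -/
noncomputable def phi0 (m : E) (ζ : E) : ℝ := ‖ζ‖ ^ 2 - 2 * (max 0 (inner ℂ m ζ).re) ^ 2

/-- `a + n^{-1/2} ζ`. -/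
noncomputable def sc (a : E) (n : ℕ) (ζ : E) : E := a + ((Real.sqrt n)⁻¹ : ℝ) • ζ

/-- The holomorphic quadratic polynomial `P` with
`F(a+v) = F(a) + Re P(v) + ¼ Levi F a v + o(|v|²)`. -/
noncomputable def hq (F : E → ℝ) (a v : E) : ℂ :=
  ((fderiv ℝ F a v : ℝ) : ℂ) - I * ((fderiv ℝ F a (I • v) : ℝ) : ℂ)
    + (1 / 4) * (((fderiv ℝ (fderiv ℝ F) a v v : ℝ) : ℂ)
        - ((fderiv ℝ (fderiv ℝ F) a (I • v) (I • v) : ℝ) : ℂ))
    - (I / 2) * ((fderiv ℝ (fderiv ℝ F) a v (I • v) : ℝ) : ℂ)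

/-- `P_n(ζ) = n P(n^{-1/2} ζ)`. -/
noncomputable def Pn (Q : E → ℝ) (a : E) (n : ℕ) (ζ : E) : ℂ :=
  (n : ℂ) * hq Q a (((Real.sqrt n)⁻¹ : ℝ) • ζ)

/-- Blow-up of `F` at `a` relative to the potential `Q`:
`n (F(a + n^{-1/2}ζ) - Q(a)) - Re P_n(ζ)`.  (`F = Q` gives `w_n`, `F = env Q` gives `φ_n`.) -/
noncomputable def bl (Q F : E → ℝ) (a : E) (n : ℕ) (ζ : E) : ℝ :=
  (n : ℝ) * (F (sc a n ζ) - Q a) - (Pn Q a n ζ).re

/-- Entire functions `F` such that `F e^{P/2}` has polynomial growth of order `< n`. -/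
noncomputable def Vsp (n : ℕ) (P : E → ℂ) : Submodule ℂ (E → ℂ) where
  carrier := {F | Differentiable ℂ F ∧
    ∃ C : ℝ, ∀ ζ, (1 + ‖ζ‖) * ‖F ζ * cexp (P ζ / 2)‖ ≤ C * (1 + ‖ζ‖) ^ n}
  zero_mem' := ⟨differentiable_const 0, 0, fun ζ => by simp⟩
  add_mem' := by
    rintro f g ⟨hf, C, hC⟩ ⟨hg, D, hD⟩
    refine ⟨hf.add hg, C + D, fun ζ => ?_⟩
    have h1 : (0:ℝ) ≤ 1 + ‖ζ‖ := by positivity
    calc (1 + ‖ζ‖) * ‖(f + g) ζ * cexp (P ζ / 2)‖
        ≤ (1 + ‖ζ‖) * (‖f ζ * cexp (P ζ / 2)‖ + ‖g ζ * cexp (P ζ / 2)‖) := by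
          gcongr
          rw [Pi.add_apply, add_mul]
          exact norm_add_le _ _
      _ ≤ (C + D) * (1 + ‖ζ‖) ^ n := by nlinarith [hC ζ, hD ζ]
  smul_mem' := by
    rintro c f ⟨hf, C, hC⟩
    refine ⟨hf.const_smul c, ‖c‖ * C, fun ζ => ?_⟩
    have h1 : (0:ℝ) ≤ ‖c‖ := norm_nonneg c
    calc (1 + ‖ζ‖) * ‖(c • f) ζ * cexp (P ζ / 2)‖
        = ‖c‖ * ((1 + ‖ζ‖) * ‖f ζ * cexp (P ζ / 2)‖) := by
          simp only [Pi.smul_apply, smul_eq_mul, norm_mul]; ring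
      _ ≤ ‖c‖ * (C * (1 + ‖ζ‖) ^ n) := mul_le_mul_of_nonneg_left (hC ζ) h1
      _ = ‖c‖ * C * (1 + ‖ζ‖) ^ n := by ring

theorem mem_Vsp {n : ℕ} {P : E → ℂ} {F : E → ℂ} :
    F ∈ Vsp n P ↔ Differentiable ℂ F ∧
      ∃ C : ℝ, ∀ ζ, (1 + ‖ζ‖) * ‖F ζ * cexp (P ζ / 2)‖ ≤ C * (1 + ‖ζ‖) ^ n := Iff.rfl

end Defs

section Meas

variable (E : Type*) [NormedAddCommGroup E] [InnerProductSpace ℂ E] [FiniteDimensional ℂ E]
  [MeasurableSpace E] [BorelSpace E]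

theorem integrable_gauss0 (μ : Measure E) [μ.IsAddHaarMeasure] :
    Integrable (fun z : E => Real.exp (-‖z‖ ^ 2)) μ := by
  letI : InnerProductSpace ℝ E := InnerProductSpace.complexToReal
  have h := GaussianFourier.integrable_cexp_neg_mul_sq_norm_add (V := E) (b := 1) (by simp) 0 0
  have h2 : Integrable (fun z : E => Real.exp (-‖z‖ ^ 2)) (volume : Measure E) := by
    refine h.norm.congr (Filter.Eventually.of_forall fun z => ?_)
    simp only [Complex.norm_exp]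
    congr 1
    simp [← Complex.ofReal_pow]
  rw [Measure.isAddLeftInvariant_eq_smul μ (volume : Measure E)]
  exact h2.smul_measure_nnreal

theorem gauss0_pos (μ : Measure E) [μ.IsAddHaarMeasure] :
    0 < ∫ z : E, Real.exp (-‖z‖ ^ 2) ∂μ := by
  rw [integral_pos_iff_support_of_nonneg (fun z => (Real.exp_pos _).le) (integrable_gauss0 E μ)]
  have : Function.support (fun z : E => Real.exp (-‖z‖ ^ 2)) = Set.univ := by
    ext z; simp
  rw [this]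
  exact Measure.measure_univ_pos.2 (NeZero.ne μ)

/-- The Haar measure `ω` of `E` normalised by `∫ e^{-|z|²} dω = 1`. -/
noncomputable def om : Measure E :=
  (ENNReal.ofReal (∫ z : E, Real.exp (-‖z‖ ^ 2) ∂(Measure.addHaar : Measure E)))⁻¹ •
    (Measure.addHaar : Measure E)

instance instHaarOm : (om E).IsAddHaarMeasure := by
  unfold om
  refine Measure.IsAddHaarMeasure.smul _ ?_ ?_
  · simp
  · have := gauss0_pos E (Measure.addHaar : Measure E)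
    simp [this]

theorem integral_gauss : ∫ z : E, Real.exp (-‖z‖ ^ 2) ∂(om E) = 1 := by
  unfold om
  rw [integral_smul_measure]
  have := gauss0_pos E (Measure.addHaar : Measure E)
  rw [ENNReal.toReal_inv, ENNReal.toReal_ofReal this.le, smul_eq_mul, inv_mul_cancel₀ this.ne']

end Meas

section RK

variable {E : Type*} [NormedAddCommGroup E] [InnerProductSpace ℂ E] [FiniteDimensional ℂ E]
  [MeasurableSpace E] [BorelSpace E]

/-- `k` is the reproducing kernel of the space `V` of entire functions in `L²(e^{-w} dω)`. -/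
structure IsRK (V : Submodule ℂ (E → ℂ)) (w : E → ℝ) (k : E → E → ℂ) : Prop where
  diff : ∀ f ∈ V, Differentiable ℂ f
  wcont : Continuous w
  mem : ∀ η, (fun ζ => k ζ η) ∈ V
  int : ∀ f ∈ V, Integrable (fun ζ => ‖f ζ‖ ^ 2 * Real.exp (-w ζ)) (om E)
  rep : ∀ f ∈ V, ∀ η, f η = ∫ ζ, f ζ * conj (k ζ η) * (Real.exp (-w ζ) : ℂ) ∂(om E)

/-- The rescaled kernel at `a`. -/
noncomputable def Lsc (Q : E → ℝ) (a : E) (n : ℕ) (k : E → E → ℂ) (ζ η : E) : ℂ :=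
  ((n : ℂ) ^ Module.finrank ℂ E)⁻¹ * k (sc a n ζ) (sc a n η) * (Real.exp (-(n * Q a)) : ℂ)
    * cexp (-(Pn Q a n ζ + conj (Pn Q a n η)) / 2)

end RK

/-- The limit kernel `L₀(ξ,η) = (2π)^{-1/2} e^{-ξ²/2 - η̄²/2} ∫_{-∞}^0 e^{t(ξ+η̄) - t²/2} dt`. -/
noncomputable def L0 (ξ η : ℂ) : ℂ :=
  ((Real.sqrt (2 * Real.pi))⁻¹ : ℝ) * cexp (-ξ ^ 2 / 2 - (conj η) ^ 2 / 2)
    * ∫ t in Set.Iic (0:ℝ), cexp (t * (ξ + conj η) - t ^ 2 / 2)

end Pool.Agent.Edge
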