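import Pool.Agent.Edge.Envel

/-!
# Basic facts on the blow-ups

`sc a n ζ = a + n^{-1/2} ζ`, `hq Q a v` the holomorphic quadratic part, `Pn Q a n ζ = n hq(n^{-1/2}ζ)`,
`bl Q F a n ζ = n (F(sc a n ζ) - Q a) - Re Pn`.
-/

namespace Pool.Agent.Edge

open MeasureTheory Filter Topology Complex

open scoped ComplexConjugate ContDiff

set_option linter.unusedSectionVars false

variable {E : Type*} [NormedAddCommGroup E] [InnerProductSpace ℂ E] [FiniteDimensional ℂ E]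

namespace BlowAux

/-- complex linear extension of a real linear functional -/
noncomputable def ext1 (L : E →ₗ[ℝ] ℝ) : E →ₗ[ℂ] ℂ :=
  Module.Dual.extendRCLike (𝕜 := ℂ) L

theorem ext1_apply (L : E →ₗ[ℝ] ℝ) (v : E) :
    ext1 L v = ((L v : ℝ) : ℂ) - I * ((L (I • v) : ℝ) : ℂ) := rfl

/-- the real functional `v ↦ (1/4) (B u v - B (iu) (iv))` -/
noncomputable def beta (B : E →L[ℝ] E →L[ℝ] ℝ) (u : E) : E →ₗ[ℝ] ℝ where
  toFun v := (1 / 4) * (B u v - B (I • u) (I • v))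
  map_add' v w := by simp only [smul_add, map_add]; ring
  map_smul' c v := by
    rw [smul_comm I c v]
    simp only [map_smul, smul_eq_mul, RingHom.id_apply]; ring

/-- the complex bilinear extension -/
noncomputable def ext2 (B : E →L[ℝ] E →L[ℝ] ℝ) : E →ₗ[ℂ] E →ₗ[ℂ] ℂ where
  toFun u := ext1 (beta B u)
  map_add' u w := by
    ext v
    rw [LinearMap.add_apply]
    simp only [ext1_apply, beta, LinearMap.coe_mk, AddHom.coe_mk, smul_add, map_add,
      add_apply]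
    push_cast
    ring
  map_smul' c u := by
    ext v
    rw [LinearMap.smul_apply, RingHom.id_apply]
    obtain ⟨x, y⟩ := c
    have hc : (⟨x, y⟩ : ℂ) = (x : ℂ) + (y : ℂ) * I := by
      apply Complex.ext <;> simp
    have h1 : (⟨x, y⟩ : ℂ) • u = x • u + y • (I • u) := by
      rw [hc, add_smul, mul_smul]; rfl
    have h2 : I • (⟨x, y⟩ : ℂ) • u = x • (I • u) - y • u := by
      rw [h1, smul_add, smul_comm I x u, smul_comm I y (I • u), smul_smul I I u, I_mul_I,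
        neg_one_smul, smul_neg, sub_eq_add_neg]
    have h3 : I • I • v = -v := by
      rw [smul_smul, I_mul_I, neg_one_smul]
    simp only [ext1_apply, beta, LinearMap.coe_mk, AddHom.coe_mk]
    rw [h2, h1]
    simp only [h3, map_add, map_sub,
      map_neg, map_smul, add_apply, sub_apply,
      smul_apply, smul_eq_mul]
    rw [hc]
    push_cast
    linear_combination ((1/4 : ℂ) * (y : ℂ) * ((B u (I • v) : ℝ) : ℂ)
      + (1/4 : ℂ) * (y : ℂ) * ((B (I • u) v : ℝ) : ℂ)) * I_mul_I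

theorem ext2_apply (B : E →L[ℝ] E →L[ℝ] ℝ) (u v : E) :
    ext2 B u v = (1 / 4) * (((B u v : ℝ) : ℂ) - ((B (I • u) (I • v) : ℝ) : ℂ))
      - (I / 4) * (((B u (I • v) : ℝ) : ℂ) + ((B (I • u) v : ℝ) : ℂ)) := by
  have h3 : I • I • v = -v := by
    rw [smul_smul, I_mul_I, neg_one_smul]
  show ext1 (beta B u) v = _
  simp only [ext1_apply, beta, LinearMap.coe_mk, AddHom.coe_mk, h3, map_neg]
  push_cast
  ring

theorem symm2 {F : E → ℝ} (hF : ContDiff ℝ 2 F) (a u v : E) :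
    fderiv ℝ (fderiv ℝ F) a u v = fderiv ℝ (fderiv ℝ F) a v u :=
  (hF.contDiffAt.isSymmSndFDerivAt (by simp)).eq u v

theorem hq_eq {F : E → ℝ} (hF : ContDiff ℝ 2 F) (a v : E) :
    hq F a v = ext1 (fderiv ℝ F a : E →ₗ[ℝ] ℝ) v + ext2 (fderiv ℝ (fderiv ℝ F) a) v v := by
  rw [ext2_apply, ext1_apply, symm2 hF a (I • v) v]
  unfold hq
  simp only [ContinuousLinearMap.coe_coe]
  ring

end BlowAux

open BlowAux

/-- `hq F a` is a complex quadratic polynomial:  `v ↦ L v - i L(iv)` is complex linear for real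
linear `L`, and `b(u,v) = ¼(B(u,v) - B(iu,iv)) - (i/4)(B(u,iv) + B(iu,v))` is complex bilinear for
real bilinear symmetric `B`, with `b(v,v)` the quadratic part of `hq`. -/
theorem hq_contDiff {F : E → ℝ} (hF : ContDiff ℝ 2 F) (a : E) : ContDiff ℂ ∞ (hq F a) := by
  have h1 : hq F a = fun v => LinearMap.toContinuousLinearMap (ext1 (fderiv ℝ F a : E →ₗ[ℝ] ℝ)) v +
      (LinearMap.toContinuousLinearMap
        ((LinearMap.toContinuousLinearMap : (E →ₗ[ℂ] ℂ) ≃ₗ[ℂ] (E →L[ℂ] ℂ)).toLinearMap ∘ₗ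
          ext2 (fderiv ℝ (fderiv ℝ F) a))) v v := by
    funext v
    rw [hq_eq hF]
    rfl
  rw [h1]
  exact (ContinuousLinearMap.contDiff _).add
    ((ContinuousLinearMap.contDiff _).clm_apply contDiff_id)

theorem hq_re (F : E → ℝ) (a v : E) :
    (hq F a v).re = fderiv ℝ F a v + (1 / 4) * (fderiv ℝ (fderiv ℝ F) a v v
      - fderiv ℝ (fderiv ℝ F) a (I • v) (I • v)) := by
  unfold hq
  have h4 : (1 / 4 : ℂ) = ((1 / 4 : ℝ) : ℂ) := by push_cast; ring
  have h5 : (I / 2 : ℂ) = ((1 / 2 : ℝ) : ℂ) * I := by push_cast; ring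
  rw [h4, h5]
  simp only [Complex.add_re, Complex.sub_re, Complex.mul_re, Complex.ofReal_re,
    Complex.ofReal_im, Complex.I_re, Complex.I_im, Complex.mul_im, Complex.sub_im]
  ring

theorem hq_zero (F : E → ℝ) (a : E) : hq F a 0 = 0 := by
  simp [hq]

theorem Pn_contDiff {Q : E → ℝ} (hQ : ContDiff ℝ 2 Q) (a : E) (n : ℕ) :
    ContDiff ℂ ∞ (Pn Q a n) := by
  have h1 : Pn Q a n = fun ζ => (n : ℂ) * hq Q a ((((Real.sqrt n)⁻¹ : ℝ) : ℂ) • ζ) := by
    funext ζ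
    unfold Pn
    rw [Complex.coe_smul]
  rw [h1]
  exact contDiff_const.mul ((hq_contDiff hQ a).comp (contDiff_const_smul _))

theorem Pn_zero (Q : E → ℝ) (a : E) (n : ℕ) : Pn Q a n 0 = 0 := by
  simp [Pn, hq_zero]

namespace BlowAux

theorem n_s_sq {n : ℕ} (hn : n ≠ 0) : (n : ℝ) * ((Real.sqrt n)⁻¹ * (Real.sqrt n)⁻¹) = 1 := by
  have h1 : (0 : ℝ) < n := by exact_mod_cast Nat.pos_of_ne_zero hn
  rw [← mul_inv, Real.mul_self_sqrt h1.le, mul_inv_cancel₀ h1.ne']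

theorem n_s_sq_le (n : ℕ) : (n : ℝ) * ((Real.sqrt n)⁻¹ * (Real.sqrt n)⁻¹) ≤ 1 := by
  rcases eq_or_ne n 0 with h | h
  · subst h; simp
  · exact (n_s_sq h).le

theorem s_nonneg (n : ℕ) : 0 ≤ (Real.sqrt n)⁻¹ := inv_nonneg.2 (Real.sqrt_nonneg _)

/-- multiplication by `i` -/
noncomputable def J (E : Type*) [NormedAddCommGroup E] [InnerProductSpace ℂ E] : E →L[ℝ] E :=
  I • ContinuousLinearMap.id ℝ E

theorem J_apply (v : E) : J E v = I • v := rfl

/-- the bilinear form of the real part of `hq` -/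
noncomputable def Bp (Q : E → ℝ) (a : E) : E →L[ℝ] E →L[ℝ] ℝ :=
  (1 / 2 : ℝ) • (fderiv ℝ (fderiv ℝ Q) a - (fderiv ℝ (fderiv ℝ Q) a).bilinearComp (J E) (J E))

theorem Bp_apply (Q : E → ℝ) (a u v : E) :
    Bp Q a u v = (1 / 2) * (fderiv ℝ (fderiv ℝ Q) a u v
      - fderiv ℝ (fderiv ℝ Q) a (I • u) (I • v)) := by
  simp [Bp, J_apply]

theorem Bp_symm {Q : E → ℝ} (hQ : ContDiff ℝ 2 Q) (a u v : E) : Bp Q a u v = Bp Q a v u := by
  rw [Bp_apply, Bp_apply, symm2 hQ a u v, symm2 hQ a (I • u) (I • v)]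

theorem Bp_I (Q : E → ℝ) (a v : E) : Bp Q a (I • v) (I • v) = -Bp Q a v v := by
  rw [Bp_apply, Bp_apply]
  have h3 : I • I • v = -v := by
    rw [smul_smul, I_mul_I, neg_one_smul]
  rw [h3]
  simp only [map_neg, neg_apply, neg_neg]
  ring

theorem hq_re' (Q : E → ℝ) (a v : E) :
    (hq Q a v).re = fderiv ℝ Q a v + (1 / 2) * Bp Q a v v := by
  rw [hq_re, Bp_apply]; ring

theorem hasFDerivAt_hq_re {Q : E → ℝ} (hQ : ContDiff ℝ 2 Q) (a v : E) :
    HasFDerivAt (fun v => (hq Q a v).re) (fderiv ℝ Q a + Bp Q a v) v := by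
  have h1 : (fun v => (hq Q a v).re) = fun v => fderiv ℝ Q a v + (1 / 2) * Bp Q a v v := by
    funext v; exact hq_re' Q a v
  rw [h1]
  have h2 : HasFDerivAt (fun v => Bp Q a v v)
      ((Bp Q a v).comp (ContinuousLinearMap.id ℝ E) + (Bp Q a).flip v) v :=
    (Bp Q a).hasFDerivAt.clm_apply (hasFDerivAt_id v)
  have h3 := ((fderiv ℝ Q a).hasFDerivAt (x := v)).add (h2.const_mul (1 / 2))
  refine h3.congr_fderiv ?_
  ext w
  simp only [add_apply, smul_apply,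
    ContinuousLinearMap.comp_apply, ContinuousLinearMap.flip_apply, smul_eq_mul,
    ContinuousLinearMap.id_apply]
  rw [Bp_symm hQ a w v]
  ring

theorem Pn_re (Q : E → ℝ) (a : E) (n : ℕ) (ζ : E) :
    (Pn Q a n ζ).re = n * (hq Q a (((Real.sqrt n)⁻¹ : ℝ) • ζ)).re := by
  unfold Pn
  rw [Complex.mul_re, Complex.natCast_re, Complex.natCast_im, zero_mul, sub_zero]

theorem hasFDerivAt_sc (a : E) (n : ℕ) (ζ : E) :
    HasFDerivAt (sc a n) (((Real.sqrt n)⁻¹ : ℝ) • ContinuousLinearMap.id ℝ E) ζ := by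
  unfold sc
  exact ((hasFDerivAt_id ζ).const_smul _).const_add a

/-- the derivative of a blow-up -/
theorem hasFDerivAt_bl {Q F : E → ℝ} (hQ : ContDiff ℝ 2 Q) (a : E) (n : ℕ) (ζ : E)
    (hF : DifferentiableAt ℝ F (sc a n ζ)) :
    HasFDerivAt (bl Q F a n) (((n : ℝ) * (Real.sqrt n)⁻¹) •
      (fderiv ℝ F (sc a n ζ) - fderiv ℝ Q a - Bp Q a (((Real.sqrt n)⁻¹ : ℝ) • ζ))) ζ := by
  have h1 : bl Q F a n = fun ζ => (n : ℝ) * (F (sc a n ζ) - Q a) -
      n * (hq Q a (((Real.sqrt n)⁻¹ : ℝ) • ζ)).re := by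
    funext ζ
    unfold bl
    rw [Pn_re]
  rw [h1]
  have h2 : HasFDerivAt (fun ζ => F (sc a n ζ) - Q a)
      ((fderiv ℝ F (sc a n ζ)).comp (((Real.sqrt n)⁻¹ : ℝ) • ContinuousLinearMap.id ℝ E)) ζ :=
    (hF.hasFDerivAt.comp ζ (hasFDerivAt_sc a n ζ)).sub_const _
  have h3 : HasFDerivAt (fun ζ => (hq Q a (((Real.sqrt n)⁻¹ : ℝ) • ζ)).re)
      ((fderiv ℝ Q a + Bp Q a (((Real.sqrt n)⁻¹ : ℝ) • ζ)).comp
        (((Real.sqrt n)⁻¹ : ℝ) • ContinuousLinearMap.id ℝ E)) ζ :=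
    (hasFDerivAt_hq_re hQ a (((Real.sqrt n)⁻¹ : ℝ) • ζ)).comp ζ
      ((hasFDerivAt_id ζ).const_smul ((Real.sqrt n)⁻¹ : ℝ))
  refine ((h2.const_mul (n : ℝ)).sub (h3.const_mul (n : ℝ))).congr_fderiv ?_
  ext w
  simp only [add_apply, smul_apply,
    ContinuousLinearMap.comp_apply, sub_apply, smul_eq_mul,
    ContinuousLinearMap.id_apply, map_smul]
  ring

end BlowAux

/-- Taylor expansion: `w_n(ζ) → ¼ Levi Q a ζ` locally uniformly
(`taylor_two` and `hq_re`: `w_n(ζ) = n (Q(a+v) - Q(a) - Re hq(v))`, `v = n^{-1/2}ζ`,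
`= n (¼ Levi Q a v + o(|v|²)) = ¼ Levi Q a ζ + n o(|ζ|²/n)`). -/
theorem bl_self_tendsto {Q : E → ℝ} (hQ : ContDiff ℝ 2 Q) (a : E) :
    TendstoLocallyUniformly (fun n => bl Q Q a n) (fun ζ => (1 / 4) * Levi Q a ζ) atTop := by
  rw [Metric.tendstoLocallyUniformly_iff]
  intro ε hε x
  set R := ‖x‖ + 1 with hR
  have hRpos : 0 < R := by positivity
  refine ⟨Metric.ball x 1, Metric.ball_mem_nhds x one_pos, ?_⟩
  have hdQ : ∀ w, DifferentiableAt ℝ Q w := fun w => hQ.differentiable (by norm_num) w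
  have hd2 : DifferentiableAt ℝ (fderiv ℝ Q) a :=
    ((hQ.fderiv_right (m := 1) (by norm_num)).differentiable (by norm_num)) a
  have hε' : 0 < ε / (2 * (R ^ 2)) := by positivity
  have ht := taylor_two (z := a) (Eventually.of_forall hdQ) hd2 hε'
  rw [Metric.eventually_nhds_iff] at ht
  obtain ⟨δ, hδ, ht⟩ := ht
  have hs : Tendsto (fun n : ℕ => (Real.sqrt n)⁻¹ * R) atTop (𝓝 (0 * R)) := by
    apply Tendsto.mul_const
    exact tendsto_inv_atTop_zero.comp (Real.tendsto_sqrt_atTop.comp tendsto_natCast_atTop_atTop)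
  rw [zero_mul] at hs
  filter_upwards [hs.eventually (gt_mem_nhds hδ), eventually_ne_atTop 0] with n hn hn0 ζ hζ
  have hζR : ‖ζ‖ ≤ R := by
    rw [mem_ball_iff_norm] at hζ
    have := norm_add_le x (ζ - x)
    rw [add_sub_cancel] at this
    linarith
  set s := (Real.sqrt n)⁻¹ with hsdef
  have hs0 : 0 ≤ s := s_nonneg n
  have hns : (n : ℝ) * (s * s) = 1 := n_s_sq hn0
  have hnorm : ‖s • ζ‖ ≤ s * R := by
    rw [norm_smul, Real.norm_eq_abs, abs_of_nonneg hs0]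
    exact mul_le_mul_of_nonneg_left hζR hs0
  have h1 := ht (y := s • ζ) (by rw [dist_zero_right]; exact hnorm.trans_lt hn)
  have h2 : Levi Q a (s • ζ) = s ^ 2 * Levi Q a ζ := by
    unfold Levi
    rw [smul_comm I s ζ]
    simp only [map_smul, smul_apply, smul_eq_mul]
    ring
  have h3 : bl Q Q a n ζ - (1 / 4) * Levi Q a ζ = n * (Q (a + s • ζ) - Q a -
      fderiv ℝ Q a (s • ζ) - (1 / 2) * fderiv ℝ (fderiv ℝ Q) a (s • ζ) (s • ζ)) := by
    have h4 : (1 / 4) * Levi Q a ζ = n * ((1 / 4) * Levi Q a (s • ζ)) := by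
      rw [h2]
      linear_combination (-(1 / 4) * Levi Q a ζ) * hns
    rw [h4]
    unfold bl
    rw [Pn_re, hq_re, ← hsdef]
    have h5 : sc a n ζ = a + s • ζ := rfl
    rw [h5]
    unfold Levi
    ring
  rw [Real.dist_eq, abs_sub_comm, h3, abs_mul, abs_of_nonneg (Nat.cast_nonneg n)]
  calc (n : ℝ) * |Q (a + s • ζ) - Q a - fderiv ℝ Q a (s • ζ) -
        (1 / 2) * fderiv ℝ (fderiv ℝ Q) a (s • ζ) (s • ζ)|
      ≤ n * (ε / (2 * R ^ 2) * ‖s • ζ‖ ^ 2) :=
        mul_le_mul_of_nonneg_left h1 (Nat.cast_nonneg n)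
    _ ≤ n * (ε / (2 * R ^ 2) * (s * R) ^ 2) := by
        gcongr
    _ = (n * (s * s)) * (ε / (2 * R ^ 2) * R ^ 2) := by ring
    _ = ε / 2 := by rw [hns]; field_simp
    _ < ε := by linarith

theorem bl_continuous {Q F : E → ℝ} (hQ : ContDiff ℝ 2 Q) (hF : Continuous F) (a : E) (n : ℕ) :
    Continuous (bl Q F a n) := by
  unfold bl
  have h1 : Continuous (sc a n) := by
    unfold sc
    fun_prop
  have h2 : Continuous (Pn Q a n) := (Pn_contDiff hQ a n).continuous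
  exact (continuous_const.mul ((hF.comp h1).sub continuous_const)).sub
    (Complex.continuous_re.comp h2)

theorem bl_env_psh {Q : E → ℝ} (hQ : IsPot Q) (a : E) (n : ℕ) : PSH (bl Q (env Q) a n) := by
  have h1 : PSH (fun ζ : E => env Q (sc a n ζ)) := (env_psh hQ).comp_sc a n
  have h2 : PSH (fun ζ : E => (n : ℝ) * (env Q (sc a n ζ) + (-Q a))) :=
    (h1.add (psh_const (-Q a))).const_mul (Nat.cast_nonneg n)
  have h3 : PSH (fun ζ : E => -(Pn Q a n ζ).re) :=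
    psh_neg_re ((Pn_contDiff hQ.cd a n).differentiable (by simp))
  have h4 := h2.add h3
  have h5 : bl Q (env Q) a n = fun ζ : E => (n : ℝ) * (env Q (sc a n ζ) + (-Q a)) +
      -(Pn Q a n ζ).re := by
    funext ζ
    unfold bl
    ring
  rw [h5]
  exact h4

theorem bl_env_le {Q : E → ℝ} (hQ : IsPot Q) (a : E) (n : ℕ) (ζ : E) :
    bl Q (env Q) a n ζ ≤ bl Q Q a n ζ := by
  unfold bl
  have h1 := env_le hQ (sc a n ζ)
  have h2 : (0 : ℝ) ≤ n := Nat.cast_nonneg n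
  nlinarith

/-- uniform `C^{1,1}` bound: `D(n·env Q(sc a n ζ)) = √n D(env Q)(sc a n ζ)` is `K`-Lipschitz,
and `Re Pn` has constant second derivative `D²(Re hq)`, independent of `n`. -/
theorem bl_env_C11 {Q : E → ℝ} (hQ : IsPot Q) (a : E) :
    ∃ K : ℝ, ∀ n : ℕ, C11 K (bl Q (env Q) a n) := by
  obtain ⟨K, hK0, hd, hK⟩ := env_C11 hQ
  refine ⟨K + ‖Bp Q a‖, fun n => ⟨by positivity, fun ζ =>
    (hasFDerivAt_bl hQ.cd a n ζ (hd _)).differentiableAt, ?_⟩⟩
  intro x y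
  rw [(hasFDerivAt_bl hQ.cd a n x (hd _)).fderiv, (hasFDerivAt_bl hQ.cd a n y (hd _)).fderiv]
  set s := (Real.sqrt n)⁻¹ with hsdef
  have hs0 : 0 ≤ s := s_nonneg n
  have hns : (n : ℝ) * (s * s) ≤ 1 := n_s_sq_le n
  have h1 : ((n : ℝ) * s) • (fderiv ℝ (env Q) (sc a n x) - fderiv ℝ Q a - Bp Q a (s • x)) -
      ((n : ℝ) * s) • (fderiv ℝ (env Q) (sc a n y) - fderiv ℝ Q a - Bp Q a (s • y)) =
      ((n : ℝ) * s) • ((fderiv ℝ (env Q) (sc a n x) - fderiv ℝ (env Q) (sc a n y)) -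
        Bp Q a (s • (x - y))) := by
    rw [← smul_sub, smul_sub s x y, map_sub]
    congr 1
    abel
  rw [h1, norm_smul, Real.norm_eq_abs, abs_of_nonneg (by positivity)]
  have h2 : ‖fderiv ℝ (env Q) (sc a n x) - fderiv ℝ (env Q) (sc a n y)‖ ≤ K * (s * ‖x - y‖) := by
    refine (hK _ _).trans (le_of_eq ?_)
    have h3 : sc a n x - sc a n y = s • (x - y) := by
      unfold sc
      rw [smul_sub]; abel
    rw [h3, norm_smul, Real.norm_eq_abs, abs_of_nonneg hs0]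
  have h3 : ‖Bp Q a (s • (x - y))‖ ≤ ‖Bp Q a‖ * (s * ‖x - y‖) := by
    refine ((Bp Q a).le_opNorm _).trans (le_of_eq ?_)
    rw [norm_smul, Real.norm_eq_abs, abs_of_nonneg hs0]
  calc (n : ℝ) * s * ‖(fderiv ℝ (env Q) (sc a n x) - fderiv ℝ (env Q) (sc a n y)) -
        Bp Q a (s • (x - y))‖
      ≤ (n : ℝ) * s * (K * (s * ‖x - y‖) + ‖Bp Q a‖ * (s * ‖x - y‖)) := by
        apply mul_le_mul_of_nonneg_left _ (by positivity)
        exact (norm_sub_le _ _).trans (add_le_add h2 h3)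
    _ = (n * (s * s)) * ((K + ‖Bp Q a‖) * ‖x - y‖) := by ring
    _ ≤ 1 * ((K + ‖Bp Q a‖) * ‖x - y‖) :=
        mul_le_mul_of_nonneg_right hns (by positivity)
    _ = (K + ‖Bp Q a‖) * ‖x - y‖ := one_mul _

/-- normalisation at `0` when `a` is in the contact set: `Q - env Q ≥ 0` has a minimum at `a`,
so `D(env Q)(a) = DQ(a)`. -/
theorem bl_env_zero {Q : E → ℝ} (hQ : IsPot Q) {a : E} (ha : env Q a = Q a) (n : ℕ) :
    bl Q (env Q) a n 0 = 0 ∧ fderiv ℝ (bl Q (env Q) a n) 0 = 0 := by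
  obtain ⟨K, hK0, hd, hK⟩ := env_C11 hQ
  have h0 : sc a n 0 = a := by
    unfold sc; rw [smul_zero, add_zero]
  constructor
  · unfold bl
    rw [h0, ha, Pn_zero, sub_self, mul_zero, Complex.zero_re, sub_zero]
  · rw [(hasFDerivAt_bl hQ.cd a n 0 (hd _)).fderiv, h0, smul_zero, map_zero, sub_zero]
    have h1 : fderiv ℝ (env Q) a = fderiv ℝ Q a := by
      have hdQ : DifferentiableAt ℝ Q a := hQ.cd.differentiable (by norm_num) a
      have hmin : IsLocalMin (fun w => Q w - env Q w) a := by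
        refine Filter.Eventually.of_forall fun w => ?_
        show Q a - env Q a ≤ Q w - env Q w
        have := env_le hQ w
        rw [ha]; linarith
      have h2 := hmin.fderiv_eq_zero
      rw [fderiv_fun_sub hdQ (hd a)] at h2
      exact (sub_eq_zero.1 h2).symm
    rw [h1, sub_self, smul_zero]

theorem bl_env_levi {Q : E → ℝ} (hQ : IsPot Q) (a : E) {n : ℕ} (hn : n ≠ 0) (ζ v : E)
    (hd : DifferentiableAt ℝ (fderiv ℝ (env Q)) (sc a n ζ)) :
    Levi (bl Q (env Q) a n) ζ v = Levi (env Q) (sc a n ζ) v := by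
  obtain ⟨K, hK0, hdE, hK⟩ := env_C11 hQ
  have h1 : fderiv ℝ (bl Q (env Q) a n) = fun ζ => ((n : ℝ) * (Real.sqrt n)⁻¹) •
      (fderiv ℝ (env Q) (sc a n ζ) - fderiv ℝ Q a - Bp Q a (((Real.sqrt n)⁻¹ : ℝ) • ζ)) := by
    funext ζ
    exact (hasFDerivAt_bl hQ.cd a n ζ (hdE _)).fderiv
  set s := (Real.sqrt n)⁻¹ with hsdef
  have hns : (n : ℝ) * (s * s) = 1 := n_s_sq hn
  have h2 : HasFDerivAt (fun ζ => fderiv ℝ (env Q) (sc a n ζ))
      ((fderiv ℝ (fderiv ℝ (env Q)) (sc a n ζ)).comp (s • ContinuousLinearMap.id ℝ E)) ζ :=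
    hd.hasFDerivAt.comp ζ (hasFDerivAt_sc a n ζ)
  have h3 : HasFDerivAt (fun ζ : E => Bp Q a (s • ζ))
      ((Bp Q a).comp (s • ContinuousLinearMap.id ℝ E)) ζ :=
    (Bp Q a).hasFDerivAt.comp ζ ((hasFDerivAt_id ζ).const_smul s)
  have h4 : HasFDerivAt (fderiv ℝ (bl Q (env Q) a n)) (((n : ℝ) * s) •
      ((fderiv ℝ (fderiv ℝ (env Q)) (sc a n ζ)).comp (s • ContinuousLinearMap.id ℝ E) -
        (Bp Q a).comp (s • ContinuousLinearMap.id ℝ E))) ζ := by
    rw [h1]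
    exact ((h2.sub_const (fderiv ℝ Q a)).sub h3).const_smul ((n : ℝ) * s)
  have h5 : ∀ w, fderiv ℝ (fderiv ℝ (bl Q (env Q) a n)) ζ w w =
      fderiv ℝ (fderiv ℝ (env Q)) (sc a n ζ) w w - Bp Q a w w := by
    intro w
    rw [h4.fderiv]
    simp only [smul_apply, ContinuousLinearMap.comp_apply,
      sub_apply, smul_eq_mul, ContinuousLinearMap.id_apply, map_smul]
    linear_combination (fderiv ℝ (fderiv ℝ (env Q)) (sc a n ζ) w w - Bp Q a w w) * hns
  unfold Levi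
  rw [h5, h5, Bp_I]
  ring

section meas

variable [MeasurableSpace E] [BorelSpace E]

/-- null sets are preserved by the affine scaling. -/
theorem ae_sc (a : E) {n : ℕ} (hn : n ≠ 0) {p : E → Prop} (h : ∀ᵐ z ∂(om E), p z) :
    ∀ᵐ ζ ∂(om E), p (sc a n ζ) := by
  have hs : (Real.sqrt n)⁻¹ ≠ 0 := by
    have : (0 : ℝ) < n := by exact_mod_cast Nat.pos_of_ne_zero hn
    positivity
  have : FiniteDimensional ℝ E := FiniteDimensional.complexToReal E
  rw [ae_iff] at h ⊢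
  have h1 : {ζ | ¬ p (sc a n ζ)} = (fun ζ : E => ((Real.sqrt n)⁻¹ : ℝ) • ζ) ⁻¹'
      ((fun ζ => a + ζ) ⁻¹' {z | ¬ p z}) := rfl
  rw [h1, Measure.addHaar_preimage_smul _ hs, measure_preimage_add, h, mul_zero]

/-- change of variables `z = a + n^{-1/2}ζ`: `∫ f(sc a n ζ) dω(ζ) = n^d ∫ f dω`. -/
theorem integral_sc {G : Type*} [NormedAddCommGroup G] [NormedSpace ℝ G] (a : E) {n : ℕ}
    (hn : n ≠ 0) (f : E → G) :
    ∫ ζ, f (sc a n ζ) ∂(om E) = ((n : ℝ) ^ Module.finrank ℂ E) • ∫ z, f z ∂(om E) := by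
  have : FiniteDimensional ℝ E := FiniteDimensional.complexToReal E
  have h0 : (0 : ℝ) < n := by exact_mod_cast Nat.pos_of_ne_zero hn
  have h1 := Measure.integral_comp_smul (om E) (fun ζ => f (a + ζ)) ((Real.sqrt n)⁻¹)
  have h2 : ∫ x, f (a + x) ∂(om E) = ∫ x, f x ∂(om E) := integral_add_left_eq_self f a
  rw [h2] at h1
  have h3 : |((Real.sqrt n)⁻¹ ^ Module.finrank ℝ E)⁻¹| = (n : ℝ) ^ Module.finrank ℂ E := by
    rw [finrank_real_of_complex, pow_mul, inv_pow, Real.sq_sqrt h0.le, inv_pow, inv_inv,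
      abs_of_pos (by positivity)]
  rw [h3] at h1
  exact h1

theorem integrable_sc {G : Type*} [NormedAddCommGroup G] (a : E) {n : ℕ}
    (hn : n ≠ 0) (f : E → G) :
    Integrable (fun ζ => f (sc a n ζ)) (om E) ↔ Integrable f (om E) := by
  have : FiniteDimensional ℝ E := FiniteDimensional.complexToReal E
  have hs : (Real.sqrt n)⁻¹ ≠ 0 := by
    have : (0 : ℝ) < n := by exact_mod_cast Nat.pos_of_ne_zero hn
    positivity
  have h1 := integrable_comp_smul_iff (om E) (fun ζ => f (a + ζ)) hs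
  have h2 : Integrable (fun ζ => f (a + ζ)) (om E) ↔ Integrable f (om E) := by
    constructor
    · intro h
      have := h.comp_add_left (-a)
      refine this.congr (Eventually.of_forall fun x => ?_)
      simp
    · intro h
      exact h.comp_add_left a
  exact h1.trans h2

end meas

end Pool.Agent.Edge
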