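import Pool.Agent.Edge.BlowBasic

/-!
# Blow-up of the envelope at almost every point of the contact set

`D = {env Q = Q}` is closed.  Almost every point `a` of `D` is a density point of `D`
(`Besicovitch.ae_tendsto_measure_inter_div_of_measurableSet`, or the version for
`IsUnifLocDoublingMeasure`).  At such a point let `u = Q - env Q ≥ 0`.
Claim: `u(z) = o(|z-a|²)`.  Let `K` be a Lipschitz constant of `Du` on `closedBall a 2`
(`Q` is `C²`, `env Q` is `C^{1,1}`).  Given `ε ∈ (0,1)`, for `r = |z-a|` small the ball `ball z (ε r)`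
meets `D` (otherwise `D ∩ closedBall a (2r)` misses `ball z (εr) ⊆ closedBall a (2r)` and has relative
measure `≤ 1 - (ε/2)^{2d}`, contradicting density).  Take `z' ∈ D ∩ ball z (εr)`: `u z' = 0` and
`Du z' = 0` (minimum), so `u z ≤ (K/2)|z-z'|² ≤ (K/2) ε² r²`.
Then `bl Q (env Q) a n ζ = bl Q Q a n ζ - n u(a + n^{-1/2}ζ)` and `n u(a+n^{-1/2}ζ) ≤ ε'|ζ|²`
for `n` large, uniformly on balls; conclude by `bl_self_tendsto`.
-/

namespace Pool.Agent.Edge

open MeasureTheory Filter Topology Complex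

open scoped ComplexConjugate

variable {E : Type*} [NormedAddCommGroup E] [InnerProductSpace ℂ E] [FiniteDimensional ℂ E]
  [MeasurableSpace E] [BorelSpace E]

/-- density points: small balls around nearby points meet the set. -/
theorem bb_density (D : Set E) : ∀ᵐ a ∂(om E), a ∈ D → ∀ N : ℕ, ∀ᶠ z in 𝓝[≠] a,
    (D ∩ Metric.closedBall z ((1 / ((N : ℝ) + 1)) * ‖z - a‖)).Nonempty := by
  have hfd : FiniteDimensional ℝ E := FiniteDimensional.complexToReal E
  have h1 : ∀ᵐ a ∂(om E).restrict D, ∀ N : ℕ,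
      ∀ {ι : Type _} {l : Filter ι} (w : ι → E) (δ : ι → ℝ) (_ : Tendsto δ l (𝓝[>] 0))
      (_ : ∀ᶠ j in l, a ∈ Metric.closedBall (w j) (((N : ℝ) + 1) * δ j)),
      Tendsto (fun j => (om E) (D ∩ Metric.closedBall (w j) (δ j)) /
        (om E) (Metric.closedBall (w j) (δ j))) l (𝓝 1) :=
    ae_all_iff.2 fun N => IsUnifLocDoublingMeasure.ae_tendsto_measure_inter_div (om E) D
      ((N : ℝ) + 1)
  have h2 := ae_imp_of_ae_restrict h1
  filter_upwards [h2] with a ha haD N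
  have h3 := ha haD N (l := 𝓝[≠] a) (fun z => z) (fun z => (1 / ((N : ℝ) + 1)) * ‖z - a‖)
    (by
      refine tendsto_nhdsWithin_iff.2 ⟨?_, ?_⟩
      · have hc : Continuous fun z : E => (1 / ((N : ℝ) + 1)) * ‖z - a‖ :=
          continuous_const.mul (continuous_id.sub continuous_const).norm
        have := (hc.tendsto a).mono_left (nhdsWithin_le_nhds (s := {a}ᶜ))
        simpa using this
      · filter_upwards [self_mem_nhdsWithin] with z hz
        have hz' : z ≠ a := hz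
        have : 0 < ‖z - a‖ := norm_pos_iff.2 (sub_ne_zero.2 hz')
        exact mul_pos (by positivity) this)
    (by
      refine Eventually.of_forall fun z => ?_
      rw [Metric.mem_closedBall, dist_comm, dist_eq_norm]
      have : ((N : ℝ) + 1) ≠ 0 := by positivity
      rw [← mul_assoc, mul_one_div_cancel this, one_mul])
  have h4 : ∀ᶠ z in 𝓝[≠] a, (0 : ENNReal) <
      (om E) (D ∩ Metric.closedBall z ((1 / ((N : ℝ) + 1)) * ‖z - a‖)) /
        (om E) (Metric.closedBall z ((1 / ((N : ℝ) + 1)) * ‖z - a‖)) :=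
    (tendsto_order.1 h3).1 _ zero_lt_one
  filter_upwards [h4] with z hz
  rw [Set.nonempty_iff_ne_empty]
  intro hemp
  rw [hemp] at hz
  simp at hz

omit [MeasurableSpace E] [BorelSpace E] in
/-- at density points of the contact set `Q - env Q = o(|z-a|²)`. -/
theorem bb_small {Q : E → ℝ} (hQ : IsPot Q) {a : E} (ha : env Q a = Q a)
    (hd : ∀ N : ℕ, ∀ᶠ z in 𝓝[≠] a,
      ({z | env Q z = Q z} ∩ Metric.closedBall z ((1 / ((N : ℝ) + 1)) * ‖z - a‖)).Nonempty)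
    {η : ℝ} (hη : 0 < η) : ∀ᶠ z in 𝓝 a, Q z - env Q z ≤ η * ‖z - a‖ ^ 2 := by
  obtain ⟨Ke, hKe⟩ := env_C11 hQ
  have hQ1 : ContDiffAt ℝ 1 (fderiv ℝ Q) a :=
    (hQ.cd.contDiffAt (x := a)).fderiv_right (by norm_num)
  obtain ⟨K₁, t, ht, hK₁⟩ := hQ1.exists_lipschitzOnWith
  obtain ⟨ρ, hρ, hρt⟩ := Metric.mem_nhds_iff.1 ht
  set K : ℝ := K₁ + Ke with hK
  have hK0 : 0 ≤ K := add_nonneg K₁.2 hKe.1
  have hQd : Differentiable ℝ Q := hQ.cd.differentiable (by norm_num)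
  have hud : ∀ z, DifferentiableAt ℝ (fun z => Q z - env Q z) z := fun z =>
    (hQd z).sub (hKe.2.1 z)
  have hfu : ∀ z, fderiv ℝ (fun z => Q z - env Q z) z = fderiv ℝ Q z - fderiv ℝ (env Q) z :=
    fun z => fderiv_fun_sub (hQd z) (hKe.2.1 z)
  have hLip : ∀ y ∈ Metric.ball a ρ, ∀ z ∈ Metric.ball a ρ,
      ‖fderiv ℝ (fun z => Q z - env Q z) y - fderiv ℝ (fun z => Q z - env Q z) z‖ ≤
        K * ‖y - z‖ := by
    intro y hy z hz
    rw [hfu, hfu]
    have h1 : ‖fderiv ℝ Q y - fderiv ℝ Q z‖ ≤ K₁ * ‖y - z‖ := by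
      have := hK₁.dist_le_mul y (hρt hy) z (hρt hz)
      rwa [dist_eq_norm, dist_eq_norm] at this
    have h2 := hKe.2.2 y z
    calc ‖fderiv ℝ Q y - fderiv ℝ (env Q) y - (fderiv ℝ Q z - fderiv ℝ (env Q) z)‖
        = ‖(fderiv ℝ Q y - fderiv ℝ Q z) - (fderiv ℝ (env Q) y - fderiv ℝ (env Q) z)‖ := by
          congr 1; abel
      _ ≤ ‖fderiv ℝ Q y - fderiv ℝ Q z‖ + ‖fderiv ℝ (env Q) y - fderiv ℝ (env Q) z‖ :=
          norm_sub_le _ _
      _ ≤ K * ‖y - z‖ := by rw [hK]; linarith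
  have hcrit : ∀ z, env Q z = Q z → fderiv ℝ (fun z => Q z - env Q z) z = 0 := by
    intro z hz
    have hmin : IsLocalMin (fun z => Q z - env Q z) z := by
      refine Eventually.of_forall fun w => ?_
      have := env_le hQ w
      simp only [hz, sub_self]
      linarith
    exact hmin.fderiv_eq_zero
  obtain ⟨N, hN⟩ : ∃ N : ℕ, K * (1 / ((N : ℝ) + 1)) ^ 2 ≤ η := by
    obtain ⟨N, hN⟩ := exists_nat_ge (K / η)
    refine ⟨N, ?_⟩
    have h1 : K ≤ η * ((N : ℝ) + 1) := by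
      rw [div_le_iff₀ hη] at hN
      nlinarith
    have h2 : (1 : ℝ) ≤ (N : ℝ) + 1 := by
      have : (0 : ℝ) ≤ N := Nat.cast_nonneg N
      linarith
    have h3 : (0 : ℝ) < (N : ℝ) + 1 := by positivity
    rw [div_pow, one_pow, mul_one_div, div_le_iff₀ (by positivity)]
    nlinarith [mul_le_mul_of_nonneg_left h2 (mul_nonneg hη.le h3.le)]
  have hball : ∀ᶠ z in 𝓝[≠] a, z ∈ Metric.ball a (ρ / 2) :=
    mem_nhdsWithin_of_mem_nhds (Metric.ball_mem_nhds a (half_pos hρ))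
  have hpunct : ∀ᶠ z in 𝓝[≠] a, Q z - env Q z ≤ η * ‖z - a‖ ^ 2 := by
    filter_upwards [hd N, hball] with z hz hzb
    obtain ⟨z', hz'D, hz'b⟩ := hz
    have hza : ‖z - a‖ < ρ / 2 := by rwa [Metric.mem_ball, dist_eq_norm] at hzb
    have hε1 : 1 / ((N : ℝ) + 1) ≤ 1 := by
      rw [div_le_one (by positivity)]
      have : (0 : ℝ) ≤ N := Nat.cast_nonneg N
      linarith
    have hzz' : ‖z' - z‖ ≤ 1 / ((N : ℝ) + 1) * ‖z - a‖ := by
      rwa [Metric.mem_closedBall, dist_eq_norm] at hz'b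
    have hzz'1 : ‖z' - z‖ ≤ ‖z - a‖ := by
      refine hzz'.trans ?_
      have := norm_nonneg (z - a)
      nlinarith
    have hz'a : z' ∈ Metric.ball a ρ := by
      rw [Metric.mem_ball, dist_eq_norm]
      calc ‖z' - a‖ = ‖(z' - z) + (z - a)‖ := by congr 1; abel
        _ ≤ ‖z' - z‖ + ‖z - a‖ := norm_add_le _ _
        _ < ρ := by linarith
    have hzball : z ∈ Metric.ball a ρ := by
      rw [Metric.mem_ball, dist_eq_norm]; linarith
    have hseg : segment ℝ z' z ⊆ Metric.ball a ρ :=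
      (convex_ball a ρ).segment_subset hz'a hzball
    have hmv := Convex.norm_image_sub_le_of_norm_fderiv_le (𝕜 := ℝ)
      (f := fun z => Q z - env Q z) (s := segment ℝ z' z) (x := z') (y := z)
      (C := K * ‖z - z'‖) (fun y _ => hud y)
      (fun y hy => by
        have h1 := hLip y (hseg hy) z' hz'a
        rw [hcrit z' hz'D, sub_zero] at h1
        refine h1.trans ?_
        have h2 : ‖y - z'‖ ≤ ‖z - z'‖ := norm_sub_le_of_mem_segment hy
        gcongr) (convex_segment z' z) (left_mem_segment ℝ z' z) (right_mem_segment ℝ z' z)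
    have hz'0 : Q z' - env Q z' = 0 := by
      have : env Q z' = Q z' := hz'D
      rw [this, sub_self]
    rw [hz'0, sub_zero, Real.norm_eq_abs] at hmv
    have h5 := (le_abs_self _).trans hmv
    have h6 : ‖z - z'‖ ≤ 1 / ((N : ℝ) + 1) * ‖z - a‖ := by rwa [norm_sub_rev]
    calc Q z - env Q z ≤ K * ‖z - z'‖ * ‖z - z'‖ := h5
      _ ≤ K * (1 / ((N : ℝ) + 1) * ‖z - a‖) * (1 / ((N : ℝ) + 1) * ‖z - a‖) := by gcongr
      _ = K * (1 / ((N : ℝ) + 1)) ^ 2 * ‖z - a‖ ^ 2 := by ring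
      _ ≤ η * ‖z - a‖ ^ 2 := by gcongr
  rw [eventually_nhdsWithin_iff] at hpunct
  filter_upwards [hpunct] with z hz
  by_cases hza : z = a
  · subst hza
    simp [ha]
  · exact hz hza

theorem blow_bulk {Q : E → ℝ} (hQ : IsPot Q) :
    ∀ᵐ a ∂(om E), env Q a = Q a →
      TendstoLocallyUniformly (fun n => bl Q (env Q) a n) (fun ζ => (1 / 4) * Levi Q a ζ)
        atTop := by
  filter_upwards [bb_density {z : E | env Q z = Q z}] with a ha haD
  have hsmall := fun (η : ℝ) (hη : 0 < η) => bb_small hQ haD (ha haD) hη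
  have hcont : Continuous fun ζ : E => (1 / 4) * Levi Q a ζ := by
    have h1 : Continuous fun v : E => I • v := continuous_const_smul I
    unfold Levi
    exact continuous_const.mul (((fderiv ℝ (fderiv ℝ Q) a).continuous.clm_apply continuous_id).add
      (((fderiv ℝ (fderiv ℝ Q) a).continuous.comp h1).clm_apply h1))
  have hself := (tlu_iff hcont).1 (bl_self_tendsto hQ.cd a)
  refine (tlu_iff hcont).2 fun ζ₀ => ?_
  have hdiff : Tendsto (fun p : ℕ × E => (p.1 : ℝ) * (Q (sc a p.1 p.2) - env Q (sc a p.1 p.2)))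
      (atTop ×ˢ 𝓝 ζ₀) (𝓝 0) := by
    rw [Metric.tendsto_nhds]
    intro ε hε
    set η : ℝ := ε / (2 * (‖ζ₀‖ + 1) ^ 2) with hη
    have hη0 : 0 < η := by positivity
    have hsc : Tendsto (fun p : ℕ × E => sc a p.1 p.2) (atTop ×ˢ 𝓝 ζ₀) (𝓝 a) := by
      have h1 : Tendsto (fun n : ℕ => (Real.sqrt n)⁻¹) atTop (𝓝 0) :=
        tendsto_inv_atTop_zero.comp
          ((Real.tendsto_sqrt_atTop).comp tendsto_natCast_atTop_atTop)
      have h2 : Tendsto (fun p : ℕ × E => a + ((Real.sqrt p.1)⁻¹ : ℝ) • p.2) (atTop ×ˢ 𝓝 ζ₀)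
          (𝓝 (a + (0 : ℝ) • ζ₀)) :=
        tendsto_const_nhds.add ((h1.comp tendsto_fst).smul tendsto_snd)
      simpa [sc] using h2
    have h3 : ∀ᶠ p : ℕ × E in atTop ×ˢ 𝓝 ζ₀, p.1 ≠ 0 :=
      tendsto_fst.eventually (eventually_ne_atTop 0)
    have h4 : ∀ᶠ p : ℕ × E in atTop ×ˢ 𝓝 ζ₀, ‖p.2‖ < ‖ζ₀‖ + 1 := by
      have : ∀ᶠ z in 𝓝 ζ₀, ‖z‖ < ‖ζ₀‖ + 1 :=
        (tendsto_order.1 (continuous_norm.tendsto ζ₀)).2 _ (by linarith)
      exact tendsto_snd.eventually this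
    filter_upwards [hsc.eventually (hsmall η hη0), h3, h4] with p hp hp0 hpn
    have hnn : 0 ≤ (p.1 : ℝ) * (Q (sc a p.1 p.2) - env Q (sc a p.1 p.2)) :=
      mul_nonneg (Nat.cast_nonneg _) (sub_nonneg.2 (env_le hQ _))
    rw [Real.dist_eq, sub_zero, abs_of_nonneg hnn]
    have hp1 : (0 : ℝ) < p.1 := by exact_mod_cast Nat.pos_of_ne_zero hp0
    have hnorm : ‖sc a p.1 p.2 - a‖ ^ 2 = (p.1 : ℝ)⁻¹ * ‖p.2‖ ^ 2 := by
      unfold sc
      rw [add_sub_cancel_left, norm_smul, mul_pow, norm_inv, Real.norm_of_nonneg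
        (Real.sqrt_nonneg _), inv_pow, Real.sq_sqrt hp1.le]
    rw [hnorm] at hp
    have hb : ‖p.2‖ ^ 2 ≤ (‖ζ₀‖ + 1) ^ 2 := by gcongr
    calc (p.1 : ℝ) * (Q (sc a p.1 p.2) - env Q (sc a p.1 p.2))
        ≤ (p.1 : ℝ) * (η * ((p.1 : ℝ)⁻¹ * ‖p.2‖ ^ 2)) := by gcongr
      _ = η * ‖p.2‖ ^ 2 := by field_simp
      _ ≤ η * (‖ζ₀‖ + 1) ^ 2 := by gcongr
      _ = ε / 2 := by rw [hη]; field_simp
      _ < ε := by linarith
  have h5 := (hself ζ₀).sub hdiff
  rw [sub_zero] at h5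
  refine h5.congr fun p => ?_
  simp only [bl]
  ring

end Pool.Agent.Edge
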