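import Pool.Agent.Edge.LeviCalc

/-!
# Compactness (Arzelà–Ascoli by a diagonal argument)
-/

namespace Pool.Agent.Edge

open MeasureTheory Filter Topology Complex

open scoped ComplexConjugate

section gen

variable {F : Type*} [NormedAddCommGroup F] [NormedSpace ℝ F] [FiniteDimensional ℝ F]
variable {G : Type*} [NormedAddCommGroup G] [NormedSpace ℝ G] [FiniteDimensional ℝ G]

omit [NormedSpace ℝ F] [FiniteDimensional ℝ F] [NormedSpace ℝ G] [FiniteDimensional ℝ G] in
/-- a pointwise limit is Lipschitz on balls. -/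
theorem limit_lip {f : ℕ → F → G} {g : F → G}
    (hl : ∀ R : ℝ, ∃ C : ℝ, ∀ᶠ n in atTop, ∀ z w, ‖z‖ ≤ R → ‖w‖ ≤ R →
      ‖f n z - f n w‖ ≤ C * ‖z - w‖)
    (h : ∀ z, Tendsto (fun n => f n z) atTop (𝓝 (g z))) (R : ℝ) :
    ∃ C : ℝ, 0 ≤ C ∧ ∀ z w, ‖z‖ ≤ R → ‖w‖ ≤ R → ‖g z - g w‖ ≤ C * ‖z - w‖ := by
  obtain ⟨C, hC⟩ := hl R
  refine ⟨max C 0, le_max_right _ _, fun z w hz hw => ?_⟩
  have h1 : Tendsto (fun n => ‖f n z - f n w‖) atTop (𝓝 ‖g z - g w‖) :=
    ((h z).sub (h w)).norm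
  have h2 : ‖g z - g w‖ ≤ C * ‖z - w‖ := by
    apply le_of_tendsto h1
    filter_upwards [hC] with n hn
    exact hn z w hz hw
  exact h2.trans (mul_le_mul_of_nonneg_right (le_max_left _ _) (norm_nonneg _))

omit [NormedSpace ℝ F] [FiniteDimensional ℝ F] [NormedSpace ℝ G] [FiniteDimensional ℝ G] in
theorem limit_continuous {f : ℕ → F → G} {g : F → G}
    (hl : ∀ R : ℝ, ∃ C : ℝ, ∀ᶠ n in atTop, ∀ z w, ‖z‖ ≤ R → ‖w‖ ≤ R →
      ‖f n z - f n w‖ ≤ C * ‖z - w‖)
    (h : ∀ z, Tendsto (fun n => f n z) atTop (𝓝 (g z))) : Continuous g := by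
  rw [continuous_iff_continuousAt]
  intro x
  obtain ⟨C, hC0, hC⟩ := limit_lip hl h (‖x‖ + 1)
  rw [ContinuousAt, tendsto_iff_norm_sub_tendsto_zero]
  have h1 : Tendsto (fun y => C * ‖y - x‖) (𝓝 x) (𝓝 0) := by
    have : Tendsto (fun y => C * ‖y - x‖) (𝓝 x) (𝓝 (C * ‖x - x‖)) := by
      apply Continuous.tendsto
      fun_prop
    simpa using this
  refine squeeze_zero' (Filter.Eventually.of_forall fun y => norm_nonneg _) ?_ h1
  filter_upwards [Metric.ball_mem_nhds x one_pos] with y hy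
  apply hC
  · have h2 : ‖y - x‖ < 1 := by
      rw [← dist_eq_norm]
      exact hy
    have h3 := norm_add_le (y - x) x
    rw [sub_add_cancel] at h3
    linarith
  · linarith

omit [NormedSpace ℝ F] [FiniteDimensional ℝ F] [NormedSpace ℝ G] [FiniteDimensional ℝ G] in
/-- Pointwise convergence together with equi-Lipschitz bounds gives locally uniform convergence. -/
theorem tlu_of_lip {f : ℕ → F → G} {g : F → G}
    (hl : ∀ R : ℝ, ∃ C : ℝ, ∀ᶠ n in atTop, ∀ z w, ‖z‖ ≤ R → ‖w‖ ≤ R →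
      ‖f n z - f n w‖ ≤ C * ‖z - w‖)
    (h : ∀ z, Tendsto (fun n => f n z) atTop (𝓝 (g z))) :
    TendstoLocallyUniformly f g atTop := by
  rw [tlu_iff (limit_continuous hl h)]
  intro x
  obtain ⟨C, hC⟩ := hl (‖x‖ + 1)
  rw [tendsto_iff_norm_sub_tendsto_zero]
  have h1 : Tendsto (fun p : ℕ × F => max C 0 * ‖p.2 - x‖ + ‖f p.1 x - g x‖) (atTop ×ˢ 𝓝 x)
      (𝓝 (0 + 0)) := by
    apply Tendsto.add
    · have h2 : Tendsto (fun y : F => max C 0 * ‖y - x‖) (𝓝 x) (𝓝 0) := by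
        have : Tendsto (fun y => max C 0 * ‖y - x‖) (𝓝 x) (𝓝 (max C 0 * ‖x - x‖)) := by
          apply Continuous.tendsto
          fun_prop
        simpa using this
      exact h2.comp tendsto_snd
    · have h2 : Tendsto (fun n : ℕ => ‖f n x - g x‖) atTop (𝓝 0) :=
        tendsto_iff_norm_sub_tendsto_zero.mp (h x)
      exact h2.comp tendsto_fst
  rw [add_zero] at h1
  refine squeeze_zero' (Filter.Eventually.of_forall fun y => norm_nonneg _) ?_ h1
  have h3 : ∀ᶠ p : ℕ × F in atTop ×ˢ 𝓝 x, (∀ z w, ‖z‖ ≤ ‖x‖ + 1 → ‖w‖ ≤ ‖x‖ + 1 →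
      ‖f p.1 z - f p.1 w‖ ≤ C * ‖z - w‖) ∧ p.2 ∈ Metric.ball x 1 := by
    exact hC.prod_mk (Metric.ball_mem_nhds x one_pos)
  filter_upwards [h3] with p hp
  have h2 : ‖p.2 - x‖ < 1 := by
    rw [← dist_eq_norm]
    exact hp.2
  have h4 := norm_add_le (p.2 - x) x
  rw [sub_add_cancel] at h4
  have h5 := hp.1 p.2 x (by linarith) (by linarith)
  have h6 : C * ‖p.2 - x‖ ≤ max C 0 * ‖p.2 - x‖ :=
    mul_le_mul_of_nonneg_right (le_max_left _ _) (norm_nonneg _)
  have h7 : ‖f p.1 p.2 - g x‖ ≤ ‖f p.1 p.2 - f p.1 x‖ + ‖f p.1 x - g x‖ := by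
    have := norm_add_le (f p.1 p.2 - f p.1 x) (f p.1 x - g x)
    rwa [sub_add_sub_cancel] at this
  linarith

/-- Extraction: a sequence of functions which is (eventually) uniformly bounded and uniformly
Lipschitz on every ball has a locally uniformly convergent subsequence.
Proof: countable dense set `D ⊆ F`; for `x ∈ D` the values `f n x` (for `n` large) lie in a compact
ball, so by compactness of a countable product of compact balls (first countable, `IsSeqCompact`)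
there is a subsequence converging on `D`; equi-Lipschitz on balls gives a locally uniform Cauchy
sequence. -/
theorem exists_subseq_tendsto {f : ℕ → F → G}
    (hb : ∀ R : ℝ, ∃ C : ℝ, ∀ᶠ n in atTop, ∀ z, ‖z‖ ≤ R → ‖f n z‖ ≤ C)
    (hl : ∀ R : ℝ, ∃ C : ℝ, ∀ᶠ n in atTop, ∀ z w, ‖z‖ ≤ R → ‖w‖ ≤ R →
      ‖f n z - f n w‖ ≤ C * ‖z - w‖) :
    ∃ (θ : ℕ → ℕ) (g : F → G), StrictMono θ ∧ Continuous g ∧
      TendstoLocallyUniformly (fun k => f (θ k)) g atTop := by
  have hprop : ProperSpace G := FiniteDimensional.proper ℝ G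
  have hpropF : ProperSpace F := FiniteDimensional.proper ℝ F
  have hcomp : CompleteSpace G := inferInstance
  set x : ℕ → F := TopologicalSpace.denseSeq F with hx
  have hdense : DenseRange x := TopologicalSpace.denseRange_denseSeq F
  -- bounds
  have hbd : ∀ k, ∃ C : ℝ, ∀ n, ‖f n (x k)‖ ≤ C := by
    intro k
    obtain ⟨C, hC⟩ := hb ‖x k‖
    obtain ⟨N, hN⟩ := eventually_atTop.mp hC
    refine ⟨C ⊔ ∑ n ∈ Finset.range N, ‖f n (x k)‖, fun n => ?_⟩
    by_cases hn : N ≤ n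
    · exact (hN n hn (x k) le_rfl).trans le_sup_left
    · refine le_trans ?_ le_sup_right
      exact Finset.single_le_sum (f := fun n => ‖f n (x k)‖) (fun _ _ => norm_nonneg _)
        (Finset.mem_range.mpr (by omega))
  choose C hC using hbd
  have hcpt : IsCompact (Set.pi Set.univ fun k => Metric.closedBall (0 : G) (C k)) :=
    isCompact_univ_pi fun k => isCompact_closedBall _ _
  obtain ⟨a, -, θ, hθ, hconv⟩ := hcpt.tendsto_subseq (x := fun n k => f n (x k)) (by
    intro n k _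
    rw [mem_closedBall_zero_iff]
    exact hC k n)
  have hconvk : ∀ k, Tendsto (fun n => f (θ n) (x k)) atTop (𝓝 (a k)) := by
    intro k
    exact (tendsto_pi_nhds.mp hconv) k
  have hθt : Tendsto θ atTop atTop := hθ.tendsto_atTop
  have hl' : ∀ R : ℝ, ∃ C : ℝ, ∀ᶠ n in atTop, ∀ z w, ‖z‖ ≤ R → ‖w‖ ≤ R →
      ‖f (θ n) z - f (θ n) w‖ ≤ C * ‖z - w‖ := by
    intro R
    obtain ⟨C, hC⟩ := hl R
    exact ⟨C, hθt.eventually hC⟩
  have hcauchy : ∀ z, CauchySeq (fun n => f (θ n) z) := by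
    intro z
    obtain ⟨K, hK⟩ := hl' (‖z‖ + 1)
    obtain ⟨N1, hN1⟩ := eventually_atTop.mp hK
    rw [Metric.cauchySeq_iff]
    intro ε hε
    obtain ⟨δ, hδ, hδ1⟩ : ∃ δ : ℝ, 0 < δ ∧ δ ≤ 1 ∧ |K| * δ ≤ ε / 4 := by
      refine ⟨min 1 (ε / (4 * (|K| + 1))), lt_min one_pos (by positivity), min_le_left _ _, ?_⟩
      have h1 : min 1 (ε / (4 * (|K| + 1))) ≤ ε / (4 * (|K| + 1)) := min_le_right _ _
      have h2 : 0 ≤ |K| := abs_nonneg _
      calc |K| * min 1 (ε / (4 * (|K| + 1))) ≤ |K| * (ε / (4 * (|K| + 1))) :=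
            mul_le_mul_of_nonneg_left h1 h2
        _ ≤ (|K| + 1) * (ε / (4 * (|K| + 1))) := by
            apply mul_le_mul_of_nonneg_right (by linarith) (by positivity)
        _ = ε / 4 := by
            field_simp
    obtain ⟨k, hk⟩ := Metric.denseRange_iff.mp hdense z δ hδ
    rw [dist_eq_norm] at hk
    have hxk : ‖x k‖ ≤ ‖z‖ + 1 := by
      have := norm_sub_norm_le (x k) z
      rw [norm_sub_rev] at hk
      linarith [hδ1.1]
    obtain ⟨N2, hN2⟩ := Metric.cauchySeq_iff.mp (hconvk k).cauchySeq (ε / 4) (by linarith)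
    refine ⟨max N1 N2, fun p hp q hq => ?_⟩
    have hp1 := hN1 p (le_trans (le_max_left _ _) hp) z (x k) (by linarith) hxk
    have hq1 := hN1 q (le_trans (le_max_left _ _) hq) z (x k) (by linarith) hxk
    have hpq := hN2 p (le_trans (le_max_right _ _) hp) q (le_trans (le_max_right _ _) hq)
    have hKz : K * ‖z - x k‖ ≤ ε / 4 := by
      calc K * ‖z - x k‖ ≤ |K| * ‖z - x k‖ :=
            mul_le_mul_of_nonneg_right (le_abs_self K) (norm_nonneg _)
        _ ≤ |K| * δ := mul_le_mul_of_nonneg_left hk.le (abs_nonneg _)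
        _ ≤ ε / 4 := hδ1.2
    rw [dist_eq_norm] at hpq ⊢
    have h1 : f (θ p) z - f (θ q) z = (f (θ p) z - f (θ p) (x k)) +
        (f (θ p) (x k) - f (θ q) (x k)) + -(f (θ q) z - f (θ q) (x k)) := by abel
    rw [h1]
    refine lt_of_le_of_lt (norm_add_le _ _) ?_
    have h2 := norm_add_le (f (θ p) z - f (θ p) (x k)) (f (θ p) (x k) - f (θ q) (x k))
    rw [norm_neg]
    linarith
  choose g hg using fun z => cauchySeq_tendsto_of_complete (hcauchy z)
  exact ⟨θ, g, hθ, limit_continuous hl' hg, tlu_of_lip hl' hg⟩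

/-- Pointwise convergence together with equi-Lipschitz bounds gives locally uniform convergence. -/
theorem tendstoLocallyUniformly_of_lip {f : ℕ → F → G} {g : F → G}
    (hl : ∀ R : ℝ, ∃ C : ℝ, ∀ᶠ n in atTop, ∀ z w, ‖z‖ ≤ R → ‖w‖ ≤ R →
      ‖f n z - f n w‖ ≤ C * ‖z - w‖)
    (h : ∀ z, Tendsto (fun n => f n z) atTop (𝓝 (g z))) :
    TendstoLocallyUniformly f g atTop :=
  tlu_of_lip hl h

/-- Every subsequence having a further subsequence converging locally uniformly to `g` implies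
locally uniform convergence of the whole sequence. -/
theorem tendstoLocallyUniformly_of_subseq {f : ℕ → F → G} {g : F → G}
    (h : ∀ θ : ℕ → ℕ, StrictMono θ → ∃ θ' : ℕ → ℕ, StrictMono θ' ∧
      TendstoLocallyUniformly (fun k => f (θ (θ' k))) g atTop) :
    TendstoLocallyUniformly f g atTop := by
  have hpropF : ProperSpace F := FiniteDimensional.proper ℝ F
  rw [tendstoLocallyUniformly_iff_forall_isCompact]
  intro K hK
  rw [Metric.tendstoUniformlyOn_iff]
  intro ε hε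
  by_contra hcon
  rw [Filter.not_eventually] at hcon
  obtain ⟨θ, hθ, hθ2⟩ := extraction_of_frequently_atTop hcon
  obtain ⟨θ', hθ', hconv⟩ := h θ hθ
  rw [tendstoLocallyUniformly_iff_forall_isCompact] at hconv
  have h1 := Metric.tendstoUniformlyOn_iff.mp (hconv K hK) ε hε
  obtain ⟨k, hk⟩ := h1.exists
  exact hθ2 (θ' k) hk

end gen

variable {E : Type*} [NormedAddCommGroup E] [InnerProductSpace ℂ E] [FiniteDimensional ℂ E]

/-- Compactness of `C11 K` functions normalised at `0`. -/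
theorem C11.exists_subseq {K : ℝ} {f : ℕ → E → ℝ} (hf : ∀ n, C11 K (f n))
    (h0 : ∃ C : ℝ, ∀ n, |f n 0| ≤ C) (h1 : ∃ C : ℝ, ∀ n, ‖fderiv ℝ (f n) 0‖ ≤ C) :
    ∃ (θ : ℕ → ℕ) (g : E → ℝ), StrictMono θ ∧ C11 K g ∧
      TendstoLocallyUniformly (fun k => f (θ k)) g atTop := by
  obtain ⟨C0, hC0⟩ := h0
  obtain ⟨C1, hC1⟩ := h1
  have hK : 0 ≤ K := (hf 0).1
  have hlip : ∀ R : ℝ, ∀ n, ∀ z w : E, ‖z‖ ≤ R → ‖w‖ ≤ R →
      ‖f n z - f n w‖ ≤ (C1 + K * R) * ‖z - w‖ := by
    intro R n z w hz hw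
    have hder : ∀ y ∈ Metric.closedBall (0 : E) R, ‖fderiv ℝ (f n) y‖ ≤ C1 + K * R := by
      intro y hy
      rw [mem_closedBall_zero_iff] at hy
      have h2 := (hf n).2.2 y 0
      rw [sub_zero] at h2
      have h3 := norm_add_le (fderiv ℝ (f n) y - fderiv ℝ (f n) 0) (fderiv ℝ (f n) 0)
      rw [sub_add_cancel] at h3
      have h4 : K * ‖y‖ ≤ K * R := mul_le_mul_of_nonneg_left hy hK
      linarith [hC1 n]
    exact Convex.norm_image_sub_le_of_norm_fderiv_le (𝕜 := ℝ)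
      (fun y _ => (hf n).2.1 y) hder (convex_closedBall (0 : E) R)
      (mem_closedBall_zero_iff.mpr hw) (mem_closedBall_zero_iff.mpr hz)
  obtain ⟨θ, g, hθ, hg, hconv⟩ := exists_subseq_tendsto (f := f) (fun R => by
      refine ⟨C0 + (C1 + K * |R|) * |R|, Filter.Eventually.of_forall fun n z hz => ?_⟩
      have hz' : ‖z‖ ≤ |R| := hz.trans (le_abs_self R)
      have h2 := hlip |R| n z 0 hz' (by rw [norm_zero]; exact abs_nonneg R)
      rw [sub_zero] at h2
      have h3 := norm_add_le (f n z - f n 0) (f n 0)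
      rw [sub_add_cancel] at h3
      have h4 : ‖f n 0‖ ≤ C0 := hC0 n
      have h5 : 0 ≤ C1 := (norm_nonneg _).trans (hC1 n)
      have h6 : (C1 + K * |R|) * ‖z‖ ≤ (C1 + K * |R|) * |R| :=
        mul_le_mul_of_nonneg_left hz' (by positivity)
      linarith) (fun R => ⟨C1 + K * R, Filter.Eventually.of_forall fun n => hlip R n⟩)
  refine ⟨θ, g, hθ, ?_, hconv⟩
  have hpt : ∀ z, Tendsto (fun k => f (θ k) z) atTop (𝓝 (g z)) := fun z =>
    tlu_tendsto hg hconv tendsto_const_nhds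
  exact (C11.of_tendsto (fun k => hf (θ k)) hpt).1

/-- Entire functions which are uniformly bounded on balls are uniformly Lipschitz on balls
(Cauchy estimate along complex lines), in the form needed for `exists_subseq_tendsto`. -/
theorem entire_lip {R B : ℝ} (hR : 0 ≤ R) {F : E → ℂ} (hF : Differentiable ℂ F)
    (hB : ∀ z, ‖z‖ ≤ R + 1 → ‖F z‖ ≤ B) {z w : E} (hz : ‖z‖ ≤ R) (hw : ‖w‖ ≤ R) :
    ‖F z - F w‖ ≤ B * ‖z - w‖ := by
  have hB0 : 0 ≤ B := (norm_nonneg _).trans (hB 0 (by rw [norm_zero]; linarith))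
  have hder : ∀ y ∈ Metric.closedBall (0 : E) R, ‖fderiv ℂ F y‖ ≤ B := by
    intro y hy
    rw [mem_closedBall_zero_iff] at hy
    apply ContinuousLinearMap.opNorm_le_bound _ hB0
    intro v
    by_cases hv : v = 0
    · simp [hv]
    · have hv0 : 0 < ‖v‖ := norm_pos_iff.mpr hv
      have hline : Differentiable ℂ fun t : ℂ => F (y + t • v) := by
        apply hF.comp
        fun_prop
      have hd : HasDerivAt (fun t : ℂ => F (y + t • v)) (fderiv ℂ F y v) 0 := by
        have h1 : HasDerivAt (fun t : ℂ => y + t • v) v 0 := by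
          have := ((hasDerivAt_id (0 : ℂ)).smul_const v).const_add y
          simpa using this
        have h2 : HasFDerivAt F (fderiv ℂ F y) (y + (0 : ℂ) • v) := by
          rw [zero_smul, add_zero]
          exact (hF y).hasFDerivAt
        exact h2.comp_hasDerivAt (0 : ℂ) h1
      have h3 := Complex.norm_deriv_le_of_forall_mem_sphere_norm_le (c := 0) (R := 1 / ‖v‖) (C := B)
        (f := fun t : ℂ => F (y + t • v)) (by positivity) hline.diffContOnCl (by
          intro t ht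
          apply hB
          have ht' : ‖t‖ = 1 / ‖v‖ := by simpa using ht
          refine (norm_add_le _ _).trans ?_
          rw [norm_smul, ht', one_div, inv_mul_cancel₀ hv0.ne']
          linarith)
      rw [hd.deriv] at h3
      rw [div_div_eq_mul_div, div_one] at h3
      exact h3
  exact Convex.norm_image_sub_le_of_norm_fderiv_le (𝕜 := ℂ)
      (fun y _ => hF y) hder (convex_closedBall (0 : E) R)
      (mem_closedBall_zero_iff.mpr hw) (mem_closedBall_zero_iff.mpr hz)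

end Pool.Agent.Edge
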