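import Pool.Agent.Edge.LeviCalc

/-!
# Comparison principle (Jensen's lemma)
-/

namespace Pool.Agent.Edge

open MeasureTheory Filter Topology Complex

open scoped ComplexConjugate

section null

variable {F : Type*} [NormedAddCommGroup F] [InnerProductSpace ℝ F] [FiniteDimensional ℝ F]
  [MeasurableSpace F] [BorelSpace F]

/-- Locally Lipschitz maps send null sets to null sets.
(Countable cover by pieces where `G` is Lipschitz; `μH[finrank ℝ F]` is an additive Haar measure
(`MeasureTheory.isAddHaarMeasure_hausdorffMeasure`), `LipschitzOnWith.hausdorffMeasure_image_le`.) -/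
theorem null_image (μ : Measure F) [μ.IsAddHaarMeasure] {G : F → F} {U N : Set F} (hU : IsOpen U)
    (hG : ∀ z ∈ U, ∃ V ∈ 𝓝 z, ∃ K : NNReal, LipschitzOnWith K G V) (hN : μ N = 0) :
    μ (G '' (N ∩ U)) = 0 := by
  classical
  set ν : Measure F := Measure.hausdorffMeasure (Module.finrank ℝ F) with hν
  have hνN : ν N = 0 := by
    rw [Measure.isAddLeftInvariant_eq_smul ν μ]
    simp [hN]
  have key : ν (G '' (N ∩ U)) = 0 := by
    have h1 : ∀ z ∈ U, ∃ V ∈ 𝓝[U] z, ∃ K : NNReal, LipschitzOnWith K G V := by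
      intro z hz
      obtain ⟨V, hV, K, hK⟩ := hG z hz
      exact ⟨V, mem_nhdsWithin_of_mem_nhds hV, K, hK⟩
    choose! V hV K hK using h1
    obtain ⟨t, htU, htc, hcov⟩ := TopologicalSpace.countable_cover_nhdsWithin hV
    have hsub : G '' (N ∩ U) ⊆ ⋃ z ∈ t, G '' (N ∩ V z) := by
      rintro _ ⟨x, ⟨hxN, hxU⟩, rfl⟩
      obtain ⟨z, hz, hxz⟩ := Set.mem_iUnion₂.1 (hcov hxU)
      exact Set.mem_iUnion₂.2 ⟨z, hz, x, ⟨hxN, hxz⟩, rfl⟩
    refine measure_mono_null hsub ((measure_biUnion_null_iff htc).2 fun z hz => ?_)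
    have h2 : LipschitzOnWith (K z) G (N ∩ V z) := (hK z (htU hz)).mono Set.inter_subset_right
    have h3 := h2.hausdorffMeasure_image_le (d := (Module.finrank ℝ F : ℝ)) (by positivity)
    have h4 : ν (N ∩ V z) = 0 := measure_mono_null Set.inter_subset_left hνN
    refine le_antisymm (h3.trans ?_) bot_le
    rw [← hν, h4, mul_zero]
  rw [Measure.isAddLeftInvariant_eq_smul μ ν]
  simp [key]

/-- Jensen's lemma.  `u` differentiable near each point of the open bounded set `U`, continuous on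
`closure U`, `Du` locally Lipschitz on `U`, `N` null.  If `u` takes at some point of `U` a value
larger than on the frontier, then there are a point `z ∈ U \ N` and `p` such that
`u - p` attains its maximum over `closure U` at `z` (so it has a local maximum at `z`).
Proof: let `z*∈U` with `u z* > max_{∂U} u`.  For `‖p‖ < δ` small, `w ↦ u w - p w` attains its
maximum over the compact set `closure U` in `U`, at a point `z_p` with `Du(z_p) = p`.  So the set
`C` of such points satisfies `ball 0 δ ⊆ Du '' C`.  Identify the dual with `F` (Riesz).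
If `C ⊆ N`, then `Du '' C` would be null (`null_image`), but the ball is not. -/
theorem jensen (μ : Measure F) [μ.IsAddHaarMeasure] {u : F → ℝ} {U N : Set F} (hU : IsOpen U)
    (hb : Bornology.IsBounded U) (hc : ContinuousOn u (closure U))
    (hd : ∀ z ∈ U, DifferentiableAt ℝ u z)
    (hG : ∀ z ∈ U, ∃ V ∈ 𝓝 z, ∃ K : NNReal, LipschitzOnWith K (fderiv ℝ u) V) (hN : μ N = 0)
    {z₀ : F} (hz₀ : z₀ ∈ U) {M : ℝ} (hM : ∀ z ∈ frontier U, u z ≤ M) (h0 : M < u z₀) :
    ∃ z ∈ U, z ∉ N ∧ ∃ p : F →L[ℝ] ℝ, IsLocalMax (fun w => u w - p w) z := by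
  by_contra hcon
  push Not at hcon
  have hcpt : IsCompact (closure U) := hb.isCompact_closure
  obtain ⟨R, hR⟩ := hcpt.isBounded.subset_closedBall z₀
  have hR0 : 0 ≤ R := by
    have := hR (subset_closure hz₀)
    simpa using this
  set δ : ℝ := (u z₀ - M) / (R + 1) with hδ
  have hδ0 : 0 < δ := div_pos (by linarith) (by linarith)
  have hδR : δ * (R + 1) = u z₀ - M := by
    rw [hδ]; field_simp
  set G : F → F := fun z => (InnerProductSpace.toDual ℝ F).symm (fderiv ℝ u z) with hGdef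
  have hGlip : ∀ z ∈ U, ∃ V ∈ 𝓝 z, ∃ K : NNReal, LipschitzOnWith K G V := by
    intro z hz
    obtain ⟨V, hV, K, hK⟩ := hG z hz
    refine ⟨V, hV, K, ?_⟩
    intro x hx y hy
    have := hK hx hy
    rw [hGdef]
    simpa only [(InnerProductSpace.toDual ℝ F).symm.isometry.edist_eq] using this
  have hball : Metric.ball (0 : F) δ ⊆ G '' (N ∩ U) := by
    intro x hx
    have hxn : ‖x‖ < δ := by simpa using hx
    set p : F →L[ℝ] ℝ := InnerProductSpace.toDual ℝ F x with hp
    have hpn : ‖p‖ < δ := by rw [hp]; simpa using hxn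
    have hcont : ContinuousOn (fun w => u w - p w) (closure U) :=
      hc.sub p.continuous.continuousOn
    obtain ⟨z, hzU, hzmax⟩ := hcpt.exists_isMaxOn ⟨z₀, subset_closure hz₀⟩ hcont
    have hz0 : u z₀ - p z₀ ≤ u z - p z := hzmax (subset_closure hz₀)
    have hdist : ‖z₀ - z‖ ≤ R := by
      have := hR hzU
      rw [Metric.mem_closedBall, dist_eq_norm] at this
      rwa [norm_sub_rev]
    have hpz : p (z₀ - z) ≤ δ * R := by
      calc p (z₀ - z) ≤ ‖p (z₀ - z)‖ := Real.le_norm_self _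
        _ ≤ ‖p‖ * ‖z₀ - z‖ := p.le_opNorm _
        _ ≤ δ * R := by gcongr
    have hzin : z ∈ U := by
      by_contra hzn
      have hfr : z ∈ frontier U := by
        rw [frontier, hU.interior_eq]
        exact ⟨hzU, hzn⟩
      have h1 := hM z hfr
      rw [map_sub] at hpz
      nlinarith
    have hloc : IsLocalMax (fun w => u w - p w) z := by
      filter_upwards [hU.mem_nhds hzin] with w hw
      exact hzmax (subset_closure hw)
    have hzN : z ∈ N := by
      by_contra hzN
      exact hcon z hzin hzN p hloc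
    have hfd : fderiv ℝ u z = p := by
      have h1 := hloc.fderiv_eq_zero
      have h2 : HasFDerivAt (fun w => u w - p w) (fderiv ℝ u z - p) z :=
        (hd z hzin).hasFDerivAt.sub p.hasFDerivAt
      rw [h2.fderiv] at h1
      exact sub_eq_zero.1 h1
    refine ⟨z, ⟨hzN, hzin⟩, ?_⟩
    rw [hGdef]
    simp only [hfd, hp]
    simp
  have h0' := null_image μ hU hGlip hN
  have h1 := measure_mono_null hball h0'
  exact (Metric.measure_ball_pos μ (0 : F) hδ0).ne' h1

end null

variable {E : Type*} [NormedAddCommGroup E] [InnerProductSpace ℂ E] [FiniteDimensional ℂ E]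
  [MeasurableSpace E] [BorelSpace E]

/-- Comparison principle.
Proof: suppose `W z* - φ z* > M` for some `z* ∈ U`.  Put `u = W + ε|·|² - φ`, `ε > 0` small enough
that still `u z* > M' ≥ u` on `frontier U` (`M' = M + ε sup_{closure U}|z|²`).  `Du` is locally
Lipschitz on `U` (`W` is `C²`, `φ` is `C^{1,1}`).  Let `N` be the null set of points of `U` where
`Dφ` is not differentiable (Rademacher, `LipschitzWith.ae_differentiableAt`) or where `hdeg` fails.
By `jensen` there are `z ∈ U \ N` and `p` with `u - p` having a local maximum at `z`.  Then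
`D²u(z)(v,v) ≤ 0` for all `v` (`second_deriv_nonpos`), so
`Levi W z v + 4ε|v|² ≤ Levi φ z v` for all `v`; choosing `v ≠ 0` with `Levi φ z v ≤ 0` gives
`4ε|v|² ≤ 0`, a contradiction. -/
theorem comparison {φ : E → ℝ} {K : ℝ} (hφ : C11 K φ) {U : Set E} (hU : IsOpen U)
    (hb : Bornology.IsBounded U)
    (hdeg : ∀ᵐ z ∂(om E), z ∈ U → ∃ v : E, v ≠ 0 ∧ Levi φ z v ≤ 0) {W : E → ℝ}
    (hW : ∀ z ∈ closure U, ContDiffAt ℝ 2 W z) (hL : ∀ z ∈ U, ∀ v, 0 ≤ Levi W z v) {M : ℝ}
    (hM : ∀ z ∈ frontier U, W z - φ z ≤ M) : ∀ z ∈ U, W z - φ z ≤ M := by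
  let _ : InnerProductSpace ℝ E := InnerProductSpace.complexToReal
  intro zs hzs
  by_contra hlt
  push Not at hlt
  have : FiniteDimensional ℝ E := FiniteDimensional.complexToReal E
  have hcpt : IsCompact (closure U) := by
    have : ProperSpace E := FiniteDimensional.proper ℂ E
    exact hb.isCompact_closure
  obtain ⟨R, hR⟩ := hcpt.isBounded.subset_closedBall (0 : E)
  have hRn : ∀ z ∈ closure U, ‖z‖ ^ 2 ≤ R ^ 2 := by
    intro z hz
    have : ‖z‖ ≤ R := by simpa using hR hz
    gcongr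
  set ε : ℝ := (W zs - φ zs - M) / (R ^ 2 + 1) with hε
  have hε0 : 0 < ε := div_pos (by linarith) (by positivity)
  have hεR : ε * (R ^ 2 + 1) = W zs - φ zs - M := by
    rw [hε]; field_simp
  set g : E → ℝ := fun z => W z + ε * ‖z‖ ^ 2 with hg
  have hns : ∀ z : E, ContDiffAt ℝ 2 (fun z : E => ‖z‖ ^ 2) z := fun z => contDiffAt_id.norm_sq ℝ
  have hns' : ∀ z : E, ContDiffAt ℝ 2 (fun z : E => ε * ‖z‖ ^ 2) z := fun z =>
    contDiffAt_const.mul (hns z)
  have hgC : ∀ z ∈ closure U, ContDiffAt ℝ 2 g z := fun z hz => (hW z hz).add (hns' z)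
  have hφd : Differentiable ℝ φ := hφ.2.1
  have hφl : LipschitzWith (Real.toNNReal K) (fderiv ℝ φ) := by
    refine LipschitzWith.of_dist_le_mul fun x y => ?_
    rw [dist_eq_norm, dist_eq_norm, Real.coe_toNNReal _ hφ.1]
    exact hφ.2.2 x y
  have hgd : ∀ z ∈ U, DifferentiableAt ℝ g z := fun z hz =>
    (hgC z (subset_closure hz)).differentiableAt (by norm_num)
  have hev : ∀ z ∈ U, fderiv ℝ (fun w => g w - φ w) =ᶠ[𝓝 z]
      fun w => fderiv ℝ g w - fderiv ℝ φ w := by
    intro z hz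
    filter_upwards [hU.mem_nhds hz] with w hw
    exact fderiv_fun_sub (hgd w hw) (hφd w)
  have hg1 : ∀ z ∈ U, ContDiffAt ℝ 1 (fderiv ℝ g) z := fun z hz =>
    (hgC z (subset_closure hz)).fderiv_right (by norm_num)
  have hLip : ∀ z ∈ U, ∃ V ∈ 𝓝 z, ∃ K' : NNReal,
      LipschitzOnWith K' (fderiv ℝ (fun w => g w - φ w)) V := by
    intro z hz
    obtain ⟨K1, t, ht, hK1⟩ := (hg1 z hz).exists_lipschitzOnWith
    refine ⟨t ∩ U, inter_mem ht (hU.mem_nhds hz), K1 + Real.toNNReal K, ?_⟩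
    have h1 : LipschitzOnWith (K1 + Real.toNNReal K)
        (fun w => fderiv ℝ g w - fderiv ℝ φ w) (t ∩ U) :=
      (hK1.mono Set.inter_subset_left).sub hφl.lipschitzOnWith
    intro x hx y hy
    have hx' : fderiv ℝ (fun w => g w - φ w) x = fderiv ℝ g x - fderiv ℝ φ x :=
      fderiv_fun_sub (hgd x hx.2) (hφd x)
    have hy' : fderiv ℝ (fun w => g w - φ w) y = fderiv ℝ g y - fderiv ℝ φ y :=
      fderiv_fun_sub (hgd y hy.2) (hφd y)
    rw [hx', hy']
    exact h1 hx hy
  -- the null set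
  set N : Set E := {z | ¬ (DifferentiableAt ℝ (fderiv ℝ φ) z ∧
    (z ∈ U → ∃ v : E, v ≠ 0 ∧ Levi φ z v ≤ 0))} with hNdef
  have hN : (om E) N = 0 := by
    have h1 : ∀ᵐ z ∂(om E), DifferentiableAt ℝ (fderiv ℝ φ) z := hφl.ae_differentiableAt
    have h2 : ∀ᵐ z ∂(om E), DifferentiableAt ℝ (fderiv ℝ φ) z ∧
        (z ∈ U → ∃ v : E, v ≠ 0 ∧ Levi φ z v ≤ 0) := h1.and hdeg
    exact h2
  have hfrU : frontier U ⊆ closure U := frontier_subset_closure
  obtain ⟨z, hzU, hzN, p, hloc⟩ := jensen (om E) (u := fun w => g w - φ w) hU hb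
    (fun z hz => ((hgC z hz).continuousAt.sub hφd.continuous.continuousAt).continuousWithinAt)
    (fun z hz => (hgd z hz).sub (hφd z)) hLip hN hzs (M := M + ε * R ^ 2)
    (fun z hz => by
      have h1 := hM z hz
      have h2 := hRn z (hfrU hz)
      simp only [hg]
      nlinarith)
    (by
      simp only [hg]
      have h2 : 0 ≤ ε * ‖zs‖ ^ 2 := by positivity
      nlinarith)
  have hzN' : DifferentiableAt ℝ (fderiv ℝ φ) z ∧
      (z ∈ U → ∃ v : E, v ≠ 0 ∧ Levi φ z v ≤ 0) := by
    by_contra h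
    exact hzN h
  obtain ⟨hφ2, hv⟩ := hzN'
  obtain ⟨v, hv0, hvL⟩ := hv hzU
  have hud : ∀ᶠ w in 𝓝 z, DifferentiableAt ℝ (fun w => (g w - φ w) - p w) w := by
    filter_upwards [hU.mem_nhds hzU] with w hw
    exact ((hgd w hw).sub (hφd w)).sub p.differentiableAt
  have hev2 : fderiv ℝ (fun w => (g w - φ w) - p w) =ᶠ[𝓝 z]
      fun w => fderiv ℝ g w - fderiv ℝ φ w - p := by
    filter_upwards [hU.mem_nhds hzU] with w hw
    have h1 : HasFDerivAt (fun w => (g w - φ w) - p w) (fderiv ℝ g w - fderiv ℝ φ w - p) w :=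
      ((hgd w hw).hasFDerivAt.sub (hφd w).hasFDerivAt).sub p.hasFDerivAt
    exact h1.fderiv
  have hgd2 : DifferentiableAt ℝ (fderiv ℝ g) z := (hg1 z hzU).differentiableAt (by norm_num)
  have hder : HasFDerivAt (fderiv ℝ (fun w => (g w - φ w) - p w))
      (fderiv ℝ (fderiv ℝ g) z - fderiv ℝ (fderiv ℝ φ) z) z := by
    have h1 : HasFDerivAt (fun w => fderiv ℝ g w - fderiv ℝ φ w - p)
        (fderiv ℝ (fderiv ℝ g) z - fderiv ℝ (fderiv ℝ φ) z) z :=
      (hgd2.hasFDerivAt.sub hφ2.hasFDerivAt).sub_const p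
    exact h1.congr_of_eventuallyEq hev2
  have hnp : ∀ w : E, fderiv ℝ (fderiv ℝ g) z w w - fderiv ℝ (fderiv ℝ φ) z w w ≤ 0 := by
    intro w
    have h1 := second_deriv_nonpos hloc hud hder.differentiableAt w
    rw [hder.fderiv] at h1
    simpa using h1
  have hLe : Levi g z v ≤ Levi φ z v := by
    unfold Levi
    have h1 := hnp v
    have h2 := hnp (I • v)
    linarith
  have hLg : Levi g z v = Levi W z v + ε * (4 * ‖v‖ ^ 2) := by
    rw [hg, levi_add (hW z (subset_closure hzU)) (hns' z), levi_const_mul (hns z),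
      levi_norm_sq]
  have hW0 := hL z hzU v
  have hvn : 0 < ‖v‖ ^ 2 := by
    have : 0 < ‖v‖ := norm_pos_iff.2 hv0
    positivity
  have : 0 < ε * (4 * ‖v‖ ^ 2) := by positivity
  linarith

end Pool.Agent.Edge
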