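import Pool.Agent.Edge.Envel

/-!
# Off the contact set the Levi form of the envelope is degenerate
-/

namespace Pool.Agent.Edge

open MeasureTheory Filter Topology Complex

open scoped ComplexConjugate

variable {E : Type*} [NormedAddCommGroup E] [InnerProductSpace ℂ E] [FiniteDimensional ℂ E]

/-- If `env Q z < Q z` and `D(env Q)` is differentiable at `z`, then the Levi form of `env Q` at `z`
is not positive definite.
Proof: otherwise `Levi (env Q) z v ≥ 4c|v|²` for all `v` with some `c > 0` (compactness of the unit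
sphere; `Levi` is a continuous quadratic form in `v`).  Let `T(w)` be the second order Taylor
polynomial of `env Q` at `z`, `κ = c/2`, and `g(w) = T(w) - κ|w-z|² + κ r²/2`: its real Hessian is
the constant form `B = D²(env Q)(z) - 2κ⟨·,·⟩` with `B(v,v)+B(iv,iv) ≥ 4c|v|²-4κ|v|² ≥ 0`, so `g` is
psh (`psh_quadratic`; the bilinear form `⟨u,v⟩ = Re inner ℂ u v`).  On `|w-z| = r` for small `r`:
`g = T - κr²/2 < env Q` (`taylor_two`).  On the ball: `g ≤ T + κr²/2 ≤ Q` for small `r`, since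
`T(z) = env Q z < Q z`.  Glue (`psh_glue`): the glued function is psh, `≤ Q`, equals `env Q`
outside the ball (log growth), so it is admissible and `≤ env Q`; but at `z` it is
`≥ g(z) = env Q z + κr²/2`.  Contradiction. -/
theorem env_degenerate {Q : E → ℝ} (hQ : IsPot Q) {z : E} (hz : env Q z < Q z)
    (hd : DifferentiableAt ℝ (fderiv ℝ (env Q)) z) : ∃ v : E, v ≠ 0 ∧ Levi (env Q) z v ≤ 0 := by
  classical
  let _ : InnerProductSpace ℝ E := InnerProductSpace.complexToReal
  have hproper : ProperSpace E := FiniteDimensional.proper ℂ E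
  by_contra hcon
  push Not at hcon
  set f : E → ℝ := env Q with hf
  have hfc : Continuous f := env_continuous hQ
  have hQc : Continuous Q := hQ.cd.continuous
  obtain ⟨K, hK⟩ := env_C11 hQ
  set L : E →L[ℝ] ℝ := fderiv ℝ f z with hLdef
  set B : E →L[ℝ] E →L[ℝ] ℝ := fderiv ℝ (fderiv ℝ f) z with hB
  have hLev : ∀ v, Levi f z v = B v v + B (I • v) (I • v) := fun v => rfl
  -- uniform positivity
  obtain ⟨c, hc, hcv⟩ : ∃ c : ℝ, 0 < c ∧ ∀ v, 4 * c * ‖v‖ ^ 2 ≤ B v v + B (I • v) (I • v) := by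
    rcases (Metric.sphere (0 : E) 1).eq_empty_or_nonempty with hemp | hne
    · refine ⟨1, one_pos, fun v => ?_⟩
      have hv0 : v = 0 := by
        by_contra hv
        have hn : ‖v‖ ≠ 0 := norm_ne_zero_iff.2 hv
        have : ((‖v‖⁻¹ : ℝ) • v) ∈ Metric.sphere (0 : E) 1 := by
          rw [mem_sphere_zero_iff_norm, norm_smul, norm_inv, norm_norm, inv_mul_cancel₀ hn]
        rw [hemp] at this
        exact this.elim
      subst hv0
      simp
    · have hcont : Continuous fun v : E => B v v + B (I • v) (I • v) := by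
        have h1 : Continuous fun v : E => I • v := continuous_const_smul I
        exact ((B.continuous.clm_apply continuous_id)).add
          ((B.continuous.comp h1).clm_apply h1)
      obtain ⟨v₀, hv₀, hmin⟩ := (isCompact_sphere (0 : E) 1).exists_isMinOn hne hcont.continuousOn
      have hv₀n : v₀ ≠ 0 := by
        intro h
        rw [h] at hv₀
        simp at hv₀
      have hpos : 0 < B v₀ v₀ + B (I • v₀) (I • v₀) := by
        have := hcon v₀ hv₀n
        rwa [hLev] at this
      refine ⟨(B v₀ v₀ + B (I • v₀) (I • v₀)) / 4, by positivity, fun v => ?_⟩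
      by_cases hv : v = 0
      · subst hv; simp
      have hn : 0 < ‖v‖ := norm_pos_iff.2 hv
      set u : E := (‖v‖⁻¹ : ℝ) • v with hu
      have hus : u ∈ Metric.sphere (0 : E) 1 := by
        rw [mem_sphere_zero_iff_norm, hu, norm_smul, norm_inv, norm_norm,
          inv_mul_cancel₀ hn.ne']
      have hvu : v = (‖v‖ : ℝ) • u := by
        rw [hu, smul_smul, mul_inv_cancel₀ hn.ne', one_smul]
      have hIu : I • v = (‖v‖ : ℝ) • (I • u) := by
        conv_lhs => rw [hvu]
        rw [smul_comm]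
      have h1 : B v₀ v₀ + B (I • v₀) (I • v₀) ≤ B u u + B (I • u) (I • u) := hmin hus
      have h2 : B v v + B (I • v) (I • v) = ‖v‖ ^ 2 * (B u u + B (I • u) (I • u)) := by
        rw [hIu]
        conv_lhs => rw [hvu]
        simp only [map_smul, smul_apply, smul_eq_mul, norm_smul, norm_norm]
        have h3 : ‖u‖ = 1 := by simpa using hus
        rw [h3]
        ring
      rw [h2]
      have : 0 ≤ ‖v‖ ^ 2 := by positivity
      nlinarith
  set κ : ℝ := c / 2 with hκ
  have hκ0 : 0 < κ := by positivity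
  -- radii
  obtain ⟨δ₁, hδ₁, hT⟩ := Metric.eventually_nhds_iff.1
    (taylor_two (f := f) (z := z) (Eventually.of_forall fun w => hK.2.1 w) hd
      (ε := κ / 4) (by positivity))
  have hgap : 0 < (Q z - f z) / 2 := by linarith
  have hev : ∀ᶠ w in 𝓝 z, f w + (Q z - f z) / 2 < Q w := by
    have h1 : Continuous fun w => Q w - f w := hQc.sub hfc
    have h2 : ∀ᶠ w in 𝓝 z, (Q z - f z) / 2 < Q w - f w :=
      (tendsto_order.1 (h1.tendsto z)).1 _ (by linarith)
    filter_upwards [h2] with w hw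
    linarith
  obtain ⟨δ₂, hδ₂, hgapw⟩ := Metric.eventually_nhds_iff.1 hev
  obtain ⟨r, hr0, hr1, hr2, hr3⟩ : ∃ r : ℝ, 0 < r ∧ r < δ₁ ∧ r < δ₂ ∧
      κ * r ^ 2 ≤ (Q z - f z) / 2 := by
    have h1 : Tendsto (fun r : ℝ => κ * r ^ 2) (𝓝[>] 0) (𝓝 (κ * 0 ^ 2)) :=
      ((continuous_const.mul (continuous_id.pow 2)).tendsto 0).mono_left nhdsWithin_le_nhds
    have h2 : ∀ᶠ r : ℝ in 𝓝[>] 0, κ * r ^ 2 < (Q z - f z) / 2 := by
      refine (tendsto_order.1 h1).2 _ ?_
      simpa using hgap
    have h3 : ∀ᶠ r : ℝ in 𝓝[>] 0, r < δ₁ :=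
      mem_nhdsWithin_of_mem_nhds (Iio_mem_nhds hδ₁)
    have h4 : ∀ᶠ r : ℝ in 𝓝[>] 0, r < δ₂ :=
      mem_nhdsWithin_of_mem_nhds (Iio_mem_nhds hδ₂)
    obtain ⟨r, ⟨⟨⟨h5, h6⟩, h7⟩, h8⟩⟩ :=
      (((h2.and h3).and h4).and (self_mem_nhdsWithin (a := (0:ℝ)) (s := Set.Ioi 0))).exists
    exact ⟨r, h8, h6, h7, h5.le⟩
  -- the quadratic competitor
  obtain ⟨IP, hIP⟩ : ∃ IP : E →L[ℝ] E →L[ℝ] ℝ, ∀ v, IP v v = ‖v‖ ^ 2 :=
    ⟨(isBoundedBilinearMap_inner (𝕜 := ℝ) (E := E)).toContinuousLinearMap,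
      fun v => real_inner_self_eq_norm_sq v⟩
  set B' : E →L[ℝ] E →L[ℝ] ℝ := B - (2 * κ) • IP with hB'
  have hB'v : ∀ v, B' v v = B v v - 2 * κ * ‖v‖ ^ 2 := by
    intro v
    simp [hB', hIP]
  have hpsh : PSH (fun w => (f z + κ * r ^ 2 / 2) + L (w - z) + (1 / 2) * B' (w - z) (w - z)) := by
    refine psh_quadratic z _ L B' fun v => ?_
    rw [hB'v, hB'v, norm_smul, Complex.norm_I, one_mul]
    have h1 := hcv v
    have h2 : 0 ≤ c * ‖v‖ ^ 2 := by positivity
    rw [hκ]
    nlinarith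
  set g : E → ℝ := fun w => (f z + κ * r ^ 2 / 2) + L (w - z) + (1 / 2) * B' (w - z) (w - z)
    with hg
  have hgT : ∀ w, dist w z ≤ r → |f w - (g w + κ * ‖w - z‖ ^ 2 - κ * r ^ 2 / 2)| ≤
      κ / 4 * ‖w - z‖ ^ 2 := by
    intro w hw
    have h1 : dist (w - z) 0 < δ₁ := by
      rw [dist_zero_right, ← dist_eq_norm]
      exact hw.trans_lt hr1
    have h2 := hT h1
    rw [add_sub_cancel] at h2
    have h3 : f w - (g w + κ * ‖w - z‖ ^ 2 - κ * r ^ 2 / 2) =
        f w - f z - fderiv ℝ f z (w - z) - 1 / 2 * fderiv ℝ (fderiv ℝ f) z (w - z) (w - z) := by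
      simp only [hg, hB'v, ← hB, ← hLdef]
      ring
    rw [h3]
    exact h2
  have hsph : ∀ w ∈ Metric.sphere z r, g w < f w := by
    intro w hw
    have hw' : ‖w - z‖ = r := by rwa [mem_sphere_iff_norm] at hw
    have h1 := (abs_le.1 (hgT w (le_of_eq hw))).1
    rw [hw'] at h1
    have h2 : 0 < κ * r ^ 2 := by positivity
    nlinarith
  have hball : ∀ w ∈ Metric.ball z r, g w ≤ f w + κ * r ^ 2 := by
    intro w hw
    have hw' : ‖w - z‖ ≤ r := by
      rw [Metric.mem_ball, dist_eq_norm] at hw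
      exact hw.le
    have h1 := (abs_le.1 (hgT w (le_of_lt hw))).1
    have h3 : ‖w - z‖ ^ 2 ≤ r ^ 2 := by gcongr
    have h4 : 0 ≤ κ * ‖w - z‖ ^ 2 := by positivity
    have h5 : κ * ‖w - z‖ ^ 2 ≤ κ * r ^ 2 := by gcongr
    nlinarith
  have hglue := psh_glue (env_psh hQ) hpsh hr0 hsph
  set h : E → ℝ := fun w => if w ∈ Metric.ball z r then max (env Q w) (g w) else env Q w with hh
  have hhf : ∀ w, h w ≤ f w + κ * r ^ 2 := by
    intro w
    have h2 : 0 < κ * r ^ 2 := by positivity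
    simp only [hh]
    split_ifs with hw
    · exact max_le (by linarith) (hball w hw)
    · linarith
  have hadm : Adm Q h := by
    refine ⟨hglue, fun w => ?_, ?_⟩
    · simp only [hh]
      split_ifs with hw
      · refine max_le (env_le hQ w) ?_
        have h1 := hball w hw
        have h2 := hgapw (lt_trans hw hr2)
        linarith
      · exact env_le hQ w
    · obtain ⟨M, hM⟩ := env_growth hQ
      refine ⟨M + κ * r ^ 2, fun w => ?_⟩
      have h1 := hhf w
      have h2 := hM w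
      linarith
  have h1 := hadm.le_env z
  have h2 : g z ≤ h z := by
    simp only [hh, Metric.mem_ball_self hr0, if_true]
    exact le_max_right _ _
  have h3 : g z = f z + κ * r ^ 2 / 2 := by
    simp [hg]
  have h4 : 0 < κ * r ^ 2 := by positivity
  have h5 : h z ≤ f z := h1
  linarith

end Pool.Agent.Edge
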