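import Pool.Agent.Edge.Base

/-!
# Calculus of the Levi form, Taylor expansions, C^{1,1} functions
-/

namespace Pool.Agent.Edge

open MeasureTheory Filter Topology Complex

open scoped ComplexConjugate ContDiff

variable {E : Type*} [NormedAddCommGroup E] [InnerProductSpace ℂ E]
variable {E' : Type*} [NormedAddCommGroup E'] [InnerProductSpace ℂ E']

namespace LeviAux

theorem ev_diff {f : E → ℝ} {z : E} (hf : ContDiffAt ℝ 2 f z) :
    ∀ᶠ w in 𝓝 z, DifferentiableAt ℝ f w :=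
  (hf.eventually (by simp)).mono fun _ hw => hw.differentiableAt (by norm_num)

theorem diff_fderiv {f : E → ℝ} {z : E} (hf : ContDiffAt ℝ 2 f z) :
    DifferentiableAt ℝ (fderiv ℝ f) z :=
  (hf.fderiv_right (m := 1) (by norm_num)).differentiableAt (by norm_num)

theorem levi_of_eventually {f : E → ℝ} {g : E → (E →L[ℝ] ℝ)} {z : E}
    (h : fderiv ℝ f =ᶠ[𝓝 z] g) (v : E) :
    Levi f z v = fderiv ℝ g z v v + fderiv ℝ g z (I • v) (I • v) := by
  unfold Levi
  rw [h.fderiv_eq]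

end LeviAux

open LeviAux

theorem levi_add {f g : E → ℝ} {z : E} (hf : ContDiffAt ℝ 2 f z) (hg : ContDiffAt ℝ 2 g z) (v : E) :
    Levi (fun w => f w + g w) z v = Levi f z v + Levi g z v := by
  have h : fderiv ℝ (fun w => f w + g w) =ᶠ[𝓝 z] fun w => fderiv ℝ f w + fderiv ℝ g w := by
    filter_upwards [ev_diff hf, ev_diff hg] with w h1 h2
    exact fderiv_fun_add h1 h2
  rw [levi_of_eventually h, fderiv_fun_add (diff_fderiv hf) (diff_fderiv hg)]
  simp only [_root_.add_apply, Levi]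
  ring

theorem levi_sub {f g : E → ℝ} {z : E} (hf : ContDiffAt ℝ 2 f z) (hg : ContDiffAt ℝ 2 g z) (v : E) :
    Levi (fun w => f w - g w) z v = Levi f z v - Levi g z v := by
  have h : fderiv ℝ (fun w => f w - g w) =ᶠ[𝓝 z] fun w => fderiv ℝ f w - fderiv ℝ g w := by
    filter_upwards [ev_diff hf, ev_diff hg] with w h1 h2
    exact fderiv_fun_sub h1 h2
  rw [levi_of_eventually h, fderiv_fun_sub (diff_fderiv hf) (diff_fderiv hg)]
  simp only [_root_.sub_apply, Levi]
  ring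

theorem levi_const_mul {f : E → ℝ} {z : E} (hf : ContDiffAt ℝ 2 f z) (c : ℝ) (v : E) :
    Levi (fun w => c * f w) z v = c * Levi f z v := by
  have h : fderiv ℝ (fun w => c * f w) =ᶠ[𝓝 z] fun w => c • fderiv ℝ f w := by
    filter_upwards [ev_diff hf] with w h1
    exact fderiv_const_mul h1 c
  rw [levi_of_eventually h, fderiv_fun_const_smul (diff_fderiv hf)]
  simp only [_root_.smul_apply, Levi, smul_eq_mul]
  ring

theorem levi_const (c : ℝ) (z v : E) : Levi (fun _ : E => c) z v = 0 := by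
  have h : fderiv ℝ (fun _ : E => c) = fun _ => 0 := by
    funext w; exact fderiv_const_apply c
  unfold Levi
  rw [h, fderiv_const_apply]
  simp

theorem levi_congr {f g : E → ℝ} {z : E} (h : f =ᶠ[𝓝 z] g) (v : E) : Levi f z v = Levi g z v := by
  rw [levi_of_eventually h.fderiv v]
  rfl

/-- `D²(|z|²)(v,v) = 2|v|²`. -/
theorem levi_norm_sq (z v : E) : Levi (fun w : E => ‖w‖ ^ 2) z v = 4 * ‖v‖ ^ 2 := by
  let : InnerProductSpace ℝ E := InnerProductSpace.complexToReal
  have h : fderiv ℝ (fun w : E => ‖w‖ ^ 2) = fun w => (2 : ℝ) • innerSL ℝ w := by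
    funext w
    rw [fderiv_norm_sq_apply]
    exact (Nat.cast_smul_eq_nsmul ℝ 2 _).symm
  unfold Levi
  rw [h]
  have h2 : HasFDerivAt (fun w : E => (2 : ℝ) • (innerSL ℝ w : E →L[ℝ] ℝ))
      ((2 : ℝ) • (innerSL ℝ : E →L[ℝ] E →L[ℝ] ℝ)) z :=
    ((innerSL ℝ : E →L[ℝ] E →L[ℝ] ℝ).hasFDerivAt).fun_const_smul 2
  have h3 : ∀ u : E, (innerSL ℝ u : E →L[ℝ] ℝ) u = ‖u‖ ^ 2 := fun u =>
    real_inner_self_eq_norm_sq u
  rw [h2.fderiv]
  simp only [_root_.smul_apply, smul_eq_mul]
  rw [h3, h3, norm_smul, norm_I, one_mul]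
  ring

/-- second derivative of a linear functional -/
theorem levi_clm (L : E →L[ℝ] ℝ) (z v : E) : Levi (fun w => L w) z v = 0 := by
  have h : fderiv ℝ (fun w => L w) = fun _ => L := by
    funext w; exact L.fderiv
  unfold Levi
  rw [h, fderiv_const_apply]
  simp

/-- Levi form of a composition with a holomorphic map: the terms `Dφ(D²F(v,v))` and
`Dφ(D²F(iv,iv)) = -Dφ(D²F(v,v))` cancel. -/
theorem levi_comp {φ : E' → ℝ} {F : E → E'} {z : E} (hφ : ContDiffAt ℝ 2 φ (F z))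
    (hF : ContDiffAt ℂ 2 F z) (v : E) :
    Levi (fun w => φ (F w)) z v = Levi φ (F z) (fderiv ℂ F z v) := by
  have hFd : ∀ᶠ w in 𝓝 z, DifferentiableAt ℂ F w :=
    (hF.eventually (by simp)).mono fun _ hw => hw.differentiableAt (by norm_num)
  have hFc : ContinuousAt F z := hF.continuousAt
  have hφd : ∀ᶠ w in 𝓝 z, DifferentiableAt ℝ φ (F w) := hFc.eventually (ev_diff hφ)
  have hres : ∀ w, DifferentiableAt ℂ F w →
      fderiv ℝ F w = (fderiv ℂ F w).restrictScalars ℝ := fun w hw =>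
    (hw.hasFDerivAt.restrictScalars ℝ).fderiv
  have h : fderiv ℝ (fun w => φ (F w)) =ᶠ[𝓝 z] fun w =>
      (fderiv ℝ φ (F w)).comp ((fderiv ℂ F w).restrictScalars ℝ) := by
    filter_upwards [hFd, hφd] with w h1 h2
    rw [← hres w h1]
    exact fderiv_comp w h2 (h1.restrictScalars ℝ)
  rw [levi_of_eventually h]
  have hD2 : DifferentiableAt ℂ (fderiv ℂ F) z :=
    (hF.fderiv_right (m := 1) (by norm_num)).differentiableAt (by norm_num)
  have hFz : DifferentiableAt ℂ F z := hFd.self_of_nhds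
  -- derivative of the first factor
  have k1 : HasFDerivAt (fun w => fderiv ℝ φ (F w))
      ((fderiv ℝ (fderiv ℝ φ) (F z)).comp ((fderiv ℂ F z).restrictScalars ℝ)) z :=
    (diff_fderiv hφ).hasFDerivAt.comp z (hFz.hasFDerivAt.restrictScalars ℝ)
  -- derivative of the second factor
  have k2 : HasFDerivAt (fun w => (fderiv ℂ F w).restrictScalars ℝ)
      ((ContinuousLinearMap.restrictScalarsL ℂ E E' ℝ ℝ).comp
        ((fderiv ℂ (fderiv ℂ F) z).restrictScalars ℝ)) z :=
    (ContinuousLinearMap.restrictScalarsL ℂ E E' ℝ ℝ).hasFDerivAt.comp z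
      (hD2.hasFDerivAt.restrictScalars ℝ)
  have k3 := (k1.clm_comp k2).fderiv
  rw [k3]
  have e1 : fderiv ℂ (fderiv ℂ F) z (I • v) (I • v) = -(fderiv ℂ (fderiv ℂ F) z v v) := by
    rw [map_smul, map_smul, _root_.smul_apply, smul_smul, I_mul_I, neg_smul, one_smul]
  have e2 : fderiv ℂ F z (I • v) = I • fderiv ℂ F z v := map_smul _ _ _
  have e3 : ∀ (u : E →L[ℂ] E') (w : E),
      (ContinuousLinearMap.restrictScalarsL ℂ E E' ℝ ℝ u) w = u w := fun _ _ => rfl
  simp only [_root_.add_apply, ContinuousLinearMap.coe_comp, Function.comp_apply,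
    ContinuousLinearMap.compL_apply, ContinuousLinearMap.flip_apply,
    ContinuousLinearMap.coe_restrictScalars', e3, Levi,
    e1, e2, map_neg]
  ring

theorem levi_re {F : E → ℂ} {z : E} (hF : ContDiffAt ℂ 2 F z) (v : E) :
    Levi (fun w => (F w).re) z v = 0 := by
  have h := levi_comp (φ := fun u : ℂ => reCLM u) (F := F) (z := z)
    reCLM.contDiff.contDiffAt hF v
  rw [levi_clm] at h
  exact h

theorem LeviAux.fderiv_sc {G : Type*} [NormedAddCommGroup G] [NormedSpace ℝ G] (g : E → G)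
    (a : E) (n : ℕ) (w : E) :
    fderiv ℝ (fun ζ => g (sc a n ζ)) w = ((Real.sqrt n)⁻¹ : ℝ) • fderiv ℝ g (sc a n w) := by
  have h1 := fderiv_comp_smul (𝕜 := ℝ) (f := fun u : E => g (a + u)) (x := w) (Real.sqrt n)⁻¹
  have h2 := fderiv_comp_add_left (𝕜 := ℝ) (f := g) (x := ((Real.sqrt n)⁻¹ : ℝ) • w) a
  rw [h2] at h1
  exact h1

/-- scaling: `Levi (ζ ↦ f (sc a n ζ))`. No regularity is needed (affine isomorphism,
for `n ≥ 1`): `D²(f∘sc)(ζ)(u,v) = (1/n) D²f(sc ζ)(u,v)`. -/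
theorem levi_sc (f : E → ℝ) (a : E) {n : ℕ} (hn : n ≠ 0) (ζ v : E) :
    Levi (fun ζ => f (sc a n ζ)) ζ v = (n : ℝ)⁻¹ * Levi f (sc a n ζ) v := by
  unfold Levi
  have h2 : fderiv ℝ (fun ζ => f (sc a n ζ)) =
      ((Real.sqrt n)⁻¹ : ℝ) • (fun w => fderiv ℝ f (sc a n w)) := by
    funext w; exact fderiv_sc f a n w
  have h5 := fderiv_const_smul_field (𝕜 := ℝ) (f := fun w => fderiv ℝ f (sc a n w))
    (Real.sqrt n)⁻¹
  rw [h2, h5]
  simp only [Pi.smul_apply]
  rw [fderiv_sc (fderiv ℝ f)]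
  have h4 : ((Real.sqrt n)⁻¹ : ℝ) * ((Real.sqrt n)⁻¹ : ℝ) = (n : ℝ)⁻¹ := by
    rw [← mul_inv, Real.mul_self_sqrt (Nat.cast_nonneg n)]
  simp only [_root_.smul_apply, smul_eq_mul]
  rw [← h4]
  ring

/-- `|⟪m,z⟫|²` has Levi form `4 |⟪m,v⟫|²`. -/
theorem levi_inner_sq (m z v : E) :
    Levi (fun w : E => ‖(inner ℂ m w : ℂ)‖ ^ 2) z v = 4 * ‖(inner ℂ m v : ℂ)‖ ^ 2 := by
  have h := levi_comp (φ := fun u : ℂ => ‖u‖ ^ 2) (F := fun w : E => (innerSL ℂ m) w) (z := z)
    (contDiff_norm_sq ℝ).contDiffAt (innerSL ℂ m).contDiff.contDiffAt v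
  rw [levi_norm_sq, ContinuousLinearMap.fderiv] at h
  exact h

theorem contDiffAt_log_inner (m : E) {z : E} (hz : -1 < (inner ℂ m z : ℂ).re) (n : WithTop ℕ∞) :
    ContDiffAt ℂ n (fun w : E => Complex.log (1 + (inner ℂ m w : ℂ))) z := by
  have h1 : ContDiffAt ℂ n (fun w : E => 1 + (inner ℂ m w : ℂ)) z :=
    contDiffAt_const.add (innerSL ℂ m).contDiff.contDiffAt
  refine (Complex.contDiffAt_log ?_).comp z h1
  rw [Complex.mem_slitPlane_iff]
  left
  simp only [add_re, one_re]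
  linarith

/-- `log |1 + ⟪m,z⟫|` is `C²` and pluriharmonic where `Re ⟪m,z⟫ > -1`
(it is `Re (log (1 + ⟪m,z⟫))`). -/
theorem contDiffAt_log_norm (m : E) {z : E} (hz : -1 < (inner ℂ m z : ℂ).re) :
    ContDiffAt ℝ 2 (fun w : E => Real.log ‖1 + (inner ℂ m w : ℂ)‖) z := by
  have h1 := (contDiffAt_log_inner m hz 2).restrict_scalars ℝ
  have h2 : (fun w : E => Real.log ‖1 + (inner ℂ m w : ℂ)‖) =
      fun w => reCLM (Complex.log (1 + (inner ℂ m w : ℂ))) := by
    funext w
    rw [reCLM_apply, log_re]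
  rw [h2]
  exact reCLM.contDiff.contDiffAt.comp z h1

theorem levi_log_norm (m : E) {z : E} (hz : -1 < (inner ℂ m z : ℂ).re) (v : E) :
    Levi (fun w : E => Real.log ‖1 + (inner ℂ m w : ℂ)‖) z v = 0 := by
  have h2 : (fun w : E => Real.log ‖1 + (inner ℂ m w : ℂ)‖) =
      fun w => (Complex.log (1 + (inner ℂ m w : ℂ))).re := by
    funext w
    rw [log_re]
  rw [h2]
  exact levi_re (contDiffAt_log_inner m hz 2) v

/-- Taylor along a segment. -/
theorem LeviAux.taylor_seg {f : E → ℝ} (z h : E) (c B : ℝ)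
    (hf : ∀ t ∈ Set.Icc (0 : ℝ) 1, DifferentiableAt ℝ f (z + t • h))
    (hB : ∀ t ∈ Set.Icc (0 : ℝ) 1, |fderiv ℝ f (z + t • h) h - fderiv ℝ f z h - t * c| ≤ t * B) :
    |f (z + h) - f z - fderiv ℝ f z h - (1 / 2) * c| ≤ 1 / 2 * B := by
  have hline : ∀ t : ℝ, HasDerivAt (fun t : ℝ => z + t • h) h t := fun t => by
    simpa using ((hasDerivAt_id t).smul_const h).const_add z
  have hd : ∀ t ∈ Set.Icc (0 : ℝ) 1, HasDerivAt
      (fun t : ℝ => f (z + t • h) - f z - t * fderiv ℝ f z h - t ^ 2 / 2 * c)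
      (fderiv ℝ f (z + t • h) h - fderiv ℝ f z h - t * c) t := by
    intro t ht
    have h1 : HasDerivAt (fun t : ℝ => f (z + t • h)) (fderiv ℝ f (z + t • h) h) t :=
      (hf t ht).hasFDerivAt.comp_hasDerivAt t (hline t)
    have h2 : HasDerivAt (fun t : ℝ => t * fderiv ℝ f z h) (fderiv ℝ f z h) t := by
      simpa using (hasDerivAt_id t).mul_const (fderiv ℝ f z h)
    have h3 : HasDerivAt (fun t : ℝ => t ^ 2 / 2 * c) (t * c) t := by
      exact (((hasDerivAt_pow 2 t).div_const 2).mul_const c).congr_deriv (by norm_num)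
    have h4 := ((h1.sub_const (f z)).sub h2).sub h3
    exact h4
  have key := image_norm_le_of_norm_deriv_right_le_deriv_boundary (E := ℝ)
    (f := fun t : ℝ => f (z + t • h) - f z - t * fderiv ℝ f z h - t ^ 2 / 2 * c)
    (f' := fun t : ℝ => fderiv ℝ f (z + t • h) h - fderiv ℝ f z h - t * c)
    (a := 0) (b := 1) (B := fun t => t ^ 2 / 2 * B) (B' := fun t => t * B)
    (fun t ht => (hd t ht).continuousAt.continuousWithinAt)
    (fun t ht => (hd t ⟨ht.1, ht.2.le⟩).hasDerivWithinAt) (by simp)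
    (fun t => (((hasDerivAt_pow 2 t).div_const 2).mul_const B).congr_deriv (by norm_num))
    (fun t ht => hB t ⟨ht.1, ht.2.le⟩) (Set.right_mem_Icc.2 zero_le_one)
  simp only [one_smul, one_mul, one_pow, Real.norm_eq_abs] at key
  exact key

/-- Second order Taylor expansion at a point where the derivative is differentiable. -/
theorem taylor_two {f : E → ℝ} {z : E} (hf : ∀ᶠ w in 𝓝 z, DifferentiableAt ℝ f w)
    (hd : DifferentiableAt ℝ (fderiv ℝ f) z) {ε : ℝ} (hε : 0 < ε) :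
    ∀ᶠ h in 𝓝 (0 : E),
      |f (z + h) - f z - fderiv ℝ f z h - (1 / 2) * fderiv ℝ (fderiv ℝ f) z h h| ≤ ε * ‖h‖ ^ 2 := by
  have h1 := hd.hasFDerivAt.isLittleO
  have h2 := (Asymptotics.isLittleO_iff.1 h1) hε
  obtain ⟨r1, hr1, hb1⟩ := Metric.eventually_nhds_iff_ball.1 h2
  obtain ⟨r2, hr2, hb2⟩ := Metric.eventually_nhds_iff_ball.1 hf
  rw [Metric.eventually_nhds_iff_ball]
  refine ⟨min r1 r2, lt_min hr1 hr2, fun h hh => ?_⟩
  rw [mem_ball_zero_iff] at hh
  have hmem : ∀ t ∈ Set.Icc (0 : ℝ) 1, ‖t • h‖ < min r1 r2 := by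
    intro t ht
    rw [norm_smul, Real.norm_eq_abs, abs_of_nonneg ht.1]
    calc t * ‖h‖ ≤ 1 * ‖h‖ := mul_le_mul_of_nonneg_right ht.2 (norm_nonneg _)
      _ < min r1 r2 := by rw [one_mul]; exact hh
  have key := taylor_seg (f := f) z h (fderiv ℝ (fderiv ℝ f) z h h) (ε * ‖h‖ ^ 2) ?_ ?_
  · refine key.trans ?_
    have : 0 ≤ ε * ‖h‖ ^ 2 := by positivity
    linarith
  · intro t ht
    apply hb2
    rw [mem_ball_iff_norm, add_sub_cancel_left]
    exact (hmem t ht).trans_le (min_le_right _ _)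
  · intro t ht
    have h3 := hb1 (z + t • h) (by
      rw [mem_ball_iff_norm, add_sub_cancel_left]
      exact (hmem t ht).trans_le (min_le_left _ _))
    rw [add_sub_cancel_left] at h3
    have h4 : fderiv ℝ f (z + t • h) h - fderiv ℝ f z h - t * fderiv ℝ (fderiv ℝ f) z h h =
        (fderiv ℝ f (z + t • h) - fderiv ℝ f z - fderiv ℝ (fderiv ℝ f) z (t • h)) h := by
      rw [map_smul]
      rfl
    rw [h4, ← Real.norm_eq_abs]
    calc ‖(fderiv ℝ f (z + t • h) - fderiv ℝ f z - fderiv ℝ (fderiv ℝ f) z (t • h)) h‖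
        ≤ ‖fderiv ℝ f (z + t • h) - fderiv ℝ f z - fderiv ℝ (fderiv ℝ f) z (t • h)‖ * ‖h‖ :=
          ContinuousLinearMap.le_opNorm _ _
      _ ≤ (ε * ‖t • h‖) * ‖h‖ := mul_le_mul_of_nonneg_right h3 (norm_nonneg _)
      _ = t * (ε * ‖h‖ ^ 2) := by
          rw [norm_smul, Real.norm_eq_abs, abs_of_nonneg ht.1]; ring

/-- Taylor bound for `C^{1,1}` functions. -/
theorem C11.taylor {K : ℝ} {f : E → ℝ} (hf : C11 K f) (z h : E) :
    |f (z + h) - f z - fderiv ℝ f z h| ≤ K / 2 * ‖h‖ ^ 2 := by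
  have key := taylor_seg (f := f) z h 0 (K * ‖h‖ ^ 2) (fun t _ => hf.2.1 _) ?_
  · rw [mul_zero, sub_zero] at key
    calc _ ≤ _ := key
      _ = K / 2 * ‖h‖ ^ 2 := by ring
  · intro t ht
    rw [mul_zero, sub_zero]
    have h3 := hf.2.2 (z + t • h) z
    rw [add_sub_cancel_left] at h3
    have h4 : fderiv ℝ f (z + t • h) h - fderiv ℝ f z h =
        (fderiv ℝ f (z + t • h) - fderiv ℝ f z) h := rfl
    rw [h4, ← Real.norm_eq_abs]
    calc ‖(fderiv ℝ f (z + t • h) - fderiv ℝ f z) h‖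
        ≤ ‖fderiv ℝ f (z + t • h) - fderiv ℝ f z‖ * ‖h‖ := ContinuousLinearMap.le_opNorm _ _
      _ ≤ (K * ‖t • h‖) * ‖h‖ := mul_le_mul_of_nonneg_right h3 (norm_nonneg _)
      _ = t * (K * ‖h‖ ^ 2) := by
          rw [norm_smul, Real.norm_eq_abs, abs_of_nonneg ht.1]; ring

theorem C11.continuous {K : ℝ} {f : E → ℝ} (hf : C11 K f) : Continuous f :=
  hf.2.1.continuous

theorem C11.continuous_fderiv {K : ℝ} {f : E → ℝ} (hf : C11 K f) : Continuous (fderiv ℝ f) := by
  have h : LipschitzWith (Real.toNNReal K) (fderiv ℝ f) :=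
    LipschitzWith.of_dist_le_mul fun x y => by
      rw [dist_eq_norm, dist_eq_norm, Real.coe_toNNReal _ hf.1]
      exact hf.2.2 x y
  exact h.continuous

/-- Second derivative test at a local maximum. -/
theorem second_deriv_nonpos {f : E → ℝ} {z : E} (hmax : IsLocalMax f z)
    (hf : ∀ᶠ w in 𝓝 z, DifferentiableAt ℝ f w) (hd : DifferentiableAt ℝ (fderiv ℝ f) z) (v : E) :
    fderiv ℝ (fderiv ℝ f) z v v ≤ 0 := by
  have h0 : fderiv ℝ f z = 0 := hmax.fderiv_eq_zero
  have hle : ∀ ε : ℝ, 0 < ε → fderiv ℝ (fderiv ℝ f) z v v ≤ 2 * (ε * ‖v‖ ^ 2) := by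
    intro ε hε
    have h1 := taylor_two hf hd hε
    have h2 : Tendsto (fun t : ℝ => t • v) (𝓝[>] 0) (𝓝 0) := by
      have : Tendsto (fun t : ℝ => t • v) (𝓝 0) (𝓝 ((0 : ℝ) • v)) :=
        (continuous_id.smul continuous_const).tendsto 0
      rw [zero_smul] at this
      exact this.mono_left nhdsWithin_le_nhds
    have h3 : Tendsto (fun t : ℝ => z + t • v) (𝓝[>] 0) (𝓝 z) := by
      have := h2.const_add z
      rwa [add_zero] at this
    obtain ⟨t, ht1, ht2, ht3⟩ := ((h2.eventually h1).and ((h3.eventually hmax).and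
      self_mem_nhdsWithin)).exists
    have ht : (0 : ℝ) < t := ht3
    rw [h0] at ht1
    simp only [map_smul, _root_.smul_apply, _root_.zero_apply, smul_eq_mul,
      norm_smul, Real.norm_eq_abs, abs_of_pos ht] at ht1
    have h5 := (abs_le.1 ht1).1
    have h6 : t ^ 2 * (fderiv ℝ (fderiv ℝ f) z v v) ≤ t ^ 2 * (2 * (ε * ‖v‖ ^ 2)) := by
      nlinarith
    exact le_of_mul_le_mul_left h6 (by positivity)
  by_contra hpos
  push Not at hpos
  set q := fderiv ℝ (fderiv ℝ f) z v v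
  have h7 := hle (q / (4 * (‖v‖ ^ 2 + 1))) (by positivity)
  have h8 : 2 * (q / (4 * (‖v‖ ^ 2 + 1)) * ‖v‖ ^ 2) ≤ q / 2 := by
    have h9 : 0 < ‖v‖ ^ 2 + 1 := by positivity
    have h10 : q / (4 * (‖v‖ ^ 2 + 1)) * ‖v‖ ^ 2 ≤ q / 4 := by
      rw [div_mul_eq_mul_div, div_le_div_iff₀ (by positivity) (by norm_num)]
      nlinarith
    linarith
  linarith

/-- the average over the unit circle of the second order Taylor polynomial -/
theorem LeviAux.circleAverage_quad (c : ℝ) (L : E →L[ℝ] ℝ) (B : E →L[ℝ] E →L[ℝ] ℝ) (v : E) :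
    Real.circleAverage (fun ζ : ℂ => c + L (ζ • v) + (1 / 2) * B (ζ • v) (ζ • v)) 0 1 =
      c + (1 / 4) * (B v v + B (I • v) (I • v)) := by
  rw [Real.circleAverage]
  have h1 : ∀ θ : ℝ, (circleMap 0 1 θ) • v = (Real.cos θ) • v + (Real.sin θ) • (I • v) := by
    intro θ
    rw [circleMap, zero_add, ofReal_one, one_mul, Complex.exp_mul_I, add_smul, mul_smul]
    rw [← Complex.ofReal_cos, ← Complex.ofReal_sin]
    rfl
  have h2 : (fun θ : ℝ => c + L ((circleMap 0 1 θ) • v) +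
      (1 / 2) * B ((circleMap 0 1 θ) • v) ((circleMap 0 1 θ) • v)) =
      fun θ : ℝ => c + Real.cos θ * L v + Real.sin θ * L (I • v) +
        (1 / 2) * (Real.cos θ ^ 2 * B v v + Real.sin θ ^ 2 * B (I • v) (I • v) +
          Real.sin θ * Real.cos θ * (B v (I • v) + B (I • v) v)) := by
    funext θ
    rw [h1]
    simp only [map_add, map_smul, _root_.add_apply, _root_.smul_apply, smul_eq_mul]
    ring
  rw [h2]
  have i1 : ∫ θ in (0 : ℝ)..2 * Real.pi, Real.cos θ = 0 := by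
    rw [integral_cos]; simp
  have i2 : ∫ θ in (0 : ℝ)..2 * Real.pi, Real.sin θ = 0 := by
    rw [integral_sin]; simp
  have i3 : ∫ θ in (0 : ℝ)..2 * Real.pi, Real.cos θ ^ 2 = Real.pi := by
    rw [integral_cos_sq]; simp
  have i4 : ∫ θ in (0 : ℝ)..2 * Real.pi, Real.sin θ ^ 2 = Real.pi := by
    rw [integral_sin_sq]; simp
  have i5 : ∫ θ in (0 : ℝ)..2 * Real.pi, Real.sin θ * Real.cos θ = 0 := by
    rw [integral_sin_mul_cos₁]; simp
  have hc1 : Continuous fun θ : ℝ => c + Real.cos θ * L v := by fun_prop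
  have hc2 : Continuous fun θ : ℝ => c + Real.cos θ * L v + Real.sin θ * L (I • v) := by fun_prop
  rw [intervalIntegral.integral_add (hc2.intervalIntegrable _ _)
      (Continuous.intervalIntegrable (by fun_prop) _ _),
    intervalIntegral.integral_add (hc1.intervalIntegrable _ _)
      (Continuous.intervalIntegrable (by fun_prop) _ _),
    intervalIntegral.integral_add (Continuous.intervalIntegrable (by fun_prop) _ _)
      (Continuous.intervalIntegrable (by fun_prop) _ _),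
    intervalIntegral.integral_const_mul,
    intervalIntegral.integral_add (Continuous.intervalIntegrable (by fun_prop) _ _)
      (Continuous.intervalIntegrable (by fun_prop) _ _),
    intervalIntegral.integral_add (Continuous.intervalIntegrable (by fun_prop) _ _)
      (Continuous.intervalIntegrable (by fun_prop) _ _),
    intervalIntegral.integral_mul_const, intervalIntegral.integral_mul_const,
    intervalIntegral.integral_mul_const, intervalIntegral.integral_mul_const,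
    intervalIntegral.integral_mul_const, i1, i2, i3, i4, i5, intervalIntegral.integral_const]
  have hpi := Real.pi_pos
  simp only [smul_eq_mul]
  field_simp
  ring

/-- `C²` psh functions have nonnegative Levi form: expand
`circleAverage (ζ ↦ f(z + ζ t v)) = f z + t²/4 * Levi f z v + o(t²)`. -/
theorem PSH.levi_nonneg {f : E → ℝ} (hf : PSH f) (hc : ContDiff ℝ 2 f) (z v : E) :
    0 ≤ Levi f z v := by
  have hle : ∀ ε : ℝ, 0 < ε → -(4 * (ε * ‖v‖ ^ 2)) ≤ Levi f z v := by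
    intro ε hε
    have h1 := taylor_two (ev_diff (hc.contDiffAt (x := z))) (diff_fderiv hc.contDiffAt) hε
    obtain ⟨r, hr, hb⟩ := Metric.eventually_nhds_iff_ball.1 h1
    obtain ⟨t, ht, htr⟩ : ∃ t : ℝ, 0 < t ∧ t * ‖v‖ < r := by
      refine ⟨r / (2 * (‖v‖ + 1)), by positivity, ?_⟩
      rw [div_mul_eq_mul_div, div_lt_iff₀ (by positivity)]
      nlinarith [norm_nonneg v]
    have h2 := hf.2 z (t • v)
    have h3 : Real.circleAverage (fun ζ : ℂ => f (z + ζ • (t • v))) 0 1 ≤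
        Real.circleAverage (fun ζ : ℂ => (f z + ε * ‖t • v‖ ^ 2) + fderiv ℝ f z (ζ • (t • v)) +
          (1 / 2) * fderiv ℝ (fderiv ℝ f) z (ζ • (t • v)) (ζ • (t • v))) 0 1 := by
      apply Real.circleAverage_mono
      · have := hf.1
        exact ContinuousOn.circleIntegrable' (Continuous.continuousOn (by fun_prop))
      · exact ContinuousOn.circleIntegrable' (Continuous.continuousOn (by fun_prop))
      · intro ζ hζ
        have hζ1 : ‖ζ‖ = 1 := by simpa using hζ
        have hn : ‖ζ • (t • v)‖ = ‖t • v‖ := by rw [norm_smul, hζ1, one_mul]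
        have h4 := hb (ζ • (t • v)) (by
          rw [mem_ball_zero_iff, hn, norm_smul, Real.norm_eq_abs, abs_of_pos ht]; exact htr)
        rw [hn] at h4
        have h5 := (abs_le.1 h4).2
        linarith
    rw [circleAverage_quad] at h3
    have h6 : fderiv ℝ (fderiv ℝ f) z (t • v) (t • v) +
        fderiv ℝ (fderiv ℝ f) z (I • (t • v)) (I • (t • v)) = t ^ 2 * Levi f z v := by
      rw [smul_comm I t v]
      simp only [map_smul, _root_.smul_apply, smul_eq_mul, Levi]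
      ring
    rw [h6, norm_smul, Real.norm_eq_abs, abs_of_pos ht] at h3
    have h7 : t ^ 2 * (-(4 * (ε * ‖v‖ ^ 2))) ≤ t ^ 2 * Levi f z v := by nlinarith
    exact le_of_mul_le_mul_left h7 (by positivity)
  by_contra hneg
  push Not at hneg
  set q := Levi f z v
  have h7 := hle (-q / (8 * (‖v‖ ^ 2 + 1))) (by
    apply div_pos (by linarith) (by positivity))
  have h8 : 4 * (-q / (8 * (‖v‖ ^ 2 + 1)) * ‖v‖ ^ 2) ≤ -q / 2 := by
    have h9 : 0 < ‖v‖ ^ 2 + 1 := by positivity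
    have h10 : -q / (8 * (‖v‖ ^ 2 + 1)) * ‖v‖ ^ 2 ≤ -q / 8 := by
      rw [div_mul_eq_mul_div, div_le_div_iff₀ (by positivity) (by norm_num)]
      nlinarith
    linarith
  linarith

/-- A symmetric bilinear form with `|B(v,v)| ≤ K|v|²` has norm at most `K`. -/
theorem LeviAux.norm_symm_le (B : E →L[ℝ] E →L[ℝ] ℝ) {K : ℝ} (hK : 0 ≤ K)
    (hs : ∀ u v, B u v = B v u) (h : ∀ v, |B v v| ≤ K * ‖v‖ ^ 2) : ‖B‖ ≤ K := by
  let _ : InnerProductSpace ℝ E := InnerProductSpace.complexToReal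
  have h1 : ∀ u v : E, |B u v| ≤ K / 2 * (‖u‖ ^ 2 + ‖v‖ ^ 2) := by
    intro u v
    have h2 : B u v = (1 / 4) * (B (u + v) (u + v) - B (u - v) (u - v)) := by
      simp only [map_add, map_sub, _root_.add_apply, _root_.sub_apply]
      rw [hs v u]; ring
    have h3 := parallelogram_law_with_norm ℝ u v
    rw [h2, abs_mul]
    calc |(1 / 4 : ℝ)| * |B (u + v) (u + v) - B (u - v) (u - v)|
        ≤ (1 / 4) * (|B (u + v) (u + v)| + |B (u - v) (u - v)|) := by
          rw [abs_of_pos (by norm_num : (0 : ℝ) < 1 / 4)]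
          exact mul_le_mul_of_nonneg_left (abs_sub _ _) (by norm_num)
      _ ≤ (1 / 4) * (K * ‖u + v‖ ^ 2 + K * ‖u - v‖ ^ 2) := by
          apply mul_le_mul_of_nonneg_left _ (by norm_num)
          exact add_le_add (h _) (h _)
      _ = K / 2 * (‖u‖ ^ 2 + ‖v‖ ^ 2) := by
          have : ‖u + v‖ ^ 2 + ‖u - v‖ ^ 2 = 2 * (‖u‖ ^ 2 + ‖v‖ ^ 2) := by
            simpa [sq] using h3
          rw [← mul_add, this]; ring
  apply ContinuousLinearMap.opNorm_le_bound _ hK
  intro u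
  apply ContinuousLinearMap.opNorm_le_bound _ (by positivity)
  intro v
  rw [Real.norm_eq_abs]
  by_cases hu : u = 0
  · subst hu; simp
  by_cases hv : v = 0
  · subst hv; simp
  have hu' : 0 < ‖u‖ := norm_pos_iff.2 hu
  have hv' : 0 < ‖v‖ := norm_pos_iff.2 hv
  have h4 := h1 (‖v‖ • u) (‖u‖ • v)
  simp only [map_smul, _root_.smul_apply, smul_eq_mul, norm_smul, norm_norm, abs_mul,
    abs_norm] at h4
  have h5 : (‖u‖ * ‖v‖) * |B u v| ≤ (‖u‖ * ‖v‖) * (K * ‖u‖ * ‖v‖) := by nlinarith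
  exact le_of_mul_le_mul_left h5 (by positivity)

/-- A `C²` function with `|D²f(z)(v,v)| ≤ K|v|²` is of class `C11 K` (symmetric bilinear forms on a
real inner product space: `‖B‖ = sup |B(v,v)|`, via polarisation and the parallelogram law). -/
theorem C11.of_second {f : E → ℝ} {K : ℝ} (hK : 0 ≤ K) (hf : ContDiff ℝ 2 f)
    (h : ∀ z v, |fderiv ℝ (fderiv ℝ f) z v v| ≤ K * ‖v‖ ^ 2) : C11 K f := by
  refine ⟨hK, hf.differentiable (by norm_num), fun x y => ?_⟩
  have hd : ∀ w, DifferentiableAt ℝ (fderiv ℝ f) w := fun w => diff_fderiv hf.contDiffAt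
  have hb : ∀ w, ‖fderiv ℝ (fderiv ℝ f) w‖ ≤ K := fun w => by
    apply norm_symm_le _ hK _ (h w)
    exact (hf.contDiffAt (x := w)).isSymmSndFDerivAt (by simp)
  exact Convex.norm_image_sub_le_of_norm_fderiv_le (fun w _ => hd w) (fun w _ => hb w)
    convex_univ (Set.mem_univ y) (Set.mem_univ x)

/-- Pointwise limits of `C11 K` functions are `C11 K`, with convergence of the derivatives.
Proof: `f_n(z+h) - f_n(z) = Df_n(z)h + O(K/2 |h|²)`; hence for `t > 0`
`|Df_n(z)h - Df_m(z)h| ≤ t⁻¹ |(f_n-f_m)(z+th) - (f_n-f_m)(z)| + K t |h|²`, so `Df_n(z)h` is Cauchy;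
the limit is linear in `h` and is the derivative of `f` (Taylor bound in the limit). -/
theorem C11.of_tendsto [FiniteDimensional ℂ E] {K : ℝ} {f : ℕ → E → ℝ} {g : E → ℝ}
    (hf : ∀ n, C11 K (f n)) (h : ∀ z, Tendsto (fun n => f n z) atTop (𝓝 (g z))) :
    C11 K g ∧ ∀ z, Tendsto (fun n => fderiv ℝ (f n) z) atTop (𝓝 (fderiv ℝ g z)) := by
  have hK := (hf 0).1
  have : FiniteDimensional ℝ E := FiniteDimensional.complexToReal E
  -- the sequence of derivatives is Cauchy pointwise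
  have hcau : ∀ z v, CauchySeq (fun n => fderiv ℝ (f n) z v) := by
    intro z v
    rw [Metric.cauchySeq_iff']
    intro ε hε
    obtain ⟨t, ht, htε⟩ : ∃ t : ℝ, 0 < t ∧ K * t * ‖v‖ ^ 2 < ε / 2 := by
      refine ⟨ε / (4 * (K * ‖v‖ ^ 2 + 1)), by positivity, ?_⟩
      have h9 : 0 < K * ‖v‖ ^ 2 + 1 := by positivity
      rw [show K * (ε / (4 * (K * ‖v‖ ^ 2 + 1))) * ‖v‖ ^ 2 =
        (K * ‖v‖ ^ 2) * ε / (4 * (K * ‖v‖ ^ 2 + 1)) by ring, div_lt_div_iff₀ (by positivity) (by norm_num)]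
      nlinarith [mul_pos hε h9]
    have hc1 : CauchySeq (fun n => f n (z + t • v) - f n z) :=
      ((h (z + t • v)).sub (h z)).cauchySeq
    rw [Metric.cauchySeq_iff'] at hc1
    obtain ⟨N, hN⟩ := hc1 (t * (ε / 2)) (by positivity)
    refine ⟨N, fun n hn => ?_⟩
    have h1 := hN n hn
    rw [Real.dist_eq] at h1 ⊢
    have h2 := (hf n).taylor z (t • v)
    have h3 := (hf N).taylor z (t • v)
    rw [map_smul, norm_smul, Real.norm_eq_abs, abs_of_pos ht, smul_eq_mul] at h2 h3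
    have h4 : t * |fderiv ℝ (f n) z v - fderiv ℝ (f N) z v| < t * ε := by
      rw [show t * |fderiv ℝ (f n) z v - fderiv ℝ (f N) z v| =
        |t * fderiv ℝ (f n) z v - t * fderiv ℝ (f N) z v| by
          rw [← mul_sub, abs_mul, abs_of_pos ht]]
      rw [abs_lt] at h1 ⊢
      rw [abs_le] at h2 h3
      have h5 : t * (K * t * ‖v‖ ^ 2) < t * (ε / 2) := mul_lt_mul_of_pos_left htε ht
      constructor <;> nlinarith
    exact lt_of_mul_lt_mul_left h4 ht.le
  choose L hL using fun z v => cauchySeq_tendsto_of_complete (hcau z v)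
  have hLadd : ∀ z u v, L z (u + v) = L z u + L z v := fun z u v =>
    tendsto_nhds_unique (hL z (u + v)) (((hL z u).add (hL z v)).congr fun n => (map_add _ _ _).symm)
  have hLsmul : ∀ z (c : ℝ) v, L z (c • v) = c • L z v := fun z c v =>
    tendsto_nhds_unique (hL z (c • v)) (((hL z v).const_smul c).congr fun n => (map_smul _ _ _).symm)
  let M : E → (E →L[ℝ] ℝ) := fun z => LinearMap.toContinuousLinearMap
    { toFun := L z, map_add' := hLadd z, map_smul' := hLsmul z }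
  have hM : ∀ z v, M z v = L z v := fun _ _ => rfl
  have htay : ∀ z v, |g (z + v) - g z - M z v| ≤ K / 2 * ‖v‖ ^ 2 := by
    intro z v
    exact le_of_tendsto ((((h (z + v)).sub (h z)).sub (hL z v)).abs)
      (Eventually.of_forall fun n => (hf n).taylor z v)
  have hder : ∀ z, HasFDerivAt g (M z) z := by
    intro z
    rw [hasFDerivAt_iff_isLittleO_nhds_zero]
    have hO : (fun v : E => g (z + v) - g z - M z v) =O[𝓝 0] fun v : E => ‖v‖ ^ 2 := by
      apply Asymptotics.IsBigO.of_bound (K / 2)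
      exact Eventually.of_forall fun v => by
        rw [Real.norm_eq_abs, Real.norm_eq_abs, abs_of_nonneg (by positivity : 0 ≤ ‖v‖ ^ 2)]
        exact htay z v
    refine hO.trans_isLittleO ?_
    exact Asymptotics.isLittleO_norm_pow_id one_lt_two
  have hfd : ∀ z, fderiv ℝ g z = M z := fun z => (hder z).fderiv
  refine ⟨⟨hK, fun z => (hder z).differentiableAt, fun x y => ?_⟩, fun z => ?_⟩
  · rw [hfd, hfd]
    apply ContinuousLinearMap.opNorm_le_bound _ (by positivity)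
    intro v
    have h1 : Tendsto (fun n => ‖(fderiv ℝ (f n) x - fderiv ℝ (f n) y) v‖) atTop
        (𝓝 ‖(M x - M y) v‖) := ((hL x v).sub (hL y v)).norm
    refine le_of_tendsto h1 (Eventually.of_forall fun n => ?_)
    exact (ContinuousLinearMap.le_opNorm _ _).trans
      (mul_le_mul_of_nonneg_right ((hf n).2.2 x y) (norm_nonneg _))
  · rw [hfd]
    obtain ⟨C, hC, hCb⟩ := (Module.finBasis ℝ E).exists_opNorm_le (F := ℝ)
    rw [Metric.tendsto_atTop]
    intro ε hε
    have hev : ∀ᶠ n in atTop, ∀ i, ‖(fderiv ℝ (f n) z - M z) (Module.finBasis ℝ E i)‖ ≤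
        ε / (2 * C) := by
      rw [eventually_all]
      intro i
      have h1 := (hL z (Module.finBasis ℝ E i)).sub_const (L z (Module.finBasis ℝ E i))
      rw [sub_self] at h1
      have h2 := h1.norm
      rw [norm_zero] at h2
      exact (h2.eventually_lt_const (by positivity : (0 : ℝ) < ε / (2 * C))).mono
        fun n hn => hn.le
    obtain ⟨N, hN⟩ := eventually_atTop.1 hev
    refine ⟨N, fun n hn => ?_⟩
    rw [dist_eq_norm]
    have h3 := hCb (by positivity) (hN n hn)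
    calc ‖fderiv ℝ (f n) z - M z‖ ≤ C * (ε / (2 * C)) := h3
      _ = ε / 2 := by field_simp
      _ < ε := by linarith

end Pool.Agent.Edge
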