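import Pool.Agent.Edge.Moll
import Pool.Agent.Edge.LeviCalc

/-!
# The Liouville theorem for the blow-up

Let `‖m‖ = 1`, write `ζ₁ = ⟪m,ζ⟫_ℂ`, `x = Re ζ₁`, `|ζ'|² = ‖ζ‖² - |ζ₁|²`.
Let `φ` be psh, `C11 K`, `φ = |ζ|²` on `{x ≤ 0}` and maximal (`Comp`) in `{x > 0}`.
Then `φ = |ζ|² - 2 x_+²` (`= phi0 m`).

Proof.  Put `∂₁φ = ½ (Dφ(m) - i Dφ(im))`, so `Dφ(c m) = 2 Re(c ∂₁φ)` for `c ∈ ℂ`, and
`u = ∂₁φ + ζ₁`.
(a) On `{x ≤ 0}`: `Dφ(ζ)h = 2 Re ⟪ζ,h⟫_ℂ` (for `x < 0` as `φ = |ζ|²` near `ζ`, for `x = 0` by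
    continuity of `Dφ`), hence `∂₁φ = conj ζ₁`, so `u = 0` on `{x = 0}`.
(b) For `x > 0`: comparing with `ζ - x m` (on `{x=0}`): `|u(ζ)| ≤ (K+1) x`.  Also
    `φ(ζ) ≥ φ(ζ - xm) + Dφ(ζ-xm)(xm) - (K/2)x² = ‖ζ-xm‖² - (K/2) x² ≥ |ζ'|² - (K/2) x²`
    (`C11.taylor`; `Dφ(ζ-xm)(m) = 2 Re⟪ζ-xm,m⟫_ℂ = 0`).
(c) For `t ∈ ℂ` put `F_t(ζ) = ζ + t e^{-ζ₁} m`, `ℓ(ζ) = -ζ₁ e^{-ζ₁}` and
    `Ψ_t = φ ∘ F_t - 2 Re (t ℓ)`.  By `C11.taylor`, for `x ≥ 0` (`|e^{-ζ₁}| = e^{-x} ≤ 1`)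
    `|Ψ_t(ζ) - φ(ζ) - 2 Re (t e^{-ζ₁} u(ζ))| ≤ (K/2)|t|²`.
    As `x e^{-x} ≤ 1`: `Ψ_t ≤ φ + 2(K+1)|t| + (K/2)|t|²` on `{x ≥ 0}`, and
    `Ψ_t ≤ φ + 2(K+1)|t| x + (K/2)|t|²` there.
(d) Claim: `Ψ_t ≤ φ + (K/2)|t|²` on `{x > 0}`.  Let `s > 0`, `φ_s = moll s φ` (smooth, psh,
    `φ ≤ φ_s ≤ φ + (K/2)s²`) and `Ψ_{t,s} = φ_s ∘ F_t - 2 Re (tℓ)`; by `levi_comp`, `levi_re`
    and `PSH.levi_nonneg` it is `C²` with nonnegative Levi form, `Ψ_{t,s} ≤ Ψ_t + (K/2)s²`.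
    For `R > 1`, `σ > 0` let `G = {x > σ, |ζ₁| < R, |ζ'| < R²}` (bounded, open, closure in `x > 0`),
    `C₂ = 2(K+1)|t|`, `η = 2C₂/R⁴` (`≤ 1` for large `R`), `η₂ = C₂/log R`, and
    `W = (1-η)(Ψ_{t,s} - (K/2)|t|² - (K/2)s²) + η(½|ζ'|² - (K/2)R²) - η₂ log|1+ζ₁|`.
    `W` is `C²` near `closure G` with `Levi W ≥ 0` (`|ζ'|² = ‖ζ‖²-|⟪m,ζ⟫_ℂ|²`,
    `Levi = 4(‖v‖²-|⟪m,v⟫_ℂ|²) ≥ 0`; `levi_log_norm`).
    On `frontier G` we have `W ≤ φ + C₂ σ`: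
      * `½|ζ'|² - (K/2)R² ≤ φ` on `closure G` by (b) (`x ≤ R`), `log|1+ζ₁| ≥ 0` for `x ≥ 0`;
      * on `x = σ`: `Ψ_t - (K/2)|t|² ≤ φ + C₂σ`, so `W ≤ (1-η)(φ + C₂σ) + ηφ ≤ φ + C₂σ`;
      * on `|ζ₁| = R`: `W ≤ (1-η)(φ + C₂) + ηφ - η₂ log R ≤ φ` (`|1+ζ₁| ≥ |ζ₁| = R`);
      * on `|ζ'| = R²`: `W ≤ φ + C₂ + η(½|ζ'|² - (K/2)R² - φ) ≤ φ + C₂ - η R⁴/2 = φ`.
    By `Comp`: `W ≤ φ + C₂σ` on `G`.  Fix `ζ` with `x > 0`; let `σ → 0`, `s → 0`, `R → ∞`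
    (`η, η₂, ηR² → 0`): `Ψ_t(ζ) - (K/2)|t|² ≤ φ(ζ)`.
(e) So for all `t`: `2 Re(t e^{-ζ₁} u(ζ)) ≤ K|t|²`; with `t = τ conj(e^{-ζ₁}u)`, `τ → 0+`, `u(ζ) = 0`.
(f) Hence for `x > 0`, along `ζ_s = ζ + (s-x)m`, `0 ≤ s ≤ x`: `d/ds φ(ζ_s) = Dφ(m) = 2Re ∂₁φ = -2s`,
    so `φ(ζ) = ‖ζ - xm‖² - x² = ‖ζ‖² - 2x²`.
-/

namespace Pool.Agent.Edge

open MeasureTheory Filter Topology Complex

open scoped ComplexConjugate InnerProductSpace ContDiff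

variable {E : Type*} [NormedAddCommGroup E] [InnerProductSpace ℂ E]

namespace Liouv


/-! ## The derivative `∂₁` -/

/-- `∂₁ φ = ½ (Dφ(m) - i Dφ(im))`. -/
noncomputable def d1 (m : E) (φ : E → ℝ) (ζ : E) : ℂ :=
  (1 / 2) * (((fderiv ℝ φ ζ m : ℝ) : ℂ) - I * ((fderiv ℝ φ ζ (I • m) : ℝ) : ℂ))

/-- `u = ∂₁ φ + ζ₁`. -/
noncomputable def uu (m : E) (φ : E → ℝ) (ζ : E) : ℂ := d1 m φ ζ + ⟪m, ζ⟫_ℂ

theorem fderiv_smul_eq (m : E) (φ : E → ℝ) (ζ : E) (c : ℂ) :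
    fderiv ℝ φ ζ (c • m) = 2 * (c * d1 m φ ζ).re := by
  have h : c • m = c.re • m + c.im • (I • m) := by
    rw [← Complex.coe_smul c.re m, ← Complex.coe_smul c.im (I • m), smul_smul, ← add_smul,
      Complex.re_add_im]
  rw [h, map_add, map_smul, map_smul, smul_eq_mul, smul_eq_mul, d1]
  simp [Complex.mul_re, Complex.mul_im]
  ring

theorem norm_d1_sub_le {m : E} (hm : ‖m‖ = 1) {K : ℝ} {φ : E → ℝ} (hC : C11 K φ) (x y : E) :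
    ‖d1 m φ x - d1 m φ y‖ ≤ K * ‖x - y‖ := by
  have h1 : d1 m φ x - d1 m φ y = (1 / 2) * ((((fderiv ℝ φ x - fderiv ℝ φ y) m : ℝ) : ℂ)
      - I * (((fderiv ℝ φ x - fderiv ℝ φ y) (I • m) : ℝ) : ℂ)) := by
    unfold d1
    simp only [_root_.sub_apply]
    push_cast
    ring
  rw [h1, norm_mul]
  have h2 : ‖(((fderiv ℝ φ x - fderiv ℝ φ y) m : ℝ) : ℂ)‖ ≤ K * ‖x - y‖ := by
    rw [Complex.norm_real]
    refine ((fderiv ℝ φ x - fderiv ℝ φ y).le_opNorm m).trans ?_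
    rw [hm, mul_one]
    exact hC.2.2 x y
  have h3 : ‖I * (((fderiv ℝ φ x - fderiv ℝ φ y) (I • m) : ℝ) : ℂ)‖ ≤ K * ‖x - y‖ := by
    rw [norm_mul, Complex.norm_I, one_mul, Complex.norm_real]
    refine ((fderiv ℝ φ x - fderiv ℝ φ y).le_opNorm (I • m)).trans ?_
    rw [norm_smul, Complex.norm_I, hm, mul_one, mul_one]
    exact hC.2.2 x y
  have h4 := norm_sub_le (((fderiv ℝ φ x - fderiv ℝ φ y) m : ℝ) : ℂ)
    (I * (((fderiv ℝ φ x - fderiv ℝ φ y) (I • m) : ℝ) : ℂ))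
  have h5 : ‖(1 / 2 : ℂ)‖ = 1 / 2 := by norm_num
  rw [h5]
  linarith

/-! ## Geometry of the coordinate `x = Re ζ₁` -/

theorem inner_sub_smul {m : E} (hm : ‖m‖ = 1) (ζ : E) (x : ℝ) :
    ⟪m, ζ - (x : ℂ) • m⟫_ℂ = ⟪m, ζ⟫_ℂ - x := by
  rw [inner_sub_right, inner_smul_right, inner_self_eq_norm_sq_to_K, hm]
  simp

theorem norm_sub_smul_sq {m : E} (hm : ‖m‖ = 1) (ζ : E) (x : ℝ) :
    ‖ζ - (x : ℂ) • m‖ ^ 2 = ‖ζ‖ ^ 2 - 2 * x * (⟪m, ζ⟫_ℂ).re + x ^ 2 := by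
  have h : (⟪ζ, m⟫_ℂ).re = (⟪m, ζ⟫_ℂ).re := by
    rw [← inner_conj_symm ζ m, Complex.conj_re]
  rw [@norm_sub_sq ℂ, inner_smul_right, norm_smul, hm]
  simp
  rw [h]
  ring

theorem inner_sq_le {m : E} (hm : ‖m‖ = 1) (ζ : E) : ‖⟪m, ζ⟫_ℂ‖ ^ 2 ≤ ‖ζ‖ ^ 2 := by
  have := norm_inner_le_norm (𝕜 := ℂ) m ζ
  rw [hm, one_mul] at this
  gcongr

theorem hasFDerivAt_normSq (ζ h : E) :
    fderiv ℝ (fun w : E => ‖w‖ ^ 2) ζ h = 2 * (⟪ζ, h⟫_ℂ).re := by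
  let _ : InnerProductSpace ℝ E := InnerProductSpace.complexToReal
  have h1 := (hasStrictFDerivAt_norm_sq ζ).hasFDerivAt.fderiv
  rw [h1]
  simp [two_smul]
  have : (inner ℝ ζ h : ℝ) = (⟪ζ, h⟫_ℂ).re := rfl
  rw [this]
  ring


theorem re_symm (m ζ : E) : (⟪ζ, m⟫_ℂ).re = (⟪m, ζ⟫_ℂ).re := by
  rw [← inner_conj_symm ζ m, Complex.conj_re]

theorem im_symm (m ζ : E) : (⟪ζ, m⟫_ℂ).im = -(⟪m, ζ⟫_ℂ).im := by
  rw [← inner_conj_symm ζ m, Complex.conj_im]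

/-! ## Step (a): the boundary -/

theorem continuous_re (m : E) : Continuous fun ζ : E => (⟪m, ζ⟫_ℂ).re :=
  Complex.continuous_re.comp (continuous_const.inner continuous_id)

theorem fderiv_of_neg {m : E} {φ : E → ℝ}
    (hneg : ∀ ζ : E, (⟪m, ζ⟫_ℂ).re ≤ 0 → φ ζ = ‖ζ‖ ^ 2) {ζ : E} (hζ : (⟪m, ζ⟫_ℂ).re < 0) :
    fderiv ℝ φ ζ = fderiv ℝ (fun w : E => ‖w‖ ^ 2) ζ := by
  apply Filter.EventuallyEq.fderiv_eq
  filter_upwards [(continuous_re m).continuousAt.eventually (gt_mem_nhds hζ)] with w hw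
  exact hneg w hw.le

theorem fderiv_of_zero {m : E} (hm : ‖m‖ = 1) {K : ℝ} {φ : E → ℝ} (hC : C11 K φ)
    (hneg : ∀ ζ : E, (⟪m, ζ⟫_ℂ).re ≤ 0 → φ ζ = ‖ζ‖ ^ 2) {ζ : E} (hζ : (⟪m, ζ⟫_ℂ).re = 0) (h : E) :
    fderiv ℝ φ ζ h = 2 * (⟪ζ, h⟫_ℂ).re := by
  have h1 : ∀ t : ℝ, 0 < t → fderiv ℝ φ (ζ - (t : ℂ) • m) h = 2 * (⟪ζ - (t : ℂ) • m, h⟫_ℂ).re := by
    intro t ht
    rw [fderiv_of_neg hneg, hasFDerivAt_normSq]
    rw [inner_sub_smul hm, Complex.sub_re, hζ, Complex.ofReal_re]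
    linarith
  have hc : Continuous fun t : ℝ => ζ - (t : ℂ) • m :=
    continuous_const.sub (Complex.continuous_ofReal.smul continuous_const)
  have h0 : ζ - ((0 : ℝ) : ℂ) • m = ζ := by simp
  have t1 : Tendsto (fun t : ℝ => fderiv ℝ φ (ζ - (t : ℂ) • m) h) (𝓝[>] 0)
      (𝓝 (fderiv ℝ φ ζ h)) := by
    have h2 : Continuous fun t : ℝ => fderiv ℝ φ (ζ - (t : ℂ) • m) h :=
      (hC.continuous_fderiv.comp hc).clm_apply continuous_const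
    have h3 := h2.tendsto 0
    rw [h0] at h3
    exact h3.mono_left nhdsWithin_le_nhds
  have t2 : Tendsto (fun t : ℝ => 2 * (⟪ζ - (t : ℂ) • m, h⟫_ℂ).re) (𝓝[>] 0)
      (𝓝 (2 * (⟪ζ, h⟫_ℂ).re)) := by
    have h2 : Continuous fun t : ℝ => 2 * (⟪ζ - (t : ℂ) • m, h⟫_ℂ).re :=
      continuous_const.mul (Complex.continuous_re.comp (hc.inner continuous_const))
    have h3 := h2.tendsto 0
    rw [h0] at h3
    exact h3.mono_left nhdsWithin_le_nhds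
  refine tendsto_nhds_unique t1 (t2.congr' ?_)
  filter_upwards [self_mem_nhdsWithin] with t ht
  exact (h1 t ht).symm

theorem uu_of_zero {m : E} (hm : ‖m‖ = 1) {K : ℝ} {φ : E → ℝ} (hC : C11 K φ)
    (hneg : ∀ ζ : E, (⟪m, ζ⟫_ℂ).re ≤ 0 → φ ζ = ‖ζ‖ ^ 2) {ζ : E} (hζ : (⟪m, ζ⟫_ℂ).re = 0) :
    uu m φ ζ = 0 := by
  unfold uu d1
  rw [fderiv_of_zero hm hC hneg hζ, fderiv_of_zero hm hC hneg hζ, inner_smul_right]
  have h1 := re_symm m ζ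
  have h2 := im_symm m ζ
  apply Complex.ext
  · simp [h1, hζ]
  · simp [h2]

/-! ## Step (b) -/

theorem norm_uu_le {m : E} (hm : ‖m‖ = 1) {K : ℝ} {φ : E → ℝ} (hC : C11 K φ)
    (hneg : ∀ ζ : E, (⟪m, ζ⟫_ℂ).re ≤ 0 → φ ζ = ‖ζ‖ ^ 2) {ζ : E} (hζ : 0 ≤ (⟪m, ζ⟫_ℂ).re) :
    ‖uu m φ ζ‖ ≤ (K + 1) * (⟪m, ζ⟫_ℂ).re := by
  set x := (⟪m, ζ⟫_ℂ).re with hx
  set ζ0 := ζ - (x : ℂ) • m with hζ0
  have h0 : (⟪m, ζ0⟫_ℂ).re = 0 := by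
    rw [hζ0, inner_sub_smul hm, Complex.sub_re, Complex.ofReal_re, ← hx, sub_self]
  have h1 : uu m φ ζ = (d1 m φ ζ - d1 m φ ζ0) + (x : ℂ) := by
    have h2 := uu_of_zero hm hC hneg h0
    have h3 : ⟪m, ζ0⟫_ℂ = ⟪m, ζ⟫_ℂ - x := inner_sub_smul hm ζ x
    unfold uu at h2 ⊢
    rw [h3] at h2
    linear_combination h2
  have hd : ‖ζ - ζ0‖ = x := by
    rw [hζ0, sub_sub_cancel, norm_smul, hm, mul_one, Complex.norm_real, Real.norm_of_nonneg hζ]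
  rw [h1]
  refine (norm_add_le _ _).trans ?_
  have h4 := norm_d1_sub_le hm hC ζ ζ0
  rw [hd] at h4
  rw [Complex.norm_real, Real.norm_of_nonneg hζ]
  linarith

theorem lower_bound {m : E} (hm : ‖m‖ = 1) {K : ℝ} {φ : E → ℝ} (hC : C11 K φ)
    (hneg : ∀ ζ : E, (⟪m, ζ⟫_ℂ).re ≤ 0 → φ ζ = ‖ζ‖ ^ 2) {ζ : E} (_hζ : 0 ≤ (⟪m, ζ⟫_ℂ).re) :
    ‖ζ‖ ^ 2 - ‖⟪m, ζ⟫_ℂ‖ ^ 2 - K / 2 * (⟪m, ζ⟫_ℂ).re ^ 2 ≤ φ ζ := by
  set x := (⟪m, ζ⟫_ℂ).re with hx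
  set ζ0 := ζ - (x : ℂ) • m with hζ0
  have h0 : (⟪m, ζ0⟫_ℂ).re = 0 := by
    rw [hζ0, inner_sub_smul hm, Complex.sub_re, Complex.ofReal_re, ← hx, sub_self]
  have h1 := hC.taylor ζ0 ((x : ℂ) • m)
  have h2 : ζ0 + (x : ℂ) • m = ζ := by rw [hζ0, sub_add_cancel]
  have h3 : fderiv ℝ φ ζ0 ((x : ℂ) • m) = 0 := by
    rw [fderiv_of_zero hm hC hneg h0, inner_smul_right, Complex.re_ofReal_mul, re_symm, h0]
    ring
  have h4 : ‖(x : ℂ) • m‖ ^ 2 = x ^ 2 := by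
    rw [norm_smul, hm, mul_one, Complex.norm_real, Real.norm_eq_abs, sq_abs]
  rw [h2, h3, h4, hneg ζ0 h0.le, hζ0, norm_sub_smul_sq hm, sub_zero, ← hx] at h1
  have h5 := (abs_le.1 h1).1
  have h6 : x ^ 2 ≤ ‖⟪m, ζ⟫_ℂ‖ ^ 2 := by
    have := Complex.abs_re_le_norm ⟪m, ζ⟫_ℂ
    rw [← hx] at this
    calc x ^ 2 = |x| ^ 2 := (sq_abs x).symm
      _ ≤ ‖⟪m, ζ⟫_ℂ‖ ^ 2 := by gcongr
  linarith

/-! ## Step (c): the family of holomorphic maps -/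

/-- `e^{-ζ₁}` -/
noncomputable def ex (m ζ : E) : ℂ := cexp (-⟪m, ζ⟫_ℂ)

/-- `F_t(ζ) = ζ + t e^{-ζ₁} m` -/
noncomputable def FF (m : E) (t : ℂ) (ζ : E) : E := ζ + (t * ex m ζ) • m

/-- `-2 t ℓ(ζ) = 2 t ζ₁ e^{-ζ₁}` -/
noncomputable def GG (m : E) (t : ℂ) (ζ : E) : ℂ := 2 * t * ⟪m, ζ⟫_ℂ * ex m ζ

/-- `Ψ_t` for the function `f`. -/
noncomputable def Psi (m : E) (t : ℂ) (f : E → ℝ) (ζ : E) : ℝ := f (FF m t ζ) + (GG m t ζ).re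

theorem norm_ex (m ζ : E) : ‖ex m ζ‖ = Real.exp (-(⟪m, ζ⟫_ℂ).re) := by
  unfold ex
  rw [Complex.norm_exp, Complex.neg_re]

theorem psi_sub_le {m : E} (hm : ‖m‖ = 1) {K : ℝ} {φ : E → ℝ} (hC : C11 K φ) (t : ℂ) {ζ : E}
    (hζ : 0 ≤ (⟪m, ζ⟫_ℂ).re) :
    |Psi m t φ ζ - φ ζ - 2 * (t * ex m ζ * uu m φ ζ).re| ≤ K / 2 * ‖t‖ ^ 2 := by
  have h1 := hC.taylor ζ ((t * ex m ζ) • m)
  rw [fderiv_smul_eq] at h1
  have h2 : Psi m t φ ζ - φ ζ - 2 * (t * ex m ζ * uu m φ ζ).re =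
      φ (ζ + (t * ex m ζ) • m) - φ ζ - 2 * (t * ex m ζ * d1 m φ ζ).re := by
    unfold Psi FF GG uu
    have h3 : (2 * t * ⟪m, ζ⟫_ℂ * ex m ζ).re = 2 * (t * ex m ζ * ⟪m, ζ⟫_ℂ).re := by
      rw [show 2 * t * ⟪m, ζ⟫_ℂ * ex m ζ = ((2 : ℝ) : ℂ) * (t * ex m ζ * ⟪m, ζ⟫_ℂ) by push_cast; ring,
        Complex.re_ofReal_mul]
    rw [h3, mul_add, Complex.add_re]
    ring
  rw [h2]
  refine h1.trans ?_
  have h4 : ‖(t * ex m ζ) • m‖ ≤ ‖t‖ := by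
    rw [norm_smul, hm, mul_one, norm_mul, norm_ex]
    have : Real.exp (-(⟪m, ζ⟫_ℂ).re) ≤ 1 := Real.exp_le_one_iff.2 (by linarith)
    nlinarith [norm_nonneg t]
  have h5 : 0 ≤ K / 2 := by linarith [hC.1]
  gcongr

theorem psi_le {m : E} (hm : ‖m‖ = 1) {K : ℝ} {φ : E → ℝ} (hC : C11 K φ)
    (hneg : ∀ ζ : E, (⟪m, ζ⟫_ℂ).re ≤ 0 → φ ζ = ‖ζ‖ ^ 2) (t : ℂ) {ζ : E} (hζ : 0 ≤ (⟪m, ζ⟫_ℂ).re) :
    Psi m t φ ζ ≤ φ ζ + 2 * (K + 1) * ‖t‖ * ((⟪m, ζ⟫_ℂ).re * Real.exp (-(⟪m, ζ⟫_ℂ).re)) +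
      K / 2 * ‖t‖ ^ 2 := by
  have h1 := (abs_le.1 (psi_sub_le hm hC t hζ)).2
  have h2 : (t * ex m ζ * uu m φ ζ).re ≤
      ‖t‖ * Real.exp (-(⟪m, ζ⟫_ℂ).re) * ((K + 1) * (⟪m, ζ⟫_ℂ).re) := by
    refine (Complex.re_le_norm _).trans ?_
    rw [norm_mul, norm_mul, norm_ex]
    have := norm_uu_le hm hC hneg hζ
    gcongr
  nlinarith

theorem mul_exp_le_one (x : ℝ) : x * Real.exp (-x) ≤ 1 := by
  have h1 : x ≤ Real.exp x := by linarith [Real.add_one_le_exp x]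
  calc x * Real.exp (-x) ≤ Real.exp x * Real.exp (-x) :=
        mul_le_mul_of_nonneg_right h1 (Real.exp_pos _).le
    _ = 1 := by rw [← Real.exp_add]; simp

theorem mul_exp_le_self {x : ℝ} (hx : 0 ≤ x) : x * Real.exp (-x) ≤ x := by
  have : Real.exp (-x) ≤ 1 := Real.exp_le_one_iff.2 (by linarith)
  nlinarith


/-! ## Step (d): smoothness and Levi forms -/

theorem contDiff_inner (m : E) {n : WithTop ℕ∞} : ContDiff ℂ n fun ζ : E => ⟪m, ζ⟫_ℂ :=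
  (innerSL ℂ m).contDiff

theorem contDiff_ex (m : E) {n : WithTop ℕ∞} : ContDiff ℂ n (ex m) :=
  (contDiff_inner m).neg.cexp

theorem contDiff_FF (m : E) (t : ℂ) {n : WithTop ℕ∞} : ContDiff ℂ n (FF m t) :=
  contDiff_id.add ((contDiff_const.mul (contDiff_ex m)).smul contDiff_const)

theorem contDiff_GG (m : E) (t : ℂ) {n : WithTop ℕ∞} : ContDiff ℂ n (GG m t) :=
  (contDiff_const.mul (contDiff_inner m)).mul (contDiff_ex m)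

theorem contDiff_re_GG (m : E) (t : ℂ) : ContDiff ℝ 2 fun ζ : E => (GG m t ζ).re :=
  Complex.reCLM.contDiff.comp ((contDiff_GG m t).restrict_scalars ℝ)

theorem contDiff_comp_FF (m : E) (t : ℂ) {f : E → ℝ} (hf : ContDiff ℝ 2 f) :
    ContDiff ℝ 2 fun ζ : E => f (FF m t ζ) :=
  hf.comp ((contDiff_FF m t).restrict_scalars ℝ)

theorem contDiff_Psi (m : E) (t : ℂ) {f : E → ℝ} (hf : ContDiff ℝ 2 f) :
    ContDiff ℝ 2 (Psi m t f) := (contDiff_comp_FF m t hf).add (contDiff_re_GG m t)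

theorem levi_Psi (m : E) (t : ℂ) {f : E → ℝ} (hf : ContDiff ℝ 2 f) (hp : PSH f) (z v : E) :
    0 ≤ Levi (Psi m t f) z v := by
  have h1 : Levi (Psi m t f) z v =
      Levi (fun ζ => f (FF m t ζ)) z v + Levi (fun ζ => (GG m t ζ).re) z v :=
    levi_add (contDiff_comp_FF m t hf).contDiffAt (contDiff_re_GG m t).contDiffAt v
  rw [h1, levi_re (contDiff_GG m t).contDiffAt, add_zero,
    levi_comp hf.contDiffAt (contDiff_FF m t).contDiffAt]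
  exact hp.levi_nonneg hf _ _

/-- the comparison function -/
noncomputable def WW (m : E) (P : E → ℝ) (η η₂ a b : ℝ) (ζ : E) : ℝ :=
  (1 - η) * (P ζ - a) + η * ((1 / 2) * (‖ζ‖ ^ 2 - ‖⟪m, ζ⟫_ℂ‖ ^ 2) - b)
    - η₂ * Real.log ‖1 + ⟪m, ζ⟫_ℂ‖

theorem contDiff_normSq : ContDiff ℝ 2 fun ζ : E => ‖ζ‖ ^ 2 := by
  let _ : InnerProductSpace ℝ E := InnerProductSpace.complexToReal
  exact contDiff_norm_sq ℝ

theorem contDiff_innerSq (m : E) : ContDiff ℝ 2 fun ζ : E => ‖⟪m, ζ⟫_ℂ‖ ^ 2 := by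
  have h1 : ContDiff ℝ 2 fun ζ : E => ⟪m, ζ⟫_ℂ := (contDiff_inner m).restrict_scalars ℝ
  exact h1.norm_sq ℝ

theorem WW_props {m : E} {P : E → ℝ} (hP : ContDiff ℝ 2 P) (hL : ∀ z v, 0 ≤ Levi P z v)
    (hm : ‖m‖ = 1) {η η₂ a b : ℝ} (hη : 0 ≤ η) (hη1 : η ≤ 1) {z : E} (hz : -1 < (⟪m, z⟫_ℂ).re) :
    ContDiffAt ℝ 2 (WW m P η η₂ a b) z ∧ ∀ v, 0 ≤ Levi (WW m P η η₂ a b) z v := by
  have c1 : ContDiffAt ℝ 2 (fun ζ : E => P ζ - a) z := (hP.sub contDiff_const).contDiffAt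
  have c2 : ContDiffAt ℝ 2 (fun ζ : E => ‖ζ‖ ^ 2 - ‖⟪m, ζ⟫_ℂ‖ ^ 2) z :=
    (contDiff_normSq.sub (contDiff_innerSq m)).contDiffAt
  have c3 : ContDiffAt ℝ 2 (fun ζ : E => (1 / 2) * (‖ζ‖ ^ 2 - ‖⟪m, ζ⟫_ℂ‖ ^ 2)) z :=
    contDiffAt_const.mul c2
  have c4 : ContDiffAt ℝ 2 (fun ζ : E => (1 / 2) * (‖ζ‖ ^ 2 - ‖⟪m, ζ⟫_ℂ‖ ^ 2) - b) z :=
    c3.sub contDiffAt_const
  have c5 : ContDiffAt ℝ 2 (fun ζ : E => Real.log ‖1 + ⟪m, ζ⟫_ℂ‖) z := contDiffAt_log_norm m hz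
  have c6 : ContDiffAt ℝ 2 (fun ζ : E => (1 - η) * (P ζ - a)) z := contDiffAt_const.mul c1
  have c7 : ContDiffAt ℝ 2 (fun ζ : E => η * ((1 / 2) * (‖ζ‖ ^ 2 - ‖⟪m, ζ⟫_ℂ‖ ^ 2) - b)) z :=
    contDiffAt_const.mul c4
  have c8 : ContDiffAt ℝ 2 (fun ζ : E => η₂ * Real.log ‖1 + ⟪m, ζ⟫_ℂ‖) z := contDiffAt_const.mul c5
  have c9 : ContDiffAt ℝ 2 (fun ζ : E => (1 - η) * (P ζ - a) +
      η * ((1 / 2) * (‖ζ‖ ^ 2 - ‖⟪m, ζ⟫_ℂ‖ ^ 2) - b)) z := c6.add c7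
  refine ⟨c9.sub c8, fun v => ?_⟩
  have e1 : Levi (WW m P η η₂ a b) z v = (1 - η) * Levi P z v +
      η * ((1 / 2) * (4 * ‖v‖ ^ 2 - 4 * ‖⟪m, v⟫_ℂ‖ ^ 2)) := by
    unfold WW
    rw [levi_sub c9 c8, levi_const_mul c5, levi_log_norm m hz, levi_add c6 c7,
      levi_const_mul c1, levi_const_mul c4, levi_sub hP.contDiffAt contDiffAt_const, levi_const,
      levi_sub c3 contDiffAt_const, levi_const, levi_const_mul c2,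
      levi_sub contDiff_normSq.contDiffAt (contDiff_innerSq m).contDiffAt, levi_norm_sq,
      levi_inner_sq]
    ring
  rw [e1]
  have e2 := inner_sq_le hm v
  have e3 := hL z v
  have e4 : 0 ≤ 1 - η := by linarith
  have e5 : 0 ≤ (1 - η) * Levi P z v := mul_nonneg e4 e3
  have e6 : 0 ≤ η * ((1 / 2) * (4 * ‖v‖ ^ 2 - 4 * ‖⟪m, v⟫_ℂ‖ ^ 2)) :=
    mul_nonneg hη (by linarith)
  linarith


/-! ## Step (d): the region and the comparison -/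

/-- The region `G`. -/
def Reg (m : E) (σ R : ℝ) : Set E :=
  {ζ | σ < (⟪m, ζ⟫_ℂ).re ∧ ‖⟪m, ζ⟫_ℂ‖ < R ∧ ‖ζ‖ ^ 2 - ‖⟪m, ζ⟫_ℂ‖ ^ 2 < R ^ 4}

theorem continuous_inner (m : E) : Continuous fun ζ : E => ⟪m, ζ⟫_ℂ :=
  continuous_const.inner continuous_id

theorem isOpen_Reg (m : E) (σ R : ℝ) : IsOpen (Reg m σ R) := by
  have h1 : IsOpen {ζ : E | σ < (⟪m, ζ⟫_ℂ).re} := isOpen_lt continuous_const (continuous_re m)
  have h2 : IsOpen {ζ : E | ‖⟪m, ζ⟫_ℂ‖ < R} := isOpen_lt (continuous_inner m).norm continuous_const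
  have h3 : IsOpen {ζ : E | ‖ζ‖ ^ 2 - ‖⟪m, ζ⟫_ℂ‖ ^ 2 < R ^ 4} :=
    isOpen_lt ((continuous_norm.pow 2).sub ((continuous_inner m).norm.pow 2)) continuous_const
  exact h1.inter (h2.inter h3)

theorem closure_Reg (m : E) (σ R : ℝ) : closure (Reg m σ R) ⊆
    {ζ | σ ≤ (⟪m, ζ⟫_ℂ).re ∧ ‖⟪m, ζ⟫_ℂ‖ ≤ R ∧ ‖ζ‖ ^ 2 - ‖⟪m, ζ⟫_ℂ‖ ^ 2 ≤ R ^ 4} := by
  apply closure_minimal
  · rintro ζ ⟨h1, h2, h3⟩
    exact ⟨h1.le, h2.le, h3.le⟩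
  · have h1 : IsClosed {ζ : E | σ ≤ (⟪m, ζ⟫_ℂ).re} := isClosed_le continuous_const (continuous_re m)
    have h2 : IsClosed {ζ : E | ‖⟪m, ζ⟫_ℂ‖ ≤ R} :=
      isClosed_le (continuous_inner m).norm continuous_const
    have h3 : IsClosed {ζ : E | ‖ζ‖ ^ 2 - ‖⟪m, ζ⟫_ℂ‖ ^ 2 ≤ R ^ 4} :=
      isClosed_le ((continuous_norm.pow 2).sub ((continuous_inner m).norm.pow 2)) continuous_const
    exact h1.inter (h2.inter h3)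

theorem isBounded_Reg (m : E) (σ : ℝ) {R : ℝ} (hR : 0 ≤ R) :
    Bornology.IsBounded (Reg m σ R) := by
  refine (Metric.isBounded_closedBall (x := (0 : E)) (r := R ^ 2 + R)).subset ?_
  rintro ζ ⟨_, h2, h3⟩
  rw [mem_closedBall_zero_iff]
  have h4 : ‖ζ‖ ^ 2 ≤ (R ^ 2 + R) ^ 2 := by
    have h5 : ‖⟪m, ζ⟫_ℂ‖ ^ 2 ≤ R ^ 2 := by gcongr
    nlinarith [pow_nonneg hR 3]
  exact (sq_le_sq₀ (norm_nonneg _) (by positivity)).1 h4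

theorem compare {m : E} (hm : ‖m‖ = 1) {K : ℝ} {φ : E → ℝ} (hC : C11 K φ)
    (hneg : ∀ ζ : E, (⟪m, ζ⟫_ℂ).re ≤ 0 → φ ζ = ‖ζ‖ ^ 2)
    (hcomp : Comp φ {ζ : E | 0 < (⟪m, ζ⟫_ℂ).re}) (t : ℂ) {P : E → ℝ} (hP : ContDiff ℝ 2 P)
    (hL : ∀ z v, 0 ≤ Levi P z v) {a : ℝ} (hPle : ∀ ζ, P ζ - a ≤ Psi m t φ ζ - K / 2 * ‖t‖ ^ 2)
    {σ R : ℝ} (hσ : 0 < σ) (hR : 1 < R) (hR2 : 2 * (2 * (K + 1) * ‖t‖) ≤ R ^ 4)
    {ζ : E} (hζ : ζ ∈ Reg m σ R) :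
    WW m P (2 * (2 * (K + 1) * ‖t‖) / R ^ 4) (2 * (K + 1) * ‖t‖ / Real.log R) a
      (K / 2 * R ^ 2) ζ ≤ φ ζ + 2 * (K + 1) * ‖t‖ * σ := by
  set C₂ := 2 * (K + 1) * ‖t‖ with hC2
  have hK := hC.1
  have hC20 : 0 ≤ C₂ := by positivity
  have hR0 : 0 < R := by linarith
  have hR4 : 0 < R ^ 4 := by positivity
  have hlog : 0 < Real.log R := Real.log_pos hR
  set η := 2 * C₂ / R ^ 4 with hη
  set η₂ := C₂ / Real.log R with hη2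
  have hη0 : 0 ≤ η := by positivity
  have hη1 : η ≤ 1 := by rw [hη, div_le_one hR4]; exact hR2
  have hη20 : 0 ≤ η₂ := by positivity
  have hηR : η * R ^ 4 = 2 * C₂ := by rw [hη]; field_simp
  have hη2R : η₂ * Real.log R = C₂ := by rw [hη2]; field_simp
  have hcl := closure_Reg m σ R
  have key := hcomp (Reg m σ R) (WW m P η η₂ a (K / 2 * R ^ 2)) (isOpen_Reg m σ R)
    (isBounded_Reg m σ hR0.le) ?_ ?_ ?_ (C₂ * σ) ?_ ζ hζ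
  · linarith
  · intro z hz
    have := (hcl hz).1
    rw [Set.mem_ofPred_eq]
    linarith
  · intro z hz
    have := (hcl hz).1
    exact (WW_props hP hL hm hη0 hη1 (by linarith)).1
  · intro z hz v
    have := hz.1
    exact (WW_props hP hL hm hη0 hη1 (by linarith)).2 v
  · intro z hz
    rw [(isOpen_Reg m σ R).frontier_eq] at hz
    obtain ⟨hz1, hz2⟩ := hz
    obtain ⟨g1, g2, g3⟩ := hcl hz1
    set x := (⟪m, z⟫_ℂ).re with hx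
    set y := ‖⟪m, z⟫_ℂ‖ with hy
    have hx0 : 0 ≤ x := by linarith
    have hxy : x ≤ y := Complex.re_le_norm _
    have hy0 : 0 ≤ y := norm_nonneg _
    have hn1 : 1 ≤ ‖1 + ⟪m, z⟫_ℂ‖ := by
      have h1 := Complex.re_le_norm (1 + ⟪m, z⟫_ℂ)
      rw [Complex.add_re, Complex.one_re, ← hx] at h1
      linarith
    have hl0 : 0 ≤ Real.log ‖1 + ⟪m, z⟫_ℂ‖ := Real.log_nonneg hn1
    have hlow := lower_bound hm hC hneg (ζ := z) hx0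
    rw [← hx, ← hy] at hlow
    have hzz : 0 ≤ ‖z‖ ^ 2 - y ^ 2 := by linarith [inner_sq_le hm z]
    have hxR : x ^ 2 ≤ R ^ 2 := by gcongr; linarith
    have hxR' : K / 2 * x ^ 2 ≤ K / 2 * R ^ 2 := by gcongr
    have hpsi := psi_le hm hC hneg t (ζ := z) hx0
    rw [← hx, ← hC2] at hpsi
    have hP1 := hPle z
    have m1 := mul_exp_le_one x
    have m2 := mul_exp_le_self hx0
    have n1 : C₂ * (x * Real.exp (-x)) ≤ C₂ := mul_le_of_le_one_right hC20 m1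
    have n2 : C₂ * (x * Real.exp (-x)) ≤ C₂ * x := mul_le_mul_of_nonneg_left m2 hC20
    have p1 : P z - a ≤ φ z + C₂ := by linarith
    have p2 : P z - a ≤ φ z + C₂ * x := by linarith
    have q1 : (1 / 2) * (‖z‖ ^ 2 - y ^ 2) - K / 2 * R ^ 2 ≤ φ z := by linarith
    have h1η : 0 ≤ 1 - η := by linarith
    unfold WW
    rw [← hy]
    have r2 := mul_le_mul_of_nonneg_left q1 hη0
    have r3 : 0 ≤ η₂ * Real.log ‖1 + ⟪m, z⟫_ℂ‖ := mul_nonneg hη20 hl0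
    have hηC : 0 ≤ η * C₂ := mul_nonneg hη0 hC20
    -- which condition fails
    by_cases f1 : σ < x
    · by_cases f2 : y < R
      · -- |ζ'| = R²
        have f3 : R ^ 4 ≤ ‖z‖ ^ 2 - y ^ 2 := by
          by_contra hcon
          exact hz2 ⟨f1, f2, not_le.1 hcon⟩
        have r1 := mul_le_mul_of_nonneg_left p1 h1η
        have q2 : (1 / 2) * (‖z‖ ^ 2 - y ^ 2) - K / 2 * R ^ 2 ≤ φ z - 1 / 2 * R ^ 4 := by linarith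
        have r4 := mul_le_mul_of_nonneg_left q2 hη0
        have r5 : 0 ≤ C₂ * σ := by positivity
        linarith
      · -- |ζ₁| = R
        have r1 := mul_le_mul_of_nonneg_left p1 h1η
        have hRy : R ≤ ‖1 + ⟪m, z⟫_ℂ‖ := by
          have h2 : ‖⟪m, z⟫_ℂ‖ ≤ ‖1 + ⟪m, z⟫_ℂ‖ := by
            rw [← sq_le_sq₀ (norm_nonneg _) (norm_nonneg _), ← Complex.normSq_eq_norm_sq,
              ← Complex.normSq_eq_norm_sq, Complex.normSq_apply, Complex.normSq_apply]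
            simp only [Complex.add_re, Complex.one_re, Complex.add_im, Complex.one_im, zero_add,
              ← hx]
            nlinarith
          rw [← hy] at h2
          linarith [not_lt.1 f2]
        have h3 : Real.log R ≤ Real.log ‖1 + ⟪m, z⟫_ℂ‖ := Real.log_le_log hR0 hRy
        have h4 := mul_le_mul_of_nonneg_left h3 hη20
        have r5 : 0 ≤ C₂ * σ := by positivity
        linarith
    · have f1' : x = σ := le_antisymm (not_lt.1 f1) g1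
      have r1 := mul_le_mul_of_nonneg_left p2 h1η
      rw [f1'] at r1
      have r5 : 0 ≤ η * (C₂ * σ) := by positivity
      linarith


variable [FiniteDimensional ℂ E] [MeasurableSpace E] [BorelSpace E]

theorem psi_final {m : E} (hm : ‖m‖ = 1) {K : ℝ} {φ : E → ℝ} (hψ : PSH φ) (hC : C11 K φ)
    (hneg : ∀ ζ : E, (⟪m, ζ⟫_ℂ).re ≤ 0 → φ ζ = ‖ζ‖ ^ 2)
    (hcomp : Comp φ {ζ : E | 0 < (⟪m, ζ⟫_ℂ).re}) (t : ℂ) {ζ : E} (hζ : 0 < (⟪m, ζ⟫_ℂ).re) :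
    Psi m t φ ζ - K / 2 * ‖t‖ ^ 2 ≤ φ ζ := by
  have hK := hC.1
  set C₂ := 2 * (K + 1) * ‖t‖ with hC2
  set A := Psi m t φ ζ - K / 2 * ‖t‖ ^ 2 with hA
  set D := ‖ζ‖ ^ 2 - ‖⟪m, ζ⟫_ℂ‖ ^ 2 with hD
  set L := Real.log ‖1 + ⟪m, ζ⟫_ℂ‖ with hL
  -- the inequality for large `R`
  have key : ∀ᶠ R : ℝ in atTop, (1 - 2 * C₂ * R⁻¹ ^ 4) * (A - K / 2 * R⁻¹ ^ 2) +
      C₂ * D * R⁻¹ ^ 4 - K * C₂ * R⁻¹ ^ 2 - C₂ / Real.log R * L - C₂ * R⁻¹ ≤ φ ζ := by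
    have t4 : Tendsto (fun R : ℝ => R ^ 4) atTop atTop := tendsto_pow_atTop (by norm_num)
    have t0 : Tendsto (fun R : ℝ => R⁻¹) atTop (𝓝 0) := tendsto_inv_atTop_zero
    filter_upwards [eventually_gt_atTop (1 : ℝ), t4.eventually_ge_atTop (2 * C₂),
      t4.eventually_gt_atTop D, eventually_gt_atTop ‖⟪m, ζ⟫_ℂ‖, t0.eventually (gt_mem_nhds hζ)]
      with R r1 r2 r3 r4 r5
    have hR0 : 0 < R := by linarith
    have hs : 0 < R⁻¹ := by positivity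
    set P := Psi m t (moll R⁻¹ φ) with hP
    have hcd : ContDiff ℝ 2 (moll R⁻¹ φ) :=
      (moll_contDiff hs hψ.1.locallyIntegrable).of_le
        (WithTop.coe_le_coe.2 (le_top : (2 : ℕ∞) ≤ ⊤))
    have hpsh : PSH (moll R⁻¹ φ) := hψ.moll _
    set a := K / 2 * ‖t‖ ^ 2 + K / 2 * R⁻¹ ^ 2 with ha
    have hcmp := compare hm hC hneg hcomp t (P := P) (a := a) (σ := R⁻¹) (R := R)
      (contDiff_Psi m t hcd) (levi_Psi m t hcd hpsh) ?_ hs r1 (by rw [← hC2]; exact r2)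
      (ζ := ζ) ⟨r5, r4, r3⟩
    · have hlow : Psi m t φ ζ ≤ P ζ := by
        rw [hP]
        unfold Psi
        have := hψ.le_moll R⁻¹ (FF m t ζ)
        linarith
      unfold WW at hcmp
      rw [← hC2, ← hD, ← hL] at hcmp
      have hη1 : 2 * C₂ / R ^ 4 ≤ 1 := by
        rw [div_le_one (by positivity)]; exact r2
      have h1 : (1 - 2 * C₂ / R ^ 4) * (A - K / 2 * R⁻¹ ^ 2) ≤ (1 - 2 * C₂ / R ^ 4) * (P ζ - a) := by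
        apply mul_le_mul_of_nonneg_left _ (by linarith)
        rw [hA, ha]
        linarith
      have e1 : 2 * C₂ / R ^ 4 = 2 * C₂ * R⁻¹ ^ 4 := by
        rw [inv_pow]; rfl
      have e2 : 2 * C₂ / R ^ 4 * (1 / 2 * D - K / 2 * R ^ 2) =
          C₂ * D * R⁻¹ ^ 4 - K * C₂ * R⁻¹ ^ 2 := by
        field_simp
      rw [e2] at hcmp
      rw [e1] at h1 hcmp
      linarith
    · intro z
      rw [hP, ha]
      unfold Psi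
      have := (abs_le.1 (hC.abs_moll_sub_le R⁻¹ (FF m t z))).2
      linarith
  have lim : Tendsto (fun R : ℝ => (1 - 2 * C₂ * R⁻¹ ^ 4) * (A - K / 2 * R⁻¹ ^ 2) +
      C₂ * D * R⁻¹ ^ 4 - K * C₂ * R⁻¹ ^ 2 - C₂ / Real.log R * L - C₂ * R⁻¹) atTop (𝓝 A) := by
    have t0 : Tendsto (fun R : ℝ => R⁻¹) atTop (𝓝 0) := tendsto_inv_atTop_zero
    have t1 : Tendsto (fun R : ℝ => C₂ / Real.log R) atTop (𝓝 0) :=
      Real.tendsto_log_atTop.const_div_atTop C₂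
    have hg : Continuous fun r : ℝ => (1 - 2 * C₂ * r ^ 4) * (A - K / 2 * r ^ 2) +
      C₂ * D * r ^ 4 - K * C₂ * r ^ 2 := by fun_prop
    have h1 := (hg.tendsto 0).comp t0
    have h2 := (h1.sub (t1.mul_const L)).sub (t0.const_mul C₂)
    simpa using h2
  exact le_of_tendsto lim key

/-! ## Step (e) -/

theorem uu_eq_zero {m : E} (hm : ‖m‖ = 1) {K : ℝ} {φ : E → ℝ} (hψ : PSH φ) (hC : C11 K φ)
    (hneg : ∀ ζ : E, (⟪m, ζ⟫_ℂ).re ≤ 0 → φ ζ = ‖ζ‖ ^ 2)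
    (hcomp : Comp φ {ζ : E | 0 < (⟪m, ζ⟫_ℂ).re}) {ζ : E} (hζ : 0 < (⟪m, ζ⟫_ℂ).re) :
    uu m φ ζ = 0 := by
  have hK := hC.1
  set q := ex m ζ * uu m φ ζ with hq
  have h1 : ∀ t : ℂ, 2 * (t * q).re ≤ K * ‖t‖ ^ 2 := by
    intro t
    have h2 := (abs_le.1 (psi_sub_le hm hC t hζ.le)).1
    have h3 := psi_final hm hψ hC hneg hcomp t hζ
    rw [mul_assoc, ← hq] at h2
    linarith
  have h2 := h1 (((K + 1)⁻¹ : ℝ) * conj q)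
  have h3 : ((((K + 1)⁻¹ : ℝ) : ℂ) * conj q * q).re = (K + 1)⁻¹ * ‖q‖ ^ 2 := by
    rw [mul_assoc, Complex.re_ofReal_mul, mul_comm (conj q) q, Complex.mul_conj,
      Complex.ofReal_re, Complex.normSq_eq_norm_sq]
  have h4 : ‖(((K + 1)⁻¹ : ℝ) : ℂ) * conj q‖ ^ 2 = (K + 1)⁻¹ ^ 2 * ‖q‖ ^ 2 := by
    rw [norm_mul, Complex.norm_conj, mul_pow, Complex.norm_real, Real.norm_eq_abs, sq_abs]
  rw [h3, h4] at h2
  have hK1 : 0 < K + 1 := by linarith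
  have h5 : 2 * ‖q‖ ^ 2 ≤ K / (K + 1) * ‖q‖ ^ 2 := by
    have := mul_le_mul_of_nonneg_left h2 hK1.le
    have e1 : (K + 1) * (2 * ((K + 1)⁻¹ * ‖q‖ ^ 2)) = 2 * ‖q‖ ^ 2 := by field_simp
    have e2 : (K + 1) * (K * ((K + 1)⁻¹ ^ 2 * ‖q‖ ^ 2)) = K / (K + 1) * ‖q‖ ^ 2 := by field_simp
    rwa [e1, e2] at this
  have h6 : K / (K + 1) ≤ 1 := by rw [div_le_one hK1]; linarith
  have h7 : ‖q‖ ^ 2 ≤ 0 := by nlinarith [sq_nonneg ‖q‖]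
  have h8 : q = 0 := by
    rw [← norm_eq_zero]
    exact pow_eq_zero_iff (two_ne_zero) |>.1 (le_antisymm h7 (sq_nonneg _))
  rw [hq] at h8
  rcases mul_eq_zero.1 h8 with h9 | h9
  · exact absurd h9 (Complex.exp_ne_zero _)
  · exact h9

end Liouv

variable [FiniteDimensional ℂ E] [MeasurableSpace E] [BorelSpace E]

open Liouv in
theorem liouville {m : E} (hm : ‖m‖ = 1) {φ : E → ℝ} {K : ℝ} (hψ : PSH φ) (hC : C11 K φ)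
    (hneg : ∀ ζ : E, (inner ℂ m ζ : ℂ).re ≤ 0 → φ ζ = ‖ζ‖ ^ 2)
    (hcomp : Comp φ {ζ : E | 0 < (inner ℂ m ζ : ℂ).re}) : ∀ ζ, φ ζ = phi0 m ζ := by
  intro ζ
  unfold phi0
  rcases le_or_gt (inner ℂ m ζ : ℂ).re 0 with hx0 | hx0
  · rw [hneg ζ hx0, max_eq_left hx0]
    ring
  set x := (inner ℂ m ζ : ℂ).re with hx
  rw [max_eq_right hx0.le]
  -- the path `s ↦ ζ + (s - x) m`
  set g : ℝ → ℝ := fun s => φ (ζ - ((x - s : ℝ) : ℂ) • m) + s ^ 2 with hg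
  have hpath : ∀ s : ℝ, HasDerivAt (fun s : ℝ => ζ - ((x - s : ℝ) : ℂ) • m) m s := by
    intro s
    have h1 : HasDerivAt (fun s : ℝ => ((x - s : ℝ) : ℂ)) (((-1 : ℝ)) : ℂ) s := by
      have h2 : HasDerivAt (fun s : ℝ => x - s) (-1) s := by
        simpa using (hasDerivAt_id s).const_sub x
      exact h2.ofReal_comp
    have h3 := (h1.smul_const m).const_sub ζ
    convert h3 using 1
    simp
  have hre : ∀ s : ℝ, (inner ℂ m (ζ - ((x - s : ℝ) : ℂ) • m) : ℂ).re = s := by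
    intro s
    rw [inner_sub_smul hm, Complex.sub_re, Complex.ofReal_re, ← hx]
    ring
  have hder : ∀ s : ℝ, 0 ≤ s → HasDerivAt g 0 s := by
    intro s hs
    have h1 := ((hC.2.1 (ζ - ((x - s : ℝ) : ℂ) • m)).hasFDerivAt.comp_hasDerivAt s (hpath s))
    have h2 : HasDerivAt (fun s : ℝ => s ^ 2) (2 * s) s := by
      simpa using hasDerivAt_pow 2 s
    have h3 := h1.add h2
    have h4 : fderiv ℝ φ (ζ - ((x - s : ℝ) : ℂ) • m) m + 2 * s = 0 := by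
      have hu : uu m φ (ζ - ((x - s : ℝ) : ℂ) • m) = 0 := by
        rcases hs.eq_or_lt with h5 | h5
        · exact uu_of_zero hm hC hneg (by rw [hre]; exact h5.symm)
        · exact uu_eq_zero hm hψ hC hneg hcomp (by rw [hre]; exact h5)
      have h6 := fderiv_smul_eq m φ (ζ - ((x - s : ℝ) : ℂ) • m) 1
      rw [one_smul, one_mul] at h6
      have h7 : (d1 m φ (ζ - ((x - s : ℝ) : ℂ) • m)).re = -s := by
        have h8 := congrArg Complex.re hu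
        unfold uu at h8
        rw [Complex.add_re, hre, Complex.zero_re] at h8
        linarith
      rw [h6, h7]
      ring
    rw [← h4]
    exact h3
  have hconst : g x = g 0 := by
    have hcont : ContinuousOn g (Set.Icc 0 x) := fun s hs =>
      (hder s hs.1).continuousAt.continuousWithinAt
    exact constant_of_has_deriv_right_zero hcont
      (fun s hs => (hder s hs.1).hasDerivWithinAt) x ⟨hx0.le, le_refl x⟩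
  rw [hg] at hconst
  simp only [sub_self, sub_zero] at hconst
  have h0 : (inner ℂ m (ζ - (x : ℂ) • m) : ℂ).re = 0 := by
    have := hre 0
    rwa [sub_zero] at this
  rw [hneg _ h0.le, norm_sub_smul_sq hm, ← hx] at hconst
  simp at hconst
  linarith

end Pool.Agent.Edge
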