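import Pool.Agent.Edge.BlowBasic
import Pool.Agent.Edge.Degen
import Pool.Agent.Edge.Compare
import Pool.Agent.Edge.Compact
import Pool.Agent.Edge.Liouv

/-!
# Blow-up of the envelope at an edge point

Let `D = {env Q = Q}` (closed).  Write `φ_n = bl Q (env Q) a n`, `w_n = bl Q Q a n`,
`w_n → |ζ|²` (`bl_self_tendsto`), `x = Re⟪m,ζ⟫`.

1. Let `T` be compact, `T ⊆ {x < 0}`.  There are `σ > 0, r` with `T ⊆ T' := {x < -σ, ‖ζ‖ < r}`, and by
   `hρ, hS`, for `n` large the open set `sc a n '' T'` is contained in `S` (`ρ(a+n^{-1/2}ζ) ≤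
   n^{-1/2}(-κσ + ε r) < 0`).  By `hSD` almost every point of this open set lies in the closed set
   `D`, so all points do.  Hence `φ_n = w_n` on `T'` for large `n`.
   In particular (`T = {-m}`) `a` is a limit of points of `D`, so `a ∈ D`.
2. So `bl_env_zero`, `bl_env_C11` apply; by `C11.exists_subseq` every subsequence has a further
   subsequence with `φ_n → φ` locally uniformly, `φ` of class `C11 K` and `PSH`
   (`psh_of_tendstoLocallyUniformly`); `φ = |ζ|²` for `x < 0` by 1., for `x ≤ 0` by continuity.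
3. `Comp φ {x > 0}`: let `U` be bounded open, `closure U ⊆ {x > 0}`, `W` as in `Comp`,
   `W - φ ≤ M` on `frontier U`.  For `n` large `ρ > 0` on `sc a n '' closure U`, so
   no point of it is in `S`; by `hSD` and `ae_sc`, for a.e. `ζ ∈ U` the point `z = sc a n ζ` is not in
   `D`, i.e. `env Q z < Q z`, and (Rademacher) `D(env Q)` is differentiable at `z`; by
   `env_degenerate` and `bl_env_levi` there is `v ≠ 0` with `Levi φ_n ζ v ≤ 0`.
   `comparison` for `φ_n` and `M + ε` (`|φ_n - φ| ≤ ε` on the compact set `closure U`), `n → ∞`,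
   `ε → 0`.
4. `liouville`: `φ = phi0 m`.  Conclude with `tendstoLocallyUniformly_of_subseq`.
-/

namespace Pool.Agent.Edge

open MeasureTheory Filter Topology Complex

open scoped ComplexConjugate

variable {E : Type*} [NormedAddCommGroup E] [InnerProductSpace ℂ E] [FiniteDimensional ℂ E]
  [MeasurableSpace E] [BorelSpace E]

/-- an open set almost all of whose points lie in a closed set is contained in it. -/
theorem be_open_subset_of_ae {U C : Set E} (hU : IsOpen U) (hC : IsClosed C)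
    (h : ∀ᵐ z ∂(om E), z ∈ U → z ∈ C) : U ⊆ C := by
  have h1 : IsOpen (U \ C) := hU.sdiff hC
  have h2 : (om E) (U \ C) = 0 := by
    refine measure_mono_null ?_ h
    intro z hz
    simp only [Set.mem_compl_iff, Set.mem_ofPred_eq, Classical.not_imp]
    exact ⟨hz.1, hz.2⟩
  have h3 : U \ C = ∅ := (h1.measure_eq_zero_iff (om E)).1 h2
  exact Set.sdiff_eq_empty.1 h3

omit [FiniteDimensional ℂ E] [MeasurableSpace E] [BorelSpace E] in
theorem be_sc_continuous (a : E) (n : ℕ) : Continuous (sc a n) := by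
  unfold sc
  exact continuous_const.add (continuous_id.const_smul _)

omit [FiniteDimensional ℂ E] [MeasurableSpace E] [BorelSpace E] in
theorem be_inner_smul_re (m ζ : E) (c : ℝ) :
    (inner ℂ m (c • ζ) : ℂ).re = c * (inner ℂ m ζ : ℂ).re := by
  have : (c • ζ : E) = ((c : ℂ)) • ζ := (Complex.coe_smul c ζ).symm
  rw [this, inner_smul_right]
  simp

theorem be_sqrt_inv_pos {n : ℕ} (hn : n ≠ 0) : 0 < (Real.sqrt n)⁻¹ := by
  have : (0 : ℝ) < n := by exact_mod_cast Nat.pos_of_ne_zero hn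
  positivity

theorem be_tendsto_sqrt_inv : Tendsto (fun n : ℕ => (Real.sqrt n)⁻¹) atTop (𝓝 0) := by
  refine tendsto_inv_atTop_zero.comp ?_
  exact (Real.tendsto_sqrt_atTop).comp tendsto_natCast_atTop_atTop

omit [FiniteDimensional ℂ E] [MeasurableSpace E] [BorelSpace E] in
/-- the sign of `ρ` on the rescaled half spaces. -/
theorem be_rho_sign {a m : E} {S : Set E} {ρ : E → ℝ} {κ : ℝ} (hκ : 0 < κ)
    (hρ : ∀ ε > 0, ∀ᶠ v in 𝓝 (0 : E), |ρ (a + v) - κ * (inner ℂ m v : ℂ).re| ≤ ε * ‖v‖)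
    (hS : ∀ᶠ z in 𝓝 a, (z ∈ S ↔ ρ z ≤ 0)) {σ r : ℝ} (hσ : 0 < σ) (hr : 0 < r) :
    ∀ᶠ n : ℕ in atTop, n ≠ 0 ∧ (∀ ζ : E, ‖ζ‖ ≤ r → (inner ℂ m ζ : ℂ).re ≤ -σ → sc a n ζ ∈ S) ∧
      (∀ ζ : E, ‖ζ‖ ≤ r → σ ≤ (inner ℂ m ζ : ℂ).re → sc a n ζ ∉ S) := by
  have h1 := hρ (κ * σ / (2 * r)) (by positivity)
  have h2 : ∀ᶠ v in 𝓝 (0 : E), (a + v ∈ S ↔ ρ (a + v) ≤ 0) := by
    have : Tendsto (fun v : E => a + v) (𝓝 0) (𝓝 a) := by
      have h0 : Continuous fun v : E => a + v := continuous_const.add continuous_id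
      have := h0.tendsto 0
      rwa [add_zero] at this
    exact this.eventually hS
  obtain ⟨δ, hδ, hball⟩ := Metric.eventually_nhds_iff.1 (h1.and h2)
  have h3 : ∀ᶠ n : ℕ in atTop, (Real.sqrt n)⁻¹ < δ / r :=
    (tendsto_order.1 be_tendsto_sqrt_inv).2 _ (by positivity)
  filter_upwards [h3, eventually_ne_atTop 0] with n hn hn0
  have hs : 0 < (Real.sqrt n)⁻¹ := be_sqrt_inv_pos hn0
  have hgen : ∀ ζ : E, ‖ζ‖ ≤ r →
      |ρ (sc a n ζ) - κ * ((Real.sqrt n)⁻¹ * (inner ℂ m ζ : ℂ).re)| ≤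
        (Real.sqrt n)⁻¹ * (κ * σ / 2) ∧ (sc a n ζ ∈ S ↔ ρ (sc a n ζ) ≤ 0) := by
    intro ζ hζ
    have hnv : ‖((Real.sqrt n)⁻¹ : ℝ) • ζ‖ = (Real.sqrt n)⁻¹ * ‖ζ‖ := by
      rw [norm_smul, Real.norm_of_nonneg hs.le]
    have hd : dist (((Real.sqrt n)⁻¹ : ℝ) • ζ) 0 < δ := by
      rw [dist_zero_right, hnv]
      calc (Real.sqrt n)⁻¹ * ‖ζ‖ ≤ (Real.sqrt n)⁻¹ * r := by gcongr
        _ < δ / r * r := by gcongr
        _ = δ := by field_simp
    obtain ⟨h4, h5⟩ := hball hd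
    refine ⟨?_, h5⟩
    rw [be_inner_smul_re, hnv] at h4
    refine h4.trans ?_
    calc κ * σ / (2 * r) * ((Real.sqrt n)⁻¹ * ‖ζ‖)
        ≤ κ * σ / (2 * r) * ((Real.sqrt n)⁻¹ * r) := by gcongr
      _ = (Real.sqrt n)⁻¹ * (κ * σ / 2) := by field_simp
  refine ⟨hn0, fun ζ hζ hx => ?_, fun ζ hζ hx => ?_⟩
  · obtain ⟨h4, h5⟩ := hgen ζ hζ
    rw [h5]
    have h6 := (abs_le.1 h4).2
    have h7 : κ * ((Real.sqrt n)⁻¹ * (inner ℂ m ζ : ℂ).re) ≤ κ * ((Real.sqrt n)⁻¹ * (-σ)) := by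
      gcongr
    have h8 : 0 < (Real.sqrt n)⁻¹ * (κ * σ) := by positivity
    nlinarith
  · obtain ⟨h4, h5⟩ := hgen ζ hζ
    rw [h5, not_le]
    have h6 := (abs_le.1 h4).1
    have h7 : κ * ((Real.sqrt n)⁻¹ * σ) ≤ κ * ((Real.sqrt n)⁻¹ * (inner ℂ m ζ : ℂ).re) := by
      gcongr
    have h8 : 0 < (Real.sqrt n)⁻¹ * (κ * σ) := by positivity
    nlinarith

theorem blow_edge {Q : E → ℝ} (hQ : IsPot Q) {a m : E} (hL : ∀ v, Levi Q a v = 4 * ‖v‖ ^ 2)
    (hm : ‖m‖ = 1) {S : Set E} {ρ : E → ℝ} {κ : ℝ} (hκ : 0 < κ)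
    (hρ : ∀ ε > 0, ∀ᶠ v in 𝓝 (0 : E), |ρ (a + v) - κ * (inner ℂ m v : ℂ).re| ≤ ε * ‖v‖)
    (hS : ∀ᶠ z in 𝓝 a, (z ∈ S ↔ ρ z ≤ 0))
    (hSD : ∀ᵐ z ∂(om E), (z ∈ S ↔ env Q z = Q z)) :
    env Q a = Q a ∧
      TendstoLocallyUniformly (fun n => bl Q (env Q) a n) (phi0 m) atTop := by
  classical
  have hQc : Continuous Q := hQ.cd.continuous
  have hec : Continuous (env Q) := env_continuous hQ
  have hxc : Continuous fun ζ : E => (inner ℂ m ζ : ℂ).re :=
    Complex.continuous_re.comp (continuous_const.inner continuous_id)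
  -- step 1
  have step1 : ∀ ζ₀ : E, (inner ℂ m ζ₀ : ℂ).re < 0 →
      ∀ᶠ n : ℕ in atTop, env Q (sc a n ζ₀) = Q (sc a n ζ₀) := by
    intro ζ₀ hx
    set σ : ℝ := -(inner ℂ m ζ₀ : ℂ).re / 2 with hσ
    have hσ0 : 0 < σ := by rw [hσ]; linarith
    filter_upwards [be_rho_sign hκ hρ hS hσ0 (r := ‖ζ₀‖ + 1) (by positivity)] with n hn
    obtain ⟨hn0, hn1, -⟩ := hn
    set T : Set E := {ζ | (inner ℂ m ζ : ℂ).re < -σ} ∩ {ζ | ‖ζ‖ < ‖ζ₀‖ + 1} with hT
    have hTo : IsOpen T :=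
      (isOpen_lt hxc continuous_const).inter (isOpen_lt continuous_norm continuous_const)
    have hCl : IsClosed {ζ : E | env Q (sc a n ζ) = Q (sc a n ζ)} :=
      isClosed_eq (hec.comp (be_sc_continuous a n)) (hQc.comp (be_sc_continuous a n))
    have hsub : T ⊆ {ζ : E | env Q (sc a n ζ) = Q (sc a n ζ)} := by
      refine be_open_subset_of_ae hTo hCl ?_
      filter_upwards [ae_sc a hn0 hSD] with ζ hζ hζT
      exact hζ.1 (hn1 ζ (le_of_lt hζT.2) (le_of_lt hζT.1))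
    refine hsub ⟨?_, ?_⟩
    · simp only [Set.mem_ofPred_eq, hσ]; linarith
    · simp
  -- `a` is in the contact set
  have hsca : ∀ ζ : E, Tendsto (fun n => sc a n ζ) atTop (𝓝 a) := by
    intro ζ
    have h1 : Tendsto (fun n : ℕ => a + ((Real.sqrt n)⁻¹ : ℝ) • ζ) atTop (𝓝 (a + (0 : ℝ) • ζ)) :=
      tendsto_const_nhds.add (be_tendsto_sqrt_inv.smul_const ζ)
    simpa [sc] using h1
  have hmm : (inner ℂ m (-m) : ℂ).re < 0 := by
    rw [inner_neg_right, inner_self_eq_norm_sq_to_K, hm]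
    simp
  have ha : env Q a = Q a := by
    have h1 : Tendsto (fun n => env Q (sc a n (-m))) atTop (𝓝 (env Q a)) :=
      (hec.tendsto a).comp (hsca (-m))
    have h2 : Tendsto (fun n => Q (sc a n (-m))) atTop (𝓝 (Q a)) :=
      (hQc.tendsto a).comp (hsca (-m))
    have h3 : Tendsto (fun n => env Q (sc a n (-m))) atTop (𝓝 (Q a)) := by
      refine h2.congr' ?_
      filter_upwards [step1 (-m) hmm] with n hn
      exact hn.symm
    exact tendsto_nhds_unique h1 h3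
  refine ⟨ha, ?_⟩
  obtain ⟨K, hK⟩ := bl_env_C11 hQ a
  refine tendstoLocallyUniformly_of_subseq fun θ hθ => ?_
  obtain ⟨θ', φ, hθ', hφC, hφt⟩ := C11.exists_subseq (K := K)
    (f := fun k => bl Q (env Q) a (θ k)) (fun k => hK (θ k))
    ⟨0, fun k => by rw [(bl_env_zero hQ ha (θ k)).1]; simp⟩
    ⟨0, fun k => by rw [(bl_env_zero hQ ha (θ k)).2]; simp⟩
  refine ⟨θ', hθ', ?_⟩
  have hsub : Tendsto (fun k => θ (θ' k)) atTop atTop :=
    hθ.tendsto_atTop.comp hθ'.tendsto_atTop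
  have hφc : Continuous φ := hφC.continuous
  have hφpsh : PSH φ := psh_of_tendstoLocallyUniformly
    (Eventually.of_forall fun k => bl_env_psh hQ a (θ (θ' k))) hφt
  have hblself := bl_self_tendsto hQ.cd a
  -- `φ = |ζ|²` on the open half space
  have hneg0 : ∀ ζ : E, (inner ℂ m ζ : ℂ).re < 0 → φ ζ = ‖ζ‖ ^ 2 := by
    intro ζ hζ
    have h1 : Tendsto (fun n => bl Q Q a n ζ) atTop (𝓝 ((1 / 4) * Levi Q a ζ)) :=
      (hblself.tendstoLocallyUniformlyOn (s := Set.univ)).tendsto_at (Set.mem_univ ζ)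
    have h2 : Tendsto (fun n => bl Q (env Q) a n ζ) atTop (𝓝 ((1 / 4) * Levi Q a ζ)) := by
      refine h1.congr' ?_
      filter_upwards [step1 ζ hζ] with n hn
      simp only [bl, hn]
    have h3 : Tendsto (fun k => bl Q (env Q) a (θ (θ' k)) ζ) atTop (𝓝 (φ ζ)) :=
      (hφt.tendstoLocallyUniformlyOn (s := Set.univ)).tendsto_at (Set.mem_univ ζ)
    have h4 := tendsto_nhds_unique h3 (h2.comp hsub)
    rw [h4, hL]
    ring
  have hneg : ∀ ζ : E, (inner ℂ m ζ : ℂ).re ≤ 0 → φ ζ = ‖ζ‖ ^ 2 := by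
    intro ζ hζ
    have hc1 : Tendsto (fun t : ℝ => φ (ζ + t • (-m))) (𝓝[>] 0) (𝓝 (φ ζ)) := by
      have h1 : Continuous fun t : ℝ => φ (ζ + t • (-m)) :=
        hφc.comp (continuous_const.add (continuous_id.smul continuous_const))
      have h2 := (h1.tendsto 0).mono_left (nhdsWithin_le_nhds (s := Set.Ioi (0:ℝ)))
      simpa using h2
    have hc2 : Tendsto (fun t : ℝ => ‖ζ + t • (-m)‖ ^ 2) (𝓝[>] 0) (𝓝 (‖ζ‖ ^ 2)) := by
      have h1 : Continuous fun t : ℝ => ‖ζ + t • (-m)‖ ^ 2 :=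
        (continuous_const.add (continuous_id.smul continuous_const)).norm.pow 2
      have h2 := (h1.tendsto 0).mono_left (nhdsWithin_le_nhds (s := Set.Ioi (0:ℝ)))
      simpa using h2
    refine tendsto_nhds_unique hc1 (hc2.congr' ?_)
    filter_upwards [self_mem_nhdsWithin] with t ht
    refine (hneg0 _ ?_).symm
    have ht' : 0 < t := ht
    rw [inner_add_right, Complex.add_re, be_inner_smul_re]
    nlinarith
  -- maximality
  have hcomp : Comp φ {ζ : E | 0 < (inner ℂ m ζ : ℂ).re} := by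
    intro U W hU hb hcl hW hLW M hM z hz
    have : ProperSpace E := FiniteDimensional.proper ℂ E
    have hcpt : IsCompact (closure U) := hb.isCompact_closure
    obtain ⟨z₁, hz₁, hmin⟩ := hcpt.exists_isMinOn ⟨z, subset_closure hz⟩ hxc.continuousOn
    have hσ0 : 0 < (inner ℂ m z₁ : ℂ).re := hcl hz₁
    obtain ⟨r, hr⟩ := hcpt.isBounded.subset_closedBall (0 : E)
    have hr1 : ∀ ζ ∈ closure U, ‖ζ‖ ≤ max r 1 := fun ζ hζ =>
      le_max_of_le_left (by simpa using hr hζ)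
    obtain ⟨Ke, hKe⟩ := env_C11 hQ
    have hLipe : LipschitzWith (Real.toNNReal Ke) (fderiv ℝ (env Q)) := by
      refine LipschitzWith.of_dist_le_mul fun x y => ?_
      rw [dist_eq_norm, dist_eq_norm, Real.coe_toNNReal _ hKe.1]
      exact hKe.2.2 x y
    have hrad : ∀ᵐ z ∂(om E), DifferentiableAt ℝ (fderiv ℝ (env Q)) z := by
      let _ : InnerProductSpace ℝ E := InnerProductSpace.complexToReal
      have : FiniteDimensional ℝ E := FiniteDimensional.complexToReal E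
      exact hLipe.ae_differentiableAt
    have hev := be_rho_sign hκ hρ hS hσ0 (r := max r 1) (by positivity)
    refine le_of_forall_pos_le_add fun ε hε => ?_
    have hunif : ∀ᶠ k in atTop, ∀ ζ ∈ closure U,
        dist (φ ζ) (bl Q (env Q) a (θ (θ' k)) ζ) < ε / 2 := by
      have h1 := (tendstoLocallyUniformlyOn_iff_tendstoUniformlyOn_of_compact hcpt).1
        (hφt.tendstoLocallyUniformlyOn (s := closure U))
      exact Metric.tendstoUniformlyOn_iff.1 h1 (ε / 2) (half_pos hε)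
    obtain ⟨k, hk1, hk2⟩ := (hunif.and (hsub.eventually hev)).exists
    obtain ⟨hn0, -, hn2⟩ := hk2
    set n : ℕ := θ (θ' k) with hn
    have hdeg : ∀ᵐ ζ ∂(om E), ζ ∈ U → ∃ v : E, v ≠ 0 ∧ Levi (bl Q (env Q) a n) ζ v ≤ 0 := by
      filter_upwards [ae_sc a hn0 hSD, ae_sc a hn0 hrad] with ζ h1 h2 hζ
      have hζc : ζ ∈ closure U := subset_closure hζ
      have h3 : sc a n ζ ∉ S := hn2 ζ (hr1 ζ hζc) (hmin hζc)
      have h4 : env Q (sc a n ζ) < Q (sc a n ζ) :=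
        lt_of_le_of_ne (env_le hQ _) fun h => h3 (h1.2 h)
      obtain ⟨v, hv0, hv⟩ := env_degenerate hQ h4 h2
      exact ⟨v, hv0, by rw [bl_env_levi hQ a hn0 ζ v h2]; exact hv⟩
    have h5 := comparison (hK n) hU hb hdeg hW hLW (M := M + ε / 2) (fun ζ hζ => by
      have h6 := hM ζ hζ
      have h7 := hk1 ζ (frontier_subset_closure hζ)
      rw [Real.dist_eq] at h7
      have h8 := (abs_lt.1 h7).2
      linarith) z hz
    have h7 := hk1 z (subset_closure hz)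
    rw [Real.dist_eq] at h7
    have h8 := (abs_lt.1 h7).1
    linarith
  have hfin : φ = phi0 m := funext (liouville hm hφpsh hφC hneg hcomp)
  rw [← hfin]
  exact hφt

end Pool.Agent.Edge
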