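import Pool.Agent.Edge.PSHBasic

/-!
# Entire functions in `L²((1+|z|²)^{-n})` have polynomial growth of order `< n`
-/

namespace Pool.Agent.Edge

open MeasureTheory Filter Topology Complex

open scoped ComplexConjugate

variable {E : Type*} [NormedAddCommGroup E] [InnerProductSpace ℂ E] [FiniteDimensional ℂ E]
  [MeasurableSpace E] [BorelSpace E]

/-- `|h|²` is psh (`psh_normSq`), so by `PSH.le_ball` with `r = 1+‖z‖`:
`om(closedBall z r) |h(z)|² ≤ ∫_{closedBall z r}|h|²`; on the ball `1+‖w‖² ≤ 4(1+‖z‖)²`, so the right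
side is `≤ (4(1+‖z‖)²)^n I`, `I = ∫|h|²(1+|w|²)^{-n}`; `om(closedBall z r) = κ r^{2d}` with `κ > 0`
(`Measure.addHaar_closedBall`), `d ≥ 1`.  So `(1+‖z‖)²|h(z)|² ≤ C (1+‖z‖)^{2n+2-2d} ≤ C(1+‖z‖)^{2n}`. -/
theorem growth_of_L2 [Nontrivial E] {h : E → ℂ} (hh : Differentiable ℂ h) {n : ℕ}
    (hi : Integrable (fun z => ‖h z‖ ^ 2 * ((1 + ‖z‖ ^ 2) ^ n)⁻¹) (om E)) :
    ∃ C : ℝ, ∀ z, (1 + ‖z‖) * ‖h z‖ ≤ C * (1 + ‖z‖) ^ n := by
  obtain ⟨D, hD⟩ : ∃ D, D = Module.finrank ℝ E := ⟨_, rfl⟩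
  have hD2 : 2 ≤ D := by
    have h1 := finrank_real_of_complex E
    have h2 : 0 < Module.finrank ℂ E := Module.finrank_pos
    omega
  obtain ⟨κ, hκdef⟩ : ∃ κ, κ = ((om E) (Metric.ball 0 1)).toReal := ⟨_, rfl⟩
  have hκ : 0 < κ := by
    rw [hκdef]
    exact ENNReal.toReal_pos (Metric.measure_ball_pos _ _ one_pos).ne' measure_ball_lt_top.ne
  obtain ⟨J, hJdef⟩ : ∃ J, J = ∫ z, ‖h z‖ ^ 2 * ((1 + ‖z‖ ^ 2) ^ n)⁻¹ ∂(om E) := ⟨_, rfl⟩
  have hnn : ∀ z : E, 0 ≤ ‖h z‖ ^ 2 * ((1 + ‖z‖ ^ 2) ^ n)⁻¹ := fun z => by positivity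
  have hJ : 0 ≤ J := by
    rw [hJdef]
    exact integral_nonneg hnn
  refine ⟨Real.sqrt (4 ^ n * J / κ), fun z => ?_⟩
  obtain ⟨r, hr⟩ : ∃ r, r = 1 + ‖z‖ := ⟨_, rfl⟩
  have hr1 : 1 ≤ r := by
    rw [hr]
    linarith [norm_nonneg z]
  have hr0 : 0 < r := by linarith
  have hball := (psh_normSq hh).le_ball z hr0
  have hvol : ((om E) (Metric.closedBall z r)).toReal = r ^ D * κ := by
    rw [Measure.addHaar_closedBall _ _ hr0.le, ENNReal.toReal_mul,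
      ENNReal.toReal_ofReal (by positivity), hκdef, hD]
  rw [hvol] at hball
  have hcont : Continuous fun y => ‖h y‖ ^ 2 := by
    have := hh.continuous
    fun_prop
  have hrhs : ∫ y in Metric.closedBall z r, ‖h y‖ ^ 2 ∂(om E) ≤ (4 * r ^ 2) ^ n * J := by
    have h1 : ∫ y in Metric.closedBall z r, ‖h y‖ ^ 2 ∂(om E) ≤
        ∫ y in Metric.closedBall z r,
          (4 * r ^ 2) ^ n * (‖h y‖ ^ 2 * ((1 + ‖y‖ ^ 2) ^ n)⁻¹) ∂(om E) := by
      apply setIntegral_mono_on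
      · have : FiniteDimensional ℝ E := FiniteDimensional.complexToReal E
        have : ProperSpace E := FiniteDimensional.proper ℝ E
        exact hcont.continuousOn.integrableOn_compact (isCompact_closedBall z r)
      · exact (hi.const_mul _).integrableOn
      · exact Metric.isClosed_closedBall.measurableSet
      · intro y hy
        have hy1 : ‖y‖ ≤ 2 * r - 1 := by
          have h2 : ‖y - z‖ ≤ r := by
            rw [← dist_eq_norm]
            exact Metric.mem_closedBall.mp hy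
          have h3 : ‖y‖ ≤ ‖y - z‖ + ‖z‖ := by
            have := norm_add_le (y - z) z
            rwa [sub_add_cancel] at this
          linarith
        have hy2 : 1 + ‖y‖ ^ 2 ≤ 4 * r ^ 2 := by
          have h0 := norm_nonneg y
          nlinarith
        have hy3 : (1 + ‖y‖ ^ 2) ^ n ≤ (4 * r ^ 2) ^ n :=
          pow_le_pow_left₀ (by positivity) hy2 n
        have hy4 : (0 : ℝ) < (1 + ‖y‖ ^ 2) ^ n := by positivity
        have hy5 : 1 ≤ (4 * r ^ 2) ^ n * ((1 + ‖y‖ ^ 2) ^ n)⁻¹ := by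
          rw [← div_eq_mul_inv, le_div_iff₀ hy4, one_mul]
          exact hy3
        have hy6 : (4 * r ^ 2) ^ n * (‖h y‖ ^ 2 * ((1 + ‖y‖ ^ 2) ^ n)⁻¹) =
            ‖h y‖ ^ 2 * ((4 * r ^ 2) ^ n * ((1 + ‖y‖ ^ 2) ^ n)⁻¹) := by ring
        rw [hy6]
        exact le_mul_of_one_le_right (by positivity) hy5
    refine h1.trans ?_
    have h2 : ∫ y in Metric.closedBall z r,
          (4 * r ^ 2) ^ n * (‖h y‖ ^ 2 * ((1 + ‖y‖ ^ 2) ^ n)⁻¹) ∂(om E) ≤
        ∫ y, (4 * r ^ 2) ^ n * (‖h y‖ ^ 2 * ((1 + ‖y‖ ^ 2) ^ n)⁻¹) ∂(om E) := by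
      apply setIntegral_le_integral (hi.const_mul _)
      filter_upwards with y
      have := hnn y
      positivity
    refine h2.trans (le_of_eq ?_)
    rw [integral_const_mul, hJdef]
  have hmain : (r * ‖h z‖) ^ 2 ≤ (4 ^ n * J / κ) * (r ^ n) ^ 2 := by
    have h1 : r ^ 2 ≤ r ^ D := pow_le_pow_right₀ hr1 hD2
    have h2 : r ^ 2 * κ * ‖h z‖ ^ 2 ≤ (4 * r ^ 2) ^ n * J := by
      refine le_trans ?_ (hball.trans hrhs)
      exact mul_le_mul_of_nonneg_right (mul_le_mul_of_nonneg_right h1 hκ.le) (by positivity)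
    rw [div_mul_eq_mul_div, le_div_iff₀ hκ]
    calc (r * ‖h z‖) ^ 2 * κ = r ^ 2 * κ * ‖h z‖ ^ 2 := by ring
      _ ≤ (4 * r ^ 2) ^ n * J := h2
      _ = 4 ^ n * J * (r ^ n) ^ 2 := by
        rw [mul_pow, ← pow_mul, ← pow_mul, mul_comm 2 n]
        ring
  rw [← hr]
  have h0 : 0 ≤ r * ‖h z‖ := by positivity
  have h1 : 0 ≤ 4 ^ n * J / κ := by positivity
  calc r * ‖h z‖ = Real.sqrt ((r * ‖h z‖) ^ 2) := (Real.sqrt_sq h0).symm
    _ ≤ Real.sqrt ((4 ^ n * J / κ) * (r ^ n) ^ 2) := Real.sqrt_le_sqrt hmain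
    _ = Real.sqrt (4 ^ n * J / κ) * r ^ n := by
      rw [Real.sqrt_mul h1, Real.sqrt_sq (by positivity)]

end Pool.Agent.Edge
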