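import Pool.Agent.Edge.HorE
import Pool.Agent.Edge.Grow

/-!
# Approximation by elements of the spaces `Vsp n (P n)` (lower bound for the kernels)

Data: `φ n` psh, `C11 K`, `φ n → φi`; weights `w n → w∞` (`wi`), `φ n ≤ w n`; growth
`φ n + Re P n ≤ n log(1+|ζ|²) + C_n`; positivity `hpos` of the Levi form of `φi` at scale `R`.

Proof.  Let `e` be an orthonormal basis, `R ≥ 1` large (to be chosen), `χ` the cut-off of
`exists_cutoff` (`χ = 1` on `|ζ| ≤ R`, `= 0` for `|ζ| ≥ 2R`, `|Dχ| ≤ C_χ/R`), `g = χ f`, `r = 4R`,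
`ε₀ = r^{-2}`, and
`ψ = (1-ε₀) moll 1 (φ n) + ε₀ moll r (φ n) - K`.
By `PSH.le_moll` and `C11.abs_moll_sub_le`: `φ n ≤ moll s (φ n) ≤ φ n + (K/2)s²`, hence
(1) `φ n - K ≤ ψ ≤ φ n` (as `(1-ε₀)K/2 + ε₀(K/2)r² ≤ K`).
`ψ` is `C^∞` with `Levi ψ ≥ 0` (`PSH.moll`, `PSH.levi_nonneg`), and by `moll_levi_tendsto` and
`hpos`, for `n` large `Levi (moll r (φ n)) ≥ (c/2)|v|²` on `|ζ| ≤ 2R`, so
(2) `Levi ψ ζ v ≥ (c/(32R²))|v|²` for `|ζ| ≤ 2R`.
`∂̄g = f ∂̄χ` vanishes off `F = {R ≤ |ζ| ≤ 2R}` and `∑_j|∂̄_jg|² ≤ C'|f|²/R²` there.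
`hormander` (with `F`): there is `h` entire, `∫|h|²e^{-ψ} < ∞`,
(3) `∫|g-h|²e^{-ψ} ≤ C''∫_{R≤|ζ|≤2R}|f|²e^{-ψ} ≤ C'' e^{K} ∫_{R≤|ζ|≤2R}|f|²e^{-φ n}`, with `C''`
    independent of `R, n`; as `n → ∞` the last integral tends to
    `∫_{R≤|ζ|≤2R}|f|²e^{-φi} ≤ ∫_{|ζ|≥R}|f|²e^{-φi} =: δ_R → 0` (`R → ∞`).  So for `n ≥ n_R`:
    `∫|g-h|²e^{-ψ} ≤ C'''(δ_R + 1/R)`.
Membership: `∫|h e^{P/2}|² e^{-(φ n + Re P)} = ∫|h|²e^{-φ n} ≤ ∫|h|²e^{-ψ} < ∞` and the growth
hypothesis give `∫|h e^{P/2}|²(1+|ζ|²)^{-n} < ∞`, so `h ∈ Vsp n (P n)` by `growth_of_L2`.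
Norm: `w n ≥ φ n ≥ ψ`, so in `L²(e^{-w n})`
`‖h‖ ≤ ‖χf‖ + ‖g-h‖ ≤ (∫_{|ζ|≤2R}|f|²e^{-w n})^{1/2} + (C'''(δ_R+1/R))^{1/2}`, and
`∫_{|ζ|≤2R}|f|²e^{-w n} → ∫_{|ζ|≤2R}|f|²e^{-wi} ≤ ∫|f|²e^{-wi}` (finite, as `wi ≥ φi`).
Pointwise: for `|ζ| ≤ r0`, `r0+1 ≤ R`: `g = f` on `closedBall ζ 1`, `h - f` is entire, so by
`psh_normSq`, `PSH.le_ball`: `κ|h(ζ)-f(ζ)|² ≤ ∫_{closedBall ζ 1}|h-g|² ≤
sup_{|w|≤r0+1} e^{φ n(w)} ∫|g-h|²e^{-ψ}`, `κ = om(closedBall 0 1)`, and `φ n` is bounded on the ball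
`|w| ≤ r0+1` uniformly for large `n`.  Choose `R` first (large), then `n`.
-/

namespace Pool.Agent.Edge

open MeasureTheory Filter Topology Complex

open scoped ComplexConjugate ContDiff

variable {E : Type*} [NormedAddCommGroup E] [InnerProductSpace ℂ E] [FiniteDimensional ℂ E]
  [MeasurableSpace E] [BorelSpace E]

namespace LowerAux

theorem two_le_inf : (2 : WithTop ℕ∞) ≤ ∞ := WithTop.coe_le_coe.2 (le_top (a := (2 : ℕ∞)))

omit [FiniteDimensional ℂ E] [MeasurableSpace E] [BorelSpace E] in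
theorem dzb_cutoff {χ : E → ℝ} (hχ : ContDiff ℝ ∞ χ) {f : E → ℂ} (hf : Differentiable ℂ f)
    (v z : E) :
    dzb v (fun w => (χ w : ℂ) * f w) z = dzb v (fun w => (χ w : ℂ)) z * f z := by
  have h1 : DifferentiableAt ℝ (fun w => (χ w : ℂ)) z :=
    (Complex.ofRealCLM.differentiable.comp (hχ.differentiable (by simp))) z
  have h2 : DifferentiableAt ℝ f z := (hf z).restrictScalars ℝ
  rw [dzb_mul h1 h2, dzb_eq_zero (hf z), mul_zero, add_zero]

omit [FiniteDimensional ℂ E] [MeasurableSpace E] [BorelSpace E] in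
theorem dzb_real {χ : E → ℝ} (hχ : ContDiff ℝ ∞ χ) (v z : E) :
    dzb v (fun w => (χ w : ℂ)) z =
      (((fderiv ℝ χ z v : ℝ) : ℂ) + I * ((fderiv ℝ χ z (I • v) : ℝ) : ℂ)) / 2 := by
  have h1 : HasFDerivAt (fun w => (χ w : ℂ)) (Complex.ofRealCLM.comp (fderiv ℝ χ z)) z :=
    Complex.ofRealCLM.hasFDerivAt.comp z ((hχ.differentiable (by simp)) z).hasFDerivAt
  unfold dzb
  rw [h1.fderiv]
  simp

omit [FiniteDimensional ℂ E] [MeasurableSpace E] [BorelSpace E] in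
theorem norm_dzb_real_le {χ : E → ℝ} (hχ : ContDiff ℝ ∞ χ) (v z : E) (hv : ‖v‖ = 1) :
    ‖dzb v (fun w => (χ w : ℂ)) z‖ ≤ ‖fderiv ℝ χ z‖ := by
  rw [dzb_real hχ]
  have h1 : ‖((fderiv ℝ χ z v : ℝ) : ℂ)‖ ≤ ‖fderiv ℝ χ z‖ := by
    rw [Complex.norm_real]
    simpa [hv] using (fderiv ℝ χ z).le_opNorm v
  have h2 : ‖I * ((fderiv ℝ χ z (I • v) : ℝ) : ℂ)‖ ≤ ‖fderiv ℝ χ z‖ := by
    rw [norm_mul, Complex.norm_I, one_mul, Complex.norm_real]
    have := (fderiv ℝ χ z).le_opNorm (I • v)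
    rwa [norm_smul, Complex.norm_I, one_mul, hv, mul_one] at this
  rw [norm_div]
  have h3 := norm_add_le ((fderiv ℝ χ z v : ℝ) : ℂ) (I * ((fderiv ℝ χ z (I • v) : ℝ) : ℂ))
  have h4 : ‖(2 : ℂ)‖ = 2 := by norm_num
  rw [h4, div_le_iff₀ (by norm_num)]
  linarith

/-- the weight -/
noncomputable def psi (K R : ℝ) (φ : E → ℝ) (z : E) : ℝ :=
  ((1 - 1 / (4 * R) ^ 2) * moll 1 φ z + 1 / (4 * R) ^ 2 * moll (4 * R) φ z) + (-K)

theorem psi_facts {K R c : ℝ} (hR : 1 ≤ R) {φ : E → ℝ} (hP : PSH φ)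
    (hC : C11 K φ)
    (hL : ∀ ζ : E, ‖ζ‖ ≤ 2 * R → ∀ v : E, c * ‖v‖ ^ 2 ≤ Levi (moll (4 * R) φ) ζ v) :
    ContDiff ℝ ∞ (psi K R φ) ∧ (∀ z v, 0 ≤ Levi (psi K R φ) z v) ∧
    (∀ z, psi K R φ z ≤ φ z) ∧ (∀ z, φ z - K ≤ psi K R φ z) ∧
    (∀ z, ‖z‖ ≤ 2 * R → ∀ v, c / (4 * R) ^ 2 * ‖v‖ ^ 2 ≤ Levi (psi K R φ) z v) := by
  have hR0 : 0 < R := by linarith
  have hli : LocallyIntegrable φ (om E) := hP.continuous.locallyIntegrable
  have hs1 : ContDiff ℝ ∞ (moll 1 φ) := moll_contDiff one_pos hli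
  have hs2 : ContDiff ℝ ∞ (moll (4 * R) φ) := moll_contDiff (by positivity) hli
  have he1 : (0 : ℝ) ≤ 1 / (4 * R) ^ 2 := by positivity
  have he2 : 1 / (4 * R) ^ 2 ≤ 1 := by
    rw [div_le_one (by positivity)]
    have : 1 ≤ 4 * R := by linarith
    exact one_le_pow₀ this
  have hcd : ContDiff ℝ ∞ (psi K R φ) :=
    ((contDiff_const.mul hs1).add (contDiff_const.mul hs2)).add contDiff_const
  have hpsh1 : PSH (moll 1 φ) := hP.moll 1
  have hpsh2 : PSH (moll (4 * R) φ) := hP.moll _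
  have hlev : ∀ z v, Levi (psi K R φ) z v =
      (1 - 1 / (4 * R) ^ 2) * Levi (moll 1 φ) z v + 1 / (4 * R) ^ 2 * Levi (moll (4 * R) φ) z v := by
    intro z v
    have c1 : ContDiffAt ℝ 2 (moll 1 φ) z := (hs1.contDiffAt).of_le two_le_inf
    have c2 : ContDiffAt ℝ 2 (moll (4 * R) φ) z :=
      (hs2.contDiffAt).of_le two_le_inf
    have c3 : ContDiffAt ℝ 2 (fun z => (1 - 1 / (4 * R) ^ 2) * moll 1 φ z) z :=
      contDiffAt_const.mul c1
    have c4 : ContDiffAt ℝ 2 (fun z => 1 / (4 * R) ^ 2 * moll (4 * R) φ z) z :=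
      contDiffAt_const.mul c2
    have h1 := levi_add (c3.add c4) (contDiffAt_const (c := -K)) v
    have h2 := levi_add c3 c4 v
    have h3 := levi_const_mul c1 (1 - 1 / (4 * R) ^ 2) v
    have h4 := levi_const_mul c2 (1 / (4 * R) ^ 2) v
    have h5 := levi_const (-K) z v
    calc Levi (psi K R φ) z v = _ := h1
      _ = _ := by rw [h5, add_zero, h2, h3, h4]
  have hpos1 : ∀ z v, 0 ≤ Levi (moll 1 φ) z v :=
    hpsh1.levi_nonneg (hs1.of_le two_le_inf)
  have hpos2 : ∀ z v, 0 ≤ Levi (moll (4 * R) φ) z v :=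
    hpsh2.levi_nonneg (hs2.of_le two_le_inf)
  refine ⟨hcd, ?_, ?_, ?_, ?_⟩
  · intro z v
    rw [hlev]
    exact add_nonneg (mul_nonneg (by linarith) (hpos1 z v)) (mul_nonneg he1 (hpos2 z v))
  · intro z
    have h1 := abs_le.1 (hC.abs_moll_sub_le 1 z)
    have h2 := abs_le.1 (hC.abs_moll_sub_le (4 * R) z)
    unfold psi
    have h3 : (1 - 1 / (4 * R) ^ 2) * moll 1 φ z ≤
        (1 - 1 / (4 * R) ^ 2) * (φ z + K / 2 * 1 ^ 2) :=
      mul_le_mul_of_nonneg_left (by linarith [h1.2]) (by linarith)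
    have h4 : 1 / (4 * R) ^ 2 * moll (4 * R) φ z ≤
        1 / (4 * R) ^ 2 * (φ z + K / 2 * (4 * R) ^ 2) :=
      mul_le_mul_of_nonneg_left (by linarith [h2.2]) he1
    have h5 : (1 - 1 / (4 * R) ^ 2) * (φ z + K / 2 * 1 ^ 2) +
        1 / (4 * R) ^ 2 * (φ z + K / 2 * (4 * R) ^ 2) + (-K) =
        φ z - K / 2 * (1 / (4 * R) ^ 2) := by
      field_simp
      ring
    have h6 : 0 ≤ K / 2 * (1 / (4 * R) ^ 2) := mul_nonneg (by linarith [hC.1]) he1
    linarith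
  · intro z
    have h1 := hP.le_moll 1 z
    have h2 := hP.le_moll (4 * R) z
    unfold psi
    have h3 : (1 - 1 / (4 * R) ^ 2) * φ z ≤ (1 - 1 / (4 * R) ^ 2) * moll 1 φ z :=
      mul_le_mul_of_nonneg_left h1 (by linarith)
    have h4 : 1 / (4 * R) ^ 2 * φ z ≤ 1 / (4 * R) ^ 2 * moll (4 * R) φ z :=
      mul_le_mul_of_nonneg_left h2 he1
    linarith
  · intro z hz v
    rw [hlev]
    have h1 : 0 ≤ (1 - 1 / (4 * R) ^ 2) * Levi (moll 1 φ) z v :=
      mul_nonneg (by linarith) (hpos1 z v)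
    have h2 := mul_le_mul_of_nonneg_left (hL z hz v) he1
    calc c / (4 * R) ^ 2 * ‖v‖ ^ 2 = 1 / (4 * R) ^ 2 * (c * ‖v‖ ^ 2) := by ring
      _ ≤ _ := by linarith

theorem step (E : Type*) [NormedAddCommGroup E] [InnerProductSpace ℂ E] [FiniteDimensional ℂ E]
    [MeasurableSpace E] [BorelSpace E] (K c : ℝ) (hc : 0 < c) :
    ∃ C2 : ℝ, 0 ≤ C2 ∧ ∀ R : ℝ, 1 ≤ R → ∀ φ : E → ℝ, PSH φ → C11 K φ →
      (∀ ζ : E, ‖ζ‖ ≤ 2 * R → ∀ v : E, c * ‖v‖ ^ 2 ≤ Levi (moll (4 * R) φ) ζ v) →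
      ∀ f : E → ℂ, ContDiff ℂ ∞ f → ∃ h g : E → ℂ, Differentiable ℂ h ∧ Continuous g ∧
        (∀ z, ‖z‖ ≤ R → g z = f z) ∧ (∀ z, ‖g z‖ ≤ ‖f z‖) ∧ (∀ z, 2 * R ≤ ‖z‖ → g z = 0) ∧
        Integrable (fun z => ‖h z‖ ^ 2 * Real.exp (-φ z)) (om E) ∧
        Integrable (fun z => ‖g z - h z‖ ^ 2 * Real.exp (-φ z)) (om E) ∧
        ∫ z, ‖g z - h z‖ ^ 2 * Real.exp (-φ z) ∂(om E) ≤
          C2 * ∫ z in {z | R ≤ ‖z‖ ∧ ‖z‖ ≤ 2 * R}, ‖f z‖ ^ 2 * Real.exp (-φ z) ∂(om E) := by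
  obtain ⟨Cχ, hCχ, hcut⟩ := exists_cutoff E
  set d : ℕ := Module.finrank ℂ E with hd
  refine ⟨4 * 16 / c * (d * Cχ ^ 2) * Real.exp K, by positivity, ?_⟩
  intro R hR φ hP hC hL f hf
  have hR0 : 0 < R := by linarith
  obtain ⟨hψ, hψ0, hψle, hψge, hψF⟩ := psi_facts hR hP hC hL
  obtain ⟨χ, hχ, hχ01, hχ1, hχ0, hDχ, hDχ1, hDχ2⟩ := hcut R hR
  let e := stdOrthonormalBasis ℂ E
  have hfd : Differentiable ℂ f := hf.differentiable (by simp)
  have hfr : ContDiff ℝ ∞ f := hf.restrict_scalars ℝ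
  have hfc : Continuous f := hf.continuous
  have hφc : Continuous φ := hP.continuous
  have hprop : ProperSpace E := FiniteDimensional.proper ℂ E
  let g : E → ℂ := fun w => (χ w : ℂ) * f w
  have hg : ContDiff ℝ ∞ g := (Complex.ofRealCLM.contDiff.comp hχ).mul hfr
  have hg0 : ∀ z, 2 * R ≤ ‖z‖ → g z = 0 := by
    intro z hz
    simp [g, hχ0 z hz]
  have hgc : HasCompactSupport g := by
    apply HasCompactSupport.intro (isCompact_closedBall (0 : E) (2 * R))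
    intro z hz
    apply hg0
    rw [mem_closedBall_zero_iff] at hz
    exact (not_le.1 hz).le
  set F : Set E := {z | R ≤ ‖z‖ ∧ ‖z‖ ≤ 2 * R} with hF
  have hFcl : IsClosed F :=
    (isClosed_le continuous_const continuous_norm).inter
      (isClosed_le continuous_norm continuous_const)
  have hFsub : F ⊆ Metric.closedBall 0 (2 * R) := by
    intro z hz
    rw [mem_closedBall_zero_iff]
    exact hz.2
  have hFb : Bornology.IsBounded F := Metric.isBounded_closedBall.subset hFsub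
  have hFcomp : IsCompact F := (isCompact_closedBall (0 : E) (2 * R)).of_isClosed_subset hFcl hFsub
  have hgF : ∀ z, z ∉ F → ∀ v, dzb v g z = 0 := by
    intro z hz v
    have h1 : fderiv ℝ χ z = 0 := by
      by_cases h2 : ‖z‖ < R
      · exact hDχ1 z h2
      · apply hDχ2
        by_contra h3
        exact hz ⟨not_lt.1 h2, not_lt.1 h3⟩
    change dzb v (fun w => (χ w : ℂ) * f w) z = 0
    rw [dzb_cutoff hχ hfd, dzb_real hχ, h1]
    simp
  have hc' : 0 < c / (4 * R) ^ 2 := by positivity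
  obtain ⟨h, hh, hi1, hi2, hi3⟩ := hormander e hψ hψ0 hg hgc hFcl.measurableSet hFb hgF hc'
    (fun z hz v => hψF z hz.2 v)
  have hexp : ∀ z, Real.exp (-φ z) ≤ Real.exp (-(psi K R φ z)) := fun z =>
    Real.exp_le_exp.2 (neg_le_neg (hψle z))
  refine ⟨h, g, hh, hg.continuous, ?_, ?_, hg0, ?_, ?_, ?_⟩
  · intro z hz
    simp [g, hχ1 z hz]
  · intro z
    have h1 : ‖g z‖ = |χ z| * ‖f z‖ := by simp [g]
    rw [h1, abs_of_nonneg (hχ01 z).1]
    exact mul_le_of_le_one_left (norm_nonneg _) (hχ01 z).2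
  · refine hi1.mono' ?_ ?_
    · exact ((hh.continuous.norm.pow 2).mul (hφc.neg.rexp)).aestronglyMeasurable
    · refine Filter.Eventually.of_forall fun z => ?_
      rw [Real.norm_of_nonneg (by positivity)]
      exact mul_le_mul_of_nonneg_left (hexp z) (by positivity)
  · refine hi2.mono' ?_ ?_
    · exact (((hg.continuous.sub hh.continuous).norm.pow 2).mul
        (hφc.neg.rexp)).aestronglyMeasurable
    · refine Filter.Eventually.of_forall fun z => ?_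
      rw [Real.norm_of_nonneg (by positivity)]
      exact mul_le_mul_of_nonneg_left (hexp z) (by positivity)
  · have h1 : ∫ z, ‖g z - h z‖ ^ 2 * Real.exp (-φ z) ∂(om E) ≤
        ∫ z, ‖g z - h z‖ ^ 2 * Real.exp (-(psi K R φ z)) ∂(om E) := by
      apply integral_mono_of_nonneg (Filter.Eventually.of_forall fun z => by positivity) hi2
      exact Filter.Eventually.of_forall fun z =>
        mul_le_mul_of_nonneg_left (hexp z) (by positivity)
    refine (h1.trans hi3).trans ?_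
    have hint : IntegrableOn (fun z => ‖f z‖ ^ 2 * Real.exp (-φ z)) F (om E) :=
      ((hfc.norm.pow 2).mul (hφc.neg.rexp)).continuousOn.integrableOn_compact hFcomp
    have hbd : ∀ z, (∑ j, ‖dzb (e j) g z‖ ^ 2) * Real.exp (-(psi K R φ z)) ≤
        F.indicator (fun z => (d * (Cχ / R) ^ 2 * Real.exp K) *
          (‖f z‖ ^ 2 * Real.exp (-φ z))) z := by
      intro z
      by_cases hz : z ∈ F
      · rw [Set.indicator_of_mem hz]
        have h2 : ∑ j, ‖dzb (e j) g z‖ ^ 2 ≤ d * ((Cχ / R) ^ 2 * ‖f z‖ ^ 2) := by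
          calc ∑ j, ‖dzb (e j) g z‖ ^ 2 ≤ ∑ _j : Fin (Module.finrank ℂ E),
                (Cχ / R) ^ 2 * ‖f z‖ ^ 2 := by
                apply Finset.sum_le_sum
                intro j _
                change ‖dzb (e j) (fun w => (χ w : ℂ) * f w) z‖ ^ 2 ≤ _
                rw [dzb_cutoff hχ hfd, norm_mul, mul_pow]
                apply mul_le_mul_of_nonneg_right _ (by positivity)
                apply pow_le_pow_left₀ (norm_nonneg _)
                exact (norm_dzb_real_le hχ (e j) z (e.norm_eq_one j)).trans (hDχ z)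
            _ = d * ((Cχ / R) ^ 2 * ‖f z‖ ^ 2) := by
                rw [Finset.sum_const, Finset.card_univ, Fintype.card_fin, nsmul_eq_mul]
        have h3 : Real.exp (-(psi K R φ z)) ≤ Real.exp K * Real.exp (-φ z) := by
          rw [← Real.exp_add]
          apply Real.exp_le_exp.2
          linarith [hψge z]
        calc (∑ j, ‖dzb (e j) g z‖ ^ 2) * Real.exp (-(psi K R φ z))
            ≤ (d * ((Cχ / R) ^ 2 * ‖f z‖ ^ 2)) * (Real.exp K * Real.exp (-φ z)) :=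
              mul_le_mul h2 h3 (Real.exp_pos _).le (by positivity)
          _ = _ := by ring
      · rw [Set.indicator_of_notMem hz]
        have h2 : ∑ j, ‖dzb (e j) g z‖ ^ 2 = 0 := by
          apply Finset.sum_eq_zero
          intro j _
          rw [hgF z hz]
          simp
        rw [h2, zero_mul]
    have h4 : ∫ z, (∑ j, ‖dzb (e j) g z‖ ^ 2) * Real.exp (-(psi K R φ z)) ∂(om E) ≤
        (d * (Cχ / R) ^ 2 * Real.exp K) * ∫ z in F, ‖f z‖ ^ 2 * Real.exp (-φ z) ∂(om E) := by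
      rw [← integral_const_mul, ← integral_indicator hFcl.measurableSet]
      apply integral_mono_of_nonneg (Filter.Eventually.of_forall fun z => by positivity)
      · exact (integrable_indicator_iff hFcl.measurableSet).2 (hint.const_mul _)
      · exact Filter.Eventually.of_forall hbd
    calc 4 / (c / (4 * R) ^ 2) * ∫ z, (∑ j, ‖dzb (e j) g z‖ ^ 2) *
          Real.exp (-(psi K R φ z)) ∂(om E)
        ≤ 4 / (c / (4 * R) ^ 2) * ((d * (Cχ / R) ^ 2 * Real.exp K) *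
          ∫ z in F, ‖f z‖ ^ 2 * Real.exp (-φ z) ∂(om E)) :=
          mul_le_mul_of_nonneg_left h4 (by positivity)
      _ = (4 * 16 / c * (d * Cχ ^ 2) * Real.exp K) *
          ∫ z in F, ‖f z‖ ^ 2 * Real.exp (-φ z) ∂(om E) := by
          rw [← mul_assoc]
          congr 1
          field_simp
          ring

/-- membership in `Vsp`. -/
theorem mem_of_int [Nontrivial E] {n : ℕ} {P h : E → ℂ} {φ : E → ℝ} (hP : Differentiable ℂ P)
    (hgr : ∃ C : ℝ, ∀ ζ, φ ζ + (P ζ).re ≤ n * Real.log (1 + ‖ζ‖ ^ 2) + C)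
    (hh : Differentiable ℂ h)
    (hi : Integrable (fun z => ‖h z‖ ^ 2 * Real.exp (-φ z)) (om E)) : h ∈ Vsp n P := by
  rw [mem_Vsp]
  refine ⟨hh, ?_⟩
  obtain ⟨C, hC⟩ := hgr
  have hH : Differentiable ℂ (fun z => h z * cexp (P z / 2)) :=
    hh.mul (Differentiable.cexp (by simpa [div_eq_mul_inv] using hP.mul_const (2 : ℂ)⁻¹))
  apply growth_of_L2 hH
  refine (hi.const_mul (Real.exp C)).mono' ?_ ?_
  · refine ((hH.continuous.norm.pow 2).mul ?_).aestronglyMeasurable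
    refine Continuous.inv₀ (by fun_prop) fun z => by positivity
  · refine Filter.Eventually.of_forall fun z => ?_
    rw [Real.norm_of_nonneg (by positivity)]
    have h1 : ‖h z * cexp (P z / 2)‖ ^ 2 = ‖h z‖ ^ 2 * Real.exp ((P z).re) := by
      rw [norm_mul, Complex.norm_exp, mul_pow, ← Real.exp_nat_mul]
      congr 2
      simp
      ring
    have h2 : ((1 + ‖z‖ ^ 2) ^ n)⁻¹ = Real.exp (-(n * Real.log (1 + ‖z‖ ^ 2))) := by
      rw [Real.exp_neg, Real.exp_nat_mul, Real.exp_log (by positivity)]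
    rw [h1, h2, mul_assoc, ← Real.exp_add]
    have h3 : Real.exp ((P z).re + -(n * Real.log (1 + ‖z‖ ^ 2))) ≤
        Real.exp C * Real.exp (-φ z) := by
      rw [← Real.exp_add]
      apply Real.exp_le_exp.2
      linarith [hC z]
    calc ‖h z‖ ^ 2 * Real.exp ((P z).re + -(n * Real.log (1 + ‖z‖ ^ 2)))
        ≤ ‖h z‖ ^ 2 * (Real.exp C * Real.exp (-φ z)) :=
          mul_le_mul_of_nonneg_left h3 (by positivity)
      _ = _ := by ring

omit [MeasurableSpace E] [BorelSpace E] in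
theorem tlu_ball {φ : ℕ → E → ℝ} {φi : E → ℝ} (h : TendstoLocallyUniformly φ φi atTop) (R : ℝ)
    {ε : ℝ} (hε : 0 < ε) : ∀ᶠ n in atTop, ∀ z, ‖z‖ ≤ R → |φ n z - φi z| < ε := by
  have hprop : ProperSpace E := FiniteDimensional.proper ℂ E
  have h1 := tendstoLocallyUniformly_iff_forall_isCompact.1 h (Metric.closedBall 0 R)
    (isCompact_closedBall 0 R)
  filter_upwards [Metric.tendstoUniformlyOn_iff.1 h1 ε hε] with n hn z hz
  have := hn z (by simpa using hz)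
  rwa [dist_comm, Real.dist_eq] at this

theorem levi_lower {φ : ℕ → E → ℝ} {φi : E → ℝ} (hφc : ∀ᶠ n in atTop, Continuous (φ n))
    (hφi : Continuous φi) (h : TendstoLocallyUniformly φ φi atTop) {c R : ℝ} (hc : 0 < c)
    (hR : 0 < R)
    (hcL : ∀ ζ : E, ‖ζ‖ ≤ 2 * R → ∀ v : E, c * ‖v‖ ^ 2 ≤ Levi (moll (4 * R) φi) ζ v) :
    ∀ᶠ n in atTop, ∀ ζ : E, ‖ζ‖ ≤ 2 * R → ∀ v : E,
      c / 2 * ‖v‖ ^ 2 ≤ Levi (moll (4 * R) (φ n)) ζ v := by
  obtain ⟨n0, hn0⟩ := eventually_atTop.1 hφc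
  have h1 : TendstoLocallyUniformly (fun n => φ (n + n0)) φi atTop := by
    intro u hu x
    obtain ⟨t, ht, hev⟩ := h u hu x
    exact ⟨t, ht, (tendsto_add_atTop_nat n0).eventually hev⟩
  have h2 := moll_levi_tendsto (fun n => hn0 (n + n0) (Nat.le_add_left _ _)) hφi h1
    (s := 4 * R) (by positivity) (2 * R) (half_pos hc)
  obtain ⟨n1, hn1⟩ := eventually_atTop.1 h2
  filter_upwards [eventually_ge_atTop (n1 + n0)] with n hn ζ hζ v
  have h3 := hn1 (n - n0) (by omega) ζ hζ v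
  rw [Nat.sub_add_cancel (by omega)] at h3
  have h4 := (abs_le.1 h3).1
  have h5 := hcL ζ hζ v
  linarith

theorem tail {G : E → ℝ} (hG : Integrable G (om E)) {ε : ℝ} (hε : 0 < ε) (R0 : ℝ) :
    ∃ R : ℝ, R0 ≤ R ∧ ∫ z in {z | R ≤ ‖z‖}, G z ∂(om E) < ε := by
  have hmeas : ∀ k : ℕ, MeasurableSet {z : E | (k : ℝ) ≤ ‖z‖} := fun k =>
    measurableSet_le measurable_const measurable_norm
  have hanti : Antitone (fun k : ℕ => {z : E | (k : ℝ) ≤ ‖z‖}) := by
    intro a b hab z hz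
    have : (a : ℝ) ≤ b := by exact_mod_cast hab
    exact this.trans hz
  have h1 := tendsto_setIntegral_of_antitone (f := G) (μ := om E) hmeas hanti ⟨0, hG.integrableOn⟩
  have h2 : (⋂ k : ℕ, {z : E | (k : ℝ) ≤ ‖z‖}) = ∅ := by
    ext z
    simp only [Set.mem_iInter, Set.mem_empty_iff_false, iff_false, not_forall]
    obtain ⟨k, hk⟩ := exists_nat_gt ‖z‖
    exact ⟨k, not_le.2 hk⟩
  rw [h2, Measure.restrict_empty, integral_zero_measure] at h1
  have h3 := (h1.eventually (gt_mem_nhds hε)).and (eventually_ge_atTop ⌈R0⌉₊)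
  obtain ⟨k, hk, hk2⟩ := h3.exists
  refine ⟨k, ?_, hk⟩
  exact (Nat.le_ceil R0).trans (by exact_mod_cast hk2)

theorem sq_split {t : ℝ} (ht : 0 < t) (a b : ℝ) :
    (a + b) ^ 2 ≤ (1 + t) * a ^ 2 + (1 + 1 / t) * b ^ 2 := by
  have h1 : (1 + t) * a ^ 2 + (1 + 1 / t) * b ^ 2 - (a + b) ^ 2 = (t * a - b) ^ 2 / t := by
    field_simp
    ring
  have h2 : 0 ≤ (t * a - b) ^ 2 / t := by positivity
  linarith

end LowerAux

theorem lower_approx [Nontrivial E] {φ w : ℕ → E → ℝ} {φi wi : E → ℝ} {P : ℕ → E → ℂ} {K : ℝ}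
    (hφP : ∀ᶠ n in atTop, PSH (φ n)) (hφC : ∀ᶠ n in atTop, C11 K (φ n))
    (hφi : Continuous φi) (hφ : TendstoLocallyUniformly φ φi atTop)
    (hP : ∀ᶠ n in atTop, Differentiable ℂ (P n))
    (hgr : ∀ᶠ (n : ℕ) in atTop, ∃ C : ℝ, ∀ ζ,
      φ n ζ + (P n ζ).re ≤ n * Real.log (1 + ‖ζ‖ ^ 2) + C)
    (hwc : ∀ᶠ n in atTop, Continuous (w n)) (hwi : Continuous wi)
    (hw : TendstoLocallyUniformly w wi atTop)
    (hφw : ∀ᶠ n in atTop, ∀ ζ, φ n ζ ≤ w n ζ)
    (hpos : ∃ c : ℝ, 0 < c ∧ ∀ R : ℝ, 1 ≤ R → ∀ ζ : E, ‖ζ‖ ≤ 2 * R → ∀ v : E,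
      c * ‖v‖ ^ 2 ≤ Levi (moll (4 * R) φi) ζ v)
    {f : E → ℂ} (hf : ContDiff ℂ ∞ f)
    (hfi : Integrable (fun ζ => ‖f ζ‖ ^ 2 * Real.exp (-φi ζ)) (om E))
    (r0 : ℝ) {ε : ℝ} (hε : 0 < ε) :
    ∀ᶠ n in atTop, ∃ g ∈ Vsp n (P n), (∀ ζ, ‖ζ‖ ≤ r0 → ‖g ζ - f ζ‖ ≤ ε) ∧
      Integrable (fun ζ => ‖g ζ‖ ^ 2 * Real.exp (-w n ζ)) (om E) ∧
      ∫ ζ, ‖g ζ‖ ^ 2 * Real.exp (-w n ζ) ∂(om E) ≤
        (∫ ζ, ‖f ζ‖ ^ 2 * Real.exp (-wi ζ) ∂(om E)) + ε := by
  classical
  have hprop : ProperSpace E := FiniteDimensional.proper ℂ E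
  obtain ⟨c, hc, hcL⟩ := hpos
  obtain ⟨C2, hC2, hstep⟩ := LowerAux.step E K (c / 2) (half_pos hc)
  have hfd : Differentiable ℂ f := hf.differentiable (by simp)
  have hfc : Continuous f := hf.continuous
  have hφt : ∀ ζ, Tendsto (fun n => φ n ζ) atTop (𝓝 (φi ζ)) := fun ζ =>
    tlu_tendsto hφi hφ tendsto_const_nhds
  have hwt : ∀ ζ, Tendsto (fun n => w n ζ) atTop (𝓝 (wi ζ)) := fun ζ =>
    tlu_tendsto hwi hw tendsto_const_nhds
  have hwφ : ∀ ζ, φi ζ ≤ wi ζ := fun ζ =>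
    le_of_tendsto_of_tendsto (hφt ζ) (hwt ζ) (hφw.mono fun n hn => hn ζ)
  have hwint : Integrable (fun ζ => ‖f ζ‖ ^ 2 * Real.exp (-wi ζ)) (om E) := by
    refine hfi.mono' ((hfc.norm.pow 2).mul (hwi.neg.rexp)).aestronglyMeasurable ?_
    refine Filter.Eventually.of_forall fun z => ?_
    rw [Real.norm_of_nonneg (by positivity)]
    exact mul_le_mul_of_nonneg_left (Real.exp_le_exp.2 (neg_le_neg (hwφ z))) (by positivity)
  set J := ∫ ζ, ‖f ζ‖ ^ 2 * Real.exp (-wi ζ) ∂(om E) with hJ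
  have hJ0 : 0 ≤ J := integral_nonneg fun z => by positivity
  -- the parameter `t`
  set t : ℝ := min 1 (ε / (8 * (J + 1))) with ht
  have ht0 : 0 < t := lt_min one_pos (by positivity)
  have ht1 : t ≤ 1 := min_le_left _ _
  have htJ : t * J ≤ ε / 8 := by
    have h1 : t ≤ ε / (8 * (J + 1)) := min_le_right _ _
    calc t * J ≤ ε / (8 * (J + 1)) * J := mul_le_mul_of_nonneg_right h1 hJ0
      _ = ε / 8 * (J / (J + 1)) := by field_simp
      _ ≤ ε / 8 * 1 := by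
          apply mul_le_mul_of_nonneg_left _ (by positivity)
          rw [div_le_one (by positivity)]
          linarith
      _ = ε / 8 := mul_one _
  have htI : (1 + t) * (1 + t) * J ≤ J + ε / 2 := by
    have h1 : t * (t * J) ≤ 1 * (ε / 8) :=
      mul_le_mul ht1 htJ (by positivity) zero_le_one
    nlinarith
  -- bound on the ball of radius `r0 + 1`
  obtain ⟨M, hM⟩ := (isCompact_closedBall (0 : E) (r0 + 1)).bddAbove_image hφi.continuousOn
  have hM' : ∀ z : E, ‖z‖ ≤ r0 + 1 → φi z ≤ M := fun z hz =>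
    hM ⟨z, by simpa using hz, rfl⟩
  set κ : ℝ := ((om E) (Metric.closedBall 0 1)).toReal with hκ
  have hκ0 : 0 < κ := ENNReal.toReal_pos
    (Metric.measure_closedBall_pos (om E) 0 one_pos).ne' (measure_closedBall_lt_top).ne
  set ε1 : ℝ := min (κ * ε ^ 2 * Real.exp (-(M + 1))) (ε / 2 / (1 + 1 / t)) with hε1
  have hε10 : 0 < ε1 := lt_min (by positivity) (by positivity)
  -- the radius
  obtain ⟨R, hRge, hRtail⟩ := LowerAux.tail hfi (ε := ε1 / (2 * (C2 + 1))) (by positivity)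
    (max 1 (r0 + 1))
  have hR1 : 1 ≤ R := (le_max_left _ _).trans hRge
  have hRr : r0 + 1 ≤ R := (le_max_right _ _).trans hRge
  have hR0 : 0 < R := by linarith
  have hlog2 : 0 < Real.log 2 := Real.log_pos (by norm_num)
  have hlogt : 0 < Real.log (1 + t) := Real.log_pos (by linarith)
  filter_upwards [hφP, hφC, hP, hgr, hwc, hφw, LowerAux.tlu_ball hφ (2 * R) hlog2,
    LowerAux.tlu_ball hw (2 * R) hlogt,
    LowerAux.levi_lower (hφP.mono fun n hn => hn.continuous) hφi hφ hc hR0 (hcL R hR1)]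
    with n hn1 hn2 hn3 hn4 hn5 hn6 hn7 hn8 hn9
  obtain ⟨h, g, hh, hgc, hg1, hg2, hg3, hi1, hi2, hi3⟩ := hstep R hR1 (φ n) hn1 hn2 hn9 f hf
  have hφc : Continuous (φ n) := hn1.continuous
  -- the `L²` distance
  set F : Set E := {z | R ≤ ‖z‖ ∧ ‖z‖ ≤ 2 * R} with hF
  have hFcl : IsClosed F :=
    (isClosed_le continuous_const continuous_norm).inter
      (isClosed_le continuous_norm continuous_const)
  have hFsub : F ⊆ Metric.closedBall 0 (2 * R) := by
    intro z hz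
    rw [mem_closedBall_zero_iff]
    exact hz.2
  have hFcomp : IsCompact F := (isCompact_closedBall (0 : E) (2 * R)).of_isClosed_subset hFcl hFsub
  have hdist : ∫ z, ‖g z - h z‖ ^ 2 * Real.exp (-φ n z) ∂(om E) ≤ ε1 := by
    have h1 : ∫ z in F, ‖f z‖ ^ 2 * Real.exp (-φ n z) ∂(om E) ≤
        ∫ z in F, 2 * (‖f z‖ ^ 2 * Real.exp (-φi z)) ∂(om E) := by
      apply setIntegral_mono_on _ _ hFcl.measurableSet
      · intro z hz
        have h2 := (abs_lt.1 (hn7 z hz.2)).1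
        have h3 : Real.exp (-φ n z) ≤ 2 * Real.exp (-φi z) := by
          have h4 : (2 : ℝ) = Real.exp (Real.log 2) := (Real.exp_log (by norm_num)).symm
          rw [h4, ← Real.exp_add]
          apply Real.exp_le_exp.2
          linarith
        calc ‖f z‖ ^ 2 * Real.exp (-φ n z) ≤ ‖f z‖ ^ 2 * (2 * Real.exp (-φi z)) :=
              mul_le_mul_of_nonneg_left h3 (by positivity)
          _ = _ := by ring
      · exact ((hfc.norm.pow 2).mul (hφc.neg.rexp)).continuousOn.integrableOn_compact hFcomp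
      · exact (hfi.const_mul 2).integrableOn
    have h2 : ∫ z in F, 2 * (‖f z‖ ^ 2 * Real.exp (-φi z)) ∂(om E) ≤
        2 * ∫ z in {z | R ≤ ‖z‖}, ‖f z‖ ^ 2 * Real.exp (-φi z) ∂(om E) := by
      rw [integral_const_mul]
      apply mul_le_mul_of_nonneg_left _ (by norm_num)
      apply setIntegral_mono_set hfi.integrableOn
      · exact Filter.Eventually.of_forall fun z => by positivity
      · exact Filter.Eventually.of_forall fun z hz => hz.1
    calc _ ≤ C2 * ∫ z in F, ‖f z‖ ^ 2 * Real.exp (-φ n z) ∂(om E) := hi3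
      _ ≤ C2 * (2 * ∫ z in {z | R ≤ ‖z‖}, ‖f z‖ ^ 2 * Real.exp (-φi z) ∂(om E)) :=
          mul_le_mul_of_nonneg_left (h1.trans h2) hC2
      _ ≤ C2 * (2 * (ε1 / (2 * (C2 + 1)))) := by
          apply mul_le_mul_of_nonneg_left _ hC2
          linarith
      _ = ε1 * (C2 / (C2 + 1)) := by field_simp
      _ ≤ ε1 * 1 := by
          apply mul_le_mul_of_nonneg_left _ hε10.le
          rw [div_le_one (by positivity)]
          linarith
      _ = ε1 := mul_one _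
  refine ⟨h, LowerAux.mem_of_int hn3 hn4 hh hi1, ?_, ?_, ?_⟩
  · intro ζ hζ
    have hu : Differentiable ℂ (fun z => h z - f z) := hh.sub hfd
    have h1 := (psh_normSq hu).le_ball ζ one_pos
    have h2 : ((om E) (Metric.closedBall ζ 1)).toReal = κ := by
      rw [Measure.addHaar_closedBall_center]
    rw [h2] at h1
    have h3 : ∫ y in Metric.closedBall ζ 1, ‖h y - f y‖ ^ 2 ∂(om E) ≤
        ∫ y in Metric.closedBall ζ 1, Real.exp (M + 1) *
          (‖g y - h y‖ ^ 2 * Real.exp (-φ n y)) ∂(om E) := by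
      apply setIntegral_mono_on _ _ measurableSet_closedBall
      · intro y hy
        have hy1 : ‖y‖ ≤ r0 + 1 := by
          have h4 : ‖y - ζ‖ ≤ 1 := by simpa [dist_eq_norm] using hy
          calc ‖y‖ = ‖ζ + (y - ζ)‖ := by congr 1; abel
            _ ≤ ‖ζ‖ + ‖y - ζ‖ := norm_add_le _ _
            _ ≤ r0 + 1 := add_le_add hζ h4
        have hy2 : ‖y‖ ≤ R := hy1.trans hRr
        have h4 : φ n y ≤ M + 1 := by
          have h5 := (abs_lt.1 (hn7 y (by linarith))).2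
          have h6 := hM' y hy1
          have h7 : Real.log 2 ≤ 1 := by
            have := Real.log_le_sub_one_of_pos (x := 2) (by norm_num)
            linarith
          linarith
        have h5 : 1 ≤ Real.exp (M + 1) * Real.exp (-φ n y) := by
          rw [← Real.exp_add]
          exact Real.one_le_exp (by linarith)
        rw [hg1 y hy2, norm_sub_rev (f y) (h y)]
        calc ‖h y - f y‖ ^ 2 = ‖h y - f y‖ ^ 2 * 1 := (mul_one _).symm
          _ ≤ ‖h y - f y‖ ^ 2 * (Real.exp (M + 1) * Real.exp (-φ n y)) :=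
              mul_le_mul_of_nonneg_left h5 (by positivity)
          _ = _ := by ring
      · exact ((hu.continuous.norm.pow 2)).continuousOn.integrableOn_compact
          (isCompact_closedBall _ _)
      · exact (hi2.const_mul _).integrableOn
    have h4 : ∫ y in Metric.closedBall ζ 1, Real.exp (M + 1) *
          (‖g y - h y‖ ^ 2 * Real.exp (-φ n y)) ∂(om E) ≤ Real.exp (M + 1) * ε1 := by
      rw [integral_const_mul]
      apply mul_le_mul_of_nonneg_left _ (Real.exp_pos _).le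
      refine (setIntegral_le_integral hi2 ?_).trans hdist
      exact Filter.Eventually.of_forall fun z => by positivity
    have h5 : Real.exp (M + 1) * ε1 ≤ κ * ε ^ 2 := by
      calc Real.exp (M + 1) * ε1 ≤ Real.exp (M + 1) * (κ * ε ^ 2 * Real.exp (-(M + 1))) :=
            mul_le_mul_of_nonneg_left (min_le_left _ _) (Real.exp_pos _).le
        _ = κ * ε ^ 2 * (Real.exp (M + 1) * Real.exp (-(M + 1))) := by ring
        _ = κ * ε ^ 2 := by rw [← Real.exp_add]; simp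
    have h6 : κ * ‖h ζ - f ζ‖ ^ 2 ≤ κ * ε ^ 2 := h1.trans (h3.trans (h4.trans h5))
    have h7 : ‖h ζ - f ζ‖ ^ 2 ≤ ε ^ 2 := le_of_mul_le_mul_left h6 hκ0
    exact (sq_le_sq₀ (norm_nonneg _) hε.le).1 h7
  · refine hi1.mono' ((hh.continuous.norm.pow 2).mul (hn5.neg.rexp)).aestronglyMeasurable ?_
    refine Filter.Eventually.of_forall fun z => ?_
    rw [Real.norm_of_nonneg (by positivity)]
    exact mul_le_mul_of_nonneg_left (Real.exp_le_exp.2 (neg_le_neg (hn6 z))) (by positivity)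
  · have hbd : ∀ z, ‖h z‖ ^ 2 * Real.exp (-w n z) ≤
        (1 + t) * (1 + t) * (‖f z‖ ^ 2 * Real.exp (-wi z)) +
          (1 + 1 / t) * (‖g z - h z‖ ^ 2 * Real.exp (-φ n z)) := by
      intro z
      have h1 : ‖h z‖ ^ 2 ≤ (1 + t) * ‖g z‖ ^ 2 + (1 + 1 / t) * ‖g z - h z‖ ^ 2 := by
        have h2 : ‖h z‖ ≤ ‖g z‖ + ‖g z - h z‖ := by
          calc ‖h z‖ = ‖g z - (g z - h z)‖ := by congr 1; ring
            _ ≤ _ := norm_sub_le _ _
        exact (pow_le_pow_left₀ (norm_nonneg _) h2 2).trans (LowerAux.sq_split ht0 _ _)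
      have h3 : Real.exp (-w n z) ≤ Real.exp (-φ n z) :=
        Real.exp_le_exp.2 (neg_le_neg (hn6 z))
      have h4 : ‖g z‖ ^ 2 * Real.exp (-w n z) ≤ (1 + t) * (‖f z‖ ^ 2 * Real.exp (-wi z)) := by
        by_cases hz : 2 * R ≤ ‖z‖
        · rw [hg3 z hz]
          simp only [norm_zero, ne_eq, OfNat.ofNat_ne_zero, not_false_eq_true, zero_pow, zero_mul]
          positivity
        · have h5 := (abs_lt.1 (hn8 z (not_le.1 hz).le)).1
          have h6 : Real.exp (-w n z) ≤ (1 + t) * Real.exp (-wi z) := by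
            have h7 : 1 + t = Real.exp (Real.log (1 + t)) := (Real.exp_log (by linarith)).symm
            rw [h7, ← Real.exp_add]
            apply Real.exp_le_exp.2
            linarith
          calc ‖g z‖ ^ 2 * Real.exp (-w n z) ≤ ‖f z‖ ^ 2 * ((1 + t) * Real.exp (-wi z)) :=
                mul_le_mul (pow_le_pow_left₀ (norm_nonneg _) (hg2 z) 2) h6 (Real.exp_pos _).le
                  (by positivity)
            _ = _ := by ring
      have ht' : 0 < 1 + 1 / t := by positivity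
      calc ‖h z‖ ^ 2 * Real.exp (-w n z)
          ≤ ((1 + t) * ‖g z‖ ^ 2 + (1 + 1 / t) * ‖g z - h z‖ ^ 2) * Real.exp (-w n z) :=
            mul_le_mul_of_nonneg_right h1 (Real.exp_pos _).le
        _ = (1 + t) * (‖g z‖ ^ 2 * Real.exp (-w n z)) +
            (1 + 1 / t) * (‖g z - h z‖ ^ 2 * Real.exp (-w n z)) := by ring
        _ ≤ (1 + t) * ((1 + t) * (‖f z‖ ^ 2 * Real.exp (-wi z))) +
            (1 + 1 / t) * (‖g z - h z‖ ^ 2 * Real.exp (-φ n z)) := by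
            apply add_le_add
            · exact mul_le_mul_of_nonneg_left h4 (by linarith)
            · apply mul_le_mul_of_nonneg_left _ ht'.le
              exact mul_le_mul_of_nonneg_left h3 (by positivity)
        _ = _ := by ring
    have hI1 : Integrable (fun z => (1 + t) * (1 + t) * (‖f z‖ ^ 2 * Real.exp (-wi z))) (om E) :=
      hwint.const_mul _
    have hI2 : Integrable (fun z => (1 + 1 / t) * (‖g z - h z‖ ^ 2 * Real.exp (-φ n z))) (om E) :=
      hi2.const_mul _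
    have ht' : 0 < 1 + 1 / t := by positivity
    calc ∫ ζ, ‖h ζ‖ ^ 2 * Real.exp (-w n ζ) ∂(om E)
        ≤ ∫ z, ((1 + t) * (1 + t) * (‖f z‖ ^ 2 * Real.exp (-wi z)) +
          (1 + 1 / t) * (‖g z - h z‖ ^ 2 * Real.exp (-φ n z))) ∂(om E) := by
          apply integral_mono_of_nonneg (Filter.Eventually.of_forall fun z => by positivity)
            (hI1.add hI2)
          exact Filter.Eventually.of_forall hbd
      _ = (1 + t) * (1 + t) * J +
          (1 + 1 / t) * ∫ z, ‖g z - h z‖ ^ 2 * Real.exp (-φ n z) ∂(om E) := by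
          rw [integral_add hI1 hI2, integral_const_mul, integral_const_mul]
      _ ≤ (J + ε / 2) + (1 + 1 / t) * (ε / 2 / (1 + 1 / t)) := by
          apply add_le_add htI
          apply mul_le_mul_of_nonneg_left _ ht'.le
          exact hdist.trans (min_le_right _ _)
      _ = J + ε := by
          rw [mul_div_cancel₀ _ ht'.ne']
          ring

end Pool.Agent.Edge
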