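import Pool.Agent.Edge.Moll
import Pool.Agent.Edge.LeviCalc

/-!
# Strict plurisubharmonicity of `phi0` and of quadratic forms at large scales
-/

namespace Pool.Agent.Edge

open MeasureTheory Filter Topology Complex

open scoped ComplexConjugate ContDiff

variable {E : Type*} [NormedAddCommGroup E] [InnerProductSpace ℂ E] [FiniteDimensional ℂ E]
  [MeasurableSpace E] [BorelSpace E]

namespace PhiLeviAux

theorem hasDerivAt_posSq (t : ℝ) :
    HasDerivAt (fun t : ℝ => (max 0 t) ^ 2) (2 * max 0 t) t := by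
  rcases lt_trichotomy t 0 with ht | ht | ht
  · have h1 : (fun t : ℝ => (max 0 t) ^ 2) =ᶠ[𝓝 t] fun _ => 0 := by
      filter_upwards [eventually_lt_nhds ht] with s hs
      rw [max_eq_left hs.le]; simp
    rw [max_eq_left ht.le, mul_zero]
    exact (hasDerivAt_const t (0:ℝ)).congr_of_eventuallyEq h1
  · subst ht
    rw [max_self, mul_zero]
    rw [hasDerivAt_iff_isLittleO_nhds_zero]
    have h1 : (fun h : ℝ => (max 0 (0 + h)) ^ 2 - (max 0 (0:ℝ)) ^ 2 - h • (0:ℝ)) =O[𝓝 0]
        fun h => h ^ 2 := by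
      refine Asymptotics.IsBigO.of_bound 1 (Filter.Eventually.of_forall fun h => ?_)
      simp only [zero_add, max_self, smul_zero, sub_zero, one_mul, norm_pow, Real.norm_eq_abs]
      rw [show (0:ℝ) ^ 2 = 0 by norm_num, sub_zero, abs_pow]
      have : |max 0 h| ≤ |h| := by
        rw [abs_of_nonneg (le_max_left _ _)]
        exact max_le (abs_nonneg _) (le_abs_self _)
      gcongr
    refine h1.trans_isLittleO ?_
    exact Asymptotics.isLittleO_pow_id (by norm_num)
  · have h1 : (fun t : ℝ => (max 0 t) ^ 2) =ᶠ[𝓝 t] fun s => s ^ 2 := by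
      filter_upwards [eventually_gt_nhds ht] with s hs
      rw [max_eq_right hs.le]
    rw [max_eq_right ht.le]
    have h2 := (hasDerivAt_pow 2 t)
    simp only [Nat.cast_ofNat, Nat.add_one_sub_one, pow_one] at h2
    exact h2.congr_of_eventuallyEq h1

/-- the real linear form `Re ⟪m,·⟫`. -/
noncomputable def ell (m : E) : E →L[ℝ] ℝ :=
  Complex.reCLM.comp ((innerSL ℂ m).restrictScalars ℝ)

omit [FiniteDimensional ℂ E] [MeasurableSpace E] [BorelSpace E] in
theorem ell_apply (m v : E) : ell m v = (inner ℂ m v : ℂ).re := rfl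

omit [FiniteDimensional ℂ E] [MeasurableSpace E] [BorelSpace E] in
theorem hasFDerivAt_phi0 (m ζ : E) :
    HasFDerivAt (phi0 m) ((2 : ℝ) • ell ζ - (2 : ℝ) • ((2 * max 0 (ell m ζ)) • ell m)) ζ := by
  have h1 : HasFDerivAt (fun z : E => ‖z‖ ^ 2) ((2 : ℝ) • ell ζ) ζ := by
    letI : InnerProductSpace ℝ E := InnerProductSpace.complexToReal
    have h2 := (hasStrictFDerivAt_norm_sq ζ).hasFDerivAt
    convert h2 using 1
    ext v
    simp [ell_apply, real_inner_eq_re_inner ℂ]
  have h3 : HasFDerivAt (fun z : E => (max 0 (ell m z)) ^ 2) ((2 * max 0 (ell m ζ)) • ell m) ζ :=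
    (hasDerivAt_posSq (ell m ζ)).comp_hasFDerivAt ζ (ell m).hasFDerivAt
  exact h1.sub (h3.const_smul (2:ℝ))

omit [FiniteDimensional ℂ E] [MeasurableSpace E] [BorelSpace E] in
theorem fderiv_phi0_apply (m ζ v : E) :
    fderiv ℝ (phi0 m) ζ v = 2 * (inner ℂ ζ v : ℂ).re -
      4 * max 0 (inner ℂ m ζ : ℂ).re * (inner ℂ m v : ℂ).re := by
  rw [(hasFDerivAt_phi0 m ζ).fderiv]
  simp [ell_apply]
  ring

end PhiLeviAux

open PhiLeviAux

omit [FiniteDimensional ℂ E] [MeasurableSpace E] [BorelSpace E] in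
/-- `phi0 m` is continuous, psh-type regularity: `C^{1,1}`. -/
theorem phi0_C11 {m : E} (hm : ‖m‖ = 1) : C11 8 (phi0 m) := by
  refine ⟨by norm_num, fun z => (hasFDerivAt_phi0 m z).differentiableAt, fun x y => ?_⟩
  refine ContinuousLinearMap.opNorm_le_bound _ (by positivity) fun v => ?_
  rw [_root_.sub_apply, fderiv_phi0_apply, fderiv_phi0_apply, Real.norm_eq_abs]
  have h1 : |(inner ℂ x v : ℂ).re - (inner ℂ y v : ℂ).re| ≤ ‖x - y‖ * ‖v‖ := by
    rw [← Complex.sub_re, ← inner_sub_left]
    exact (Complex.abs_re_le_norm _).trans (norm_inner_le_norm _ _)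
  have h2 : |max 0 (inner ℂ m x : ℂ).re - max 0 (inner ℂ m y : ℂ).re| ≤ ‖x - y‖ := by
    rw [max_comm (0:ℝ), max_comm (0:ℝ)]
    refine (abs_max_sub_max_le_abs _ _ _).trans ?_
    rw [← Complex.sub_re, ← inner_sub_right]
    refine (Complex.abs_re_le_norm _).trans ((norm_inner_le_norm _ _).trans ?_)
    rw [hm, one_mul]
  have h3 : |(inner ℂ m v : ℂ).re| ≤ ‖v‖ := by
    refine (Complex.abs_re_le_norm _).trans ((norm_inner_le_norm _ _).trans ?_)
    rw [hm, one_mul]
  have h4 : |(max 0 (inner ℂ m x : ℂ).re - max 0 (inner ℂ m y : ℂ).re) *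
      (inner ℂ m v : ℂ).re| ≤ ‖x - y‖ * ‖v‖ := by
    rw [abs_mul]
    exact mul_le_mul h2 h3 (abs_nonneg _) (norm_nonneg _)
  have h5 : 0 ≤ ‖x - y‖ * ‖v‖ := by positivity
  rw [abs_le] at h1 h4 ⊢
  constructor <;> nlinarith [h1.1, h1.2, h4.1, h4.2]

omit [FiniteDimensional ℂ E] [MeasurableSpace E] [BorelSpace E] in
theorem phi0_le (m ζ : E) : phi0 m ζ ≤ ‖ζ‖ ^ 2 := by
  unfold phi0
  nlinarith [sq_nonneg (max 0 (inner ℂ m ζ : ℂ).re)]

namespace PhiLeviAux

theorem C11.fderiv_moll_apply {K : ℝ} {f : E → ℝ} (hf : C11 K f) (s : ℝ) (z v : E) :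
    fderiv ℝ (moll s f) z v = ∫ y, rho y * fderiv ℝ f (z - s • y) v ∂(om E) := by
  rw [C11.fderiv_moll hf s z]
  have hint : Integrable (fun y => rho y • fderiv ℝ f (z - s • y)) (om E) := by
    refine Continuous.integrable_of_hasCompactSupport ?_ ?_
    · exact rho_contDiff.continuous.smul
        (hf.continuous_fderiv.comp (continuous_const.sub (continuous_const_smul s)))
    · exact rho_hasCompactSupport.smul_right
  rw [ContinuousLinearMap.integral_apply hint]
  rfl

/-- the mass of the mollifier in the half space `Re⟪m,y⟫ ≥ 3/4`. -/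
noncomputable def cap (m : E) : ℝ := ∫ y in {y : E | 3 / 4 ≤ (inner ℂ m y : ℂ).re}, rho y ∂(om E)

omit [FiniteDimensional ℂ E] [BorelSpace E] [MeasurableSpace E] in
theorem isClosed_cap (m : E) : IsClosed {y : E | 3 / 4 ≤ (inner ℂ m y : ℂ).re} :=
  isClosed_le continuous_const (ell m).continuous

theorem cap_pos {m : E} (hm : ‖m‖ = 1) : 0 < cap m := by
  unfold cap
  rw [setIntegral_pos_iff_support_of_nonneg_ae
    (Filter.Eventually.of_forall fun y => rho_nonneg y) rho_integrable.integrableOn]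
  have hopen : IsOpen ({y : E | 3 / 4 < (inner ℂ m y : ℂ).re} ∩ Metric.ball (0:E) 1) :=
    (isOpen_lt continuous_const (ell m).continuous).inter Metric.isOpen_ball
  have hne : ({y : E | 3 / 4 < (inner ℂ m y : ℂ).re} ∩ Metric.ball (0:E) 1).Nonempty := by
    refine ⟨((7 / 8 : ℝ) : ℂ) • m, ?_, ?_⟩
    · simp only [Set.mem_ofPred_eq]
      rw [inner_smul_right, inner_self_eq_norm_sq_to_K, hm]
      norm_num
    · simp only [Metric.mem_ball, dist_zero_right]
      rw [norm_smul, hm, mul_one, Complex.norm_real]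
      norm_num
  refine (hopen.measure_pos (om E) hne).trans_le (measure_mono ?_)
  rintro y ⟨hy1, hy2⟩
  refine ⟨?_, ?_⟩
  · simp only [Function.mem_support]
    exact (rho_pos (by simpa using hy2)).ne'
  · have h1 : (3 / 4 : ℝ) < (inner ℂ m y : ℂ).re := hy1
    exact h1.le

theorem compl_cap (m : E) :
    ∫ y in {y : E | 3 / 4 ≤ (inner ℂ m y : ℂ).re}ᶜ, rho y ∂(om E) = 1 - cap m := by
  have h1 := integral_add_compl (μ := om E) (isClosed_cap m).measurableSet
    (rho_integrable (E := E))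
  rw [integral_rho] at h1
  unfold cap
  linarith

theorem cap_le_one {m : E} : cap m ≤ 1 := by
  have h1 := compl_cap m
  have h2 : 0 ≤ ∫ y in {y : E | 3 / 4 ≤ (inner ℂ m y : ℂ).re}ᶜ, rho y ∂(om E) :=
    integral_nonneg fun y => rho_nonneg y
  linarith

/-- elementary inequality for the positive part. -/
theorem pos_part_ineq (a t p : ℝ) (ht : 0 ≤ t) :
    a * (max 0 (p + t * a) - max 0 p) ≤ t * a ^ 2 := by
  rcases le_total 0 a with ha | ha
  · have h1 : 0 ≤ t * a := by positivity
    have h2 : max 0 (p + t * a) - max 0 p ≤ t * a := by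
      rcases le_total 0 p with hp | hp
      · rw [max_eq_right hp, max_eq_right (by linarith)]; linarith
      · rw [max_eq_left hp]
        rcases le_total 0 (p + t * a) with hq | hq
        · rw [max_eq_right hq]; linarith
        · rw [max_eq_left hq]; linarith
    nlinarith
  · have h1 : t * a ≤ 0 := by nlinarith
    have h2 : t * a ≤ max 0 (p + t * a) - max 0 p := by
      rcases le_total 0 (p + t * a) with hq | hq
      · rw [max_eq_right hq, max_eq_right (by linarith)]; linarith
      · rw [max_eq_left hq]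
        rcases le_total 0 p with hp | hp
        · rw [max_eq_right hp]; linarith
        · rw [max_eq_left hp]; linarith
    nlinarith

/-- the key lower bound of the second derivative. -/
theorem second_lower {m : E} (hm : ‖m‖ = 1) {R : ℝ} (hR : 1 ≤ R) {ζ : E} (hζ : ‖ζ‖ ≤ 2 * R)
    (v : E) : 2 * ‖v‖ ^ 2 - 4 * (1 - cap m) * (inner ℂ m v : ℂ).re ^ 2 ≤
      fderiv ℝ (fderiv ℝ (moll (4 * R) (phi0 m))) ζ v v := by
  set a : ℝ := (inner ℂ m v : ℂ).re with ha
  set s : ℝ := 4 * R with hs
  have hspos : 0 < s := by linarith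
  have hC := phi0_C11 hm
  have hcd : ContDiff ℝ ∞ (moll s (phi0 m)) :=
    moll_contDiff hspos (hC.continuous.locallyIntegrable)
  have hfd : HasFDerivAt (fderiv ℝ (moll s (phi0 m)))
      (fderiv ℝ (fderiv ℝ (moll s (phi0 m))) ζ) ζ := by
    have h1 : ContDiff ℝ 1 (fderiv ℝ (moll s (phi0 m))) := by
      exact ContDiff.fderiv_right (m := 1) (contDiff_infty.1 hcd 2) (by norm_num)
    exact (h1.differentiable (by norm_num) ζ).hasFDerivAt
  have hline : HasDerivAt (fun t : ℝ => ζ + t • v) v 0 := by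
    have := ((hasDerivAt_id (0:ℝ)).smul_const v).const_add ζ
    simpa using this
  have hder : HasDerivAt (fun t : ℝ => fderiv ℝ (moll s (phi0 m)) (ζ + t • v) v)
      (fderiv ℝ (fderiv ℝ (moll s (phi0 m))) ζ v v) 0 := by
    have h0 : ζ + (0:ℝ) • v = ζ := by simp
    have h1 := HasFDerivAt.comp_hasDerivAt (0:ℝ) (by rw [h0]; exact hfd) hline
    exact ((ContinuousLinearMap.apply ℝ ℝ v).hasFDerivAt.comp_hasDerivAt (0:ℝ) h1)
  have hlim := hder.tendsto_slope_zero_right
  refine ge_of_tendsto hlim ?_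
  have hsmall : ∀ᶠ t : ℝ in 𝓝[>] 0, t * |a| < R := by
    have h1 : Tendsto (fun t : ℝ => t * |a|) (𝓝 0) (𝓝 (0 * |a|)) :=
      (continuous_id.mul continuous_const).tendsto 0
    rw [zero_mul] at h1
    exact (h1.mono_left nhdsWithin_le_nhds).eventually_lt_const (by linarith)
  filter_upwards [hsmall, self_mem_nhdsWithin] with t ht ht0
  have ht0' : (0:ℝ) < t := ht0
  simp only [zero_add, zero_smul, add_zero, smul_eq_mul]
  rw [C11.fderiv_moll_apply hC, C11.fderiv_moll_apply hC]
  have hcont : ∀ z : E, Integrable (fun y => rho y * fderiv ℝ (phi0 m) (z - s • y) v) (om E) := by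
    intro z
    refine Continuous.integrable_of_hasCompactSupport ?_ ?_
    · exact rho_contDiff.continuous.mul
        ((hC.continuous_fderiv.comp (continuous_const.sub (continuous_const_smul s))).clm_apply
          continuous_const)
    · exact rho_hasCompactSupport.mul_right
  rw [← integral_sub (hcont _) (hcont _)]
  -- pointwise lower bound
  set S : Set E := {y : E | 3 / 4 ≤ (inner ℂ m y : ℂ).re}ᶜ with hS
  have hSm : MeasurableSet S := (isClosed_cap m).measurableSet.compl
  have hpt : ∀ y : E, rho y * (2 * (t * ‖v‖ ^ 2)) - S.indicator (fun y => rho y * (4 * (t * a ^ 2))) y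
      ≤ rho y * fderiv ℝ (phi0 m) (ζ + t • v - s • y) v -
        rho y * fderiv ℝ (phi0 m) (ζ - s • y) v := by
    intro y
    rw [fderiv_phi0_apply, fderiv_phi0_apply]
    have e1 : (inner ℂ (ζ + t • v - s • y) v : ℂ).re =
        (inner ℂ (ζ - s • y) v : ℂ).re + t * ‖v‖ ^ 2 := by
      have : ζ + t • v - s • y = (ζ - s • y) + (t : ℂ) • v := by
        rw [Complex.coe_smul]; abel
      rw [this, inner_add_left, Complex.add_re, inner_smul_left, Complex.conj_ofReal,
        Complex.re_ofReal_mul, inner_self_eq_norm_sq_to_K]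
      norm_cast
    have e2 : (inner ℂ m (ζ + t • v - s • y) : ℂ).re =
        (inner ℂ m (ζ - s • y) : ℂ).re + t * a := by
      have : ζ + t • v - s • y = (ζ - s • y) + (t : ℂ) • v := by
        rw [Complex.coe_smul]; abel
      rw [this, inner_add_right, Complex.add_re, inner_smul_right, Complex.re_ofReal_mul]
    rw [e1, e2]
    set p : ℝ := (inner ℂ m (ζ - s • y) : ℂ).re with hp
    have e3 : p = (inner ℂ m ζ : ℂ).re - s * (inner ℂ m y : ℂ).re := by
      rw [hp]
      have : ζ - s • y = ζ - (s : ℂ) • y := by rw [Complex.coe_smul]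
      rw [this, inner_sub_right, Complex.sub_re, inner_smul_right, Complex.re_ofReal_mul]
    by_cases hy : y ∈ S
    · rw [Set.indicator_of_mem hy]
      have h1 := pos_part_ineq a t p ht0'.le
      have h2 := rho_nonneg y
      nlinarith [mul_le_mul_of_nonneg_left h1 h2]
    · rw [Set.indicator_of_notMem hy]
      have hy' : 3 / 4 ≤ (inner ℂ m y : ℂ).re := by
        simpa [hS] using hy
      have hτ : (inner ℂ m ζ : ℂ).re ≤ 2 * R := by
        refine (le_abs_self _).trans ((Complex.abs_re_le_norm _).trans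
          ((norm_inner_le_norm _ _).trans ?_))
        rw [hm, one_mul]; exact hζ
      have hta : t * a < R := lt_of_le_of_lt (mul_le_mul_of_nonneg_left (le_abs_self a) ht0'.le) ht
      have h1 : p ≤ 0 := by
        rw [e3, hs]; nlinarith
      have h2 : p + t * a ≤ 0 := by
        rw [e3, hs]; nlinarith
      rw [max_eq_left h1, max_eq_left h2]
      have h3 := rho_nonneg y
      nlinarith
  have hI1 : Integrable (fun y : E => rho y * (2 * (t * ‖v‖ ^ 2))) (om E) :=
    rho_integrable.mul_const _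
  have hI2 : Integrable (S.indicator (fun y : E => rho y * (4 * (t * a ^ 2)))) (om E) :=
    (rho_integrable.mul_const _).indicator hSm
  have hle := integral_mono (hI1.sub hI2) ((hcont _).sub (hcont _)) hpt
  have hval : ∫ y, (rho y * (2 * (t * ‖v‖ ^ 2)) -
      S.indicator (fun y => rho y * (4 * (t * a ^ 2))) y) ∂(om E) =
      2 * (t * ‖v‖ ^ 2) - (1 - cap m) * (4 * (t * a ^ 2)) := by
    rw [integral_sub hI1 hI2, integral_indicator hSm, integral_mul_const, integral_mul_const,
      integral_rho, one_mul, hS, compl_cap]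
  have hle' : 2 * (t * ‖v‖ ^ 2) - (1 - cap m) * (4 * (t * a ^ 2)) ≤
      ∫ y, (rho y * fderiv ℝ (phi0 m) (ζ + t • v - s • y) v -
        rho y * fderiv ℝ (phi0 m) (ζ - s • y) v) ∂(om E) := by
    rw [← hval]; exact hle
  calc 2 * ‖v‖ ^ 2 - 4 * (1 - cap m) * a ^ 2
      = t⁻¹ * (2 * (t * ‖v‖ ^ 2) - (1 - cap m) * (4 * (t * a ^ 2))) := by
        field_simp
    _ ≤ _ := mul_le_mul_of_nonneg_left hle' (inv_nonneg.2 ht0'.le)

end PhiLeviAux

theorem phi0_levi {m : E} (hm : ‖m‖ = 1) :
    ∃ c : ℝ, 0 < c ∧ ∀ R : ℝ, 1 ≤ R → ∀ ζ : E, ‖ζ‖ ≤ 2 * R → ∀ v : E,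
      c * ‖v‖ ^ 2 ≤ Levi (moll (4 * R) (phi0 m)) ζ v := by
  refine ⟨4 * cap m, by have := cap_pos hm; linarith, fun R hR ζ hζ v => ?_⟩
  have h1 := second_lower hm hR hζ v
  have h2 := second_lower hm hR hζ (I • v)
  have h3 : (inner ℂ m (I • v) : ℂ).re = -(inner ℂ m v : ℂ).im := by
    rw [inner_smul_right]; simp
  have h4 : ‖I • v‖ = ‖v‖ := by rw [norm_smul]; simp
  rw [h3, h4] at h2
  have h5 : (inner ℂ m v : ℂ).re ^ 2 + (inner ℂ m v : ℂ).im ^ 2 ≤ ‖v‖ ^ 2 := by
    have h6 : ‖(inner ℂ m v : ℂ)‖ ≤ ‖v‖ := by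
      refine (norm_inner_le_norm _ _).trans ?_
      rw [hm, one_mul]
    have h7 : ‖(inner ℂ m v : ℂ)‖ ^ 2 = (inner ℂ m v : ℂ).re ^ 2 + (inner ℂ m v : ℂ).im ^ 2 := by
      rw [← Complex.normSq_eq_norm_sq, Complex.normSq_apply]; ring
    rw [← h7]
    gcongr
  have h8 := cap_le_one (m := m)
  unfold Levi
  nlinarith [mul_le_mul_of_nonneg_left h5 (by linarith : (0:ℝ) ≤ 4 * (1 - cap m))]

namespace PhiLeviAux

/-- the quadratic form as a bilinear form. -/
noncomputable def bil (B : E →L[ℝ] E →L[ℝ] ℝ) (u v : E) : ℝ :=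
  (1 / 4) * (B u v + B (I • u) (I • v))

variable {B : E →L[ℝ] E →L[ℝ] ℝ}

omit [FiniteDimensional ℂ E] [MeasurableSpace E] [BorelSpace E] in
theorem bil_continuous (B : E →L[ℝ] E →L[ℝ] ℝ) : Continuous (fun p : E × E => bil B p.1 p.2) := by
  unfold bil
  have h1 : Continuous (fun p : E × E => B p.1 p.2) :=
    B.continuous.comp continuous_fst |>.clm_apply continuous_snd
  have h2 : Continuous (fun p : E × E => B (I • p.1) (I • p.2)) :=
    (B.continuous.comp (continuous_fst.const_smul I)).clm_apply (continuous_snd.const_smul I)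
  exact continuous_const.mul (h1.add h2)

omit [FiniteDimensional ℂ E] [MeasurableSpace E] [BorelSpace E] in
theorem bil_I (u v : E) : bil B (I • u) (I • v) = bil B u v := by
  unfold bil
  rw [smul_smul, smul_smul, I_mul_I]
  simp only [neg_smul, one_smul, map_neg, _root_.neg_apply, neg_neg]
  ring

omit [FiniteDimensional ℂ E] [MeasurableSpace E] [BorelSpace E] in
theorem bil_expand (hB : ∀ u v, B u v = B v u) (z y : E) (t : ℝ) :
    bil B (z - t • y) (z - t • y) = bil B z z - 2 * t * bil B z y + t ^ 2 * bil B y y := by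
  unfold bil
  have h1 : I • (t • y) = t • (I • y) := smul_comm _ _ _
  simp only [map_sub, map_smul, _root_.sub_apply, _root_.smul_apply,
    smul_eq_mul, smul_sub, h1]
  rw [hB y z, hB (I • y) (I • z)]
  ring

omit [FiniteDimensional ℂ E] [MeasurableSpace E] [BorelSpace E] in
theorem bil_neg (z y : E) : bil B z (-y) = -bil B z y := by
  unfold bil
  simp only [smul_neg, map_neg]
  ring

theorem moll_bil (hB : ∀ u v, B u v = B v u) (s : ℝ) :
    ∃ c : ℝ, moll s (fun z : E => bil B z z) = fun z => bil B z z + c := by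
  refine ⟨s ^ 2 * ∫ y, rho y * bil B y y ∂(om E), funext fun z => ?_⟩
  unfold moll
  have hc : Continuous (fun y : E => bil B y y) :=
    (bil_continuous B).comp (continuous_id.prodMk continuous_id)
  have hc2 : Continuous (fun y : E => bil B z y) :=
    (bil_continuous B).comp (continuous_const.prodMk continuous_id)
  have hI1 : Integrable (fun y : E => rho y * bil B z z) (om E) := rho_integrable.mul_const _
  have hI2 : Integrable (fun y : E => rho y * bil B z y) (om E) :=
    (rho_contDiff.continuous.mul hc2).integrable_of_hasCompactSupport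
      rho_hasCompactSupport.mul_right
  have hI3 : Integrable (fun y : E => rho y * bil B y y) (om E) :=
    (rho_contDiff.continuous.mul hc).integrable_of_hasCompactSupport
      rho_hasCompactSupport.mul_right
  have h1 : (fun y : E => rho y • bil B (z - s • y) (z - s • y)) = fun y =>
      (rho y * bil B z z - (2 * s) * (rho y * bil B z y)) + s ^ 2 * (rho y * bil B y y) := by
    funext y
    rw [bil_expand hB, smul_eq_mul]
    ring
  have hodd : ∫ y, rho y * bil B z y ∂(om E) = 0 := by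
    have h2 := integral_neg_eq_self (fun y : E => rho y * bil B z y) (om E)
    have h3 : (fun y : E => rho (-y) * bil B z (-y)) = fun y => -(rho y * bil B z y) := by
      funext y
      rw [bil_neg, rho_radial (norm_neg y)]
      ring
    rw [h3, integral_neg] at h2
    linarith
  have e1 := integral_add (hI1.sub (hI2.const_mul (2 * s))) (hI3.const_mul (s ^ 2))
  have e2 := integral_sub hI1 (hI2.const_mul (2 * s))
  simp only [Pi.sub_apply] at e1
  rw [h1, e1, e2, integral_const_mul, integral_const_mul, hodd,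
    integral_mul_const, integral_rho]
  ring

omit [FiniteDimensional ℂ E] [MeasurableSpace E] [BorelSpace E] in
/-- the Levi form of a quadratic form. -/
theorem levi_bil (hB : ∀ u v, B u v = B v u) (c : ℝ) (z v : E) :
    Levi (fun z : E => bil B z z + c) z v = B v v + B (I • v) (I • v) := by
  -- the bilinear form as a continuous linear map
  let J : E →L[ℝ] E := ((I : ℂ) • ContinuousLinearMap.id ℂ E).restrictScalars ℝ
  have hJ : ∀ u, J u = I • u := fun u => rfl
  let b : E →L[ℝ] E →L[ℝ] ℝ := (1 / 4 : ℝ) • (B + (B.bilinearComp J J))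
  have hb : ∀ u v, b u v = bil B u v := fun u v => by
    simp [b, bil, hJ]
    ring
  have hbs : ∀ u v, b u v = b v u := fun u v => by
    rw [hb, hb]; unfold bil; rw [hB u v, hB (I • u) (I • v)]
  have h1 : ∀ z : E, HasFDerivAt (fun z : E => bil B z z + c) ((2:ℝ) • b z) z := by
    intro z
    have h2 := (b.hasFDerivAt (x := z)).clm_apply (hasFDerivAt_id z)
    have h3 : (fun z : E => bil B z z + c) = fun z => b z z + c := by
      funext z; rw [hb]
    rw [h3]
    refine (h2.add_const c).congr_fderiv ?_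
    ext u
    have h6 := hbs u z
    simp only [id_eq, ContinuousLinearMap.comp_id, _root_.add_apply,
      ContinuousLinearMap.flip_apply, _root_.smul_apply, smul_eq_mul]
    rw [h6]
    ring
  have h4 : fderiv ℝ (fun z : E => bil B z z + c) = fun z => ((2:ℝ) • b) z := by
    funext z
    rw [(h1 z).fderiv]
    rfl
  have h5 : ∀ u : E, fderiv ℝ (fderiv ℝ (fun z : E => bil B z z + c)) z u u = 2 * bil B u u := by
    intro u
    rw [h4]
    have : fderiv ℝ (fun z => ((2:ℝ) • b) z) z = (2:ℝ) • b := ((2:ℝ) • b).hasFDerivAt.fderiv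
    rw [this]
    simp [hb]
  unfold Levi
  rw [h5, h5, bil_I]
  unfold bil
  ring

omit [MeasurableSpace E] [BorelSpace E] in
/-- coercivity of a positive continuous quadratic form. -/
theorem coercive (B : E →L[ℝ] E →L[ℝ] ℝ)
    (hs : ∀ v : E, v ≠ 0 → 0 < B v v + B (I • v) (I • v)) :
    ∃ c : ℝ, 0 < c ∧ ∀ v : E, c * ‖v‖ ^ 2 ≤ B v v + B (I • v) (I • v) := by
  have hcont : Continuous (fun v : E => B v v + B (I • v) (I • v)) := by
    have h1 : Continuous (fun v : E => B v v) := B.continuous.clm_apply continuous_id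
    have h2 : Continuous (fun v : E => B (I • v) (I • v)) :=
      (B.continuous.comp (continuous_id.const_smul I)).clm_apply (continuous_id.const_smul I)
    exact h1.add h2
  by_cases hne : (Metric.sphere (0:E) 1).Nonempty
  · haveI : ProperSpace E := FiniteDimensional.proper ℂ E
    obtain ⟨x, hx, hmin⟩ := (isCompact_sphere (0:E) 1).exists_isMinOn hne hcont.continuousOn
    have hx1 : ‖x‖ = 1 := by simpa using hx
    have hx0 : x ≠ 0 := by
      intro h; rw [h, norm_zero] at hx1; norm_num at hx1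
    refine ⟨_, hs x hx0, fun v => ?_⟩
    by_cases hv : v = 0
    · subst hv; simp
    have hn : 0 < ‖v‖ := norm_pos_iff.2 hv
    have h1 := hmin (a := (‖v‖⁻¹ : ℝ) • v) (by
      simp only [mem_sphere_iff_norm, sub_zero]
      rw [norm_smul, norm_inv, norm_norm, inv_mul_cancel₀ hn.ne'])
    simp only [Set.mem_ofPred_eq] at h1
    have h2 : I • ((‖v‖⁻¹ : ℝ) • v) = (‖v‖⁻¹ : ℝ) • (I • v) := smul_comm _ _ _
    rw [h2] at h1
    simp only [map_smul, _root_.smul_apply, smul_eq_mul] at h1
    have h3 : ‖v‖⁻¹ * (‖v‖⁻¹ * B v v) + ‖v‖⁻¹ * (‖v‖⁻¹ * B (I • v) (I • v)) =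
        (B v v + B (I • v) (I • v)) / ‖v‖ ^ 2 := by
      field_simp
    rw [h3, le_div_iff₀ (by positivity)] at h1
    exact h1
  · refine ⟨1, one_pos, fun v => ?_⟩
    have hv : v = 0 := by
      by_contra h
      have hn : 0 < ‖v‖ := norm_pos_iff.2 h
      exact hne ⟨(‖v‖⁻¹ : ℝ) • v, by
        simp only [mem_sphere_iff_norm, sub_zero]
        rw [norm_smul, norm_inv, norm_norm, inv_mul_cancel₀ hn.ne']⟩
    subst hv
    simp

omit [FiniteDimensional ℂ E] [MeasurableSpace E] [BorelSpace E] in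
theorem symm_second {Q : E → ℝ} (hQ : ContDiff ℝ 2 Q) (a u v : E) :
    fderiv ℝ (fderiv ℝ Q) a u v = fderiv ℝ (fderiv ℝ Q) a v u := by
  have h := (hQ.contDiffAt (x := a)).isSymmSndFDerivAt (by simp)
  exact h u v

end PhiLeviAux

/-- The same for the quadratic form `¼ Levi Q a ·`: `Levi (moll s q) ζ v = Levi Q a v`, where
`q(ζ) = ¼ Levi Q a ζ` (`moll s q = q + const`, `Levi q ζ v = Levi Q a v`). -/
theorem quad_levi {Q : E → ℝ} (hQ : ContDiff ℝ 2 Q) (a : E)
    (hs : ∀ v : E, v ≠ 0 → 0 < Levi Q a v) :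
    ∃ c : ℝ, 0 < c ∧ ∀ R : ℝ, 1 ≤ R → ∀ ζ : E, ‖ζ‖ ≤ 2 * R → ∀ v : E,
      c * ‖v‖ ^ 2 ≤ Levi (moll (4 * R) (fun ζ => (1 / 4) * Levi Q a ζ)) ζ v := by
  set B := fderiv ℝ (fderiv ℝ Q) a with hBdef
  obtain ⟨c, hc, hcv⟩ := coercive B hs
  refine ⟨c, hc, fun R hR ζ hζ v => ?_⟩
  have hB : ∀ u v, B u v = B v u := symm_second hQ a
  obtain ⟨c0, hc0⟩ := moll_bil hB (4 * R)
  have h1 : (fun ζ : E => (1 / 4) * Levi Q a ζ) = fun z => bil B z z := rfl
  rw [h1, hc0, levi_bil hB]
  exact hcv v

/-- `∫ e^{-¼ Levi Q a ζ} < ∞` and continuity of the form. -/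
theorem quad_integrable {Q : E → ℝ} (hQ : ContDiff ℝ 2 Q) (a : E)
    (hs : ∀ v : E, v ≠ 0 → 0 < Levi Q a v) :
    Continuous (fun ζ => (1 / 4) * Levi Q a ζ) ∧
      Integrable (fun ζ => Real.exp (-((1 / 4) * Levi Q a ζ))) (om E) := by
  set B := fderiv ℝ (fderiv ℝ Q) a with hBdef
  have h1 : (fun ζ : E => (1 / 4) * Levi Q a ζ) = fun z => bil B z z := rfl
  have hcont : Continuous (fun ζ => (1 / 4) * Levi Q a ζ) := by
    rw [h1]
    exact (bil_continuous B).comp (continuous_id.prodMk continuous_id)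
  refine ⟨hcont, ?_⟩
  obtain ⟨c, hc, hcv⟩ := coercive B hs
  have hg : Integrable (fun z : E => Real.exp (-(c / 4) * ‖z‖ ^ 2)) (om E) := by
    letI : InnerProductSpace ℝ E := InnerProductSpace.complexToReal
    have h := GaussianFourier.integrable_cexp_neg_mul_sq_norm_add (V := E)
      (b := ((c / 4 : ℝ) : ℂ)) (by simp; positivity) 0 0
    have h2 : Integrable (fun z : E => Real.exp (-(c / 4) * ‖z‖ ^ 2)) (volume : Measure E) := by
      refine h.norm.congr (Filter.Eventually.of_forall fun z => ?_)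
      simp only [Complex.norm_exp]
      congr 1
      simp [← Complex.ofReal_pow]
    rw [Measure.isAddLeftInvariant_eq_smul (om E) (volume : Measure E)]
    exact h2.smul_measure_nnreal
  refine hg.mono' (Real.continuous_exp.comp hcont.neg).aestronglyMeasurable
    (Filter.Eventually.of_forall fun z => ?_)
  rw [Real.norm_eq_abs, abs_of_pos (Real.exp_pos _)]
  gcongr
  have h2 := hcv z
  have h3 : Levi Q a z = B z z + B (I • z) (I • z) := rfl
  rw [h3]
  linarith

end Pool.Agent.Edge
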