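import Pool.Agent.Edge.RKBasic
import Pool.Agent.Edge.BlowBulk
import Pool.Agent.Edge.Lower
import Pool.Agent.Edge.PhiLevi

/-!
# The droplet is the contact set (up to null sets)

`d = finrank ℂ E`, `N n ≍ n^d`.

(a) Off the contact set: `env Q z < Q z` gives `k_n(z,z)e^{-nQ(z)}/N_n ≤ (C/c₁)e^{-n(Q-env Q)(z)} → 0`
    (`kernel_upper`).
(b) For a.e. `a` with `env Q a = Q a` (`blow_bulk`) apply `lower_approx` with `φ n = bl Q (env Q) a n`,
    `w n = bl Q Q a n`, `φi = wi = ¼ Levi Q a ·`, `P n = Pn Q a n`, `f = 1`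
    (`quad_levi`, `quad_integrable`, `bl_env_psh`, `bl_env_C11`, `bl_env_le`, `bl_env_growth`,
    `bl_self_tendsto`), `r0 = 0`, `ε = 1/2`: for large `n` there is `g ∈ Vsp n (Pn Q a n)` with
    `|g(0)| ≥ 1/2`, `∫|g|²e^{-w n} ≤ B`.  `isRK_scaled`, `IsRK.bound`, `Lsc_zero`:
    `1/4 ≤ |g(0)|² ≤ n^{-d}k_n(a,a)e^{-nQ(a)} B`.  So `k_n(a,a)e^{-nQ(a)}/N_n ≥ 1/(4 B c₂) > 0`.
(c) `hlim` gives a subsequence along which `k_n(z,z)e^{-nQ(z)}/N_n → 1_S(z) D(z)` for a.e. `z`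
    (`tendstoInMeasure_of_tendsto_eLpNorm`, `TendstoInMeasure.exists_seq_tendsto_ae`).
    Since `D > 0`: off the contact set the limit `0` forces `z ∉ S`; at a.e. contact point the
    limit is positive, so `z ∈ S`.
-/

namespace Pool.Agent.Edge

open MeasureTheory Filter Topology Complex

open scoped ComplexConjugate

variable {E : Type*} [NormedAddCommGroup E] [InnerProductSpace ℂ E] [FiniteDimensional ℂ E]
  [MeasurableSpace E] [BorelSpace E]

/-- Off the contact set the weighted kernel divided by `N n` tends to `0`. -/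
theorem kernel_off_contact {Q : E → ℝ} (hQ : IsPot Q) {k : ℕ → E → E → ℂ}
    (hk : ∀ᶠ (n : ℕ) in atTop, IsRK (Vsp n (0 : E → ℂ)) (fun z => n * Q z) (k n))
    {N : ℕ → ℝ} {c₁ : ℝ} (hc₁ : 0 < c₁)
    (hN : ∀ᶠ (n : ℕ) in atTop, c₁ * (n : ℝ) ^ Module.finrank ℂ E ≤ N n) {z : E}
    (hz : env Q z < Q z) :
    Tendsto (fun n : ℕ => (k n z z).re * Real.exp (-(n * Q z)) / N n) atTop (𝓝 0) := by
  obtain ⟨C, hC, hup⟩ := kernel_upper (E := E) hQ
  have hlim : Tendsto (fun n : ℕ => C / c₁ * Real.exp (-((Q z - env Q z) * n))) atTop (𝓝 0) := by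
    have h1 : Tendsto (fun n : ℕ => (Q z - env Q z) * (n : ℝ)) atTop atTop :=
      tendsto_natCast_atTop_atTop.const_mul_atTop (by linarith)
    have h2 := (Real.tendsto_exp_neg_atTop_nhds_zero.comp h1).const_mul (C / c₁)
    simpa using h2
  refine tendsto_of_tendsto_of_tendsto_of_le_of_le' tendsto_const_nhds hlim ?_ ?_
  · filter_upwards [hk, hN, eventually_ge_atTop 1] with n hn hNn hn1
    have hn' : (0:ℝ) < n := by exact_mod_cast hn1
    have hNp : 0 < N n := lt_of_lt_of_le (by positivity) hNn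
    have := hn.self_nonneg z
    positivity
  · filter_upwards [hk, hN, eventually_ge_atTop 1] with n hn hNn hn1
    have hn' : (0:ℝ) < n := by exact_mod_cast hn1
    have hc : 0 < c₁ * (n : ℝ) ^ Module.finrank ℂ E := by positivity
    have hNp : 0 < N n := lt_of_lt_of_le hc hNn
    have h1 := (hup n hn1 (k n) hn).1 z
    have h0 := hn.self_nonneg z
    calc (k n z z).re * Real.exp (-(n * Q z)) / N n
        ≤ (C * (n : ℝ) ^ Module.finrank ℂ E * Real.exp (n * env Q z)) * Real.exp (-(n * Q z)) /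
            (c₁ * (n : ℝ) ^ Module.finrank ℂ E) := by
          gcongr
      _ = C / c₁ * (Real.exp (n * env Q z) * Real.exp (-(n * Q z))) := by
          field_simp
      _ = C / c₁ * Real.exp (-((Q z - env Q z) * n)) := by
          rw [← Real.exp_add]
          congr 2
          ring

/-- At almost every contact point the weighted kernel divided by `N n` is bounded below. -/
theorem kernel_on_contact [Nontrivial E] {Q : E → ℝ} (hQ : IsPot Q)
    (hs : ∀ z v : E, v ≠ 0 → 0 < Levi Q z v) {k : ℕ → E → E → ℂ}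
    (hk : ∀ᶠ (n : ℕ) in atTop, IsRK (Vsp n (0 : E → ℂ)) (fun z => n * Q z) (k n))
    {N : ℕ → ℝ} {c₁ c₂ : ℝ} (hc₁ : 0 < c₁)
    (hN : ∀ᶠ (n : ℕ) in atTop, c₁ * (n : ℝ) ^ Module.finrank ℂ E ≤ N n ∧
      N n ≤ c₂ * (n : ℝ) ^ Module.finrank ℂ E) {a : E}
    (hblow : TendstoLocallyUniformly (fun n => bl Q (env Q) a n)
      (fun ζ => (1 / 4) * Levi Q a ζ) atTop) :
    ∃ c : ℝ, 0 < c ∧ ∀ᶠ (n : ℕ) in atTop, c ≤ (k n a a).re * Real.exp (-(n * Q a)) / N n := by
  obtain ⟨K, hK⟩ := bl_env_C11 hQ a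
  have hne : ∀ᶠ (n : ℕ) in atTop, n ≠ 0 := eventually_ne_atTop 0
  obtain ⟨hqc, hqi⟩ := quad_integrable hQ.cd a (hs a)
  set B : ℝ := (∫ ζ, ‖(1:ℂ)‖ ^ 2 * Real.exp (-((1 / 4) * Levi Q a ζ)) ∂(om E)) + 1 / 2 with hB
  have hBpos : 0 < B := by
    have : 0 ≤ ∫ ζ, ‖(1:ℂ)‖ ^ 2 * Real.exp (-((1 / 4) * Levi Q a ζ)) ∂(om E) :=
      integral_nonneg fun ζ => by positivity
    linarith
  have h := lower_approx (φ := fun n => bl Q (env Q) a n) (w := fun n => bl Q Q a n)
    (φi := fun ζ => (1 / 4) * Levi Q a ζ) (wi := fun ζ => (1 / 4) * Levi Q a ζ)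
    (P := fun n => Pn Q a n) (K := K)
    (Eventually.of_forall fun n => bl_env_psh hQ a n) (Eventually.of_forall hK) hqc hblow
    (Eventually.of_forall fun n => (Pn_contDiff hQ.cd a n).differentiable (by simp))
    (by filter_upwards [hne] with n hn using bl_env_growth hQ a hn)
    (Eventually.of_forall fun n => bl_continuous hQ.cd hQ.cd.continuous a n)
    hqc (bl_self_tendsto hQ.cd a) (Eventually.of_forall fun n ζ => bl_env_le hQ a n ζ)
    (quad_levi hQ.cd a (hs a)) (f := fun _ => (1:ℂ)) contDiff_const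
    (by simpa using hqi) 0 (ε := 1 / 2) (by norm_num)
  have hc₂ : 0 < c₂ := by
    obtain ⟨n, hn, hn0⟩ := (hN.and hne).exists
    have hn' : (0:ℝ) < n := by exact_mod_cast Nat.pos_of_ne_zero hn0
    have h1 : 0 < c₂ * (n : ℝ) ^ Module.finrank ℂ E :=
      lt_of_lt_of_le (by positivity) (hn.1.trans hn.2)
    exact pos_of_mul_pos_left h1 (by positivity)
  refine ⟨1 / (4 * B * c₂), by positivity, ?_⟩
  filter_upwards [h, hk, hN, hne] with n hn hRK hNn hn0
  have hn' : (0:ℝ) < n := by exact_mod_cast Nat.pos_of_ne_zero hn0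
  have hNp : 0 < N n := lt_of_lt_of_le (by positivity) hNn.1
  obtain ⟨g, hg, h1, -, h2⟩ := hn
  have h3 := h1 0 (by simp)
  have h4 : (1:ℝ) / 2 ≤ ‖g 0‖ := by
    have h5 : ‖(1:ℂ)‖ ≤ ‖g 0‖ + ‖g 0 - 1‖ := by
      calc ‖(1:ℂ)‖ = ‖g 0 - (g 0 - 1)‖ := by congr 1; ring
        _ ≤ ‖g 0‖ + ‖g 0 - 1‖ := norm_sub_le _ _
    rw [norm_one] at h5
    linarith
  have h6 := (isRK_scaled hQ a hn0 hRK).bound hg 0
  have h7 : (Lsc Q a n (k n) 0 0).re =
      ((n : ℝ) ^ Module.finrank ℂ E)⁻¹ * ((k n a a).re * Real.exp (-(n * Q a))) := by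
    rw [Lsc_zero]
    have : ((n : ℂ) ^ Module.finrank ℂ E)⁻¹ * k n a a * (Real.exp (-(n * Q a)) : ℂ) =
        ((((n : ℝ) ^ Module.finrank ℂ E)⁻¹ * Real.exp (-(n * Q a)) : ℝ) : ℂ) * k n a a := by
      push_cast
      ring
    rw [this, Complex.re_ofReal_mul]
    ring
  have h8 : 0 ≤ (k n a a).re * Real.exp (-(n * Q a)) := by
    have := hRK.self_nonneg a
    positivity
  have h9 : (1:ℝ) / 4 ≤ ‖g 0‖ ^ 2 := by nlinarith
  have h10 : (1:ℝ) / 4 ≤ ((n : ℝ) ^ Module.finrank ℂ E)⁻¹ *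
      ((k n a a).re * Real.exp (-(n * Q a))) * B := by
    calc (1:ℝ) / 4 ≤ ‖g 0‖ ^ 2 := h9
      _ ≤ _ := h6
      _ ≤ _ := by
        rw [h7]
        apply mul_le_mul_of_nonneg_left h2
        positivity
  have hnd : 0 < (n : ℝ) ^ Module.finrank ℂ E := by positivity
  rw [le_div_iff₀ hNp]
  have h11 : (n : ℝ) ^ Module.finrank ℂ E ≤
      4 * B * ((k n a a).re * Real.exp (-(n * Q a))) := by
    have h12 := mul_le_mul_of_nonneg_left h10 hnd.le
    have h13 : (n : ℝ) ^ Module.finrank ℂ E * (((n : ℝ) ^ Module.finrank ℂ E)⁻¹ *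
      ((k n a a).re * Real.exp (-(n * Q a))) * B) =
        ((k n a a).re * Real.exp (-(n * Q a))) * B := by
      field_simp
    rw [h13] at h12
    linarith
  calc 1 / (4 * B * c₂) * N n ≤ 1 / (4 * B * c₂) * (c₂ * (n : ℝ) ^ Module.finrank ℂ E) := by
        apply mul_le_mul_of_nonneg_left hNn.2 (by positivity)
    _ = (4 * B)⁻¹ * (n : ℝ) ^ Module.finrank ℂ E := by field_simp
    _ ≤ (4 * B)⁻¹ * (4 * B * ((k n a a).re * Real.exp (-(n * Q a)))) := by
        apply mul_le_mul_of_nonneg_left h11 (by positivity)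
    _ = _ := by field_simp

theorem droplet_eq [Nontrivial E] {Q : E → ℝ} (hQ : IsPot Q)
    (hs : ∀ z v : E, v ≠ 0 → 0 < Levi Q z v) {k : ℕ → E → E → ℂ}
    (hk : ∀ᶠ (n : ℕ) in atTop, IsRK (Vsp n (0 : E → ℂ)) (fun z => n * Q z) (k n))
    (hkc : ∀ᶠ (n : ℕ) in atTop, Continuous (fun z => k n z z))
    {N : ℕ → ℝ} {c₁ c₂ : ℝ} (hc₁ : 0 < c₁)
    (hN : ∀ᶠ (n : ℕ) in atTop, c₁ * (n : ℝ) ^ Module.finrank ℂ E ≤ N n ∧
      N n ≤ c₂ * (n : ℝ) ^ Module.finrank ℂ E)
    {S : Set E} (hS : MeasurableSet S) {D : E → ℝ} (hD : ∀ z, 0 < D z) (hDc : Continuous D)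
    (hlim : Tendsto (fun n => eLpNorm (fun z => (k n z z).re * Real.exp (-(n * Q z)) / N n
      - S.indicator D z) 1 (om E)) atTop (𝓝 0)) :
    ∀ᵐ z ∂(om E), (z ∈ S ↔ env Q z = Q z) := by
  obtain ⟨n0, hn0⟩ := eventually_atTop.1 (hkc.and hk)
  set G : ℕ → E → ℝ := fun n z => (k n z z).re * Real.exp (-(n * Q z)) / N n with hG
  have hGm : ∀ m : ℕ, AEStronglyMeasurable (G (m + n0)) (om E) := by
    intro m
    have h1 := (hn0 (m + n0) (by omega)).1
    have h2 : Continuous (G (m + n0)) :=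
      ((Complex.continuous_re.comp h1).mul (Real.continuous_exp.comp
        (continuous_const.mul hQ.cd.continuous).neg)).div_const _
    exact h2.aestronglyMeasurable
  have hgm : AEStronglyMeasurable (S.indicator D) (om E) :=
    (hDc.measurable.indicator hS).aestronglyMeasurable
  have hlim2 : Tendsto (fun m : ℕ => eLpNorm (G (m + n0) - S.indicator D) 1 (om E)) atTop (𝓝 0) :=
    (tendsto_add_atTop_iff_nat (f := fun n => eLpNorm (G n - S.indicator D) 1 (om E)) n0).2 hlim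
  have hmeas := tendstoInMeasure_of_tendsto_eLpNorm (p := 1) one_ne_zero hGm hgm hlim2
  obtain ⟨ns, hns, hae⟩ := hmeas.exists_seq_tendsto_ae
  filter_upwards [hae, blow_bulk hQ] with z h1 h2
  have hsub : Tendsto (fun i => ns i + n0) atTop atTop :=
    (tendsto_add_atTop_nat n0).comp hns.tendsto_atTop
  constructor
  · intro hz
    by_contra hne
    have hlt : env Q z < Q z := lt_of_le_of_ne (env_le hQ z) hne
    have h3 := (kernel_off_contact hQ hk hc₁ (hN.mono fun n hn => hn.1) hlt).comp hsub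
    have h4 := tendsto_nhds_unique h1 h3
    rw [Set.indicator_of_mem hz] at h4
    exact (hD z).ne' h4
  · intro hz
    obtain ⟨c, hc, hev⟩ := kernel_on_contact hQ hs hk hc₁ hN (h2 hz)
    have h3 : c ≤ S.indicator D z := ge_of_tendsto h1 (hsub.eventually hev)
    by_contra hne
    rw [Set.indicator_of_notMem hne] at h3
    linarith

end Pool.Agent.Edge
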