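import Pool.Agent.Edge.Envel

/-!
# Pointwise upper bound by the envelope (Bernstein–Markov / Siciak)
-/

namespace Pool.Agent.Edge

open MeasureTheory Filter Topology Complex

open scoped ComplexConjugate

variable {E : Type*} [NormedAddCommGroup E] [InnerProductSpace ℂ E] [FiniteDimensional ℂ E]
  [MeasurableSpace E] [BorelSpace E]

namespace UpperAux

omit [MeasurableSpace E] [BorelSpace E] in
/-- one-sided Taylor bound on a ball. -/
theorem taylor_ball {Q : E → ℝ} (hQ : ContDiff ℝ 2 Q) (R : ℝ) :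
    ∃ M : ℝ, 0 ≤ M ∧ ∀ z w : E, ‖z‖ ≤ R → ‖w - z‖ ≤ 1 →
      Q w - Q z - fderiv ℝ Q z (w - z) ≤ M * ‖w - z‖ ^ 2 := by
  have hprop : ProperSpace E := FiniteDimensional.proper ℂ E
  have hd : ContDiff ℝ 1 (fderiv ℝ Q) := hQ.fderiv_right (by norm_num)
  have hdd : Continuous (fun y => ‖fderiv ℝ (fderiv ℝ Q) y‖) :=
    (hd.continuous_fderiv (by norm_num)).norm
  obtain ⟨M, hM'⟩ := (isCompact_closedBall (0 : E) (R + 1)).exists_bound_of_continuousOn
    hdd.continuousOn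
  have hM : ∀ x ∈ Metric.closedBall (0 : E) (R + 1), ‖fderiv ℝ (fderiv ℝ Q) x‖ ≤ M := by
    intro x hx
    exact (le_abs_self _).trans (hM' x hx)
  refine ⟨max M 0, le_max_right _ _, ?_⟩
  intro z w hz hw
  have hzb : ∀ y ∈ Metric.closedBall z ‖w - z‖, y ∈ Metric.closedBall (0 : E) (R + 1) := by
    intro y hy
    rw [mem_closedBall_iff_norm] at hy
    rw [mem_closedBall_zero_iff]
    calc ‖y‖ = ‖z + (y - z)‖ := by congr 1; abel
      _ ≤ ‖z‖ + ‖y - z‖ := norm_add_le _ _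
      _ ≤ R + 1 := add_le_add hz (hy.trans hw)
  have hlip : ∀ y ∈ Metric.closedBall z ‖w - z‖,
      ‖fderiv ℝ Q y - fderiv ℝ Q z‖ ≤ max M 0 * ‖y - z‖ := by
    intro y hy
    exact (convex_closedBall z ‖w - z‖).norm_image_sub_le_of_norm_fderiv_le (𝕜 := ℝ)
      (fun x _ => hd.contDiffAt.differentiableAt (by norm_num))
      (fun x hx => (hM x (hzb x hx)).trans (le_max_left _ _))
      (Metric.mem_closedBall_self (norm_nonneg _)) hy
  have hdiff : Differentiable ℝ Q := hQ.differentiable (by norm_num)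
  have h := (convex_closedBall z ‖w - z‖).norm_image_sub_le_of_norm_hasFDerivWithin_le (𝕜 := ℝ)
    (f := fun y => Q y - fderiv ℝ Q z y) (f' := fun y => fderiv ℝ Q y - fderiv ℝ Q z)
    (C := max M 0 * ‖w - z‖)
    (fun y _ => (((hdiff y).hasFDerivAt).sub (fderiv ℝ Q z).hasFDerivAt).hasFDerivWithinAt)
    (fun y hy => (hlip y hy).trans (mul_le_mul_of_nonneg_left (by
      rw [mem_closedBall_iff_norm] at hy; exact hy) (le_max_right _ _)))
    (Metric.mem_closedBall_self (norm_nonneg _)) (y := w) (by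
      rw [mem_closedBall_iff_norm])
  have h2 : (Q w - fderiv ℝ Q z w) - (Q z - fderiv ℝ Q z z) =
      Q w - Q z - fderiv ℝ Q z (w - z) := by
    rw [map_sub]; ring
  rw [h2] at h
  calc Q w - Q z - fderiv ℝ Q z (w - z) ≤ ‖Q w - Q z - fderiv ℝ Q z (w - z)‖ := le_abs_self _
    _ ≤ max M 0 * ‖w - z‖ * ‖w - z‖ := h
    _ = max M 0 * ‖w - z‖ ^ 2 := by ring

/-- the complex linear form with real part `DQ(z)`. -/
noncomputable def ell (Q : E → ℝ) (z : E) : E →ₗ[ℂ] ℂ where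
  toFun h := ((fderiv ℝ Q z h : ℝ) : ℂ) - I * ((fderiv ℝ Q z (I • h) : ℝ) : ℂ)
  map_add' := by
    intro a b
    rw [smul_add, map_add, map_add]
    push_cast
    ring
  map_smul' := by
    intro c h
    have h1 : c • h = (c.re : ℝ) • h + (c.im : ℝ) • (I • h) := by
      rw [← Complex.coe_smul, ← Complex.coe_smul c.im, smul_smul, ← add_smul]
      congr 1
      exact (Complex.re_add_im c).symm
    have h2 : I • (c • h) = (c.re : ℝ) • (I • h) - (c.im : ℝ) • h := by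
      rw [← Complex.coe_smul, ← Complex.coe_smul c.im, smul_smul, smul_smul, ← sub_smul]
      congr 1
      apply Complex.ext <;> simp
    have e1 : fderiv ℝ Q z (c • h) = c.re * fderiv ℝ Q z h + c.im * fderiv ℝ Q z (I • h) := by
      rw [h1, map_add, map_smul, map_smul, smul_eq_mul, smul_eq_mul]
    have e2 : fderiv ℝ Q z (I • (c • h)) =
        c.re * fderiv ℝ Q z (I • h) - c.im * fderiv ℝ Q z h := by
      rw [h2, map_sub, (fderiv ℝ Q z).map_smul c.re, (fderiv ℝ Q z).map_smul c.im, smul_eq_mul,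
        smul_eq_mul]
    rw [e1, e2]
    simp only [smul_eq_mul, RingHom.id_apply]
    push_cast
    conv_rhs => rw [← Complex.re_add_im c]
    linear_combination ((c.im : ℂ) * ((fderiv ℝ Q z (I • h) : ℝ) : ℂ)) * Complex.I_mul_I

omit [FiniteDimensional ℂ E] [MeasurableSpace E] [BorelSpace E] in
theorem ell_re (Q : E → ℝ) (z h : E) : (ell Q z h).re = fderiv ℝ Q z h := by
  change (((fderiv ℝ Q z h : ℝ) : ℂ) - I * ((fderiv ℝ Q z (I • h) : ℝ) : ℂ)).re = _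
  simp

theorem vol_ball {n : ℕ} (hn : 1 ≤ n) (z : E) :
    ((om E) (Metric.closedBall z ((Real.sqrt n)⁻¹))).toReal =
      ((n : ℝ) ^ Module.finrank ℂ E)⁻¹ * ((om E) (Metric.ball 0 1)).toReal := by
  have hn0 : (0 : ℝ) < n := by exact_mod_cast hn
  rw [Measure.addHaar_closedBall (om E) z (by positivity), finrank_real_of_complex, pow_mul,
    inv_pow, Real.sq_sqrt hn0.le, ENNReal.toReal_mul, ENNReal.toReal_ofReal (by positivity),
    inv_pow]

/-- the local estimate. -/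
theorem local_bound {Q : E → ℝ} (hQ : ContDiff ℝ 2 Q) (R : ℝ) :
    ∃ C : ℝ, 0 < C ∧ ∀ n : ℕ, 1 ≤ n → ∀ p : E → ℂ, Differentiable ℂ p →
      Integrable (fun z => ‖p z‖ ^ 2 * Real.exp (-(n * Q z))) (om E) → ∀ z, ‖z‖ ≤ R →
      ‖p z‖ ^ 2 ≤ C * (n : ℝ) ^ Module.finrank ℂ E * Real.exp (n * Q z) *
        ∫ w, ‖p w‖ ^ 2 * Real.exp (-(n * Q w)) ∂(om E) := by
  obtain ⟨M, hM0, hM⟩ := taylor_ball hQ R
  have hprop : ProperSpace E := FiniteDimensional.proper ℂ E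
  set κ : ℝ := ((om E) (Metric.ball 0 1)).toReal with hκ
  have hκ0 : 0 < κ := ENNReal.toReal_pos
    (Metric.measure_ball_pos (om E) 0 one_pos).ne' (measure_ball_lt_top).ne
  refine ⟨Real.exp M / κ, by positivity, ?_⟩
  intro n hn p hp hi z hz
  have hn0 : (0 : ℝ) < n := by exact_mod_cast hn
  have hn1 : (1 : ℝ) ≤ n := by exact_mod_cast hn
  let L : E →L[ℂ] ℂ := LinearMap.toContinuousLinearMap (ell Q z)
  have hL : ∀ h, L h = ell Q z h := fun h => rfl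
  let q : E → ℂ := fun w => p w * cexp (-(n : ℂ) * L (w - z) / 2)
  have hq : Differentiable ℂ q := by
    apply hp.mul
    apply Differentiable.cexp
    have h1 : Differentiable ℂ (fun w => L (w - z)) :=
      L.differentiable.comp (differentiable_id.sub_const z)
    have h2 : (fun w => -(n : ℂ) * L (w - z) / 2) = fun w => (-(n : ℂ) / 2) * L (w - z) := by
      funext w; ring
    rw [h2]
    exact h1.const_mul _
  have hqn : ∀ w, ‖q w‖ ^ 2 = ‖p w‖ ^ 2 * Real.exp (-(n * fderiv ℝ Q z (w - z))) := by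
    intro w
    have h1 : (-(n : ℂ) * L (w - z) / 2).re = -(n * fderiv ℝ Q z (w - z)) / 2 := by
      have h2 : -(n : ℂ) * L (w - z) / 2 = ((-(n : ℝ) / 2 : ℝ) : ℂ) * L (w - z) := by
        push_cast; ring
      rw [h2, Complex.re_ofReal_mul, hL, ell_re]
      ring
    change ‖p w * cexp (-(n : ℂ) * L (w - z) / 2)‖ ^ 2 = _
    rw [norm_mul, Complex.norm_exp, h1, mul_pow, ← Real.exp_nat_mul]
    congr 2
    push_cast
    ring
  set r : ℝ := (Real.sqrt n)⁻¹ with hr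
  have hr0 : 0 < r := by positivity
  have hr1 : r ≤ 1 := inv_le_one_of_one_le₀ (Real.one_le_sqrt.2 hn1)
  have hr2 : n * r ^ 2 = 1 := by
    rw [hr, inv_pow, Real.sq_sqrt hn0.le]
    exact mul_inv_cancel₀ hn0.ne'
  have h1 := (psh_normSq hq).le_ball z hr0
  have hqz : ‖q z‖ ^ 2 = ‖p z‖ ^ 2 := by rw [hqn]; simp
  rw [vol_ball hn z, ← hκ, hqz] at h1
  have h2 : ∫ y in Metric.closedBall z r, ‖q y‖ ^ 2 ∂(om E) ≤
      ∫ y in Metric.closedBall z r, (Real.exp (n * Q z) * Real.exp M) *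
        (‖p y‖ ^ 2 * Real.exp (-(n * Q y))) ∂(om E) := by
    apply setIntegral_mono_on _ _ measurableSet_closedBall
    · intro y hy
      rw [mem_closedBall_iff_norm] at hy
      have h3 := hM z y hz (hy.trans hr1)
      have h4 : ‖y - z‖ ^ 2 ≤ r ^ 2 := pow_le_pow_left₀ (norm_nonneg _) hy 2
      have h5 : n * (M * ‖y - z‖ ^ 2) ≤ M := by
        calc n * (M * ‖y - z‖ ^ 2) ≤ n * (M * r ^ 2) := by gcongr
          _ = M * (n * r ^ 2) := by ring
          _ = M := by rw [hr2, mul_one]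
      have h6 : Real.exp (-(n * fderiv ℝ Q z (y - z))) ≤
          Real.exp (n * Q z) * Real.exp M * Real.exp (-(n * Q y)) := by
        rw [← Real.exp_add, ← Real.exp_add]
        apply Real.exp_le_exp.2
        have h7 := mul_le_mul_of_nonneg_left h3 hn0.le
        nlinarith
      rw [hqn]
      calc ‖p y‖ ^ 2 * Real.exp (-(n * fderiv ℝ Q z (y - z)))
          ≤ ‖p y‖ ^ 2 * (Real.exp (n * Q z) * Real.exp M * Real.exp (-(n * Q y))) :=
            mul_le_mul_of_nonneg_left h6 (by positivity)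
        _ = _ := by ring
    · exact ((hq.continuous.norm.pow 2)).continuousOn.integrableOn_compact
        (isCompact_closedBall _ _)
    · exact (hi.const_mul _).integrableOn
  have h3 : ∫ y in Metric.closedBall z r, (Real.exp (n * Q z) * Real.exp M) *
        (‖p y‖ ^ 2 * Real.exp (-(n * Q y))) ∂(om E) ≤
      (Real.exp (n * Q z) * Real.exp M) * ∫ w, ‖p w‖ ^ 2 * Real.exp (-(n * Q w)) ∂(om E) := by
    rw [integral_const_mul]
    apply mul_le_mul_of_nonneg_left _ (by positivity)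
    exact setIntegral_le_integral hi (Filter.Eventually.of_forall fun z => by positivity)
  have h4 := h1.trans (h2.trans h3)
  set d := Module.finrank ℂ E with hd
  set J := ∫ w, ‖p w‖ ^ 2 * Real.exp (-(n * Q w)) ∂(om E) with hJ
  have hnd : (0 : ℝ) < (n : ℝ) ^ d := by positivity
  have h5 : ‖p z‖ ^ 2 = ((n : ℝ) ^ d / κ) * (((n : ℝ) ^ d)⁻¹ * κ * ‖p z‖ ^ 2) := by
    field_simp
  rw [h5]
  calc ((n : ℝ) ^ d / κ) * (((n : ℝ) ^ d)⁻¹ * κ * ‖p z‖ ^ 2)
      ≤ ((n : ℝ) ^ d / κ) * ((Real.exp (n * Q z) * Real.exp M) * J) :=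
        mul_le_mul_of_nonneg_left h4 (by positivity)
    _ = _ := by ring

omit [FiniteDimensional ℂ E] [MeasurableSpace E] [BorelSpace E] in
theorem growth_facts {n : ℕ} {p : E → ℂ} (hp : p ∈ Vsp n (0 : E → ℂ)) :
    ∃ C : ℝ, 1 ≤ C ∧ ∀ z, ‖p z‖ ^ 2 ≤ C * (1 + ‖z‖ ^ 2) ^ n := by
  obtain ⟨-, C, hC⟩ := mem_Vsp.1 hp
  refine ⟨max 1 (C ^ 2 * 2 ^ n), le_max_left _ _, ?_⟩
  intro z
  have h1 := hC z
  simp only [Pi.zero_apply, zero_div, Complex.exp_zero, mul_one] at h1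
  have h2 : ‖p z‖ ≤ (1 + ‖z‖) * ‖p z‖ := by
    have := norm_nonneg z
    have := norm_nonneg (p z)
    nlinarith
  have h3 : ‖p z‖ ≤ C * (1 + ‖z‖) ^ n := h2.trans h1
  have h4 : (1 + ‖z‖) ^ 2 ≤ 2 * (1 + ‖z‖ ^ 2) := by nlinarith [sq_nonneg (1 - ‖z‖)]
  calc ‖p z‖ ^ 2 ≤ (C * (1 + ‖z‖) ^ n) ^ 2 := pow_le_pow_left₀ (norm_nonneg _) h3 2
    _ = C ^ 2 * ((1 + ‖z‖) ^ 2) ^ n := by
        rw [mul_pow, ← pow_mul, ← pow_mul, mul_comm n 2]
    _ ≤ C ^ 2 * (2 * (1 + ‖z‖ ^ 2)) ^ n := by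
        apply mul_le_mul_of_nonneg_left _ (sq_nonneg C)
        exact pow_le_pow_left₀ (by positivity) h4 n
    _ = (C ^ 2 * 2 ^ n) * (1 + ‖z‖ ^ 2) ^ n := by rw [mul_pow]; ring
    _ ≤ max 1 (C ^ 2 * 2 ^ n) * (1 + ‖z‖ ^ 2) ^ n :=
        mul_le_mul_of_nonneg_right (le_max_right _ _) (by positivity)

omit [MeasurableSpace E] [BorelSpace E] in
/-- the global estimate from the estimate on a large ball. -/
theorem global_bound {Q : E → ℝ} (hQ : IsPot Q) {R : ℝ}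
    (hR : ∀ ψ : E → ℝ, PSH ψ → LogGrowth ψ → (∀ z, ‖z‖ ≤ R → ψ z ≤ Q z) → ∀ z, ψ z ≤ Q z)
    {n : ℕ} (hn : 1 ≤ n) {p : E → ℂ} (hp : p ∈ Vsp n (0 : E → ℂ)) {A : ℝ} (hA : 0 < A)
    (hloc : ∀ z, ‖z‖ ≤ R → ‖p z‖ ^ 2 ≤ A * Real.exp (n * Q z)) (z : E) :
    ‖p z‖ ^ 2 ≤ A * Real.exp (n * env Q z) := by
  have hn0 : (0 : ℝ) < n := by exact_mod_cast hn
  obtain ⟨δ, C0, hδ, hgr⟩ := hQ.gr
  have hlow : ∀ z, -C0 ≤ Q z := by
    intro z
    have h1 := hgr z
    have h2 : 0 ≤ Real.log (1 + ‖z‖ ^ 2) := Real.log_nonneg (by nlinarith [sq_nonneg ‖z‖])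
    nlinarith
  let F : E → ℂ := fun z => ((Real.sqrt A)⁻¹ : ℂ) * p z
  have hF : Differentiable ℂ F := (mem_Vsp.1 hp).1.const_mul _
  have hFn : ∀ z, ‖F z‖ ^ 2 = ‖p z‖ ^ 2 / A := by
    intro z
    have h1 : ‖F z‖ = (Real.sqrt A)⁻¹ * ‖p z‖ := by
      simp only [F]
      rw [norm_mul, norm_inv, Complex.norm_real, Real.norm_eq_abs,
        abs_of_nonneg (Real.sqrt_nonneg A)]
    rw [h1, mul_pow, inv_pow, Real.sq_sqrt hA.le]
    ring
  set t : ℝ := Real.exp (-(n * C0)) with ht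
  have ht0 : 0 < t := Real.exp_pos _
  let ψ : E → ℝ := fun z => (n : ℝ)⁻¹ * Real.log (max (‖F z‖ ^ 2) t)
  have hψ : PSH ψ := (psh_log_max hF ht0).const_mul (by positivity)
  have hmax0 : ∀ z, 0 < max (‖F z‖ ^ 2) t := fun z => lt_max_of_lt_right ht0
  have hψg : LogGrowth ψ := by
    obtain ⟨C, hC1, hC⟩ := growth_facts hp
    set D : ℝ := max (C / A) t with hD
    have hD0 : 0 < D := lt_max_of_lt_right ht0
    refine ⟨(n : ℝ)⁻¹ * Real.log D, ?_⟩
    intro z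
    have h1 : max (‖F z‖ ^ 2) t ≤ D * (1 + ‖z‖ ^ 2) ^ n := by
      have h2 : (1 : ℝ) ≤ (1 + ‖z‖ ^ 2) ^ n := one_le_pow₀ (by nlinarith [sq_nonneg ‖z‖])
      apply max_le
      · rw [hFn]
        calc ‖p z‖ ^ 2 / A ≤ C * (1 + ‖z‖ ^ 2) ^ n / A := by gcongr; exact hC z
          _ = (C / A) * (1 + ‖z‖ ^ 2) ^ n := by ring
          _ ≤ D * (1 + ‖z‖ ^ 2) ^ n :=
            mul_le_mul_of_nonneg_right (le_max_left _ _) (by positivity)
      · calc t ≤ D := le_max_right _ _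
          _ = D * 1 := (mul_one _).symm
          _ ≤ D * (1 + ‖z‖ ^ 2) ^ n := mul_le_mul_of_nonneg_left h2 hD0.le
    have h3 : Real.log (max (‖F z‖ ^ 2) t) ≤ Real.log D + n * Real.log (1 + ‖z‖ ^ 2) := by
      have h4 := Real.log_le_log (hmax0 z) h1
      rw [Real.log_mul hD0.ne' (by positivity), Real.log_pow] at h4
      exact h4
    calc ψ z ≤ (n : ℝ)⁻¹ * (Real.log D + n * Real.log (1 + ‖z‖ ^ 2)) :=
          mul_le_mul_of_nonneg_left h3 (by positivity)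
      _ = Real.log (1 + ‖z‖ ^ 2) + (n : ℝ)⁻¹ * Real.log D := by
          field_simp
          ring
  have hψloc : ∀ z, ‖z‖ ≤ R → ψ z ≤ Q z := by
    intro z hz
    have h1 : max (‖F z‖ ^ 2) t ≤ Real.exp (n * Q z) := by
      apply max_le
      · rw [hFn, div_le_iff₀ hA]
        calc ‖p z‖ ^ 2 ≤ A * Real.exp (n * Q z) := hloc z hz
          _ = _ := mul_comm _ _
      · apply Real.exp_le_exp.2
        have := mul_le_mul_of_nonneg_left (hlow z) hn0.le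
        linarith
    have h2 : Real.log (max (‖F z‖ ^ 2) t) ≤ n * Q z := by
      have := Real.log_le_log (hmax0 z) h1
      rwa [Real.log_exp] at this
    calc ψ z ≤ (n : ℝ)⁻¹ * (n * Q z) := mul_le_mul_of_nonneg_left h2 (by positivity)
      _ = Q z := by field_simp
  have hadm : Adm Q ψ := ⟨hψ, hR ψ hψ hψg hψloc, hψg⟩
  have h1 : ψ z ≤ env Q z := hadm.le_env z
  have h2 : Real.log (max (‖F z‖ ^ 2) t) ≤ n * env Q z := by
    have h3 := mul_le_mul_of_nonneg_left h1 hn0.le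
    have h4 : (n : ℝ) * ψ z = Real.log (max (‖F z‖ ^ 2) t) := by
      simp only [ψ]
      field_simp
    linarith
  have h3 : ‖F z‖ ^ 2 ≤ Real.exp (n * env Q z) := by
    calc ‖F z‖ ^ 2 ≤ max (‖F z‖ ^ 2) t := le_max_left _ _
      _ = Real.exp (Real.log (max (‖F z‖ ^ 2) t)) := (Real.exp_log (hmax0 z)).symm
      _ ≤ _ := Real.exp_le_exp.2 h2
  rw [hFn, div_le_iff₀ hA] at h3
  linarith

end UpperAux

/-- `|p(z)|² ≤ C n^d e^{n Q̂(z)} ∫|p|²e^{-nQ}` for `p ∈ Vsp n 0`, `n ≥ 1`.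
Proof.  Let `R ≥ 1` be the radius of `exists_radius`, `I = ∫|p|²e^{-nQ}`.  If `I = 0` then `p = 0`.
(a) Local estimate, `‖z‖ ≤ R`: let `2M ≥ sup_{|w|≤R+1}‖D²Q(w)‖`.  For `‖w-z‖ ≤ n^{-1/2} ≤ 1`,
`Q(w) ≤ Q(z) + DQ(z)(w-z) + M|w-z|²`, and `DQ(z)h = Re ℓ(h)` with `ℓ(h) = DQ(z)h - iDQ(z)(ih)`
complex linear.  `q(w) = p(w) e^{-nℓ(w-z)/2}` is entire, `q(z) = p(z)`; by `psh_normSq` and
`PSH.le_ball`: `om(B)|p(z)|² ≤ ∫_B |p|²e^{-nDQ(z)(w-z)} ≤ e^{M + nQ(z)}∫_B|p|²e^{-nQ}`,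
`B = closedBall z n^{-1/2}`, `om(B) = κ n^{-d}` (`finrank ℝ E = 2 finrank ℂ E`).
So `|p(z)|² ≤ C n^d e^{nQ(z)} I`, `C = e^M/κ`, for `‖z‖ ≤ R`.
(b) Let `-C₀` be a lower bound of `Q` (`IsPot.gr`) and
`ψ = (1/n) log max(|p|²/(C n^d I), e^{-nC₀})`.  It is psh (`psh_log_max` for `p/√(C n^d I)`), has
logarithmic growth (`|p|² ≤ C'(1+‖z‖)^{2n-2}`, `(1+t)² ≤ 2(1+t²)`), and is `≤ Q` for `‖z‖ ≤ R`.  By
`exists_radius` it is `≤ Q` everywhere, so it is admissible and `ψ ≤ env Q`. -/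
theorem upper_bound {Q : E → ℝ} (hQ : IsPot Q) :
    ∃ C : ℝ, 0 < C ∧ ∀ n : ℕ, 1 ≤ n → ∀ p ∈ Vsp n (0 : E → ℂ),
      Integrable (fun z => ‖p z‖ ^ 2 * Real.exp (-(n * Q z))) (om E) → ∀ z,
      ‖p z‖ ^ 2 ≤ C * (n : ℝ) ^ Module.finrank ℂ E * Real.exp (n * env Q z) *
        ∫ w, ‖p w‖ ^ 2 * Real.exp (-(n * Q w)) ∂(om E) := by
  obtain ⟨R, hR1, hR⟩ := exists_radius hQ
  obtain ⟨C, hC, hloc⟩ := UpperAux.local_bound hQ.cd R
  refine ⟨C, hC, ?_⟩
  intro n hn p hp hi z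
  have hn0 : (0 : ℝ) < n := by exact_mod_cast hn
  set J := ∫ w, ‖p w‖ ^ 2 * Real.exp (-(n * Q w)) ∂(om E) with hJ
  have hJ0 : 0 ≤ J := integral_nonneg fun w => by positivity
  set B : ℝ := C * (n : ℝ) ^ Module.finrank ℂ E with hB
  have hB0 : 0 < B := by positivity
  have key : ∀ η : ℝ, 0 < η → ‖p z‖ ^ 2 ≤ B * (J + η) * Real.exp (n * env Q z) := by
    intro η hη
    apply UpperAux.global_bound hQ hR hn hp (by positivity)
    intro w hw
    have h1 := hloc n hn p (mem_Vsp.1 hp).1 hi w hw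
    calc ‖p w‖ ^ 2 ≤ B * Real.exp (n * Q w) * J := h1
      _ ≤ B * Real.exp (n * Q w) * (J + η) :=
          mul_le_mul_of_nonneg_left (by linarith) (by positivity)
      _ = B * (J + η) * Real.exp (n * Q w) := by ring
  have hlim : Tendsto (fun η : ℝ => B * (J + η) * Real.exp (n * env Q z)) (𝓝[>] 0)
      (𝓝 (B * (J + 0) * Real.exp (n * env Q z))) := by
    apply Tendsto.mono_left _ nhdsWithin_le_nhds
    exact (Continuous.tendsto (by fun_prop) 0)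
  have h2 := ge_of_tendsto hlim (by
    filter_upwards [self_mem_nhdsWithin] with η hη
    exact key η hη)
  calc ‖p z‖ ^ 2 ≤ B * (J + 0) * Real.exp (n * env Q z) := h2
    _ = B * Real.exp (n * env Q z) * J := by ring

end Pool.Agent.Edge
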