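import Pool.Agent.Edge.BlowBasic
import Pool.Agent.Edge.Upper

/-!
# Reproducing kernels: algebra, rescaling, upper bound
-/

namespace Pool.Agent.Edge

open MeasureTheory Filter Topology Complex

open scoped ComplexConjugate

set_option linter.unusedSectionVars false

variable {E : Type*} [NormedAddCommGroup E] [InnerProductSpace ℂ E] [FiniteDimensional ℂ E]
  [MeasurableSpace E] [BorelSpace E]

/-! ### Weighted Cauchy–Schwarz -/

private theorem rk_weight (w : E → ℝ) (x : ℂ) (z : E) :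
    ‖x * (Real.exp (-(w z / 2)) : ℂ)‖ ^ 2 = ‖x‖ ^ 2 * Real.exp (-w z) := by
  rw [norm_mul, mul_pow, Complex.norm_real, Real.norm_eq_abs, sq_abs, ← Real.exp_nat_mul]
  congr 2
  push_cast
  ring

private theorem rk_memLp {w : E → ℝ} (hw : Continuous w) {f : E → ℂ} (hf : Continuous f)
    (hi : Integrable (fun z => ‖f z‖ ^ 2 * Real.exp (-w z)) (om E)) :
    MemLp (fun z => f z * (Real.exp (-(w z / 2)) : ℂ)) 2 (om E) := by
  have hc : Continuous (fun z => f z * (Real.exp (-(w z / 2)) : ℂ)) := by fun_prop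
  rw [memLp_two_iff_integrable_sq_norm hc.aestronglyMeasurable]
  simpa only [rk_weight] using hi

private theorem rk_prod (w : E → ℝ) (f g : E → ℂ) (z : E) :
    conj (g z * (Real.exp (-(w z / 2)) : ℂ)) * (f z * (Real.exp (-(w z / 2)) : ℂ)) =
      f z * conj (g z) * (Real.exp (-w z) : ℂ) := by
  have h : (Real.exp (-w z) : ℂ) = (Real.exp (-(w z / 2)) : ℂ) * (Real.exp (-(w z / 2)) : ℂ) := by
    rw [← Complex.ofReal_mul, ← Real.exp_add]
    congr 2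
    ring
  rw [h, map_mul, Complex.conj_ofReal]
  ring

private theorem rk_int {w : E → ℝ} (hw : Continuous w) {f g : E → ℂ} (hf : Continuous f)
    (hg : Continuous g) (hi : Integrable (fun z => ‖f z‖ ^ 2 * Real.exp (-w z)) (om E))
    (hj : Integrable (fun z => ‖g z‖ ^ 2 * Real.exp (-w z)) (om E)) :
    Integrable (fun z => f z * conj (g z) * (Real.exp (-w z) : ℂ)) (om E) := by
  have h := ((rk_memLp hw hg hj).star).integrable_mul (rk_memLp hw hf hi)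
  refine h.congr (Eventually.of_forall fun z => ?_)
  simp only [Pi.mul_apply, Pi.star_apply, RCLike.star_def]
  exact rk_prod w f g z

private theorem rk_cs {w : E → ℝ} (hw : Continuous w) {f g : E → ℂ} (hf : Continuous f)
    (hg : Continuous g) (hi : Integrable (fun z => ‖f z‖ ^ 2 * Real.exp (-w z)) (om E))
    (hj : Integrable (fun z => ‖g z‖ ^ 2 * Real.exp (-w z)) (om E)) :
    ‖∫ z, f z * conj (g z) * (Real.exp (-w z) : ℂ) ∂(om E)‖ ^ 2 ≤
      (∫ z, ‖f z‖ ^ 2 * Real.exp (-w z) ∂(om E)) *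
        ∫ z, ‖g z‖ ^ 2 * Real.exp (-w z) ∂(om E) := by
  have hF := rk_memLp hw hf hi
  have hG := rk_memLp hw hg hj
  have hnorm : ∀ {h : E → ℂ} (hh : MemLp h 2 (om E)),
      ‖hh.toLp h‖ ^ 2 = ∫ z, ‖h z‖ ^ 2 ∂(om E) := by
    intro h hh
    have h1 : ((‖hh.toLp h‖ ^ 2 : ℝ) : ℂ) = inner ℂ (hh.toLp h) (hh.toLp h) := by
      rw [inner_self_eq_norm_sq_to_K]
      push_cast
      rfl
    rw [L2.inner_def] at h1
    have h2 : ∫ z, inner ℂ ((hh.toLp h : E → ℂ) z) ((hh.toLp h : E → ℂ) z) ∂(om E) =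
        ((∫ z, ‖h z‖ ^ 2 ∂(om E) : ℝ) : ℂ) := by
      rw [← integral_complex_ofReal]
      refine integral_congr_ae ?_
      filter_upwards [hh.coeFn_toLp] with z hz
      rw [hz, inner_self_eq_norm_sq_to_K]
      push_cast
      rfl
    rw [h2] at h1
    exact_mod_cast h1
  have h1 : inner ℂ (hG.toLp _) (hF.toLp _) =
      ∫ z, f z * conj (g z) * (Real.exp (-w z) : ℂ) ∂(om E) := by
    rw [L2.inner_def]
    refine integral_congr_ae ?_
    filter_upwards [hG.coeFn_toLp, hF.coeFn_toLp] with z h1 h2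
    rw [h1, h2, RCLike.inner_apply, mul_comm]
    exact rk_prod w f g z
  have h2 := norm_inner_le_norm (𝕜 := ℂ) (hG.toLp _) (hF.toLp _)
  have h3 := pow_le_pow_left₀ (norm_nonneg _) h2 2
  rw [h1, mul_pow, hnorm hG, hnorm hF] at h3
  simp only [rk_weight] at h3
  rw [mul_comm]
  exact h3

/-! ### Algebra of reproducing kernels -/

/-- `k(η,ζ) = conj k(ζ,η)` (apply `rep` to `k(·,η)` and to `k(·,ζ)` and conjugate). -/
theorem IsRK.symm {V : Submodule ℂ (E → ℂ)} {w : E → ℝ} {k : E → E → ℂ} (h : IsRK V w k)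
    (ζ η : E) : k η ζ = conj (k ζ η) := by
  have h1 := h.rep _ (h.mem η) ζ
  have h2 := h.rep _ (h.mem ζ) η
  rw [h1, h2, ← integral_conj]
  refine integral_congr_ae (Eventually.of_forall fun z => ?_)
  simp only [map_mul, Complex.conj_conj, Complex.conj_ofReal]
  ring

/-- `k(η,η) = ∫|k(·,η)|²e^{-w}`. -/
theorem IsRK.self {V : Submodule ℂ (E → ℂ)} {w : E → ℝ} {k : E → E → ℂ} (h : IsRK V w k)
    (η : E) : k η η = ((∫ ζ, ‖k ζ η‖ ^ 2 * Real.exp (-w ζ) ∂(om E) : ℝ) : ℂ) := by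
  have h1 := h.rep _ (h.mem η) η
  rw [h1, ← integral_complex_ofReal]
  refine integral_congr_ae (Eventually.of_forall fun z => ?_)
  simp only
  rw [Complex.mul_conj, Complex.normSq_eq_norm_sq]
  push_cast
  ring

theorem IsRK.self_nonneg {V : Submodule ℂ (E → ℂ)} {w : E → ℝ} {k : E → E → ℂ}
    (h : IsRK V w k) (η : E) : 0 ≤ (k η η).re := by
  rw [h.self η, Complex.ofReal_re]
  exact integral_nonneg fun z => by positivity

private theorem IsRK.self_re {V : Submodule ℂ (E → ℂ)} {w : E → ℝ} {k : E → E → ℂ}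
    (h : IsRK V w k) (η : E) :
    (k η η).re = ∫ ζ, ‖k ζ η‖ ^ 2 * Real.exp (-w ζ) ∂(om E) := by
  conv_lhs => rw [h.self η]
  rw [Complex.ofReal_re]

/-- `|f(η)|² ≤ k(η,η) ∫|f|²e^{-w}` (Cauchy–Schwarz). -/
theorem IsRK.bound {V : Submodule ℂ (E → ℂ)} {w : E → ℝ} {k : E → E → ℂ} (h : IsRK V w k)
    {f : E → ℂ} (hf : f ∈ V) (η : E) :
    ‖f η‖ ^ 2 ≤ (k η η).re * ∫ ζ, ‖f ζ‖ ^ 2 * Real.exp (-w ζ) ∂(om E) := by
  rw [h.rep f hf η, h.self_re η, mul_comm]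
  exact rk_cs h.wcont (h.diff f hf).continuous (h.diff _ (h.mem η)).continuous (h.int f hf)
    (h.int _ (h.mem η))

theorem IsRK.norm_sq_le {V : Submodule ℂ (E → ℂ)} {w : E → ℝ} {k : E → E → ℂ}
    (h : IsRK V w k) (ζ η : E) : ‖k ζ η‖ ^ 2 ≤ (k ζ ζ).re * (k η η).re := by
  have h1 := h.bound (h.mem η) ζ
  rw [← h.self_re η] at h1
  exact h1

/-- `∫|g - k(·,η)|²e^{-w} = ∫|g|²e^{-w} - 2 Re g(η) + k(η,η)`. -/
theorem IsRK.dist_sq {V : Submodule ℂ (E → ℂ)} {w : E → ℝ} {k : E → E → ℂ} (h : IsRK V w k)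
    {g : E → ℂ} (hg : g ∈ V) (η : E) :
    ∫ ζ, ‖g ζ - k ζ η‖ ^ 2 * Real.exp (-w ζ) ∂(om E) =
      (∫ ζ, ‖g ζ‖ ^ 2 * Real.exp (-w ζ) ∂(om E)) - 2 * (g η).re + (k η η).re := by
  have hi := h.int g hg
  have hj := h.int _ (h.mem η)
  have hc := rk_int h.wcont (h.diff g hg).continuous (h.diff _ (h.mem η)).continuous hi hj
  have h1 : (g η).re = ∫ z, (g z * conj (k z η)).re * Real.exp (-w z) ∂(om E) := by
    rw [h.rep g hg η]
    have h2 := integral_re hc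
    have h3 : (∫ z, g z * conj (k z η) * (Real.exp (-w z) : ℂ) ∂(om E)).re =
        ∫ z, (g z * conj (k z η) * (Real.exp (-w z) : ℂ)).re ∂(om E) := by
      simpa using h2.symm
    rw [h3]
    refine integral_congr_ae (Eventually.of_forall fun z => ?_)
    simp only
    rw [Complex.re_mul_ofReal]
  have hcr : Integrable (fun z => (g z * conj (k z η)).re * Real.exp (-w z)) (om E) := by
    refine hc.re.congr (Eventually.of_forall fun z => ?_)
    simp only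
    have : RCLike.re (g z * conj (k z η) * (Real.exp (-w z) : ℂ)) =
        (g z * conj (k z η) * (Real.exp (-w z) : ℂ)).re := rfl
    rw [this, Complex.re_mul_ofReal]
  have h4 : (fun ζ => ‖g ζ - k ζ η‖ ^ 2 * Real.exp (-w ζ)) = fun ζ =>
      ‖g ζ‖ ^ 2 * Real.exp (-w ζ) - 2 * ((g ζ * conj (k ζ η)).re * Real.exp (-w ζ)) +
        ‖k ζ η‖ ^ 2 * Real.exp (-w ζ) := by
    funext z
    have e2 : ‖g z - k z η‖ ^ 2 = ‖g z‖ ^ 2 + ‖k z η‖ ^ 2 - 2 * (g z * conj (k z η)).re := by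
      rw [← Complex.normSq_eq_norm_sq, ← Complex.normSq_eq_norm_sq, ← Complex.normSq_eq_norm_sq,
        Complex.normSq_apply, Complex.normSq_apply, Complex.normSq_apply]
      simp only [Complex.sub_re, Complex.sub_im, Complex.mul_re, Complex.conj_re, Complex.conj_im]
      ring
    rw [e2]
    ring
  have h5 : Integrable (fun ζ => ‖g ζ‖ ^ 2 * Real.exp (-w ζ) -
      2 * ((g ζ * conj (k ζ η)).re * Real.exp (-w ζ))) (om E) := hi.sub (hcr.const_mul 2)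
  rw [h4, integral_add h5 hj, integral_sub hi (hcr.const_mul 2), integral_const_mul, ← h1,
    h.self_re η]

/-- Pointwise distance: `|g(ζ) - k(ζ,η)|² ≤ k(ζ,ζ) (∫|g|²e^{-w} - 2 Re g(η) + k(η,η))`. -/
theorem IsRK.pointwise {V : Submodule ℂ (E → ℂ)} {w : E → ℝ} {k : E → E → ℂ} (h : IsRK V w k)
    {g : E → ℂ} (hg : g ∈ V) (ζ η : E) :
    ‖g ζ - k ζ η‖ ^ 2 ≤ (k ζ ζ).re *
      ((∫ z, ‖g z‖ ^ 2 * Real.exp (-w z) ∂(om E)) - 2 * (g η).re + (k η η).re) := by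
  have h1 := h.bound (V.sub_mem hg (h.mem η)) ζ
  rw [← h.dist_sq hg η]
  exact h1

/-! ### Rescaling -/

private theorem rk_sqrt {n : ℕ} (hn : n ≠ 0) : 1 ≤ Real.sqrt n := by
  rw [Real.one_le_sqrt]
  exact_mod_cast Nat.one_le_iff_ne_zero.mpr hn

private theorem rk_sc_le (a : E) {n : ℕ} (hn : n ≠ 0) (ζ : E) :
    1 + ‖sc a n ζ‖ ≤ (1 + ‖a‖) * (1 + ‖ζ‖) := by
  have hs := rk_sqrt hn
  have h1 : ‖sc a n ζ‖ ≤ ‖a‖ + ‖ζ‖ := by
    unfold sc
    refine (norm_add_le _ _).trans ?_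
    have h2 : ‖((Real.sqrt n)⁻¹ : ℝ) • ζ‖ ≤ ‖ζ‖ := by
      rw [norm_smul, Real.norm_eq_abs, abs_of_nonneg (by positivity)]
      have : (Real.sqrt n)⁻¹ ≤ 1 := inv_le_one_of_one_le₀ hs
      calc (Real.sqrt n)⁻¹ * ‖ζ‖ ≤ 1 * ‖ζ‖ := mul_le_mul_of_nonneg_right this (norm_nonneg _)
        _ = ‖ζ‖ := one_mul _
    linarith
  nlinarith [norm_nonneg a, norm_nonneg ζ, mul_nonneg (norm_nonneg a) (norm_nonneg ζ)]

/-- the inverse of `sc` -/
private noncomputable def rk_cs' (a : E) (n : ℕ) (z : E) : E := (Real.sqrt n : ℝ) • (z - a)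

private theorem rk_cs_sc (a : E) {n : ℕ} (hn : n ≠ 0) (ζ : E) : rk_cs' a n (sc a n ζ) = ζ := by
  have hs : Real.sqrt n ≠ 0 := by
    have := rk_sqrt hn
    linarith
  unfold rk_cs' sc
  rw [add_sub_cancel_left, smul_smul, mul_inv_cancel₀ hs, one_smul]

private theorem rk_sc_cs (a : E) {n : ℕ} (hn : n ≠ 0) (z : E) : sc a n (rk_cs' a n z) = z := by
  have hs : Real.sqrt n ≠ 0 := by
    have := rk_sqrt hn
    linarith
  unfold rk_cs' sc
  rw [smul_smul, inv_mul_cancel₀ hs, one_smul]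
  abel

private theorem rk_cs_le (a : E) {n : ℕ} (hn : n ≠ 0) (z : E) :
    1 + ‖rk_cs' a n z‖ ≤ (Real.sqrt n * (1 + ‖a‖)) * (1 + ‖z‖) := by
  have hs := rk_sqrt hn
  have h1 : ‖rk_cs' a n z‖ ≤ Real.sqrt n * (‖z‖ + ‖a‖) := by
    unfold rk_cs'
    rw [norm_smul, Real.norm_eq_abs, abs_of_nonneg (by positivity)]
    exact mul_le_mul_of_nonneg_left (norm_sub_le _ _) (by positivity)
  have h2 : 0 ≤ Real.sqrt n * (‖a‖ * ‖z‖) := by positivity
  nlinarith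

private theorem rk_sc_diff (a : E) (n : ℕ) : Differentiable ℂ (sc a n : E → E) := by
  unfold sc
  have h : (fun ζ : E => a + ((Real.sqrt n)⁻¹ : ℝ) • ζ) =
      fun ζ : E => a + (((Real.sqrt n)⁻¹ : ℝ) : ℂ) • ζ := by
    funext ζ
    rw [Complex.coe_smul]
  rw [h]
  exact (differentiable_const a).add (differentiable_id.const_smul _)

private theorem rk_cs_diff (a : E) (n : ℕ) : Differentiable ℂ (rk_cs' a n : E → E) := by
  unfold rk_cs'
  have h : (fun z : E => (Real.sqrt n : ℝ) • (z - a)) =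
      fun z : E => ((Real.sqrt n : ℝ) : ℂ) • (z - a) := by
    funext z
    rw [Complex.coe_smul]
  rw [h]
  exact (differentiable_id.sub_const a).const_smul _

private theorem rk_to {P : E → ℂ} (hP : Differentiable ℂ P) (a : E) {n : ℕ} (hn : n ≠ 0)
    {f : E → ℂ} (hf : f ∈ Vsp n (0 : E → ℂ)) :
    (fun ζ => f (sc a n ζ) * cexp (-P ζ / 2)) ∈ Vsp n P := by
  obtain ⟨hd, C, hC⟩ := hf
  have hP2 : Differentiable ℂ (fun ζ => -P ζ / 2) := by
    simp only [div_eq_mul_inv]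
    exact hP.neg.mul_const _
  refine ⟨(hd.comp (rk_sc_diff a n)).mul hP2.cexp, ?_⟩
  have hC0 : 0 ≤ C := by
    have := hC 0
    simp only [norm_zero, add_zero, one_mul, one_pow, mul_one] at this
    exact (norm_nonneg _).trans this
  refine ⟨(Real.sqrt n * (1 + ‖a‖)) * (C * (1 + ‖a‖) ^ n), ?_⟩
  intro ζ
  have h1 : f (sc a n ζ) * cexp (-P ζ / 2) * cexp (P ζ / 2) = f (sc a n ζ) := by
    rw [mul_assoc, ← Complex.exp_add]
    have : -P ζ / 2 + P ζ / 2 = 0 := by ring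
    rw [this, Complex.exp_zero, mul_one]
  simp only
  rw [h1]
  have h2 := hC (sc a n ζ)
  simp only [Pi.zero_apply, zero_div, Complex.exp_zero, mul_one] at h2
  have h3 := rk_cs_le a hn (sc a n ζ)
  rw [rk_cs_sc a hn] at h3
  have h4 := rk_sc_le a hn ζ
  have hK : 0 ≤ Real.sqrt n * (1 + ‖a‖) := by positivity
  calc (1 + ‖ζ‖) * ‖f (sc a n ζ)‖
      ≤ ((Real.sqrt n * (1 + ‖a‖)) * (1 + ‖sc a n ζ‖)) * ‖f (sc a n ζ)‖ :=
        mul_le_mul_of_nonneg_right h3 (norm_nonneg _)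
    _ = (Real.sqrt n * (1 + ‖a‖)) * ((1 + ‖sc a n ζ‖) * ‖f (sc a n ζ)‖) := by ring
    _ ≤ (Real.sqrt n * (1 + ‖a‖)) * (C * (1 + ‖sc a n ζ‖) ^ n) :=
        mul_le_mul_of_nonneg_left h2 hK
    _ ≤ (Real.sqrt n * (1 + ‖a‖)) * (C * ((1 + ‖a‖) * (1 + ‖ζ‖)) ^ n) := by
        refine mul_le_mul_of_nonneg_left (mul_le_mul_of_nonneg_left ?_ hC0) hK
        exact pow_le_pow_left₀ (by positivity) h4 n
    _ = _ := by
        rw [mul_pow]
        ring

private theorem rk_from {P : E → ℂ} (hP : Differentiable ℂ P) (a : E) {n : ℕ} (hn : n ≠ 0)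
    {F : E → ℂ} (hF : F ∈ Vsp n P) :
    (fun z => F (rk_cs' a n z) * cexp (P (rk_cs' a n z) / 2)) ∈ Vsp n (0 : E → ℂ) := by
  obtain ⟨hd, C, hC⟩ := hF
  have hP2 : Differentiable ℂ (fun z => P (rk_cs' a n z) / 2) := by
    simp only [div_eq_mul_inv]
    exact (hP.comp (rk_cs_diff a n)).mul_const _
  refine ⟨(hd.comp (rk_cs_diff a n)).mul hP2.cexp, ?_⟩
  have hC0 : 0 ≤ C := by
    have := hC 0
    simp only [norm_zero, add_zero, one_mul, one_pow, mul_one] at this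
    exact (norm_nonneg _).trans this
  refine ⟨(1 + ‖a‖) * (C * (Real.sqrt n * (1 + ‖a‖)) ^ n), ?_⟩
  intro z
  simp only [Pi.zero_apply, zero_div, Complex.exp_zero, mul_one]
  have h2 := hC (rk_cs' a n z)
  have h3 := rk_sc_le a hn (rk_cs' a n z)
  rw [rk_sc_cs a hn] at h3
  have h4 := rk_cs_le a hn z
  calc (1 + ‖z‖) * ‖F (rk_cs' a n z) * cexp (P (rk_cs' a n z) / 2)‖
      ≤ ((1 + ‖a‖) * (1 + ‖rk_cs' a n z‖)) *
          ‖F (rk_cs' a n z) * cexp (P (rk_cs' a n z) / 2)‖ :=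
        mul_le_mul_of_nonneg_right h3 (norm_nonneg _)
    _ = (1 + ‖a‖) * ((1 + ‖rk_cs' a n z‖) *
          ‖F (rk_cs' a n z) * cexp (P (rk_cs' a n z) / 2)‖) := by ring
    _ ≤ (1 + ‖a‖) * (C * (1 + ‖rk_cs' a n z‖) ^ n) :=
        mul_le_mul_of_nonneg_left h2 (by positivity)
    _ ≤ (1 + ‖a‖) * (C * ((Real.sqrt n * (1 + ‖a‖)) * (1 + ‖z‖)) ^ n) := by
        refine mul_le_mul_of_nonneg_left (mul_le_mul_of_nonneg_left ?_ hC0) (by positivity)
        exact pow_le_pow_left₀ (by positivity) h4 n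
    _ = _ := by
        rw [mul_pow]
        ring

/-- Rescaling.  Let `z(ζ) = sc a n ζ`, `P = Pn Q a n`.  The map
`f ↦ F(ζ) = f(z(ζ)) e^{-P(ζ)/2}` is a bijection `Vsp n 0 → Vsp n P` (growth is invariant under the
affine map), and by `integral_sc`
`F(η) = e^{-P(η)/2} ∫ f(z) conj(k(z,z(η))) e^{-nQ(z)} dω(z)
 = e^{-P(η)/2} n^{-d} ∫ F(ζ)e^{P(ζ)/2} conj(k(z(ζ),z(η))) e^{-nQ(z(ζ))} dω(ζ)`, while
`conj(Lsc(ζ,η)) e^{-w(ζ)} = n^{-d} conj(k) e^{-nQ(a)} e^{-(conj P(ζ)+P(η))/2} e^{-nQ(z)+nQ(a)+Re P(ζ)}`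
with `w = bl Q Q a n`, and `Re P - ½ conj P = ½ P`. -/
theorem isRK_scaled {Q : E → ℝ} (hQ : IsPot Q) (a : E) {n : ℕ} (hn : n ≠ 0) {k : E → E → ℂ}
    (hk : IsRK (Vsp n (0 : E → ℂ)) (fun z => n * Q z) k) :
    IsRK (Vsp n (Pn Q a n)) (bl Q Q a n) (Lsc Q a n k) := by
  have hP : Differentiable ℂ (Pn Q a n) := (Pn_contDiff hQ.cd a n).differentiable (by simp)
  have hback : ∀ F : E → ℂ, ∀ ζ, F ζ = (fun z => F (rk_cs' a n z) *
      cexp (Pn Q a n (rk_cs' a n z) / 2)) (sc a n ζ) * cexp (-Pn Q a n ζ / 2) := by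
    intro F ζ
    simp only
    rw [rk_cs_sc a hn, mul_assoc, ← Complex.exp_add]
    have : Pn Q a n ζ / 2 + -Pn Q a n ζ / 2 = 0 := by ring
    rw [this, Complex.exp_zero, mul_one]
  refine ⟨fun f hf => hf.1, bl_continuous hQ.cd hQ.cd.continuous a n, ?_, ?_, ?_⟩
  · intro η
    have h1 := rk_to hP a hn (hk.mem (sc a n η))
    have h2 := (Vsp n (Pn Q a n)).smul_mem (((n : ℂ) ^ Module.finrank ℂ E)⁻¹ *
      (Real.exp (-(n * Q a)) : ℂ) * cexp (-(conj (Pn Q a n η)) / 2)) h1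
    have h3 : (fun ζ => Lsc Q a n k ζ η) = (((n : ℂ) ^ Module.finrank ℂ E)⁻¹ *
        (Real.exp (-(n * Q a)) : ℂ) * cexp (-(conj (Pn Q a n η)) / 2)) •
        fun ζ => k (sc a n ζ) (sc a n η) * cexp (-Pn Q a n ζ / 2) := by
      funext ζ
      simp only [Pi.smul_apply, smul_eq_mul]
      unfold Lsc
      have : -(Pn Q a n ζ + conj (Pn Q a n η)) / 2 =
          -Pn Q a n ζ / 2 + -(conj (Pn Q a n η)) / 2 := by ring
      rw [this, Complex.exp_add]
      ring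
    rw [h3]
    exact h2
  · intro F hF
    set f : E → ℂ := fun z => F (rk_cs' a n z) * cexp (Pn Q a n (rk_cs' a n z) / 2) with hf
    have hfm : f ∈ Vsp n (0 : E → ℂ) := rk_from hP a hn hF
    have h1 := hk.int f hfm
    have h2 := (integrable_sc a hn _).mpr h1
    have h3 := h2.const_mul (Real.exp (n * Q a))
    refine h3.congr (Eventually.of_forall fun ζ => ?_)
    simp only
    have h4 : ‖F ζ‖ ^ 2 = ‖f (sc a n ζ)‖ ^ 2 * Real.exp (-(Pn Q a n ζ).re) := by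
      conv_lhs => rw [hback F ζ]
      rw [norm_mul, mul_pow, Complex.norm_exp, ← Real.exp_nat_mul]
      congr 2
      have : (-Pn Q a n ζ / 2).re = -(Pn Q a n ζ).re / 2 := by
        simp
      rw [this]
      push_cast
      ring
    rw [h4]
    unfold bl
    have h5 : Real.exp (-((n : ℝ) * (Q (sc a n ζ) - Q a) - (Pn Q a n ζ).re)) =
        Real.exp (n * Q a) * Real.exp (-(n * Q (sc a n ζ))) * Real.exp ((Pn Q a n ζ).re) := by
      rw [← Real.exp_add, ← Real.exp_add]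
      congr 1
      ring
    rw [h5]
    have h6 : Real.exp (-(Pn Q a n ζ).re) * Real.exp ((Pn Q a n ζ).re) = 1 := by
      rw [← Real.exp_add]
      simp
    calc Real.exp (n * Q a) * (‖f (sc a n ζ)‖ ^ 2 * Real.exp (-(n * Q (sc a n ζ))))
        = Real.exp (n * Q a) * (‖f (sc a n ζ)‖ ^ 2 * Real.exp (-(n * Q (sc a n ζ)))) *
            (Real.exp (-(Pn Q a n ζ).re) * Real.exp ((Pn Q a n ζ).re)) := by rw [h6, mul_one]
      _ = _ := by ring
  · intro F hF η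
    set f : E → ℂ := fun z => F (rk_cs' a n z) * cexp (Pn Q a n (rk_cs' a n z) / 2) with hf
    have hfm : f ∈ Vsp n (0 : E → ℂ) := rk_from hP a hn hF
    have h1 := hk.rep f hfm (sc a n η)
    have h2 := integral_sc a hn (fun z => f z * conj (k z (sc a n η)) *
      (Real.exp (-(n * Q z)) : ℂ))
    have hn0 : (n : ℝ) ^ Module.finrank ℂ E ≠ 0 := by
      apply pow_ne_zero
      exact_mod_cast hn
    have h3 : ∫ z, f z * conj (k z (sc a n η)) * (Real.exp (-(n * Q z)) : ℂ) ∂(om E) =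
        ((n : ℂ) ^ Module.finrank ℂ E)⁻¹ * ∫ ζ, f (sc a n ζ) * conj (k (sc a n ζ) (sc a n η)) *
          (Real.exp (-(n * Q (sc a n ζ))) : ℂ) ∂(om E) := by
      rw [h2, Complex.real_smul]
      push_cast
      rw [← mul_assoc, inv_mul_cancel₀ (by exact_mod_cast hn0), one_mul]
    rw [hback F η]
    have h4 : (fun z => F (rk_cs' a n z) * cexp (Pn Q a n (rk_cs' a n z) / 2)) (sc a n η) =
        f (sc a n η) := rfl
    rw [h4, h1, h3, ← integral_const_mul, ← integral_mul_const]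
    refine integral_congr_ae (Eventually.of_forall fun ζ => ?_)
    simp only
    rw [hback F ζ]
    have h5 : (fun z => F (rk_cs' a n z) * cexp (Pn Q a n (rk_cs' a n z) / 2)) (sc a n ζ) =
        f (sc a n ζ) := rfl
    rw [h5]
    unfold Lsc bl
    simp only [map_mul, map_inv₀, map_pow, Complex.conj_natCast, Complex.conj_ofReal]
    rw [← Complex.exp_conj]
    have h6 : conj (-(Pn Q a n ζ + conj (Pn Q a n η)) / 2) =
        -(conj (Pn Q a n ζ) + Pn Q a n η) / 2 := by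
      rw [map_div₀, map_neg, map_add, Complex.conj_conj, map_ofNat]
    rw [h6]
    have h7 : cexp (-(conj (Pn Q a n ζ) + Pn Q a n η) / 2) =
        cexp (-conj (Pn Q a n ζ) / 2) * cexp (-Pn Q a n η / 2) := by
      rw [← Complex.exp_add]
      congr 1
      ring
    have h8 : (Real.exp (-((n : ℝ) * (Q (sc a n ζ) - Q a) - (Pn Q a n ζ).re)) : ℂ) =
        (Real.exp (n * Q a) : ℂ) * (Real.exp (-(n * Q (sc a n ζ))) : ℂ) *
          (cexp (Pn Q a n ζ / 2) * cexp (conj (Pn Q a n ζ) / 2)) := by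
      have e1 : cexp (Pn Q a n ζ / 2) * cexp (conj (Pn Q a n ζ) / 2) =
          (Real.exp ((Pn Q a n ζ).re) : ℂ) := by
        rw [← Complex.exp_add, Complex.ofReal_exp]
        congr 1
        have := Complex.add_conj (Pn Q a n ζ)
        rw [← add_div, this]
        push_cast
        ring
      rw [e1, ← Complex.ofReal_mul, ← Complex.ofReal_mul, ← Real.exp_add, ← Real.exp_add]
      congr 2
      ring
    rw [h7, h8]
    have h9 : cexp (-Pn Q a n ζ / 2) * cexp (Pn Q a n ζ / 2) = 1 := by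
      rw [← Complex.exp_add]
      have : -Pn Q a n ζ / 2 + Pn Q a n ζ / 2 = 0 := by ring
      rw [this, Complex.exp_zero]
    have h10 : cexp (-conj (Pn Q a n ζ) / 2) * cexp (conj (Pn Q a n ζ) / 2) = 1 := by
      rw [← Complex.exp_add]
      have : -conj (Pn Q a n ζ) / 2 + conj (Pn Q a n ζ) / 2 = 0 := by ring
      rw [this, Complex.exp_zero]
    have h11 : (Real.exp (-(n * Q a)) : ℂ) * (Real.exp (n * Q a) : ℂ) = 1 := by
      rw [← Complex.ofReal_mul, ← Real.exp_add]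
      simp
    calc _ = ((n : ℂ) ^ Module.finrank ℂ E)⁻¹ * (f (sc a n ζ) *
          conj (k (sc a n ζ) (sc a n η)) * (Real.exp (-(n * Q (sc a n ζ))) : ℂ)) *
          cexp (-Pn Q a n η / 2) := by ring
      _ = ((n : ℂ) ^ Module.finrank ℂ E)⁻¹ * (f (sc a n ζ) *
          conj (k (sc a n ζ) (sc a n η)) * (Real.exp (-(n * Q (sc a n ζ))) : ℂ)) *
          cexp (-Pn Q a n η / 2) * (cexp (-Pn Q a n ζ / 2) * cexp (Pn Q a n ζ / 2)) *
          (cexp (-conj (Pn Q a n ζ) / 2) * cexp (conj (Pn Q a n ζ) / 2)) *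
          ((Real.exp (-(n * Q a)) : ℂ) * (Real.exp (n * Q a) : ℂ)) := by
          rw [h9, h10, h11]
          ring
      _ = _ := by ring

private theorem rk_Lsc_self {Q : E → ℝ} (a : E) (n : ℕ) {k : E → E → ℂ} (ζ : E) :
    (Lsc Q a n k ζ ζ).re = ((n : ℝ) ^ Module.finrank ℂ E)⁻¹ * (k (sc a n ζ) (sc a n ζ)).re *
      Real.exp (-(n * Q a)) * Real.exp (-(Pn Q a n ζ).re) := by
  unfold Lsc
  have h1 : cexp (-(Pn Q a n ζ + conj (Pn Q a n ζ)) / 2) = (Real.exp (-(Pn Q a n ζ).re) : ℂ) := by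
    rw [Complex.ofReal_exp]
    congr 1
    rw [Complex.add_conj]
    push_cast
    ring
  have h2 : (((n : ℂ) ^ Module.finrank ℂ E)⁻¹ : ℂ) = ((((n : ℝ) ^ Module.finrank ℂ E)⁻¹ : ℝ) : ℂ) := by
    push_cast
    rfl
  rw [h1, h2, Complex.re_mul_ofReal, Complex.re_mul_ofReal, Complex.re_ofReal_mul]

/-- Upper bound of the kernel: `k(z,z) ≤ C n^d e^{n env Q z}` (`upper_bound` for `p = k(·,z)`,
`∫|k(·,z)|²e^{-nQ} = k(z,z)`), and the same after rescaling. -/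
theorem kernel_upper {Q : E → ℝ} (hQ : IsPot Q) :
    ∃ C : ℝ, 0 < C ∧ ∀ n : ℕ, 1 ≤ n → ∀ k : E → E → ℂ,
      IsRK (Vsp n (0 : E → ℂ)) (fun z => n * Q z) k →
      (∀ z, (k z z).re ≤ C * (n : ℝ) ^ Module.finrank ℂ E * Real.exp (n * env Q z)) ∧
      ∀ a ζ, (Lsc Q a n k ζ ζ).re ≤ C * Real.exp (bl Q (env Q) a n ζ) := by
  obtain ⟨C, hC, hub⟩ := upper_bound hQ
  refine ⟨C, hC, ?_⟩
  intro n hn k hk
  have hn0 : (0 : ℝ) < (n : ℝ) ^ Module.finrank ℂ E := by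
    apply pow_pos
    exact_mod_cast hn
  have h1 : ∀ z, (k z z).re ≤ C * (n : ℝ) ^ Module.finrank ℂ E * Real.exp (n * env Q z) := by
    intro z
    have h2 := hub n hn _ (hk.mem z) (hk.int _ (hk.mem z)) z
    rw [← hk.self_re z] at h2
    have h3 := hk.self_nonneg z
    have h4 : (k z z).re ^ 2 ≤ ‖k z z‖ ^ 2 := by
      rw [← sq_abs]
      exact pow_le_pow_left₀ (abs_nonneg _) (Complex.abs_re_le_norm _) 2
    have h5 : (k z z).re * (k z z).re ≤
        (C * (n : ℝ) ^ Module.finrank ℂ E * Real.exp (n * env Q z)) * (k z z).re := by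
      calc (k z z).re * (k z z).re = (k z z).re ^ 2 := by ring
        _ ≤ _ := h4.trans h2
    by_cases h6 : (k z z).re = 0
    · rw [h6]
      positivity
    · exact le_of_mul_le_mul_right h5 (lt_of_le_of_ne h3 (Ne.symm h6))
  refine ⟨h1, ?_⟩
  intro a ζ
  rw [rk_Lsc_self]
  have h2 := h1 (sc a n ζ)
  have h3 : Real.exp (bl Q (env Q) a n ζ) = Real.exp (n * env Q (sc a n ζ)) *
      Real.exp (-(n * Q a)) * Real.exp (-(Pn Q a n ζ).re) := by
    rw [← Real.exp_add, ← Real.exp_add]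
    congr 1
    unfold bl
    ring
  rw [h3]
  calc ((n : ℝ) ^ Module.finrank ℂ E)⁻¹ * (k (sc a n ζ) (sc a n ζ)).re *
      Real.exp (-(n * Q a)) * Real.exp (-(Pn Q a n ζ).re)
      ≤ ((n : ℝ) ^ Module.finrank ℂ E)⁻¹ *
        (C * (n : ℝ) ^ Module.finrank ℂ E * Real.exp (n * env Q (sc a n ζ))) *
      Real.exp (-(n * Q a)) * Real.exp (-(Pn Q a n ζ).re) := by gcongr
    _ = _ := by
      field_simp

/-- Value of the kernel at the centre: `Lsc(0,0) = n^{-d} k(a,a) e^{-nQ(a)}`. -/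
theorem Lsc_zero (Q : E → ℝ) (a : E) (n : ℕ) (k : E → E → ℂ) :
    Lsc Q a n k 0 0 = ((n : ℂ) ^ Module.finrank ℂ E)⁻¹ * k a a * (Real.exp (-(n * Q a)) : ℂ) := by
  unfold Lsc
  rw [Pn_zero]
  have : sc a n (0 : E) = a := by
    unfold sc
    simp
  rw [this]
  simp

/-- Growth hypothesis of `lower_approx` for the blow-ups:
`bl Q (env Q) a n ζ + Re Pn = n(env Q (sc a n ζ) - Q a) ≤ n log(1+|ζ|²) + C_n`. -/
theorem bl_env_growth {Q : E → ℝ} (hQ : IsPot Q) (a : E) {n : ℕ} (hn : n ≠ 0) :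
    ∃ C : ℝ, ∀ ζ, bl Q (env Q) a n ζ + (Pn Q a n ζ).re ≤ n * Real.log (1 + ‖ζ‖ ^ 2) + C := by
  obtain ⟨M, hM⟩ := env_growth hQ
  refine ⟨n * (Real.log (2 * (1 + ‖a‖ ^ 2)) + M - Q a), ?_⟩
  intro ζ
  have hn0 : (0 : ℝ) ≤ n := Nat.cast_nonneg n
  have hs := rk_sqrt hn
  have h1 : ‖sc a n ζ‖ ≤ ‖a‖ + ‖ζ‖ := by
    unfold sc
    refine (norm_add_le _ _).trans ?_
    have h2 : ‖((Real.sqrt n)⁻¹ : ℝ) • ζ‖ ≤ ‖ζ‖ := by
      rw [norm_smul, Real.norm_eq_abs, abs_of_nonneg (by positivity)]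
      have : (Real.sqrt n)⁻¹ ≤ 1 := inv_le_one_of_one_le₀ hs
      calc (Real.sqrt n)⁻¹ * ‖ζ‖ ≤ 1 * ‖ζ‖ := mul_le_mul_of_nonneg_right this (norm_nonneg _)
        _ = ‖ζ‖ := one_mul _
    linarith
  have h2 : 1 + ‖sc a n ζ‖ ^ 2 ≤ (2 * (1 + ‖a‖ ^ 2)) * (1 + ‖ζ‖ ^ 2) := by
    have h3 : ‖sc a n ζ‖ ^ 2 ≤ (‖a‖ + ‖ζ‖) ^ 2 := pow_le_pow_left₀ (norm_nonneg _) h1 2
    nlinarith [sq_nonneg (‖a‖ - ‖ζ‖), mul_nonneg (sq_nonneg ‖a‖) (sq_nonneg ‖ζ‖)]
  have h3 : Real.log (1 + ‖sc a n ζ‖ ^ 2) ≤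
      Real.log (2 * (1 + ‖a‖ ^ 2)) + Real.log (1 + ‖ζ‖ ^ 2) := by
    rw [← Real.log_mul (by positivity) (by positivity)]
    exact Real.log_le_log (by positivity) h2
  have h4 := hM (sc a n ζ)
  have h5 : env Q (sc a n ζ) - Q a ≤
      Real.log (1 + ‖ζ‖ ^ 2) + (Real.log (2 * (1 + ‖a‖ ^ 2)) + M - Q a) := by linarith
  have h6 := mul_le_mul_of_nonneg_left h5 hn0
  unfold bl
  linarith

end Pool.Agent.Edge
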