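import Pool.Agent.Edge.FockB
import Pool.Agent.Edge.RKBasic
import Pool.Agent.Edge.Compact

/-!
# The kernel limit

Write `L_n = k n`, points `ξm`, `ηm` (`ξ, η ∈ ℂ`).
(a) `L_n(ζ,ζ) ≤ C e^{φ_n(ζ)}` is bounded on balls for large `n`, so by `IsRK.norm_sq_le` all
    `L_n(ζ,ζ')` are bounded on balls.
(b) Upper bound: `limsup L_n(ηm,ηm) ≤ (L0 η η).re`.  Let `A = limsup`, choose a subsequence along
    which `L_n(ηm,ηm) → A`, and by `exists_subseq_tendsto`, `entire_lip` a further one along which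
    `f_n = L_n(·,ηm) → f` locally uniformly.  Then:
    * `|f(ζ)|² ≤ C' e^{phi0 m ζ}` (`norm_sq_le` and (c) of the hypotheses in the limit);
    * `|f|²` is psh (limit of `psh_normSq`), `f(ηm) = A` ;
    * `∫|f|²e^{-|ζ|²} ≤ A`: on each ball `∫_{B}|f|²e^{-|ζ|²} = lim ∫_B|f_n|²e^{-w_n} ≤
      lim ∫|f_n|²e^{-w_n} = lim L_n(ηm,ηm) = A` (`IsRK.self`), then monotone convergence;
    * `κ(λ) = f(λm)` is entire (locally uniform limit of entire functions of one variable),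
      `|κ(λ)|² ≤ C'e^{|λ|²-2(Re λ)_+²}` (`phi0 m (λm)`), and by `gauss_restrict` (`F = |f|²`)
      `∫|κ|²e^{-|λ|²} ≤ ∫|f|²e^{-|ζ|²} ≤ A`.
    `L0_extremal`: `A² = |κ(η)|² ≤ (L0 η η).re · A`, so `A ≤ (L0 η η).re`.
(c) Lower/approximation: fix `η`, `0 < a ≤ 1`, `f_a(ζ) = e^{-a⟪m,ζ⟫}L0(⟪m,ζ⟫,η)` (`ContDiff ℂ ∞`:
    entire function of one variable composed with a linear map), in `L²(e^{-phi0 m})` by
    `L0_reg_L2`, `gauss_split_integrable` (`phi0 m ζ = |ζ|² - 2(Re⟪m,ζ⟫)_+²`).  `hlow` gives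
    `g_n ∈ V n` with `g_n → f_a` at the points `ξm`, `ηm` and `∫|g_n|²e^{-w_n} ≤ N_a + ε`,
    `N_a = ∫|f_a|²e^{-|ζ|²} = ∫|e^{-aλ}L0(λ,η)|²e^{-|λ|²}` (`gauss_split`).
    `IsRK.pointwise`: `|g_n(ξm) - L_n(ξm,ηm)|² ≤ L_n(ξm,ξm)(∫|g_n|²e^{-w_n} - 2Re g_n(ηm) +
    L_n(ηm,ηm))`, whose limsup is `≤ C_ξ (N_a + ε - 2 Re f_a(ηm) + (L0 η η).re)` by (b).  As
    `a → 0+`: `N_a → (L0 η η).re` (`L0_reg_norm_tendsto`), `Re f_a(ηm) → (L0 η η).re`,
    `f_a(ξm) → L0(ξ,η)`.  So `L_n(ξm,ηm) → L0(ξ,η)` for all `ξ, η`.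
(d) Locally uniform: `(ξ,η) ↦ L_n(ξm,ηm)` is uniformly Lipschitz on bounded sets for large `n`
    (holomorphic in `ξ`, and in `η̄` by `IsRK.symm`; bounds from (a)); use
    `tendstoLocallyUniformly_of_lip` on `ℂ × ℂ`.
-/

namespace Pool.Agent.Edge

open MeasureTheory Filter Topology Complex

open scoped ComplexConjugate ContDiff

variable {E : Type*} [NormedAddCommGroup E] [InnerProductSpace ℂ E] [FiniteDimensional ℂ E]
  [MeasurableSpace E] [BorelSpace E]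

namespace CoreLimAux

section aux

variable {m : E} {V : ℕ → Submodule ℂ (E → ℂ)} {w φ : ℕ → E → ℝ} {k : ℕ → E → E → ℂ} {C : ℝ}

omit [FiniteDimensional ℂ E] [MeasurableSpace E] [BorelSpace E] in
theorem phi0_continuous (m : E) : Continuous (phi0 m) := by
  unfold phi0
  have h1 : Continuous (fun ζ : E => (inner ℂ m ζ : ℂ).re) :=
    Complex.continuous_re.comp (continuous_const.inner continuous_id)
  exact (continuous_norm.pow 2).sub (continuous_const.mul ((continuous_const.max h1).pow 2))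

omit [FiniteDimensional ℂ E] [MeasurableSpace E] [BorelSpace E] in
theorem phi0_le (m ζ : E) : phi0 m ζ ≤ ‖ζ‖ ^ 2 := by
  unfold phi0
  nlinarith [sq_nonneg (max 0 (inner ℂ m ζ : ℂ).re)]

omit [FiniteDimensional ℂ E] [MeasurableSpace E] [BorelSpace E] in
theorem inner_smul_unit (hm : ‖m‖ = 1) (z : ℂ) : (inner ℂ m (z • m) : ℂ) = z := by
  rw [inner_smul_right, inner_self_eq_norm_sq_to_K, hm]
  simp

omit [FiniteDimensional ℂ E] [MeasurableSpace E] [BorelSpace E] in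
theorem phi0_smul_unit (hm : ‖m‖ = 1) (z : ℂ) :
    phi0 m (z • m) = ‖z‖ ^ 2 - 2 * (max 0 z.re) ^ 2 := by
  unfold phi0
  rw [inner_smul_unit hm, norm_smul, hm, mul_one]

omit [MeasurableSpace E] [BorelSpace E] in
/-- Step (a): local bounds on the diagonal. -/
theorem diag_bound (hub : ∀ᶠ n in atTop, ∀ ζ, (k n ζ ζ).re ≤ C * Real.exp (φ n ζ))
    (hφ : TendstoLocallyUniformly φ (phi0 m) atTop) (R : ℝ) :
    ∃ B : ℝ, 0 ≤ B ∧ ∀ᶠ n in atTop, ∀ ζ, ‖ζ‖ ≤ R → (k n ζ ζ).re ≤ B := by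
  refine ⟨|C| * Real.exp (R ^ 2 + 1), by positivity, ?_⟩
  have hc : IsCompact (Metric.closedBall (0 : E) R) := isCompact_closedBall 0 R
  have h1 := (tendstoLocallyUniformlyOn_iff_tendstoUniformlyOn_of_compact hc).1
    (hφ.tendstoLocallyUniformlyOn (s := Metric.closedBall (0 : E) R))
  rw [Metric.tendstoUniformlyOn_iff] at h1
  filter_upwards [hub, h1 1 one_pos] with n hn hn1 ζ hζ
  have h2 := hn1 ζ (by simpa using hζ)
  rw [Real.dist_eq, abs_lt] at h2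
  have h3 := phi0_le m ζ
  have h4 : ‖ζ‖ ^ 2 ≤ R ^ 2 := by
    have := norm_nonneg ζ
    nlinarith
  have h5 : φ n ζ ≤ R ^ 2 + 1 := by linarith [h2.1]
  calc (k n ζ ζ).re ≤ C * Real.exp (φ n ζ) := hn ζ
    _ ≤ |C| * Real.exp (φ n ζ) := by
        gcongr
        exact le_abs_self C
    _ ≤ |C| * Real.exp (R ^ 2 + 1) := by
        gcongr

theorem off_bound (hRK : ∀ᶠ n in atTop, IsRK (V n) (w n) (k n))
    (hub : ∀ᶠ n in atTop, ∀ ζ, (k n ζ ζ).re ≤ C * Real.exp (φ n ζ))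
    (hφ : TendstoLocallyUniformly φ (phi0 m) atTop) (R : ℝ) :
    ∃ B : ℝ, 0 ≤ B ∧ ∀ᶠ n in atTop, ∀ ζ η, ‖ζ‖ ≤ R → ‖η‖ ≤ R → ‖k n ζ η‖ ≤ B := by
  obtain ⟨B, hB, h⟩ := diag_bound (m := m) hub hφ R
  refine ⟨B, hB, ?_⟩
  filter_upwards [hRK, h] with n hn hn2 ζ η hζ hη
  have h1 := hn.norm_sq_le ζ η
  have h2 := hn2 ζ hζ
  have h3 := hn2 η hη
  have h4 := hn.self_nonneg ζ
  have h5 := hn.self_nonneg η
  have h6 : ‖k n ζ η‖ ^ 2 ≤ B ^ 2 := by
    calc ‖k n ζ η‖ ^ 2 ≤ (k n ζ ζ).re * (k n η η).re := h1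
      _ ≤ B * B := mul_le_mul h2 h3 h5 hB
      _ = B ^ 2 := by ring
  exact (sq_le_sq₀ (norm_nonneg _) hB).1 h6

/-- Lipschitz bounds in the first variable. -/
theorem lip_first (hRK : ∀ᶠ n in atTop, IsRK (V n) (w n) (k n))
    (hub : ∀ᶠ n in atTop, ∀ ζ, (k n ζ ζ).re ≤ C * Real.exp (φ n ζ))
    (hφ : TendstoLocallyUniformly φ (phi0 m) atTop) (R : ℝ) :
    ∃ B : ℝ, 0 ≤ B ∧ ∀ᶠ n in atTop, ∀ ζ ζ' η, ‖ζ‖ ≤ R → ‖ζ'‖ ≤ R → ‖η‖ ≤ R →
      ‖k n ζ η - k n ζ' η‖ ≤ B * ‖ζ - ζ'‖ := by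
  obtain ⟨B, hB, h⟩ := off_bound (m := m) hRK hub hφ (R + 1)
  refine ⟨B, hB, ?_⟩
  filter_upwards [hRK, h] with n hn hn2 ζ ζ' η hζ hζ' hη
  have hR : 0 ≤ R := (norm_nonneg ζ).trans hζ
  exact entire_lip hR (hn.diff _ (hn.mem η))
    (fun z hz => hn2 z η hz (by linarith)) hζ hζ'

/-- Step (b): the upper bound for the kernel on the diagonal of the line `ℂ m`. -/
theorem upper_limit (hm : ‖m‖ = 1)
    (hRK : ∀ᶠ n in atTop, IsRK (V n) (w n) (k n))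
    (hw : TendstoLocallyUniformly w (fun ζ => ‖ζ‖ ^ 2) atTop)
    (hub : ∀ᶠ n in atTop, ∀ ζ, (k n ζ ζ).re ≤ C * Real.exp (φ n ζ))
    (hφ : TendstoLocallyUniformly φ (phi0 m) atTop) (η : ℂ) {ε : ℝ} (hε : 0 < ε) :
    ∀ᶠ n in atTop, (k n (η • m) (η • m)).re ≤ (L0 η η).re + ε := by
  by_contra hcon
  rw [Filter.not_eventually] at hcon
  obtain ⟨θ, hθ, hθ2⟩ := Filter.extraction_of_frequently_atTop hcon
  -- extract
  have hbd : ∀ R : ℝ, ∃ B : ℝ, ∀ᶠ j in atTop, ∀ z : E, ‖z‖ ≤ R → ‖k (θ j) z (η • m)‖ ≤ B := by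
    intro R
    obtain ⟨B, hB, h⟩ := off_bound (m := m) hRK hub hφ (max R ‖η • m‖)
    refine ⟨B, ?_⟩
    filter_upwards [hθ.tendsto_atTop.eventually h] with j hj z hz
    exact hj z _ (hz.trans (le_max_left _ _)) (le_max_right _ _)
  have hlip : ∀ R : ℝ, ∃ B : ℝ, ∀ᶠ j in atTop, ∀ z z' : E, ‖z‖ ≤ R → ‖z'‖ ≤ R →
      ‖k (θ j) z (η • m) - k (θ j) z' (η • m)‖ ≤ B * ‖z - z'‖ := by
    intro R
    obtain ⟨B, hB, h⟩ := lip_first (m := m) hRK hub hφ (max R ‖η • m‖)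
    refine ⟨B, ?_⟩
    filter_upwards [hθ.tendsto_atTop.eventually h] with j hj z z' hz hz'
    exact hj z z' _ (hz.trans (le_max_left _ _)) (hz'.trans (le_max_left _ _)) (le_max_right _ _)
  obtain ⟨θ', f, hθ', hfc, hf⟩ := exists_subseq_tendsto hbd hlip
  set σ : ℕ → ℕ := fun j => θ (θ' j) with hσ
  have hσt : Tendsto σ atTop atTop := (hθ.comp hθ').tendsto_atTop
  have hRK' : ∀ᶠ j in atTop, IsRK (V (σ j)) (w (σ j)) (k (σ j)) := hσt.eventually hRK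
  have hub' := hσt.eventually hub
  -- pointwise limits
  have hfpt : ∀ z, Tendsto (fun j => k (σ j) z (η • m)) atTop (𝓝 (f z)) := fun z =>
    tlu_tendsto hfc hf tendsto_const_nhds
  have hwpt : ∀ z, Tendsto (fun j => w (σ j) z) atTop (𝓝 (‖z‖ ^ 2)) := fun z =>
    (tlu_tendsto (continuous_norm.pow 2) hw (u := fun _ => z) tendsto_const_nhds).comp hσt
  have hφpt : ∀ z, Tendsto (fun j => φ (σ j) z) atTop (𝓝 (phi0 m z)) := fun z =>
    (tlu_tendsto (phi0_continuous m) hφ (u := fun _ => z) tendsto_const_nhds).comp hσt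
  set A : ℝ := (f (η • m)).re with hA
  have hAt : Tendsto (fun j => (k (σ j) (η • m) (η • m)).re) atTop (𝓝 A) :=
    (Complex.continuous_re.tendsto _).comp (hfpt (η • m))
  have hAge : (L0 η η).re + ε ≤ A := by
    refine ge_of_tendsto hAt (Filter.Eventually.of_forall fun j => ?_)
    exact (not_le.1 (hθ2 (θ' j))).le
  have hL0 := L0_self_pos η
  have hApos : 0 < A := by linarith
  -- growth of f
  have hgrow : ∀ z, ‖f z‖ ^ 2 ≤ C * Real.exp (phi0 m z) * A := by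
    intro z
    have h1 : Tendsto (fun j => ‖k (σ j) z (η • m)‖ ^ 2) atTop (𝓝 (‖f z‖ ^ 2)) :=
      ((hfpt z).norm).pow 2
    have h2 : Tendsto (fun j => C * Real.exp (φ (σ j) z) * (k (σ j) (η • m) (η • m)).re) atTop
        (𝓝 (C * Real.exp (phi0 m z) * A)) :=
      (((Real.continuous_exp.tendsto _).comp (hφpt z)).const_mul C).mul hAt
    refine le_of_tendsto_of_tendsto h1 h2 ?_
    filter_upwards [hRK', hub'] with j hj hj2
    exact (hj.norm_sq_le z (η • m)).trans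
      (mul_le_mul_of_nonneg_right (hj2 z) (hj.self_nonneg _))
  -- |f|² is psh
  have hpsh : PSH (fun z => ‖f z‖ ^ 2) := by
    have h1 : TendstoLocallyUniformly (fun j (z : E) => ‖k (σ j) z (η • m)‖ ^ 2)
        (fun z => ‖f z‖ ^ 2) atTop := by
      have hf' := (tlu_iff hfc).1 hf
      refine (tlu_iff (f := fun z => ‖f z‖ ^ 2) (hfc.norm.pow 2)).2 fun x => ?_
      exact ((hf' x).norm).pow 2
    refine psh_of_tendstoLocallyUniformly ?_ h1
    filter_upwards [hRK'] with j hj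
    exact psh_normSq (hj.diff _ (hj.mem _))
  -- Fatou
  have hmeas : ∀ᶠ j in atTop, AEMeasurable (fun z : E =>
      ENNReal.ofReal (‖k (σ j) z (η • m)‖ ^ 2 * Real.exp (-w (σ j) z))) (om E) := by
    filter_upwards [hRK'] with j hj
    refine (Continuous.measurable ?_).aemeasurable
    have h1 : Continuous (fun z => k (σ j) z (η • m)) := (hj.diff _ (hj.mem _)).continuous
    exact ENNReal.continuous_ofReal.comp
      ((h1.norm.pow 2).mul (Real.continuous_exp.comp hj.wcont.neg))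
  obtain ⟨N, hN⟩ := Filter.eventually_atTop.1 (hmeas.and hRK')
  have hfatou : ∫⁻ z : E, ENNReal.ofReal (‖f z‖ ^ 2 * Real.exp (-‖z‖ ^ 2)) ∂(om E) ≤
      ENNReal.ofReal A := by
    have h1 : ∀ z : E, Tendsto (fun j => ENNReal.ofReal
        (‖k (σ (j + N)) z (η • m)‖ ^ 2 * Real.exp (-w (σ (j + N)) z))) atTop
        (𝓝 (ENNReal.ofReal (‖f z‖ ^ 2 * Real.exp (-‖z‖ ^ 2)))) := by
      intro z
      have h2 : Tendsto (fun j => ENNReal.ofReal
        (‖k (σ j) z (η • m)‖ ^ 2 * Real.exp (-w (σ j) z))) atTop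
        (𝓝 (ENNReal.ofReal (‖f z‖ ^ 2 * Real.exp (-‖z‖ ^ 2)))) := by
        refine (ENNReal.continuous_ofReal.tendsto _).comp ?_
        exact (((hfpt z).norm).pow 2).mul
          ((Real.continuous_exp.tendsto _).comp (hwpt z).neg)
      exact h2.comp (tendsto_add_atTop_nat N)
    have h3 : ∫⁻ z : E, ENNReal.ofReal (‖f z‖ ^ 2 * Real.exp (-‖z‖ ^ 2)) ∂(om E) ≤
        liminf (fun j => ∫⁻ z : E, ENNReal.ofReal
          (‖k (σ (j + N)) z (η • m)‖ ^ 2 * Real.exp (-w (σ (j + N)) z)) ∂(om E)) atTop := by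
      calc ∫⁻ z : E, ENNReal.ofReal (‖f z‖ ^ 2 * Real.exp (-‖z‖ ^ 2)) ∂(om E)
          = ∫⁻ z : E, liminf (fun j => ENNReal.ofReal
            (‖k (σ (j + N)) z (η • m)‖ ^ 2 * Real.exp (-w (σ (j + N)) z))) atTop ∂(om E) := by
            refine lintegral_congr fun z => ?_
            exact (h1 z).liminf_eq.symm
        _ ≤ _ := lintegral_liminf_le' fun j => (hN (j + N) (Nat.le_add_left _ _)).1
    refine h3.trans (le_of_eq ?_)
    have h4 : ∀ j, ∫⁻ z : E, ENNReal.ofReal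
          (‖k (σ (j + N)) z (η • m)‖ ^ 2 * Real.exp (-w (σ (j + N)) z)) ∂(om E) =
        ENNReal.ofReal (k (σ (j + N)) (η • m) (η • m)).re := by
      intro j
      have hj := (hN (j + N) (Nat.le_add_left _ _)).2
      rw [← ofReal_integral_eq_lintegral_ofReal (hj.int _ (hj.mem _))
        (Filter.Eventually.of_forall fun z => by positivity), hj.self, Complex.ofReal_re]
    simp_rw [h4]
    refine Tendsto.liminf_eq ?_
    exact (ENNReal.continuous_ofReal.tendsto _).comp (hAt.comp (tendsto_add_atTop_nat N))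
  have hcont : Continuous (fun z : E => ‖f z‖ ^ 2 * Real.exp (-‖z‖ ^ 2)) :=
    (hfc.norm.pow 2).mul (Real.continuous_exp.comp (continuous_norm.pow 2).neg)
  have hint : Integrable (fun z : E => ‖f z‖ ^ 2 * Real.exp (-‖z‖ ^ 2)) (om E) := by
    refine ⟨hcont.aestronglyMeasurable, ?_⟩
    rw [hasFiniteIntegral_iff_ofReal (Filter.Eventually.of_forall fun z => by positivity)]
    exact hfatou.trans_lt ENNReal.ofReal_lt_top
  have hintle : ∫ z : E, ‖f z‖ ^ 2 * Real.exp (-‖z‖ ^ 2) ∂(om E) ≤ A := by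
    rw [← ofReal_integral_eq_lintegral_ofReal hint
      (Filter.Eventually.of_forall fun z => by positivity)] at hfatou
    exact (ENNReal.ofReal_le_ofReal_iff hApos.le).1 hfatou
  -- restriction to the line
  have hres := gauss_restrict hm hpsh (fun z => by positivity) hint
  -- entire on the line
  have hκ : Differentiable ℂ (fun z : ℂ => f (z • m)) := by
    have h1 : TendstoLocallyUniformlyOn (fun j (z : ℂ) => k (σ j) (z • m) (η • m))
        (fun z => f (z • m)) atTop Set.univ := by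
      rw [tendstoLocallyUniformlyOn_univ]
      exact tlu_comp hfc hf (g := fun z : ℂ => z • m) (continuous_id.smul continuous_const)
    have h2 := h1.differentiableOn (by
      filter_upwards [hRK'] with j hj
      exact ((hj.diff _ (hj.mem _)).comp
        (differentiable_id.smul_const m)).differentiableOn) isOpen_univ
    exact differentiableOn_univ.1 h2
  have hκb : ∀ ζ : ℂ, ‖f (ζ • m)‖ ^ 2 ≤
      (C * A) * Real.exp (‖ζ‖ ^ 2 - 2 * (max 0 ζ.re) ^ 2) := by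
    intro ζ
    have := hgrow (ζ • m)
    rw [phi0_smul_unit hm] at this
    linarith
  have hext := L0_extremal hκ hκb hres.1 η
  have h1 : A ^ 2 ≤ ‖f (η • m)‖ ^ 2 := by
    have := Complex.abs_re_le_norm (f (η • m))
    have h2 : |A| ≤ ‖f (η • m)‖ := this
    rw [← sq_abs A]
    gcongr
  have h2 : A ^ 2 ≤ (L0 η η).re * A := by
    calc A ^ 2 ≤ ‖f (η • m)‖ ^ 2 := h1
      _ ≤ (L0 η η).re * ∫ ζ : ℂ, ‖f (ζ • m)‖ ^ 2 * Real.exp (-‖ζ‖ ^ 2) ∂(om ℂ) := hext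
      _ ≤ (L0 η η).re * A := by
        gcongr
        exact hres.2.trans hintle
  nlinarith

/-- Step (c): pointwise convergence of the kernels. -/
theorem kernel_pointwise (hm : ‖m‖ = 1)
    (hRK : ∀ᶠ n in atTop, IsRK (V n) (w n) (k n))
    (hw : TendstoLocallyUniformly w (fun ζ => ‖ζ‖ ^ 2) atTop)
    (hub : ∀ᶠ n in atTop, ∀ ζ, (k n ζ ζ).re ≤ C * Real.exp (φ n ζ))
    (hφ : TendstoLocallyUniformly φ (phi0 m) atTop)
    (hlow : ∀ f : E → ℂ, ContDiff ℂ ∞ f →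
      Integrable (fun ζ => ‖f ζ‖ ^ 2 * Real.exp (-phi0 m ζ)) (om E) → ∀ r0 ε : ℝ, 0 < ε →
      ∀ᶠ n in atTop, ∃ g ∈ V n, (∀ ζ, ‖ζ‖ ≤ r0 → ‖g ζ - f ζ‖ ≤ ε) ∧
        ∫ ζ, ‖g ζ‖ ^ 2 * Real.exp (-w n ζ) ∂(om E) ≤
          (∫ ζ, ‖f ζ‖ ^ 2 * Real.exp (-‖ζ‖ ^ 2) ∂(om E)) + ε)
    (ξ η : ℂ) :
    Tendsto (fun n => k n (ξ • m) (η • m)) atTop (𝓝 (L0 ξ η)) := by
  obtain ⟨B, hB, hBn⟩ := diag_bound (m := m) hub hφ ‖ξ • m‖
  rw [Metric.tendsto_nhds]
  intro δ hδ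
  -- the approximants
  set fa : ℝ → E → ℂ := fun a ζ => cexp (-a * (inner ℂ m ζ : ℂ)) * L0 (inner ℂ m ζ : ℂ) η with hfa
  set Na : ℝ → ℝ := fun a => ∫ ζ : ℂ, ‖cexp (-a * ζ) * L0 ζ η‖ ^ 2 * Real.exp (-‖ζ‖ ^ 2) ∂(om ℂ)
    with hNa
  have hT1 : Tendsto Na (𝓝[>] 0) (𝓝 (L0 η η).re) := L0_reg_norm_tendsto η
  have hT2 : ∀ z : ℂ, Tendsto (fun a : ℝ => cexp (-a * z) * L0 z η) (𝓝[>] 0) (𝓝 (L0 z η)) := by
    intro z
    have h1 : Continuous (fun a : ℝ => cexp (-a * z) * L0 z η) := by fun_prop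
    have h2 := h1.tendsto 0
    simp only [Complex.ofReal_zero, neg_zero, zero_mul, Complex.exp_zero, one_mul] at h2
    exact h2.mono_left nhdsWithin_le_nhds
  have hT3 : Tendsto (fun a : ℝ => B * (Na a - 2 * (cexp (-a * η) * L0 η η).re + (L0 η η).re))
      (𝓝[>] 0) (𝓝 0) := by
    have h1 := (Complex.continuous_re.tendsto _).comp (hT2 η)
    have h2 := ((hT1.sub (h1.const_mul 2)).add_const (L0 η η).re).const_mul B
    have h3 : B * ((L0 η η).re - 2 * (L0 η η).re + (L0 η η).re) = 0 := by ring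
    rw [h3] at h2
    exact h2
  have hδ3 : 0 < δ / 3 := by positivity
  have hδ9 : 0 < (δ / 3) ^ 2 / 2 := by positivity
  obtain ⟨a, ⟨ha1, ha2⟩, ha0, hale⟩ :=
    (((hT3.eventually_lt_const hδ9).and
      ((Metric.tendsto_nhds.1 (hT2 ξ)) (δ / 3) hδ3)).and
      ((self_mem_nhdsWithin : Set.Ioi (0:ℝ) ∈ 𝓝[>] (0:ℝ)) |> fun h1 =>
        (Filter.Eventually.and (p := fun a : ℝ => 0 < a) h1
          ((eventually_le_nhds (by norm_num : (0:ℝ) < 1)).filter_mono nhdsWithin_le_nhds)))).exists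
  -- regularity of fa
  have hinner : ContDiff ℂ ∞ (fun ζ : E => (inner ℂ m ζ : ℂ)) :=
    (innerSL ℂ m).contDiff
  have hcd : ContDiff ℂ ∞ (fa a) := by
    have h1 : ContDiff ℂ ∞ (fun z : ℂ => cexp (-a * z) * L0 z η) := by
      have h2 : Differentiable ℂ (fun z : ℂ => cexp (-a * z) * L0 z η) :=
        (Complex.differentiable_exp.comp (differentiable_id.const_mul _)).mul
          (L0_differentiable η)
      exact h2.contDiff
    exact h1.comp hinner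
  have hGc : Continuous (fun z : ℂ => ‖cexp (-a * z) * L0 z η‖ ^ 2) := by
    have h1 : Continuous (fun z : ℂ => L0 z η) := (L0_differentiable η).continuous
    have h2 : Continuous (fun z : ℂ => cexp (-a * z)) := by fun_prop
    exact ((h2.mul h1).norm).pow 2
  have hfint : Integrable (fun ζ => ‖fa a ζ‖ ^ 2 * Real.exp (-phi0 m ζ)) (om E) := by
    have h1 := L0_reg_L2 η ha0 hale
    have hG2 : Continuous (fun z : ℂ => ‖cexp (-a * z) * L0 z η‖ ^ 2 *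
        Real.exp (2 * (max 0 z.re) ^ 2)) := by
      refine hGc.mul (Real.continuous_exp.comp ?_)
      exact continuous_const.mul ((continuous_const.max Complex.continuous_re).pow 2)
    have h2 := (gauss_split_integrable hm hG2).2 (by
      refine h1.congr (Filter.Eventually.of_forall fun z => ?_)
      simp only
      rw [mul_assoc, ← Real.exp_add]
      congr 2
      ring)
    refine h2.congr (Filter.Eventually.of_forall fun ζ => ?_)
    simp only [hfa]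
    rw [mul_assoc, ← Real.exp_add]
    congr 2
    unfold phi0
    ring
  have hNaE : ∫ ζ, ‖fa a ζ‖ ^ 2 * Real.exp (-‖ζ‖ ^ 2) ∂(om E) = Na a := gauss_split hm hGc
  -- choose ε
  set ε : ℝ := min (δ / 9) ((δ / 3) ^ 2 / 2 / (4 * B + 1)) with hεd
  have hε : 0 < ε := by
    rw [hεd]
    refine lt_min (by positivity) ?_
    positivity
  have hε1 : ε ≤ δ / 9 := min_le_left _ _
  have hε2 : B * (4 * ε) ≤ (δ / 3) ^ 2 / 2 := by
    have h1 : ε * (4 * B + 1) ≤ (δ / 3) ^ 2 / 2 := by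
      have := min_le_right (δ / 9) ((δ / 3) ^ 2 / 2 / (4 * B + 1))
      rw [← hεd] at this
      exact (le_div_iff₀ (by positivity)).1 this
    nlinarith
  filter_upwards [hRK, hBn, upper_limit hm hRK hw hub hφ η hε,
    hlow (fa a) hcd hfint (max ‖ξ • m‖ ‖η • m‖) ε hε] with n hn hn2 hn3 hn4
  obtain ⟨g, hgV, hg1, hg2⟩ := hn4
  have hgξ := hg1 (ξ • m) (le_max_left _ _)
  have hgη := hg1 (η • m) (le_max_right _ _)
  have hfξ : fa a (ξ • m) = cexp (-a * ξ) * L0 ξ η := by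
    simp only [hfa]; rw [inner_smul_unit hm]
  have hfη : fa a (η • m) = cexp (-a * η) * L0 η η := by
    simp only [hfa]; rw [inner_smul_unit hm]
  have hpt := hn.pointwise hgV (ξ • m) (η • m)
  have hre : (cexp (-a * η) * L0 η η).re - ε ≤ (g (η • m)).re := by
    have h1 := Complex.abs_re_le_norm (g (η • m) - fa a (η • m))
    rw [Complex.sub_re] at h1
    have h2 := (abs_le.1 (h1.trans hgη)).1
    rw [hfη] at h2
    linarith
  have hsq : ‖g (ξ • m) - k n (ξ • m) (η • m)‖ ^ 2 < (δ / 3) ^ 2 := by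
    have hX : (∫ z, ‖g z‖ ^ 2 * Real.exp (-w n z) ∂(om E)) - 2 * (g (η • m)).re +
        (k n (η • m) (η • m)).re ≤
        Na a - 2 * (cexp (-a * η) * L0 η η).re + (L0 η η).re + 4 * ε := by
      rw [hNaE] at hg2
      linarith
    have hX0 : 0 ≤ (∫ z, ‖g z‖ ^ 2 * Real.exp (-w n z) ∂(om E)) - 2 * (g (η • m)).re +
        (k n (η • m) (η • m)).re := by
      rw [← hn.dist_sq hgV (η • m)]
      exact integral_nonneg fun z => by positivity
    calc ‖g (ξ • m) - k n (ξ • m) (η • m)‖ ^ 2 ≤ (k n (ξ • m) (ξ • m)).re *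
          ((∫ z, ‖g z‖ ^ 2 * Real.exp (-w n z) ∂(om E)) - 2 * (g (η • m)).re +
            (k n (η • m) (η • m)).re) := hpt
      _ ≤ B * ((∫ z, ‖g z‖ ^ 2 * Real.exp (-w n z) ∂(om E)) - 2 * (g (η • m)).re +
            (k n (η • m) (η • m)).re) := mul_le_mul_of_nonneg_right (hn2 _ le_rfl) hX0
      _ ≤ B * (Na a - 2 * (cexp (-a * η) * L0 η η).re + (L0 η η).re + 4 * ε) :=
          mul_le_mul_of_nonneg_left hX hB
      _ = B * (Na a - 2 * (cexp (-a * η) * L0 η η).re + (L0 η η).re) + B * (4 * ε) := by ring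
      _ < (δ / 3) ^ 2 / 2 + (δ / 3) ^ 2 / 2 := add_lt_add_of_lt_of_le ha1 hε2
      _ = (δ / 3) ^ 2 := by ring
  have h1 : ‖g (ξ • m) - k n (ξ • m) (η • m)‖ < δ / 3 :=
    lt_of_pow_lt_pow_left₀ 2 hδ3.le hsq
  rw [hfξ] at hgξ
  rw [dist_eq_norm] at ha2 ⊢
  calc ‖k n (ξ • m) (η • m) - L0 ξ η‖
      = ‖-(g (ξ • m) - k n (ξ • m) (η • m)) + (g (ξ • m) - cexp (-a * ξ) * L0 ξ η)
        + (cexp (-a * ξ) * L0 ξ η - L0 ξ η)‖ := by congr 1; ring
    _ ≤ ‖-(g (ξ • m) - k n (ξ • m) (η • m))‖ + ‖g (ξ • m) - cexp (-a * ξ) * L0 ξ η‖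
        + ‖cexp (-a * ξ) * L0 ξ η - L0 ξ η‖ := norm_add₃_le
    _ < δ / 3 + δ / 3 + δ / 3 := by
        rw [norm_neg]
        have : ‖g (ξ • m) - cexp (-a * ξ) * L0 ξ η‖ < δ / 3 := by linarith
        linarith
    _ = δ := by ring

end aux

end CoreLimAux

open CoreLimAux

theorem kernel_limit {m : E} (hm : ‖m‖ = 1) {V : ℕ → Submodule ℂ (E → ℂ)} {w φ : ℕ → E → ℝ}
    {k : ℕ → E → E → ℂ} {C : ℝ}
    (hRK : ∀ᶠ n in atTop, IsRK (V n) (w n) (k n))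
    (hw : TendstoLocallyUniformly w (fun ζ => ‖ζ‖ ^ 2) atTop)
    (hub : ∀ᶠ n in atTop, ∀ ζ, (k n ζ ζ).re ≤ C * Real.exp (φ n ζ))
    (hφ : TendstoLocallyUniformly φ (phi0 m) atTop)
    (hlow : ∀ f : E → ℂ, ContDiff ℂ ∞ f →
      Integrable (fun ζ => ‖f ζ‖ ^ 2 * Real.exp (-phi0 m ζ)) (om E) → ∀ r0 ε : ℝ, 0 < ε →
      ∀ᶠ n in atTop, ∃ g ∈ V n, (∀ ζ, ‖ζ‖ ≤ r0 → ‖g ζ - f ζ‖ ≤ ε) ∧
        ∫ ζ, ‖g ζ‖ ^ 2 * Real.exp (-w n ζ) ∂(om E) ≤
          (∫ ζ, ‖f ζ‖ ^ 2 * Real.exp (-‖ζ‖ ^ 2) ∂(om E)) + ε) :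
    TendstoLocallyUniformly (fun n (p : ℂ × ℂ) => k n (p.1 • m) (p.2 • m))
      (fun p => L0 p.1 p.2) atTop := by
  refine tendstoLocallyUniformly_of_lip ?_ fun p =>
    kernel_pointwise hm hRK hw hub hφ hlow p.1 p.2
  intro R
  obtain ⟨B, hB, h⟩ := lip_first (m := m) hRK hub hφ R
  refine ⟨2 * B, ?_⟩
  filter_upwards [hRK, h] with n hn hl p q hp hq
  have hnm : ∀ z : ℂ, ‖z • m‖ = ‖z‖ := fun z => by rw [norm_smul, hm, mul_one]
  have hp1 : ‖p.1‖ ≤ R := (norm_fst_le p).trans hp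
  have hp2 : ‖p.2‖ ≤ R := (norm_snd_le p).trans hp
  have hq1 : ‖q.1‖ ≤ R := (norm_fst_le q).trans hq
  have hq2 : ‖q.2‖ ≤ R := (norm_snd_le q).trans hq
  have h1 : ‖k n (p.1 • m) (p.2 • m) - k n (q.1 • m) (p.2 • m)‖ ≤ B * ‖p.1 - q.1‖ := by
    have := hl (p.1 • m) (q.1 • m) (p.2 • m) (by rwa [hnm]) (by rwa [hnm]) (by rwa [hnm])
    rwa [← sub_smul, hnm] at this
  have h2 : ‖k n (q.1 • m) (p.2 • m) - k n (q.1 • m) (q.2 • m)‖ ≤ B * ‖p.2 - q.2‖ := by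
    have := hl (p.2 • m) (q.2 • m) (q.1 • m) (by rwa [hnm]) (by rwa [hnm]) (by rwa [hnm])
    rw [← sub_smul, hnm] at this
    rw [hn.symm (p.2 • m) (q.1 • m), hn.symm (q.2 • m) (q.1 • m), ← map_sub,
      RCLike.norm_conj]
    exact this
  have h3 : ‖p.1 - q.1‖ ≤ ‖p - q‖ := norm_fst_le (p - q)
  have h4 : ‖p.2 - q.2‖ ≤ ‖p - q‖ := norm_snd_le (p - q)
  calc ‖k n (p.1 • m) (p.2 • m) - k n (q.1 • m) (q.2 • m)‖
      = ‖(k n (p.1 • m) (p.2 • m) - k n (q.1 • m) (p.2 • m)) +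
        (k n (q.1 • m) (p.2 • m) - k n (q.1 • m) (q.2 • m))‖ := by congr 1; ring
    _ ≤ B * ‖p.1 - q.1‖ + B * ‖p.2 - q.2‖ := (norm_add_le _ _).trans (add_le_add h1 h2)
    _ ≤ B * ‖p - q‖ + B * ‖p - q‖ := by gcongr
    _ = 2 * B * ‖p - q‖ := by ring

end Pool.Agent.Edge
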