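import Pool.Agent.Edge.Bulk
import Pool.Agent.Edge.BlowEdge
import Pool.Agent.Edge.CoreLim
import Pool.Agent.Edge.Affine

/-!
# The abstract edge theorem
-/

namespace Pool.Agent.Edge

open MeasureTheory Filter Topology Complex

open scoped ComplexConjugate

variable {E : Type*} [NormedAddCommGroup E] [InnerProductSpace ℂ E] [FiniteDimensional ℂ E]
  [MeasurableSpace E] [BorelSpace E]

/-- Edge universality at a point `a` where the complex Hessian is the identity. -/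
theorem edge_normalised [Nontrivial E] {Q : E → ℝ} (hQ : IsPot Q)
    (hs : ∀ z v : E, v ≠ 0 → 0 < Levi Q z v) {k : ℕ → E → E → ℂ}
    (hk : ∀ᶠ (n : ℕ) in atTop, IsRK (Vsp n (0 : E → ℂ)) (fun z => n * Q z) (k n))
    (hkc : ∀ᶠ (n : ℕ) in atTop, Continuous (fun z => k n z z))
    {N : ℕ → ℝ} {c₁ c₂ : ℝ} (hc₁ : 0 < c₁)
    (hN : ∀ᶠ (n : ℕ) in atTop, c₁ * (n : ℝ) ^ Module.finrank ℂ E ≤ N n ∧
      N n ≤ c₂ * (n : ℝ) ^ Module.finrank ℂ E)
    {S : Set E} (hS : MeasurableSet S) {D : E → ℝ} (hD : ∀ z, 0 < D z) (hDc : Continuous D)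
    (hlim : Tendsto (fun n => eLpNorm (fun z => (k n z z).re * Real.exp (-(n * Q z)) / N n
      - S.indicator D z) 1 (om E)) atTop (𝓝 0))
    {a m : E} (hL : ∀ v, Levi Q a v = 4 * ‖v‖ ^ 2) (hm : ‖m‖ = 1) {ρ : E → ℝ} {κ : ℝ}
    (hκ : 0 < κ)
    (hρ : ∀ ε > 0, ∀ᶠ v in 𝓝 (0 : E), |ρ (a + v) - κ * (inner ℂ m v : ℂ).re| ≤ ε * ‖v‖)
    (hSρ : ∀ᶠ z in 𝓝 a, (z ∈ S ↔ ρ z ≤ 0)) :
    TendstoLocallyUniformly (fun n (p : ℂ × ℂ) => Lsc Q a n (k n) (p.1 • m) (p.2 • m))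
      (fun p => L0 p.1 p.2) atTop := by
  have hSD : ∀ᵐ z ∂(om E), (z ∈ S ↔ env Q z = Q z) :=
    droplet_eq hQ hs hk hkc hc₁ hN hS hD hDc hlim
  obtain ⟨ha, hblow⟩ := blow_edge hQ hL hm hκ hρ hSρ hSD
  obtain ⟨C, hC, hup⟩ := kernel_upper (E := E) hQ
  obtain ⟨K, hK⟩ := bl_env_C11 hQ a
  have hne : ∀ᶠ (n : ℕ) in atTop, n ≠ 0 := eventually_ne_atTop 0
  have hlevi : (fun ζ => (1 / 4) * Levi Q a ζ) = fun ζ : E => ‖ζ‖ ^ 2 := by
    funext ζ
    rw [hL]; ring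
  have hw : TendstoLocallyUniformly (fun n => bl Q Q a n) (fun ζ : E => ‖ζ‖ ^ 2) atTop := by
    rw [← hlevi]
    exact bl_self_tendsto hQ.cd a
  have hphic : Continuous (phi0 m) := (phi0_C11 hm).continuous
  refine kernel_limit hm (V := fun n => Vsp n (Pn Q a n)) (w := fun n => bl Q Q a n)
    (φ := fun n => bl Q (env Q) a n) (k := fun n => Lsc Q a n (k n)) (C := C) ?_ hw ?_ hblow ?_
  · filter_upwards [hk, hne] with n hn hn0
    exact isRK_scaled hQ a hn0 hn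
  · filter_upwards [hk, hne] with n hn hn0 ζ
    exact (hup n (Nat.one_le_iff_ne_zero.2 hn0) (k n) hn).2 a ζ
  · intro f hf hfi r0 ε hε
    have h := lower_approx (φ := fun n => bl Q (env Q) a n) (w := fun n => bl Q Q a n)
      (φi := phi0 m) (wi := fun ζ => ‖ζ‖ ^ 2) (P := fun n => Pn Q a n) (K := K)
      (Eventually.of_forall fun n => bl_env_psh hQ a n) (Eventually.of_forall hK) hphic hblow
      (Eventually.of_forall fun n => (Pn_contDiff hQ.cd a n).differentiable (by simp))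
      (by filter_upwards [hne] with n hn using bl_env_growth hQ a hn)
      (Eventually.of_forall fun n => bl_continuous hQ.cd hQ.cd.continuous a n)
      (by fun_prop) hw (Eventually.of_forall fun n ζ => bl_env_le hQ a n ζ)
      (phi0_levi hm) hf hfi r0 hε
    filter_upwards [h] with n hn
    obtain ⟨g, hg, h1, -, h2⟩ := hn
    exact ⟨g, hg, h1, h2⟩

end Pool.Agent.Edge
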