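import Pool.Agent.Edge.PSHBasic

/-!
# Radial mollification

`rho` is a smooth radial probability density (w.r.t. `om E`) supported in the unit ball,
`moll s f z = ∫ rho(y) f(z - s y) dω(y)`.
-/

namespace Pool.Agent.Edge

open MeasureTheory Filter Topology Complex

open scoped ComplexConjugate ContDiff

variable {E : Type*} [NormedAddCommGroup E] [InnerProductSpace ℂ E] [FiniteDimensional ℂ E]
  [MeasurableSpace E] [BorelSpace E]
variable {G : Type*} [NormedAddCommGroup G] [NormedSpace ℝ G] [CompleteSpace G]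

/-- unnormalised radial bump. -/
noncomputable def rho0 (x : E) : ℝ := Real.smoothTransition (1 - ‖x‖ ^ 2)

/-- radial mollifier: `C^∞`, `≥ 0`, `= 0` for `‖x‖ ≥ 1`, `> 0` for `‖x‖ < 1`, integral one. -/
noncomputable def rho (x : E) : ℝ := rho0 x / ∫ y, rho0 y ∂(om E)

noncomputable def moll (s : ℝ) (f : E → G) (z : E) : G := ∫ y, rho y • f (z - s • y) ∂(om E)

theorem MollAux.rho0_contDiff : ContDiff ℝ ∞ (rho0 : E → ℝ) := by
  unfold rho0
  exact Real.smoothTransition.contDiff.comp (contDiff_const.sub (contDiff_norm_sq ℂ))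

theorem MollAux.rho0_nonneg (x : E) : 0 ≤ rho0 x := Real.smoothTransition.nonneg _

theorem MollAux.rho0_eq_zero {x : E} (hx : 1 ≤ ‖x‖) : rho0 x = 0 := by
  unfold rho0
  apply Real.smoothTransition.zero_of_nonpos
  nlinarith

theorem MollAux.rho0_pos {x : E} (hx : ‖x‖ < 1) : 0 < rho0 x := by
  unfold rho0
  apply Real.smoothTransition.pos_of_pos
  nlinarith [norm_nonneg x]

theorem MollAux.rho0_hasCompactSupport : HasCompactSupport (rho0 : E → ℝ) := by
  apply HasCompactSupport.intro (isCompact_closedBall (0 : E) 1)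
  intro x hx
  apply MollAux.rho0_eq_zero
  rw [mem_closedBall_zero_iff, not_le] at hx
  exact hx.le

theorem MollAux.rho0_integrable : Integrable (rho0 : E → ℝ) (om E) :=
  MollAux.rho0_contDiff.continuous.integrable_of_hasCompactSupport MollAux.rho0_hasCompactSupport

theorem MollAux.integral_rho0_pos : 0 < ∫ y, rho0 y ∂(om E) := by
  apply Continuous.integral_pos_of_hasCompactSupport_nonneg_nonzero
    (x := 0) MollAux.rho0_contDiff.continuous MollAux.rho0_hasCompactSupport MollAux.rho0_nonneg
  exact (MollAux.rho0_pos (by simp)).ne'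

theorem rho_contDiff : ContDiff ℝ ∞ (rho : E → ℝ) := by
  unfold rho
  exact MollAux.rho0_contDiff.div_const _

theorem rho_nonneg (x : E) : 0 ≤ rho x :=
  div_nonneg (MollAux.rho0_nonneg x) MollAux.integral_rho0_pos.le

theorem rho_pos {x : E} (hx : ‖x‖ < 1) : 0 < rho x :=
  div_pos (MollAux.rho0_pos hx) MollAux.integral_rho0_pos

theorem rho_eq_zero {x : E} (hx : 1 ≤ ‖x‖) : rho x = 0 := by
  unfold rho
  rw [MollAux.rho0_eq_zero hx, zero_div]

theorem rho_radial {x y : E} (h : ‖x‖ = ‖y‖) : rho x = rho y := by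
  unfold rho rho0
  rw [h]

theorem rho_hasCompactSupport : HasCompactSupport (rho : E → ℝ) := by
  apply HasCompactSupport.intro (isCompact_closedBall (0 : E) 1)
  intro x hx
  apply rho_eq_zero
  rw [mem_closedBall_zero_iff, not_le] at hx
  exact hx.le

theorem rho_integrable : Integrable (rho : E → ℝ) (om E) :=
  rho_contDiff.continuous.integrable_of_hasCompactSupport rho_hasCompactSupport

theorem integral_rho : ∫ y, (rho y : ℝ) ∂(om E) = 1 := by
  unfold rho
  rw [integral_div, div_self MollAux.integral_rho0_pos.ne']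

/-- `moll s f` is the convolution with `s^{-2d} rho(·/s)`: change of variables `w = z - s y`. -/
theorem moll_eq (s : ℝ) (hs : 0 < s) (f : E → G) (z : E) :
    moll s f z = (s ^ Module.finrank ℝ E)⁻¹ • ∫ w, rho (s⁻¹ • (z - w)) • f w ∂(om E) := by
  have h1 : ∫ w, rho (s⁻¹ • (z - w)) • f w ∂(om E) =
      ∫ x, rho (s⁻¹ • x) • f (z - x) ∂(om E) := by
    rw [← integral_sub_left_eq_self (fun x => rho (s⁻¹ • x) • f (z - x)) (om E) z]
    simp
  have h2 : ∫ x, rho (s⁻¹ • x) • f (z - x) ∂(om E) =
      ∫ x, (fun y => rho y • f (z - s • y)) (s⁻¹ • x) ∂(om E) := by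
    congr 1
    ext x
    simp [smul_smul, mul_inv_cancel₀ hs.ne']
  rw [h1, h2, Measure.integral_comp_smul (om E) (fun y => rho y • f (z - s • y)) s⁻¹, smul_smul]
  have h3 : (s ^ Module.finrank ℝ E)⁻¹ * |((s⁻¹) ^ Module.finrank ℝ E)⁻¹| = 1 := by
    rw [inv_pow, inv_inv, abs_of_pos (by positivity), inv_mul_cancel₀ (by positivity)]
  rw [h3, one_smul]
  rfl

/-- the scaled kernel -/
theorem MollAux.kern_contDiff (s : ℝ) : ContDiff ℝ ∞ (fun x : E => rho (s⁻¹ • x)) :=
  rho_contDiff.comp (contDiff_const_smul _)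

theorem MollAux.kern_hasCompactSupport {s : ℝ} (hs : 0 < s) :
    HasCompactSupport (fun x : E => rho (s⁻¹ • x)) := by
  apply HasCompactSupport.intro (isCompact_closedBall (0 : E) s)
  intro x hx
  apply rho_eq_zero
  rw [mem_closedBall_zero_iff, not_le] at hx
  rw [norm_smul, norm_inv, Real.norm_of_nonneg hs.le, ← div_eq_inv_mul, le_div_iff₀ hs]
  linarith

theorem MollAux.kern_tsupport {s : ℝ} (hs : 0 < s) :
    tsupport (fun x : E => rho (s⁻¹ • x)) ⊆ Metric.closedBall 0 s := by
  apply closure_minimal _ Metric.isClosed_closedBall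
  intro x hx
  by_contra hx'
  apply hx
  apply rho_eq_zero
  rw [mem_closedBall_zero_iff, not_le] at hx'
  rw [norm_smul, norm_inv, Real.norm_of_nonneg hs.le, ← div_eq_inv_mul, le_div_iff₀ hs]
  linarith

theorem MollAux.moll_conv {s : ℝ} (hs : 0 < s) (f : E → G) :
    moll s f = fun z => (s ^ Module.finrank ℝ E)⁻¹ •
      convolution f (fun x : E => rho (s⁻¹ • x)) (ContinuousLinearMap.lsmul ℝ ℝ).flip (om E) z := by
  ext z
  rw [moll_eq s hs]
  rfl

/-- Smoothness: use `moll_eq` and `HasCompactSupport.contDiff_convolution_left/right`. -/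
theorem moll_contDiff {s : ℝ} (hs : 0 < s) {f : E → G} (hf : LocallyIntegrable f (om E)) :
    ContDiff ℝ ∞ (moll s f) := by
  rw [MollAux.moll_conv hs]
  apply ContDiff.const_smul
  exact (MollAux.kern_hasCompactSupport hs).contDiff_convolution_right _ hf (MollAux.kern_contDiff s)

/-- Derivatives fall on the kernel:
`D(moll s f)(z) v = (s^{2d})⁻¹ ∫ D_z[rho(s⁻¹(z-w))] v • f w`. -/
theorem moll_fderiv_apply {s : ℝ} (hs : 0 < s) {f : E → G} (hf : LocallyIntegrable f (om E))
    (z v : E) :
    fderiv ℝ (moll s f) z v = (s ^ Module.finrank ℝ E)⁻¹ •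
      ∫ w, (fderiv ℝ (fun z' : E => rho (s⁻¹ • (z' - w))) z v : ℝ) • f w ∂(om E) := by
  have h := (MollAux.kern_hasCompactSupport hs).hasFDerivAt_convolution_right
    (ContinuousLinearMap.lsmul ℝ ℝ : ℝ →L[ℝ] G →L[ℝ] G).flip hf
    ((MollAux.kern_contDiff s).of_le (by exact_mod_cast le_top)) z
  rw [MollAux.moll_conv hs]
  have h2 := h.const_smul ((s ^ Module.finrank ℝ E)⁻¹)
  rw [HasFDerivAt.fderiv (f := fun z => (s ^ Module.finrank ℝ E)⁻¹ •
      convolution f (fun x : E => rho (s⁻¹ • x)) (ContinuousLinearMap.lsmul ℝ ℝ).flip (om E) z) h2]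
  rw [ContinuousLinearMap.smul_apply]
  congr 1
  rw [convolution_precompR_apply _ hf ((MollAux.kern_hasCompactSupport hs).fderiv (𝕜 := ℝ))
    ((MollAux.kern_contDiff s).continuous_fderiv (by simp))]
  rw [convolution_def]
  congr 1
  ext w
  have h3 : fderiv ℝ (fun z' : E => rho (s⁻¹ • (z' - w))) z =
      fderiv ℝ (fun z' : E => rho (s⁻¹ • z')) (z - w) :=
    fderiv_comp_sub (f := fun z' : E => rho (s⁻¹ • z')) w
  rw [h3]
  rfl

theorem moll_const (s : ℝ) (c : G) (z : E) : moll s (fun _ : E => c) z = c := by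
  unfold moll
  rw [integral_smul_const, integral_rho, one_smul]

theorem MollAux.integrable_rho_smul {g : E → G} (hg : Continuous g) :
    Integrable (fun y => rho y • g y) (om E) := by
  apply (rho_contDiff.continuous.smul hg).integrable_of_hasCompactSupport
  exact rho_hasCompactSupport.smul_right

theorem MollAux.integrable_moll {f : E → G} (hf : Continuous f) (s : ℝ) (z : E) :
    Integrable (fun y => rho y • f (z - s • y)) (om E) :=
  MollAux.integrable_rho_smul (hf.comp (continuous_const.sub (continuous_const_smul s)))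

theorem moll_add {s : ℝ} {f g : E → G} (hf : Continuous f) (hg : Continuous g) (z : E) :
    moll s (fun w => f w + g w) z = moll s f z + moll s g z := by
  unfold moll
  rw [← integral_add (MollAux.integrable_moll hf s z) (MollAux.integrable_moll hg s z)]
  simp_rw [smul_add]

theorem moll_sub {s : ℝ} {f g : E → G} (hf : Continuous f) (hg : Continuous g) (z : E) :
    moll s (fun w => f w - g w) z = moll s f z - moll s g z := by
  unfold moll
  rw [← integral_sub (MollAux.integrable_moll hf s z) (MollAux.integrable_moll hg s z)]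
  simp_rw [smul_sub]

theorem moll_smul (s : ℝ) (c : ℝ) (f : E → G) (z : E) :
    moll s (fun w => c • f w) z = c • moll s f z := by
  unfold moll
  rw [← integral_smul]
  congr 1
  ext y
  rw [smul_comm]

theorem moll_mono {s : ℝ} {f g : E → ℝ} (hf : Continuous f) (hg : Continuous g)
    (h : ∀ w, f w ≤ g w) (z : E) : moll s f z ≤ moll s g z := by
  unfold moll
  apply integral_mono (MollAux.integrable_moll hf s z) (MollAux.integrable_moll hg s z)
  intro y
  simp only [smul_eq_mul]
  exact mul_le_mul_of_nonneg_left (h _) (rho_nonneg y)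

/-- local version of the bound: only values on `closedBall z s` matter. -/
theorem norm_moll_le {s : ℝ} (hs : 0 ≤ s) {f : E → G} {z : E} {B : ℝ}
    (h : ∀ w, ‖w - z‖ ≤ s → ‖f w‖ ≤ B) : ‖moll s f z‖ ≤ B := by
  have h1 : ∀ y : E, ‖rho y • f (z - s • y)‖ ≤ rho y * B := by
    intro y
    rw [norm_smul, Real.norm_of_nonneg (rho_nonneg y)]
    rcases le_or_gt 1 ‖y‖ with hy | hy
    · rw [rho_eq_zero hy, zero_mul, zero_mul]
    · apply mul_le_mul_of_nonneg_left _ (rho_nonneg y)
      apply h
      have : z - s • y - z = -(s • y) := by abel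
      rw [this, norm_neg, norm_smul, Real.norm_of_nonneg hs]
      nlinarith
  unfold moll
  calc ‖∫ y, rho y • f (z - s • y) ∂(om E)‖ ≤ ∫ y : E, rho y * B ∂(om E) :=
        norm_integral_le_of_norm_le (rho_integrable.mul_const B) (Eventually.of_forall h1)
    _ = B := by rw [integral_mul_const, integral_rho, one_mul]

/-- `moll s f → f` locally uniformly as `s → 0+` for continuous `f`. -/
theorem moll_tendsto {f : E → G} (hf : Continuous f) :
    TendstoLocallyUniformly (fun (s : ℝ) (z : E) => moll s f z) f (𝓝[>] 0) := by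
  rw [tlu_iff hf]
  intro x
  rw [Metric.tendsto_nhds]
  intro ε hε
  obtain ⟨δ, hδ, hcont⟩ := Metric.continuous_iff.1 hf x (ε / 2) (half_pos hε)
  have h1 : ∀ᶠ s : ℝ in 𝓝[>] 0, 0 < s ∧ s < δ / 2 :=
    Ioo_mem_nhdsGT (half_pos hδ)
  have h2 : ∀ᶠ z : E in 𝓝 x, dist z x < δ / 2 := Metric.ball_mem_nhds x (half_pos hδ)
  filter_upwards [h1.prod_mk h2] with p hp
  obtain ⟨⟨hs0, hs1⟩, hz⟩ := hp
  have h3 : moll p.1 f p.2 - f x = moll p.1 (fun w => f w - f x) p.2 := by
    rw [moll_sub hf continuous_const, moll_const]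
  rw [dist_eq_norm, h3]
  refine lt_of_le_of_lt (norm_moll_le hs0.le (B := ε / 2) ?_) (half_lt_self hε)
  intro w hw
  rw [← dist_eq_norm]
  apply (hcont w _).le
  calc dist w x ≤ dist w p.2 + dist p.2 x := dist_triangle _ _ _
    _ < δ / 2 + δ / 2 := by
        rw [dist_eq_norm w]
        linarith
    _ = δ := by ring

/-- `f ≤ moll s f` for `f` psh: `PSH.le_integral` with `g = rho`. -/
theorem PSH.le_moll {f : E → ℝ} (hf : PSH f) (s : ℝ) (z : E) : f z ≤ moll s f z := by
  have h1 : PSH (fun w : E => f (z + ((-s : ℝ) : ℂ) • w)) := by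
    have := hf.comp_affine z (((-s : ℝ) : ℂ) • ContinuousLinearMap.id ℂ E)
    simpa using this
  have e1 : ∀ y : E, ((-s : ℝ) : ℂ) • y = -(s • y) := by
    intro y
    rw [Complex.coe_smul, neg_smul]
  have h2 := h1.le_integral (g := rho) rho_nonneg rho_contDiff.continuous.measurable
    (fun u y hu => rho_radial (by rw [norm_smul, hu, one_mul])) rho_integrable 0
    (by
      have := MollAux.integrable_moll hf.1 s z
      refine this.congr (Eventually.of_forall fun y => ?_)
      simp only [e1, zero_add, smul_eq_mul, sub_eq_add_neg])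
  rw [integral_rho, one_mul] at h2
  simp only [smul_zero, neg_zero, add_zero, zero_add, e1] at h2
  unfold moll
  simpa only [smul_eq_mul, sub_eq_add_neg] using h2

theorem moll_re_entire {F : E → ℂ} (hF : Differentiable ℂ F) (s : ℝ) (z : E) :
    moll s (fun w => (F w).re) z = (F z).re := by
  have h1 := (psh_re hF).le_moll s z
  have h2 := (psh_neg_re hF).le_moll s z
  have h3 : moll s (fun w : E => -(F w).re) z = -moll s (fun w => (F w).re) z := by
    unfold moll
    rw [← integral_neg]
    simp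
  rw [h3] at h2
  linarith

/-- entire functions are reproduced (mean value property on circles + `rho` radial). -/
theorem moll_entire {F : E → ℂ} (hF : Differentiable ℂ F) (s : ℝ) (z : E) :
    moll s F z = F z := by
  have hint := MollAux.integrable_moll hF.continuous s z
  have hre : (moll s F z).re = moll s (fun w => (F w).re) z := by
    unfold moll
    rw [← RCLike.re_eq_complex_re, ← integral_re hint]
    simp
  have him : (moll s F z).im = moll s (fun w => ((-I * F w)).re) z := by
    unfold moll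
    rw [← RCLike.im_eq_complex_im, ← integral_im hint]
    simp
  apply Complex.ext
  · rw [hre, moll_re_entire hF]
  · rw [him, moll_re_entire (hF.const_mul (-I))]
    simp

theorem MollAux.moll_eq_setIntegral (s : ℝ) (f : E → G) (z : E) :
    moll s f z = ∫ y in Metric.closedBall (0 : E) 1, rho y • f (z - s • y) ∂(om E) := by
  unfold moll
  symm
  apply setIntegral_eq_integral_of_forall_compl_eq_zero
  intro y hy
  rw [mem_closedBall_zero_iff, not_le] at hy
  rw [rho_eq_zero hy.le, zero_smul]

theorem MollAux.moll_continuous {f : E → G} (hf : Continuous f) (s : ℝ) : Continuous (moll s f) := by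
  have : moll s f = fun z =>
      ∫ y in Metric.closedBall (0 : E) 1, rho y • f (z - s • y) ∂(om E) := by
    ext z; exact MollAux.moll_eq_setIntegral s f z
  rw [this]
  apply continuous_parametric_integral_of_continuous _ (isCompact_closedBall _ _)
  apply Continuous.smul
  · exact rho_contDiff.continuous.comp continuous_snd
  · exact hf.comp (continuous_fst.sub (continuous_snd.const_smul s))

/-- `moll s f` is psh for `f` psh (Fubini on circle × E). -/
theorem PSH.moll {f : E → ℝ} (hf : PSH f) (s : ℝ) : PSH (moll s f) := by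
  refine ⟨MollAux.moll_continuous hf.1 s, fun z v => ?_⟩
  have hcf := hf.1
  have hrho : Continuous (rho : E → ℝ) := rho_contDiff.continuous
  have h1 : Real.circleAverage (fun ζ : ℂ => Edge.moll s f (z + ζ • v)) 0 1 =
      ∫ y in Metric.closedBall (0 : E) 1,
        rho y * Real.circleAverage (fun ζ : ℂ => f (z - s • y + ζ • v)) 0 1 ∂(om E) := by
    unfold Real.circleAverage
    simp_rw [MollAux.moll_eq_setIntegral, smul_eq_mul]
    rw [intervalIntegral_integral_swap, ← integral_const_mul]
    · congr 1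
      ext y
      rw [mul_left_comm]
      congr 1
      rw [← intervalIntegral.integral_const_mul]
      congr 1
      ext θ
      congr 2
      abel
    · rw [Measure.prod_restrict]
      have hc : Continuous (Function.uncurry fun (θ : ℝ) (y : E) =>
          rho y * f (z + circleMap 0 1 θ • v - s • y)) := by
        apply Continuous.mul (hrho.comp continuous_snd)
        apply hcf.comp
        apply Continuous.sub _ (continuous_snd.const_smul s)
        apply continuous_const.add
        exact ((continuous_circleMap 0 1).comp continuous_fst).smul continuous_const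
      have hK : IsCompact (Set.uIcc (0 : ℝ) (2 * Real.pi) ×ˢ Metric.closedBall (0 : E) 1) :=
        isCompact_uIcc.prod (isCompact_closedBall _ _)
      exact (hc.continuousOn.integrableOn_compact hK).mono_set
        (Set.prod_mono Set.uIoc_subset_uIcc subset_rfl)
  rw [h1, MollAux.moll_eq_setIntegral]
  simp_rw [smul_eq_mul]
  apply setIntegral_mono_on
  · apply Continuous.continuousOn _ |>.integrableOn_compact (isCompact_closedBall _ _)
    exact hrho.mul (hcf.comp (continuous_const.sub (continuous_const_smul s)))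
  · apply Continuous.continuousOn _ |>.integrableOn_compact (isCompact_closedBall _ _)
    apply hrho.mul
    unfold Real.circleAverage
    simp_rw [smul_eq_mul]
    apply continuous_const.mul
    apply intervalIntegral.continuous_parametric_intervalIntegral_of_continuous'
    apply hcf.comp
    apply Continuous.add
    · exact continuous_const.sub (continuous_fst.const_smul s)
    · exact ((continuous_circleMap 0 1).comp continuous_snd).smul continuous_const
  · exact Metric.isClosed_closedBall.measurableSet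
  · intro y _
    exact mul_le_mul_of_nonneg_left (hf.2 _ _) (rho_nonneg y)

theorem MollAux.c11_cont {K : ℝ} {f : E → ℝ} (hf : C11 K f) : Continuous (fderiv ℝ f) := by
  have : LipschitzWith K.toNNReal (fderiv ℝ f) := by
    apply LipschitzWith.of_dist_le_mul
    intro x y
    rw [dist_eq_norm, dist_eq_norm, Real.coe_toNNReal K hf.1]
    exact hf.2.2 x y
  exact this.continuous

theorem MollAux.c11_hasFDerivAt {K : ℝ} {f : E → ℝ} (hf : C11 K f) (s : ℝ) (z : E) :
    HasFDerivAt (moll s f) (∫ y, rho y • fderiv ℝ f (z - s • y) ∂(om E)) z := by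
  have hrho : Continuous (rho : E → ℝ) := rho_contDiff.continuous
  have hfc : Continuous f := hf.2.1.continuous
  have hdc := MollAux.c11_cont hf
  apply hasFDerivAt_integral_of_dominated_of_fderiv_le (𝕜 := ℝ)
    (F := fun (x : E) (y : E) => rho y • f (x - s • y))
    (F' := fun (x : E) (y : E) => rho y • fderiv ℝ f (x - s • y))
    (bound := fun y => rho y * (‖fderiv ℝ f z‖ + K * (1 + |s|)))
    (Metric.ball_mem_nhds z zero_lt_one)
  · apply Eventually.of_forall
    intro x
    exact (MollAux.integrable_moll hfc s x).aestronglyMeasurable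
  · exact MollAux.integrable_moll hfc s z
  · exact (MollAux.integrable_moll hdc s z).aestronglyMeasurable
  · apply Eventually.of_forall
    intro y x hx
    rw [norm_smul, Real.norm_of_nonneg (rho_nonneg y)]
    rcases le_or_gt 1 ‖y‖ with hy | hy
    · rw [rho_eq_zero hy, zero_mul, zero_mul]
    · apply mul_le_mul_of_nonneg_left _ (rho_nonneg y)
      have h1 := hf.2.2 (x - s • y) z
      have h2 : ‖x - s • y - z‖ ≤ 1 + |s| := by
        have e : x - s • y - z = (x - z) - s • y := by abel
        rw [e]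
        refine (norm_sub_le _ _).trans ?_
        rw [norm_smul, Real.norm_eq_abs]
        rw [Metric.mem_ball, dist_eq_norm] at hx
        nlinarith [abs_nonneg s, norm_nonneg y]
      have h3 := mul_le_mul_of_nonneg_left h2 hf.1
      have h4 : ‖fderiv ℝ f (x - s • y)‖ ≤ ‖fderiv ℝ f z‖ +
          ‖fderiv ℝ f (x - s • y) - fderiv ℝ f z‖ := by
        have := norm_add_le (fderiv ℝ f z) (fderiv ℝ f (x - s • y) - fderiv ℝ f z)
        rwa [add_sub_cancel] at this
      linarith
  · exact rho_integrable.mul_const _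
  · apply Eventually.of_forall
    intro y x _
    have h1 : HasFDerivAt (fun x => f (x - s • y)) (fderiv ℝ f (x - s • y)) x := by
      rw [hasFDerivAt_comp_sub]
      exact (hf.2.1 _).hasFDerivAt
    exact h1.const_smul (rho y)

/-- `C^{1,1}` functions: the gradient of the mollification is the mollification of the gradient. -/
theorem C11.fderiv_moll {K : ℝ} {f : E → ℝ} (hf : C11 K f) (s : ℝ) (z : E) :
    fderiv ℝ (moll s f) z = ∫ y, rho y • fderiv ℝ f (z - s • y) ∂(om E) :=
  (MollAux.c11_hasFDerivAt hf s z).fderiv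

theorem C11.moll {K : ℝ} {f : E → ℝ} (hf : C11 K f) (s : ℝ) : C11 K (moll s f) := by
  refine ⟨hf.1, fun z => (MollAux.c11_hasFDerivAt hf s z).differentiableAt, fun x y => ?_⟩
  rw [hf.fderiv_moll, hf.fderiv_moll, ← integral_sub (MollAux.integrable_moll (MollAux.c11_cont hf) s x)
    (MollAux.integrable_moll (MollAux.c11_cont hf) s y)]
  calc ‖∫ a, (rho a • fderiv ℝ f (x - s • a) - rho a • fderiv ℝ f (y - s • a)) ∂(om E)‖
      ≤ ∫ a : E, rho a * (K * ‖x - y‖) ∂(om E) := by
        apply norm_integral_le_of_norm_le (rho_integrable.mul_const _)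
        apply Eventually.of_forall
        intro a
        rw [← smul_sub, norm_smul, Real.norm_of_nonneg (rho_nonneg a)]
        apply mul_le_mul_of_nonneg_left _ (rho_nonneg a)
        have := hf.2.2 (x - s • a) (y - s • a)
        rwa [sub_sub_sub_cancel_right] at this
    _ = K * ‖x - y‖ := by rw [integral_mul_const, integral_rho, one_mul]

theorem MollAux.c11_taylor {K : ℝ} {f : E → ℝ} (hf : C11 K f) (z h : E) :
    |f (z + h) - f z - fderiv ℝ f z h| ≤ K / 2 * ‖h‖ ^ 2 := by
  have hd : ∀ t : ℝ, HasDerivAt (fun t : ℝ => f (z + t • h) - f z - t * fderiv ℝ f z h)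
      (fderiv ℝ f (z + t • h) h - fderiv ℝ f z h) t := by
    intro t
    have h1 : HasDerivAt (fun t : ℝ => z + t • h) h t := by
      simpa using ((hasDerivAt_id t).smul_const h).const_add z
    have h2 := (hf.2.1 (z + t • h)).hasFDerivAt.comp_hasDerivAt t h1
    have h3 : HasDerivAt (fun t : ℝ => t * fderiv ℝ f z h) (fderiv ℝ f z h) t := by
      simpa using (hasDerivAt_id t).mul_const (fderiv ℝ f z h)
    exact (h2.sub_const (f z)).sub h3
  have key := image_norm_le_of_norm_deriv_right_le_deriv_boundary (a := 0) (b := 1)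
    (f := fun t : ℝ => f (z + t • h) - f z - t * fderiv ℝ f z h)
    (f' := fun t => fderiv ℝ f (z + t • h) h - fderiv ℝ f z h)
    (B := fun t => K / 2 * ‖h‖ ^ 2 * t ^ 2) (B' := fun t => K * ‖h‖ ^ 2 * t)
    (fun t _ => (hd t).continuousAt.continuousWithinAt) (fun t _ => (hd t).hasDerivWithinAt)
    (by simp)
    (by
      intro t
      have := ((hasDerivAt_id t).pow 2).const_mul (K / 2 * ‖h‖ ^ 2)
      refine this.congr_deriv ?_
      simp
      ring)
    (by
      intro t ht
      have h1 : fderiv ℝ f (z + t • h) h - fderiv ℝ f z h =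
        (fderiv ℝ f (z + t • h) - fderiv ℝ f z) h := rfl
      rw [h1]
      refine (ContinuousLinearMap.le_opNorm _ _).trans ?_
      have h2 := hf.2.2 (z + t • h) z
      rw [add_sub_cancel_left, norm_smul, Real.norm_of_nonneg ht.1] at h2
      have h3 := mul_le_mul_of_nonneg_right h2 (norm_nonneg h)
      linarith)
    (Set.right_mem_Icc.2 zero_le_one)
  simpa using key

/-- `|moll s f z - f z| ≤ K s² / 2` for `f` of class `C^{1,1}` (the linear term of the Taylor
expansion integrates to zero as `rho` is even, the remainder is `≤ (K/2) s² |y|²`, `|y| ≤ 1`). -/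
theorem C11.abs_moll_sub_le {K : ℝ} {f : E → ℝ} (hf : C11 K f) (s : ℝ) (z : E) :
    |Edge.moll s f z - f z| ≤ K / 2 * s ^ 2 := by
  have hfc : Continuous f := hf.2.1.continuous
  set L := fderiv ℝ f z with hL
  have hLint : Integrable (fun y : E => rho y • L (s • y)) (om E) :=
    MollAux.integrable_rho_smul (L.continuous.comp (continuous_const_smul s))
  have hodd : ∫ y, rho y • L (s • y) ∂(om E) = 0 := by
    have h1 := integral_neg_eq_self (fun y : E => rho y • L (s • y)) (om E)
    have h2 : ∫ y, rho (-y) • L (s • (-y)) ∂(om E) = -∫ y, rho y • L (s • y) ∂(om E) := by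
      rw [← integral_neg]
      congr 1
      ext y
      rw [rho_radial (norm_neg y)]
      simp
    rw [h2] at h1
    linarith
  have h3 : Edge.moll s f z - f z =
      ∫ y, (rho y • f (z - s • y) - rho y • f z + rho y • L (s • y)) ∂(om E) := by
    have i1 : Integrable (fun y : E => rho y • f (z - s • y) - rho y • f z) (om E) :=
      (MollAux.integrable_moll hfc s z).sub (rho_integrable.smul_const (f z))
    rw [integral_add i1 hLint,
      integral_sub (MollAux.integrable_moll hfc s z) (rho_integrable.smul_const (f z)), hodd,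
      integral_smul_const, integral_rho, one_smul, add_zero]
    rfl
  rw [h3, ← Real.norm_eq_abs]
  calc ‖∫ y, (rho y • f (z - s • y) - rho y • f z + rho y • L (s • y)) ∂(om E)‖
      ≤ ∫ y : E, rho y * (K / 2 * s ^ 2) ∂(om E) := by
        apply norm_integral_le_of_norm_le (rho_integrable.mul_const _)
        apply Eventually.of_forall
        intro y
        have e1 : rho y • f (z - s • y) - rho y • f z + rho y • L (s • y) =
            rho y * (f (z + -(s • y)) - f z - L (-(s • y))) := by
          simp only [smul_eq_mul, map_neg, ← sub_eq_add_neg]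
          ring
        rw [e1, norm_mul, Real.norm_of_nonneg (rho_nonneg y)]
        rcases le_or_gt 1 ‖y‖ with hy | hy
        · rw [rho_eq_zero hy, zero_mul, zero_mul]
        · apply mul_le_mul_of_nonneg_left _ (rho_nonneg y)
          refine (MollAux.c11_taylor hf z (-(s • y))).trans ?_
          rw [norm_neg, norm_smul, mul_pow, Real.norm_eq_abs, sq_abs]
          have h5 : ‖y‖ ^ 2 ≤ 1 := by nlinarith [norm_nonneg y]
          have h6 : 0 ≤ K / 2 * s ^ 2 := by
            have := hf.1
            positivity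
          nlinarith
    _ = K / 2 * s ^ 2 := by rw [integral_mul_const, integral_rho, one_mul]

theorem MollAux.second_le_of_diff {M : E → ℝ} (hM : ContDiff ℝ ∞ M) {z : E} {C : ℝ}
    (h : ∀ h : E, ‖h‖ ≤ 1 → M (z + h) + M (z - h) - 2 * M z ≤ C * ‖h‖ ^ 2) (v : E) :
    fderiv ℝ (fderiv ℝ M) z v v ≤ C * ‖v‖ ^ 2 := by
  by_contra hcon
  rw [not_le] at hcon
  have hMd : Differentiable ℝ M := hM.differentiable (by simp)
  have hMd2 : Differentiable ℝ (fderiv ℝ M) :=
    (contDiff_infty_iff_fderiv.1 hM).2.differentiable (by simp)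
  set g : ℝ → ℝ := fun t => M (z + t • v) + M (z - t • v) - 2 * M z - C * ‖v‖ ^ 2 * t ^ 2 with hg
  set g1 : ℝ → ℝ := fun t => fderiv ℝ M (z + t • v) v - fderiv ℝ M (z - t • v) v -
    2 * (C * ‖v‖ ^ 2) * t with hg1
  have hp : ∀ t : ℝ, HasDerivAt (fun t : ℝ => z + t • v) v t := by
    intro t
    simpa using ((hasDerivAt_id t).smul_const v).const_add z
  have hm : ∀ t : ℝ, HasDerivAt (fun t : ℝ => z - t • v) (-v) t := by
    intro t
    simpa using ((hasDerivAt_id t).smul_const v).const_sub z
  have hd : ∀ t, HasDerivAt g (g1 t) t := by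
    intro t
    have h1 := (hMd (z + t • v)).hasFDerivAt.comp_hasDerivAt t (hp t)
    have h2 := (hMd (z - t • v)).hasFDerivAt.comp_hasDerivAt t (hm t)
    have h3 : HasDerivAt (fun t : ℝ => C * ‖v‖ ^ 2 * t ^ 2) (2 * (C * ‖v‖ ^ 2) * t) t := by
      have := ((hasDerivAt_id t).pow 2).const_mul (C * ‖v‖ ^ 2)
      refine this.congr_deriv ?_
      simp
      ring
    have h4 := ((h1.add h2).sub_const (2 * M z)).sub h3
    refine h4.congr_deriv ?_
    simp only [hg1, map_neg]
    ring
  have hderiv : deriv g = g1 := by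
    ext t; exact (hd t).deriv
  have hd2 : HasDerivAt g1 (2 * (fderiv ℝ (fderiv ℝ M) z v v) - 2 * (C * ‖v‖ ^ 2)) 0 := by
    have ap := (ContinuousLinearMap.apply ℝ ℝ v)
    have h1 : HasDerivAt (fun t : ℝ => fderiv ℝ M (z + t • v) v)
        (fderiv ℝ (fderiv ℝ M) z v v) 0 := by
      have h0 := (hMd2 (z + (0 : ℝ) • v)).hasFDerivAt.comp_hasDerivAt 0 (hp 0)
      have h0' : HasDerivAt (fun t : ℝ => fderiv ℝ M (z + t • v) v)
        (fderiv ℝ (fderiv ℝ M) (z + (0 : ℝ) • v) v v) 0 :=
        (ContinuousLinearMap.apply ℝ ℝ v).hasFDerivAt.comp_hasDerivAt 0 h0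
      simpa using h0'
    have h2 : HasDerivAt (fun t : ℝ => fderiv ℝ M (z - t • v) v)
        (-(fderiv ℝ (fderiv ℝ M) z v v)) 0 := by
      have h0 := (hMd2 (z - (0 : ℝ) • v)).hasFDerivAt.comp_hasDerivAt 0 (hm 0)
      have h0' : HasDerivAt (fun t : ℝ => fderiv ℝ M (z - t • v) v)
        (fderiv ℝ (fderiv ℝ M) (z - (0 : ℝ) • v) (-v) v) 0 :=
        (ContinuousLinearMap.apply ℝ ℝ v).hasFDerivAt.comp_hasDerivAt 0 h0
      simpa using h0'
    have h3 : HasDerivAt (fun t : ℝ => 2 * (C * ‖v‖ ^ 2) * t) (2 * (C * ‖v‖ ^ 2)) 0 := by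
      simpa using (hasDerivAt_id (0 : ℝ)).const_mul (2 * (C * ‖v‖ ^ 2))
    refine ((h1.sub h2).sub h3).congr_deriv ?_
    ring
  have hmin : IsLocalMin g 0 := by
    apply isLocalMin_of_deriv_deriv_pos
    · rw [hderiv, hd2.deriv]
      linarith
    · rw [hderiv]
      simp [hg1]
    · exact (hd 0).continuousAt
  have hg0 : g 0 = 0 := by simp [hg]; ring
  have hle : ∀ᶠ t in 𝓝 (0 : ℝ), g t ≤ 0 := by
    have hc : ContinuousAt (fun t : ℝ => ‖t • v‖) 0 := by fun_prop
    have h1 : ∀ᶠ t in 𝓝 (0 : ℝ), ‖t • v‖ < 1 := by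
      apply hc.eventually_lt continuousAt_const
      simp
    filter_upwards [h1] with t ht
    have h2 := h (t • v) ht.le
    rw [norm_smul, mul_pow, Real.norm_eq_abs, sq_abs] at h2
    simp only [hg]
    linarith
  have heq : g =ᶠ[𝓝 0] fun _ => 0 := by
    filter_upwards [hmin, hle] with t h1 h2
    rw [hg0] at h1
    exact le_antisymm h2 h1
  have h5 : deriv g =ᶠ[𝓝 0] deriv (fun _ : ℝ => (0 : ℝ)) := heq.deriv
  have h6 := h5.deriv_eq
  rw [hderiv, hd2.deriv] at h6
  simp at h6
  linarith

/-- One-sided second difference bounds pass to the mollification and bound `D²`. -/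
theorem moll_second_le {f : E → ℝ} (hf : Continuous f) {C : ℝ}
    (h : ∀ z h : E, ‖h‖ ≤ 1 → f (z + h) + f (z - h) - 2 * f z ≤ C * ‖h‖ ^ 2) {s : ℝ} (hs : 0 < s)
    (z v : E) : fderiv ℝ (fderiv ℝ (Edge.moll s f)) z v v ≤ C * ‖v‖ ^ 2 := by
  have hM : ContDiff ℝ ∞ (Edge.moll s f) := moll_contDiff hs hf.locallyIntegrable
  -- second differences of the mollification
  have hsec : ∀ h : E, ‖h‖ ≤ 1 → Edge.moll s f (z + h) + Edge.moll s f (z - h) -
      2 * Edge.moll s f z ≤ C * ‖h‖ ^ 2 := by
    intro h0 hh0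
    have i1 := MollAux.integrable_moll hf s (z + h0)
    have i2 := MollAux.integrable_moll hf s (z - h0)
    have i3 := MollAux.integrable_moll hf s z
    have e1 : Edge.moll s f (z + h0) + Edge.moll s f (z - h0) - 2 * Edge.moll s f z =
        ∫ y, (rho y • f (z + h0 - s • y) + rho y • f (z - h0 - s • y) -
          2 * (rho y • f (z - s • y))) ∂(om E) := by
      have i12 : Integrable (fun y : E => rho y • f (z + h0 - s • y) +
        rho y • f (z - h0 - s • y)) (om E) := i1.add i2
      rw [integral_sub i12 (i3.const_mul 2), integral_add i1 i2, integral_const_mul]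
      rfl
    rw [e1]
    have e2 : ∫ y : E, rho y * (C * ‖h0‖ ^ 2) ∂(om E) = C * ‖h0‖ ^ 2 := by
      rw [integral_mul_const, integral_rho, one_mul]
    rw [← e2]
    apply integral_mono ((i1.add i2).sub (i3.const_mul 2)) (rho_integrable.mul_const _)
    intro y
    have h3 := h (z - s • y) h0 hh0
    have h4 := mul_le_mul_of_nonneg_left h3 (rho_nonneg y)
    have e3 : z - s • y + h0 = z + h0 - s • y := by abel
    have e4 : z - s • y - h0 = z - h0 - s • y := by abel
    rw [e3, e4] at h4
    simp only [Pi.sub_apply, Pi.add_apply, smul_eq_mul]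
    linarith
  exact MollAux.second_le_of_diff hM hsec v

set_option maxSynthPendingDepth 3 in
/-- Bound for the second derivative of the mollification in terms of a local sup bound:
the constant depends only on `s` (e.g. `s^{-2} ∫ ‖D²ρ‖`). -/
theorem moll_fderiv2_bound {s : ℝ} (hs : 0 < s) :
    ∃ C : ℝ, 0 ≤ C ∧ ∀ f : E → ℝ, Continuous f → ∀ (z : E) (B : ℝ),
      (∀ w, ‖w - z‖ ≤ s → |f w| ≤ B) → ∀ u v : E,
      |fderiv ℝ (fderiv ℝ (Edge.moll s f)) z u v| ≤ C * B * ‖u‖ * ‖v‖ := by
  set k : E → ℝ := fun x => rho (s⁻¹ • x) with hk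
  have hkc : HasCompactSupport k := MollAux.kern_hasCompactSupport hs
  have hkd : ContDiff ℝ ∞ k := MollAux.kern_contDiff s
  have hkc1 : HasCompactSupport (fderiv ℝ k) := hkc.fderiv (𝕜 := ℝ)
  have hkd1 : ContDiff ℝ ∞ (fderiv ℝ k) := (contDiff_infty_iff_fderiv.1 hkd).2
  have hkc2 : HasCompactSupport (fderiv ℝ (fderiv ℝ k)) := hkc1.fderiv (𝕜 := ℝ)
  have hkd2 : ContDiff ℝ ∞ (fderiv ℝ (fderiv ℝ k)) := (contDiff_infty_iff_fderiv.1 hkd1).2
  set L1 : ℝ →L[ℝ] ℝ →L[ℝ] ℝ := (ContinuousLinearMap.lsmul ℝ ℝ : ℝ →L[ℝ] ℝ →L[ℝ] ℝ).flip with hL1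
  set L2 := L1.precompR E with hL2
  set L3 := L2.precompR E with hL3
  set c : ℝ := (s ^ Module.finrank ℝ E)⁻¹ with hc
  have hint : Integrable (fderiv ℝ (fderiv ℝ k)) (om E) :=
    hkd2.continuous.integrable_of_hasCompactSupport hkc2
  refine ⟨|c| * (‖L3‖ * ∫ w, ‖fderiv ℝ (fderiv ℝ k) w‖ ∂(om E)), by positivity, ?_⟩
  intro f hf z B hB u v
  have hfl : LocallyIntegrable f (om E) := hf.locallyIntegrable
  have h1 : ∀ x, HasFDerivAt (convolution f k L1 (om E))
      (convolution f (fderiv ℝ k) L2 (om E) x) x := fun x =>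
    hkc.hasFDerivAt_convolution_right L1 hfl (hkd.of_le (by exact_mod_cast le_top)) x
  have h2 : ∀ x, HasFDerivAt (convolution f (fderiv ℝ k) L2 (om E))
      (convolution f (fderiv ℝ (fderiv ℝ k)) L3 (om E) x) x := fun x =>
    hkc1.hasFDerivAt_convolution_right L2 hfl (hkd1.of_le (by exact_mod_cast le_top)) x
  have hM : Edge.moll s f = fun x => c • convolution f k L1 (om E) x := MollAux.moll_conv hs f
  have hM1 : fderiv ℝ (Edge.moll s f) = fun x => c • convolution f (fderiv ℝ k) L2 (om E) x := by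
    ext1 x
    rw [hM]
    exact ((h1 x).const_smul c).fderiv
  have hM2 : fderiv ℝ (fderiv ℝ (Edge.moll s f)) z =
      c • convolution f (fderiv ℝ (fderiv ℝ k)) L3 (om E) z := by
    rw [hM1]
    exact ((h2 z).const_smul c).fderiv
  have hsupp : ∀ x : E, s < ‖x‖ → fderiv ℝ (fderiv ℝ k) x = 0 := by
    intro x hx
    by_contra hne
    have h3 : x ∈ tsupport (fderiv ℝ (fderiv ℝ k)) := subset_tsupport _ hne
    have h4 := MollAux.kern_tsupport hs (tsupport_fderiv_subset ℝ (tsupport_fderiv_subset ℝ h3))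
    rw [mem_closedBall_zero_iff] at h4
    linarith
  have hbound : ‖convolution f (fderiv ℝ (fderiv ℝ k)) L3 (om E) z‖ ≤
      ∫ w, ‖L3‖ * B * ‖fderiv ℝ (fderiv ℝ k) (z - w)‖ ∂(om E) := by
    rw [convolution_def]
    apply norm_integral_le_of_norm_le
    · exact (hint.norm.comp_sub_left z).const_mul _
    · apply Eventually.of_forall
      intro w
      rcases lt_or_ge s ‖z - w‖ with hw | hw
      · rw [hsupp _ hw]; simp
      · refine (L3.le_opNorm₂ _ _).trans ?_
        apply mul_le_mul_of_nonneg_right _ (norm_nonneg _)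
        apply mul_le_mul_of_nonneg_left _ (norm_nonneg _)
        apply hB
        rw [norm_sub_rev]; exact hw
  have hB0 : 0 ≤ B := (abs_nonneg _).trans (hB z (by simpa using hs.le))
  have hint2 : ∫ w, ‖L3‖ * B * ‖fderiv ℝ (fderiv ℝ k) (z - w)‖ ∂(om E) =
      ‖L3‖ * B * ∫ w, ‖fderiv ℝ (fderiv ℝ k) w‖ ∂(om E) := by
    rw [integral_const_mul]
    congr 1
    exact integral_sub_left_eq_self (fun w => ‖fderiv ℝ (fderiv ℝ k) w‖) (om E) z
  calc |fderiv ℝ (fderiv ℝ (Edge.moll s f)) z u v|
      ≤ ‖fderiv ℝ (fderiv ℝ (Edge.moll s f)) z‖ * ‖u‖ * ‖v‖ := by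
        rw [← Real.norm_eq_abs]
        exact (fderiv ℝ (fderiv ℝ (Edge.moll s f)) z).le_opNorm₂ u v
    _ ≤ (|c| * (‖L3‖ * ∫ w, ‖fderiv ℝ (fderiv ℝ k) w‖ ∂(om E)) * B) * ‖u‖ * ‖v‖ := by
        gcongr
        rw [hM2, norm_smul, Real.norm_eq_abs, mul_assoc]
        apply mul_le_mul_of_nonneg_left _ (abs_nonneg c)
        rw [hint2] at hbound
        linarith

/-- Convergence of the Levi forms of mollifications under locally uniform convergence, uniformly
on balls (from `moll_fderiv2_bound` applied to `f n - g`). -/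
theorem moll_levi_tendsto {f : ℕ → E → ℝ} {g : E → ℝ} (hf : ∀ n, Continuous (f n))
    (hg : Continuous g) (h : TendstoLocallyUniformly f g atTop) {s : ℝ} (hs : 0 < s) (R : ℝ)
    {ε : ℝ} (hε : 0 < ε) :
    ∀ᶠ n in atTop, ∀ z : E, ‖z‖ ≤ R → ∀ v : E,
      |Levi (Edge.moll s (f n)) z v - Levi (Edge.moll s g) z v| ≤ ε * ‖v‖ ^ 2 := by
  obtain ⟨C, hC, hbd⟩ := moll_fderiv2_bound (E := E) hs
  have hK : IsCompact (Metric.closedBall (0 : E) (R + s)) := isCompact_closedBall _ _
  have h1 : TendstoUniformlyOn f g atTop (Metric.closedBall (0 : E) (R + s)) :=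
    (tendstoLocallyUniformlyOn_iff_tendstoUniformlyOn_of_compact hK).1
      h.tendstoLocallyUniformlyOn
  rw [Metric.tendstoUniformlyOn_iff] at h1
  set δ : ℝ := ε / (2 * C + 1) with hδ
  have hδ0 : 0 < δ := by positivity
  filter_upwards [h1 δ hδ0] with n hn z hz v
  have hsub : Continuous (fun w => f n w - g w) := (hf n).sub hg
  have hB : ∀ w, ‖w - z‖ ≤ s → |f n w - g w| ≤ δ := by
    intro w hw
    have h2 := hn w (by
      rw [mem_closedBall_zero_iff]
      calc ‖w‖ = ‖z + (w - z)‖ := by rw [add_sub_cancel]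
        _ ≤ ‖z‖ + ‖w - z‖ := norm_add_le _ _
        _ ≤ R + s := by linarith)
    rw [dist_comm, Real.dist_eq] at h2
    exact h2.le
  have cf : ContDiff ℝ ∞ (Edge.moll s (f n)) := moll_contDiff hs (hf n).locallyIntegrable
  have cg : ContDiff ℝ ∞ (Edge.moll s g) := moll_contDiff hs hg.locallyIntegrable
  have hm : Edge.moll s (fun w => f n w - g w) = fun z => Edge.moll s (f n) z - Edge.moll s g z := by
    ext z; exact moll_sub (hf n) hg z
  have hm1 : fderiv ℝ (Edge.moll s (fun w => f n w - g w)) =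
      fun z => fderiv ℝ (Edge.moll s (f n)) z - fderiv ℝ (Edge.moll s g) z := by
    rw [hm]
    ext1 z
    exact fderiv_fun_sub (cf.differentiable (by simp) z) (cg.differentiable (by simp) z)
  have hm2 : fderiv ℝ (fderiv ℝ (Edge.moll s (fun w => f n w - g w))) z =
      fderiv ℝ (fderiv ℝ (Edge.moll s (f n))) z - fderiv ℝ (fderiv ℝ (Edge.moll s g)) z := by
    rw [hm1]
    exact fderiv_fun_sub ((contDiff_infty_iff_fderiv.1 cf).2.differentiable (by simp) z)
      ((contDiff_infty_iff_fderiv.1 cg).2.differentiable (by simp) z)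
  have b1 := hbd _ hsub z δ hB v v
  have b2 := hbd _ hsub z δ hB (I • v) (I • v)
  rw [hm2] at b1 b2
  rw [norm_smul, Complex.norm_I, one_mul] at b2
  simp only [_root_.sub_apply] at b1 b2
  unfold Levi
  have e : fderiv ℝ (fderiv ℝ (Edge.moll s (f n))) z v v +
      fderiv ℝ (fderiv ℝ (Edge.moll s (f n))) z (I • v) (I • v) -
      (fderiv ℝ (fderiv ℝ (Edge.moll s g)) z v v +
      fderiv ℝ (fderiv ℝ (Edge.moll s g)) z (I • v) (I • v)) =
      (fderiv ℝ (fderiv ℝ (Edge.moll s (f n))) z v v -
        fderiv ℝ (fderiv ℝ (Edge.moll s g)) z v v) +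
      (fderiv ℝ (fderiv ℝ (Edge.moll s (f n))) z (I • v) (I • v) -
        fderiv ℝ (fderiv ℝ (Edge.moll s g)) z (I • v) (I • v)) := by ring
  rw [e]
  refine (abs_add_le _ _).trans ?_
  have h3 : 2 * C * δ ≤ ε := by
    have : δ * (2 * C + 1) = ε := by rw [hδ]; field_simp
    nlinarith
  nlinarith [sq_nonneg ‖v‖, mul_le_mul_of_nonneg_right h3 (sq_nonneg ‖v‖)]

end Pool.Agent.Edge
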