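import Pool.Agent.Edge.LocalPSH
import Pool.Agent.Edge.Moll
import Pool.Agent.Edge.LeviCalc

/-!
# The envelope `Q̂ = env Q`

All statements for a potential `Q` (`IsPot Q`).  Write `δ, C₀` for the constants of `IsPot.gr`.

1. The constant function `-C₀` is admissible (`log(1+|z|²) ≥ 0`), so the set defining `env Q z` is
   nonempty; it is bounded above by `Q z`.
2. Growth: by `bernstein_walsh` every admissible `ψ` satisfies `ψ ≤ M₁ + log(1+|z|²)`,
   `M₁ = sup_{|z|≤1} Q`; hence so does `env Q`.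
3. For `|h| ≤ 1` and admissible `ψ₁, ψ₂` the function
   `z ↦ (ψ₁(z+h) + ψ₂(z-h))/2 - C₂|h|²` is admissible, for a constant `C₂ ≥ 0`: it is psh with
   logarithmic growth; for `|z| ≤ R₁` it is `≤ (Q(z+h)+Q(z-h))/2 - C₂|h|² ≤ Q(z)` if
   `C₂ ≥ ½ sup_{|w| ≤ R₁+1} ‖D²Q(w)‖`; for `|z| ≥ R₁` it is
   `≤ M₁ + log(1+(|z|+1)²) ≤ (1+δ) log(1+|z|²) - C₀ ≤ Q(z)` for `R₁` large.
   Taking suprema: `env Q (z+h) + env Q (z-h) - 2 env Q z ≤ 2 C₂ |h|²`.
4. Continuity: `g = env Q - C₂|·|²` satisfies `g(z+h)+g(z-h) ≤ 2 g(z)` for `|h| ≤ 1` and is locally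
   bounded (`-C₀ ≤ env Q ≤ Q`).  If `|g| ≤ B` on `ball(z,2)` and `|h| ≤ 2^{-k}`: from
   `g(z+2^j h) - g(z) ≥ ½ (g(z+2^{j+1}h) - g(z))` get `g(z+h)-g(z) ≥ -2^{1-k} B`, and
   `g(z+h) - g(z) ≤ g(z) - g(z-h) ≤ 2^{1-k} B`.
5. `env Q` is `PSH`: `ψ(z) ≤ avg ψ ≤ avg (env Q)`, take the supremum over `ψ`.
6. `C^{1,1}`: for `f_s = moll s (env Q)` (smooth, psh) `D²f_s(z)(v,v) ≤ 2C₂|v|²`
   (`moll_second_le`) and `D²f_s(z)(v,v) ≥ -D²f_s(z)(iv,iv) ≥ -2C₂|v|²` (`PSH.levi_nonneg`), so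
   `C11 (2C₂) f_s` by `C11.of_second`; let `s = 1/(k+1) → 0` (`moll_tendsto`, `C11.of_tendsto`).
-/

namespace Pool.Agent.Edge

open MeasureTheory Filter Topology Complex

open scoped ComplexConjugate

variable {E : Type*} [NormedAddCommGroup E] [InnerProductSpace ℂ E] [FiniteDimensional ℂ E]

private theorem log_one_add_nonneg (z : E) : 0 ≤ Real.log (1 + ‖z‖ ^ 2) :=
  Real.log_nonneg (by nlinarith [sq_nonneg ‖z‖])

private theorem exists_adm_const {Q : E → ℝ} (hQ : IsPot Q) : ∃ C : ℝ, Adm Q (fun _ : E => -C) := by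
  obtain ⟨δ, C, hδ, h⟩ := hQ.gr
  refine ⟨C, psh_const _, fun z => ?_, -C, fun z => ?_⟩
  · have h1 := h z
    have h2 := log_one_add_nonneg z
    nlinarith
  · have h2 := log_one_add_nonneg z
    linarith

private theorem env_set_nonempty {Q : E → ℝ} (hQ : IsPot Q) (z : E) :
    {t : ℝ | ∃ ψ, Adm Q ψ ∧ t = ψ z}.Nonempty := by
  obtain ⟨C, hC⟩ := exists_adm_const hQ
  exact ⟨-C, _, hC, rfl⟩

theorem env_le {Q : E → ℝ} (hQ : IsPot Q) (z : E) : env Q z ≤ Q z := by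
  apply csSup_le (env_set_nonempty hQ z)
  rintro t ⟨ψ, hψ, rfl⟩
  exact hψ.2.1 z

theorem Adm.le_env {Q ψ : E → ℝ} (hψ : Adm Q ψ) (z : E) : ψ z ≤ env Q z := by
  apply le_csSup
  · refine ⟨Q z, ?_⟩
    rintro t ⟨χ, hχ, rfl⟩
    exact hχ.2.1 z
  · exact ⟨ψ, hψ, rfl⟩

private theorem env_le_of_adm {Q : E → ℝ} (hQ : IsPot Q) (z : E) {c : ℝ}
    (h : ∀ ψ, Adm Q ψ → ψ z ≤ c) : env Q z ≤ c := by
  apply csSup_le (env_set_nonempty hQ z)
  rintro t ⟨ψ, hψ, rfl⟩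
  exact h ψ hψ

private theorem exists_bound_ball {Q : E → ℝ} (hQ : Continuous Q) (R : ℝ) :
    ∃ M : ℝ, ∀ z, ‖z‖ ≤ R → Q z ≤ M := by
  have hprop : ProperSpace E := FiniteDimensional.proper ℂ E
  obtain ⟨M, hM⟩ := (isCompact_closedBall (0 : E) R).bddAbove_image hQ.continuousOn
  refine ⟨M, fun z hz => hM ⟨z, ?_, rfl⟩⟩
  rwa [mem_closedBall_zero_iff]

theorem env_growth {Q : E → ℝ} (hQ : IsPot Q) :
    ∃ M : ℝ, ∀ z, env Q z ≤ Real.log (1 + ‖z‖ ^ 2) + M := by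
  obtain ⟨M, hM⟩ := exists_bound_ball hQ.cd.continuous 1
  refine ⟨M, fun z => env_le_of_adm hQ z fun ψ hψ => ?_⟩
  have := bernstein_walsh hψ.1 hψ.2.2 (M := M) (fun w hw => (hψ.2.1 w).trans (hM w hw)) z
  linarith

/-- `env Q` is bounded below. -/
theorem env_bddBelow {Q : E → ℝ} (hQ : IsPot Q) : ∃ C : ℝ, ∀ z, -C ≤ env Q z := by
  obtain ⟨C, hC⟩ := exists_adm_const hQ
  exact ⟨C, fun z => hC.le_env z⟩

/-- There is a radius `R` such that psh functions of logarithmic growth which are `≤ Q` on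
`closedBall 0 R` are `≤ Q` everywhere (`bernstein_walsh` and the growth of `Q`; take `R ≥ 1`). -/
theorem exists_radius {Q : E → ℝ} (hQ : IsPot Q) :
    ∃ R : ℝ, 1 ≤ R ∧ ∀ ψ : E → ℝ, PSH ψ → LogGrowth ψ → (∀ z, ‖z‖ ≤ R → ψ z ≤ Q z) →
      ∀ z, ψ z ≤ Q z := by
  obtain ⟨M, hM⟩ := exists_bound_ball hQ.cd.continuous 1
  obtain ⟨δ, C, hδ, h⟩ := hQ.gr
  set R : ℝ := Real.exp ((|M| + |C|) / δ) with hR
  have hR1 : 1 ≤ R := Real.one_le_exp (by positivity)
  refine ⟨R, hR1, fun ψ hψ hg hle z => ?_⟩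
  by_cases hz : ‖z‖ ≤ R
  · exact hle z hz
  · push Not at hz
    have h1 := bernstein_walsh hψ hg (M := M)
      (fun w hw => (hle w (hw.trans hR1)).trans (hM w hw)) z
    have h2 := h z
    have h3 : (|M| + |C|) / δ ≤ Real.log (1 + ‖z‖ ^ 2) := by
      rw [Real.le_log_iff_exp_le (by positivity), ← hR]
      have : 1 ≤ ‖z‖ := hR1.trans hz.le
      nlinarith
    rw [div_le_iff₀ hδ] at h3
    have h4 := le_abs_self M
    have h5 := le_abs_self C
    linarith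

/-- second differences of a `C²` function on a ball -/
private theorem second_diff_bound {Q : E → ℝ} (hQ : ContDiff ℝ 2 Q) (R : ℝ) :
    ∃ B : ℝ, 0 ≤ B ∧ ∀ z h : E, ‖z‖ ≤ R → ‖h‖ ≤ 1 →
      Q (z + h) + Q (z - h) - 2 * Q z ≤ B * ‖h‖ ^ 2 := by
  have hprop : ProperSpace E := FiniteDimensional.proper ℂ E
  have hQ1 : ContDiff ℝ 1 (fderiv ℝ Q) := hQ.fderiv_right (by norm_num)
  have hc3 : Continuous (fun w => ‖fderiv ℝ (fderiv ℝ Q) w‖) :=
    (hQ1.continuous_fderiv (by norm_num)).norm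
  obtain ⟨B, hB⟩ := (isCompact_closedBall (0 : E) (R + 1)).bddAbove_image hc3.continuousOn
  have hB' : ∀ w ∈ Metric.closedBall (0 : E) (R + 1), ‖fderiv ℝ (fderiv ℝ Q) w‖ ≤ B :=
    fun w hw => hB ⟨w, hw, rfl⟩
  have hlip : ∀ x ∈ Metric.closedBall (0 : E) (R + 1), ∀ y ∈ Metric.closedBall (0 : E) (R + 1),
      ‖fderiv ℝ Q y - fderiv ℝ Q x‖ ≤ B * ‖y - x‖ := by
    intro x hx y hy
    exact (convex_closedBall (0 : E) (R + 1)).norm_image_sub_le_of_norm_fderiv_le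
      (fun w _ => (hQ1.differentiable (by norm_num)).differentiableAt) hB' hx hy
  refine ⟨2 * |B|, by positivity, fun z h hz hh => ?_⟩
  set G : E → ℝ := fun y => Q (z + y) + Q (z - y) with hG
  have hd : Differentiable ℝ Q := hQ.differentiable (by norm_num)
  have hGd : ∀ y ∈ Metric.closedBall (0 : E) ‖h‖, HasFDerivWithinAt G
      (fderiv ℝ Q (z + y) - fderiv ℝ Q (z - y)) (Metric.closedBall (0 : E) ‖h‖) y := by
    intro y _
    have h1 : HasFDerivAt (fun y => Q (z + y)) (fderiv ℝ Q (z + y)) y := by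
      have := (hd (z + y)).hasFDerivAt.comp y ((hasFDerivAt_id y).const_add z)
      rw [ContinuousLinearMap.comp_id] at this
      exact this
    have h2 : HasFDerivAt (fun y => Q (z - y)) (-fderiv ℝ Q (z - y)) y := by
      have := (hd (z - y)).hasFDerivAt.comp y ((hasFDerivAt_id y).const_sub z)
      rw [ContinuousLinearMap.comp_neg, ContinuousLinearMap.comp_id] at this
      exact this
    have h3 := h1.add h2
    rw [← sub_eq_add_neg] at h3
    exact h3.hasFDerivWithinAt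
  have hGb : ∀ y ∈ Metric.closedBall (0 : E) ‖h‖,
      ‖fderiv ℝ Q (z + y) - fderiv ℝ Q (z - y)‖ ≤ 2 * |B| * ‖h‖ := by
    intro y hy
    rw [mem_closedBall_zero_iff] at hy
    have h1 : z + y ∈ Metric.closedBall (0 : E) (R + 1) := by
      rw [mem_closedBall_zero_iff]
      exact (norm_add_le _ _).trans (by linarith)
    have h2 : z - y ∈ Metric.closedBall (0 : E) (R + 1) := by
      rw [mem_closedBall_zero_iff]
      exact (norm_sub_le _ _).trans (by linarith)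
    refine (hlip _ h2 _ h1).trans ?_
    have h3 : ‖z + y - (z - y)‖ ≤ 2 * ‖h‖ := by
      have : z + y - (z - y) = y + y := by abel
      rw [this]
      exact (norm_add_le _ _).trans (by linarith)
    have h4 := le_abs_self B
    calc B * ‖z + y - (z - y)‖ ≤ |B| * (2 * ‖h‖) := by gcongr
      _ = _ := by ring
  have hmain := (convex_closedBall (0 : E) ‖h‖).norm_image_sub_le_of_norm_hasFDerivWithin_le hGd hGb
    (x := 0) (y := h) (by simp) (by simp)
  have h5 : G h - G 0 = Q (z + h) + Q (z - h) - 2 * Q z := by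
    simp only [hG, add_zero, sub_zero]
    ring
  rw [h5, sub_zero] at hmain
  have h6 := le_abs_self (Q (z + h) + Q (z - h) - 2 * Q z)
  rw [Real.norm_eq_abs] at hmain
  calc Q (z + h) + Q (z - h) - 2 * Q z ≤ 2 * |B| * ‖h‖ * ‖h‖ := h6.trans hmain
    _ = 2 * |B| * ‖h‖ ^ 2 := by ring

private theorem PSH.translate {f : E → ℝ} (hf : PSH f) (h : E) : PSH (fun z => f (z + h)) := by
  have := hf.comp_affine h (ContinuousLinearMap.id ℂ E)
  convert this using 2 with z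
  rw [ContinuousLinearMap.id_apply, add_comm]

private theorem LogGrowth.translate {f : E → ℝ} (hf : LogGrowth f) {h : E} (hh : ‖h‖ ≤ 1) :
    LogGrowth (fun z => f (z + h)) := by
  obtain ⟨C, hC⟩ := hf
  refine ⟨Real.log 3 + C, fun z => ?_⟩
  have h1 := hC (z + h)
  have h2 : ‖z + h‖ ≤ ‖z‖ + 1 := (norm_add_le _ _).trans (by linarith)
  have h3 : 1 + ‖z + h‖ ^ 2 ≤ 3 * (1 + ‖z‖ ^ 2) := by
    have h4 : ‖z + h‖ ^ 2 ≤ (‖z‖ + 1) ^ 2 := by gcongr
    nlinarith [sq_nonneg (‖z‖ - 1)]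
  have h5 : Real.log (1 + ‖z + h‖ ^ 2) ≤ Real.log 3 + Real.log (1 + ‖z‖ ^ 2) := by
    rw [← Real.log_mul (by norm_num) (by positivity)]
    exact Real.log_le_log (by positivity) h3
  linarith

theorem env_second {Q : E → ℝ} (hQ : IsPot Q) :
    ∃ C : ℝ, 0 ≤ C ∧ ∀ z h : E, ‖h‖ ≤ 1 →
      env Q (z + h) + env Q (z - h) - 2 * env Q z ≤ C * ‖h‖ ^ 2 := by
  obtain ⟨R, hR1, hR⟩ := exists_radius hQ
  obtain ⟨B, hB0, hB⟩ := second_diff_bound hQ.cd R
  refine ⟨B, hB0, fun z h hh => ?_⟩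
  have key : ∀ ψ₁ ψ₂ : E → ℝ, Adm Q ψ₁ → Adm Q ψ₂ →
      ψ₁ (z + h) + ψ₂ (z - h) ≤ 2 * env Q z + B * ‖h‖ ^ 2 := by
    intro ψ₁ ψ₂ h₁ h₂
    set χ : E → ℝ := fun w => (1 / 2) * (ψ₁ (w + h) + ψ₂ (w + -h)) + -(B / 2 * ‖h‖ ^ 2) with hχ
    have hpsh : PSH χ :=
      (((h₁.1.translate h).add (h₂.1.translate (-h))).const_mul (by norm_num)).add (psh_const _)
    have hgr : LogGrowth χ := by
      obtain ⟨C1, hC1⟩ := h₁.2.2.translate hh
      obtain ⟨C2, hC2⟩ := h₂.2.2.translate (h := -h) (by rwa [norm_neg])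
      refine ⟨(C1 + C2) / 2, fun w => ?_⟩
      have e1 := hC1 w
      have e2 := hC2 w
      have e3 : 0 ≤ B / 2 * ‖h‖ ^ 2 := by positivity
      simp only [hχ]
      simp only at e1 e2
      linarith
    have hadm : Adm Q χ := by
      refine ⟨hpsh, hR χ hpsh hgr fun w hw => ?_, hgr⟩
      have e1 := h₁.2.1 (w + h)
      have e2 := h₂.2.1 (w - h)
      have e3 := hB w h hw hh
      simp only [hχ]
      rw [← sub_eq_add_neg w h]
      linarith
    have e1 := hadm.le_env z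
    simp only [hχ] at e1
    rw [← sub_eq_add_neg z h] at e1
    linarith
  have step1 : ∀ ψ₂ : E → ℝ, Adm Q ψ₂ →
      env Q (z + h) + ψ₂ (z - h) ≤ 2 * env Q z + B * ‖h‖ ^ 2 := by
    intro ψ₂ h₂
    have : env Q (z + h) ≤ 2 * env Q z + B * ‖h‖ ^ 2 - ψ₂ (z - h) :=
      env_le_of_adm hQ _ fun ψ₁ h₁ => by linarith [key ψ₁ ψ₂ h₁ h₂]
    linarith
  have step2 : env Q (z - h) ≤ 2 * env Q z + B * ‖h‖ ^ 2 - env Q (z + h) :=
    env_le_of_adm hQ _ fun ψ₂ h₂ => by linarith [step1 ψ₂ h₂]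
  linarith

private theorem env_lower {Q : E → ℝ} (hQ : IsPot Q) (z : E) {ε : ℝ} (hε : 0 < ε) :
    ∀ᶠ w in 𝓝 z, env Q z - ε < env Q w := by
  obtain ⟨t, ⟨ψ, hψ, rfl⟩, ht⟩ := exists_lt_of_lt_csSup (env_set_nonempty hQ z)
    (show env Q z - ε / 2 < env Q z by linarith)
  have h1 : ∀ᶠ w in 𝓝 z, ψ z - ε / 2 < ψ w :=
    hψ.1.1.continuousAt.eventually (lt_mem_nhds (by linarith))
  filter_upwards [h1] with w hw
  have := hψ.le_env w
  linarith

theorem env_continuous {Q : E → ℝ} (hQ : IsPot Q) : Continuous (env Q) := by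
  obtain ⟨C, hC0, hC⟩ := env_second hQ
  rw [continuous_iff_continuousAt]
  intro z
  rw [Metric.continuousAt_iff']
  intro ε hε
  have h1 := env_lower hQ z (half_pos hε)
  have h2 : ∀ᶠ w in 𝓝 z, env Q z - ε / 2 < env Q (z - (w - z)) := by
    have ht : Tendsto (fun w : E => z - (w - z)) (𝓝 z) (𝓝 z) := by
      have : Continuous (fun w : E => z - (w - z)) := by fun_prop
      have h3 := this.tendsto z
      simpa using h3
    exact ht.eventually h1
  have h3 : ∀ᶠ w in 𝓝 z, ‖w - z‖ ≤ 1 := by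
    have ht : Tendsto (fun w : E => ‖w - z‖) (𝓝 z) (𝓝 0) := by
      have : Continuous (fun w : E => ‖w - z‖) := by fun_prop
      have h3 := this.tendsto z
      simpa using h3
    exact ht.eventually (Iic_mem_nhds one_pos)
  have h4 : ∀ᶠ w in 𝓝 z, C * ‖w - z‖ ^ 2 < ε / 2 := by
    have ht : Tendsto (fun w : E => C * ‖w - z‖ ^ 2) (𝓝 z) (𝓝 0) := by
      have : Continuous (fun w : E => C * ‖w - z‖ ^ 2) := by fun_prop
      have h3 := this.tendsto z
      simpa using h3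
    exact ht.eventually (Iio_mem_nhds (half_pos hε))
  filter_upwards [h1, h2, h3, h4] with w e1 e2 e3 e4
  have e5 := hC z (w - z) e3
  rw [add_sub_cancel] at e5
  rw [Real.dist_eq, abs_lt]
  constructor <;> linarith

theorem env_psh {Q : E → ℝ} (hQ : IsPot Q) : PSH (env Q) := by
  refine ⟨env_continuous hQ, fun z v => env_le_of_adm hQ z fun ψ hψ => ?_⟩
  exact (hψ.1.2 z v).trans (Real.circleAverage_mono (circInt hψ.1.1 z v)
    (circInt (env_continuous hQ) z v) fun ζ _ => hψ.le_env _)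

theorem env_adm {Q : E → ℝ} (hQ : IsPot Q) : Adm Q (env Q) :=
  ⟨env_psh hQ, env_le hQ, env_growth hQ⟩

theorem env_C11 {Q : E → ℝ} (hQ : IsPot Q) : ∃ K : ℝ, C11 K (env Q) := by
  borelize E
  have hprop : ProperSpace E := FiniteDimensional.proper ℂ E
  obtain ⟨C, hC0, hC⟩ := env_second hQ
  have hcont := env_continuous hQ
  refine ⟨C, ?_⟩
  have hs : ∀ s : ℝ, 0 < s → C11 C (moll s (env Q)) := by
    intro s hs
    have hcd : ContDiff ℝ 2 (moll s (env Q)) :=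
      (moll_contDiff hs hcont.locallyIntegrable).of_le
        (by exact WithTop.coe_le_coe.mpr le_top)
    have hup := moll_second_le hcont hC hs
    refine C11.of_second hC0 hcd fun z v => ?_
    have h1 := ((env_psh hQ).moll s).levi_nonneg hcd z v
    rw [Levi] at h1
    have h2 := hup z v
    have h3 := hup z (I • v)
    have h4 : ‖I • v‖ = ‖v‖ := by rw [norm_smul, Complex.norm_I, one_mul]
    rw [h4] at h3
    rw [abs_le]
    constructor <;> linarith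
  have hlim : ∀ z, Tendsto (fun n : ℕ => moll (1 / ((n : ℝ) + 1)) (env Q) z) atTop
      (𝓝 (env Q z)) := by
    intro z
    have h1 : Tendsto (fun s : ℝ => moll s (env Q) z) (𝓝[>] 0) (𝓝 (env Q z)) :=
      (tendstoLocallyUniformlyOn_univ.mpr (moll_tendsto hcont)).tendsto_at (Set.mem_univ z)
    have h2 : Tendsto (fun n : ℕ => 1 / ((n : ℝ) + 1)) atTop (𝓝[>] 0) := by
      rw [tendsto_nhdsWithin_iff]
      refine ⟨tendsto_one_div_add_atTop_nhds_zero_nat, Eventually.of_forall fun n => ?_⟩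
      show (0 : ℝ) < 1 / ((n : ℝ) + 1)
      exact Nat.one_div_pos_of_nat
    exact h1.comp h2
  exact (C11.of_tendsto (fun n : ℕ => hs (1 / ((n : ℝ) + 1)) Nat.one_div_pos_of_nat) hlim).1

end Pool.Agent.Edge
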