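import Pool.Agent.Edge.RKBasic

/-!
# Polynomials on `ℂ^d` and the measure `ω`
-/

namespace Pool.Agent.Edge

open MeasureTheory Filter Topology Complex

open scoped ComplexConjugate

/-- evaluation of a polynomial on `EuclideanSpace ℂ (Fin d)`. -/
noncomputable def ev {d : ℕ} (p : MvPolynomial (Fin d) ℂ) (z : EuclideanSpace ℂ (Fin d)) : ℂ :=
  MvPolynomial.eval (fun i => z i) p

theorem ev_eq_sum {d : ℕ} (p : MvPolynomial (Fin d) ℂ) (z : EuclideanSpace ℂ (Fin d)) :
    ev p z = ∑ m ∈ p.support, p.coeff m * ∏ i, z i ^ m i := by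
  unfold ev
  rw [MvPolynomial.eval_eq']

theorem differentiable_ev {d : ℕ} (p : MvPolynomial (Fin d) ℂ) : Differentiable ℂ (ev p) := by
  have h : ev p = fun z : EuclideanSpace ℂ (Fin d) =>
      ∑ m ∈ p.support, p.coeff m * ∏ i, z i ^ m i := by
    funext z
    exact ev_eq_sum p z
  rw [h]
  apply Differentiable.fun_sum
  intro m _
  apply Differentiable.const_mul
  have hc : ContDiff ℂ 1 (fun z : EuclideanSpace ℂ (Fin d) => ∏ i, z i ^ m i) := by
    apply contDiff_prod
    intro i _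
    exact ((EuclideanSpace.proj (𝕜 := ℂ) i : EuclideanSpace ℂ (Fin d) →L[ℂ] ℂ).contDiff).pow _
  exact hc.differentiable (by norm_num)

theorem norm_mon_le {d : ℕ} (m : Fin d →₀ ℕ) (z : EuclideanSpace ℂ (Fin d)) :
    ‖∏ i, z i ^ m i‖ ≤ (1 + ‖z‖) ^ (∑ i, m i) := by
  rw [norm_prod, ← Finset.prod_pow_eq_pow_sum]
  apply Finset.prod_le_prod
  · intro i _
    exact norm_nonneg _
  · intro i _
    rw [norm_pow]
    apply pow_le_pow_left₀ (norm_nonneg _)
    have := PiLp.norm_apply_le z i
    linarith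

/-- Polynomials of total degree `< n` belong to `Vsp n 0` (`|z_i| ≤ ‖z‖`, every monomial of degree
`≤ n-1` is `≤ (1+‖z‖)^{n-1}`). -/
theorem ev_mem_Vsp {d n : ℕ} {p : MvPolynomial (Fin d) ℂ} (hp : p.totalDegree < n) :
    ev p ∈ Vsp n (0 : EuclideanSpace ℂ (Fin d) → ℂ) := by
  rw [mem_Vsp]
  refine ⟨differentiable_ev p, ∑ m ∈ p.support, ‖p.coeff m‖, fun z => ?_⟩
  have h0 : (0 : ℝ) ≤ ‖z‖ := norm_nonneg z
  have h1 : ‖ev p z * cexp ((0 : EuclideanSpace ℂ (Fin d) → ℂ) z / 2)‖ = ‖ev p z‖ := by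
    simp
  rw [h1, ev_eq_sum, Finset.sum_mul]
  calc (1 + ‖z‖) * ‖∑ m ∈ p.support, p.coeff m * ∏ i, z i ^ m i‖
      ≤ (1 + ‖z‖) * ∑ m ∈ p.support, ‖p.coeff m‖ * (1 + ‖z‖) ^ (∑ i, m i) := by
        apply mul_le_mul_of_nonneg_left _ (by linarith)
        refine (norm_sum_le _ _).trans (Finset.sum_le_sum fun m _ => ?_)
        rw [norm_mul]
        exact mul_le_mul_of_nonneg_left (norm_mon_le m z) (norm_nonneg _)
    _ ≤ ∑ m ∈ p.support, ‖p.coeff m‖ * (1 + ‖z‖) ^ n := by
        rw [Finset.mul_sum]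
        apply Finset.sum_le_sum
        intro m hm
        have hdeg : (∑ i, m i) + 1 ≤ n := by
          have := MvPolynomial.le_totalDegree hm
          have h2 : (m.sum fun _ e => e) = ∑ i, m i := by
            rw [Finsupp.sum_fintype]
            intro i; rfl
          omega
        calc (1 + ‖z‖) * (‖p.coeff m‖ * (1 + ‖z‖) ^ (∑ i, m i))
            = ‖p.coeff m‖ * (1 + ‖z‖) ^ ((∑ i, m i) + 1) := by ring
          _ ≤ ‖p.coeff m‖ * (1 + ‖z‖) ^ n := by
            apply mul_le_mul_of_nonneg_left _ (norm_nonneg _)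
            exact pow_le_pow_right₀ (by linarith) hdeg

/-- entire functions of polynomial growth in one variable -/
theorem poly_of_growth (n : ℕ) : ∀ g : ℂ → ℂ, Differentiable ℂ g →
    (∃ C : ℝ, ∀ z, ‖g z‖ ≤ C * (1 + ‖z‖) ^ n) →
    ∃ p : Polynomial ℂ, p.natDegree ≤ n ∧ ∀ z, g z = p.eval z := by
  induction n with
  | zero =>
    rintro g hg ⟨C, hC⟩
    have hb : Bornology.IsBounded (Set.range g) := by
      rw [isBounded_iff_forall_norm_le]
      refine ⟨C, ?_⟩
      rintro _ ⟨z, rfl⟩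
      simpa using hC z
    refine ⟨Polynomial.C (g 0), by simp, fun z => ?_⟩
    rw [Polynomial.eval_C]
    exact hg.apply_eq_apply_of_bounded hb z 0
  | succ n ih =>
    rintro g hg ⟨C, hC⟩
    have hC0 : 0 ≤ C := by
      have h := hC 0
      simp only [norm_zero, add_zero, one_pow, mul_one] at h
      exact (norm_nonneg _).trans h
    have hd : Differentiable ℂ (dslope g 0) := by
      rw [← differentiableOn_univ]
      rw [Complex.differentiableOn_dslope Filter.univ_mem]
      exact hg.differentiableOn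
    have hgz : ∀ z, g z = g 0 + z * dslope g 0 z := by
      intro z
      have := sub_smul_dslope g 0 z
      simp only [sub_zero, smul_eq_mul] at this
      rw [this]; ring
    obtain ⟨M, hM⟩ := (isCompact_closedBall (0 : ℂ) 1).exists_bound_of_continuousOn
      hd.continuous.continuousOn
    have hM0 : 0 ≤ M := (norm_nonneg _).trans (hM 0 (by simp))
    have hgrow : ∃ C' : ℝ, ∀ z, ‖dslope g 0 z‖ ≤ C' * (1 + ‖z‖) ^ n := by
      refine ⟨M + 4 * C, fun z => ?_⟩
      have hpos : (1 : ℝ) ≤ (1 + ‖z‖) ^ n := one_le_pow₀ (by linarith [norm_nonneg z])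
      by_cases hz : ‖z‖ ≤ 1
      · refine (hM z (by simpa using hz)).trans ?_
        calc M ≤ M * (1 + ‖z‖) ^ n := le_mul_of_one_le_right hM0 hpos
          _ ≤ (M + 4 * C) * (1 + ‖z‖) ^ n :=
            mul_le_mul_of_nonneg_right (by linarith) (by positivity)
      · push Not at hz
        have h1 : ‖z‖ * ‖dslope g 0 z‖ ≤ 2 * C * (1 + ‖z‖) ^ (n + 1) := by
          rw [← norm_mul]
          have h2 : z * dslope g 0 z = g z - g 0 := by rw [hgz z]; ring
          rw [h2]
          refine (norm_sub_le _ _).trans ?_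
          have h3 := hC z
          have h4 : ‖g 0‖ ≤ C * (1 + ‖z‖) ^ (n + 1) := by
            refine (hC 0).trans ?_
            simp only [norm_zero, add_zero, one_pow, mul_one]
            exact le_mul_of_one_le_right hC0 (one_le_pow₀ (by linarith [norm_nonneg z]))
          linarith
        have h5 : ‖z‖ * ‖dslope g 0 z‖ ≤ ‖z‖ * (4 * C * (1 + ‖z‖) ^ n) := by
          refine h1.trans ?_
          have h6 : 1 + ‖z‖ ≤ 2 * ‖z‖ := by linarith
          calc 2 * C * (1 + ‖z‖) ^ (n + 1) = (2 * C * (1 + ‖z‖) ^ n) * (1 + ‖z‖) := by ring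
            _ ≤ (2 * C * (1 + ‖z‖) ^ n) * (2 * ‖z‖) :=
              mul_le_mul_of_nonneg_left h6 (by positivity)
            _ = _ := by ring
        have h7 := le_of_mul_le_mul_left h5 (by linarith)
        refine h7.trans (mul_le_mul_of_nonneg_right (by linarith) (by positivity))
    obtain ⟨p, hp1, hp2⟩ := ih (dslope g 0) hd hgrow
    refine ⟨Polynomial.C (g 0) + Polynomial.X * p, ?_, fun z => ?_⟩
    · refine (Polynomial.natDegree_add_le _ _).trans ?_
      rw [Polynomial.natDegree_C, max_eq_right (Nat.zero_le _)]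
      refine (Polynomial.natDegree_mul_le).trans ?_
      have := Polynomial.natDegree_X_le (R := ℂ)
      omega
    · rw [hgz z, hp2 z]
      simp

/-- restriction of an element of `Vsp n 0` to a complex line -/
theorem line_poly {d n : ℕ} (hn : 1 ≤ n) {f : EuclideanSpace ℂ (Fin d) → ℂ}
    (hf : f ∈ Vsp n (0 : EuclideanSpace ℂ (Fin d) → ℂ)) (a v : EuclideanSpace ℂ (Fin d)) :
    ∃ q : Polynomial ℂ, q.natDegree ≤ n - 1 ∧ ∀ l : ℂ, f (a + l • v) = q.eval l := by
  rw [mem_Vsp] at hf
  obtain ⟨hd, C, hC⟩ := hf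
  apply poly_of_growth (n - 1) (fun l => f (a + l • v))
  · exact hd.comp ((differentiable_const a).add (differentiable_id.smul_const v))
  · have hC0 : 0 ≤ C := by
      have h := hC 0
      simp only [norm_zero, add_zero, one_pow, mul_one, one_mul] at h
      exact (norm_nonneg _).trans h
    refine ⟨C * (1 + ‖a‖ + ‖v‖) ^ (n - 1), fun l => ?_⟩
    have h1 := hC (a + l • v)
    have h2 : ‖f (a + l • v) * cexp ((0 : EuclideanSpace ℂ (Fin d) → ℂ) (a + l • v) / 2)‖ =
        ‖f (a + l • v)‖ := by simp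
    rw [h2] at h1
    have hpos : (0 : ℝ) < 1 + ‖a + l • v‖ := by positivity
    have h3 : ‖f (a + l • v)‖ ≤ C * (1 + ‖a + l • v‖) ^ (n - 1) := by
      have h4 : (1 + ‖a + l • v‖) * ‖f (a + l • v)‖ ≤
          (1 + ‖a + l • v‖) * (C * (1 + ‖a + l • v‖) ^ (n - 1)) := by
        refine h1.trans (le_of_eq ?_)
        obtain ⟨m, rfl⟩ : ∃ m, n = m + 1 := ⟨n - 1, by omega⟩
        rw [Nat.add_sub_cancel, pow_succ]
        ring
      exact le_of_mul_le_mul_left h4 hpos
    refine h3.trans ?_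
    rw [mul_assoc, ← mul_pow]
    apply mul_le_mul_of_nonneg_left _ hC0
    apply pow_le_pow_left₀ hpos.le
    have h5 : ‖a + l • v‖ ≤ ‖a‖ + ‖l‖ * ‖v‖ := (norm_add_le _ _).trans (by rw [norm_smul])
    nlinarith [norm_nonneg a, norm_nonneg v, norm_nonneg l, mul_nonneg (norm_nonneg a) (norm_nonneg l)]

theorem eval_aeval_X {d : ℕ} (q : Polynomial ℂ) (j : Fin d) (x : Fin d → ℂ) :
    MvPolynomial.eval x (Polynomial.aeval (MvPolynomial.X j : MvPolynomial (Fin d) ℂ) q) =
      q.eval (x j) := by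
  rw [Polynomial.aeval_def, Polynomial.hom_eval₂, MvPolynomial.eval_X]
  have : (MvPolynomial.eval x).comp (algebraMap ℂ (MvPolynomial (Fin d) ℂ)) = RingHom.id ℂ := by
    ext c
    simp
  rw [this]
  rfl

theorem update_toLp {d : ℕ} (x : Fin d → ℂ) (j : Fin d) (c : ℂ) :
    (WithLp.toLp 2 (Function.update x j c) : EuclideanSpace ℂ (Fin d)) =
      WithLp.toLp 2 (Function.update x j 0) + c • EuclideanSpace.single j (1 : ℂ) := by
  ext i
  by_cases h : i = j
  · subst h
    simp
  · simp [h]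

/-- one variable interpolation -/
theorem interp_one {d n : ℕ} (hn : 1 ≤ n) {f : EuclideanSpace ℂ (Fin d) → ℂ}
    (hf : f ∈ Vsp n (0 : EuclideanSpace ℂ (Fin d) → ℂ)) (x : Fin d → ℂ) (j : Fin d) :
    f (WithLp.toLp 2 x) = ∑ i : Fin n, f (WithLp.toLp 2 (Function.update x j ((i : ℕ) : ℂ))) *
      (Lagrange.basis Finset.univ (fun i : Fin n => ((i : ℕ) : ℂ)) i).eval (x j) := by
  obtain ⟨q, hq1, hq2⟩ := line_poly hn hf (WithLp.toLp 2 (Function.update x j 0))
    (EuclideanSpace.single j (1 : ℂ))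
  have hval : ∀ c : ℂ, f (WithLp.toLp 2 (Function.update x j c)) = q.eval c := by
    intro c
    rw [update_toLp, hq2]
  have hinj : Set.InjOn (fun i : Fin n => ((i : ℕ) : ℂ)) (Finset.univ : Finset (Fin n)) := by
    intro a _ b _ h
    have h' : ((a : ℕ) : ℂ) = ((b : ℕ) : ℂ) := h
    exact Fin.ext (by exact_mod_cast h')
  have hdeg : q.degree < (Finset.univ : Finset (Fin n)).card := by
    rw [Finset.card_fin]
    refine (Polynomial.degree_le_natDegree).trans_lt ?_
    exact_mod_cast (by omega : q.natDegree < n)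
  have h := Lagrange.eq_interpolate hinj hdeg
  have h1 : f (WithLp.toLp 2 x) = q.eval (x j) := by
    rw [← hval, Function.update_eq_self]
  rw [h1]
  conv_lhs => rw [h]
  rw [Lagrange.interpolate_apply, Polynomial.eval_finsetSum]
  apply Finset.sum_congr rfl
  intro i _
  rw [Polynomial.eval_mul, Polynomial.eval_C, hval]

/-- interpolation in several variables -/
theorem interp_many {d n : ℕ} (hn : 1 ≤ n) {f : EuclideanSpace ℂ (Fin d) → ℂ}
    (hf : f ∈ Vsp n (0 : EuclideanSpace ℂ (Fin d) → ℂ)) (S : Finset (Fin d)) :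
    ∃ (ι : Type) (_ : Fintype ι) (P : ι → MvPolynomial (Fin d) ℂ) (y : ι → Fin d → ℂ),
      ∀ x : Fin d → ℂ, f (WithLp.toLp 2 x) = ∑ a : ι, MvPolynomial.eval x (P a) *
        f (WithLp.toLp 2 (fun j => if j ∈ S then y a j else x j)) := by
  classical
  induction S using Finset.induction_on with
  | empty =>
    refine ⟨Unit, inferInstance, fun _ => 1, fun _ => 0, fun x => ?_⟩
    simp
  | insert j0 S hj0 ih =>
    obtain ⟨ι, hι, P, y, hP⟩ := ih
    refine ⟨ι × Fin n, inferInstance, fun a => P a.1 *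
      Polynomial.aeval (MvPolynomial.X j0)
        (Lagrange.basis Finset.univ (fun i : Fin n => ((i : ℕ) : ℂ)) a.2),
      fun a => Function.update (y a.1) j0 ((a.2 : ℕ) : ℂ), fun x => ?_⟩
    rw [hP x, Fintype.sum_prod_type]
    apply Finset.sum_congr rfl
    intro a _
    rw [interp_one hn hf _ j0, Finset.mul_sum]
    apply Finset.sum_congr rfl
    intro i _
    rw [if_neg hj0, map_mul, eval_aeval_X]
    have h1 : Function.update (fun j => if j ∈ S then y a j else x j) j0 ((i : ℕ) : ℂ) =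
        fun j => if j ∈ insert j0 S then Function.update (y a) j0 ((i : ℕ) : ℂ) j else x j := by
      funext j
      by_cases h : j = j0
      · subst h
        simp
      · simp [h, Finset.mem_insert]
    rw [h1]
    ring

theorem eval_smul_homogeneous {d : ℕ} (p : MvPolynomial (Fin d) ℂ) (k : ℕ)
    (hp : p.IsHomogeneous k) (l : ℂ) (x : Fin d → ℂ) :
    MvPolynomial.eval (fun i => l * x i) p = l ^ k * MvPolynomial.eval x p := by
  rw [MvPolynomial.eval_eq', MvPolynomial.eval_eq', Finset.mul_sum]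
  apply Finset.sum_congr rfl
  intro m hm
  have h1 : ∑ i, m i = k := by
    have := hp (MvPolynomial.mem_support_iff.1 hm)
    rw [← this]
    simp [Finsupp.weight_apply, Finsupp.sum_fintype]
  simp only [mul_pow, Finset.prod_mul_distrib]
  rw [Finset.prod_pow_eq_pow_sum, h1]
  ring

/-- Conversely every element of `Vsp n 0`, `n ≥ 1`, is a polynomial of total degree `< n`.
(a) On each complex line `λ ↦ f(a+λv)` is entire with `|f(a+λv)| ≤ C(1+|λ|)^{n-1}`, hence a
polynomial in `λ` of degree `≤ n-1` (Cauchy estimates / Liouville).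
(b) `f` is a polynomial: fix `n` distinct nodes `t_0,…,t_{n-1} ∈ ℂ` with Lagrange basis `ℓ_i`; a
polynomial in `z_1` of degree `< n` equals `∑_i f(t_i,z_2,…)ℓ_i(z_1)`; doing this in each variable,
`f(z) = ∑_{i ∈ (Fin n)^d} f(t_{i_1},…,t_{i_d}) ∏_j ℓ_{i_j}(z_j)` (induction over a set of variables).
(c) Degree: write `p = ∑_k p_k` (homogeneous components); for each `v`, `f(λv) = ∑_k p_k(v)λ^k` has
degree `< n` in `λ`, so `p_k(v) = 0` for all `v` and `k ≥ n`, i.e. `p_k = 0`
(`MvPolynomial.funext`). -/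
theorem exists_ev_of_mem_Vsp {d n : ℕ} (hn : 1 ≤ n) {f : EuclideanSpace ℂ (Fin d) → ℂ}
    (hf : f ∈ Vsp n (0 : EuclideanSpace ℂ (Fin d) → ℂ)) :
    ∃ p : MvPolynomial (Fin d) ℂ, p.totalDegree < n ∧ ∀ z, f z = ev p z := by
  classical
  obtain ⟨ι, hι, P, y, hP⟩ := interp_many hn hf Finset.univ
  set p : MvPolynomial (Fin d) ℂ :=
    ∑ a : ι, MvPolynomial.C (f (WithLp.toLp 2 (y a))) * P a with hp
  have hev : ∀ x : Fin d → ℂ, f (WithLp.toLp 2 x) = MvPolynomial.eval x p := by
    intro x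
    rw [hP x, hp, map_sum]
    apply Finset.sum_congr rfl
    intro a _
    rw [map_mul, MvPolynomial.eval_C, mul_comm]
    congr 2
    simp
  have hcomp : ∀ k, n ≤ k → MvPolynomial.homogeneousComponent k p = 0 := by
    intro k hk
    apply MvPolynomial.funext
    intro x
    rw [map_zero]
    obtain ⟨q, hq1, hq2⟩ := line_poly hn hf 0 (WithLp.toLp 2 x)
    set N := max (p.totalDegree + 1) (k + 1) with hN
    have hsum : p = ∑ i ∈ Finset.range N, MvPolynomial.homogeneousComponent i p := by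
      conv_lhs => rw [← MvPolynomial.sum_homogeneousComponent p]
      apply Finset.sum_subset
      · intro i hi
        rw [Finset.mem_range] at hi ⊢
        omega
      · intro i _ hi
        rw [Finset.mem_range] at hi
        exact MvPolynomial.homogeneousComponent_eq_zero _ _ (by omega)
    set Q : Polynomial ℂ := ∑ i ∈ Finset.range N,
      Polynomial.C (MvPolynomial.eval x (MvPolynomial.homogeneousComponent i p)) *
        Polynomial.X ^ i with hQ
    have hQq : Q = q := by
      apply Polynomial.funext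
      intro l
      rw [← hq2 l, zero_add]
      have h1 : l • (WithLp.toLp 2 x : EuclideanSpace ℂ (Fin d)) =
          WithLp.toLp 2 (fun i => l * x i) := by
        ext i; simp
      rw [h1, hev, hQ, Polynomial.eval_finsetSum]
      conv_rhs => rw [hsum]
      rw [map_sum]
      apply Finset.sum_congr rfl
      intro i _
      rw [eval_smul_homogeneous _ i (MvPolynomial.homogeneousComponent_isHomogeneous i p),
        Polynomial.eval_mul, Polynomial.eval_C, Polynomial.eval_pow, Polynomial.eval_X, mul_comm]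
    have hcoef : Q.coeff k = MvPolynomial.eval x (MvPolynomial.homogeneousComponent k p) := by
      rw [hQ, Polynomial.finsetSum_coeff, Finset.sum_eq_single k]
      · rw [Polynomial.coeff_C_mul, Polynomial.coeff_X_pow, if_pos rfl, mul_one]
      · intro i _ hi
        rw [Polynomial.coeff_C_mul, Polynomial.coeff_X_pow, if_neg (fun h => hi h.symm), mul_zero]
      · intro h
        exfalso
        apply h
        rw [Finset.mem_range]
        omega
    rw [← hcoef, hQq]
    exact Polynomial.coeff_eq_zero_of_natDegree_lt (by omega)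
  refine ⟨p, ?_, fun z => ?_⟩
  · rw [MvPolynomial.totalDegree, Finset.sup_lt_iff (show (⊥ : ℕ) < n from hn)]
    intro m hm
    by_contra hcon
    push Not at hcon
    have h1 := hcomp _ hcon
    have h2 : MvPolynomial.coeff m (MvPolynomial.homogeneousComponent (m.sum fun _ e => e) p) =
        MvPolynomial.coeff m p := by
      rw [MvPolynomial.coeff_homogeneousComponent, if_pos]
      rfl
    rw [h1, MvPolynomial.coeff_zero] at h2
    exact (MvPolynomial.mem_support_iff.1 hm) h2.symm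
  · unfold ev
    rw [← hev]

/-- `dω = dA(z_1)⋯dA(z_d)`, `dA = π^{-1}dx dy`. -/
noncomputable def omegaC (d : ℕ) : Measure (EuclideanSpace ℂ (Fin d)) :=
  (Measure.pi (fun _ : Fin d => ENNReal.ofReal Real.pi⁻¹ • (volume : Measure ℂ))).map
    (WithLp.toLp 2)

theorem integral_gauss_C :
    ∫ z : ℂ, Real.exp (-‖z‖ ^ 2) ∂(ENNReal.ofReal Real.pi⁻¹ • (volume : Measure ℂ)) = 1 := by
  rw [integral_smul_measure, ENNReal.toReal_ofReal (by positivity)]
  have h := GaussianFourier.integral_rexp_neg_mul_sq_norm (V := ℂ) (b := 1) one_pos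
  rw [Complex.finrank_real_complex] at h
  have h2 : (Real.pi / 1) ^ (((2 : ℕ) : ℝ) / 2) = Real.pi := by
    rw [div_one, Nat.cast_ofNat, div_self two_ne_zero, Real.rpow_one]
  rw [h2] at h
  have h3 : ∫ z : ℂ, Real.exp (-‖z‖ ^ 2) = Real.pi := by
    rw [← h]
    congr 1
    funext z
    ring_nf
  rw [h3, smul_eq_mul, inv_mul_cancel₀ Real.pi_ne_zero]

/-- `ω` is the normalised Haar measure `om`: it is an additive Haar measure and its Gaussian
integral is `∏ π^{-1}∫e^{-|z_j|²} = 1`. -/
theorem omegaC_eq (d : ℕ) : omegaC d = om (EuclideanSpace ℂ (Fin d)) := by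
  have hpi : (0 : ℝ) < Real.pi⁻¹ := by positivity
  have h1 : (ENNReal.ofReal Real.pi⁻¹ • (volume : Measure ℂ)).IsAddHaarMeasure :=
    Measure.IsAddHaarMeasure.smul _ (by simpa using Real.pi_pos) (by simp)
  have h3 : (omegaC d).IsAddHaarMeasure := by
    have h := ContinuousLinearEquiv.isAddHaarMeasure_map
      (PiLp.continuousLinearEquiv 2 ℂ (fun _ : Fin d => ℂ)).symm
      (Measure.pi (fun _ : Fin d => ENNReal.ofReal Real.pi⁻¹ • (volume : Measure ℂ)))
    exact h
  have h4 := Measure.isAddLeftInvariant_eq_smul (omegaC d) (om (EuclideanSpace ℂ (Fin d)))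
  have h5 : ∫ z, Real.exp (-‖z‖ ^ 2) ∂(omegaC d) = 1 := by
    have h6 : omegaC d = (Measure.pi (fun _ : Fin d =>
        ENNReal.ofReal Real.pi⁻¹ • (volume : Measure ℂ))).map
        (MeasurableEquiv.toLp 2 (Fin d → ℂ)) := rfl
    rw [h6, integral_map_equiv]
    have h7 : ∀ x : Fin d → ℂ, Real.exp (-‖(MeasurableEquiv.toLp 2 (Fin d → ℂ)) x‖ ^ 2) =
        ∏ i, Real.exp (-‖x i‖ ^ 2) := by
      intro x
      rw [← Real.exp_sum, EuclideanSpace.norm_sq_eq, Finset.sum_neg_distrib]
      rfl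
    simp only [h7]
    rw [integral_fintype_prod_eq_prod (𝕜 := ℝ) (fun (_ : Fin d) (z : ℂ) => Real.exp (-‖z‖ ^ 2))]
    simp only [integral_gauss_C, Finset.prod_const_one]
  rw [h4, integral_smul_nnreal_measure, integral_gauss] at h5
  have h8 : Measure.addHaarScalarFactor (omegaC d) (om (EuclideanSpace ℂ (Fin d))) = 1 := by
    have h9 : ((Measure.addHaarScalarFactor (omegaC d) (om (EuclideanSpace ℂ (Fin d))) : NNReal) :
        ℝ) = 1 := by
      rw [← h5, NNReal.smul_def, smul_eq_mul, mul_one]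
    exact_mod_cast h9
  rw [h8, one_smul] at h4
  exact h4

/-- The reproducing kernel of `Vsp n 0` from an orthonormal basis of polynomials
(`ev_mem_Vsp`, `exists_ev_of_mem_Vsp`). -/
theorem isRK_of_onb {d n : ℕ} (hn : 1 ≤ n) {Q : EuclideanSpace ℂ (Fin d) → ℝ}
    (hQ : Continuous Q) {J : Type*} [Fintype J] [DecidableEq J]
    (P : J → MvPolynomial (Fin d) ℂ)
    (hdeg : ∀ j, (P j).totalDegree < n)
    (hint : ∀ j, Integrable (fun z => ‖ev (P j) z‖ ^ 2 * Real.exp (-(n * Q z))) (omegaC d))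
    (horth : ∀ i j, ∫ z, ev (P i) z * conj (ev (P j) z) * (Real.exp (-(n * Q z)) : ℂ) ∂(omegaC d)
      = if i = j then 1 else 0)
    (hspan : ∀ p : MvPolynomial (Fin d) ℂ, p.totalDegree < n →
      p ∈ Submodule.span ℂ (Set.range P)) :
    IsRK (Vsp n (0 : EuclideanSpace ℂ (Fin d) → ℂ)) (fun z => n * Q z)
      (fun z w => ∑ j, ev (P j) z * conj (ev (P j) w)) := by
  rw [omegaC_eq] at hint horth
  have hgen : ∀ f ∈ Vsp n (0 : EuclideanSpace ℂ (Fin d) → ℂ),
      ∃ c : J → ℂ, ∀ z, f z = ∑ j, c j * ev (P j) z := by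
    intro f hf
    obtain ⟨p, hp, hfp⟩ := exists_ev_of_mem_Vsp hn hf
    obtain ⟨c, hc⟩ := (Submodule.mem_span_range_iff_exists_fun ℂ).1 (hspan p hp)
    refine ⟨c, fun z => ?_⟩
    rw [hfp, ← hc]
    unfold ev
    rw [map_sum]
    apply Finset.sum_congr rfl
    intro j _
    rw [MvPolynomial.smul_eval]
  have hcont : ∀ j, Continuous (ev (P j)) := fun j => (differentiable_ev _).continuous
  have hec : Continuous (fun z : EuclideanSpace ℂ (Fin d) => Real.exp (-(n * Q z))) := by
    fun_prop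
  have hpair : ∀ i j, Integrable (fun z => ev (P i) z * conj (ev (P j) z) *
      (Real.exp (-(n * Q z)) : ℂ)) (om (EuclideanSpace ℂ (Fin d))) := by
    intro i j
    refine ((hint i).add (hint j)).mono' ?_ ?_
    · apply Continuous.aestronglyMeasurable
      exact ((hcont i).mul (Complex.continuous_conj.comp (hcont j))).mul
        (Complex.continuous_ofReal.comp hec)
    · refine Eventually.of_forall fun z => ?_
      simp only [Pi.add_apply]
      rw [norm_mul, norm_mul, RCLike.norm_conj, Complex.norm_real, Real.norm_eq_abs,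
        abs_of_pos (Real.exp_pos _), ← add_mul]
      apply mul_le_mul_of_nonneg_right _ (Real.exp_pos _).le
      nlinarith [sq_nonneg (‖ev (P i) z‖ - ‖ev (P j) z‖), norm_nonneg (ev (P i) z),
        norm_nonneg (ev (P j) z)]
  refine ⟨?_, ?_, ?_, ?_, ?_⟩
  · intro f hf
    exact (mem_Vsp.1 hf).1
  · fun_prop
  · intro η
    have h1 : (fun ζ => ∑ j, ev (P j) ζ * conj (ev (P j) η)) =
        ∑ j, (conj (ev (P j) η)) • ev (P j) := by
      funext ζ
      rw [Finset.sum_apply]
      apply Finset.sum_congr rfl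
      intro j _
      rw [Pi.smul_apply, smul_eq_mul, mul_comm]
    rw [h1]
    exact Submodule.sum_mem _ fun j _ => Submodule.smul_mem _ _ (ev_mem_Vsp (hdeg j))
  · intro f hf
    obtain ⟨c, hc⟩ := hgen f hf
    have hb : Integrable (fun z => ∑ j, (Fintype.card J * ‖c j‖ ^ 2) *
        (‖ev (P j) z‖ ^ 2 * Real.exp (-(n * Q z)))) (om (EuclideanSpace ℂ (Fin d))) :=
      integrable_finsetSum _ fun j _ => (hint j).const_mul _
    refine hb.mono' ?_ ?_
    · apply Continuous.aestronglyMeasurable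
      exact ((((mem_Vsp.1 hf).1.continuous).norm).pow 2).mul hec
    · refine Eventually.of_forall fun z => ?_
      rw [Real.norm_eq_abs, abs_of_nonneg (by positivity), hc z]
      have h1 : ‖∑ j, c j * ev (P j) z‖ ^ 2 ≤ Fintype.card J * ∑ j, (‖c j‖ * ‖ev (P j) z‖) ^ 2 := by
        have h2 : ‖∑ j, c j * ev (P j) z‖ ≤ ∑ j, ‖c j‖ * ‖ev (P j) z‖ := by
          refine (norm_sum_le _ _).trans (Finset.sum_le_sum fun j _ => ?_)
          rw [norm_mul]
        refine (pow_le_pow_left₀ (norm_nonneg _) h2 2).trans ?_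
        have h3 := sq_sum_le_card_mul_sum_sq (s := (Finset.univ : Finset J))
          (f := fun j => ‖c j‖ * ‖ev (P j) z‖)
        simpa using h3
      calc ‖∑ j, c j * ev (P j) z‖ ^ 2 * Real.exp (-(n * Q z))
          ≤ (Fintype.card J * ∑ j, (‖c j‖ * ‖ev (P j) z‖) ^ 2) * Real.exp (-(n * Q z)) :=
            mul_le_mul_of_nonneg_right h1 (Real.exp_pos _).le
        _ = _ := by
            rw [Finset.mul_sum, Finset.sum_mul]
            apply Finset.sum_congr rfl
            intro j _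
            ring
  · intro f hf η
    obtain ⟨c, hc⟩ := hgen f hf
    have h1 : ∀ ζ, f ζ * conj (∑ j, ev (P j) ζ * conj (ev (P j) η)) *
        (Real.exp (-(n * Q ζ)) : ℂ) = ∑ i, ∑ j, (c i * ev (P j) η) *
          (ev (P i) ζ * conj (ev (P j) ζ) * (Real.exp (-(n * Q ζ)) : ℂ)) := by
      intro ζ
      rw [hc ζ, map_sum, Finset.sum_mul_sum, Finset.sum_mul]
      apply Finset.sum_congr rfl
      intro i _
      rw [Finset.sum_mul]
      apply Finset.sum_congr rfl
      intro j _
      rw [map_mul, Complex.conj_conj]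
      ring
    simp only [h1]
    rw [integral_finsetSum _ fun i _ => integrable_finsetSum _ fun j _ => (hpair i j).const_mul _]
    rw [hc η]
    apply Finset.sum_congr rfl
    intro i _
    rw [integral_finsetSum _ fun j _ => (hpair i j).const_mul _]
    simp only [integral_const_mul, horth]
    simp

/-- `N_n = binom(n+d-1, d)` satisfies `n^d/d! ≤ N_n ≤ (2^d/d!) n^d` for `n ≥ d`. -/
theorem choose_bounds (d : ℕ) :
    ∃ c₁ c₂ : ℝ, 0 < c₁ ∧ ∀ᶠ (n : ℕ) in atTop,
      c₁ * (n : ℝ) ^ d ≤ ((n + d - 1).choose d : ℝ) ∧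
      ((n + d - 1).choose d : ℝ) ≤ c₂ * (n : ℝ) ^ d := by
  refine ⟨((d.factorial : ℝ))⁻¹, 2 ^ d, by positivity, ?_⟩
  filter_upwards [eventually_ge_atTop (d + 1)] with n hn
  have h1 : ((n.ascFactorial d : ℕ) : ℝ) = d.factorial * ((n + d - 1).choose d : ℕ) := by
    exact_mod_cast Nat.ascFactorial_eq_factorial_mul_choose' n d
  have hd : (0 : ℝ) < (d.factorial : ℝ) := by positivity
  constructor
  · rw [inv_mul_le_iff₀ hd, ← h1]
    exact_mod_cast Nat.pow_succ_le_ascFactorial n d
  · obtain ⟨m, rfl⟩ : ∃ m, n = m + 1 := ⟨n - 1, by omega⟩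
    have h2 : (m + 1).ascFactorial d ≤ (m + d) ^ d := by
      exact Nat.ascFactorial_le_pow_add m d
    have h3 : (((m + 1).ascFactorial d : ℕ) : ℝ) ≤ ((m + d : ℕ) : ℝ) ^ d := by exact_mod_cast h2
    have h4 : ((m + d : ℕ) : ℝ) ^ d ≤ (2 * ((m + 1 : ℕ) : ℝ)) ^ d := by
      apply pow_le_pow_left₀ (by positivity)
      have : d ≤ m := by omega
      push_cast
      have : (d : ℝ) ≤ m := by exact_mod_cast this
      linarith
    have h5 : (1 : ℝ) ≤ d.factorial := by exact_mod_cast Nat.one_le_iff_ne_zero.2 (Nat.factorial_ne_zero d)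
    have h6 : ((m + 1 + d - 1).choose d : ℝ) ≤ d.factorial * ((m + 1 + d - 1).choose d : ℕ) :=
      le_mul_of_one_le_left (by positivity) h5
    rw [← h1] at h6
    calc ((m + 1 + d - 1).choose d : ℝ) ≤ _ := h6
      _ ≤ _ := h3
      _ ≤ _ := h4
      _ = 2 ^ d * ((m + 1 : ℕ) : ℝ) ^ d := by rw [mul_pow]

end Pool.Agent.Edge
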