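import Pool.Agent.Edge.General
import Pool.Agent.Edge.PolyE

/-!
# Erfc edge universality on `ℂ^d`: definitions and final theorem
-/

namespace Pool.Agent.Edge

open MeasureTheory Filter Topology Complex

open scoped ComplexConjugate ComplexOrder

/-- `ℂ^d` with its Hermitian norm. -/
abbrev Cd (d : ℕ) := EuclideanSpace ℂ (Fin d)

/-- The standard basis vector `e_j`. -/
noncomputable def bv {d : ℕ} (j : Fin d) : Cd d := EuclideanSpace.single j 1

/-- The complex Hessian `∂∂̄Q(z) = (∂²Q/∂z_j∂z̄_k)_{j,k}` (Wirtinger derivatives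
`∂/∂z_j = dz (bv j)`, `∂/∂z̄_k = dzb (bv k)`). -/
noncomputable def complexHessian {d : ℕ} (Q : Cd d → ℝ) (z : Cd d) : Matrix (Fin d) (Fin d) ℂ :=
  Matrix.of fun j k => dz (bv j) (dzb (bv k) (fun w => (Q w : ℂ))) z

open Classical in
/-- `(P_j)` is an orthonormal basis, in `L²(e^{-nQ}dω)`, of the polynomials of total degree `< n`. -/
structure IsPolyONB {d : ℕ} (Q : Cd d → ℝ) (n : ℕ) {J : Type} [Fintype J]
    (P : J → MvPolynomial (Fin d) ℂ) : Prop where
  deg : ∀ j, (P j).totalDegree < n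
  int : ∀ j, Integrable (fun z => ‖ev (P j) z‖ ^ 2 * Real.exp (-(n * Q z))) (omegaC d)
  orth : ∀ i j, ∫ z, ev (P i) z * conj (ev (P j) z) * (Real.exp (-(n * Q z)) : ℂ) ∂(omegaC d)
      = if i = j then 1 else 0
  span : ∀ p : MvPolynomial (Fin d) ℂ, p.totalDegree < n → p ∈ Submodule.span ℂ (Set.range P)

/-- The weighted kernel `K_n(z,w) = e^{-n(Q(z)+Q(w))/2} ∑_j P_j(z) conj(P_j(w))`. -/
noncomputable def bergman {d : ℕ} (Q : Cd d → ℝ) (n : ℕ) {J : Type} [Fintype J]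
    (P : J → MvPolynomial (Fin d) ℂ) (z w : Cd d) : ℂ :=
  (Real.exp (-(n / 2 * (Q z + Q w))) : ℂ) * ∑ j, ev (P j) z * conj (ev (P j) w)

/-- `S` is the droplet: compact and `K_n(z,z)/N_n → 1_S(z) d! det ∂∂̄Q(z)` in `L¹(ω)`,
`N_n = binom(n+d-1, d)`. -/
def IsDroplet {d : ℕ} (Q : Cd d → ℝ) (K : ℕ → Cd d → Cd d → ℂ) (S : Set (Cd d)) : Prop :=
  IsCompact S ∧ Tendsto (fun n : ℕ => eLpNorm (fun z => K n z z / ((n + d - 1).choose d : ℂ)
    - S.indicator (fun z => (d.factorial : ℂ) * (complexHessian Q z).det) z) 1 (omegaC d))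
    atTop (𝓝 0)

/-- `nv` is the outward unit normal of `S` at `z₀`: near `z₀`, `S = {ρ ≤ 0}` for a function `ρ`
with `ρ(z₀) = 0`, real-differentiable at `z₀` with gradient `κ nv`, `κ > 0`. -/
def IsOutwardUnitNormal {d : ℕ} (S : Set (Cd d)) (z₀ nv : Cd d) : Prop :=
  ‖nv‖ = 1 ∧ ∃ (ρ : Cd d → ℝ) (κ : ℝ), 0 < κ ∧ (∀ᶠ z in 𝓝 z₀, (z ∈ S ↔ ρ z ≤ 0)) ∧ ρ z₀ = 0 ∧
    (fun v : Cd d => ρ (z₀ + v) - κ * (inner ℂ nv v : ℂ).re) =o[𝓝 0] (fun v : Cd d => v)

/-- The entire function `erfc w = 1 - (2/√π) ∫_0^w e^{-t²}dt` (`∫_0^w e^{-t²}dt = ∫_0^1 w e^{-(sw)²}ds`). -/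
noncomputable def erfc (w : ℂ) : ℂ :=
  1 - (2 / (Real.sqrt Real.pi : ℂ)) * ∫ s in (0:ℝ)..1, w * cexp (-(s * w) ^ 2)

/-- Action of a matrix on (row) vectors: `v M`. -/
noncomputable def rowMul {d : ℕ} (v : Cd d) (M : Matrix (Fin d) (Fin d) ℂ) : Cd d :=
  WithLp.toLp 2 (Matrix.vecMul (WithLp.ofLp v) M)

section lemmas

variable {d : ℕ}

theorem sum_bv (v : Cd d) : ∑ j, v j • bv j = v := by
  ext i
  simp [bv, Pi.single_apply]

theorem levi_hessian {Q : Cd d → ℝ} (hQ : ContDiff ℝ 2 Q) (z v : Cd d) :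
    ((Levi Q z v : ℝ) : ℂ) = 4 * (Matrix.vecMul (WithLp.ofLp v) (complexHessian Q z) ⬝ᵥ
      star (WithLp.ofLp v)) := by
  have h := levi_eq_sum hQ z (fun j : Fin d => (bv j : Cd d)) (fun j => v j)
  rw [sum_bv] at h
  rw [h]
  congr 1
  simp only [Matrix.vecMul, dotProduct, complexHessian, Matrix.of_apply, Pi.star_apply,
    RCLike.star_def]
  rw [Finset.sum_comm]
  refine Finset.sum_congr rfl fun k _ => ?_
  rw [Finset.sum_mul]
  refine Finset.sum_congr rfl fun j _ => ?_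
  ring

theorem levi_pos {Q : Cd d → ℝ} (hQ : ContDiff ℝ 2 Q) {z : Cd d}
    (hH : (complexHessian Q z).PosDef) {v : Cd d} (hv : v ≠ 0) : 0 < Levi Q z v := by
  have h1 : star (WithLp.ofLp v) ≠ 0 := by
    intro h
    apply hv
    have : WithLp.ofLp v = 0 := by simpa using congrArg star h
    ext i
    exact congrFun this i
  have h2 := hH.re_dotProduct_pos h1
  have h3 := levi_hessian hQ z v
  rw [← Matrix.dotProduct_mulVec] at h3
  rw [star_star] at h2
  have h4 : Levi Q z v = 4 * RCLike.re (WithLp.ofLp v ⬝ᵥ (complexHessian Q z).mulVec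
      (star (WithLp.ofLp v))) := by
    have := congrArg Complex.re h3
    simpa using this
  rw [h4]
  positivity

/-- The growth condition gives `IsPot`. -/
theorem isPot_of_growth (hd : 1 ≤ d) {Q : Cd d → ℝ} (hQ : ContDiff ℝ 2 Q)
    (hgrow : (1 : EReal) < Filter.liminf (fun z : Cd d =>
      ((Q z / Real.log (‖z‖ ^ 2) : ℝ) : EReal)) (Bornology.cobounded (Cd d))) : IsPot Q := by
  refine ⟨hQ, ?_⟩
  obtain ⟨b, hb1, hb2⟩ := EReal.lt_iff_exists_real_btwn.1 hgrow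
  have hb1' : (1:ℝ) < b := by exact_mod_cast hb1
  have hev := Filter.eventually_lt_of_lt_liminf hb2
  have hev2 : ∀ᶠ z in Bornology.cobounded (Cd d), 2 ≤ ‖z‖ :=
    tendsto_norm_cobounded_atTop.eventually (eventually_ge_atTop 2)
  have hev3 : ∀ᶠ z in Bornology.cobounded (Cd d), b * Real.log (‖z‖ ^ 2) ≤ Q z ∧ 2 ≤ ‖z‖ := by
    filter_upwards [hev, hev2] with z hz hz2
    refine ⟨?_, hz2⟩
    have hz' : b < Q z / Real.log (‖z‖ ^ 2) := by exact_mod_cast hz
    have hlog : 0 < Real.log (‖z‖ ^ 2) := Real.log_pos (by nlinarith)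
    exact ((lt_div_iff₀ hlog).1 hz').le
  rw [Metric.hasBasis_cobounded_compl_closedBall (0 : Cd d) |>.eventually_iff] at hev3
  obtain ⟨R, -, hR⟩ := hev3
  -- compact part
  obtain ⟨C1, hC1⟩ : ∃ C1 : ℝ, ∀ z : Cd d, ‖z‖ ≤ R → -C1 ≤ Q z := by
    have hK : IsCompact (Metric.closedBall (0 : Cd d) R) := isCompact_closedBall _ _
    obtain ⟨m, hm⟩ := (hK.image hQ.continuous).bddBelow
    refine ⟨-m, fun z hz => ?_⟩
    have := hm (Set.mem_image_of_mem Q (by simpa using hz : z ∈ Metric.closedBall (0 : Cd d) R))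
    linarith
  have hlog2 : ∀ z : Cd d, 0 ≤ Real.log (1 + ‖z‖ ^ 2) := fun z => Real.log_nonneg (by nlinarith [norm_nonneg z])
  refine ⟨b - 1, max C1 0 + b * Real.log (1 + R ^ 2) + b * Real.log 2, by linarith, fun z => ?_⟩
  have hlogR : 0 ≤ Real.log (1 + R ^ 2) := Real.log_nonneg (by nlinarith)
  have hl2 : 0 ≤ Real.log 2 := Real.log_nonneg (by norm_num)
  have hb0 : 0 ≤ b := by linarith
  by_cases hz : ‖z‖ ≤ R
  · have h1 := hC1 z hz
    have h2 : Real.log (1 + ‖z‖ ^ 2) ≤ Real.log (1 + R ^ 2) := by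
      apply Real.log_le_log (by positivity)
      have := norm_nonneg z
      nlinarith
    have h3 : b * Real.log (1 + ‖z‖ ^ 2) ≤ b * Real.log (1 + R ^ 2) :=
      mul_le_mul_of_nonneg_left h2 hb0
    have h4 : 0 ≤ b * Real.log 2 := mul_nonneg hb0 hl2
    have h5 := le_max_left C1 0
    have : (1 + (b - 1)) * Real.log (1 + ‖z‖ ^ 2) = b * Real.log (1 + ‖z‖ ^ 2) := by ring
    rw [this]
    linarith
  · have h1 := hR (by simpa using lt_of_not_ge hz : z ∈ (Metric.closedBall (0 : Cd d) R)ᶜ)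
    obtain ⟨h1, h2⟩ := h1
    have h3 : Real.log (1 + ‖z‖ ^ 2) ≤ Real.log 2 + Real.log (‖z‖ ^ 2) := by
      rw [← Real.log_mul (by norm_num) (by positivity)]
      apply Real.log_le_log (by positivity)
      nlinarith
    have h4 : b * Real.log (1 + ‖z‖ ^ 2) ≤ b * (Real.log 2 + Real.log (‖z‖ ^ 2)) :=
      mul_le_mul_of_nonneg_left h3 hb0
    have h5 := le_max_right C1 0
    have h6 : 0 ≤ b * Real.log (1 + R ^ 2) := mul_nonneg hb0 hlogR
    have : (1 + (b - 1)) * Real.log (1 + ‖z‖ ^ 2) = b * Real.log (1 + ‖z‖ ^ 2) := by ring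
    rw [this]
    nlinarith

/-- The linear map `v ↦ v M`. -/
noncomputable def rowLin (M : Matrix (Fin d) (Fin d) ℂ) : Cd d →ₗ[ℂ] Cd d where
  toFun v := rowMul v M
  map_add' u v := by
    ext i
    simp [rowMul, Matrix.add_vecMul]
  map_smul' c v := by
    ext i
    simp [rowMul, Matrix.smul_vecMul]

theorem rowMul_rowMul (v : Cd d) (M N : Matrix (Fin d) (Fin d) ℂ) :
    rowMul (rowMul v M) N = rowMul v (M * N) := by
  simp [rowMul, Matrix.vecMul_vecMul]

theorem rowMul_one (v : Cd d) : rowMul v (1 : Matrix (Fin d) (Fin d) ℂ) = v := by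
  simp [rowMul]

/-- The linear equivalence `v ↦ v B⁻¹`. -/
noncomputable def rowEquiv (B : Matrix (Fin d) (Fin d) ℂ) (hB : IsUnit B.det) :
    Cd d ≃L[ℂ] Cd d :=
  LinearEquiv.toContinuousLinearEquiv
    { rowLin B⁻¹ with
      invFun := fun v => rowMul v B
      left_inv := fun v => by
        change rowMul (rowMul v B⁻¹) B = v
        rw [rowMul_rowMul, Matrix.nonsing_inv_mul B hB, rowMul_one]
      right_inv := fun v => by
        change rowMul (rowMul v B) B⁻¹ = v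
        rw [rowMul_rowMul, Matrix.mul_nonsing_inv B hB, rowMul_one] }

theorem rowEquiv_apply (B : Matrix (Fin d) (Fin d) ℂ) (hB : IsUnit B.det) (v : Cd d) :
    rowEquiv B hB v = rowMul v B⁻¹ := rfl

theorem det_rowLin (M : Matrix (Fin d) (Fin d) ℂ) : LinearMap.det (rowLin M) = M.det := by
  have h : rowLin M = ((WithLp.linearEquiv 2 ℂ (Fin d → ℂ)).symm : (Fin d → ℂ) →ₗ[ℂ] Cd d) ∘ₗ
      (Matrix.toLin' M.transpose) ∘ₗ ((WithLp.linearEquiv 2 ℂ (Fin d → ℂ)) : Cd d →ₗ[ℂ] (Fin d → ℂ)) := by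
    ext v i
    simp [rowLin, rowMul, Matrix.mulVec_transpose]
  rw [h]
  have h2 := LinearMap.det_conj (Matrix.toLin' M.transpose) (WithLp.linearEquiv 2 ℂ (Fin d → ℂ)).symm
  rw [LinearEquiv.symm_symm] at h2
  rw [h2, LinearMap.det_toLin', Matrix.det_transpose]

theorem inner_rowMul {M : Matrix (Fin d) (Fin d) ℂ} (hM : M.IsHermitian) (u v : Cd d) :
    (inner ℂ (rowMul u M) v : ℂ) = inner ℂ u (rowMul v M) := by
  rw [EuclideanSpace.inner_eq_star_dotProduct, EuclideanSpace.inner_eq_star_dotProduct]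
  simp only [rowMul]
  rw [Matrix.star_vecMul, hM.eq, Matrix.dotProduct_mulVec]

theorem levi_rowMul {Q : Cd d → ℝ} (hQ : ContDiff ℝ 2 Q) {z : Cd d}
    {B : Matrix (Fin d) (Fin d) ℂ} (hB : B.PosDef) (hBH : B * B = complexHessian Q z) (v : Cd d) :
    Levi Q z (rowMul v B⁻¹) = 4 * ‖v‖ ^ 2 := by
  have hu : IsUnit B.det := (Matrix.isUnit_iff_isUnit_det B).1 hB.isUnit
  have h := levi_hessian hQ z (rowMul v B⁻¹)
  have h1 : Matrix.vecMul (WithLp.ofLp (rowMul v B⁻¹)) (complexHessian Q z) =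
      Matrix.vecMul (WithLp.ofLp v) B := by
    simp only [rowMul, ← hBH]
    rw [Matrix.vecMul_vecMul, ← Matrix.mul_assoc, Matrix.nonsing_inv_mul B hu, Matrix.one_mul]
  have h2 : star (WithLp.ofLp (rowMul v B⁻¹)) = B⁻¹.mulVec (star (WithLp.ofLp v)) := by
    simp only [rowMul]
    rw [Matrix.star_vecMul, Matrix.conjTranspose_nonsing_inv, hB.1.eq]
  rw [h1, h2, ← Matrix.dotProduct_mulVec, Matrix.mulVec_mulVec, Matrix.mul_nonsing_inv B hu,
    Matrix.one_mulVec] at h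
  have h3 : (WithLp.ofLp v ⬝ᵥ star (WithLp.ofLp v) : ℂ) = ((‖v‖ ^ 2 : ℝ) : ℂ) := by
    have := EuclideanSpace.inner_eq_star_dotProduct (𝕜 := ℂ) v v
    rw [← this]
    rw [inner_self_eq_norm_sq_to_K]
    norm_cast
  rw [h3] at h
  exact_mod_cast h

theorem continuous_hessian_entry {Q : Cd d → ℝ} (hQ : ContDiff ℝ 2 Q) (i j : Fin d) :
    Continuous (fun z => complexHessian Q z i j) := by
  have hF : ContDiff ℝ 2 (fun w : Cd d => (Q w : ℂ)) := Complex.ofRealCLM.contDiff.comp hQ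
  have h1 : ContDiff ℝ 1 (dzb (bv j : Cd d) (fun w : Cd d => (Q w : ℂ))) := by
    have h2 : ContDiff ℝ 1 (fderiv ℝ (fun w : Cd d => (Q w : ℂ))) :=
      hF.fderiv_right (by norm_num)
    unfold dzb
    exact ((h2.clm_apply contDiff_const).add
      (contDiff_const.mul (h2.clm_apply contDiff_const))).div_const 2
  have h3 : Continuous (fderiv ℝ (dzb (bv j : Cd d) (fun w : Cd d => (Q w : ℂ)))) :=
    h1.continuous_fderiv (by norm_num)
  have h4 : (fun z => complexHessian Q z i j) =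
      dz (bv i) (dzb (bv j : Cd d) (fun w : Cd d => (Q w : ℂ))) := by
    funext z
    rfl
  rw [h4]
  unfold dz
  exact ((h3.clm_apply continuous_const).sub
    (continuous_const.mul (h3.clm_apply continuous_const))).div_const 2

end lemmas

/-- **Erfc edge universality on `ℂ^d`.** -/
theorem edge_universality {d : ℕ} (hd : 1 ≤ d) {Q : Cd d → ℝ} (hQ : ContDiff ℝ 2 Q)
    (hpsh : ∀ z, (complexHessian Q z).PosDef)
    (hgrow : (1 : EReal) < Filter.liminf (fun z : Cd d =>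
      ((Q z / Real.log (‖z‖ ^ 2) : ℝ) : EReal)) (Bornology.cobounded (Cd d)))
    {J : ℕ → Type} [∀ n, Fintype (J n)] (P : ∀ n, J n → MvPolynomial (Fin d) ℂ)
    (hP : ∀ᶠ n in atTop, IsPolyONB Q n (P n)) {S : Set (Cd d)}
    (hS : IsDroplet Q (fun n => bergman Q n (P n)) S) {z₀ nv : Cd d}
    (hn : IsOutwardUnitNormal S z₀ nv) {B : Matrix (Fin d) (Fin d) ℂ} (hB : B.PosDef)
    (hBH : B * B = complexHessian Q z₀) :
    ∃ c : ℕ → ℂ → ℂ, (∀ n ξ, ‖c n ξ‖ = 1) ∧
      TendstoLocallyUniformly (fun (n : ℕ) (p : ℂ × ℂ) => c n p.1 * conj (c n p.2) *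
        (bergman Q n (P n)
          (z₀ + ((Real.sqrt n)⁻¹ : ℝ) • rowMul (p.1 • ((‖rowMul nv B⁻¹‖⁻¹ : ℝ) • rowMul nv B⁻¹)) B⁻¹)
          (z₀ + ((Real.sqrt n)⁻¹ : ℝ) • rowMul (p.2 • ((‖rowMul nv B⁻¹‖⁻¹ : ℝ) • rowMul nv B⁻¹)) B⁻¹)
          / ((n : ℂ) ^ d * (complexHessian Q z₀).det)))
      (fun p => 1 / 2 * cexp (p.1 * conj p.2 - ((‖p.1‖ ^ 2 + ‖p.2‖ ^ 2 : ℝ) : ℂ) / 2) *
        erfc ((p.1 + conj p.2) / (Real.sqrt 2 : ℂ))) atTop := by
  classical
  haveI : Nonempty (Fin d) := ⟨⟨0, hd⟩⟩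
  haveI : Nontrivial (Cd d) := by
    refine ⟨⟨0, bv ⟨0, hd⟩, ?_⟩⟩
    intro h
    have := congrArg norm h
    simp [bv] at this
  have hfin : Module.finrank ℂ (Cd d) = d := by simp
  have hpot : IsPot Q := isPot_of_growth hd hQ hgrow
  have hs : ∀ z v : Cd d, v ≠ 0 → 0 < Levi Q z v := fun z v hv => levi_pos hQ (hpsh z) hv
  obtain ⟨hnv, ρ, κ, hκ, hSρ, hρ0, hρ⟩ := hn
  have hnv0 : nv ≠ 0 := by
    intro h
    rw [h, norm_zero] at hnv
    exact one_ne_zero hnv.symm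
  have hu : IsUnit B.det := (Matrix.isUnit_iff_isUnit_det B).1 hB.isUnit
  set A := rowEquiv B hu with hA
  have hBinv : B⁻¹.IsHermitian := hB.1.inv
  set k : ℕ → Cd d → Cd d → ℂ := fun n z w => ∑ j, ev (P n j) z * conj (ev (P n j) w) with hk
  have hkRK : ∀ᶠ (n : ℕ) in atTop, IsRK (Vsp n (0 : Cd d → ℂ)) (fun z => n * Q z) (k n) := by
    filter_upwards [hP, eventually_ge_atTop 1] with n hn hn1
    exact isRK_of_onb hn1 hQ.continuous (P n) hn.deg hn.int (fun i j => by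
      have := hn.orth i j
      rw [this]) hn.span
  have hevc : ∀ p : MvPolynomial (Fin d) ℂ, Continuous (ev p) := by
    intro p
    unfold ev
    have h1 : Continuous (fun z : Cd d => (fun i => z i)) := by fun_prop
    exact (MvPolynomial.continuous_eval p).comp h1
  have hkc : ∀ᶠ (n : ℕ) in atTop, Continuous (fun z => k n z z) := by
    refine Eventually.of_forall fun n => ?_
    refine continuous_finset_sum _ fun j _ => ?_
    exact (hevc _).mul (Complex.continuous_conj.comp (hevc _))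
  obtain ⟨c₁, c₂, hc₁, hN⟩ := choose_bounds d
  obtain ⟨hScpt, hlim⟩ := hS
  have hdetre : ∀ z, (complexHessian Q z).det = (((complexHessian Q z).det.re : ℝ) : ℂ) ∧
      0 < (complexHessian Q z).det.re := by
    intro z
    have h := (hpsh z).det_pos
    rw [Complex.lt_def] at h
    refine ⟨?_, h.1⟩
    apply Complex.ext
    · simp
    · simpa using h.2.symm
  set D : Cd d → ℝ := fun z => (d.factorial : ℝ) * (complexHessian Q z).det.re with hD
  have hDpos : ∀ z, 0 < D z := fun z =>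
    mul_pos (by exact_mod_cast d.factorial_pos) (hdetre z).2
  have hDc : Continuous D := by
    have hH : Continuous (complexHessian Q) := by
      exact continuous_matrix fun i j => continuous_hessian_entry hQ i j
    exact continuous_const.mul (Complex.continuous_re.comp hH.matrix_det)
  have hkself : ∀ n z, k n z z = (((k n z z).re : ℝ) : ℂ) := by
    intro n z
    apply Complex.ext
    · simp
    · simp only [hk, Complex.im_sum, Complex.ofReal_im]
      refine Finset.sum_eq_zero fun j _ => ?_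
      rw [Complex.mul_conj]
      simp
  have hlim' : Tendsto (fun n : ℕ => eLpNorm (fun z => (k n z z).re * Real.exp (-(n * Q z)) /
      ((n + d - 1).choose d : ℝ) - S.indicator D z) 1 (om (Cd d))) atTop (𝓝 0) := by
    rw [← omegaC_eq d]
    refine hlim.congr fun n => ?_
    rw [← eLpNorm_norm, ← eLpNorm_norm (fun z => (k n z z).re * Real.exp (-(n * Q z)) /
      ((n + d - 1).choose d : ℝ) - S.indicator D z)]
    congr 1
    funext z
    have h1 : bergman Q n (P n) z z = (((k n z z).re * Real.exp (-(n * Q z)) : ℝ) : ℂ) := by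
      have h2 : bergman Q n (P n) z z = (Real.exp (-(n / 2 * (Q z + Q z))) : ℂ) * k n z z := rfl
      rw [h2, hkself n z]
      push_cast
      rw [show (-((n:ℂ) / 2 * ((Q z : ℂ) + Q z))) = -((n : ℂ) * Q z) by ring]
      simp only [Complex.ofReal_re]
      ring
    have h3 : S.indicator (fun z => (d.factorial : ℂ) * (complexHessian Q z).det) z =
        ((S.indicator D z : ℝ) : ℂ) := by
      by_cases hz : z ∈ S
      · rw [Set.indicator_of_mem hz, Set.indicator_of_mem hz, hD, (hdetre z).1]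
        push_cast
        simp
      · rw [Set.indicator_of_notMem hz, Set.indicator_of_notMem hz, Complex.ofReal_zero]
    beta_reduce
    rw [h1, h3, Real.norm_eq_abs, ← Real.norm_eq_abs, ← Complex.norm_real]
    push_cast
    rfl
  have hA' : ∀ u v : Cd d, (inner ℂ (A u) v : ℂ) = inner ℂ u (A v) := by
    intro u v
    rw [hA, rowEquiv_apply, rowEquiv_apply]
    exact inner_rowMul hBinv u v
  have hL : ∀ v, Levi Q z₀ (A v) = 4 * ‖v‖ ^ 2 := by
    intro v
    rw [hA, rowEquiv_apply]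
    exact levi_rowMul hQ hB hBH v
  have hρ' : ∀ ε > 0, ∀ᶠ v in 𝓝 (0 : Cd d),
      |ρ (z₀ + v) - κ * (inner ℂ nv v : ℂ).re| ≤ ε * ‖v‖ := by
    intro ε hε
    have := (Asymptotics.isLittleO_iff.1 hρ) hε
    simpa using this
  obtain ⟨c, hc, hlimit⟩ := edge_general hpot hs hkRK hkc hc₁ (by
      rw [hfin]
      exact hN) hScpt.isClosed.measurableSet hDpos hDc hlim' hnv0 A hA' hL hκ hρ' hSρ
  refine ⟨c, hc, ?_⟩
  have hJ : (jac A : ℂ) = ((complexHessian Q z₀).det)⁻¹ := by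
    have h1 : jac A = ‖(B⁻¹).det‖ ^ 2 := by
      unfold jac
      have : ((A : Cd d ≃L[ℂ] Cd d) : Cd d →ₗ[ℂ] Cd d) = rowLin B⁻¹ := by
        ext v i
        rfl
      rw [this, det_rowLin]
    have h2 : (B.det).im = 0 ∧ 0 < (B.det).re := by
      have h := hB.det_pos
      rw [Complex.lt_def] at h
      exact ⟨h.2.symm, h.1⟩
    have h3 : B.det = ((B.det.re : ℝ) : ℂ) := by
      apply Complex.ext
      · simp
      · simpa using h2.1
    rw [h1, ← hBH, Matrix.det_mul, Matrix.det_nonsing_inv, Ring.inverse_eq_inv', norm_inv, h3]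
    push_cast
    rw [Complex.norm_real, Real.norm_eq_abs, abs_of_pos h2.2]
    rw [inv_pow, mul_inv, sq, mul_inv]
  have hfun : (fun (n : ℕ) (p : ℂ × ℂ) => c n p.1 * conj (c n p.2) *
        (bergman Q n (P n)
          (z₀ + ((Real.sqrt n)⁻¹ : ℝ) • rowMul (p.1 • ((‖rowMul nv B⁻¹‖⁻¹ : ℝ) • rowMul nv B⁻¹)) B⁻¹)
          (z₀ + ((Real.sqrt n)⁻¹ : ℝ) • rowMul (p.2 • ((‖rowMul nv B⁻¹‖⁻¹ : ℝ) • rowMul nv B⁻¹)) B⁻¹)
          / ((n : ℂ) ^ d * (complexHessian Q z₀).det))) =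
      (fun (n : ℕ) (p : ℂ × ℂ) => c n p.1 * conj (c n p.2) *
        (((n : ℂ) ^ Module.finrank ℂ (Cd d))⁻¹ * ((jac A : ℂ) * wK Q n (k n)
          (z₀ + ((Real.sqrt n)⁻¹ : ℝ) • A (p.1 • ((‖A nv‖⁻¹ : ℝ) • A nv)))
          (z₀ + ((Real.sqrt n)⁻¹ : ℝ) • A (p.2 • ((‖A nv‖⁻¹ : ℝ) • A nv)))))) := by
    funext n p
    rw [hfin, hJ, hA]
    simp only [rowEquiv_apply, wK, bergman, hk]
    rw [div_eq_mul_inv, mul_inv]
    ring
  have hlimf : (fun p : ℂ × ℂ => 1 / 2 * cexp (p.1 * conj p.2 - ((‖p.1‖ ^ 2 + ‖p.2‖ ^ 2 : ℝ) : ℂ) / 2) *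
        erfc ((p.1 + conj p.2) / (Real.sqrt 2 : ℂ))) =
      (fun p : ℂ × ℂ => L0 p.1 p.2 * (Real.exp (-(‖p.1‖ ^ 2 + ‖p.2‖ ^ 2) / 2) : ℂ)) := by
    funext p
    rw [L0_eq_erfc]
    unfold erfc
    rw [sub_eq_add_neg (p.1 * conj p.2), Complex.exp_add]
    push_cast
    rw [show -(((‖p.1‖ : ℂ) ^ 2 + (‖p.2‖ : ℂ) ^ 2) / 2) = (-((‖p.1‖ : ℂ) ^ 2 + (‖p.2‖ : ℂ) ^ 2) / 2) by ring]
    ring
  rw [hfun, hlimf]
  exact hlimit

end Pool.Agent.Edge
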