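import Pool.Agent.Edge.Gauss

/-!
# The limit kernel `L0`: formulas, regularity, bounds

`x = Re ζ`, `y = Im ζ`, `W = ζ + conj η`, `u = Re W`, `I₋(W) = ∫_{-∞}^0 e^{tW-t²/2}dt`,
`I₊(W) = ∫_0^∞ e^{tW-t²/2}dt = I₋(-W)`.
-/

namespace Pool.Agent.Edge

open MeasureTheory Filter Topology Complex

open scoped ComplexConjugate

/-- The complementary kernel `M₀ = e^{ξη̄} - L₀`. -/
noncomputable def M0 (ξ η : ℂ) : ℂ :=
  ((Real.sqrt (2 * Real.pi))⁻¹ : ℝ) * cexp (-ξ ^ 2 / 2 - (conj η) ^ 2 / 2)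
    * ∫ t in Set.Ioi (0:ℝ), cexp (t * (ξ + conj η) - t ^ 2 / 2)

namespace FockA

/-- `I₋`. -/
noncomputable def Imin (W : ℂ) : ℂ := ∫ t in Set.Iic (0:ℝ), cexp (t * W - t ^ 2 / 2)

theorem integrable_G (W : ℂ) : Integrable (fun t : ℝ => cexp (t * W - t ^ 2 / 2)) := by
  have h := integrable_cexp_quadratic' (b := -1 / 2) (by norm_num) W 0
  refine h.congr (Filter.Eventually.of_forall fun t => ?_)
  show cexp (-1 / 2 * (t : ℂ) ^ 2 + W * t + 0) = cexp (t * W - t ^ 2 / 2)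
  congr 1
  ring

theorem integral_G (W : ℂ) : ∫ t : ℝ, cexp (t * W - t ^ 2 / 2) =
    (Real.sqrt (2 * Real.pi) : ℝ) * cexp (W ^ 2 / 2) := by
  have h := integral_cexp_quadratic (b := -1 / 2) (by norm_num) W 0
  have e : ∀ t : ℝ, cexp (t * W - t ^ 2 / 2) = cexp (-1 / 2 * (t : ℂ) ^ 2 + W * t + 0) := by
    intro t
    congr 1
    ring
  rw [integral_congr_ae (Filter.Eventually.of_forall e), h]
  have e1 : ((Real.pi : ℂ) / -(-1 / 2)) = ((2 * Real.pi : ℝ) : ℂ) := by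
    push_cast; ring
  rw [e1, Real.sqrt_eq_rpow, Complex.ofReal_cpow (by positivity)]
  congr 1
  · push_cast; rfl
  · congr 1; ring

theorem norm_G (W : ℂ) (t : ℝ) : ‖cexp (t * W - t ^ 2 / 2)‖ = Real.exp (t * W.re - t ^ 2 / 2) := by
  rw [Complex.norm_exp]
  congr 1
  have : ((t : ℂ) ^ 2 / 2) = (((t ^ 2 / 2 : ℝ)) : ℂ) := by push_cast; ring
  rw [this, Complex.sub_re, Complex.ofReal_re, Complex.re_ofReal_mul]

theorem integrable_GR (u : ℝ) : Integrable (fun t : ℝ => Real.exp (t * u - t ^ 2 / 2)) := by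
  refine (integrable_G (u : ℂ)).norm.congr (Filter.Eventually.of_forall fun t => ?_)
  show ‖cexp (t * (u : ℂ) - t ^ 2 / 2)‖ = _
  rw [norm_G, Complex.ofReal_re]

theorem integral_GR (u : ℝ) : ∫ t : ℝ, Real.exp (t * u - t ^ 2 / 2) =
    Real.sqrt (2 * Real.pi) * Real.exp (u ^ 2 / 2) := by
  have h := integral_G (u : ℂ)
  have e : ∀ t : ℝ, cexp (t * (u : ℂ) - t ^ 2 / 2) = ((Real.exp (t * u - t ^ 2 / 2) : ℝ) : ℂ) := by
    intro t
    push_cast
    rfl
  rw [integral_congr_ae (Filter.Eventually.of_forall e), integral_complex_ofReal] at h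
  have e2 : (Real.sqrt (2 * Real.pi) : ℝ) * cexp ((u : ℂ) ^ 2 / 2) =
      ((Real.sqrt (2 * Real.pi) * Real.exp (u ^ 2 / 2) : ℝ) : ℂ) := by
    push_cast; rfl
  rw [e2] at h
  exact_mod_cast h

/-- derivative of `I₋`. -/
theorem hasDerivAt_Imin (W : ℂ) :
    IntegrableOn (fun t : ℝ => (t : ℂ) * cexp (t * W - t ^ 2 / 2)) (Set.Iic 0) ∧
    HasDerivAt Imin (∫ t in Set.Iic (0:ℝ), (t : ℂ) * cexp (t * W - t ^ 2 / 2)) W := by
  refine hasDerivAt_integral_of_dominated_loc_of_deriv_le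
    (μ := (volume : Measure ℝ).restrict (Set.Iic 0)) (F := fun (z : ℂ) (t : ℝ) => cexp (t * z - t ^ 2 / 2))
    (F' := fun (z : ℂ) (t : ℝ) => (t : ℂ) * cexp (t * z - t ^ 2 / 2))
    (bound := fun t : ℝ => Real.exp (t * (W.re - 2) - t ^ 2 / 2))
    (Metric.ball_mem_nhds W one_pos) ?_ ?_ ?_ ?_ ?_ ?_
  · exact Filter.Eventually.of_forall fun z =>
      (Continuous.aestronglyMeasurable (by fun_prop))
  · exact (integrable_G W).integrableOn
  · exact Continuous.aestronglyMeasurable (by fun_prop)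
  · refine (ae_restrict_iff' measurableSet_Iic).mpr (Filter.Eventually.of_forall fun t ht z hz => ?_)
    have ht' : t ≤ 0 := ht
    rw [norm_mul, norm_G, Complex.norm_real, Real.norm_eq_abs, abs_of_nonpos ht']
    have h1 : -t ≤ Real.exp (-t) := by
      have := Real.add_one_le_exp (-t); linarith
    have h2 : W.re - 1 ≤ z.re := by
      have h3 : |(z - W).re| ≤ ‖z - W‖ := Complex.abs_re_le_norm _
      have h4 : ‖z - W‖ < 1 := by rwa [← dist_eq_norm]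
      have h5 := neg_abs_le (z - W).re
      rw [Complex.sub_re] at h3 h5
      linarith
    calc -t * Real.exp (t * z.re - t ^ 2 / 2)
        ≤ Real.exp (-t) * Real.exp (t * (W.re - 1) - t ^ 2 / 2) := by
          refine mul_le_mul h1 (Real.exp_le_exp.mpr ?_) (Real.exp_pos _).le (Real.exp_pos _).le
          nlinarith
      _ = Real.exp (t * (W.re - 2) - t ^ 2 / 2) := by
          rw [← Real.exp_add]; congr 1; ring
  · exact (integrable_GR _).integrableOn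
  · refine Filter.Eventually.of_forall fun t z _ => ?_
    have h1 : HasDerivAt (fun z : ℂ => (t : ℂ) * z - (t : ℂ) ^ 2 / 2) (t : ℂ) z := by
      simpa using ((hasDerivAt_id z).const_mul (t : ℂ)).sub_const ((t : ℂ) ^ 2 / 2)
    have h2 := h1.cexp
    rw [mul_comm] at h2
    exact h2

theorem tendsto_G (W : ℂ) : Tendsto (fun t : ℝ => cexp (t * W - t ^ 2 / 2)) atBot (𝓝 0) := by
  rw [tendsto_zero_iff_norm_tendsto_zero]
  have h : ∀ t : ℝ, ‖cexp (t * W - t ^ 2 / 2)‖ ≤ Real.exp (W.re ^ 2 + 1) * Real.exp t := by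
    intro t
    rw [norm_G, ← Real.exp_add]
    apply Real.exp_le_exp.mpr
    nlinarith [sq_nonneg (t / 2 - W.re), sq_nonneg (t / 2 + 1)]
  refine squeeze_zero (fun t => norm_nonneg _) h ?_
  have := Real.tendsto_exp_atBot.const_mul (Real.exp (W.re ^ 2 + 1))
  simpa using this

theorem Imin_identity (W : ℂ) :
    W * Imin W - (∫ t in Set.Iic (0:ℝ), (t : ℂ) * cexp (t * W - t ^ 2 / 2)) = 1 := by
  have hint := (hasDerivAt_Imin W).1
  have h1 : ∫ t in Set.Iic (0:ℝ), (W - t) * cexp (t * W - t ^ 2 / 2) =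
      cexp ((0:ℝ) * W - (0:ℝ) ^ 2 / 2) - 0 := by
    refine integral_Iic_of_hasDerivAt_of_tendsto' (f := fun t : ℝ => cexp (t * W - t ^ 2 / 2))
      (fun t _ => ?_) ?_ (tendsto_G W)
    · have h1 : HasDerivAt (fun z : ℂ => z * W - z ^ 2 / 2) (W - t) (t : ℂ) := by
        have h2 := ((hasDerivAt_id (t : ℂ)).mul_const W).sub ((hasDerivAt_pow 2 (t : ℂ)).div_const 2)
        convert! h2 using 1
        simp
      have h3 := h1.cexp.comp_ofReal
      rw [mul_comm] at h3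
      exact h3
    · have : (fun t : ℝ => (W - t) * cexp (t * W - t ^ 2 / 2)) =
          fun t : ℝ => W * cexp (t * W - t ^ 2 / 2) - (t : ℂ) * cexp (t * W - t ^ 2 / 2) := by
        funext t; ring
      rw [this]
      exact ((integrable_G W).integrableOn.const_mul W).sub hint
  have h2 : ∫ t in Set.Iic (0:ℝ), (W - t) * cexp (t * W - t ^ 2 / 2) =
      W * Imin W - ∫ t in Set.Iic (0:ℝ), (t : ℂ) * cexp (t * W - t ^ 2 / 2) := by
    unfold Imin
    rw [← integral_const_mul, ← integral_sub ((integrable_G W).integrableOn.const_mul W) hint]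
    refine integral_congr_ae (Filter.Eventually.of_forall fun t => ?_)
    show (W - t) * cexp (t * W - t ^ 2 / 2) = _
    ring
  rw [← h2, h1]
  simp

theorem Imin_differentiable : Differentiable ℂ Imin := fun W =>
  (hasDerivAt_Imin W).2.differentiableAt

theorem Imin_neg (W : ℂ) : ∫ t in Set.Ioi (0:ℝ), cexp (t * W - t ^ 2 / 2) = Imin (-W) := by
  have h := integral_comp_neg_Iic (0:ℝ) (fun t : ℝ => cexp (t * W - t ^ 2 / 2))
  rw [neg_zero] at h
  rw [← h]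
  unfold Imin
  refine integral_congr_ae (Filter.Eventually.of_forall fun t => ?_)
  show cexp (((-t : ℝ) : ℂ) * W - ((-t : ℝ) : ℂ) ^ 2 / 2) = cexp (t * -W - t ^ 2 / 2)
  congr 1
  push_cast
  ring

theorem Imin_add (W : ℂ) : Imin W + Imin (-W) = (Real.sqrt (2 * Real.pi) : ℝ) * cexp (W ^ 2 / 2) := by
  rw [← integral_G, ← Imin_neg]
  unfold Imin
  have h := integral_add_compl (μ := (volume : Measure ℝ)) (s := Set.Iic (0:ℝ)) measurableSet_Iic
    (integrable_G W)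
  rwa [Set.compl_Iic] at h

theorem Imin_zero : Imin 0 = (Real.sqrt (2 * Real.pi) : ℝ) / 2 := by
  have h := Imin_add 0
  simp only [neg_zero] at h
  have h2 : cexp ((0:ℂ) ^ 2 / 2) = 1 := by simp
  rw [h2, mul_one] at h
  rw [← h]
  ring

theorem L0_eq (ξ η : ℂ) : L0 ξ η = ((Real.sqrt (2 * Real.pi))⁻¹ : ℝ) *
    cexp (-ξ ^ 2 / 2 - (conj η) ^ 2 / 2) * Imin (ξ + conj η) := rfl

theorem M0_eq (ξ η : ℂ) : M0 ξ η = ((Real.sqrt (2 * Real.pi))⁻¹ : ℝ) *
    cexp (-ξ ^ 2 / 2 - (conj η) ^ 2 / 2) * Imin (-(ξ + conj η)) := by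
  rw [← Imin_neg]
  rfl

theorem s2pi_pos : 0 < Real.sqrt (2 * Real.pi) := Real.sqrt_pos.mpr (by positivity)

theorem cexp_split (ξ η : ℂ) : cexp (-ξ ^ 2 / 2 - (conj η) ^ 2 / 2) * cexp ((ξ + conj η) ^ 2 / 2) =
    cexp (ξ * conj η) := by
  rw [← Complex.exp_add]
  congr 1
  ring

/-- the real integrals `J`. -/
noncomputable def J (u : ℝ) : ℝ := ∫ t in Set.Iic (0:ℝ), Real.exp (t * u - t ^ 2 / 2)

theorem J_nonneg (u : ℝ) : 0 ≤ J u := integral_nonneg fun t => (Real.exp_pos _).le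

theorem norm_Imin_le (W : ℂ) : ‖Imin W‖ ≤ J W.re := by
  unfold Imin J
  refine (norm_integral_le_integral_norm _).trans (le_of_eq ?_)
  exact integral_congr_ae (Filter.Eventually.of_forall fun t => norm_G W t)

theorem norm_W_Imin_le (W : ℂ) : ‖W‖ * ‖Imin W‖ ≤ 2 - W.re * J W.re := by
  have hK : ∫ t in Set.Iic (0:ℝ), (-t) * Real.exp (t * W.re - t ^ 2 / 2) = 1 - W.re * J W.re := by
    have h := Imin_identity (W.re : ℂ)
    have e1 : Imin (W.re : ℂ) = ((J W.re : ℝ) : ℂ) := by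
      unfold Imin J
      rw [← integral_complex_ofReal]
      refine integral_congr_ae (Filter.Eventually.of_forall fun t => ?_)
      push_cast
      rfl
    have e2 : ∫ t in Set.Iic (0:ℝ), (t : ℂ) * cexp (t * (W.re : ℂ) - t ^ 2 / 2) =
        ((-∫ t in Set.Iic (0:ℝ), (-t) * Real.exp (t * W.re - t ^ 2 / 2) : ℝ) : ℂ) := by
      rw [← integral_neg, ← integral_complex_ofReal]
      refine integral_congr_ae (Filter.Eventually.of_forall fun t => ?_)
      push_cast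
      ring
    rw [e1, e2] at h
    have h2 : W.re * J W.re - (-∫ t in Set.Iic (0:ℝ), (-t) * Real.exp (t * W.re - t ^ 2 / 2)) = 1 := by
      exact_mod_cast h
    linarith
  have h := Imin_identity W
  have h1 : W * Imin W = 1 + ∫ t in Set.Iic (0:ℝ), (t : ℂ) * cexp (t * W - t ^ 2 / 2) := by
    rw [← h]; ring
  have h2 : ‖∫ t in Set.Iic (0:ℝ), (t : ℂ) * cexp (t * W - t ^ 2 / 2)‖ ≤
      ∫ t in Set.Iic (0:ℝ), (-t) * Real.exp (t * W.re - t ^ 2 / 2) := by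
    refine (norm_integral_le_integral_norm _).trans (le_of_eq ?_)
    refine setIntegral_congr_fun measurableSet_Iic fun t ht => ?_
    show ‖(t : ℂ) * cexp (t * W - t ^ 2 / 2)‖ = _
    rw [norm_mul, norm_G, Complex.norm_real, Real.norm_eq_abs, abs_of_nonpos ht]
  calc ‖W‖ * ‖Imin W‖ = ‖W * Imin W‖ := (norm_mul _ _).symm
    _ ≤ ‖(1:ℂ)‖ + ‖∫ t in Set.Iic (0:ℝ), (t : ℂ) * cexp (t * W - t ^ 2 / 2)‖ := by
        rw [h1]; exact norm_add_le _ _
    _ ≤ 1 + (1 - W.re * J W.re) := by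
        rw [norm_one]
        linarith
    _ = _ := by ring

theorem J_le (u v : ℝ) (hv : 0 ≤ v) (huv : -v ≤ u) : J u ≤ 3 * Real.exp (v ^ 2 / 2) := by
  have h1 : J u ≤ J (-v) := by
    refine setIntegral_mono_on (integrable_GR u).integrableOn (integrable_GR (-v)).integrableOn
      measurableSet_Iic fun t ht => ?_
    have ht' : t ≤ 0 := ht
    apply Real.exp_le_exp.mpr
    nlinarith
  have h2 : J (-v) ≤ Real.sqrt (2 * Real.pi) * Real.exp (v ^ 2 / 2) := by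
    have := integral_GR (-v)
    rw [neg_sq] at this
    rw [← this]
    exact setIntegral_le_integral (integrable_GR _)
      (Filter.Eventually.of_forall fun t => (Real.exp_pos _).le)
  have h3 : Real.sqrt (2 * Real.pi) ≤ 3 := by
    rw [Real.sqrt_le_left (by norm_num)]
    have := Real.pi_lt_d2
    norm_num
    linarith
  have h4 := Real.exp_pos (v ^ 2 / 2)
  nlinarith

theorem Imin_bound (W : ℂ) (v : ℝ) (hv : 0 ≤ v) (huv : -v ≤ W.re) :
    (1 + ‖W‖) * ‖Imin W‖ ≤ 5 * ((1 + v) * Real.exp (v ^ 2 / 2)) := by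
  have h1 := norm_Imin_le W
  have h2 := norm_W_Imin_le W
  have h3 := J_le W.re v hv huv
  have h4 := J_nonneg W.re
  have h5 : 1 ≤ Real.exp (v ^ 2 / 2) := Real.one_le_exp (by positivity)
  have h6 : (1 - W.re) * J W.re ≤ (1 + v) * (3 * Real.exp (v ^ 2 / 2)) := by
    calc (1 - W.re) * J W.re ≤ (1 + v) * J W.re := by
          apply mul_le_mul_of_nonneg_right _ h4
          linarith
      _ ≤ _ := by
          apply mul_le_mul_of_nonneg_left h3
          linarith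
  nlinarith

theorem Imin_bound_sq (W : ℂ) (v : ℝ) (hv : 0 ≤ v) (huv : -v ≤ W.re) :
    (1 + W.im ^ 2) * ‖Imin W‖ ^ 2 ≤ 25 * ((1 + v) ^ 2 * Real.exp (v ^ 2)) := by
  have h1 := Imin_bound W v hv huv
  have h2 : 1 + W.im ^ 2 ≤ (1 + ‖W‖) ^ 2 := by
    have h3 := Complex.abs_im_le_norm W
    have h4 : W.im ^ 2 ≤ ‖W‖ ^ 2 := by
      rw [← sq_abs]
      exact pow_le_pow_left₀ (abs_nonneg _) h3 2
    nlinarith [norm_nonneg W]
  have h5 : Real.exp (v ^ 2) = Real.exp (v ^ 2 / 2) ^ 2 := by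
    rw [← Real.exp_nat_mul]; congr 1; push_cast; ring
  calc (1 + W.im ^ 2) * ‖Imin W‖ ^ 2 ≤ (1 + ‖W‖) ^ 2 * ‖Imin W‖ ^ 2 := by
        gcongr
    _ = ((1 + ‖W‖) * ‖Imin W‖) ^ 2 := by ring
    _ ≤ (5 * ((1 + v) * Real.exp (v ^ 2 / 2))) ^ 2 := by
        apply pow_le_pow_left₀ (by positivity) h1
    _ = _ := by rw [h5]; ring

/-- the main numerical inequality -/
theorem num (x a v : ℝ) (hv : 0 ≤ v) (hu : v ^ 2 ≤ (x + a) ^ 2) :
    Real.exp (-2 * x ^ 2) * ((1 + Real.exp (-2 * x)) * ((1 + x ^ 2) *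
      ((1 + v) ^ 2 * Real.exp (v ^ 2)))) ≤ 128 * Real.exp (17 / 4 * a ^ 2 + 12) := by
  have h1 : (1 + v) ^ 2 ≤ 32 * Real.exp (v ^ 2 / 16) := by
    have := Real.add_one_le_exp (v ^ 2 / 16)
    nlinarith [sq_nonneg (1 - v)]
  have h2 : 1 + Real.exp (-2 * x) ≤ 2 * Real.exp (12 + x ^ 2 / 12) := by
    have h3 : Real.exp (-2 * x) ≤ Real.exp (12 + x ^ 2 / 12) := by
      apply Real.exp_le_exp.mpr
      nlinarith [sq_nonneg (x + 12)]
    have h4 : 1 ≤ Real.exp (12 + x ^ 2 / 12) := Real.one_le_exp (by positivity)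
    linarith
  have h3 : 1 + x ^ 2 ≤ 2 * Real.exp (x ^ 2 / 2) := by
    have := Real.add_one_le_exp (x ^ 2 / 2)
    nlinarith [sq_nonneg x]
  calc Real.exp (-2 * x ^ 2) * ((1 + Real.exp (-2 * x)) * ((1 + x ^ 2) *
      ((1 + v) ^ 2 * Real.exp (v ^ 2))))
      ≤ Real.exp (-2 * x ^ 2) * ((2 * Real.exp (12 + x ^ 2 / 12)) * ((2 * Real.exp (x ^ 2 / 2)) *
      ((32 * Real.exp (v ^ 2 / 16)) * Real.exp (v ^ 2)))) := by
        gcongr
    _ = 128 * (Real.exp (-2 * x ^ 2) * Real.exp (12 + x ^ 2 / 12) * Real.exp (x ^ 2 / 2) *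
          Real.exp (v ^ 2 / 16) * Real.exp (v ^ 2)) := by ring
    _ = 128 * Real.exp (-2 * x ^ 2 + (12 + x ^ 2 / 12) + x ^ 2 / 2 + v ^ 2 / 16 + v ^ 2) := by
        congr 1
        simp only [← Real.exp_add]
    _ ≤ _ := by
        refine mul_le_mul_of_nonneg_left (Real.exp_le_exp.mpr ?_) (by norm_num)
        nlinarith [sq_nonneg (x - 3 * a)]

theorem integrable_of_bound {f : ℂ → ℝ} (hf : Continuous f) (h0 : ∀ z, 0 ≤ f z) (b C : ℝ)
    (h : ∀ z : ℂ, (1 + z.re ^ 2) * ((1 + (z.im - b) ^ 2) * f z) ≤ C) : Integrable f (om ℂ) := by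
  rw [integrable_om_complex]
  have hg : Integrable (fun p : ℝ × ℝ => C * ((1 + p.1 ^ 2)⁻¹ * (1 + (p.2 - b) ^ 2)⁻¹))
      ((volume : Measure ℝ).prod volume) := by
    refine Integrable.const_mul ?_ C
    exact Integrable.mul_prod (f := fun x : ℝ => (1 + x ^ 2)⁻¹)
      (g := fun y : ℝ => (1 + (y - b) ^ 2)⁻¹) integrable_inv_one_add_sq
      (integrable_inv_one_add_sq.comp_sub_right b)
  refine hg.mono' (Continuous.aestronglyMeasurable ?_) (Filter.Eventually.of_forall fun p => ?_)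
  · exact hf.comp (by fun_prop)
  · rw [Real.norm_eq_abs, abs_of_nonneg (h0 _)]
    have h1 := h (p.1 + p.2 * I)
    have e1 : ((p.1 : ℂ) + p.2 * I).re = p.1 := by simp
    have e2 : ((p.1 : ℂ) + p.2 * I).im = p.2 := by simp
    rw [e1, e2] at h1
    have h2 : 0 < 1 + p.1 ^ 2 := by positivity
    have h3 : 0 < 1 + (p.2 - b) ^ 2 := by positivity
    rw [← mul_inv, ← div_eq_mul_inv, le_div_iff₀ (by positivity)]
    calc _ = (1 + p.1 ^ 2) * ((1 + (p.2 - b) ^ 2) * f (p.1 + p.2 * I)) := by ring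
      _ ≤ C := h1

theorem norm_sq_pref (ζ η : ℂ) : ‖((Real.sqrt (2 * Real.pi))⁻¹ : ℝ) *
    cexp (-ζ ^ 2 / 2 - (conj η) ^ 2 / 2)‖ ^ 2 =
    (2 * Real.pi)⁻¹ * Real.exp (-(ζ.re ^ 2 - ζ.im ^ 2) - (η.re ^ 2 - η.im ^ 2)) := by
  rw [norm_mul, mul_pow, Complex.norm_exp, Complex.norm_real, Real.norm_eq_abs, sq_abs, inv_pow,
    Real.sq_sqrt (by positivity), ← Real.exp_nat_mul]
  congr 2
  have : (-ζ ^ 2 / 2 - (conj η) ^ 2 / 2).re =
      (-(ζ.re ^ 2 - ζ.im ^ 2) - (η.re ^ 2 - η.im ^ 2)) / 2 := by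
    have e : (-ζ ^ 2 / 2 - (conj η) ^ 2 / 2) = ((-(ζ * ζ) - conj η * conj η) / ((2:ℝ) : ℂ)) := by
      push_cast; ring
    rw [e, Complex.div_ofReal_re]
    simp only [Complex.sub_re, Complex.neg_re, Complex.mul_re, Complex.conj_re, Complex.conj_im]
    ring
  rw [this]
  push_cast
  ring

theorem norm_sq_L0 (ζ η : ℂ) : ‖L0 ζ η‖ ^ 2 = (2 * Real.pi)⁻¹ *
    Real.exp (-(ζ.re ^ 2 - ζ.im ^ 2) - (η.re ^ 2 - η.im ^ 2)) * ‖Imin (ζ + conj η)‖ ^ 2 := by
  rw [L0_eq, norm_mul, mul_pow, norm_sq_pref]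

theorem norm_sq_M0 (ζ η : ℂ) : ‖M0 ζ η‖ ^ 2 = (2 * Real.pi)⁻¹ *
    Real.exp (-(ζ.re ^ 2 - ζ.im ^ 2) - (η.re ^ 2 - η.im ^ 2)) * ‖Imin (-(ζ + conj η))‖ ^ 2 := by
  rw [M0_eq, norm_mul, mul_pow, norm_sq_pref]

theorem norm_sq_eq (ζ : ℂ) : ‖ζ‖ ^ 2 = ζ.re ^ 2 + ζ.im ^ 2 := by
  rw [← Complex.normSq_eq_norm_sq, Complex.normSq_apply]
  ring

end FockA

open FockA

/-- `∫_ℝ e^{tW-t²/2}dt = √(2π) e^{W²/2}`. -/
theorem L0_add_M0 (ξ η : ℂ) : L0 ξ η + M0 ξ η = cexp (ξ * conj η) := by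
  rw [L0_eq, M0_eq, ← mul_add, Imin_add, ← cexp_split]
  have h : ((Real.sqrt (2 * Real.pi) : ℝ) : ℂ) ≠ 0 := by
    exact_mod_cast s2pi_pos.ne'
  push_cast
  field_simp

/-- `L0(ξ,η) = ½ e^{ξη̄} erfc((ξ+η̄)/√2)`. -/
theorem L0_eq_erfc (ξ η : ℂ) :
    L0 ξ η = (1 / 2) * cexp (ξ * conj η) *
      (1 - (2 / (Real.sqrt Real.pi : ℂ)) * ∫ s in (0:ℝ)..1,
        ((ξ + conj η) / (Real.sqrt 2 : ℂ)) *
          cexp (-(s * ((ξ + conj η) / (Real.sqrt 2 : ℂ))) ^ 2)) := by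
  set W : ℂ := ξ + conj η with hW
  have hd : ∀ s : ℝ, HasDerivAt (fun s : ℝ => cexp (-(s * W) ^ 2 / 2) * Imin (s * W))
      (-(W * cexp (-(s * W) ^ 2 / 2))) s := by
    intro s
    have h1 : HasDerivAt (fun z : ℂ => z * W) W (s : ℂ) := by
      simpa using (hasDerivAt_id (s : ℂ)).mul_const W
    have h2 : HasDerivAt (fun z : ℂ => -(z * W) ^ 2 / 2) (-((s * W) * W)) (s : ℂ) := by
      have h3 := ((h1.pow 2).neg).div_const 2
      convert! h3 using 1
      simp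
      ring
    have h4 : HasDerivAt (fun z : ℂ => cexp (-(z * W) ^ 2 / 2))
        (cexp (-(s * W) ^ 2 / 2) * (-((s * W) * W))) (s : ℂ) := h2.cexp
    have h5 : HasDerivAt (fun z : ℂ => Imin (z * W)) ((s * W * Imin (s * W) - 1) * W) (s : ℂ) := by
      have h6 := (hasDerivAt_Imin (s * W)).2
      have h7 := Imin_identity (s * W)
      have h8 : ∫ t in Set.Iic (0:ℝ), (t : ℂ) * cexp (t * (s * W) - t ^ 2 / 2) =
          s * W * Imin (s * W) - 1 := by
        rw [← h7]; ring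
      rw [h8] at h6
      exact h6.comp (s : ℂ) h1
    have h9 := (h4.mul h5).comp_ofReal
    convert! h9 using 1
    ring
  have hF : ∫ s in (0:ℝ)..1, -(W * cexp (-(s * W) ^ 2 / 2)) =
      cexp (-(((1:ℝ) : ℂ) * W) ^ 2 / 2) * Imin (((1:ℝ) : ℂ) * W) -
        cexp (-(((0:ℝ) : ℂ) * W) ^ 2 / 2) * Imin (((0:ℝ) : ℂ) * W) := by
    refine intervalIntegral.integral_eq_sub_of_hasDerivAt
      (f := fun s : ℝ => cexp (-(s * W) ^ 2 / 2) * Imin (s * W)) (fun s _ => hd s) ?_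
    exact Continuous.intervalIntegrable (by fun_prop) _ _
  have hI : Imin W = cexp (W ^ 2 / 2) * ((Real.sqrt (2 * Real.pi) : ℝ) / 2 -
      ∫ s in (0:ℝ)..1, W * cexp (-(s * W) ^ 2 / 2)) := by
    rw [intervalIntegral.integral_neg] at hF
    simp only [Complex.ofReal_one, one_mul, Complex.ofReal_zero, zero_mul] at hF
    rw [Imin_zero] at hF
    have e0 : cexp (-(0:ℂ) ^ 2 / 2) = 1 := by simp
    rw [e0, one_mul] at hF
    have e1 : cexp (W ^ 2 / 2) * cexp (-W ^ 2 / 2) = 1 := by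
      rw [← Complex.exp_add, ← Complex.exp_zero]
      congr 1; ring
    have e2 : ∫ s in (0:ℝ)..1, W * cexp (-(s * W) ^ 2 / 2) =
        (Real.sqrt (2 * Real.pi) : ℝ) / 2 - cexp (-W ^ 2 / 2) * Imin W := by
      linear_combination -hF
    rw [e2]
    linear_combination -(Imin W) * e1
  have hJ : ∫ s in (0:ℝ)..1, (W / (Real.sqrt 2 : ℂ)) * cexp (-(s * (W / (Real.sqrt 2 : ℂ))) ^ 2) =
      (1 / (Real.sqrt 2 : ℂ)) * ∫ s in (0:ℝ)..1, W * cexp (-(s * W) ^ 2 / 2) := by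
    rw [← intervalIntegral.integral_const_mul]
    refine intervalIntegral.integral_congr fun s _ => ?_
    have h2 : ((Real.sqrt 2 : ℝ) : ℂ) ^ 2 = 2 := by
      rw [← Complex.ofReal_pow, Real.sq_sqrt (by norm_num)]; norm_num
    have e : -((s : ℂ) * (W / (Real.sqrt 2 : ℂ))) ^ 2 = -((s : ℂ) * W) ^ 2 / 2 := by
      rw [mul_pow, div_pow, h2]; ring
    show (W / (Real.sqrt 2 : ℂ)) * cexp (-(s * (W / (Real.sqrt 2 : ℂ))) ^ 2) = _
    rw [e]
    ring
  rw [L0_eq, ← hW, hJ, hI, ← cexp_split, ← hW]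
  have e3 : Real.sqrt (2 * Real.pi) = Real.sqrt 2 * Real.sqrt Real.pi :=
    Real.sqrt_mul (by norm_num) _
  rw [e3]
  have h1 : ((Real.sqrt 2 : ℝ) : ℂ) ≠ 0 := by
    exact_mod_cast (Real.sqrt_pos.mpr (by norm_num : (0:ℝ) < 2)).ne'
  have h2 : ((Real.sqrt Real.pi : ℝ) : ℂ) ≠ 0 := by
    exact_mod_cast (Real.sqrt_pos.mpr Real.pi_pos).ne'
  push_cast
  field_simp

theorem L0_differentiable (η : ℂ) : Differentiable ℂ (fun ξ => L0 ξ η) := by
  have h : (fun ξ => L0 ξ η) = fun ξ => ((Real.sqrt (2 * Real.pi))⁻¹ : ℝ) *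
    cexp (-ξ ^ 2 / 2 - (conj η) ^ 2 / 2) * Imin (ξ + conj η) := funext fun ξ => L0_eq ξ η
  rw [h]
  have h1 : Differentiable ℂ (fun ξ : ℂ => Imin (ξ + conj η)) :=
    Imin_differentiable.comp (by fun_prop)
  exact (by fun_prop : Differentiable ℂ fun ξ : ℂ => ((Real.sqrt (2 * Real.pi))⁻¹ : ℝ) *
    cexp (-ξ ^ 2 / 2 - (conj η) ^ 2 / 2)).mul h1

theorem M0_differentiable (η : ℂ) : Differentiable ℂ (fun ξ => M0 ξ η) := by
  have h : (fun ξ => M0 ξ η) = fun ξ => ((Real.sqrt (2 * Real.pi))⁻¹ : ℝ) *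
    cexp (-ξ ^ 2 / 2 - (conj η) ^ 2 / 2) * Imin (-(ξ + conj η)) := funext fun ξ => M0_eq ξ η
  rw [h]
  have h1 : Differentiable ℂ (fun ξ : ℂ => Imin (-(ξ + conj η))) :=
    Imin_differentiable.comp (by fun_prop)
  exact (by fun_prop : Differentiable ℂ fun ξ : ℂ => ((Real.sqrt (2 * Real.pi))⁻¹ : ℝ) *
    cexp (-ξ ^ 2 / 2 - (conj η) ^ 2 / 2)).mul h1

theorem L0_continuous : Continuous (fun p : ℂ × ℂ => L0 p.1 p.2) := by
  have h : (fun p : ℂ × ℂ => L0 p.1 p.2) = fun p => ((Real.sqrt (2 * Real.pi))⁻¹ : ℝ) *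
    cexp (-p.1 ^ 2 / 2 - (conj p.2) ^ 2 / 2) * Imin (p.1 + conj p.2) :=
      funext fun p => L0_eq p.1 p.2
  rw [h]
  have h1 : Continuous (fun p : ℂ × ℂ => Imin (p.1 + conj p.2)) :=
    Imin_differentiable.continuous.comp
      (continuous_fst.add (Complex.continuous_conj.comp continuous_snd))
  have h2 : Continuous (fun p : ℂ × ℂ => conj p.2) := Complex.continuous_conj.comp continuous_snd
  exact (by fun_prop : Continuous fun p : ℂ × ℂ => ((Real.sqrt (2 * Real.pi))⁻¹ : ℝ) *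
    cexp (-p.1 ^ 2 / 2 - (conj p.2) ^ 2 / 2)).mul h1

theorem M0_continuous : Continuous (fun p : ℂ × ℂ => M0 p.1 p.2) := by
  have h : (fun p : ℂ × ℂ => M0 p.1 p.2) = fun p => ((Real.sqrt (2 * Real.pi))⁻¹ : ℝ) *
    cexp (-p.1 ^ 2 / 2 - (conj p.2) ^ 2 / 2) * Imin (-(p.1 + conj p.2)) :=
      funext fun p => M0_eq p.1 p.2
  rw [h]
  have h1 : Continuous (fun p : ℂ × ℂ => Imin (-(p.1 + conj p.2))) :=
    Imin_differentiable.continuous.comp
      (continuous_fst.add (Complex.continuous_conj.comp continuous_snd)).neg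
  have h2 : Continuous (fun p : ℂ × ℂ => conj p.2) := Complex.continuous_conj.comp continuous_snd
  exact (by fun_prop : Continuous fun p : ℂ × ℂ => ((Real.sqrt (2 * Real.pi))⁻¹ : ℝ) *
    cexp (-p.1 ^ 2 / 2 - (conj p.2) ^ 2 / 2)).mul h1

theorem M0_L2 (η : ℂ) :
    Integrable (fun ζ => ‖M0 ζ η‖ ^ 2 * Real.exp (-‖ζ‖ ^ 2)) (om ℂ) := by
  refine integrable_of_bound (b := η.im)
    (C := (2 * Real.pi)⁻¹ * Real.exp (η.im ^ 2 - η.re ^ 2) * 25 *
      (128 * Real.exp (17 / 4 * η.re ^ 2 + 12))) ?_ (fun z => by positivity) fun z => ?_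
  · have := (M0_differentiable η).continuous
    fun_prop
  · have hv : 0 ≤ max 0 (z.re + η.re) := le_max_left _ _
    have h1 := Imin_bound_sq (-(z + conj η)) (max 0 (z.re + η.re)) hv (by
      simp only [Complex.neg_re, Complex.add_re, Complex.conj_re]
      linarith [le_max_right 0 (z.re + η.re)])
    have e1 : (-(z + conj η)).im ^ 2 = (z.im - η.im) ^ 2 := by
      simp only [Complex.neg_im, Complex.add_im, Complex.conj_im]; ring
    rw [e1] at h1
    have h2 := num z.re η.re (max 0 (z.re + η.re)) hv (by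
      rcases max_cases 0 (z.re + η.re) with h | h <;> rw [h.1]
      nlinarith [sq_nonneg (z.re + η.re)])
    have h3 := Real.exp_pos (-2 * z.re)
    rw [norm_sq_M0, norm_sq_eq z]
    set N := ‖Imin (-(z + conj η))‖ ^ 2 with hN
    set V := (1 + max 0 (z.re + η.re)) ^ 2 * Real.exp (max 0 (z.re + η.re) ^ 2) with hV
    have hV0 : 0 ≤ V := by positivity
    have e2 : Real.exp (-(z.re ^ 2 - z.im ^ 2) - (η.re ^ 2 - η.im ^ 2)) *
        Real.exp (-(z.re ^ 2 + z.im ^ 2)) =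
        Real.exp (η.im ^ 2 - η.re ^ 2) * Real.exp (-2 * z.re ^ 2) := by
      rw [← Real.exp_add, ← Real.exp_add]; congr 1; ring
    calc (1 + z.re ^ 2) * ((1 + (z.im - η.im) ^ 2) * ((2 * Real.pi)⁻¹ *
          Real.exp (-(z.re ^ 2 - z.im ^ 2) - (η.re ^ 2 - η.im ^ 2)) * N *
          Real.exp (-(z.re ^ 2 + z.im ^ 2))))
        = (2 * Real.pi)⁻¹ * ((Real.exp (-(z.re ^ 2 - z.im ^ 2) - (η.re ^ 2 - η.im ^ 2)) *
          Real.exp (-(z.re ^ 2 + z.im ^ 2))) * ((1 + z.re ^ 2) *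
            ((1 + (z.im - η.im) ^ 2) * N))) := by ring
      _ = (2 * Real.pi)⁻¹ * Real.exp (η.im ^ 2 - η.re ^ 2) * (Real.exp (-2 * z.re ^ 2) *
          (1 * ((1 + z.re ^ 2) * ((1 + (z.im - η.im) ^ 2) * N)))) := by rw [e2]; ring
      _ ≤ (2 * Real.pi)⁻¹ * Real.exp (η.im ^ 2 - η.re ^ 2) * (Real.exp (-2 * z.re ^ 2) *
          ((1 + Real.exp (-2 * z.re)) * ((1 + z.re ^ 2) * (25 * V)))) := by
            have : (1:ℝ) ≤ 1 + Real.exp (-2 * z.re) := by linarith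
            gcongr
      _ = (2 * Real.pi)⁻¹ * Real.exp (η.im ^ 2 - η.re ^ 2) * 25 * (Real.exp (-2 * z.re ^ 2) *
          ((1 + Real.exp (-2 * z.re)) * ((1 + z.re ^ 2) * V))) := by ring
      _ ≤ _ := by
            gcongr

theorem L0_growth (η : ℂ) :
    ∃ C : ℝ, ∀ ζ : ℂ, ‖L0 ζ η‖ ^ 2 ≤ C * Real.exp (‖ζ‖ ^ 2 - 2 * (max 0 ζ.re) ^ 2) := by
  refine ⟨(2 * Real.pi)⁻¹ * Real.exp (η.im ^ 2 - η.re ^ 2) * (9 * Real.exp (2 * η.re ^ 2)),
    fun ζ => ?_⟩
  rw [norm_sq_L0, norm_sq_eq ζ]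
  set v := max 0 (-(ζ.re + η.re)) with hv
  have hv0 : 0 ≤ v := le_max_left _ _
  have h1 : ‖Imin (ζ + conj η)‖ ≤ 3 * Real.exp (v ^ 2 / 2) :=
    (norm_Imin_le _).trans (J_le _ v hv0 (by
      simp only [Complex.add_re, Complex.conj_re]
      linarith [le_max_right 0 (-(ζ.re + η.re))]))
  have h2 : ‖Imin (ζ + conj η)‖ ^ 2 ≤ 9 * Real.exp (v ^ 2) := by
    have h5 : Real.exp (v ^ 2) = Real.exp (v ^ 2 / 2) ^ 2 := by
      rw [← Real.exp_nat_mul]; congr 1; push_cast; ring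
    calc _ ≤ (3 * Real.exp (v ^ 2 / 2)) ^ 2 := pow_le_pow_left₀ (norm_nonneg _) h1 2
      _ = _ := by rw [h5]; ring
  have h3 : -ζ.re ^ 2 + v ^ 2 ≤ ζ.re ^ 2 - 2 * (max 0 ζ.re) ^ 2 + 2 * η.re ^ 2 := by
    rcases max_cases 0 (-(ζ.re + η.re)) with h | h <;> rcases max_cases 0 ζ.re with h' | h' <;>
      rw [hv, h.1, h'.1]
    · nlinarith [sq_nonneg ζ.re, sq_nonneg η.re]
    · nlinarith [sq_nonneg ζ.re, sq_nonneg η.re]
    · nlinarith [sq_nonneg (ζ.re - η.re)]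
    · nlinarith [h.2, h'.2, sq_nonneg (ζ.re + η.re), sq_nonneg η.re]
  calc (2 * Real.pi)⁻¹ * Real.exp (-(ζ.re ^ 2 - ζ.im ^ 2) - (η.re ^ 2 - η.im ^ 2)) *
        ‖Imin (ζ + conj η)‖ ^ 2
      ≤ (2 * Real.pi)⁻¹ * Real.exp (-(ζ.re ^ 2 - ζ.im ^ 2) - (η.re ^ 2 - η.im ^ 2)) *
        (9 * Real.exp (v ^ 2)) := by gcongr
    _ = (2 * Real.pi)⁻¹ * 9 * (Real.exp (-(ζ.re ^ 2 - ζ.im ^ 2) - (η.re ^ 2 - η.im ^ 2)) *
        Real.exp (v ^ 2)) := by ring
    _ ≤ (2 * Real.pi)⁻¹ * 9 * (Real.exp (η.im ^ 2 - η.re ^ 2) * (Real.exp (2 * η.re ^ 2) *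
        Real.exp (ζ.re ^ 2 + ζ.im ^ 2 - 2 * (max 0 ζ.re) ^ 2))) := by
          rw [← Real.exp_add, ← Real.exp_add, ← Real.exp_add]
          refine mul_le_mul_of_nonneg_left (Real.exp_le_exp.mpr ?_) (by positivity)
          linarith
    _ = (2 * Real.pi)⁻¹ * Real.exp (η.im ^ 2 - η.re ^ 2) * (9 * Real.exp (2 * η.re ^ 2)) *
        Real.exp (ζ.re ^ 2 + ζ.im ^ 2 - 2 * (max 0 ζ.re) ^ 2) := by ring

/-- with a weight growing for `x → -∞`. -/
theorem L0_L2 (η : ℂ) :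
    Integrable (fun ζ => (1 + Real.exp (-2 * ζ.re)) * (‖L0 ζ η‖ ^ 2 * Real.exp (-‖ζ‖ ^ 2)))
      (om ℂ) := by
  refine integrable_of_bound (b := η.im)
    (C := (2 * Real.pi)⁻¹ * Real.exp (η.im ^ 2 - η.re ^ 2) * 25 *
      (128 * Real.exp (17 / 4 * η.re ^ 2 + 12))) ?_ (fun z => by positivity) fun z => ?_
  · have := (L0_differentiable η).continuous
    have h2 := Complex.continuous_re
    fun_prop
  · have hv : 0 ≤ max 0 (-(z.re + η.re)) := le_max_left _ _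
    have h1 := Imin_bound_sq (z + conj η) (max 0 (-(z.re + η.re))) hv (by
      simp only [Complex.add_re, Complex.conj_re]
      linarith [le_max_right 0 (-(z.re + η.re))])
    have e1 : (z + conj η).im ^ 2 = (z.im - η.im) ^ 2 := by
      simp only [Complex.add_im, Complex.conj_im]; ring
    rw [e1] at h1
    have h2 := num z.re η.re (max 0 (-(z.re + η.re))) hv (by
      rcases max_cases 0 (-(z.re + η.re)) with h | h <;> rw [h.1]
      · nlinarith [sq_nonneg (z.re + η.re)]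
      · rw [neg_sq])
    have h3 := Real.exp_pos (-2 * z.re)
    rw [norm_sq_L0, norm_sq_eq z]
    set N := ‖Imin (z + conj η)‖ ^ 2 with hN
    set V := (1 + max 0 (-(z.re + η.re))) ^ 2 * Real.exp (max 0 (-(z.re + η.re)) ^ 2) with hV
    have hV0 : 0 ≤ V := by positivity
    have e2 : Real.exp (-(z.re ^ 2 - z.im ^ 2) - (η.re ^ 2 - η.im ^ 2)) *
        Real.exp (-(z.re ^ 2 + z.im ^ 2)) =
        Real.exp (η.im ^ 2 - η.re ^ 2) * Real.exp (-2 * z.re ^ 2) := by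
      rw [← Real.exp_add, ← Real.exp_add]; congr 1; ring
    calc (1 + z.re ^ 2) * ((1 + (z.im - η.im) ^ 2) * ((1 + Real.exp (-2 * z.re)) *
          ((2 * Real.pi)⁻¹ *
          Real.exp (-(z.re ^ 2 - z.im ^ 2) - (η.re ^ 2 - η.im ^ 2)) * N *
          Real.exp (-(z.re ^ 2 + z.im ^ 2)))))
        = (2 * Real.pi)⁻¹ * ((Real.exp (-(z.re ^ 2 - z.im ^ 2) - (η.re ^ 2 - η.im ^ 2)) *
          Real.exp (-(z.re ^ 2 + z.im ^ 2))) * ((1 + Real.exp (-2 * z.re)) * ((1 + z.re ^ 2) *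
            ((1 + (z.im - η.im) ^ 2) * N)))) := by ring
      _ = (2 * Real.pi)⁻¹ * Real.exp (η.im ^ 2 - η.re ^ 2) * (Real.exp (-2 * z.re ^ 2) *
          ((1 + Real.exp (-2 * z.re)) * ((1 + z.re ^ 2) * ((1 + (z.im - η.im) ^ 2) * N)))) := by
            rw [e2]; ring
      _ ≤ (2 * Real.pi)⁻¹ * Real.exp (η.im ^ 2 - η.re ^ 2) * (Real.exp (-2 * z.re ^ 2) *
          ((1 + Real.exp (-2 * z.re)) * ((1 + z.re ^ 2) * (25 * V)))) := by
            gcongr
      _ = (2 * Real.pi)⁻¹ * Real.exp (η.im ^ 2 - η.re ^ 2) * 25 * (Real.exp (-2 * z.re ^ 2) *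
          ((1 + Real.exp (-2 * z.re)) * ((1 + z.re ^ 2) * V))) := by ring
      _ ≤ _ := by
            gcongr

/-- the regularised functions `e^{-aζ}L0(ζ,η)` are in `L²(e^{-φ₀})`. -/
theorem L0_reg_L2 (η : ℂ) {a : ℝ} (ha : 0 < a) (ha1 : a ≤ 1) :
    Integrable (fun ζ : ℂ => ‖cexp (-a * ζ) * L0 ζ η‖ ^ 2 *
      Real.exp (-(‖ζ‖ ^ 2 - 2 * (max 0 ζ.re) ^ 2))) (om ℂ) := by
  refine integrable_of_bound (b := η.im)
    (C := (2 * Real.pi)⁻¹ * Real.exp (η.im ^ 2 - η.re ^ 2) * 25 *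
      (128 * Real.exp (17 / 4 * η.re ^ 2 + 12) +
        (1 + 1 / a ^ 2) * ((1 + |η.re|) ^ 2 * Real.exp (η.re ^ 2)))) ?_
      (fun z => by positivity) fun z => ?_
  · have := (L0_differentiable η).continuous
    have h2 := Complex.continuous_re
    fun_prop
  · have hv : 0 ≤ max 0 (-(z.re + η.re)) := le_max_left _ _
    have h1 := Imin_bound_sq (z + conj η) (max 0 (-(z.re + η.re))) hv (by
      simp only [Complex.add_re, Complex.conj_re]
      linarith [le_max_right 0 (-(z.re + η.re))])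
    have e1 : (z + conj η).im ^ 2 = (z.im - η.im) ^ 2 := by
      simp only [Complex.add_im, Complex.conj_im]; ring
    rw [e1] at h1
    have h2 := num z.re η.re (max 0 (-(z.re + η.re))) hv (by
      rcases max_cases 0 (-(z.re + η.re)) with h | h <;> rw [h.1]
      · nlinarith [sq_nonneg (z.re + η.re)]
      · rw [neg_sq])
    have h3 := Real.exp_pos (-2 * z.re)
    have e0 : ‖cexp (-a * z)‖ ^ 2 = Real.exp (-2 * a * z.re) := by
      rw [Complex.norm_exp, ← Real.exp_nat_mul]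
      congr 1
      have : (-(a:ℂ) * z).re = -a * z.re := by simp
      rw [this]; push_cast; ring
    rw [norm_mul, mul_pow, e0, norm_sq_L0, norm_sq_eq z]
    set N := ‖Imin (z + conj η)‖ ^ 2 with hN
    set V := (1 + max 0 (-(z.re + η.re))) ^ 2 * Real.exp (max 0 (-(z.re + η.re)) ^ 2) with hV
    have hV0 : 0 ≤ V := by positivity
    have e2 : Real.exp (-(z.re ^ 2 - z.im ^ 2) - (η.re ^ 2 - η.im ^ 2)) *
        Real.exp (-(z.re ^ 2 + z.im ^ 2 - 2 * max 0 z.re ^ 2)) =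
        Real.exp (η.im ^ 2 - η.re ^ 2) * Real.exp (-2 * z.re ^ 2 + 2 * max 0 z.re ^ 2) := by
      rw [← Real.exp_add, ← Real.exp_add]; congr 1; ring
    have key : Real.exp (-2 * z.re ^ 2 + 2 * max 0 z.re ^ 2) * (Real.exp (-2 * a * z.re) *
        ((1 + z.re ^ 2) * V)) ≤ 128 * Real.exp (17 / 4 * η.re ^ 2 + 12) +
        (1 + 1 / a ^ 2) * ((1 + |η.re|) ^ 2 * Real.exp (η.re ^ 2)) := by
      rcases le_or_gt 0 z.re with hx | hx
      · rw [max_eq_right hx]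
        have e3 : Real.exp (-2 * z.re ^ 2 + 2 * z.re ^ 2) = 1 := by
          rw [← Real.exp_zero]; congr 1; ring
        rw [e3, one_mul]
        have hvb : max 0 (-(z.re + η.re)) ≤ |η.re| := by
          apply max_le (abs_nonneg _)
          have := neg_abs_le η.re
          linarith
        have h5 : V ≤ (1 + |η.re|) ^ 2 * Real.exp (η.re ^ 2) := by
          rw [hV, ← sq_abs η.re]
          gcongr
        have h6 : Real.exp (-2 * a * z.re) * (1 + z.re ^ 2) ≤ 1 + 1 / a ^ 2 := by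
          have h7 := Real.quadratic_le_exp_of_nonneg (x := 2 * a * z.re) (by positivity)
          have h8 : Real.exp (-2 * a * z.re) * Real.exp (2 * a * z.re) = 1 := by
            rw [← Real.exp_add, ← Real.exp_zero]; congr 1; ring
          have h9 : 1 + z.re ^ 2 ≤ (1 + 1 / a ^ 2) * Real.exp (2 * a * z.re) := by
            have h10 : (1 + 1 / a ^ 2) * (1 + 2 * a ^ 2 * z.re ^ 2) =
                1 + 2 * a ^ 2 * z.re ^ 2 + 1 / a ^ 2 + 2 * z.re ^ 2 := by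
              field_simp
              ring
            have h11 : 1 + 2 * a ^ 2 * z.re ^ 2 ≤ Real.exp (2 * a * z.re) := by
              have : 0 ≤ 2 * a * z.re := by positivity
              nlinarith
            have h12 : 0 ≤ 1 / a ^ 2 := by positivity
            calc 1 + z.re ^ 2 ≤ (1 + 1 / a ^ 2) * (1 + 2 * a ^ 2 * z.re ^ 2) := by
                  rw [h10]; nlinarith [sq_nonneg (a * z.re), sq_nonneg z.re]
              _ ≤ _ := by gcongr
          calc Real.exp (-2 * a * z.re) * (1 + z.re ^ 2)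
              ≤ Real.exp (-2 * a * z.re) * ((1 + 1 / a ^ 2) * Real.exp (2 * a * z.re)) := by
                gcongr
            _ = (1 + 1 / a ^ 2) * (Real.exp (-2 * a * z.re) * Real.exp (2 * a * z.re)) := by ring
            _ = _ := by rw [h8, mul_one]
        have h13 : 0 < 128 * Real.exp (17 / 4 * η.re ^ 2 + 12) := by positivity
        calc Real.exp (-2 * a * z.re) * ((1 + z.re ^ 2) * V)
            = (Real.exp (-2 * a * z.re) * (1 + z.re ^ 2)) * V := by ring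
          _ ≤ (1 + 1 / a ^ 2) * ((1 + |η.re|) ^ 2 * Real.exp (η.re ^ 2)) := by gcongr
          _ ≤ _ := by linarith
      · rw [max_eq_left hx.le]
        have h5 : Real.exp (-2 * a * z.re) ≤ 1 + Real.exp (-2 * z.re) := by
          have : Real.exp (-2 * a * z.re) ≤ Real.exp (-2 * z.re) := by
            apply Real.exp_le_exp.mpr; nlinarith
          linarith
        have e3 : -2 * z.re ^ 2 + 2 * (0:ℝ) ^ 2 = -2 * z.re ^ 2 := by ring
        rw [e3]
        have h13 : 0 ≤ (1 + 1 / a ^ 2) * ((1 + |η.re|) ^ 2 * Real.exp (η.re ^ 2)) := by positivity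
        calc Real.exp (-2 * z.re ^ 2) * (Real.exp (-2 * a * z.re) * ((1 + z.re ^ 2) * V))
            ≤ Real.exp (-2 * z.re ^ 2) * ((1 + Real.exp (-2 * z.re)) * ((1 + z.re ^ 2) * V)) := by
              gcongr
          _ ≤ 128 * Real.exp (17 / 4 * η.re ^ 2 + 12) := h2
          _ ≤ _ := by linarith
    calc (1 + z.re ^ 2) * ((1 + (z.im - η.im) ^ 2) * (Real.exp (-2 * a * z.re) *
          ((2 * Real.pi)⁻¹ *
          Real.exp (-(z.re ^ 2 - z.im ^ 2) - (η.re ^ 2 - η.im ^ 2)) * N) *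
          Real.exp (-(z.re ^ 2 + z.im ^ 2 - 2 * max 0 z.re ^ 2))))
        = (2 * Real.pi)⁻¹ * ((Real.exp (-(z.re ^ 2 - z.im ^ 2) - (η.re ^ 2 - η.im ^ 2)) *
          Real.exp (-(z.re ^ 2 + z.im ^ 2 - 2 * max 0 z.re ^ 2))) * (Real.exp (-2 * a * z.re) *
            ((1 + z.re ^ 2) * ((1 + (z.im - η.im) ^ 2) * N)))) := by ring
      _ = (2 * Real.pi)⁻¹ * Real.exp (η.im ^ 2 - η.re ^ 2) *
          (Real.exp (-2 * z.re ^ 2 + 2 * max 0 z.re ^ 2) *
          (Real.exp (-2 * a * z.re) * ((1 + z.re ^ 2) * ((1 + (z.im - η.im) ^ 2) * N)))) := by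
            rw [e2]; ring
      _ ≤ (2 * Real.pi)⁻¹ * Real.exp (η.im ^ 2 - η.re ^ 2) *
          (Real.exp (-2 * z.re ^ 2 + 2 * max 0 z.re ^ 2) *
          (Real.exp (-2 * a * z.re) * ((1 + z.re ^ 2) * (25 * V)))) := by
            gcongr
      _ = (2 * Real.pi)⁻¹ * Real.exp (η.im ^ 2 - η.re ^ 2) * 25 *
          (Real.exp (-2 * z.re ^ 2 + 2 * max 0 z.re ^ 2) *
          (Real.exp (-2 * a * z.re) * ((1 + z.re ^ 2) * V))) := by ring
      _ ≤ _ := by
            gcongr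

/-- For fixed `x`, integrability data for the kernel `M0` used in Fubini's theorem. -/
theorem integral_exp_half (u : ℝ) :
    Integrable (fun t : ℝ => Real.exp (t * u - t ^ 2 / 2)) ∧
      ∫ t in Set.Ioi (0:ℝ), Real.exp (t * u - t ^ 2 / 2) ≤
        Real.sqrt (2 * Real.pi) * Real.exp (u ^ 2 / 2) := by
  refine ⟨integrable_GR u, ?_⟩
  rw [← integral_GR]
  exact setIntegral_le_integral (integrable_GR _)
    (Filter.Eventually.of_forall fun t => (Real.exp_pos _).le)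

end Pool.Agent.Edge
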