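import Pool.Agent.Edge.FockA

/-!
# The extremal property of `L0`

Space: entire `k` with `|k(ζ)|² ≤ C e^{|ζ|²-2x_+²}` and `∫|k|²e^{-|ζ|²} < ∞`.

The orthogonality to `M0(·,η)` is proved line by line: for fixed `x` the regularised function
`Kε(ζ) = k(ζ)e^{ζ²/2}h(εζ)²`, `h(w) = (1-e^{-w})/w`, is entire, decays like `1/y²` vertically and
stays bounded to the right, so `∫Kε(x+iy)e^{-t(x+iy)}dy = 0` for all `x` and `t > 0`
(`fockb_vertical`); Fubini in `(y,t)` and dominated convergence `ε → 0` give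
`∫ k conj(M0) e^{-|ζ|²} dy = 0` for a.e. `x`.
-/

namespace Pool.Agent.Edge

open MeasureTheory Filter Topology Complex

open scoped ComplexConjugate

theorem fockb_int_lor {ε : ℝ} (hε : 0 < ε) :
    Integrable (fun y : ℝ => (1 + ε ^ 2 * y ^ 2)⁻¹) := by
  have h := integrable_inv_one_add_sq.comp_mul_left' hε.ne'
  refine h.congr (Filter.Eventually.of_forall fun y => ?_)
  simp only [mul_pow]

/-- Vertical integrals of entire functions that decay vertically and to the right vanish. -/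
theorem fockb_vertical {Φ : ℂ → ℂ} (hΦ : Differentiable ℂ Φ) {b : ℝ → ℝ} (hb : Continuous b)
    (hb0 : Tendsto b atTop (𝓝 0)) {ε : ℝ} (hε : 0 < ε)
    (hbd : ∀ x y : ℝ, ‖Φ (x + y * I)‖ ≤ b x * (1 + ε ^ 2 * y ^ 2)⁻¹) (x : ℝ) :
    ∫ y : ℝ, Φ (x + y * I) = 0 := by
  have hint : ∀ x : ℝ, Integrable (fun y : ℝ => Φ (x + y * I)) := fun x => by
    refine ((fockb_int_lor hε).const_mul (b x)).mono' ?_ (Filter.Eventually.of_forall fun y => hbd x y)
    exact (hΦ.continuous.comp (by fun_prop)).aestronglyMeasurable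
  have hlim : ∀ x : ℝ, Tendsto (fun Y : ℝ => ∫ y in (-Y)..Y, Φ (x + y * I)) atTop
      (𝓝 (∫ y : ℝ, Φ (x + y * I))) := fun x =>
    intervalIntegral_tendsto_integral (hint x) tendsto_neg_atTop_atBot tendsto_id
  have hconst : ∀ x₁ x₂ : ℝ, x₁ ≤ x₂ → ∫ y : ℝ, Φ (x₁ + y * I) = ∫ y : ℝ, Φ (x₂ + y * I) := by
    intro x₁ x₂ h12
    obtain ⟨B, hB⟩ := (isCompact_Icc (a := x₁) (b := x₂)).exists_bound_of_continuousOn
      (f := b) hb.continuousOn
    have hhor : ∀ s : ℝ → ℝ, (∀ Y, (s Y) ^ 2 = Y ^ 2) →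
        Tendsto (fun Y : ℝ => ∫ t in x₁..x₂, Φ (t + (s Y : ℝ) * I)) atTop (𝓝 0) := by
      intro s hs
      have hdec : Tendsto (fun Y : ℝ => B * (1 + ε ^ 2 * Y ^ 2)⁻¹ * |x₂ - x₁|) atTop (𝓝 0) := by
        have h1 : Tendsto (fun Y : ℝ => (1 + ε ^ 2 * Y ^ 2)) atTop atTop := by
          refine tendsto_atTop_add_const_left _ _ ?_
          exact (tendsto_pow_atTop (by norm_num)).const_mul_atTop (by positivity)
        have h2 := (h1.inv_tendsto_atTop.const_mul B).mul_const |x₂ - x₁|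
        simpa using h2
      refine squeeze_zero_norm (fun Y => ?_) hdec
      refine intervalIntegral.norm_integral_le_of_norm_le_const fun t ht => ?_
      rw [Set.uIoc_of_le h12] at ht
      have h3 := hB t ⟨ht.1.le, ht.2⟩
      have h4 := hbd t (s Y)
      rw [hs Y] at h4
      refine h4.trans ?_
      have h5 : b t ≤ B := (le_abs_self _).trans h3
      gcongr
    have hrect : ∀ Y : ℝ,
        (∫ t in x₁..x₂, Φ (t + ((-Y : ℝ) : ℂ) * I)) - (∫ t in x₁..x₂, Φ (t + ((Y : ℝ) : ℂ) * I)) +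
          I • (∫ y in (-Y)..Y, Φ (x₂ + y * I)) - I • (∫ y in (-Y)..Y, Φ (x₁ + y * I)) = 0 := by
      intro Y
      have := Complex.integral_boundary_rect_eq_zero_of_differentiableOn Φ
        ⟨x₁, -Y⟩ ⟨x₂, Y⟩ hΦ.differentiableOn
      simpa using this
    have hl := (((hhor (fun Y => -Y) (fun Y => by ring)).sub
      (hhor (fun Y => Y) (fun Y => rfl))).add ((hlim x₂).const_smul I)).sub
        ((hlim x₁).const_smul I)
    have hz : (fun Y : ℝ => (∫ t in x₁..x₂, Φ (t + ((-Y : ℝ) : ℂ) * I)) -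
        (∫ t in x₁..x₂, Φ (t + ((Y : ℝ) : ℂ) * I)) +
          I • (∫ y in (-Y)..Y, Φ (x₂ + y * I)) - I • (∫ y in (-Y)..Y, Φ (x₁ + y * I))) =
        fun _ => 0 := funext hrect
    rw [hz] at hl
    have h0 := tendsto_nhds_unique hl tendsto_const_nhds
    simp only [sub_self, zero_add, smul_eq_mul, ← mul_sub] at h0
    have h1 := (mul_eq_zero.1 h0).resolve_left I_ne_zero
    exact (sub_eq_zero.1 h1).symm
  have hle : ∀ x' : ℝ, x ≤ x' → ‖∫ y : ℝ, Φ (x + y * I)‖ ≤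
      b x' * ∫ y : ℝ, (1 + ε ^ 2 * y ^ 2)⁻¹ := by
    intro x' hx'
    rw [hconst x x' hx', ← integral_const_mul]
    exact norm_integral_le_of_norm_le ((fockb_int_lor hε).const_mul (b x'))
      (Filter.Eventually.of_forall fun y => hbd x' y)
  have hl : Tendsto (fun x' => b x' * ∫ y : ℝ, (1 + ε ^ 2 * y ^ 2)⁻¹) atTop (𝓝 0) := by
    simpa using hb0.mul_const (∫ y : ℝ, (1 + ε ^ 2 * y ^ 2)⁻¹)
  have h0 : ‖∫ y : ℝ, Φ (x + y * I)‖ ≤ 0 :=
    le_of_tendsto_of_tendsto tendsto_const_nhds hl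
      ((eventually_ge_atTop x).mono fun x' hx' => hle x' hx')
  exact norm_le_zero_iff.1 h0

/-- The regularising function `h(w) = (1 - e^{-w})/w`. -/
noncomputable def fbH : ℂ → ℂ := dslope (fun w => -cexp (-w)) 0

theorem fbH_diff : Differentiable ℂ fbH := by
  have h : DifferentiableOn ℂ (fun w : ℂ => -cexp (-w)) Set.univ :=
    (by fun_prop : Differentiable ℂ (fun w : ℂ => -cexp (-w))).differentiableOn
  exact differentiableOn_univ.1 ((Complex.differentiableOn_dslope univ_mem).2 h)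

theorem fbH_zero : fbH 0 = 1 := by
  unfold fbH
  rw [dslope_same]
  have h : HasDerivAt (fun w : ℂ => -cexp (-w)) (-(cexp (-0) * (-1))) 0 :=
    ((hasDerivAt_neg (0:ℂ)).cexp).neg
  rw [h.deriv]
  simp

theorem fbH_mul (w : ℂ) : w * fbH w = 1 - cexp (-w) := by
  have h := sub_smul_dslope (fun w : ℂ => -cexp (-w)) 0 w
  unfold fbH
  simp only [sub_zero, smul_eq_mul, neg_zero, Complex.exp_zero] at h
  rw [h]
  ring

theorem fbH_bound : ∃ C₁ : ℝ, 0 ≤ C₁ ∧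
    ∀ w : ℂ, ‖fbH w‖ ^ 2 ≤ C₁ * (1 + Real.exp (-w.re)) ^ 2 * (1 + ‖w‖ ^ 2)⁻¹ := by
  obtain ⟨B, hB⟩ := (isCompact_closedBall (0:ℂ) 1).exists_bound_of_continuousOn
      (f := fbH) fbH_diff.continuous.continuousOn
  have hB0 : 0 ≤ B := (norm_nonneg _).trans (hB 0 (by simp))
  refine ⟨2 * B ^ 2 + 2, by positivity, fun w => ?_⟩
  have he := Real.exp_pos (-w.re)
  rcases le_or_gt ‖w‖ 1 with hw | hw
  · have h1 : ‖fbH w‖ ≤ B := hB w (by simpa using hw)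
    have h2 : ‖fbH w‖ ^ 2 ≤ B ^ 2 := by gcongr
    rw [← div_eq_mul_inv, le_div_iff₀ (by positivity)]
    have h3 : 1 + ‖w‖ ^ 2 ≤ 2 := by nlinarith [norm_nonneg w]
    calc ‖fbH w‖ ^ 2 * (1 + ‖w‖ ^ 2) ≤ B ^ 2 * 2 := by gcongr
      _ ≤ (2 * B ^ 2 + 2) * (1 + Real.exp (-w.re)) ^ 2 := by
          have h4 : 1 ≤ (1 + Real.exp (-w.re)) ^ 2 := by nlinarith
          nlinarith [sq_nonneg B]
  · have h1 : ‖w‖ * ‖fbH w‖ ≤ 1 + Real.exp (-w.re) := by
      rw [← norm_mul, fbH_mul]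
      refine (norm_sub_le _ _).trans ?_
      simp [Complex.norm_exp]
    have h2 : (‖w‖ * ‖fbH w‖) ^ 2 ≤ (1 + Real.exp (-w.re)) ^ 2 := by gcongr
    rw [← div_eq_mul_inv, le_div_iff₀ (by positivity)]
    have h3 : 1 ≤ ‖w‖ ^ 2 := by nlinarith
    calc ‖fbH w‖ ^ 2 * (1 + ‖w‖ ^ 2) ≤ ‖fbH w‖ ^ 2 * (2 * ‖w‖ ^ 2) := by gcongr; linarith
      _ = 2 * (‖w‖ * ‖fbH w‖) ^ 2 := by ring
      _ ≤ 2 * (1 + Real.exp (-w.re)) ^ 2 := by gcongr
      _ ≤ (2 * B ^ 2 + 2) * (1 + Real.exp (-w.re)) ^ 2 := by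
          have : 0 ≤ (1 + Real.exp (-w.re)) ^ 2 := by positivity
          nlinarith [sq_nonneg B, mul_nonneg (sq_nonneg B) this]


theorem fockb_rot (θ : ℝ) : MeasurePreserving (fun w : ℂ => cexp (θ * I) * w) (om ℂ) (om ℂ) := by
  have h := measurePreserving_smul (E := ℂ) (u := cexp (θ * I)) (Complex.norm_exp_ofReal_mul_I θ)
  simpa [smul_eq_mul] using h

theorem fockb_rot_int {F : Type*} [NormedAddCommGroup F] [NormedSpace ℝ F] (f : ℂ → F) (θ : ℝ) :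
    ∫ w, f (cexp (θ * I) * w) ∂(om ℂ) = ∫ w, f w ∂(om ℂ) := by
  have hne : cexp (θ * I) ≠ 0 := Complex.exp_ne_zero _
  exact (fockb_rot θ).integral_comp (Homeomorph.mulLeft₀ _ hne).measurableEmbedding f

theorem fockb_swap {H : ℂ → ℂ} (hHc : Continuous H) (hi : Integrable H (om ℂ)) :
    ∫ θ in Set.Ioc (0:ℝ) (2 * Real.pi), (∫ w, H (cexp (θ * I) * w) ∂(om ℂ)) =
      ∫ w, (∫ θ in Set.Ioc (0:ℝ) (2 * Real.pi), H (cexp (θ * I) * w)) ∂(om ℂ) := by
  refine integral_integral_swap (f := fun (θ : ℝ) (w : ℂ) => H (cexp (θ * I) * w)) ?_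
  have hc : Continuous (Function.uncurry fun (θ : ℝ) (w : ℂ) => H (cexp (θ * I) * w)) := by
    refine hHc.comp ?_
    fun_prop
  rw [integrable_prod_iff hc.aestronglyMeasurable]
  refine ⟨Filter.Eventually.of_forall fun θ => (fockb_rot θ).integrable_comp_of_integrable hi, ?_⟩
  have : (fun θ : ℝ => ∫ w, ‖Function.uncurry (fun (θ : ℝ) (w : ℂ) => H (cexp (θ * I) * w))
      (θ, w)‖ ∂(om ℂ)) = fun _ => ∫ w, ‖H w‖ ∂(om ℂ) := by
    funext θ
    exact fockb_rot_int (fun w => ‖H w‖) θ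
  rw [this]
  exact integrable_const _

/-- mean value property against the Gaussian. -/
theorem fockb_mean {G : ℂ → ℂ} (hG : Differentiable ℂ G)
    (hi : Integrable (fun w : ℂ => G w * (Real.exp (-‖w‖ ^ 2) : ℂ)) (om ℂ)) :
    ∫ w, G w * (Real.exp (-‖w‖ ^ 2) : ℂ) ∂(om ℂ) = G 0 := by
  have hrot : ∀ θ : ℝ, ‖cexp (θ * I)‖ = 1 := fun θ => Complex.norm_exp_ofReal_mul_I θ
  have hHc : Continuous (fun w : ℂ => G w * (Real.exp (-‖w‖ ^ 2) : ℂ)) := by
    have := hG.continuous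
    fun_prop
  have hswap := fockb_swap hHc hi
  have h1 : ∫ θ in Set.Ioc (0:ℝ) (2 * Real.pi),
      (∫ w : ℂ, G (cexp (θ * I) * w) * (Real.exp (-‖cexp (θ * I) * w‖ ^ 2) : ℂ) ∂(om ℂ)) =
      (2 * Real.pi : ℝ) • ∫ w : ℂ, G w * (Real.exp (-‖w‖ ^ 2) : ℂ) ∂(om ℂ) := by
    rw [show (fun θ : ℝ => ∫ w : ℂ, G (cexp (θ * I) * w) *
      (Real.exp (-‖cexp (θ * I) * w‖ ^ 2) : ℂ) ∂(om ℂ)) =
        fun _ => ∫ w : ℂ, G w * (Real.exp (-‖w‖ ^ 2) : ℂ) ∂(om ℂ) from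
      funext fun θ => fockb_rot_int (fun w : ℂ => G w * (Real.exp (-‖w‖ ^ 2) : ℂ)) θ]
    rw [setIntegral_const]
    simp [Measure.real, Real.pi_pos.le]
  have h2 : ∀ w : ℂ, ∫ θ in Set.Ioc (0:ℝ) (2 * Real.pi),
      G (cexp (θ * I) * w) * (Real.exp (-‖cexp (θ * I) * w‖ ^ 2) : ℂ) =
      (2 * Real.pi : ℝ) • (G 0 * (Real.exp (-‖w‖ ^ 2) : ℂ)) := by
    intro w
    have hm := circleAverage_entire hG 0 w
    unfold Real.circleAverage at hm
    rw [intervalIntegral.integral_of_le (by positivity)] at hm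
    have h3 : ∀ θ : ℝ, G (cexp (θ * I) * w) * (Real.exp (-‖cexp (θ * I) * w‖ ^ 2) : ℂ) =
        G (0 + circleMap 0 1 θ • w) * (Real.exp (-‖w‖ ^ 2) : ℂ) := by
      intro θ
      simp only [circleMap, zero_add, ofReal_one, one_mul, smul_eq_mul]
      rw [norm_mul, hrot, one_mul]
    simp_rw [h3]
    rw [integral_mul_const]
    have hpi : (2 * Real.pi) ≠ 0 := by positivity
    rw [← hm]
    have hpi' : ((Real.pi : ℝ) : ℂ) ≠ 0 := by exact_mod_cast Real.pi_pos.ne'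
    simp only [Complex.real_smul]
    push_cast
    field_simp
  rw [h1] at hswap
  simp_rw [h2] at hswap
  rw [integral_smul, integral_const_mul] at hswap
  have hpi : (2 * Real.pi) ≠ 0 := by positivity
  have h4 := smul_right_injective ℂ hpi hswap
  rw [h4, integral_complex_ofReal, integral_gauss]
  simp

/-- Bargmann's reproducing formula. -/
theorem bargmann {k : ℂ → ℂ} (hk : Differentiable ℂ k)
    (hi : Integrable (fun ζ => ‖k ζ‖ ^ 2 * Real.exp (-‖ζ‖ ^ 2)) (om ℂ)) (η : ℂ) :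
    k η = ∫ ζ, k ζ * conj (cexp (ζ * conj η)) * (Real.exp (-‖ζ‖ ^ 2) : ℂ) ∂(om ℂ) := by
  set G : ℂ → ℂ := fun w => k (η + w) * cexp (-(w * conj η)) with hG
  have hGd : Differentiable ℂ G := by
    rw [hG]
    exact (hk.comp (by fun_prop)).mul (by fun_prop)
  have hnorm : ∀ w : ℂ, ‖η + w‖ ^ 2 = ‖η‖ ^ 2 + 2 * (w * conj η).re + ‖w‖ ^ 2 := by
    intro w
    rw [← Complex.normSq_eq_norm_sq, ← Complex.normSq_eq_norm_sq, ← Complex.normSq_eq_norm_sq]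
    simp only [Complex.normSq_apply, Complex.mul_re, Complex.conj_re, Complex.conj_im,
      Complex.add_re, Complex.add_im]
    ring
  have hkey : ∀ w : ℂ, k (η + w) * conj (cexp ((η + w) * conj η)) *
      (Real.exp (-‖η + w‖ ^ 2) : ℂ) = G w * (Real.exp (-‖w‖ ^ 2) : ℂ) := by
    intro w
    have hz : ∀ z : ℂ, ((‖z‖ ^ 2 : ℝ) : ℂ) = z * conj z := fun z => by
      rw [Complex.mul_conj, Complex.normSq_eq_norm_sq]
    simp only [hG]
    rw [← Complex.exp_conj, Complex.ofReal_exp, Complex.ofReal_exp, mul_assoc, mul_assoc,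
      ← Complex.exp_add, ← Complex.exp_add]
    congr 2
    push_cast
    have h1 := hz (η + w)
    have h2 := hz w
    push_cast at h1 h2
    rw [h1, h2]
    simp only [map_mul, map_add, Complex.conj_conj]
    ring
  have hGi : Integrable (fun w : ℂ => G w * (Real.exp (-‖w‖ ^ 2) : ℂ)) (om ℂ) := by
    have hi2 : Integrable (fun w => ‖k (η + w)‖ ^ 2 * Real.exp (-‖η + w‖ ^ 2)) (om ℂ) :=
      hi.comp_add_left η
    have hg0 : Integrable (fun z : ℂ => Real.exp (-‖z‖ ^ 2)) (om ℂ) := integrable_gauss0 ℂ (om ℂ)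
    refine ((hi2.add hg0).const_mul (Real.exp (‖η‖ ^ 2 / 2))).mono' ?_
      (Filter.Eventually.of_forall fun w => ?_)
    · have := hGd.continuous
      exact (by fun_prop : Continuous fun w : ℂ => G w * (Real.exp (-‖w‖ ^ 2) : ℂ)).aestronglyMeasurable
    · simp only [hG, norm_mul, Complex.norm_exp, Complex.norm_real, Real.norm_eq_abs,
        Real.abs_exp, Pi.add_apply]
      have hn := hnorm w
      set a := ‖k (η + w)‖
      have ha : 0 ≤ a := norm_nonneg _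
      set u := Real.exp (-‖η + w‖ ^ 2 / 2)
      set v := Real.exp (-‖w‖ ^ 2 / 2)
      have hu : Real.exp (-‖η + w‖ ^ 2) = u ^ 2 := by
        rw [← Real.exp_nat_mul]; congr 1; push_cast; ring
      have hv : Real.exp (-‖w‖ ^ 2) = v ^ 2 := by
        rw [← Real.exp_nat_mul]; congr 1; push_cast; ring
      have hr : Real.exp (-(w * conj η)).re * Real.exp (-‖w‖ ^ 2) =
          Real.exp (‖η‖ ^ 2 / 2) * (u * v) := by
        rw [← Real.exp_add, ← Real.exp_add, ← Real.exp_add]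
        congr 1
        rw [Complex.neg_re]
        linarith
      rw [mul_assoc, hr, hu, hv]
      have he := Real.exp_pos (‖η‖ ^ 2 / 2)
      have : a * (u * v) ≤ a ^ 2 * u ^ 2 + v ^ 2 := by nlinarith [sq_nonneg (a * u - v), sq_nonneg (a*u), sq_nonneg v]
      calc a * (Real.exp (‖η‖ ^ 2 / 2) * (u * v)) = Real.exp (‖η‖ ^ 2 / 2) * (a * (u * v)) := by ring
        _ ≤ _ := by gcongr
  rw [← integral_add_left_eq_self _ η]
  simp_rw [hkey]
  rw [fockb_mean hGd hGi]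
  simp [hG]

/-- bounds for the regularised function on vertical lines. -/
theorem fockb_Kbound {k : ℂ → ℂ} {C : ℝ} (hC : 0 ≤ C)
    (hb : ∀ ζ : ℂ, ‖k ζ‖ ^ 2 ≤ C * Real.exp (‖ζ‖ ^ 2 - 2 * (max 0 ζ.re) ^ 2)) (x y : ℝ) :
    ‖k (x + y * I) * cexp ((x + y * I) ^ 2 / 2)‖ ≤
      Real.sqrt C * Real.exp (x ^ 2 - (max 0 x) ^ 2) := by
  have h := hb (x + y * I)
  have hre : ((x : ℂ) + y * I).re = x := by simp
  have hn : ‖(x : ℂ) + y * I‖ ^ 2 = x ^ 2 + y ^ 2 := by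
    rw [← Complex.normSq_eq_norm_sq, Complex.normSq_apply]; simp; ring
  rw [hre, hn] at h
  rw [norm_mul, Complex.norm_exp]
  have hre2 : (((x : ℂ) + y * I) ^ 2 / 2).re = (x ^ 2 - y ^ 2) / 2 := by
    have : ((x : ℂ) + y * I) ^ 2 / 2 = (((x ^ 2 - y ^ 2) / 2 : ℝ) : ℂ) + ((x * y : ℝ) : ℂ) * I := by
      push_cast
      linear_combination (y : ℂ) ^ 2 / 2 * I_sq
    rw [this, Complex.add_re, Complex.ofReal_re, Complex.re_ofReal_mul, Complex.I_re]
    ring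
  rw [hre2]
  refine abs_le_of_sq_le_sq' ?_ (by positivity) |>.2
  rw [mul_pow, mul_pow, Real.sq_sqrt hC, ← Real.exp_nat_mul, ← Real.exp_nat_mul]
  calc ‖k (x + y * I)‖ ^ 2 * Real.exp ((2 : ℕ) * ((x ^ 2 - y ^ 2) / 2))
      ≤ (C * Real.exp (x ^ 2 + y ^ 2 - 2 * (max 0 x) ^ 2)) *
        Real.exp ((2 : ℕ) * ((x ^ 2 - y ^ 2) / 2)) := by gcongr
    _ = C * Real.exp ((2 : ℕ) * (x ^ 2 - (max 0 x) ^ 2)) := by
        rw [mul_assoc, ← Real.exp_add]; congr 2; push_cast; ring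

/-- the bound function. -/
noncomputable def fbB (C C₁ ε t : ℝ) (x : ℝ) : ℝ :=
  Real.sqrt C * Real.exp (x ^ 2 - (max 0 x) ^ 2) * (C₁ * (1 + Real.exp (-(ε * x))) ^ 2) *
    Real.exp (-(t * x))

theorem fbB_cont (C C₁ ε t : ℝ) : Continuous (fbB C C₁ ε t) := by
  unfold fbB
  fun_prop

theorem fbB_tendsto (C C₁ : ℝ) {ε t : ℝ} (hε : 0 < ε) (ht : 0 < t) :
    Tendsto (fbB C C₁ ε t) atTop (𝓝 0) := by
  have h1 : Tendsto (fun x : ℝ => Real.exp (-(ε * x))) atTop (𝓝 0) :=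
    Real.tendsto_exp_neg_atTop_nhds_zero.comp (tendsto_id.const_mul_atTop hε)
  have h2 : Tendsto (fun x : ℝ => Real.exp (-(t * x))) atTop (𝓝 0) :=
    Real.tendsto_exp_neg_atTop_nhds_zero.comp (tendsto_id.const_mul_atTop ht)
  have h3 : Tendsto (fun x : ℝ => Real.sqrt C * 1 * (C₁ * (1 + Real.exp (-(ε * x))) ^ 2) *
      Real.exp (-(t * x))) atTop (𝓝 (Real.sqrt C * 1 * (C₁ * (1 + 0) ^ 2) * 0)) :=
    ((((h1.const_add 1).pow 2).const_mul C₁).const_mul _).mul h2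
  rw [mul_zero] at h3
  refine h3.congr' ?_
  filter_upwards [eventually_ge_atTop (0:ℝ)] with x hx
  unfold fbB
  rw [max_eq_right hx, sub_self, Real.exp_zero]

/-- for fixed `x`, the vertical integral against `M0` vanishes after regularisation. -/
theorem fockb_step1 {k : ℂ → ℂ} (hk : Differentiable ℂ k) {C : ℝ} (hC : 0 ≤ C)
    (hb : ∀ ζ : ℂ, ‖k ζ‖ ^ 2 ≤ C * Real.exp (‖ζ‖ ^ 2 - 2 * (max 0 ζ.re) ^ 2))
    {ε : ℝ} (hε : 0 < ε) (η : ℂ) (x : ℝ) :
    ∫ y : ℝ, fbH (ε * (x + y * I)) ^ 2 * (k (x + y * I) * conj (M0 (x + y * I) η) *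
      (Real.exp (-‖(x : ℂ) + y * I‖ ^ 2) : ℂ)) = 0 := by
  obtain ⟨C₁, hC₁, hH⟩ := fbH_bound
  set K : ℂ → ℂ := fun ζ => k ζ * cexp (ζ ^ 2 / 2) * fbH (ε * ζ) ^ 2 with hK
  have hKd : Differentiable ℂ K := by
    rw [hK]
    have h1 : Differentiable ℂ (fun ζ : ℂ => fbH (ε * ζ)) := fbH_diff.comp (by fun_prop)
    exact (hk.mul (by fun_prop)).mul (h1.pow 2)
  have hKb : ∀ x y : ℝ, ‖K (x + y * I)‖ ≤
      Real.sqrt C * Real.exp (x ^ 2 - (max 0 x) ^ 2) * (C₁ * (1 + Real.exp (-(ε * x))) ^ 2) *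
        (1 + ε ^ 2 * y ^ 2)⁻¹ := by
    intro x y
    simp only [hK]
    rw [norm_mul, norm_pow]
    have h1 := fockb_Kbound hC hb x y
    have h2 := hH (ε * (x + y * I))
    have hre : ((ε : ℂ) * (x + y * I)).re = ε * x := by simp
    rw [hre] at h2
    have hn : ‖(ε : ℂ) * (x + y * I)‖ ^ 2 = ε ^ 2 * (x ^ 2 + y ^ 2) := by
      rw [← Complex.normSq_eq_norm_sq, Complex.normSq_apply]; simp; ring
    rw [hn] at h2
    have h3 : (1 + ε ^ 2 * (x ^ 2 + y ^ 2))⁻¹ ≤ (1 + ε ^ 2 * y ^ 2)⁻¹ := by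
      apply inv_anti₀ (by positivity)
      nlinarith [mul_nonneg (sq_nonneg ε) (sq_nonneg x)]
    calc _ ≤ (Real.sqrt C * Real.exp (x ^ 2 - (max 0 x) ^ 2)) *
          (C₁ * (1 + Real.exp (-(ε * x))) ^ 2 * (1 + ε ^ 2 * (x ^ 2 + y ^ 2))⁻¹) := by gcongr
      _ ≤ (Real.sqrt C * Real.exp (x ^ 2 - (max 0 x) ^ 2)) *
          (C₁ * (1 + Real.exp (-(ε * x))) ^ 2 * (1 + ε ^ 2 * y ^ 2)⁻¹) := by gcongr
      _ = _ := by ring
  -- vertical integrals vanish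
  have hJ : ∀ t : ℝ, 0 < t → ∀ x : ℝ, ∫ y : ℝ, K (x + y * I) * cexp (-(t * (x + y * I))) = 0 := by
    intro t ht x
    refine fockb_vertical (Φ := fun ζ => K ζ * cexp (-(t * ζ))) (hKd.mul (by fun_prop))
      (fbB_cont C C₁ ε t) (fbB_tendsto C C₁ hε ht) hε (fun x y => ?_) x
    rw [norm_mul, Complex.norm_exp]
    have hre : (-((t : ℂ) * (x + y * I))).re = -(t * x) := by simp
    rw [hre]
    unfold fbB
    calc _ ≤ (Real.sqrt C * Real.exp (x ^ 2 - (max 0 x) ^ 2) *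
          (C₁ * (1 + Real.exp (-(ε * x))) ^ 2) * (1 + ε ^ 2 * y ^ 2)⁻¹) * Real.exp (-(t * x)) := by
          gcongr; exact hKb x y
      _ = _ := by ring
  -- the constant
  set c : ℂ := ((Real.sqrt (2 * Real.pi))⁻¹ : ℝ) * cexp (-η ^ 2 / 2) *
    cexp (-(2 * (x : ℂ) ^ 2)) with hc
  have hconj : ∀ y : ℝ, conj ((x : ℂ) + y * I) = x - y * I := fun y => by simp [sub_eq_add_neg]
  have hpt : ∀ y : ℝ, fbH (ε * (x + y * I)) ^ 2 * (k (x + y * I) * conj (M0 (x + y * I) η) *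
      (Real.exp (-‖(x : ℂ) + y * I‖ ^ 2) : ℂ)) =
      c * ∫ t in Set.Ioi (0:ℝ), K (x + y * I) * cexp (t * ((x - y * I) + η) - t ^ 2 / 2) := by
    intro y
    rw [integral_const_mul]
    unfold M0
    rw [map_mul, map_mul, ← integral_conj]
    have h1 : (fun t : ℝ => conj (cexp (t * (x + y * I + conj η) - t ^ 2 / 2))) =
        fun t : ℝ => cexp (t * ((x - y * I) + η) - t ^ 2 / 2) := by
      funext t
      rw [← Complex.exp_conj]
      congr 1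
      simp only [map_sub, map_mul, map_add, map_div₀, map_pow, Complex.conj_ofReal, Complex.conj_I,
        Complex.conj_conj, map_ofNat]
      ring
    rw [h1]
    have h2 : ((‖(x : ℂ) + y * I‖ ^ 2 : ℝ) : ℂ) = (x : ℂ) ^ 2 + (y : ℂ) ^ 2 := by
      rw [← Complex.normSq_eq_norm_sq, Complex.normSq_apply]
      simp; ring
    have h3 : (Real.exp (-‖(x : ℂ) + y * I‖ ^ 2) : ℂ) = cexp (-((x : ℂ) ^ 2 + (y : ℂ) ^ 2)) := by
      rw [Complex.ofReal_exp, Complex.ofReal_neg, h2]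
    rw [h3, Complex.conj_ofReal, ← Complex.exp_conj]
    have h4 : conj (-((x : ℂ) + y * I) ^ 2 / 2 - (conj η) ^ 2 / 2) =
        -((x : ℂ) - y * I) ^ 2 / 2 - η ^ 2 / 2 := by
      simp only [map_sub, map_div₀, map_neg, map_pow, map_ofNat, Complex.conj_conj, hconj]
    rw [h4]
    simp only [hc, hK]
    have h5 : cexp (-((x : ℂ) - y * I) ^ 2 / 2 - η ^ 2 / 2) * cexp (-((x : ℂ) ^ 2 + (y : ℂ) ^ 2)) =
        cexp (-η ^ 2 / 2) * cexp (-(2 * (x : ℂ) ^ 2)) * cexp (((x : ℂ) + y * I) ^ 2 / 2) := by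
      rw [← Complex.exp_add, ← Complex.exp_add, ← Complex.exp_add]
      congr 1
      linear_combination (-(y : ℂ) ^ 2) * I_sq
    linear_combination (fbH (ε * (x + y * I)) ^ 2 * k (x + y * I) *
      (((Real.sqrt (2 * Real.pi))⁻¹ : ℝ) : ℂ) *
      (∫ t in Set.Ioi (0:ℝ), cexp (t * ((x - y * I) + η) - t ^ 2 / 2))) * h5
  simp_rw [hpt]
  rw [integral_const_mul]
  have hfub : ∫ y : ℝ, (∫ t in Set.Ioi (0:ℝ), K (x + y * I) *
      cexp (t * ((x - y * I) + η) - t ^ 2 / 2)) =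
      ∫ t in Set.Ioi (0:ℝ), (∫ y : ℝ, K (x + y * I) *
        cexp (t * ((x - y * I) + η) - t ^ 2 / 2)) := by
    refine integral_integral_swap (f := fun (y t : ℝ) => K (x + y * I) *
      cexp (t * ((x - y * I) + η) - t ^ 2 / 2)) ?_
    have hcont : Continuous (Function.uncurry fun (y t : ℝ) => K (x + y * I) *
        cexp (t * ((x - y * I) + η) - t ^ 2 / 2)) := by
      have := hKd.continuous
      fun_prop
    have hi1 : Integrable (fun y : ℝ => ‖K (x + y * I)‖) := by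
      have := hKd.continuous
      refine ((fockb_int_lor hε).const_mul (Real.sqrt C * Real.exp (x ^ 2 - (max 0 x) ^ 2) *
        (C₁ * (1 + Real.exp (-(ε * x))) ^ 2))).mono'
        (by fun_prop : Continuous fun y : ℝ => ‖K (x + y * I)‖).aestronglyMeasurable
        (Filter.Eventually.of_forall fun y => ?_)
      rw [norm_norm]
      exact hKb x y
    have hi2 : Integrable (fun t : ℝ => Real.exp (t * (x + η.re) - t ^ 2 / 2))
        (volume.restrict (Set.Ioi (0:ℝ))) := (integral_exp_half (x + η.re)).1.integrableOn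
    refine (hi1.mul_prod hi2).mono' hcont.aestronglyMeasurable
      (Filter.Eventually.of_forall fun p => ?_)
    obtain ⟨y, t⟩ := p
    simp only [Function.uncurry]
    rw [norm_mul, Complex.norm_exp]
    have hre : ((t : ℂ) * ((x - y * I) + η) - (t : ℂ) ^ 2 / 2).re = t * (x + η.re) - t ^ 2 / 2 := by
      have : ((t : ℂ) ^ 2 / 2) = ((t ^ 2 / 2 : ℝ) : ℂ) := by push_cast; ring
      rw [this, Complex.sub_re, Complex.ofReal_re, Complex.re_ofReal_mul]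
      simp
    rw [hre]
  rw [hfub]
  have hzero : ∀ t ∈ Set.Ioi (0:ℝ), (∫ y : ℝ, K (x + y * I) *
        cexp (t * ((x - y * I) + η) - t ^ 2 / 2)) = 0 := by
    intro t ht
    have h1 : ∀ y : ℝ, K (x + y * I) * cexp (t * ((x - y * I) + η) - t ^ 2 / 2) =
        cexp (2 * t * x + t * η - t ^ 2 / 2) * (K (x + y * I) * cexp (-(t * (x + y * I)))) := by
      intro y
      have : cexp (t * ((x - y * I) + η) - t ^ 2 / 2) =
          cexp (2 * t * x + t * η - t ^ 2 / 2) * cexp (-(t * (x + y * I))) := by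
        rw [← Complex.exp_add]; congr 1; ring
      rw [this]; ring
    simp_rw [h1]
    rw [integral_const_mul, hJ t ht x, mul_zero]
  rw [setIntegral_congr_fun measurableSet_Ioi hzero]
  simp

theorem fockb_exists_C {k : ℂ → ℂ} {C : ℝ}
    (hb : ∀ ζ : ℂ, ‖k ζ‖ ^ 2 ≤ C * Real.exp (‖ζ‖ ^ 2 - 2 * (max 0 ζ.re) ^ 2)) : 0 ≤ C := by
  have h := hb 0
  have : (0:ℝ) ≤ C * Real.exp (‖(0:ℂ)‖ ^ 2 - 2 * (max 0 (0:ℂ).re) ^ 2) :=
    (sq_nonneg _).trans h
  simpa using this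

/-- integrability of products from the two `L²` bounds. -/
theorem fockb_mul_integrable {f g : ℂ → ℂ} (hf : Continuous f) (hg : Continuous g)
    (hfi : Integrable (fun ζ => ‖f ζ‖ ^ 2 * Real.exp (-‖ζ‖ ^ 2)) (om ℂ))
    (hgi : Integrable (fun ζ => ‖g ζ‖ ^ 2 * Real.exp (-‖ζ‖ ^ 2)) (om ℂ)) :
    Integrable (fun ζ => f ζ * conj (g ζ) * (Real.exp (-‖ζ‖ ^ 2) : ℂ)) (om ℂ) := by
  refine (hfi.add hgi).mono' ?_ (Filter.Eventually.of_forall fun ζ => ?_)
  · have hc : Continuous (fun ζ => conj (g ζ)) := Complex.continuous_conj.comp hg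
    exact (by fun_prop : Continuous fun ζ : ℂ =>
      f ζ * conj (g ζ) * (Real.exp (-‖ζ‖ ^ 2) : ℂ)).aestronglyMeasurable
  · simp only [norm_mul, RCLike.norm_conj, Complex.norm_real, Real.norm_eq_abs, Real.abs_exp,
      Pi.add_apply]
    rw [← add_mul]
    gcongr
    nlinarith [sq_nonneg (‖f ζ‖ - ‖g ζ‖), norm_nonneg (f ζ), norm_nonneg (g ζ),
      sq_nonneg (‖f ζ‖), sq_nonneg (‖g ζ‖)]

theorem fockb_M0_cont (η : ℂ) : Continuous (fun ζ => M0 ζ η) := (M0_differentiable η).continuous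

/-- Orthogonality to `M0(·,η)`. -/
theorem orth_M0 {k : ℂ → ℂ} (hk : Differentiable ℂ k) {C : ℝ}
    (hb : ∀ ζ : ℂ, ‖k ζ‖ ^ 2 ≤ C * Real.exp (‖ζ‖ ^ 2 - 2 * (max 0 ζ.re) ^ 2))
    (hi : Integrable (fun ζ => ‖k ζ‖ ^ 2 * Real.exp (-‖ζ‖ ^ 2)) (om ℂ)) (η : ℂ) :
    ∫ ζ, k ζ * conj (M0 ζ η) * (Real.exp (-‖ζ‖ ^ 2) : ℂ) ∂(om ℂ) = 0 := by
  have hC : 0 ≤ C := fockb_exists_C hb
  obtain ⟨C₁, hC₁, hH⟩ := fbH_bound
  have hI := fockb_mul_integrable hk.continuous (fockb_M0_cont η) hi (M0_L2 η)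
  rw [integral_om_complex hI]
  have hI2 := (integrable_om_complex (f := fun ζ => k ζ * conj (M0 ζ η) *
    (Real.exp (-‖ζ‖ ^ 2) : ℂ))).1 hI
  have hae := hI2.prod_right_ae
  have hz : ∀ᵐ x : ℝ, ∫ y : ℝ, k (x + y * I) * conj (M0 (x + y * I) η) *
      (Real.exp (-‖(x : ℂ) + y * I‖ ^ 2) : ℂ) = 0 := by
    filter_upwards [hae] with x hx

    set F : ℝ → ℂ := fun y => k (x + y * I) * conj (M0 (x + y * I) η) *
      (Real.exp (-‖(x : ℂ) + y * I‖ ^ 2) : ℂ) with hF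
    -- the regularised integrals vanish
    have hlim : Tendsto (fun n : ℕ => ∫ y : ℝ, fbH (((1 / ((n : ℝ) + 1) : ℝ) : ℂ) *
        (x + y * I)) ^ 2 * F y) atTop (𝓝 (∫ y : ℝ, F y)) := by
      refine tendsto_integral_of_dominated_convergence
        (fun y => (C₁ * (1 + Real.exp |x|) ^ 2) * ‖F y‖) (fun n => ?_) (hx.norm.const_mul _)
        (fun n => Filter.Eventually.of_forall fun y => ?_)
        (Filter.Eventually.of_forall fun y => ?_)
      · refine AEStronglyMeasurable.mul ?_ hx.aestronglyMeasurable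
        have := fbH_diff.continuous
        exact (by fun_prop : Continuous fun y : ℝ => fbH (((1 / ((n : ℝ) + 1) : ℝ) : ℂ) *
          (x + y * I)) ^ 2).aestronglyMeasurable
      · rw [norm_mul, norm_pow]
        gcongr
        set ε : ℝ := 1 / ((n : ℝ) + 1) with hε
        have hε0 : 0 < ε := by positivity
        have hε1 : ε ≤ 1 := by
          rw [hε, div_le_one (by positivity)]
          linarith [Nat.cast_nonneg (α := ℝ) n]
        refine (hH _).trans ?_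
        have hre : ((ε : ℂ) * (x + y * I)).re = ε * x := by simp
        rw [hre]
        have h1 : (1 + ‖(ε : ℂ) * (x + y * I)‖ ^ 2)⁻¹ ≤ 1 := by
          apply inv_le_one_of_one_le₀
          nlinarith [sq_nonneg ‖(ε : ℂ) * (x + y * I)‖]
        have h2 : Real.exp (-(ε * x)) ≤ Real.exp |x| := by
          apply Real.exp_le_exp.2
          calc -(ε * x) ≤ |ε * x| := neg_le_abs _
            _ = ε * |x| := by rw [abs_mul, abs_of_pos hε0]
            _ ≤ 1 * |x| := by gcongr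
            _ = |x| := one_mul _
        calc C₁ * (1 + Real.exp (-(ε * x))) ^ 2 * (1 + ‖(ε : ℂ) * (x + y * I)‖ ^ 2)⁻¹
            ≤ C₁ * (1 + Real.exp (-(ε * x))) ^ 2 * 1 := by gcongr
          _ ≤ C₁ * (1 + Real.exp |x|) ^ 2 := by rw [mul_one]; gcongr
      · have h0 : Tendsto (fun n : ℕ => ((1 / ((n : ℝ) + 1) : ℝ) : ℂ) * ((x : ℂ) + y * I)) atTop
            (𝓝 0) := by
          have h1 : Tendsto (fun n : ℕ => ((1 / ((n : ℝ) + 1) : ℝ) : ℂ)) atTop (𝓝 ((0 : ℝ) : ℂ)) :=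
            (Complex.continuous_ofReal.tendsto 0).comp tendsto_one_div_add_atTop_nhds_zero_nat
          have h2 := h1.mul_const ((x : ℂ) + y * I)
          simpa using h2
        have h3 := ((fbH_diff.continuous.tendsto 0).comp h0).pow 2
        rw [fbH_zero] at h3
        have h4 := h3.mul_const (F y)
        simpa using h4
    have hzero : (fun n : ℕ => ∫ y : ℝ, fbH (((1 / ((n : ℝ) + 1) : ℝ) : ℂ) *
        (x + y * I)) ^ 2 * F y) = fun _ => 0 := by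
      funext n
      exact fockb_step1 hk hC hb (by positivity) η x
    rw [hzero] at hlim
    exact (tendsto_nhds_unique hlim tendsto_const_nhds)
  rw [integral_eq_zero_of_ae (f := fun x : ℝ => ∫ y : ℝ, k (x + y * I) *
    conj (M0 (x + y * I) η) * (Real.exp (-‖(x : ℂ) + y * I‖ ^ 2) : ℂ)) hz, smul_zero]

theorem fockb_L0_L2 (η : ℂ) :
    Integrable (fun ζ => ‖L0 ζ η‖ ^ 2 * Real.exp (-‖ζ‖ ^ 2)) (om ℂ) := by
  refine (L0_L2 η).mono' ?_ (Filter.Eventually.of_forall fun ζ => ?_)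
  · have := (L0_differentiable η).continuous
    exact (by fun_prop : Continuous fun ζ : ℂ => ‖L0 ζ η‖ ^ 2 *
      Real.exp (-‖ζ‖ ^ 2)).aestronglyMeasurable
  · have h0 : 0 ≤ ‖L0 ζ η‖ ^ 2 * Real.exp (-‖ζ‖ ^ 2) := by positivity
    rw [Real.norm_of_nonneg h0]
    have := Real.exp_pos (-2 * ζ.re)
    nlinarith [mul_nonneg this.le h0]

/-- Reproducing property of `L0`. -/
theorem repr_L0 {k : ℂ → ℂ} (hk : Differentiable ℂ k) {C : ℝ}
    (hb : ∀ ζ : ℂ, ‖k ζ‖ ^ 2 ≤ C * Real.exp (‖ζ‖ ^ 2 - 2 * (max 0 ζ.re) ^ 2))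
    (hi : Integrable (fun ζ => ‖k ζ‖ ^ 2 * Real.exp (-‖ζ‖ ^ 2)) (om ℂ)) (η : ℂ) :
    k η = ∫ ζ, k ζ * conj (L0 ζ η) * (Real.exp (-‖ζ‖ ^ 2) : ℂ) ∂(om ℂ) := by
  have h1 := fockb_mul_integrable hk.continuous (L0_differentiable η).continuous hi (fockb_L0_L2 η)
  have h2 := fockb_mul_integrable hk.continuous (fockb_M0_cont η) hi (M0_L2 η)
  have h3 := bargmann hk hi η
  rw [h3]
  have h4 : ∀ ζ : ℂ, k ζ * conj (cexp (ζ * conj η)) * (Real.exp (-‖ζ‖ ^ 2) : ℂ) =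
      k ζ * conj (L0 ζ η) * (Real.exp (-‖ζ‖ ^ 2) : ℂ) +
      k ζ * conj (M0 ζ η) * (Real.exp (-‖ζ‖ ^ 2) : ℂ) := by
    intro ζ
    rw [← L0_add_M0, map_add]
    ring
  simp_rw [h4]
  rw [integral_add h1 h2, orth_M0 hk hb hi η, add_zero]

/-- `L0(η,η) = ∫|L0(ζ,η)|²e^{-|ζ|²}`. -/
theorem L0_self (η : ℂ) :
    L0 η η = ((∫ ζ, ‖L0 ζ η‖ ^ 2 * Real.exp (-‖ζ‖ ^ 2) ∂(om ℂ) : ℝ) : ℂ) := by
  obtain ⟨C, hC⟩ := L0_growth η
  have h := repr_L0 (L0_differentiable η) hC (fockb_L0_L2 η) η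
  rw [h, ← integral_complex_ofReal]
  refine integral_congr_ae (Filter.Eventually.of_forall fun ζ => ?_)
  simp only [Complex.ofReal_mul]
  rw [Complex.mul_conj, Complex.normSq_eq_norm_sq]

theorem L0_self_pos (η : ℂ) : 0 < (L0 η η).re := by
  have h : L0 η η = ((((Real.sqrt (2 * Real.pi))⁻¹ * Real.exp (-(η ^ 2).re)) *
      ∫ t in Set.Iic (0:ℝ), Real.exp (t * (2 * η.re) - t ^ 2 / 2) : ℝ) : ℂ) := by
    unfold L0
    rw [Complex.ofReal_mul, Complex.ofReal_mul, ← integral_complex_ofReal]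
    have h1 : -η ^ 2 / 2 - (conj η) ^ 2 / 2 = ((-(η ^ 2).re : ℝ) : ℂ) := by
      have : (conj η) ^ 2 = conj (η ^ 2) := by rw [map_pow]
      rw [this]
      have h2 := Complex.add_conj (η ^ 2)
      push_cast at h2 ⊢
      linear_combination (-1 / 2 : ℂ) * h2
    have h3 : η + conj η = ((2 * η.re : ℝ) : ℂ) := by
      rw [Complex.add_conj]
    rw [h1, h3, Complex.ofReal_exp]
    congr 1
    refine integral_congr_ae (Filter.Eventually.of_forall fun t => ?_)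
    push_cast
    rfl
  rw [h, Complex.ofReal_re]
  have hI : 0 < ∫ t in Set.Iic (0:ℝ), Real.exp (t * (2 * η.re) - t ^ 2 / 2) := by
    rw [setIntegral_pos_iff_support_of_nonneg_ae
      (Filter.Eventually.of_forall fun t => (Real.exp_pos _).le)
      (integral_exp_half (2 * η.re)).1.integrableOn]
    have : Function.support (fun t : ℝ => Real.exp (t * (2 * η.re) - t ^ 2 / 2)) = Set.univ := by
      ext t
      simp [Real.exp_ne_zero]
    rw [this, Set.univ_inter, Real.volume_Iic]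
    exact ENNReal.coe_lt_top
  positivity

/-- Extremal property (Cauchy-Schwarz in `repr_L0`). -/
theorem L0_extremal {k : ℂ → ℂ} (hk : Differentiable ℂ k) {C : ℝ}
    (hb : ∀ ζ : ℂ, ‖k ζ‖ ^ 2 ≤ C * Real.exp (‖ζ‖ ^ 2 - 2 * (max 0 ζ.re) ^ 2))
    (hi : Integrable (fun ζ => ‖k ζ‖ ^ 2 * Real.exp (-‖ζ‖ ^ 2)) (om ℂ)) (η : ℂ) :
    ‖k η‖ ^ 2 ≤ (L0 η η).re * ∫ ζ, ‖k ζ‖ ^ 2 * Real.exp (-‖ζ‖ ^ 2) ∂(om ℂ) := by
  have hL := fockb_L0_L2 η
  set A := ∫ ζ, ‖k ζ‖ ^ 2 * Real.exp (-‖ζ‖ ^ 2) ∂(om ℂ) with hA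
  set B := (L0 η η).re with hB
  have hB' : B = ∫ ζ, ‖L0 ζ η‖ ^ 2 * Real.exp (-‖ζ‖ ^ 2) ∂(om ℂ) := by
    rw [hB, L0_self, Complex.ofReal_re]
  have hBpos : 0 < B := L0_self_pos η
  have hA0 : 0 ≤ A := integral_nonneg fun ζ => by positivity
  have h1 := fockb_mul_integrable hk.continuous (L0_differentiable η).continuous hi (fockb_L0_L2 η)
  -- for every s: 2 s |k η| ≤ A + s² B
  have hs : ∀ s : ℝ, 0 ≤ s → 2 * s * ‖k η‖ ≤ A + s ^ 2 * B := by
    intro s hs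
    have h2 : ‖k η‖ ≤ ∫ ζ, ‖k ζ * conj (L0 ζ η) * (Real.exp (-‖ζ‖ ^ 2) : ℂ)‖ ∂(om ℂ) := by
      rw [repr_L0 hk hb hi η]
      exact norm_integral_le_integral_norm _
    calc 2 * s * ‖k η‖ ≤ 2 * s * ∫ ζ, ‖k ζ * conj (L0 ζ η) *
          (Real.exp (-‖ζ‖ ^ 2) : ℂ)‖ ∂(om ℂ) := by gcongr
      _ = ∫ ζ, 2 * s * ‖k ζ * conj (L0 ζ η) * (Real.exp (-‖ζ‖ ^ 2) : ℂ)‖ ∂(om ℂ) := by
          rw [integral_const_mul]
      _ ≤ ∫ ζ, (‖k ζ‖ ^ 2 * Real.exp (-‖ζ‖ ^ 2) +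
            s ^ 2 * (‖L0 ζ η‖ ^ 2 * Real.exp (-‖ζ‖ ^ 2))) ∂(om ℂ) := by
          refine integral_mono (h1.norm.const_mul _) (hi.add (hL.const_mul _)) fun ζ => ?_
          simp only [norm_mul, RCLike.norm_conj, Complex.norm_real, Real.norm_eq_abs, Real.abs_exp]
          have he := Real.exp_pos (-‖ζ‖ ^ 2)
          have : 2 * s * (‖k ζ‖ * ‖L0 ζ η‖) ≤ ‖k ζ‖ ^ 2 + s ^ 2 * ‖L0 ζ η‖ ^ 2 := by
            nlinarith [sq_nonneg (‖k ζ‖ - s * ‖L0 ζ η‖)]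
          nlinarith [mul_le_mul_of_nonneg_right this he.le]
      _ = A + s ^ 2 * B := by
          rw [integral_add hi (hL.const_mul _), integral_const_mul, hB']
  have h3 := hs (‖k η‖ / B) (by positivity)
  have h4 : 2 * (‖k η‖ / B) * ‖k η‖ = 2 * (‖k η‖ ^ 2 / B) := by ring
  have h5 : (‖k η‖ / B) ^ 2 * B = ‖k η‖ ^ 2 / B := by field_simp
  rw [h4, h5] at h3
  have h6 : ‖k η‖ ^ 2 / B ≤ A := by linarith
  rw [div_le_iff₀ hBpos] at h6
  linarith

/-- Norms of the approximants `e^{-aζ}L0(ζ,η)` converge as `a → 0+`. -/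
theorem L0_reg_norm_tendsto (η : ℂ) :
    Tendsto (fun a : ℝ => ∫ ζ : ℂ, ‖cexp (-a * ζ) * L0 ζ η‖ ^ 2 * Real.exp (-‖ζ‖ ^ 2) ∂(om ℂ))
      (𝓝[>] 0) (𝓝 (L0 η η).re) := by
  have hL : (L0 η η).re = ∫ ζ, ‖L0 ζ η‖ ^ 2 * Real.exp (-‖ζ‖ ^ 2) ∂(om ℂ) := by
    rw [L0_self, Complex.ofReal_re]
  rw [hL]
  have hcont := (L0_differentiable η).continuous
  refine tendsto_integral_filter_of_dominated_convergence
    (fun ζ => (1 + Real.exp (-2 * ζ.re)) * (‖L0 ζ η‖ ^ 2 * Real.exp (-‖ζ‖ ^ 2))) ?_ ?_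
    (L0_L2 η) ?_
  · refine Filter.Eventually.of_forall fun a => ?_
    exact (by fun_prop : Continuous fun ζ : ℂ =>
      ‖cexp (-a * ζ) * L0 ζ η‖ ^ 2 * Real.exp (-‖ζ‖ ^ 2)).aestronglyMeasurable
  · have h1 : ∀ᶠ a : ℝ in 𝓝[>] 0, a ∈ Set.Ioc (0:ℝ) 1 := Ioc_mem_nhdsGT (by norm_num)
    filter_upwards [h1] with a ha
    refine Filter.Eventually.of_forall fun ζ => ?_
    have h0 : 0 ≤ ‖L0 ζ η‖ ^ 2 * Real.exp (-‖ζ‖ ^ 2) := by positivity
    rw [Real.norm_of_nonneg (by positivity), norm_mul, mul_pow, Complex.norm_exp, mul_assoc]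
    have hre : (-(a : ℂ) * ζ).re = -(a * ζ.re) := by simp
    rw [hre, ← Real.exp_nat_mul]
    refine mul_le_mul_of_nonneg_right ?_ h0
    push_cast
    rcases le_or_gt 0 ζ.re with hx | hx
    · have : Real.exp (2 * -(a * ζ.re)) ≤ 1 := by
        rw [Real.exp_le_one_iff]
        nlinarith [mul_nonneg ha.1.le hx]
      linarith [Real.exp_pos (-2 * ζ.re)]
    · have : Real.exp (2 * -(a * ζ.re)) ≤ Real.exp (-2 * ζ.re) := by
        apply Real.exp_le_exp.2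
        nlinarith [ha.1, ha.2]
      linarith
  · refine Filter.Eventually.of_forall fun ζ => ?_
    have hc : Continuous (fun a : ℝ => ‖cexp (-a * ζ) * L0 ζ η‖ ^ 2 * Real.exp (-‖ζ‖ ^ 2)) := by
      fun_prop
    have h := hc.tendsto 0
    simp only [Complex.ofReal_zero, neg_zero, zero_mul, Complex.exp_zero, one_mul] at h
    exact h.mono_left nhdsWithin_le_nhds

end Pool.Agent.Edge
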