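import Pool.Agent.Edge.PSHBasic

/-!
# Gaussian integrals in the direction `m`

`om ℂ` is `π^{-1} dx dy`.
-/

namespace Pool.Agent.Edge

open MeasureTheory Filter Topology Complex

open scoped ComplexConjugate

section unique

variable {E : Type*} [NormedAddCommGroup E] [InnerProductSpace ℂ E] [FiniteDimensional ℂ E]
  [MeasurableSpace E] [BorelSpace E]

/-- `om E` is determined by being Haar and having Gaussian integral one. -/
theorem om_unique (μ : Measure E) [μ.IsAddHaarMeasure]
    (h : ∫ z : E, Real.exp (-‖z‖ ^ 2) ∂μ = 1) : om E = μ := by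
  have : FiniteDimensional ℝ E := FiniteDimensional.complexToReal E
  have h1 := Measure.isAddLeftInvariant_eq_smul μ (om E)
  rw [h1, integral_smul_nnreal_measure, integral_gauss] at h
  have h2 : (μ.addHaarScalarFactor (om E) : ℝ) = 1 := by
    simpa [NNReal.smul_def] using h
  have h3 : μ.addHaarScalarFactor (om E) = 1 := by exact_mod_cast h2
  rw [h3, one_smul] at h1
  exact h1.symm

theorem lintegral_gauss :
    ∫⁻ z : E, ENNReal.ofReal (Real.exp (-‖z‖ ^ 2)) ∂(om E) = 1 := by
  rw [← ofReal_integral_eq_lintegral_ofReal (integrable_gauss0 E (om E))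
    (Filter.Eventually.of_forall fun z => (Real.exp_pos _).le), integral_gauss, ENNReal.ofReal_one]

end unique

theorem om_complex : om ℂ = ENNReal.ofReal (Real.pi⁻¹) • (volume : Measure ℂ) := by
  have hpi : ENNReal.ofReal (Real.pi⁻¹) ≠ 0 := by
    simp [Real.pi_pos]
  have : (ENNReal.ofReal (Real.pi⁻¹) • (volume : Measure ℂ)).IsAddHaarMeasure :=
    Measure.IsAddHaarMeasure.smul _ hpi ENNReal.ofReal_ne_top
  apply om_unique
  rw [integral_smul_measure]
  have h := Complex.integral_exp_neg_rpow (p := 2) (by norm_num)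
  have h2 : ∫ z : ℂ, Real.exp (-‖z‖ ^ 2) = Real.pi := by
    have h3 : ∀ z : ℂ, Real.exp (-‖z‖ ^ 2) = Real.exp (-‖z‖ ^ (2 : ℝ)) := by
      intro z
      rw [Real.rpow_two]
    simp_rw [h3, h]
    norm_num [Real.Gamma_two]
  rw [h2, ENNReal.toReal_ofReal (by positivity), smul_eq_mul, inv_mul_cancel₀ Real.pi_ne_zero]

/-- integrability on `ℂ` in terms of the real coordinates. -/
theorem integrable_om_complex {G : Type*} [NormedAddCommGroup G] {f : ℂ → G} :
    Integrable f (om ℂ) ↔ Integrable (fun p : ℝ × ℝ => f (p.1 + p.2 * I))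
      ((volume : Measure ℝ).prod volume) := by
  rw [om_complex, integrable_smul_measure (by simp [Real.pi_pos]) ENNReal.ofReal_ne_top]
  rw [← (Complex.volume_preserving_equiv_real_prod.symm).integrable_comp_emb
    Complex.measurableEquivRealProd.symm.measurableEmbedding]
  have : (f ∘ ⇑Complex.measurableEquivRealProd.symm) = fun p : ℝ × ℝ => f (p.1 + p.2 * I) := by
    funext p
    simp only [Function.comp_apply]
    congr 1
    apply Complex.ext <;> simp [Complex.measurableEquivRealProd]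
  rw [this]
  rfl

/-- integration in coordinates. -/
theorem integral_om_complex {G : Type*} [NormedAddCommGroup G] [NormedSpace ℝ G] {f : ℂ → G}
    (hf : Integrable f (om ℂ)) :
    ∫ z, f z ∂(om ℂ) = (Real.pi⁻¹ : ℝ) • ∫ x : ℝ, ∫ y : ℝ, f (x + y * I) := by
  have h1 := integrable_om_complex.mp hf
  rw [om_complex, integral_smul_measure, ENNReal.toReal_ofReal (by positivity)]
  congr 1
  have h2 := integral_prod _ h1
  rw [← h2]
  rw [← (Complex.volume_preserving_equiv_real_prod.symm).integral_comp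
    Complex.measurableEquivRealProd.symm.measurableEmbedding]
  have : ∀ p : ℝ × ℝ, f (Complex.measurableEquivRealProd.symm p) = f (p.1 + p.2 * I) := by
    intro p
    congr 1
    apply Complex.ext <;> simp [Complex.measurableEquivRealProd]
  simp_rw [this]
  rfl

variable {E : Type*} [NormedAddCommGroup E] [InnerProductSpace ℂ E] [FiniteDimensional ℂ E]
  [MeasurableSpace E] [BorelSpace E]

/-- the orthogonal complement of the line `ℂ m` -/
noncomputable abbrev Perp (m : E) : Submodule ℂ E := (Submodule.span ℂ {m})ᗮ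

omit [FiniteDimensional ℂ E] [MeasurableSpace E] [BorelSpace E] in
theorem mem_perp {m w : E} : w ∈ Perp m ↔ inner ℂ m w = 0 := by
  rw [Submodule.mem_orthogonal_singleton_iff_inner_right]

/-- the decomposition `E = ℂ m ⊕ m^⊥` -/
noncomputable def splitL {m : E} (hm : ‖m‖ = 1) : (ℂ × Perp m) ≃ₗ[ℂ] E where
  toFun p := p.1 • m + (p.2 : E)
  map_add' p q := by
    simp only [Prod.fst_add, Prod.snd_add, Submodule.coe_add, add_smul]
    abel
  map_smul' c p := by
    simp only [Prod.smul_fst, Prod.smul_snd, smul_eq_mul, Submodule.coe_smul, RingHom.id_apply,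
      smul_add, mul_smul]
  invFun ζ := (inner ℂ m ζ, ⟨ζ - (inner ℂ m ζ : ℂ) • m, by
    rw [mem_perp, inner_sub_right, inner_smul_right, inner_self_eq_norm_sq_to_K, hm]
    simp⟩)
  left_inv p := by
    have h1 : inner ℂ m (p.1 • m + (p.2 : E)) = p.1 := by
      rw [inner_add_right, inner_smul_right, inner_self_eq_norm_sq_to_K, hm,
        mem_perp.mp p.2.2]
      simp
    apply Prod.ext
    · exact h1
    · apply Subtype.ext
      simp only [h1]
      abel
  right_inv ζ := by
    simp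

noncomputable def splitC {m : E} (hm : ‖m‖ = 1) : (ℂ × Perp m) ≃L[ℂ] E :=
  (splitL hm).toContinuousLinearEquiv

theorem splitC_apply {m : E} (hm : ‖m‖ = 1) (p : ℂ × Perp m) :
    splitC hm p = p.1 • m + (p.2 : E) := rfl

theorem inner_splitC {m : E} (hm : ‖m‖ = 1) (p : ℂ × Perp m) :
    inner ℂ m (splitC hm p) = p.1 := by
  rw [splitC_apply, inner_add_right, inner_smul_right, inner_self_eq_norm_sq_to_K, hm,
    mem_perp.mp p.2.2]
  simp

theorem norm_splitC {m : E} (hm : ‖m‖ = 1) (p : ℂ × Perp m) :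
    ‖splitC hm p‖ ^ 2 = ‖p.1‖ ^ 2 + ‖p.2‖ ^ 2 := by
  have h0 : ‖p.2‖ = ‖(p.2 : E)‖ := rfl
  rw [splitC_apply, h0]
  have h := norm_add_sq_eq_norm_sq_add_norm_sq_of_inner_eq_zero (𝕜 := ℂ) (p.1 • m) (p.2 : E) (by
    rw [inner_smul_left, mem_perp.mp p.2.2, mul_zero])
  rw [sq, sq, sq, h, norm_smul, hm, mul_one]

theorem exp_splitC {m : E} (hm : ‖m‖ = 1) (p : ℂ × Perp m) :
    Real.exp (-‖splitC hm p‖ ^ 2) = Real.exp (-‖p.1‖ ^ 2) * Real.exp (-‖p.2‖ ^ 2) := by
  rw [norm_splitC, ← Real.exp_add]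
  congr 1
  ring

theorem om_eq_map {m : E} (hm : ‖m‖ = 1) :
    om E = ((om ℂ).prod (om (Perp m))).map (splitC hm) := by
  have : (((om ℂ).prod (om (Perp m))).map (splitC hm)).IsAddHaarMeasure :=
    ContinuousLinearEquiv.isAddHaarMeasure_map (splitC hm) _
  apply om_unique
  rw [integral_map (splitC hm).continuous.aemeasurable
    (by fun_prop : Continuous fun z : E => Real.exp (-‖z‖ ^ 2)).aestronglyMeasurable]
  simp_rw [exp_splitC]
  rw [integral_prod_mul (fun z : ℂ => Real.exp (-‖z‖ ^ 2)) (fun w : Perp m => Real.exp (-‖w‖ ^ 2)),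
    integral_gauss, integral_gauss, one_mul]

theorem splitC_mp {m : E} (hm : ‖m‖ = 1) :
    MeasurePreserving (splitC hm) ((om ℂ).prod (om (Perp m))) (om E) :=
  ⟨(splitC hm).continuous.measurable, (om_eq_map hm).symm⟩

theorem splitC_emb {m : E} (hm : ‖m‖ = 1) : MeasurableEmbedding (splitC hm) :=
  (splitC hm).toHomeomorph.measurableEmbedding

/-- The image of the Gaussian measure of `E` under `ζ ↦ ⟪m,ζ⟫` (`‖m‖ = 1`) is the Gaussian measure
of `ℂ`.  Proof: decompose `E = ℂ m ⊕ m^⊥`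
(`om` is determined by being Haar with Gaussian integral one), Gaussian factorises. -/
theorem map_gauss {m : E} (hm : ‖m‖ = 1) :
    ((om E).withDensity (fun ζ => ENNReal.ofReal (Real.exp (-‖ζ‖ ^ 2)))).map
      (fun ζ : E => (inner ℂ m ζ : ℂ)) =
    (om ℂ).withDensity (fun z => ENNReal.ofReal (Real.exp (-‖z‖ ^ 2))) := by
  have hmeas : Measurable (fun ζ : E => (inner ℂ m ζ : ℂ)) := by
    have : Continuous (fun ζ : E => (inner ℂ m ζ : ℂ)) := by fun_prop
    exact this.measurable
  ext A hA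
  rw [Measure.map_apply hmeas hA, withDensity_apply _ (hmeas hA), withDensity_apply _ hA,
    ← lintegral_indicator (hmeas hA), ← lintegral_indicator hA]
  rw [← (splitC_mp hm).lintegral_comp_emb (splitC_emb hm)]
  have h1 : ∀ p : ℂ × Perp m,
      ((fun ζ : E => (inner ℂ m ζ : ℂ)) ⁻¹' A).indicator
        (fun ζ => ENNReal.ofReal (Real.exp (-‖ζ‖ ^ 2))) (splitC hm p) =
      A.indicator (fun z => ENNReal.ofReal (Real.exp (-‖z‖ ^ 2))) p.1 *
        ENNReal.ofReal (Real.exp (-‖p.2‖ ^ 2)) := by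
    intro p
    have hin : splitC hm p ∈ (fun ζ : E => (inner ℂ m ζ : ℂ)) ⁻¹' A ↔ p.1 ∈ A := by
      rw [Set.mem_preimage, inner_splitC]
    by_cases hp : p.1 ∈ A
    · rw [Set.indicator_of_mem (hin.mpr hp), Set.indicator_of_mem hp, exp_splitC,
        ENNReal.ofReal_mul (Real.exp_pos _).le]
    · rw [Set.indicator_of_notMem (fun h => hp (hin.mp h)), Set.indicator_of_notMem hp, zero_mul]
  simp_rw [h1]
  rw [lintegral_prod_mul (f := A.indicator (fun z : ℂ => ENNReal.ofReal (Real.exp (-‖z‖ ^ 2))))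
    (g := fun w : Perp m => ENNReal.ofReal (Real.exp (-‖w‖ ^ 2))), lintegral_gauss, mul_one]
  · refine Measurable.aemeasurable (Measurable.indicator ?_ hA)
    have : Continuous fun z : ℂ => Real.exp (-‖z‖ ^ 2) := by fun_prop
    exact this.measurable.ennreal_ofReal
  · have : Continuous fun z : Perp m => Real.exp (-‖z‖ ^ 2) := by fun_prop
    exact this.measurable.ennreal_ofReal.aemeasurable

theorem gauss_split {m : E} (hm : ‖m‖ = 1) {G : ℂ → ℝ} (hG : Continuous G) :
    ∫ ζ : E, G (inner ℂ m ζ : ℂ) * Real.exp (-‖ζ‖ ^ 2) ∂(om E) =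
      ∫ z : ℂ, G z * Real.exp (-‖z‖ ^ 2) ∂(om ℂ) := by
  rw [← (splitC_mp hm).integral_comp (splitC_emb hm)]
  simp_rw [inner_splitC, exp_splitC, ← mul_assoc]
  rw [integral_prod_mul (fun z : ℂ => G z * Real.exp (-‖z‖ ^ 2))
    (fun w : Perp m => Real.exp (-‖w‖ ^ 2)), integral_gauss, mul_one]

theorem gauss_split_integrable {m : E} (hm : ‖m‖ = 1) {G : ℂ → ℝ} (hG : Continuous G) :
    Integrable (fun ζ : E => G (inner ℂ m ζ : ℂ) * Real.exp (-‖ζ‖ ^ 2)) (om E) ↔
      Integrable (fun z : ℂ => G z * Real.exp (-‖z‖ ^ 2)) (om ℂ) := by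
  rw [← (splitC_mp hm).integrable_comp_emb (splitC_emb hm)]
  have h1 : ((fun ζ : E => G (inner ℂ m ζ : ℂ) * Real.exp (-‖ζ‖ ^ 2)) ∘ splitC hm) =
      fun p : ℂ × Perp m => (G p.1 * Real.exp (-‖p.1‖ ^ 2)) * Real.exp (-‖p.2‖ ^ 2) := by
    funext p
    simp only [Function.comp_apply, inner_splitC, exp_splitC]
    ring
  rw [h1]
  constructor
  · intro h
    have h2 := h.integral_prod_left
    refine h2.congr (Filter.Eventually.of_forall fun z => ?_)
    simp only
    rw [integral_const_mul, integral_gauss, mul_one]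
  · intro h
    exact Integrable.mul_prod h (integrable_gauss0 (Perp m) (om (Perp m)))

/-- For `F ≥ 0` psh: restriction to the complex line `ℂ m` decreases the Gaussian integral. -/
theorem gauss_restrict {m : E} (hm : ‖m‖ = 1) {F : E → ℝ} (hF : PSH F) (h0 : ∀ z, 0 ≤ F z)
    (hi : Integrable (fun ζ => F ζ * Real.exp (-‖ζ‖ ^ 2)) (om E)) :
    Integrable (fun z : ℂ => F (z • m) * Real.exp (-‖z‖ ^ 2)) (om ℂ) ∧
      ∫ z : ℂ, F (z • m) * Real.exp (-‖z‖ ^ 2) ∂(om ℂ) ≤
        ∫ ζ, F ζ * Real.exp (-‖ζ‖ ^ 2) ∂(om E) := by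
  have hFc : Continuous F := hF.continuous
  have hi2 : Integrable (fun p : ℂ × Perp m => F (splitC hm p) * Real.exp (-‖splitC hm p‖ ^ 2))
      ((om ℂ).prod (om (Perp m))) :=
    ((splitC_mp hm).integrable_comp_emb (splitC_emb hm)).mpr hi
  have hi3 := hi2.integral_prod_left
  have hle : ∀ᵐ z ∂(om ℂ), F (z • m) * Real.exp (-‖z‖ ^ 2) ≤
      ∫ w : Perp m, F (splitC hm (z, w)) * Real.exp (-‖splitC hm (z, w)‖ ^ 2) ∂(om (Perp m)) := by
    filter_upwards [hi2.prod_right_ae] with z hz
    have hpsh : PSH (fun w : Perp m => F (z • m + (Perp m).subtypeL w)) :=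
      hF.comp_affine (z • m) (Perp m).subtypeL
    have hcm : Continuous (fun w : Perp m => Real.exp (-‖w‖ ^ 2)) := by fun_prop
    have hex : Real.exp (-‖z‖ ^ 2) ≠ 0 := (Real.exp_pos _).ne'
    have hz2 : ∀ w : Perp m, F (splitC hm (z, w)) * Real.exp (-‖splitC hm (z, w)‖ ^ 2) =
        Real.exp (-‖z‖ ^ 2) *
          (Real.exp (-‖w‖ ^ 2) * F (z • m + (Perp m).subtypeL (0 + w))) := by
      intro w
      rw [exp_splitC, splitC_apply, zero_add]
      simp only [Submodule.subtypeL_apply]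
      ring
    have hz3 : Integrable (fun w : Perp m =>
        Real.exp (-‖w‖ ^ 2) * F (z • m + (Perp m).subtypeL (0 + w))) (om (Perp m)) := by
      have h1 := hz.const_mul (Real.exp (-‖z‖ ^ 2))⁻¹
      refine h1.congr (Filter.Eventually.of_forall fun w => ?_)
      simp only
      rw [hz2, ← mul_assoc, inv_mul_cancel₀ hex, one_mul]
    have h2 := hpsh.le_integral (g := fun w : Perp m => Real.exp (-‖w‖ ^ 2))
      (fun w => (Real.exp_pos _).le) hcm.measurable
      (fun u y hu => by rw [norm_smul, hu, one_mul])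
      (integrable_gauss0 (Perp m) (om (Perp m))) 0 hz3
    rw [integral_gauss, one_mul, map_zero, add_zero] at h2
    simp_rw [hz2]
    rw [integral_const_mul, mul_comm]
    exact mul_le_mul_of_nonneg_left h2 (Real.exp_pos _).le
  have hcont : Continuous (fun z : ℂ => F (z • m) * Real.exp (-‖z‖ ^ 2)) := by fun_prop
  have hint : Integrable (fun z : ℂ => F (z • m) * Real.exp (-‖z‖ ^ 2)) (om ℂ) := by
    refine hi3.mono' hcont.aestronglyMeasurable ?_
    filter_upwards [hle] with z hz
    rw [Real.norm_of_nonneg (mul_nonneg (h0 _) (Real.exp_pos _).le)]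
    exact hz
  refine ⟨hint, ?_⟩
  have h4 := integral_mono_ae hint hi3 hle
  refine h4.trans (le_of_eq ?_)
  rw [← integral_prod _ hi2]
  exact (splitC_mp hm).integral_comp (splitC_emb hm) (fun ζ => F ζ * Real.exp (-‖ζ‖ ^ 2))

end Pool.Agent.Edge
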