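import Pool.Agent.Edge.Core

/-!
# Edge universality at a general boundary point (coordinate free)
-/

namespace Pool.Agent.Edge

open MeasureTheory Filter Topology Complex

open scoped ComplexConjugate

variable {E : Type*} [NormedAddCommGroup E] [InnerProductSpace ℂ E] [FiniteDimensional ℂ E]
  [MeasurableSpace E] [BorelSpace E]

/-- The weighted kernel `e^{-n(Q(z)+Q(w))/2} k(z,w)`. -/
noncomputable def wK (Q : E → ℝ) (n : ℕ) (k : E → E → ℂ) (z w : E) : ℂ :=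
  (Real.exp (-(n / 2 * (Q z + Q w))) : ℂ) * k z w

/-- relation between the weighted kernel and the rescaled kernel. -/
theorem wK_eq (Q : E → ℝ) (a : E) {n : ℕ} (hn : n ≠ 0) (k : E → E → ℂ) (ζ η : E) :
    cexp (-(I * ((Pn Q a n ζ).im : ℂ)) / 2) * conj (cexp (-(I * ((Pn Q a n η).im : ℂ)) / 2)) *
      (((n : ℂ) ^ Module.finrank ℂ E)⁻¹ * wK Q n k (sc a n ζ) (sc a n η)) =
    Lsc Q a n k ζ η * (Real.exp (-(bl Q Q a n ζ + bl Q Q a n η) / 2) : ℂ) := by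
  unfold wK Lsc bl
  have hn' : (n : ℂ) ≠ 0 := by exact_mod_cast hn
  set P := Pn Q a n ζ with hP
  set P' := Pn Q a n η with hP'
  set z := sc a n ζ
  set w := sc a n η
  have e1 : conj (cexp (-(I * (P'.im : ℂ)) / 2)) = cexp ((I * (P'.im : ℂ)) / 2) := by
    rw [← Complex.exp_conj]
    congr 1
    rw [map_div₀, map_neg, map_mul, Complex.conj_I, Complex.conj_ofReal, map_ofNat]
    ring
  have key : cexp (-(I * (P.im : ℂ)) / 2) * cexp ((I * (P'.im : ℂ)) / 2) *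
      (Real.exp (-(n / 2 * (Q z + Q w))) : ℂ) =
      (Real.exp (-(n * Q a)) : ℂ) * cexp (-(P + conj P') / 2) *
        (Real.exp (-((n : ℝ) * (Q z - Q a) - P.re + ((n : ℝ) * (Q w - Q a) - P'.re)) / 2) : ℂ) := by
    simp only [Complex.ofReal_exp]
    rw [← Complex.exp_add, ← Complex.exp_add, ← Complex.exp_add, ← Complex.exp_add]
    congr 1
    have h1 : P = (P.re : ℂ) + P.im * I := (Complex.re_add_im P).symm
    have h2 : conj P' = (P'.re : ℂ) - P'.im * I := by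
      apply Complex.ext <;> simp
    rw [h2]
    nth_rewrite 2 [h1]
    push_cast
    ring
  rw [e1]
  calc _ = (cexp (-(I * (P.im : ℂ)) / 2) * cexp ((I * (P'.im : ℂ)) / 2) *
      (Real.exp (-(n / 2 * (Q z + Q w))) : ℂ)) * (((n : ℂ) ^ Module.finrank ℂ E)⁻¹ * k z w) := by
        ring
    _ = _ := by rw [key]; ring

theorem edge_general [Nontrivial E] {Q : E → ℝ} (hQ : IsPot Q)
    (hs : ∀ z v : E, v ≠ 0 → 0 < Levi Q z v) {k : ℕ → E → E → ℂ}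
    (hk : ∀ᶠ (n : ℕ) in atTop, IsRK (Vsp n (0 : E → ℂ)) (fun z => n * Q z) (k n))
    (hkc : ∀ᶠ (n : ℕ) in atTop, Continuous (fun z => k n z z))
    {N : ℕ → ℝ} {c₁ c₂ : ℝ} (hc₁ : 0 < c₁)
    (hN : ∀ᶠ (n : ℕ) in atTop, c₁ * (n : ℝ) ^ Module.finrank ℂ E ≤ N n ∧
      N n ≤ c₂ * (n : ℝ) ^ Module.finrank ℂ E)
    {S : Set E} (hS : MeasurableSet S) {D : E → ℝ} (hD : ∀ z, 0 < D z) (hDc : Continuous D)
    (hlim : Tendsto (fun n => eLpNorm (fun z => (k n z z).re * Real.exp (-(n * Q z)) / N n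
      - S.indicator D z) 1 (om E)) atTop (𝓝 0))
    {z₀ nv : E} (hnv : nv ≠ 0) (A : E ≃L[ℂ] E)
    (hA : ∀ u v : E, (inner ℂ (A u) v : ℂ) = inner ℂ u (A v))
    (hL : ∀ v, Levi Q z₀ (A v) = 4 * ‖v‖ ^ 2) {ρ : E → ℝ} {κ : ℝ}
    (hκ : 0 < κ)
    (hρ : ∀ ε > 0, ∀ᶠ v in 𝓝 (0 : E), |ρ (z₀ + v) - κ * (inner ℂ nv v : ℂ).re| ≤ ε * ‖v‖)
    (hSρ : ∀ᶠ z in 𝓝 z₀, (z ∈ S ↔ ρ z ≤ 0)) :
    ∃ c : ℕ → ℂ → ℂ, (∀ n ξ, ‖c n ξ‖ = 1) ∧
      TendstoLocallyUniformly (fun n (p : ℂ × ℂ) => c n p.1 * conj (c n p.2) *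
        (((n : ℂ) ^ Module.finrank ℂ E)⁻¹ * ((jac A : ℂ) * wK Q n (k n)
          (z₀ + ((Real.sqrt n)⁻¹ : ℝ) • A (p.1 • ((‖A nv‖⁻¹ : ℝ) • A nv)))
          (z₀ + ((Real.sqrt n)⁻¹ : ℝ) • A (p.2 • ((‖A nv‖⁻¹ : ℝ) • A nv))))))
      (fun p => L0 p.1 p.2 * (Real.exp (-(‖p.1‖ ^ 2 + ‖p.2‖ ^ 2) / 2) : ℂ)) atTop := by
  have hAnv : A nv ≠ 0 := by simpa using hnv
  have hpos : 0 < ‖A nv‖ := norm_pos_iff.2 hAnv
  set m : E := (‖A nv‖⁻¹ : ℝ) • A nv with hm_def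
  have hm : ‖m‖ = 1 := by
    rw [hm_def, norm_smul, Real.norm_eq_abs, abs_of_pos (inv_pos.2 hpos), inv_mul_cancel₀ hpos.ne']
  have hJ : 0 < jac A := jac_pos A
  set Q1 : E → ℝ := fun ζ => Q (z₀ + A ζ) with hQ1
  have hQ1p : IsPot Q1 := isPot_affine hQ A z₀
  have hs1 : ∀ z v : E, v ≠ 0 → 0 < Levi Q1 z v := by
    intro z v hv
    rw [hQ1, levi_affine]
    exact hs _ _ (by simpa using hv)
  set k1 : ℕ → E → E → ℂ := fun n ζ η => (jac A : ℂ) * k n (z₀ + A ζ) (z₀ + A η) with hk1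
  have hk1' : ∀ᶠ (n : ℕ) in atTop, IsRK (Vsp n (0 : E → ℂ)) (fun z => n * Q1 z) (k1 n) := by
    filter_upwards [hk] with n hn
    exact isRK_affine A z₀ hn
  have hk1c : ∀ᶠ (n : ℕ) in atTop, Continuous (fun z => k1 n z z) := by
    filter_upwards [hkc] with n hn
    have : Continuous (fun ζ : E => z₀ + A ζ) := by fun_prop
    exact continuous_const.mul (hn.comp this)
  set S1 : Set E := (fun ζ => z₀ + A ζ) ⁻¹' S with hS1
  have hcont : Continuous (fun ζ : E => z₀ + A ζ) := by fun_prop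
  have hS1m : MeasurableSet S1 := hcont.measurable hS
  set D1 : E → ℝ := fun ζ => jac A * D (z₀ + A ζ) with hD1
  have hD1p : ∀ z, 0 < D1 z := fun z => mul_pos hJ (hD _)
  have hD1c : Continuous D1 := continuous_const.mul (hDc.comp hcont)
  have hlim1 : Tendsto (fun n => eLpNorm (fun z => (k1 n z z).re * Real.exp (-(n * Q1 z)) / N n
      - S1.indicator D1 z) 1 (om E)) atTop (𝓝 0) := by
    have h := limit_affine A z₀ hlim
    refine h.congr fun n => ?_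
    congr 1
    funext ζ
    have h1 : S1.indicator D1 ζ = jac A * S.indicator D (z₀ + A ζ) := by
      by_cases h2 : z₀ + A ζ ∈ S
      · have h3 : ζ ∈ S1 := h2
        rw [Set.indicator_of_mem h2, Set.indicator_of_mem h3]
      · have h3 : ζ ∉ S1 := h2
        rw [Set.indicator_of_notMem h2, Set.indicator_of_notMem h3, mul_zero]
    rw [h1]
    simp only [hk1, hQ1, Complex.mul_re, Complex.ofReal_re, Complex.ofReal_im, zero_mul, sub_zero]
    ring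
  have hL1 : ∀ v, Levi Q1 0 v = 4 * ‖v‖ ^ 2 := by
    intro v
    rw [hQ1, levi_affine]
    simpa using hL v
  have hκ1 : 0 < κ * ‖A nv‖ := mul_pos hκ hpos
  have hinner : ∀ v : E, κ * ‖A nv‖ * (inner ℂ m v : ℂ).re = κ * (inner ℂ nv (A v) : ℂ).re := by
    intro v
    rw [← hA nv v, hm_def]
    have h1 : (inner ℂ ((‖A nv‖⁻¹ : ℝ) • A nv) v : ℂ) = ((‖A nv‖⁻¹ : ℝ) : ℂ) * inner ℂ (A nv) v := by
      rw [show ((‖A nv‖⁻¹ : ℝ) • A nv : E) = ((‖A nv‖⁻¹ : ℝ) : ℂ) • A nv from rfl,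
        inner_smul_left, Complex.conj_ofReal]
    rw [h1, Complex.re_ofReal_mul]
    field_simp
  have hρ1 : ∀ ε > 0, ∀ᶠ v in 𝓝 (0 : E),
      |ρ (z₀ + A ((0 : E) + v)) - κ * ‖A nv‖ * (inner ℂ m v : ℂ).re| ≤ ε * ‖v‖ := by
    intro ε hε
    set CA : ℝ := ‖(A : E →L[ℂ] E)‖ + 1 with hCA
    have hCA' : 0 < CA := by positivity
    have h1 := hρ (ε / CA) (div_pos hε hCA')
    have h2 : Tendsto (fun v : E => A v) (𝓝 0) (𝓝 0) := by
      have := (A : E →L[ℂ] E).continuous.tendsto (0 : E)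
      simpa using this
    filter_upwards [h2.eventually h1] with v hv
    rw [zero_add, hinner]
    refine hv.trans ?_
    have h3 : ‖A v‖ ≤ CA * ‖v‖ := by
      have := (A : E →L[ℂ] E).le_opNorm v
      have h4 : ‖(A : E →L[ℂ] E)‖ * ‖v‖ ≤ CA * ‖v‖ := by
        apply mul_le_mul_of_nonneg_right _ (norm_nonneg v); linarith
      exact this.trans h4
    calc ε / CA * ‖A v‖ ≤ ε / CA * (CA * ‖v‖) := by
          apply mul_le_mul_of_nonneg_left h3 (div_pos hε hCA').le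
      _ = ε * ‖v‖ := by field_simp
  have hSρ1 : ∀ᶠ z in 𝓝 (0 : E), (z ∈ S1 ↔ ρ (z₀ + A z) ≤ 0) := by
    have h2 : Tendsto (fun v : E => z₀ + A v) (𝓝 0) (𝓝 z₀) := by
      have := hcont.tendsto (0 : E)
      simpa using this
    filter_upwards [h2.eventually hSρ] with v hv
    exact hv
  have main := edge_normalised hQ1p hs1 hk1' hk1c hc₁ hN hS1m hD1p hD1c hlim1 (a := 0) hL1 hm
    (ρ := fun z => ρ (z₀ + A z)) hκ1 hρ1 hSρ1
  refine ⟨fun n ξ => cexp (-(I * ((Pn Q1 0 n (ξ • m)).im : ℂ)) / 2), ?_, ?_⟩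
  · intro n ξ
    rw [Complex.norm_exp]
    simp
  · -- limit of the Gaussian factors
    have hw : TendstoLocallyUniformly (fun n => bl Q1 Q1 0 n) (fun ζ : E => ‖ζ‖ ^ 2) atTop := by
      have h := bl_self_tendsto hQ1p.cd (0 : E)
      have h2 : (fun ζ : E => (1 / 4) * Levi Q1 0 ζ) = fun ζ : E => ‖ζ‖ ^ 2 := by
        funext ζ; rw [hL1]; ring
      rwa [h2] at h
    have hwc : Continuous (fun ζ : E => ‖ζ‖ ^ 2) := by fun_prop
    have hG : TendstoLocallyUniformly (fun (n : ℕ) (p : ℂ × ℂ) =>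
        (Real.exp (-(bl Q1 Q1 0 n (p.1 • m) + bl Q1 Q1 0 n (p.2 • m)) / 2) : ℂ))
        (fun p => (Real.exp (-(‖p.1‖ ^ 2 + ‖p.2‖ ^ 2) / 2) : ℂ)) atTop := by
      have hc2 : Continuous (fun p : ℂ × ℂ => (Real.exp (-(‖p.1‖ ^ 2 + ‖p.2‖ ^ 2) / 2) : ℂ)) := by
        fun_prop
      rw [tlu_iff hc2]
      intro p
      have h1 := (tlu_iff (hwc.comp (continuous_fst.smul (continuous_const (y := m)) :
        Continuous fun p : ℂ × ℂ => p.1 • m))).1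
        (tlu_comp hwc hw (g := fun p : ℂ × ℂ => p.1 • m) (by fun_prop)) p
      have h2 := (tlu_iff (hwc.comp (continuous_snd.smul (continuous_const (y := m)) :
        Continuous fun p : ℂ × ℂ => p.2 • m))).1
        (tlu_comp hwc hw (g := fun p : ℂ × ℂ => p.2 • m) (by fun_prop)) p
      have h3 := (h1.add h2).neg.div_const 2
      have h4 := (Complex.continuous_ofReal.tendsto _).comp
        ((Real.continuous_exp.tendsto _).comp h3)
      have heq : ((Real.exp (-(((fun ζ : E => ‖ζ‖ ^ 2) ((fun p : ℂ × ℂ => p.1 • m) p)) +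
          ((fun ζ : E => ‖ζ‖ ^ 2) ((fun p : ℂ × ℂ => p.2 • m) p))) / 2) : ℝ) : ℂ) =
          (Real.exp (-(‖p.1‖ ^ 2 + ‖p.2‖ ^ 2) / 2) : ℂ) := by
        simp only [norm_smul, hm, mul_one]
      rw [← heq]
      exact h4
    have hL0c : Continuous (fun p : ℂ × ℂ => L0 p.1 p.2) := L0_continuous
    have hprod := tlu_mul (f := fun p : ℂ × ℂ => L0 p.1 p.2)
      (g := fun p => (Real.exp (-(‖p.1‖ ^ 2 + ‖p.2‖ ^ 2) / 2) : ℂ)) hL0c (by fun_prop) main hG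
    rw [tlu_iff (by fun_prop)] at hprod ⊢
    intro p
    refine (hprod p).congr' ?_
    have hn : ∀ᶠ q : ℕ × (ℂ × ℂ) in atTop ×ˢ 𝓝 p, q.1 ≠ 0 :=
      (tendsto_fst.eventually (eventually_ne_atTop 0))
    filter_upwards [hn] with q hq
    have h := wK_eq Q1 0 hq (k1 q.1) (q.2.1 • m) (q.2.2 • m)
    rw [← h]
    have e1 : ∀ ξ : ℂ, z₀ + A (sc 0 q.1 (ξ • m)) =
        z₀ + ((Real.sqrt q.1)⁻¹ : ℝ) • A (ξ • m) := by
      intro ξ
      unfold sc
      rw [zero_add]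
      congr 1
      exact (A : E →L[ℂ] E).map_smul_of_tower _ _
    have e2 : wK Q1 q.1 (k1 q.1) (sc 0 q.1 (q.2.1 • m)) (sc 0 q.1 (q.2.2 • m)) =
        (jac A : ℂ) * wK Q q.1 (k q.1) (z₀ + ((Real.sqrt q.1)⁻¹ : ℝ) • A (q.2.1 • m))
          (z₀ + ((Real.sqrt q.1)⁻¹ : ℝ) • A (q.2.2 • m)) := by
      unfold wK
      simp only [hQ1, hk1, e1]
      ring
    rw [e2]

end Pool.Agent.Edge
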