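import Pool.Agent.Edge.HorBase

/-!
# The Kohn–Morrey inequality for compactly supported smooth `(0,1)`-forms

Symbols: `∂_j = dz (e j)`, `∂̄_j = dzb (e j)`, `ψ_j = ∂_jψ`, `D_j F = ∂_j F - ψ_j F`.

1. For `F, G` smooth, compactly supported: `∫ (D_j F) conj(G) e^{-ψ} = -∫ F conj(∂̄_j G) e^{-ψ}`
   (`e^{-ψ} D_j F = ∂_j(e^{-ψ}F)`, `∂_j (conj G) = conj (∂̄_j G)`, `integral_dz_mul`).
2. Commutator: `∂̄_j (D_k F) = D_k (∂̄_j F) - (∂̄_j ψ_k) F`, and `∂̄_jψ_k = ∂_k∂̄_jψ`.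
3. Hence
   `∫ D_jα_j conj(D_kα_k) e^{-ψ} = -∫ α_j conj(∂̄_j D_k α_k) e^{-ψ}
     = -∫ α_j conj(D_k ∂̄_j α_k) e^{-ψ} + ∫ α_j conj(α_k) conj(∂_k∂̄_jψ) e^{-ψ}
     = ∫ (∂̄_kα_j) conj(∂̄_jα_k) e^{-ψ} + ∫ α_j conj(α_k) ∂_j∂̄_kψ e^{-ψ}`.
4. Sum over `j,k`; `∑_{jk} a_{kj} conj(a_{jk}) = ∑|a_{jk}|² - ½ ∑ |a_{kj}-a_{jk}|²
   ≥ -½ ∑_{jk} |a_{jk}-a_{kj}|²` with `a_{kj} = ∂̄_kα_j`; use `levi_eq_sum`.
-/

namespace Pool.Agent.Edge

open MeasureTheory Filter Topology Complex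

open scoped ComplexConjugate ContDiff

set_option linter.unusedSectionVars false

/-! ### Test functions -/

section Test

variable {E : Type*} [NormedAddCommGroup E] [InnerProductSpace ℂ E]

private def KT (f : E → ℂ) : Prop := ContDiff ℝ ∞ f ∧ HasCompactSupport f

private theorem KT.smooth_mul {f a : E → ℂ} (hf : KT f) (ha : ContDiff ℝ ∞ a) :
    KT (fun z => a z * f z) :=
  ⟨ha.mul hf.1, hf.2.mul_left⟩

private theorem KT.mul_smooth {f a : E → ℂ} (hf : KT f) (ha : ContDiff ℝ ∞ a) :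
    KT (fun z => f z * a z) :=
  ⟨hf.1.mul ha, hf.2.mul_right⟩

private theorem KT.add {f g : E → ℂ} (hf : KT f) (hg : KT g) : KT (fun z => f z + g z) :=
  ⟨hf.1.add hg.1, hf.2.add hg.2⟩

private theorem KT.neg {f : E → ℂ} (hf : KT f) : KT (fun z => - f z) :=
  ⟨hf.1.neg, hf.2.neg⟩

private theorem KT.sub {f g : E → ℂ} (hf : KT f) (hg : KT g) : KT (fun z => f z - g z) := by
  simpa only [sub_eq_add_neg] using hf.add hg.neg

private theorem KT.zero : KT (fun _ : E => (0 : ℂ)) :=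
  ⟨contDiff_const, HasCompactSupport.zero⟩

private theorem KT.sum {ι : Type*} (s : Finset ι) {f : ι → E → ℂ} (hf : ∀ i, KT (f i)) :
    KT (fun z => ∑ i ∈ s, f i z) := by
  classical
  induction s using Finset.induction_on with
  | empty => simpa using KT.zero
  | insert a s ha ih =>
    have := (hf a).add ih
    simpa only [Finset.sum_insert ha] using this

private theorem KT.conj {f : E → ℂ} (hf : KT f) : KT (fun z => conj (f z)) := by
  refine ⟨Complex.conjCLE.contDiff.comp hf.1, ?_⟩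
  exact hf.2.comp_left (g := fun w : ℂ => (starRingEnd ℂ) w) (map_zero _)

private theorem KT.dz {f : E → ℂ} (hf : KT f) (v : E) : KT (dz v f) :=
  ⟨contDiff_dz hf.1 v, hasCompactSupport_dz hf.2 v⟩

private theorem KT.dzb {f : E → ℂ} (hf : KT f) (v : E) : KT (dzb v f) :=
  ⟨contDiff_dzb hf.1 v, hasCompactSupport_dzb hf.2 v⟩

private theorem smooth_diff {f : E → ℂ} (hf : ContDiff ℝ ∞ f) (z : E) : DifferentiableAt ℝ f z :=
  (hf.differentiable (by simp)).differentiableAt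

private theorem hA_ofReal {f : E → ℝ} (hf : ContDiff ℝ ∞ f) :
    ContDiff ℝ ∞ (fun z => (f z : ℂ)) :=
  Complex.ofRealCLM.contDiff.comp hf

private theorem hA_exp {f : E → ℝ} (hf : ContDiff ℝ ∞ f) :
    ContDiff ℝ ∞ (fun z => (Real.exp (f z) : ℂ)) :=
  hA_ofReal (Real.contDiff_exp.comp hf)

private theorem hA_fderiv_ofReal {f : E → ℝ} {z : E} (hf : DifferentiableAt ℝ f z) (v : E) :
    fderiv ℝ (fun w => (f w : ℂ)) z v = (fderiv ℝ f z v : ℂ) := by
  have h := (Complex.ofRealCLM.hasFDerivAt (x := f z)).comp z hf.hasFDerivAt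
  have h2 : HasFDerivAt (fun w => (f w : ℂ)) (Complex.ofRealCLM.comp (fderiv ℝ f z)) z := h
  rw [h2.fderiv]
  rfl

private theorem hA_dz_rexp {f : E → ℝ} (hf : ContDiff ℝ ∞ f) (v z : E) :
    dz v (fun w => (Real.exp (f w) : ℂ)) z =
      dz v (fun w => (f w : ℂ)) z * (Real.exp (f z) : ℂ) := by
  have hd : DifferentiableAt ℝ f z := (hf.differentiable (by simp)).differentiableAt
  unfold dz
  rw [hA_fderiv_ofReal hd.exp, hA_fderiv_ofReal hd.exp, hA_fderiv_ofReal hd,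
    hA_fderiv_ofReal hd, fderiv_exp hd]
  simp only [FunLike.coe_smul, Pi.smul_apply, smul_eq_mul]
  push_cast
  ring

private theorem hA_dz_neg (f : E → ℝ) (v z : E) :
    dz v (fun w => ((-f w : ℝ) : ℂ)) z = - dz v (fun w => (f w : ℂ)) z := by
  have h : (fun w => ((-f w : ℝ) : ℂ)) = fun w => -((f w : ℂ)) := by
    funext w
    push_cast
    rfl
  unfold dz
  rw [h, fderiv_fun_neg]
  simp only [neg_apply]
  ring

/-- `D_v F = ∂_v F - (∂_v ψ) F` -/
private noncomputable def Dv (ψ : E → ℝ) (v : E) (F : E → ℂ) (z : E) : ℂ :=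
  dz v F z - dz v (fun w => (ψ w : ℂ)) z * F z

private theorem KT.Dv {f : E → ℂ} (hf : KT f) {ψ : E → ℝ} (hψ : ContDiff ℝ ∞ ψ) (v : E) :
    KT (Dv ψ v f) :=
  (hf.dz v).sub (hf.smooth_mul (contDiff_dz (hA_ofReal hψ) v))

private theorem Dv_mul_exp {f : E → ℂ} (hf : ContDiff ℝ ∞ f) {ψ : E → ℝ} (hψ : ContDiff ℝ ∞ ψ)
    (v z : E) :
    Dv ψ v f z * (Real.exp (-ψ z) : ℂ) = dz v (fun w => f w * (Real.exp (-ψ w) : ℂ)) z := by
  have hneg : ContDiff ℝ ∞ (fun w => -ψ w) := hψ.neg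
  rw [dz_mul (smooth_diff hf z) (smooth_diff (hA_exp hneg) z), hA_dz_rexp hneg, hA_dz_neg]
  unfold Dv
  ring

/-- the commutator -/
private theorem dzb_Dv {f : E → ℂ} (hf : ContDiff ℝ ∞ f) {ψ : E → ℝ} (hψ : ContDiff ℝ ∞ ψ)
    (u v z : E) :
    dzb u (Dv ψ v f) z =
      Dv ψ v (dzb u f) z - dz v (dzb u (fun w => (ψ w : ℂ))) z * f z := by
  have hψc := hA_ofReal hψ
  have h1 : dzb u (Dv ψ v f) z = dzb u (dz v f) z -
      dzb u (fun z => dz v (fun w => (ψ w : ℂ)) z * f z) z := by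
    have e1 : DifferentiableAt ℝ (dz v f) z := smooth_diff (contDiff_dz hf v) z
    have e2 : DifferentiableAt ℝ (fun z => dz v (fun w => (ψ w : ℂ)) z * f z) z :=
      smooth_diff ((contDiff_dz hψc v).mul hf) z
    have e3 : DifferentiableAt ℝ (fun z => -(dz v (fun w => (ψ w : ℂ)) z * f z)) z := e2.neg
    have h2 : Dv ψ v f = fun z => dz v f z + -(dz v (fun w => (ψ w : ℂ)) z * f z) := by
      funext z
      unfold Dv
      ring
    rw [h2, dzb_add e1 e3, sub_eq_add_neg]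
    congr 1
    unfold dzb
    rw [fderiv_fun_neg]
    simp only [neg_apply]
    ring
  rw [h1, dzb_mul (smooth_diff (contDiff_dz hψc v) z) (smooth_diff hf z),
    ← dz_dzb_comm (hf.of_le ENat.LEInfty.out), ← dz_dzb_comm (hψc.of_le ENat.LEInfty.out)]
  unfold Dv
  ring

private theorem conj_dz_dzb {ψ : E → ℝ} (hψ : ContDiff ℝ ∞ ψ) (u v z : E) :
    conj (dz v (dzb u (fun w => (ψ w : ℂ))) z) = dz u (dzb v (fun w => (ψ w : ℂ))) z := by
  have hψc := hA_ofReal hψ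
  have h1 : (fun w => conj ((ψ w : ℂ))) = fun w => (ψ w : ℂ) := by
    funext w
    exact Complex.conj_ofReal _
  have h2 : (fun w => conj (dzb u (fun w => (ψ w : ℂ)) w)) = dz u (fun w => (ψ w : ℂ)) := by
    funext w
    rw [← dz_conj, h1]
  rw [← dzb_conj, h2, dz_dzb_comm (hψc.of_le ENat.LEInfty.out)]

end Test

section Main

variable {E : Type*} [NormedAddCommGroup E] [InnerProductSpace ℂ E] [FiniteDimensional ℂ E]
  [MeasurableSpace E] [BorelSpace E]
variable {ι : Type*} [Fintype ι]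

private theorem KT.integrable {f : E → ℂ} (hf : KT f) : Integrable f (om E) :=
  hf.1.continuous.integrable_of_hasCompactSupport hf.2

/-- the weighted sesquilinear form -/
private noncomputable def SS (ψ : E → ℝ) (f g : E → ℂ) : ℂ :=
  ∫ z, f z * conj (g z) * (Real.exp (-ψ z) : ℂ) ∂(om E)

private theorem SS_int {ψ : E → ℝ} (hψ : ContDiff ℝ ∞ ψ) {f g : E → ℂ} (hf : KT f) (hg : KT g) :
    Integrable (fun z => f z * conj (g z) * (Real.exp (-ψ z) : ℂ)) (om E) := by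
  have hneg : ContDiff ℝ ∞ (fun w => -ψ w) := hψ.neg
  exact ((hf.mul_smooth hg.conj.1).mul_smooth (hA_exp hneg)).integrable

private theorem SS_conj (ψ : E → ℝ) (f g : E → ℂ) : conj (SS ψ f g) = SS ψ g f := by
  unfold SS
  rw [← integral_conj]
  refine integral_congr_ae (Eventually.of_forall fun z => ?_)
  simp only [map_mul, Complex.conj_conj, Complex.conj_ofReal]
  ring

private theorem SS_Dv {ψ : E → ℝ} (hψ : ContDiff ℝ ∞ ψ) {f g : E → ℂ} (hf : KT f) (hg : KT g)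
    (v : E) : SS ψ (Dv ψ v f) g = - SS ψ f (dzb v g) := by
  have hneg : ContDiff ℝ ∞ (fun w => -ψ w) := hψ.neg
  have hb : KT (fun z => f z * (Real.exp (-ψ z) : ℂ)) := hf.mul_smooth (hA_exp hneg)
  unfold SS
  have h1 : ∫ z, Dv ψ v f z * conj (g z) * (Real.exp (-ψ z) : ℂ) ∂(om E) =
      ∫ z, dz v (fun z => f z * (Real.exp (-ψ z) : ℂ)) z * conj (g z) ∂(om E) := by
    refine integral_congr_ae (Eventually.of_forall fun z => ?_)
    simp only
    rw [← Dv_mul_exp hf.1 hψ]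
    ring
  rw [h1, integral_dz_mul (hb.1.of_le (by simp)) (hg.conj.1.of_le (by simp)) (Or.inl hb.2)]
  congr 1
  refine integral_congr_ae (Eventually.of_forall fun z => ?_)
  simp only
  rw [dz_conj]
  ring

private theorem SS_Dv' {ψ : E → ℝ} (hψ : ContDiff ℝ ∞ ψ) {f g : E → ℂ} (hf : KT f) (hg : KT g)
    (v : E) : SS ψ g (Dv ψ v f) = - SS ψ (dzb v g) f := by
  rw [← SS_conj, SS_Dv hψ hf hg, map_neg, SS_conj]

private theorem SS_sub_right {ψ : E → ℝ} (hψ : ContDiff ℝ ∞ ψ) {f g h : E → ℂ} (hf : KT f)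
    (hg : KT g) (hh : KT h) :
    SS ψ f (fun z => g z - h z) = SS ψ f g - SS ψ f h := by
  unfold SS
  rw [← integral_sub (SS_int hψ hf hg) (SS_int hψ hf hh)]
  refine integral_congr_ae (Eventually.of_forall fun z => ?_)
  simp only [map_sub]
  ring

private theorem SS_pair {ψ : E → ℝ} (hψ : ContDiff ℝ ∞ ψ) {f g : E → ℂ} (hf : KT f) (hg : KT g)
    (u v : E) :
    SS ψ (Dv ψ u f) (Dv ψ v g) = SS ψ (dzb v f) (dzb u g) +
      ∫ z, f z * conj (g z) * dz u (dzb v (fun w => (ψ w : ℂ))) z * (Real.exp (-ψ z) : ℂ)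
        ∂(om E) := by
  have hψc := hA_ofReal hψ
  rw [SS_Dv hψ hf (hg.Dv hψ v)]
  have h1 : dzb u (Dv ψ v g) = fun z => Dv ψ v (dzb u g) z -
      dz v (dzb u (fun w => (ψ w : ℂ))) z * g z := by
    funext z
    exact dzb_Dv hg.1 hψ u v z
  have hk : KT (fun z => dz v (dzb u (fun w => (ψ w : ℂ))) z * g z) :=
    hg.smooth_mul (contDiff_dz (contDiff_dzb hψc u) v)
  rw [h1, SS_sub_right hψ hf ((hg.dzb u).Dv hψ v) hk, SS_Dv' hψ (hg.dzb u) hf]
  have h2 : SS ψ f (fun z => dz v (dzb u (fun w => (ψ w : ℂ))) z * g z) =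
      ∫ z, f z * conj (g z) * dz u (dzb v (fun w => (ψ w : ℂ))) z * (Real.exp (-ψ z) : ℂ)
        ∂(om E) := by
    unfold SS
    refine integral_congr_ae (Eventually.of_forall fun z => ?_)
    simp only [map_mul]
    rw [conj_dz_dzb hψ]
    ring
  rw [h2]
  ring

private theorem SS_sum_left {ψ : E → ℝ} (hψ : ContDiff ℝ ∞ ψ) {f : ι → E → ℂ} {g : E → ℂ}
    (hf : ∀ j, KT (f j)) (hg : KT g) :
    SS ψ (fun z => ∑ j, f j z) g = ∑ j, SS ψ (f j) g := by
  unfold SS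
  rw [← integral_finsetSum]
  · refine integral_congr_ae (Eventually.of_forall fun z => ?_)
    simp only
    rw [Finset.sum_mul, Finset.sum_mul]
  · intro j _
    exact SS_int hψ (hf j) hg

private theorem SS_sum_right {ψ : E → ℝ} (hψ : ContDiff ℝ ∞ ψ) {f : ι → E → ℂ} {g : E → ℂ}
    (hf : ∀ j, KT (f j)) (hg : KT g) :
    SS ψ g (fun z => ∑ j, f j z) = ∑ j, SS ψ g (f j) := by
  rw [← SS_conj, SS_sum_left hψ hf hg, map_sum]
  exact Finset.sum_congr rfl (fun j _ => SS_conj _ _ _)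

private theorem re_SS {ψ : E → ℝ} (hψ : ContDiff ℝ ∞ ψ) {f g : E → ℂ} (hf : KT f) (hg : KT g) :
    (SS ψ f g).re = ∫ z, (f z * conj (g z)).re * Real.exp (-ψ z) ∂(om E) := by
  unfold SS
  have h := integral_re (SS_int hψ hf hg)
  have h2 : (∫ z, f z * conj (g z) * (Real.exp (-ψ z) : ℂ) ∂(om E)).re =
      ∫ z, (f z * conj (g z) * (Real.exp (-ψ z) : ℂ)).re ∂(om E) := by
    simpa using h.symm
  rw [h2]
  refine integral_congr_ae (Eventually.of_forall fun z => ?_)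
  simp only
  rw [Complex.re_mul_ofReal]

theorem kohn_morrey (e : ι → E) {ψ : E → ℝ} (hψ : ContDiff ℝ ∞ ψ) {α : ι → E → ℂ}
    (hα : ∀ j, ContDiff ℝ ∞ (α j)) (hc : ∀ j, HasCompactSupport (α j)) :
    (1 / 4) * ∫ z, Levi ψ z (∑ j, α j z • e j) * Real.exp (-ψ z) ∂(om E) ≤
      (∫ z, ‖∑ j, (dz (e j) (α j) z - dz (e j) (fun w => (ψ w : ℂ)) z * α j z)‖ ^ 2
          * Real.exp (-ψ z) ∂(om E))
      + (1 / 2) * ∑ j, ∑ k, ∫ z, ‖dzb (e j) (α k) z - dzb (e k) (α j) z‖ ^ 2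
          * Real.exp (-ψ z) ∂(om E) := by
  have hψc := hA_ofReal hψ
  have hneg : ContDiff ℝ ∞ (fun w => -ψ w) := hψ.neg
  have hT : ∀ j, KT (α j) := fun j => ⟨hα j, hc j⟩
  set T : E → ℂ := fun z => ∑ j, Dv ψ (e j) (α j) z with hTdef
  have hTT : KT T := KT.sum _ (fun j => (hT j).Dv hψ (e j))
  -- the square of the norm
  have h1 : SS ψ T T = ∑ j, ∑ k, SS ψ (Dv ψ (e j) (α j)) (Dv ψ (e k) (α k)) := by
    rw [hTdef, SS_sum_left hψ (fun j => (hT j).Dv hψ (e j)) hTT]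
    refine Finset.sum_congr rfl (fun j _ => ?_)
    rw [SS_sum_right hψ (fun k => (hT k).Dv hψ (e k)) ((hT j).Dv hψ (e j))]
  have h2 : (SS ψ T T).re = ∫ z, ‖T z‖ ^ 2 * Real.exp (-ψ z) ∂(om E) := by
    rw [re_SS hψ hTT hTT]
    refine integral_congr_ae (Eventually.of_forall fun z => ?_)
    simp only
    congr 1
    rw [Complex.mul_conj, Complex.ofReal_re, Complex.normSq_eq_norm_sq]
  -- the Levi form
  have hLint : ∀ j k, Integrable (fun z => α j z * conj (α k z) *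
      dz (e j) (dzb (e k) (fun w => (ψ w : ℂ))) z * (Real.exp (-ψ z) : ℂ)) (om E) := by
    intro j k
    exact ((((hT j).mul_smooth (hT k).conj.1).mul_smooth
      (contDiff_dz (contDiff_dzb hψc (e k)) (e j))).mul_smooth (hA_exp hneg)).integrable
  have h3 : ((1 / 4 * ∫ z, Levi ψ z (∑ j, α j z • e j) * Real.exp (-ψ z) ∂(om E) : ℝ) : ℂ) =
      ∑ j, ∑ k, ∫ z, α j z * conj (α k z) * dz (e j) (dzb (e k) (fun w => (ψ w : ℂ))) z *
        (Real.exp (-ψ z) : ℂ) ∂(om E) := by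
    rw [Complex.ofReal_mul, ← integral_complex_ofReal, ← integral_const_mul]
    have e1 : ∀ j, ∑ k, ∫ z, α j z * conj (α k z) * dz (e j) (dzb (e k) (fun w => (ψ w : ℂ))) z *
        (Real.exp (-ψ z) : ℂ) ∂(om E) = ∫ z, ∑ k, α j z * conj (α k z) *
          dz (e j) (dzb (e k) (fun w => (ψ w : ℂ))) z * (Real.exp (-ψ z) : ℂ) ∂(om E) := by
      intro j
      rw [integral_finsetSum]
      intro k _
      exact hLint j k
    rw [Finset.sum_congr rfl (fun j _ => e1 j), ← integral_finsetSum]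
    · refine integral_congr_ae (Eventually.of_forall fun z => ?_)
      simp only
      rw [Complex.ofReal_mul, levi_eq_sum (hψ.of_le ENat.LEInfty.out) z e (fun j => α j z)]
      push_cast
      rw [← mul_assoc, ← mul_assoc]
      have : (1 / 4 * 4 : ℂ) = 1 := by norm_num
      rw [this, one_mul, Finset.sum_mul]
      refine Finset.sum_congr rfl (fun j _ => ?_)
      rw [Finset.sum_mul]
    · intro j _
      exact integrable_finsetSum _ (fun k _ => hLint j k)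
  -- the lower bound for the mixed terms
  have h4 : ∀ j k, Integrable (fun z => ‖dzb (e j) (α k) z - dzb (e k) (α j) z‖ ^ 2 *
      Real.exp (-ψ z)) (om E) := by
    intro j k
    have hk : KT (fun z => dzb (e j) (α k) z - dzb (e k) (α j) z) :=
      ((hT k).dzb (e j)).sub ((hT j).dzb (e k))
    have hi := (SS_int hψ hk hk).re
    refine hi.congr (Eventually.of_forall fun z => ?_)
    simp only
    have : RCLike.re ((dzb (e j) (α k) z - dzb (e k) (α j) z) *
        conj (dzb (e j) (α k) z - dzb (e k) (α j) z) * (Real.exp (-ψ z) : ℂ)) =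
        ((dzb (e j) (α k) z - dzb (e k) (α j) z) *
        conj (dzb (e j) (α k) z - dzb (e k) (α j) z) * (Real.exp (-ψ z) : ℂ)).re := rfl
    rw [this, Complex.re_mul_ofReal, Complex.mul_conj, Complex.ofReal_re,
      Complex.normSq_eq_norm_sq]
  have h5 : ∀ j k, -(1 / 2) * ∫ z, ‖dzb (e j) (α k) z - dzb (e k) (α j) z‖ ^ 2 *
      Real.exp (-ψ z) ∂(om E) ≤ (SS ψ (dzb (e k) (α j)) (dzb (e j) (α k))).re := by
    intro j k
    rw [re_SS hψ ((hT j).dzb (e k)) ((hT k).dzb (e j)), ← integral_const_mul]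
    have hi : Integrable (fun z => (dzb (e k) (α j) z * conj (dzb (e j) (α k) z)).re *
        Real.exp (-ψ z)) (om E) := by
      have hi := (SS_int hψ ((hT j).dzb (e k)) ((hT k).dzb (e j))).re
      refine hi.congr (Eventually.of_forall fun z => ?_)
      simp only
      have : RCLike.re (dzb (e k) (α j) z * conj (dzb (e j) (α k) z) *
          (Real.exp (-ψ z) : ℂ)) = (dzb (e k) (α j) z * conj (dzb (e j) (α k) z) *
          (Real.exp (-ψ z) : ℂ)).re := rfl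
      rw [this, Complex.re_mul_ofReal]
    refine integral_mono ((h4 j k).const_mul _) hi (fun z => ?_)
    simp only
    rw [← mul_assoc]
    refine mul_le_mul_of_nonneg_right ?_ (Real.exp_pos _).le
    have e2 : ‖dzb (e j) (α k) z - dzb (e k) (α j) z‖ ^ 2 =
        ‖dzb (e j) (α k) z‖ ^ 2 + ‖dzb (e k) (α j) z‖ ^ 2 -
          2 * (dzb (e k) (α j) z * conj (dzb (e j) (α k) z)).re := by
      rw [← Complex.normSq_eq_norm_sq, ← Complex.normSq_eq_norm_sq, ← Complex.normSq_eq_norm_sq,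
        Complex.normSq_apply, Complex.normSq_apply, Complex.normSq_apply]
      simp only [Complex.sub_re, Complex.sub_im, Complex.mul_re, Complex.conj_re, Complex.conj_im]
      ring
    rw [e2]
    nlinarith [sq_nonneg ‖dzb (e j) (α k) z‖, sq_nonneg ‖dzb (e k) (α j) z‖]
  -- assembly
  have h6 : (SS ψ T T).re = (∑ j, ∑ k, (SS ψ (dzb (e k) (α j)) (dzb (e j) (α k))).re) +
      1 / 4 * ∫ z, Levi ψ z (∑ j, α j z • e j) * Real.exp (-ψ z) ∂(om E) := by
    have e3 : SS ψ T T = (∑ j, ∑ k, SS ψ (dzb (e k) (α j)) (dzb (e j) (α k))) +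
        ((1 / 4 * ∫ z, Levi ψ z (∑ j, α j z • e j) * Real.exp (-ψ z) ∂(om E) : ℝ) : ℂ) := by
      rw [h1, h3, ← Finset.sum_add_distrib]
      refine Finset.sum_congr rfl (fun j _ => ?_)
      rw [← Finset.sum_add_distrib]
      refine Finset.sum_congr rfl (fun k _ => ?_)
      exact SS_pair hψ (hT j) (hT k) (e j) (e k)
    rw [e3, Complex.add_re, Complex.ofReal_re, Complex.re_sum]
    congr 1
    refine Finset.sum_congr rfl (fun j _ => ?_)
    rw [Complex.re_sum]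
  have h7 : -(1 / 2) * ∑ j, ∑ k, ∫ z, ‖dzb (e j) (α k) z - dzb (e k) (α j) z‖ ^ 2
      * Real.exp (-ψ z) ∂(om E) ≤ ∑ j, ∑ k, (SS ψ (dzb (e k) (α j)) (dzb (e j) (α k))).re := by
    rw [Finset.mul_sum]
    refine Finset.sum_le_sum (fun j _ => ?_)
    rw [Finset.mul_sum]
    exact Finset.sum_le_sum (fun k _ => h5 j k)
  have h8 : (∫ z, ‖∑ j, (dz (e j) (α j) z - dz (e j) (fun w => (ψ w : ℂ)) z * α j z)‖ ^ 2
      * Real.exp (-ψ z) ∂(om E)) = ∫ z, ‖T z‖ ^ 2 * Real.exp (-ψ z) ∂(om E) := rfl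
  rw [h8, ← h2, h6]
  linarith

end Main

end Pool.Agent.Edge
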