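import Pool.Agent.Edge.Moll

/-!
# Cut-off functions and `L²` convergence of mollifications
-/

namespace Pool.Agent.Edge

open MeasureTheory Filter Topology Complex

open scoped ComplexConjugate ContDiff ENNReal

variable {E : Type*} [NormedAddCommGroup E] [InnerProductSpace ℂ E]

/-- smooth cut-off functions with `|Dχ| ≤ C/R`: `χ(z) = h(‖z‖²/R²)` with `h` smooth, `h = 1` on
`(-∞,1]`, `h = 0` on `[4,∞)` (e.g. from `Real.smoothTransition`). -/
theorem exists_cutoff (E : Type*) [NormedAddCommGroup E] [InnerProductSpace ℂ E] :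
    ∃ C : ℝ, 0 ≤ C ∧ ∀ R : ℝ, 1 ≤ R → ∃ χ : E → ℝ, ContDiff ℝ ∞ χ ∧ (∀ z, 0 ≤ χ z ∧ χ z ≤ 1) ∧
      (∀ z, ‖z‖ ≤ R → χ z = 1) ∧ (∀ z, 2 * R ≤ ‖z‖ → χ z = 0) ∧
      (∀ z, ‖fderiv ℝ χ z‖ ≤ C / R) ∧ (∀ z, ‖z‖ < R → fderiv ℝ χ z = 0) ∧
      (∀ z, 2 * R < ‖z‖ → fderiv ℝ χ z = 0) := by
  -- one-dimensional profile `k(t) = h(t²)`
  set k : ℝ → ℝ := fun t => Real.smoothTransition ((4 - t ^ 2) / 3) with hk
  have hkd : ContDiff ℝ ∞ k := Real.smoothTransition.contDiff.comp (by fun_prop)
  have hk0 : ∀ t : ℝ, 2 ≤ |t| → k t = 0 := by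
    intro t ht
    apply Real.smoothTransition.zero_of_nonpos
    have : 4 ≤ t ^ 2 := by
      rw [← sq_abs]; nlinarith
    linarith
  have hkc : HasCompactSupport k := by
    refine HasCompactSupport.intro (isCompact_Icc (a := (-2:ℝ)) (b := 2)) fun t ht => ?_
    apply hk0
    by_contra hlt
    push Not at hlt
    exact ht ⟨by linarith [neg_abs_le t], by linarith [le_abs_self t]⟩
  have hkd' : Continuous (deriv k) := hkd.continuous_deriv (by simp)
  obtain ⟨M, hM⟩ := (hkc.deriv).exists_bound_of_continuous hkd'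
  have hM0 : 0 ≤ M := (norm_nonneg _).trans (hM 0)
  have hLip : LipschitzWith (Real.toNNReal M) k := by
    refine lipschitzWith_of_nnnorm_deriv_le (hkd.differentiable (by simp)) fun x => ?_
    rw [← NNReal.coe_le_coe, Real.coe_toNNReal _ hM0]
    exact hM x
  refine ⟨M, hM0, fun R hR => ?_⟩
  have hR0 : 0 < R := by linarith
  set χ : E → ℝ := fun z => k (‖z‖ / R) with hχ
  have hχ2 : χ = fun z => Real.smoothTransition ((4 - ‖z‖ ^ 2 / R ^ 2) / 3) := by
    funext z
    simp only [hχ, hk, div_pow]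
  have h1 : ∀ z, ‖z‖ ≤ R → χ z = 1 := by
    intro z hz
    rw [hχ2]
    apply Real.smoothTransition.one_of_one_le
    have : ‖z‖ ^ 2 / R ^ 2 ≤ 1 := by
      rw [div_le_one (by positivity)]
      exact pow_le_pow_left₀ (norm_nonneg z) hz 2
    linarith
  have h0 : ∀ z, 2 * R ≤ ‖z‖ → χ z = 0 := by
    intro z hz
    apply hk0
    rw [abs_of_nonneg (by positivity), le_div_iff₀ hR0]
    exact hz
  refine ⟨χ, ?_, ?_, h1, h0, ?_, ?_, ?_⟩
  · rw [hχ2]
    refine Real.smoothTransition.contDiff.comp ?_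
    have := contDiff_norm_sq (E := E) (n := ∞) ℂ
    fun_prop
  · intro z
    exact ⟨Real.smoothTransition.nonneg _, Real.smoothTransition.le_one _⟩
  · intro z
    have hL : LipschitzWith (Real.toNNReal (M / R)) χ := by
      refine LipschitzWith.of_dist_le_mul fun x y => ?_
      rw [Real.coe_toNNReal _ (by positivity)]
      have h2 := hLip.dist_le_mul (‖x‖ / R) (‖y‖ / R)
      rw [Real.coe_toNNReal _ hM0] at h2
      refine h2.trans ?_
      rw [Real.dist_eq, dist_eq_norm, ← sub_div, abs_div, abs_of_pos hR0]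
      have h3 := abs_norm_sub_norm_le x y
      calc M * (|‖x‖ - ‖y‖| / R) ≤ M * (‖x - y‖ / R) := by gcongr
        _ = M / R * ‖x - y‖ := by ring
    have h4 := norm_fderiv_le_of_lipschitz ℝ hL (x₀ := z)
    rwa [Real.coe_toNNReal _ (by positivity)] at h4
  · intro z hz
    have h2 : χ =ᶠ[𝓝 z] fun _ => (1:ℝ) := by
      have : ∀ᶠ w in 𝓝 z, ‖w‖ < R := continuous_norm.continuousAt.eventually_lt_const hz
      filter_upwards [this] with w hw
      exact h1 w hw.le
    rw [h2.fderiv_eq]
    simp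
  · intro z hz
    have h2 : χ =ᶠ[𝓝 z] fun _ => (0:ℝ) := by
      have : ∀ᶠ w in 𝓝 z, 2 * R < ‖w‖ := continuous_norm.continuousAt.eventually_const_lt hz
      filter_upwards [this] with w hw
      exact h0 w hw.le
    rw [h2.fderiv_eq]
    simp

variable [FiniteDimensional ℂ E] [MeasurableSpace E] [BorelSpace E]
variable {G : Type*} [NormedAddCommGroup G] [NormedSpace ℝ G] [CompleteSpace G]

omit [CompleteSpace G] in
theorem integrable_kernel {f : E → G} (hf : LocallyIntegrable f (om E)) {s : ℝ} (hs : 0 < s)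
    (z : E) : Integrable (fun w => rho (s⁻¹ • (z - w)) • f w) (om E) := by
  refine hf.integrable_smul_left_of_hasCompactSupport ?_ ?_
  · exact (rho_contDiff (E := E)).continuous.comp (by fun_prop)
  · have h1 := (rho_hasCompactSupport (E := E)).comp_homeomorph
      ((Homeomorph.subLeft z).trans (Homeomorph.smulOfNeZero s⁻¹ (inv_pos.2 hs).ne'))
    exact h1

theorem moll_sub' {f g : E → G} (hf : LocallyIntegrable f (om E))
    (hg : LocallyIntegrable g (om E)) {s : ℝ} (hs : 0 < s) (z : E) :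
    moll s (fun w => f w - g w) z = moll s f z - moll s g z := by
  rw [moll_eq s hs, moll_eq s hs, moll_eq s hs, ← smul_sub,
    ← integral_sub (integrable_kernel hf hs z) (integrable_kernel hg hs z)]
  simp only [smul_sub]

theorem moll_congr {f g : E → G} (h : f =ᵐ[om E] g) {s : ℝ} (hs : 0 < s) (z : E) :
    moll s f z = moll s g z := by
  rw [moll_eq s hs, moll_eq s hs]
  congr 1
  refine integral_congr_ae ?_
  filter_upwards [h] with w hw
  rw [hw]

/-- the probability measure with density `rho`. -/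
noncomputable def rhoM (E : Type*) [NormedAddCommGroup E] [InnerProductSpace ℂ E]
    [FiniteDimensional ℂ E] [MeasurableSpace E] [BorelSpace E] : Measure E :=
  (om E).withDensity fun y => ENNReal.ofReal (rho y)

instance : IsProbabilityMeasure (rhoM E) := by
  constructor
  rw [rhoM, withDensity_apply _ MeasurableSet.univ, Measure.restrict_univ,
    ← ofReal_integral_eq_lintegral_ofReal rho_integrable (Eventually.of_forall rho_nonneg),
    integral_rho, ENNReal.ofReal_one]

omit [CompleteSpace G] in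
theorem enorm_moll_le {f : E → G} (hf : StronglyMeasurable f) (s : ℝ) (z : E) :
    ‖moll s f z‖ₑ ≤ eLpNorm (fun y => f (z - s • y)) 2 (rhoM E) := by
  have hm : StronglyMeasurable (fun y => f (z - s • y)) :=
    hf.comp_measurable (by fun_prop)
  have h1 : ‖moll s f z‖ₑ ≤ eLpNorm (fun y => f (z - s • y)) 1 (rhoM E) := by
    refine (enorm_integral_le_lintegral_enorm _).trans ?_
    rw [eLpNorm_one_eq_lintegral_enorm, rhoM,
      lintegral_withDensity_eq_lintegral_mul₀ _ hm.enorm.aemeasurable]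
    · refine lintegral_mono fun y => ?_
      rw [enorm_smul, Pi.mul_apply]
      refine mul_le_mul_left ?_ _
      rw [Real.enorm_of_nonneg (rho_nonneg y)]
    · exact (ENNReal.measurable_ofReal.comp
        (rho_contDiff (E := E)).continuous.measurable).aemeasurable
  exact h1.trans (eLpNorm_le_eLpNorm_of_exponent_le (by norm_num) hm.aestronglyMeasurable)

/-- Young: `∫ ‖moll s f‖² ≤ ∫ ‖f‖²` (pointwise Cauchy–Schwarz/Jensen, Tonelli), with
measurability. -/
theorem moll_memLp {f : E → G} (hf : MemLp f 2 (om E)) {s : ℝ} (hs : 0 < s) :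
    MemLp (moll s f) 2 (om E) ∧ eLpNorm (moll s f) 2 (om E) ≤ eLpNorm f 2 (om E) := by
  have hloc : LocallyIntegrable f (om E) := hf.locallyIntegrable (by norm_num)
  have hcont : Continuous (moll s f) := (moll_contDiff hs hloc).continuous
  suffices h : eLpNorm (moll s f) 2 (om E) ≤ eLpNorm f 2 (om E) from
    ⟨⟨hcont.aestronglyMeasurable, h.trans_lt hf.2⟩, h⟩
  -- strongly measurable representative
  obtain ⟨f', hf'm, hff'⟩ := hf.1
  have e1 : moll s f = moll s f' := by
    funext z
    exact moll_congr hff' hs z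
  rw [e1, eLpNorm_congr_ae hff']
  have h2 : ∀ g : E → G, eLpNorm g 2 (om E) = (∫⁻ z, ‖g z‖ₑ ^ (2:ℝ) ∂(om E)) ^ (1 / (2:ℝ)) := by
    intro g
    rw [eLpNorm_eq_lintegral_rpow_enorm_toReal (by norm_num) (by norm_num)]
    simp
  rw [h2, h2]
  refine ENNReal.rpow_le_rpow ?_ (by norm_num)
  calc ∫⁻ z, ‖moll s f' z‖ₑ ^ (2:ℝ) ∂(om E)
      ≤ ∫⁻ z, ∫⁻ y, ‖f' (z - s • y)‖ₑ ^ (2:ℝ) ∂(rhoM E) ∂(om E) := by
        refine lintegral_mono fun z => ?_
        refine (ENNReal.rpow_le_rpow (enorm_moll_le hf'm s z) (by norm_num)).trans ?_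
        rw [eLpNorm_eq_lintegral_rpow_enorm_toReal (by norm_num) (by norm_num)]
        simp only [ENNReal.toReal_ofNat]
        rw [← ENNReal.rpow_mul]
        norm_num
    _ = ∫⁻ y, ∫⁻ z, ‖f' (z - s • y)‖ₑ ^ (2:ℝ) ∂(om E) ∂(rhoM E) := by
        refine lintegral_lintegral_swap ?_
        have : StronglyMeasurable (fun p : E × E => f' (p.1 - s • p.2)) :=
          hf'm.comp_measurable (by fun_prop)
        exact (this.enorm.pow_const _).aemeasurable
    _ = ∫⁻ y, ∫⁻ z, ‖f' z‖ₑ ^ (2:ℝ) ∂(om E) ∂(rhoM E) := by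
        refine lintegral_congr fun y => ?_
        exact lintegral_sub_right_eq_self (fun z => ‖f' z‖ₑ ^ (2:ℝ)) (s • y)
    _ = ∫⁻ z, ‖f' z‖ₑ ^ (2:ℝ) ∂(om E) := by
        rw [lintegral_const]
        simp

omit [CompleteSpace G] in
/-- supports: if `f = 0` outside `closedBall 0 R` then `moll s f = 0` outside
`closedBall 0 (R+s)`. -/
theorem moll_support {f : E → G} {R : ℝ} (hf : ∀ z, R < ‖z‖ → f z = 0) {s : ℝ} (hs : 0 < s)
    {z : E} (hz : R + s < ‖z‖) : moll s f z = 0 := by
  rw [moll]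
  have h : (fun y => rho y • f (z - s • y)) = fun _ : E => (0 : G) := by
    funext y
    by_cases hy : 1 ≤ ‖y‖
    · rw [rho_eq_zero hy, zero_smul]
    · push Not at hy
      rw [hf, smul_zero]
      have h1 : ‖z‖ ≤ ‖z - s • y‖ + ‖s • y‖ := by
        have := norm_add_le (z - s • y) (s • y)
        simpa using this
      rw [norm_smul, Real.norm_of_nonneg hs.le] at h1
      have h2 : s * ‖y‖ ≤ s := by nlinarith
      linarith
  rw [h]
  simp

/-- `moll s f → f` in `L²` (approximate `f` in `L²` by a continuous compactly supported `g`,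
`MemLp.exists_hasCompactSupport_eLpNorm_sub_le`; `moll s g → g` uniformly with supports in a fixed
compact set; `moll_memLp` for `f - g`). -/
theorem moll_tendsto_L2 {f : E → G} (hf : MemLp f 2 (om E)) :
    Tendsto (fun s : ℝ => eLpNorm (fun z => moll s f z - f z) 2 (om E)) (𝓝[>] 0) (𝓝 0) := by
  rw [ENNReal.tendsto_nhds_zero]
  intro ε hε
  by_cases hεt : ε = ⊤
  · exact Eventually.of_forall fun s => hεt ▸ le_top
  have hε3 : ε / 3 ≠ 0 := by
    simp [hε.ne']
  obtain ⟨g, hgc, hfg, hgcont, hgL⟩ :=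
    hf.exists_hasCompactSupport_eLpNorm_sub_le (by norm_num) hε3
  obtain ⟨R, hR⟩ : ∃ R : ℝ, ∀ z, R < ‖z‖ → g z = 0 := by
    obtain ⟨R, hR⟩ := hgc.isCompact.isBounded.subset_closedBall (0 : E)
    refine ⟨R, fun z hz => ?_⟩
    by_contra hne
    have h1 : z ∈ Metric.closedBall (0:E) R := hR (subset_tsupport g hne)
    rw [mem_closedBall_zero_iff] at h1
    linarith
  set K : Set E := Metric.closedBall 0 (R + 1) with hK
  have hKc : IsCompact K := isCompact_closedBall _ _
  have hKfin : (om E) K < ⊤ := hKc.measure_lt_top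
  -- choose `η` with `μ(K)^{1/2} η ≤ ε/3`
  obtain ⟨η, hη0, hη⟩ : ∃ η : ℝ, 0 < η ∧
      (om E) K ^ (1 / (2:ℝ)) * ENNReal.ofReal η ≤ ε / 3 := by
    have hA : (om E) K ^ (1 / (2:ℝ)) ≠ ⊤ := ENNReal.rpow_ne_top_of_nonneg (by norm_num) hKfin.ne
    set A := ((om E) K ^ (1 / (2:ℝ))).toReal with hAdef
    have hAA : (om E) K ^ (1 / (2:ℝ)) = ENNReal.ofReal A := (ENNReal.ofReal_toReal hA).symm
    have hε3t : ε / 3 ≠ ⊤ := ENNReal.div_ne_top hεt (by norm_num)
    set e := (ε / 3).toReal with hedef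
    have he : ε / 3 = ENNReal.ofReal e := (ENNReal.ofReal_toReal hε3t).symm
    have he0 : 0 < e := ENNReal.toReal_pos hε3 hε3t
    have hA0 : 0 ≤ A := ENNReal.toReal_nonneg
    refine ⟨e / (A + 1), by positivity, ?_⟩
    rw [hAA, he, ← ENNReal.ofReal_mul hA0]
    apply ENNReal.ofReal_le_ofReal
    rw [← mul_div_assoc, div_le_iff₀ (by positivity)]
    nlinarith
  have hunif : ∀ᶠ s in 𝓝[>] (0:ℝ), ∀ z ∈ K, ‖moll s g z - g z‖ ≤ η := by
    have h1 := (tendstoLocallyUniformlyOn_univ.2 (moll_tendsto hgcont)).mono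
      (Set.subset_univ K)
    rw [tendstoLocallyUniformlyOn_iff_tendstoUniformlyOn_of_compact hKc] at h1
    rw [Metric.tendstoUniformlyOn_iff] at h1
    filter_upwards [h1 η hη0] with s hs z hz
    rw [← dist_eq_norm, dist_comm]
    exact (hs z hz).le
  have hs1 : ∀ᶠ s in 𝓝[>] (0:ℝ), s < 1 :=
    mem_nhdsWithin_of_mem_nhds (Iio_mem_nhds one_pos)
  filter_upwards [hunif, hs1, self_mem_nhdsWithin] with s hsu hs1 hs0
  have hs0' : 0 < s := hs0
  have hloc : LocallyIntegrable f (om E) := hf.locallyIntegrable (by norm_num)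
  have hlocg : LocallyIntegrable g (om E) := hgcont.locallyIntegrable
  have hdecomp : (fun z => moll s f z - f z) =
      ((moll s (fun w => f w - g w)) + fun z => moll s g z - g z) - (fun z => f z - g z) := by
    funext z
    simp only [Pi.add_apply, Pi.sub_apply, moll_sub' hloc hlocg hs0' z]
    abel
  have hcf : Continuous (moll s f) := (moll_contDiff hs0' hloc).continuous
  have hcg : Continuous (moll s g) := (moll_contDiff hs0' hlocg).continuous
  have hfgL : MemLp (fun w => f w - g w) 2 (om E) := hf.sub hgL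
  have b1 : eLpNorm (moll s (fun w => f w - g w)) 2 (om E) ≤ ε / 3 :=
    (moll_memLp hfgL hs0').2.trans hfg
  have b2 : eLpNorm (fun z => moll s g z - g z) 2 (om E) ≤ ε / 3 := by
    have hsup : ∀ z ∉ K, moll s g z - g z = 0 := by
      intro z hz
      have hz' : R + 1 < ‖z‖ := by
        simpa [hK] using hz
      rw [moll_support hR hs0' (by linarith), hR z (by linarith), sub_zero]
    have e2 : (fun z => moll s g z - g z) = K.indicator (fun z => moll s g z - g z) := by
      funext z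
      by_cases hz : z ∈ K
      · rw [Set.indicator_of_mem hz]
      · rw [Set.indicator_of_notMem hz]
        exact hsup z hz
    rw [e2, eLpNorm_indicator_eq_eLpNorm_restrict hKc.measurableSet]
    have h3 := eLpNorm_le_of_ae_bound (μ := (om E).restrict K) (p := 2)
      (f := fun z => moll s g z - g z) (C := η)
      ((ae_restrict_iff' hKc.measurableSet).2 (Eventually.of_forall hsu))
    refine h3.trans (le_trans (le_of_eq ?_) hη)
    simp
  have b3 : eLpNorm (fun z => f z - g z) 2 (om E) ≤ ε / 3 := hfg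
  rw [hdecomp]
  have m1 : AEStronglyMeasurable (moll s (fun w => f w - g w)) (om E) :=
    (moll_memLp hfgL hs0').1.1
  have m2 : AEStronglyMeasurable (fun z => moll s g z - g z) (om E) :=
    (hcg.sub hgcont).aestronglyMeasurable
  calc eLpNorm (((moll s (fun w => f w - g w)) + fun z => moll s g z - g z) -
        (fun z => f z - g z)) 2 (om E)
      ≤ eLpNorm ((moll s (fun w => f w - g w)) + fun z => moll s g z - g z) 2 (om E) +
        eLpNorm (fun z => f z - g z) 2 (om E) :=
        eLpNorm_sub_le (m1.add m2) hfgL.1 (by norm_num)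
    _ ≤ (eLpNorm (moll s (fun w => f w - g w)) 2 (om E) +
        eLpNorm (fun z => moll s g z - g z) 2 (om E)) +
        eLpNorm (fun z => f z - g z) 2 (om E) := by
        gcongr
        exact eLpNorm_add_le m1 m2 (by norm_num)
    _ ≤ (ε / 3 + ε / 3) + ε / 3 := by gcongr
    _ = ε := ENNReal.add_thirds ε

end Pool.Agent.Edge
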