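import Pool.Agent.Edge.LeviCalc

/-!
# The operators `∂_v`, `∂̄_v`
-/

namespace Pool.Agent.Edge

open MeasureTheory Filter Topology Complex

open scoped ComplexConjugate ContDiff

variable {E : Type*} [NormedAddCommGroup E] [InnerProductSpace ℂ E]

/-- `∂_v F = ½ (DF(v) - i DF(iv))` (complex linear in `v`). -/
noncomputable def dz (v : E) (F : E → ℂ) (z : E) : ℂ :=
  (fderiv ℝ F z v - I * fderiv ℝ F z (I • v)) / 2

/-- `∂̄_v F = ½ (DF(v) + i DF(iv))` (antilinear in `v`). -/
noncomputable def dzb (v : E) (F : E → ℂ) (z : E) : ℂ :=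
  (fderiv ℝ F z v + I * fderiv ℝ F z (I • v)) / 2

theorem csmul_eq (c : ℂ) (v : E) : c • v = c.re • v + c.im • (I • v) := by
  conv_lhs => rw [← Complex.re_add_im c]
  rw [add_smul, mul_smul, Complex.coe_smul, Complex.coe_smul]

theorem map_csmul (L : E →L[ℝ] ℂ) (c : ℂ) (v : E) :
    L (c • v) = c.re * L v + c.im * L (I • v) := by
  rw [csmul_eq, map_add, map_smul, map_smul]
  simp

theorem map_I_csmul (L : E →L[ℝ] ℂ) (c : ℂ) (v : E) :
    L (I • c • v) = c.re * L (I • v) - c.im * L v := by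
  rw [smul_smul, map_csmul]
  simp
  ring

theorem dz_smul (c : ℂ) (v : E) (F : E → ℂ) (z : E) : dz (c • v) F z = c * dz v F z := by
  unfold dz
  rw [map_csmul, map_I_csmul]
  conv_rhs => rw [← Complex.re_add_im c]
  linear_combination (c.im * fderiv ℝ F z (I • v)) / 2 * Complex.I_sq

theorem dzb_smul (c : ℂ) (v : E) (F : E → ℂ) (z : E) :
    dzb (c • v) F z = conj c * dzb v F z := by
  unfold dzb
  rw [map_csmul, map_I_csmul]
  conv_rhs => rw [← Complex.re_add_im c]
  simp only [map_add, map_mul, Complex.conj_ofReal, Complex.conj_I]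
  linear_combination (c.im * fderiv ℝ F z (I • v)) / 2 * Complex.I_sq

theorem dz_vadd (u v : E) (F : E → ℂ) (z : E) : dz (u + v) F z = dz u F z + dz v F z := by
  unfold dz
  rw [smul_add, map_add, map_add]
  ring

theorem dzb_vadd (u v : E) (F : E → ℂ) (z : E) : dzb (u + v) F z = dzb u F z + dzb v F z := by
  unfold dzb
  rw [smul_add, map_add, map_add]
  ring

theorem dz_add {F G : E → ℂ} {z : E} (hF : DifferentiableAt ℝ F z) (hG : DifferentiableAt ℝ G z)
    (v : E) : dz v (fun w => F w + G w) z = dz v F z + dz v G z := by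
  unfold dz
  rw [(hF.hasFDerivAt.fun_add hG.hasFDerivAt).fderiv]
  simp only [add_apply]
  ring

theorem dzb_add {F G : E → ℂ} {z : E} (hF : DifferentiableAt ℝ F z) (hG : DifferentiableAt ℝ G z)
    (v : E) : dzb v (fun w => F w + G w) z = dzb v F z + dzb v G z := by
  unfold dzb
  rw [(hF.hasFDerivAt.fun_add hG.hasFDerivAt).fderiv]
  simp only [add_apply]
  ring

theorem dz_mul {F G : E → ℂ} {z : E} (hF : DifferentiableAt ℝ F z) (hG : DifferentiableAt ℝ G z)
    (v : E) : dz v (fun w => F w * G w) z = dz v F z * G z + F z * dz v G z := by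
  unfold dz
  rw [(hF.hasFDerivAt.fun_mul hG.hasFDerivAt).fderiv]
  simp only [add_apply, smul_apply, smul_eq_mul]
  ring

theorem dzb_mul {F G : E → ℂ} {z : E} (hF : DifferentiableAt ℝ F z) (hG : DifferentiableAt ℝ G z)
    (v : E) : dzb v (fun w => F w * G w) z = dzb v F z * G z + F z * dzb v G z := by
  unfold dzb
  rw [(hF.hasFDerivAt.fun_mul hG.hasFDerivAt).fderiv]
  simp only [add_apply, smul_apply, smul_eq_mul]
  ring

theorem fderiv_conj_apply (F : E → ℂ) (z v : E) :
    fderiv ℝ (fun w => conj (F w)) z v = conj (fderiv ℝ F z v) := by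
  have h : fderiv ℝ (Complex.conjCLE ∘ F) z =
      (Complex.conjCLE : ℂ →L[ℝ] ℂ).comp (fderiv ℝ F z) := Complex.conjCLE.comp_fderiv
  have h2 : (fun w => conj (F w)) = Complex.conjCLE ∘ F := by
    funext w; simp
  rw [h2, h]
  simp

theorem dz_conj (F : E → ℂ) (v z : E) : dz v (fun w => conj (F w)) z = conj (dzb v F z) := by
  unfold dz dzb
  rw [fderiv_conj_apply, fderiv_conj_apply]
  simp only [map_div₀, map_add, map_mul, Complex.conj_I, Complex.conj_ofNat]
  ring

theorem dzb_conj (F : E → ℂ) (v z : E) : dzb v (fun w => conj (F w)) z = conj (dz v F z) := by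
  unfold dz dzb
  rw [fderiv_conj_apply, fderiv_conj_apply]
  simp only [map_div₀, map_sub, map_mul, Complex.conj_I, Complex.conj_ofNat]
  ring

theorem dzb_eq_zero {F : E → ℂ} {z : E} (hF : DifferentiableAt ℂ F z) (v : E) :
    dzb v F z = 0 := by
  unfold dzb
  rw [hF.fderiv_restrictScalars ℝ]
  simp only [ContinuousLinearMap.coe_restrictScalars', map_smul, smul_eq_mul]
  linear_combination (fderiv ℂ F z v) / 2 * Complex.I_sq

/-- a real-differentiable function with `∂̄ = 0` is holomorphic. -/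
theorem differentiable_of_dzb {F : E → ℂ} (hF : Differentiable ℝ F)
    (h : ∀ z v, dzb v F z = 0) : Differentiable ℂ F := by
  intro z
  rw [differentiableAt_iff_restrictScalars ℝ (hF z)]
  have hI : ∀ v, fderiv ℝ F z (I • v) = I * fderiv ℝ F z v := by
    intro v
    have h1 := h z v
    unfold dzb at h1
    linear_combination (-2 * I) * h1 + (fderiv ℝ F z (I • v)) * Complex.I_sq
  refine ⟨⟨⟨⟨fun v => fderiv ℝ F z v, fun u v => map_add _ u v⟩, fun c v => ?_⟩,
    (fderiv ℝ F z).cont⟩, ?_⟩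
  · show fderiv ℝ F z (c • v) = c • fderiv ℝ F z v
    rw [map_csmul, hI]
    conv_rhs => rw [← Complex.re_add_im c]
    simp only [smul_eq_mul]
    ring
  · ext v
    rfl

/-- derivative of `z ↦ DF(z) v`. -/
theorem fderiv_fderiv_apply {G : Type*} [NormedAddCommGroup G] [NormedSpace ℝ G] {F : E → G}
    (hF : ContDiff ℝ 2 F) (v z : E) :
    HasFDerivAt (fun w => fderiv ℝ F w v) ((fderiv ℝ (fderiv ℝ F) z).flip v) z := by
  have h1 : Differentiable ℝ (fderiv ℝ F) :=
    (hF.fderiv_right (m := 1) (by norm_num)).differentiable (by norm_num)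
  have h2 := (h1 z).hasFDerivAt.clm_apply (hasFDerivAt_const v z)
  convert h2 using 1
  ext u
  simp

theorem fderiv_dz {F : E → ℂ} (hF : ContDiff ℝ 2 F) (v z u : E) :
    fderiv ℝ (dz v F) z u =
      (fderiv ℝ (fderiv ℝ F) z u v - I * fderiv ℝ (fderiv ℝ F) z u (I • v)) / 2 := by
  have h1 := fderiv_fderiv_apply hF v z
  have h2 := fderiv_fderiv_apply hF (I • v) z
  have h3 : HasFDerivAt (dz v F) (((2:ℂ)⁻¹) • ((fderiv ℝ (fderiv ℝ F) z).flip v
      - I • (fderiv ℝ (fderiv ℝ F) z).flip (I • v))) z := by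
    have h4 := (h1.fun_sub (h2.const_mul I)).const_mul ((2:ℂ)⁻¹)
    have h5 : dz v F = fun w => (2:ℂ)⁻¹ * (fderiv ℝ F w v - I * fderiv ℝ F w (I • v)) := by
      funext w; unfold dz; ring
    rw [h5]
    exact h4
  rw [h3.fderiv]
  simp
  ring

theorem fderiv_dzb {F : E → ℂ} (hF : ContDiff ℝ 2 F) (v z u : E) :
    fderiv ℝ (dzb v F) z u =
      (fderiv ℝ (fderiv ℝ F) z u v + I * fderiv ℝ (fderiv ℝ F) z u (I • v)) / 2 := by
  have h1 := fderiv_fderiv_apply hF v z
  have h2 := fderiv_fderiv_apply hF (I • v) z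
  have h3 : HasFDerivAt (dzb v F) (((2:ℂ)⁻¹) • ((fderiv ℝ (fderiv ℝ F) z).flip v
      + I • (fderiv ℝ (fderiv ℝ F) z).flip (I • v))) z := by
    have h4 := (h1.fun_add (h2.const_mul I)).const_mul ((2:ℂ)⁻¹)
    have h5 : dzb v F = fun w => (2:ℂ)⁻¹ * (fderiv ℝ F w v + I * fderiv ℝ F w (I • v)) := by
      funext w; unfold dzb; ring
    rw [h5]
    exact h4
  rw [h3.fderiv]
  simp
  ring

theorem snd_symm {G : Type*} [NormedAddCommGroup G] [NormedSpace ℝ G] {F : E → G}
    (hF : ContDiff ℝ 2 F) (z u v : E) :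
    fderiv ℝ (fderiv ℝ F) z u v = fderiv ℝ (fderiv ℝ F) z v u := by
  have h := (hF.contDiffAt (x := z)).isSymmSndFDerivAt (by simp)
  exact h.eq u v

/-- commutation of `∂_u` and `∂̄_v` on `C²` functions. -/
theorem dz_dzb_comm {F : E → ℂ} (hF : ContDiff ℝ 2 F) (u v z : E) :
    dz u (dzb v F) z = dzb v (dz u F) z := by
  rw [dz, dzb, fderiv_dzb hF, fderiv_dzb hF, fderiv_dz hF, fderiv_dz hF,
    snd_symm hF z u v, snd_symm hF z u (I • v), snd_symm hF z (I • u) v,
    snd_symm hF z (I • u) (I • v)]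
  ring

theorem dzb_dzb_comm {F : E → ℂ} (hF : ContDiff ℝ 2 F) (u v z : E) :
    dzb u (dzb v F) z = dzb v (dzb u F) z := by
  rw [dzb, dzb, fderiv_dzb hF, fderiv_dzb hF, fderiv_dzb hF, fderiv_dzb hF,
    snd_symm hF z u v, snd_symm hF z u (I • v), snd_symm hF z (I • u) v,
    snd_symm hF z (I • u) (I • v)]
  ring

theorem contDiff_dz {F : E → ℂ} (hF : ContDiff ℝ ∞ F) (v : E) : ContDiff ℝ ∞ (dz v F) := by
  have h1 : ContDiff ℝ ∞ (fderiv ℝ F) := hF.fderiv_right (m := ∞) (by simp)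
  have h2 : ∀ u : E, ContDiff ℝ ∞ (fun z => fderiv ℝ F z u) := fun u =>
    h1.clm_apply contDiff_const
  have h3 : dz v F = fun w => (fderiv ℝ F w v - I * fderiv ℝ F w (I • v)) * (2:ℂ)⁻¹ := by
    funext w; unfold dz; ring
  rw [h3]
  exact ((h2 v).sub (contDiff_const.mul (h2 (I • v)))).mul contDiff_const

theorem contDiff_dzb {F : E → ℂ} (hF : ContDiff ℝ ∞ F) (v : E) : ContDiff ℝ ∞ (dzb v F) := by
  have h1 : ContDiff ℝ ∞ (fderiv ℝ F) := hF.fderiv_right (m := ∞) (by simp)
  have h2 : ∀ u : E, ContDiff ℝ ∞ (fun z => fderiv ℝ F z u) := fun u =>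
    h1.clm_apply contDiff_const
  have h3 : dzb v F = fun w => (fderiv ℝ F w v + I * fderiv ℝ F w (I • v)) * (2:ℂ)⁻¹ := by
    funext w; unfold dzb; ring
  rw [h3]
  exact ((h2 v).add (contDiff_const.mul (h2 (I • v)))).mul contDiff_const

theorem hasCompactSupport_dz {F : E → ℂ} (hF : HasCompactSupport F) (v : E) :
    HasCompactSupport (dz v F) := by
  have h := (hF.fderiv ℝ).comp_left
    (g := fun L : E →L[ℝ] ℂ => (L v - I * L (I • v)) / 2) (by simp)
  exact h

theorem hasCompactSupport_dzb {F : E → ℂ} (hF : HasCompactSupport F) (v : E) :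
    HasCompactSupport (dzb v F) := by
  have h := (hF.fderiv ℝ).comp_left
    (g := fun L : E →L[ℝ] ℂ => (L v + I * L (I • v)) / 2) (by simp)
  exact h

variable {ι : Type*} [Fintype ι]

/-- second derivative of the complexification of a real function. -/
theorem fderiv2_ofReal {ψ : E → ℝ} (hψ : ContDiff ℝ 2 ψ) (z u v : E) :
    fderiv ℝ (fderiv ℝ (fun w => (ψ w : ℂ))) z u v =
      ((fderiv ℝ (fderiv ℝ ψ) z u v : ℝ) : ℂ) := by
  have hψ' : ContDiff ℝ 2 (fun w => (ψ w : ℂ)) := Complex.ofRealCLM.contDiff.comp hψ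
  have h0 : ∀ w, fderiv ℝ (fun w => (ψ w : ℂ)) w v = ((fderiv ℝ ψ w v : ℝ) : ℂ) := by
    intro w
    have h1 := Complex.ofRealCLM.hasFDerivAt.comp w
      ((hψ.differentiable (by norm_num)) w).hasFDerivAt
    have h2 : fderiv ℝ (fun w => (ψ w : ℂ)) w = _ := h1.fderiv
    rw [h2]
    simp
  have h3 := fderiv_fderiv_apply hψ' v z
  have h4 := Complex.ofRealCLM.hasFDerivAt.comp z (fderiv_fderiv_apply hψ v z)
  have h5 : (fun w => fderiv ℝ (fun w => (ψ w : ℂ)) w v) =
      Complex.ofRealCLM ∘ (fun w => fderiv ℝ ψ w v) := by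
    funext w
    rw [h0]
    simp
  rw [h5] at h3
  have h6 := h3.unique h4
  have h7 := congrArg (fun L : E →L[ℝ] ℂ => L u) h6
  simpa using h7

/-- the complex Hessian. -/
theorem dz_dzb_ofReal {ψ : E → ℝ} (hψ : ContDiff ℝ 2 ψ) (z u v : E) :
    dz u (dzb v (fun w => (ψ w : ℂ))) z =
      (((fderiv ℝ (fderiv ℝ ψ) z u v + fderiv ℝ (fderiv ℝ ψ) z (I • u) (I • v) : ℝ) : ℂ) +
        I * ((fderiv ℝ (fderiv ℝ ψ) z u (I • v) - fderiv ℝ (fderiv ℝ ψ) z (I • u) v : ℝ) : ℂ))
        / 4 := by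
  have hψ' : ContDiff ℝ 2 (fun w => (ψ w : ℂ)) := Complex.ofRealCLM.contDiff.comp hψ
  rw [dz, fderiv_dzb hψ', fderiv_dzb hψ', fderiv2_ofReal hψ, fderiv2_ofReal hψ,
    fderiv2_ofReal hψ, fderiv2_ofReal hψ]
  push_cast
  linear_combination (-((fderiv ℝ (fderiv ℝ ψ) z (I • u) (I • v) : ℝ) : ℂ) / 4) * Complex.I_sq

theorem map_csmul_real (L : E →L[ℝ] ℝ) (c : ℂ) (v : E) :
    L (c • v) = c.re * L v + c.im * L (I • v) := by
  rw [csmul_eq, map_add, map_smul, map_smul]
  simp

theorem map_I_csmul_real (L : E →L[ℝ] ℝ) (c : ℂ) (v : E) :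
    L (I • c • v) = c.re * L (I • v) - c.im * L v := by
  rw [smul_smul, map_csmul_real]
  simp
  ring

theorem map2_csmul (B : E →L[ℝ] E →L[ℝ] ℝ) (c : ℂ) (u v : E) :
    B (c • u) v = c.re * B u v + c.im * B (I • u) v := by
  have := map_csmul_real (B.flip v) c u
  simpa using this

theorem map2_I_csmul (B : E →L[ℝ] E →L[ℝ] ℝ) (c : ℂ) (u v : E) :
    B (I • c • u) v = c.re * B (I • u) v - c.im * B u v := by
  have := map_I_csmul_real (B.flip v) c u
  simpa using this

/-- the Levi form in an orthonormal basis: `Levi ψ z (∑ c_j e_j) = 4 ∑_{j,k} c_j c̄_k ∂_j ∂̄_k ψ`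
(only sesquilinearity and symmetry of `D²ψ` are used, any vectors `e j` will do). -/
theorem levi_eq_sum {ψ : E → ℝ} (hψ : ContDiff ℝ 2 ψ) (z : E) (e : ι → E) (c : ι → ℂ) :
    ((Levi ψ z (∑ j, c j • e j) : ℝ) : ℂ) =
      4 * ∑ j, ∑ k, c j * conj (c k) * dz (e j) (dzb (e k) (fun w => (ψ w : ℂ))) z := by
  classical
  set H : E → E → ℂ := fun u v => dz u (dzb v (fun w => (ψ w : ℂ))) z with hH
  have hadd1 : ∀ u u' v, H (u + u') v = H u v + H u' v := fun u u' v => dz_vadd u u' _ z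
  have hsmul1 : ∀ (a : ℂ) u v, H (a • u) v = a * H u v := fun a u v => dz_smul a u _ z
  have hadd2 : ∀ u v v', H u (v + v') = H u v + H u v' := by
    intro u v v'
    simp only [hH, dz_dzb_ofReal hψ, smul_add, map_add]
    push_cast
    ring
  have hsmul2 : ∀ (a : ℂ) u v, H u (a • v) = conj a * H u v := by
    intro a u v
    simp only [hH]
    rw [dz_dzb_ofReal hψ, dz_dzb_ofReal hψ, map_csmul_real (fderiv ℝ (fderiv ℝ ψ) z u) a v,
      map_csmul_real (fderiv ℝ (fderiv ℝ ψ) z (I • u)) a v,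
      map_I_csmul_real (fderiv ℝ (fderiv ℝ ψ) z u) a v,
      map_I_csmul_real (fderiv ℝ (fderiv ℝ ψ) z (I • u)) a v]
    have ha : conj a = (a.re : ℂ) - a.im * I := by
      apply Complex.ext <;> simp
    rw [ha]
    push_cast
    linear_combination ((a.im : ℂ) * ((fderiv ℝ (fderiv ℝ ψ) z u (I • v) : ℝ) : ℂ) / 4 -
      (a.im : ℂ) * ((fderiv ℝ (fderiv ℝ ψ) z (I • u) v : ℝ) : ℂ) / 4) * Complex.I_sq
  have hzero1 : ∀ v, H 0 v = 0 := by
    intro v
    have := hsmul1 0 0 v
    simpa using this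
  have hzero2 : ∀ u, H u 0 = 0 := by
    intro u
    have := hsmul2 0 u 0
    simpa using this
  have hsum1 : ∀ (s : Finset ι) v, H (∑ j ∈ s, c j • e j) v = ∑ j ∈ s, c j * H (e j) v := by
    intro s v
    induction s using Finset.induction_on with
    | empty => simpa using hzero1 v
    | insert a s ha ih => rw [Finset.sum_insert ha, Finset.sum_insert ha, hadd1, ih, hsmul1]
  have hsum2 : ∀ (s : Finset ι) u, H u (∑ j ∈ s, c j • e j) =
      ∑ j ∈ s, conj (c j) * H u (e j) := by
    intro s u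
    induction s using Finset.induction_on with
    | empty => simpa using hzero2 u
    | insert a s ha ih => rw [Finset.sum_insert ha, Finset.sum_insert ha, hadd2, ih, hsmul2]
  have hdiag : ∀ v, ((Levi ψ z v : ℝ) : ℂ) = 4 * H v v := by
    intro v
    simp only [hH, dz_dzb_ofReal hψ, Levi]
    rw [snd_symm hψ z (I • v) v]
    push_cast
    ring
  rw [hdiag, hsum1]
  congr 1
  refine Finset.sum_congr rfl fun j _ => ?_
  rw [hsum2, Finset.mul_sum]
  refine Finset.sum_congr rfl fun k _ => ?_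
  ring

section meas

variable [FiniteDimensional ℂ E] [MeasurableSpace E] [BorelSpace E]

theorem integrable_cc {f : E → ℂ} (hf : Continuous f) (hc : HasCompactSupport f) :
    Integrable f (om E) := hf.integrable_of_hasCompactSupport hc

theorem ibp {F G : E → ℂ} (hF : ContDiff ℝ 1 F) (hG : ContDiff ℝ 1 G)
    (hc : HasCompactSupport F ∨ HasCompactSupport G) (v : E) :
    Integrable (fun z => fderiv ℝ F z v * G z) (om E) ∧
    Integrable (fun z => F z * fderiv ℝ G z v) (om E) ∧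
    ∫ z, F z * fderiv ℝ G z v ∂(om E) = - ∫ z, fderiv ℝ F z v * G z ∂(om E) := by
  have cF : Continuous F := hF.continuous
  have cG : Continuous G := hG.continuous
  have cF' : Continuous (fun z => fderiv ℝ F z v) :=
    (hF.continuous_fderiv (by norm_num)).clm_apply continuous_const
  have cG' : Continuous (fun z => fderiv ℝ G z v) :=
    (hG.continuous_fderiv (by norm_num)).clm_apply continuous_const
  have s1 : HasCompactSupport (fun z => fderiv ℝ F z v * G z) := by
    rcases hc with hc | hc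
    · exact ((hc.fderiv ℝ).comp_left (g := fun L : E →L[ℝ] ℂ => L v) (by simp)).mul_right
    · exact hc.mul_left
  have s2 : HasCompactSupport (fun z => F z * fderiv ℝ G z v) := by
    rcases hc with hc | hc
    · exact hc.mul_right
    · exact ((hc.fderiv ℝ).comp_left (g := fun L : E →L[ℝ] ℂ => L v) (by simp)).mul_left
  have s3 : HasCompactSupport (fun z => F z * G z) := by
    rcases hc with hc | hc
    · exact hc.mul_right
    · exact hc.mul_left
  have i1 := integrable_cc (cF'.mul cG) s1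
  have i2 := integrable_cc (cF.mul cG') s2
  have i3 := integrable_cc (cF.mul cG) s3
  refine ⟨i1, i2, integral_mul_fderiv_eq_neg_fderiv_mul_of_integrable i1 i2 i3
    (fun x _ => (hF.differentiable (by norm_num)) x)
    (fun x _ => (hG.differentiable (by norm_num)) x)⟩

/-- integration by parts (`C¹`, one factor with compact support); from the real version
`integral_mul_fderiv_eq_neg_fderiv_mul_of_integrable` in the directions `v` and `iv`. -/
theorem integral_dz_mul {F G : E → ℂ} (hF : ContDiff ℝ 1 F) (hG : ContDiff ℝ 1 G)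
    (hc : HasCompactSupport F ∨ HasCompactSupport G) (v : E) :
    ∫ z, dz v F z * G z ∂(om E) = - ∫ z, F z * dz v G z ∂(om E) := by
  obtain ⟨a1, a2, a3⟩ := ibp hF hG hc v
  obtain ⟨b1, b2, b3⟩ := ibp hF hG hc (I • v)
  have e1 : (fun z => dz v F z * G z) = fun z =>
      (2:ℂ)⁻¹ * (fderiv ℝ F z v * G z) - (I / 2) * (fderiv ℝ F z (I • v) * G z) := by
    funext z; unfold dz; ring
  have e2 : (fun z => F z * dz v G z) = fun z =>
      (2:ℂ)⁻¹ * (F z * fderiv ℝ G z v) - (I / 2) * (F z * fderiv ℝ G z (I • v)) := by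
    funext z; unfold dz; ring
  rw [e1, e2, integral_sub (a1.const_mul _) (b1.const_mul _),
    integral_sub (a2.const_mul _) (b2.const_mul _), integral_const_mul, integral_const_mul,
    integral_const_mul, integral_const_mul, a3, b3]
  ring

theorem integral_dzb_mul {F G : E → ℂ} (hF : ContDiff ℝ 1 F) (hG : ContDiff ℝ 1 G)
    (hc : HasCompactSupport F ∨ HasCompactSupport G) (v : E) :
    ∫ z, dzb v F z * G z ∂(om E) = - ∫ z, F z * dzb v G z ∂(om E) := by
  obtain ⟨a1, a2, a3⟩ := ibp hF hG hc v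
  obtain ⟨b1, b2, b3⟩ := ibp hF hG hc (I • v)
  have e1 : (fun z => dzb v F z * G z) = fun z =>
      (2:ℂ)⁻¹ * (fderiv ℝ F z v * G z) + (I / 2) * (fderiv ℝ F z (I • v) * G z) := by
    funext z; unfold dzb; ring
  have e2 : (fun z => F z * dzb v G z) = fun z =>
      (2:ℂ)⁻¹ * (F z * fderiv ℝ G z v) + (I / 2) * (F z * fderiv ℝ G z (I • v)) := by
    funext z; unfold dzb; ring
  rw [e1, e2, integral_add (a1.const_mul _) (b1.const_mul _),
    integral_add (a2.const_mul _) (b2.const_mul _), integral_const_mul, integral_const_mul,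
    integral_const_mul, integral_const_mul, a3, b3]
  ring

end meas

end Pool.Agent.Edge
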