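import Pool.Agent.Edge.HorA
import Pool.Agent.Edge.HorB

/-!
# The basic estimate for weakly `∂̄`-closed forms in the domain of `∂̄*`

`γ = (γ_j)` with `γ_j ∈ L²(e^{-ψ})`, `∂̄γ = 0` weakly (`hcl`), `∂̄*_ψ γ = τ ∈ L²(e^{-ψ})` weakly
(`hadj`).  Then `(c/4) ∫_F |γ|² e^{-ψ} ≤ ∫ |τ|² e^{-ψ}` if `Levi ψ ≥ c` on the bounded set `F`.

Proof.  Let `χ` be a smooth cut-off (`exists_cutoff`, radius `R` large, `F ⊆ closedBall 0 R`),
`0 < s < 1`, `G_j = moll s (χ γ_j)` (smooth, support in `closedBall 0 (2R+1)`).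
(`ψ` is bounded on compact sets, so `γ_j, τ` are locally `L²` and products with compactly supported
continuous functions are in `L²(om)`.)
(i) `∂̄_j G_k - ∂̄_k G_j = moll s (γ_k ∂̄_jχ - γ_j ∂̄_kχ)`.  Indeed by `moll_fderiv_apply`, with
    `ρ_s(x) = s^{-2d} ρ(x/s)`, `∂̄_kG_j(z) = ∫ χ(y)γ_j(y) (∂̄_k)_z[ρ_s(z-y)] dy
    = -∫ χ γ_j (∂̄_k)_y[ρ_s(z-y)] dy = -∫ γ_j ∂̄_k[χ ρ_s(z-·)] dy + ∫ γ_j (∂̄_kχ) ρ_s(z-y) dy`, and the
    first integrals cancel in the difference by `hcl` with `w = χ ρ_s(z-·)`.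
(ii) `∑_j ∂_j G_j = -moll s (χτ) + moll s (χ ∑ ψ_jγ_j) + moll s (∑ γ_j ∂_jχ)`: as before
    `∑∂_jG_j(z) = -∫ ∑ γ_j ∂_jW + ∫ ∑γ_j(∂_jχ)ρ_s(z-y)`, `W = χρ_s(z-·)`, and `hadj` with
    `w = W e^{ψ}` (`∂_jw e^{-ψ} = ∂_jW + ψ_jW`) gives `∫∑γ_j∂_jW = ∫τW - ∫∑γ_jψ_jW`.
(iii) As `s → 0` (`moll_tendsto_L2`, all supports in a fixed compact set, `e^{-ψ}`, `ψ_j` bounded
    there): `G_j → χγ_j`, `∑(∂_jG_j - ψ_jG_j) → -χτ + ∑γ_j∂_jχ`,
    `∂̄_jG_k - ∂̄_kG_j → γ_k∂̄_jχ - γ_j∂̄_kχ` in `L²(e^{-ψ})`.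
(iv) `kohn_morrey` for `G`, `Levi ψ ≥ 0`, `Levi ψ ≥ c` on `F`, `‖∑G_je_j‖² = ∑|G_j|²`:
    `(c/4)∫_F ∑|G_j|² e^{-ψ} ≤ ...`; in the limit `s → 0` (`χ = 1` on `F`)
    `(c/4)∫_F ∑|γ_j|²e^{-ψ} ≤ ∫|-χτ + ∑γ_j∂_jχ|²e^{-ψ} + ½∑_{jk}∫|γ_k∂̄_jχ - γ_j∂̄_kχ|²e^{-ψ}`.
(v) `R → ∞`: `|Dχ| ≤ C/R` and `|γ|², |τ|²` integrable against `e^{-ψ}`, `0 ≤ χ ≤ 1`.
-/

namespace Pool.Agent.Edge

open MeasureTheory Filter Topology Complex

open scoped ComplexConjugate ContDiff

variable {E : Type*} [NormedAddCommGroup E] [InnerProductSpace ℂ E] [FiniteDimensional ℂ E]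
  [MeasurableSpace E] [BorelSpace E]
variable {ι : Type*} [Fintype ι]

/-- the mollifying kernel as a function of the integration variable -/
noncomputable def wekf (s : ℝ) (z w : E) : ℂ :=
  (((s ^ Module.finrank ℝ E)⁻¹ * rho (s⁻¹ • (z - w)) : ℝ) : ℂ)

theorem we_kf_contDiff (s : ℝ) (z : E) : ContDiff ℝ ∞ (wekf s z) := by
  have h1 : ContDiff ℝ ∞ (fun w : E => (s ^ Module.finrank ℝ E)⁻¹ * rho (s⁻¹ • (z - w))) := by
    refine contDiff_const.mul (rho_contDiff.comp ?_)
    exact (contDiff_const.sub contDiff_id).const_smul _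
  exact Complex.ofRealCLM.contDiff.comp h1

theorem we_kf_compact {s : ℝ} (hs : 0 < s) (z : E) : HasCompactSupport (wekf s z) := by
  have : ProperSpace E := FiniteDimensional.proper ℂ E
  refine HasCompactSupport.intro (isCompact_closedBall z s) fun w hw => ?_
  have h1 : rho (s⁻¹ • (z - w)) = 0 := by
    apply rho_eq_zero
    rw [Metric.mem_closedBall, not_le, dist_eq_norm, norm_sub_rev] at hw
    rw [norm_smul, norm_inv, Real.norm_of_nonneg hs.le, ← div_eq_inv_mul, one_le_div hs]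
    exact hw.le
  simp [wekf, h1]

theorem we_moll_eq_kf {s : ℝ} (hs : 0 < s) (f : E → ℂ) (z : E) :
    moll s f z = ∫ w, wekf s z w * f w ∂(om E) := by
  rw [moll_eq s hs f z, ← integral_smul]
  refine integral_congr_ae (Filter.Eventually.of_forall fun w => ?_)
  simp only [wekf, Complex.real_smul]
  push_cast
  ring

theorem we_kf_fderiv (s : ℝ) (z w v : E) :
    fderiv ℝ (wekf s z) w v = -(((s ^ Module.finrank ℝ E)⁻¹ *
      fderiv ℝ (fun z' : E => rho (s⁻¹ • (z' - w))) z v : ℝ) : ℂ) := by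
  set h : E → ℝ := fun x => rho (s⁻¹ • x) with hh
  have hd : Differentiable ℝ h := by
    have h0 : ContDiff ℝ ∞ h := rho_contDiff.comp (contDiff_id.const_smul _)
    exact h0.differentiable (by simp)
  have h1 : fderiv ℝ (fun z' : E => rho (s⁻¹ • (z' - w))) z = fderiv ℝ h (z - w) :=
    fderiv_comp_sub (f := h) (𝕜 := ℝ) w
  have h2 : HasFDerivAt (fun w' : E => z - w') (-(ContinuousLinearMap.id ℝ E)) w :=
    (hasFDerivAt_id w).const_sub z
  have h3 : HasFDerivAt (fun w' : E => h (z - w')) ((fderiv ℝ h (z - w)).comp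
      (-(ContinuousLinearMap.id ℝ E))) w :=
    (hd (z - w)).hasFDerivAt.comp w h2
  have h4 : HasFDerivAt (fun w' : E => (s ^ Module.finrank ℝ E)⁻¹ * h (z - w'))
      ((s ^ Module.finrank ℝ E)⁻¹ • ((fderiv ℝ h (z - w)).comp
      (-(ContinuousLinearMap.id ℝ E)))) w := h3.const_mul _
  have h5 : HasFDerivAt (wekf s z) (Complex.ofRealCLM.comp ((s ^ Module.finrank ℝ E)⁻¹ •
      ((fderiv ℝ h (z - w)).comp (-(ContinuousLinearMap.id ℝ E))))) w :=
    Complex.ofRealCLM.hasFDerivAt.comp w h4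
  rw [h5.fderiv, h1]
  simp

theorem we_li_mul {f g : E → ℂ} (hf : LocallyIntegrable f (om E)) (hg : Continuous g)
    (hc : HasCompactSupport g) : Integrable (fun w => g w * f w) (om E) := by
  have h := LocallyIntegrable.integrable_smul_left_of_hasCompactSupport (𝕜 := ℂ) hf hg hc
  simpa only [smul_eq_mul] using h

theorem we_kf_fderiv_integrable {s : ℝ} (hs : 0 < s) {f : E → ℂ} (hf : LocallyIntegrable f (om E))
    (z v : E) : Integrable (fun w => fderiv ℝ (wekf s z) w v * f w) (om E) := by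
  have h1 : Continuous (fun w => fderiv ℝ (wekf s z) w v) :=
    ((we_kf_contDiff s z).continuous_fderiv (by simp)).clm_apply continuous_const
  have h2 : HasCompactSupport (fun w => fderiv ℝ (wekf s z) w v) :=
    (we_kf_compact hs z).fderiv_apply (𝕜 := ℝ) v
  exact we_li_mul hf h1 h2

theorem we_fderiv_moll_kf {s : ℝ} (hs : 0 < s) {f : E → ℂ} (hf : LocallyIntegrable f (om E))
    (z v : E) : fderiv ℝ (moll s f) z v = -∫ w, fderiv ℝ (wekf s z) w v * f w ∂(om E) := by
  rw [moll_fderiv_apply hs hf z v, ← integral_smul, ← integral_neg]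
  refine integral_congr_ae (Filter.Eventually.of_forall fun w => ?_)
  simp only [we_kf_fderiv, Complex.real_smul]
  push_cast
  ring

theorem we_dz_moll_kf {s : ℝ} (hs : 0 < s) {f : E → ℂ} (hf : LocallyIntegrable f (om E))
    (z v : E) : dz v (moll s f) z = -∫ w, dz v (wekf s z) w * f w ∂(om E) := by
  have h1 := we_kf_fderiv_integrable hs hf z v
  have h2 := we_kf_fderiv_integrable hs hf z (I • v)
  have h3 : ∫ w, dz v (wekf s z) w * f w ∂(om E) =
      (∫ w, fderiv ℝ (wekf s z) w v * f w ∂(om E) -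
        I * ∫ w, fderiv ℝ (wekf s z) w (I • v) * f w ∂(om E)) / 2 := by
    rw [← integral_const_mul, ← integral_sub h1 (h2.const_mul _), ← integral_div]
    refine integral_congr_ae (Filter.Eventually.of_forall fun w => ?_)
    simp only [dz]
    ring
  rw [h3, dz, we_fderiv_moll_kf hs hf, we_fderiv_moll_kf hs hf]
  ring

theorem we_dzb_moll_kf {s : ℝ} (hs : 0 < s) {f : E → ℂ} (hf : LocallyIntegrable f (om E))
    (z v : E) : dzb v (moll s f) z = -∫ w, dzb v (wekf s z) w * f w ∂(om E) := by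
  have h1 := we_kf_fderiv_integrable hs hf z v
  have h2 := we_kf_fderiv_integrable hs hf z (I • v)
  have h3 : ∫ w, dzb v (wekf s z) w * f w ∂(om E) =
      (∫ w, fderiv ℝ (wekf s z) w v * f w ∂(om E) +
        I * ∫ w, fderiv ℝ (wekf s z) w (I • v) * f w ∂(om E)) / 2 := by
    rw [← integral_const_mul, ← integral_add h1 (h2.const_mul _), ← integral_div]
    refine integral_congr_ae (Filter.Eventually.of_forall fun w => ?_)
    simp only [dzb]
    ring
  rw [h3, dzb, we_fderiv_moll_kf hs hf, we_fderiv_moll_kf hs hf]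
  ring


theorem we_locInt {ψ : E → ℝ} (hψ : Continuous ψ) {g : E → ℂ}
    (hm : AEStronglyMeasurable g (om E))
    (hi : Integrable (fun z => ‖g z‖ ^ 2 * Real.exp (-ψ z)) (om E)) :
    LocallyIntegrable g (om E) := by
  have : ProperSpace E := FiniteDimensional.proper ℂ E
  have c1 : Continuous (fun z => ((Real.exp (-ψ z / 2) : ℝ) : ℂ)) :=
    Complex.continuous_ofReal.comp (Real.continuous_exp.comp ((hψ.neg).div_const 2))
  have c2 : Continuous (fun z => ((Real.exp (ψ z / 2) : ℝ) : ℂ)) :=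
    Complex.continuous_ofReal.comp (Real.continuous_exp.comp (hψ.div_const 2))
  have h1 : MemLp (fun z => ((Real.exp (-ψ z / 2) : ℝ) : ℂ) * g z) 2 (om E) := by
    refine (memLp_two_iff_integrable_sq_norm (c1.aestronglyMeasurable.mul hm)).2 ?_
    refine hi.congr (Filter.Eventually.of_forall fun z => ?_)
    simp only [Pi.mul_apply, norm_mul, mul_pow, Complex.norm_real, Real.norm_eq_abs, sq_abs]
    rw [← Real.exp_nat_mul, mul_comm]
    congr 2
    push_cast
    ring
  have h2 := (h1.locallyIntegrable (by norm_num)).continuous_mul c2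
  refine h2.congr (Filter.Eventually.of_forall fun z => ?_)
  simp only
  rw [← mul_assoc, ← Complex.ofReal_mul, ← Real.exp_add]
  have : ψ z / 2 + -ψ z / 2 = 0 := by ring
  rw [this]
  simp

theorem we_memLp {ψ : E → ℝ} (hψ : Continuous ψ) {g : E → ℂ}
    (hm : AEStronglyMeasurable g (om E))
    (hi : Integrable (fun z => ‖g z‖ ^ 2 * Real.exp (-ψ z)) (om E)) {b : E → ℂ}
    (hb : Continuous b) (hbc : HasCompactSupport b) :
    MemLp (fun z => g z * b z) 2 (om E) := by
  refine (memLp_two_iff_integrable_sq_norm (hm.mul hb.aestronglyMeasurable)).2 ?_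
  have c1 : Continuous (fun z => ‖b z‖ ^ 2 * Real.exp (ψ z)) :=
    (hb.norm.pow 2).mul (Real.continuous_exp.comp hψ)
  have c2 : HasCompactSupport (fun z => ‖b z‖ ^ 2 * Real.exp (ψ z)) := by
    refine HasCompactSupport.mul_right ?_
    exact (hbc.norm).comp_left (g := fun t : ℝ => t ^ 2) (by norm_num)
  obtain ⟨C, hC⟩ := c1.bounded_above_of_compact_support c2
  have h1 := hi.mul_bdd (c := C) c1.aestronglyMeasurable (Filter.Eventually.of_forall hC)
  refine h1.congr (Filter.Eventually.of_forall fun z => ?_)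
  simp only [Pi.mul_apply, norm_mul, mul_pow]
  have : Real.exp (-ψ z) * Real.exp (ψ z) = 1 := by rw [← Real.exp_add]; simp
  calc ‖g z‖ ^ 2 * Real.exp (-ψ z) * (‖b z‖ ^ 2 * Real.exp (ψ z))
      = ‖g z‖ ^ 2 * ‖b z‖ ^ 2 * (Real.exp (-ψ z) * Real.exp (ψ z)) := by ring
    _ = _ := by rw [this, mul_one]

/-- convergence in `L²(om)` as `s → 0+` -/
def WeCv (u : ℝ → E → ℂ) (v : E → ℂ) : Prop :=
  (∀ s, 0 < s → MemLp (u s) 2 (om E)) ∧ MemLp v 2 (om E) ∧
    Tendsto (fun s => eLpNorm (fun z => u s z - v z) 2 (om E)) (𝓝[>] 0) (𝓝 0)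

theorem we_cv_moll {f : E → ℂ} (hf : MemLp f 2 (om E)) : WeCv (fun s => moll s f) f :=
  ⟨fun _ hs => (moll_memLp hf hs).1, hf, moll_tendsto_L2 hf⟩

theorem WeCv.add {u u' : ℝ → E → ℂ} {v v' : E → ℂ} (h : WeCv u v) (h' : WeCv u' v') :
    WeCv (fun s z => u s z + u' s z) (fun z => v z + v' z) := by
  refine ⟨fun _ hs => (h.1 _ hs).add (h'.1 _ hs), h.2.1.add h'.2.1, ?_⟩
  have h0 : Tendsto (fun s => eLpNorm (fun z => u s z - v z) 2 (om E) +
      eLpNorm (fun z => u' s z - v' z) 2 (om E)) (𝓝[>] 0) (𝓝 0) := by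
    simpa using h.2.2.add h'.2.2
  refine tendsto_of_tendsto_of_tendsto_of_le_of_le' tendsto_const_nhds h0
    (Filter.Eventually.of_forall fun s => zero_le) ?_
  filter_upwards [self_mem_nhdsWithin] with s hs
  have hs' : 0 < s := hs
  have h1 : (fun z => u s z + u' s z - (v z + v' z)) =
      (fun z => u s z - v z) + (fun z => u' s z - v' z) := by
    funext z; simp only [Pi.add_apply]; ring
  rw [h1]
  exact eLpNorm_add_le ((h.1 s hs').sub h.2.1).aestronglyMeasurable
    ((h'.1 s hs').sub h'.2.1).aestronglyMeasurable (by norm_num)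

theorem WeCv.mul {u : ℝ → E → ℂ} {v : E → ℂ} (h : WeCv u v) {b : E → ℂ}
    (hb : AEStronglyMeasurable b (om E)) {M : ℝ} (hM : ∀ z, ‖b z‖ ≤ M) :
    WeCv (fun s z => b z * u s z) (fun z => b z * v z) := by
  have hle : ∀ f : E → ℂ, ∀ z, ‖b z * f z‖ ≤ M * ‖f z‖ := fun f z => by
    rw [norm_mul]; exact mul_le_mul_of_nonneg_right (hM z) (norm_nonneg _)
  refine ⟨fun s hs => (h.1 s hs).of_le_mul (hb.mul (h.1 s hs).aestronglyMeasurable)
      (Filter.Eventually.of_forall (hle _)),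
    h.2.1.of_le_mul (hb.mul h.2.1.aestronglyMeasurable) (Filter.Eventually.of_forall (hle _)), ?_⟩
  have h0 : Tendsto (fun s => ENNReal.ofReal M * eLpNorm (fun z => u s z - v z) 2 (om E))
      (𝓝[>] 0) (𝓝 0) := by
    simpa using ENNReal.Tendsto.const_mul (a := ENNReal.ofReal M) h.2.2 (Or.inr ENNReal.ofReal_ne_top)
  refine tendsto_of_tendsto_of_tendsto_of_le_of_le tendsto_const_nhds h0
    (fun s => zero_le) (fun s => ?_)
  refine eLpNorm_le_mul_eLpNorm_of_ae_le_mul (Filter.Eventually.of_forall fun z => ?_) 2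
  rw [← mul_sub]
  exact hle (fun z => u s z - v z) z

theorem we_cv_zero : WeCv (fun _ (_ : E) => (0 : ℂ)) (fun _ => 0) := by
  refine ⟨fun s _ => MemLp.zero', MemLp.zero', ?_⟩
  simp

theorem WeCv.sum {κ : Type*} (t : Finset κ) {u : κ → ℝ → E → ℂ} {v : κ → E → ℂ}
    (h : ∀ j ∈ t, WeCv (u j) (v j)) :
    WeCv (fun s z => ∑ j ∈ t, u j s z) (fun z => ∑ j ∈ t, v j z) := by
  classical
  induction t using Finset.induction_on with
  | empty => simpa using we_cv_zero
  | insert a t ha ih =>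
    simp only [Finset.sum_insert ha]
    exact (h a (Finset.mem_insert_self _ _)).add
      (ih fun j hj => h j (Finset.mem_insert_of_mem hj))

theorem we_sq_eq {f : E → ℂ} (hf : MemLp f 2 (om E)) :
    ∫ z, ‖f z‖ ^ 2 ∂(om E) = (eLpNorm f 2 (om E)).toReal ^ 2 := by
  rw [hf.eLpNorm_eq_integral_rpow_norm (by norm_num) (by norm_num)]
  have h0 : 0 ≤ ∫ z, ‖f z‖ ^ 2 ∂(om E) := integral_nonneg fun z => by positivity
  simp only [ENNReal.toReal_ofNat, Real.rpow_ofNat]
  rw [ENNReal.toReal_ofReal (by positivity), ← Real.rpow_natCast, ← Real.rpow_mul h0]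
  norm_num

theorem WeCv.sq {u : ℝ → E → ℂ} {v : E → ℂ} (h : WeCv u v) :
    Tendsto (fun s => ∫ z, ‖u s z‖ ^ 2 ∂(om E)) (𝓝[>] 0) (𝓝 (∫ z, ‖v z‖ ^ 2 ∂(om E))) := by
  have h1 : Tendsto (fun s => (eLpNorm (u s) 2 (om E)).toReal) (𝓝[>] 0)
      (𝓝 (eLpNorm v 2 (om E)).toReal) := by
    rw [tendsto_iff_norm_sub_tendsto_zero]
    have h2 : Tendsto (fun s => (eLpNorm (fun z => u s z - v z) 2 (om E)).toReal) (𝓝[>] 0)
        (𝓝 0) := by
      have := (ENNReal.tendsto_toReal (a := 0) (by simp)).comp h.2.2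
      simpa [Function.comp_def] using this
    refine squeeze_zero' (Filter.Eventually.of_forall fun s => norm_nonneg _) ?_ h2
    filter_upwards [self_mem_nhdsWithin] with s hs
    have hs' : 0 < s := hs
    have m1 := h.1 s hs'
    have m2 := h.2.1
    have m3 : MemLp (fun z => u s z - v z) 2 (om E) := m1.sub m2
    have e1 : eLpNorm (u s) 2 (om E) ≤ eLpNorm v 2 (om E) +
        eLpNorm (fun z => u s z - v z) 2 (om E) := by
      have : u s = v + (fun z => u s z - v z) := by funext z; simp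
      conv_lhs => rw [this]
      exact eLpNorm_add_le m2.aestronglyMeasurable m3.aestronglyMeasurable (by norm_num)
    have e2 : eLpNorm v 2 (om E) ≤ eLpNorm (u s) 2 (om E) +
        eLpNorm (fun z => u s z - v z) 2 (om E) := by
      have : v = u s - (fun z => u s z - v z) := by funext z; simp
      conv_lhs => rw [this]
      exact eLpNorm_sub_le m1.aestronglyMeasurable m3.aestronglyMeasurable (by norm_num)
    have f1 := ENNReal.toReal_mono (ENNReal.add_ne_top.2 ⟨m2.eLpNorm_ne_top, m3.eLpNorm_ne_top⟩) e1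
    have f2 := ENNReal.toReal_mono (ENNReal.add_ne_top.2 ⟨m1.eLpNorm_ne_top, m3.eLpNorm_ne_top⟩) e2
    rw [ENNReal.toReal_add m2.eLpNorm_ne_top m3.eLpNorm_ne_top] at f1
    rw [ENNReal.toReal_add m1.eLpNorm_ne_top m3.eLpNorm_ne_top] at f2
    rw [Real.norm_eq_abs, abs_le]
    constructor <;> linarith
  have h2 := h1.pow 2
  rw [we_sq_eq h.2.1]
  refine h2.congr' ?_
  filter_upwards [self_mem_nhdsWithin] with s hs
  exact (we_sq_eq (h.1 s hs)).symm

theorem WeCv.weight {u : ℝ → E → ℂ} {v : E → ℂ} (h : WeCv u v) {φ : E → ℝ}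
    (hm : Measurable φ) (h0 : ∀ z, 0 ≤ φ z) {M : ℝ} (hM : ∀ z, φ z ≤ M) :
    Tendsto (fun s => ∫ z, ‖u s z‖ ^ 2 * φ z ∂(om E)) (𝓝[>] 0)
      (𝓝 (∫ z, ‖v z‖ ^ 2 * φ z ∂(om E))) := by
  have h1 := (h.mul (b := fun z => ((Real.sqrt (φ z) : ℝ) : ℂ)) (M := Real.sqrt M)
    (Complex.measurable_ofReal.comp hm.sqrt).aestronglyMeasurable (fun z => by
      rw [Complex.norm_real, Real.norm_of_nonneg (Real.sqrt_nonneg _)]
      exact Real.sqrt_le_sqrt (hM z))).sq
  have h2 : ∀ f : E → ℂ, (fun z => ‖((Real.sqrt (φ z) : ℝ) : ℂ) * f z‖ ^ 2) =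
      fun z => ‖f z‖ ^ 2 * φ z := by
    intro f
    funext z
    rw [norm_mul, mul_pow, Complex.norm_real, Real.norm_of_nonneg (Real.sqrt_nonneg _),
      Real.sq_sqrt (h0 z), mul_comm]
  simp only [h2] at h1
  exact h1

omit [Fintype ι] in
/-- the commutation `(i)` -/
theorem we_comm {γ : ι → E → ℂ} (hγ : ∀ j, LocallyIntegrable (γ j) (om E)) (e : ι → E)
    (hcl : ∀ w : E → ℂ, ContDiff ℝ ∞ w → HasCompactSupport w → ∀ j k,
      ∫ z, γ k z * dzb (e j) w z ∂(om E) = ∫ z, γ j z * dzb (e k) w z ∂(om E))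
    {X : E → ℂ} (hX : ContDiff ℝ ∞ X) (hXc : HasCompactSupport X) {s : ℝ} (hs : 0 < s)
    (j k : ι) (z : E) :
    dzb (e j) (moll s (fun w => X w * γ k w)) z - dzb (e k) (moll s (fun w => X w * γ j w)) z =
      moll s (fun w => γ k w * dzb (e j) X w - γ j w * dzb (e k) X w) z := by
  have hXl : ∀ i, LocallyIntegrable (fun w => X w * γ i w) (om E) := fun i => by
    have : ProperSpace E := FiniteDimensional.proper ℂ E
    exact (hγ i).continuous_mul hX.continuous
  have hK := we_kf_contDiff s z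
  have hKc := we_kf_compact hs z
  -- the test function
  have hW : ContDiff ℝ ∞ (fun w => X w * wekf s z w) := hX.mul hK
  have hWc : HasCompactSupport (fun w => X w * wekf s z w) := hXc.mul_right
  have h1 : ∀ i l, ∫ w, dzb (e i) (wekf s z) w * (X w * γ l w) ∂(om E) =
      ∫ w, γ l w * dzb (e i) (fun w => X w * wekf s z w) w ∂(om E) -
      ∫ w, wekf s z w * (γ l w * dzb (e i) X w) ∂(om E) := by
    intro i l
    have i1 : Integrable (fun w => γ l w * dzb (e i) (fun w => X w * wekf s z w) w) (om E) := by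
      have := we_li_mul (hγ l) (contDiff_dzb hW (e i)).continuous (hasCompactSupport_dzb hWc (e i))
      simpa only [mul_comm] using this
    have i2 : Integrable (fun w => wekf s z w * (γ l w * dzb (e i) X w)) (om E) := by
      have := we_li_mul (hγ l) (hK.continuous.mul (contDiff_dzb hX (e i)).continuous)
        (hKc.mul_right (f' := dzb (e i) X))
      refine this.congr (Filter.Eventually.of_forall fun w => ?_)
      simp only [Pi.mul_apply]
      ring
    rw [← integral_sub i1 i2]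
    refine integral_congr_ae (Filter.Eventually.of_forall fun w => ?_)
    simp only
    rw [dzb_mul (hX.differentiable (by simp) w) (hK.differentiable (by simp) w)]
    ring
  rw [we_dzb_moll_kf hs (hXl k), we_dzb_moll_kf hs (hXl j), h1, h1, hcl _ hW hWc j k, we_moll_eq_kf hs]
  have i2 : ∀ i l, Integrable (fun w => wekf s z w * (γ l w * dzb (e i) X w)) (om E) := by
    intro i l
    have := we_li_mul (hγ l) (hK.continuous.mul (contDiff_dzb hX (e i)).continuous)
      (hKc.mul_right (f' := dzb (e i) X))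
    refine this.congr (Filter.Eventually.of_forall fun w => ?_)
    simp only [Pi.mul_apply]
    ring
  have h2 : ∫ w, wekf s z w * (γ k w * dzb (e j) X w - γ j w * dzb (e k) X w) ∂(om E) =
      ∫ w, wekf s z w * (γ k w * dzb (e j) X w) ∂(om E) -
      ∫ w, wekf s z w * (γ j w * dzb (e k) X w) ∂(om E) := by
    rw [← integral_sub (i2 j k) (i2 k j)]
    refine integral_congr_ae (Filter.Eventually.of_forall fun w => ?_)
    simp only
    ring
  rw [h2]
  ring

theorem we_div {ψ : E → ℝ} (hψ : ContDiff ℝ ∞ ψ) {γ : ι → E → ℂ} {τ : E → ℂ}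
    (hγ : ∀ j, LocallyIntegrable (γ j) (om E)) (hτ : LocallyIntegrable τ (om E)) (e : ι → E)
    (hadj : ∀ w : E → ℂ, ContDiff ℝ ∞ w → HasCompactSupport w →
      ∫ z, (∑ j, γ j z * dz (e j) w z) * (Real.exp (-ψ z) : ℂ) ∂(om E)
        = ∫ z, τ z * w z * (Real.exp (-ψ z) : ℂ) ∂(om E))
    {X : E → ℂ} (hX : ContDiff ℝ ∞ X) (hXc : HasCompactSupport X) {s : ℝ} (hs : 0 < s)
    (z : E) :
    ∑ j, dz (e j) (moll s (fun w => X w * γ j w)) z =
      moll s (fun w => -(τ w * X w) + ∑ j, γ j w * dz (e j) (fun w => (ψ w : ℂ)) w * X w +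
        ∑ j, γ j w * dz (e j) X w) z := by
  have hXl : ∀ i, LocallyIntegrable (fun w => X w * γ i w) (om E) := fun i => by
    have : ProperSpace E := FiniteDimensional.proper ℂ E
    exact (hγ i).continuous_mul hX.continuous
  have hK := we_kf_contDiff s z
  have hKc := we_kf_compact hs z
  have hψc : ContDiff ℝ ∞ (fun w => (ψ w : ℂ)) := Complex.ofRealCLM.contDiff.comp hψ
  have hW : ContDiff ℝ ∞ (fun w => X w * wekf s z w) := hX.mul hK
  have hWc : HasCompactSupport (fun w => X w * wekf s z w) := hXc.mul_right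
  have hexp : ContDiff ℝ ∞ (fun w => ((Real.exp (ψ w) : ℝ) : ℂ)) :=
    Complex.ofRealCLM.contDiff.comp (Real.contDiff_exp.comp hψ)
  have hT : ContDiff ℝ ∞ (fun w => X w * wekf s z w * ((Real.exp (ψ w) : ℝ) : ℂ)) := hW.mul hexp
  have hTc : HasCompactSupport (fun w => X w * wekf s z w * ((Real.exp (ψ w) : ℝ) : ℂ)) :=
    hWc.mul_right
  -- derivative of the exponential
  have hde : ∀ v w, dz v (fun w => ((Real.exp (ψ w) : ℝ) : ℂ)) w =
      dz v (fun w => (ψ w : ℂ)) w * ((Real.exp (ψ w) : ℝ) : ℂ) := by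
    intro v w
    have d1 : HasFDerivAt ψ (fderiv ℝ ψ w) w := (hψ.differentiable (by simp) w).hasFDerivAt
    have d2 : HasFDerivAt (fun w => ((Real.exp (ψ w) : ℝ) : ℂ))
        (Complex.ofRealCLM.comp (Real.exp (ψ w) • fderiv ℝ ψ w)) w :=
      Complex.ofRealCLM.hasFDerivAt.comp w d1.exp
    have d3 : HasFDerivAt (fun w => (ψ w : ℂ)) (Complex.ofRealCLM.comp (fderiv ℝ ψ w)) w :=
      Complex.ofRealCLM.hasFDerivAt.comp w d1
    simp only [dz, d2.fderiv, d3.fderiv, ContinuousLinearMap.comp_apply,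
      smul_apply, Complex.ofRealCLM_apply, smul_eq_mul, Complex.ofReal_mul]
    ring
  have e0 : ∀ w, ((Real.exp (ψ w) : ℝ) : ℂ) * ((Real.exp (-ψ w) : ℝ) : ℂ) = 1 := by
    intro w
    rw [← Complex.ofReal_mul, ← Real.exp_add]
    simp
  have hA := hadj _ hT hTc
  have hA1 : ∫ z', (∑ j, γ j z' * dz (e j) (fun w => X w * wekf s z w * ((Real.exp (ψ w) : ℝ) : ℂ))
      z') * (Real.exp (-ψ z') : ℂ) ∂(om E) =
      ∫ w, ∑ j, (γ j w * dz (e j) (fun w => X w * wekf s z w) w +
        γ j w * dz (e j) (fun w => (ψ w : ℂ)) w * (X w * wekf s z w)) ∂(om E) := by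
    refine integral_congr_ae (Filter.Eventually.of_forall fun w => ?_)
    simp only [Finset.sum_mul]
    refine Finset.sum_congr rfl fun j _ => ?_
    rw [dz_mul (hW.differentiable (by simp) w) (hexp.differentiable (by simp) w), hde]
    linear_combination (γ j w * dz (e j) (fun w => X w * wekf s z w) w +
        γ j w * dz (e j) (fun w => (ψ w : ℂ)) w * (X w * wekf s z w)) * e0 w
  have hA2 : ∫ z', τ z' * (X z' * wekf s z z' * ((Real.exp (ψ z') : ℝ) : ℂ)) *
      (Real.exp (-ψ z') : ℂ) ∂(om E) = ∫ w, wekf s z w * (τ w * X w) ∂(om E) := by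
    refine integral_congr_ae (Filter.Eventually.of_forall fun w => ?_)
    simp only
    linear_combination (wekf s z w * (τ w * X w)) * e0 w
  rw [hA1, hA2] at hA
  -- integrability
  have i1 : ∀ j, Integrable (fun w => γ j w * dz (e j) (fun w => X w * wekf s z w) w) (om E) := by
    intro j
    have := we_li_mul (hγ j) (contDiff_dz hW (e j)).continuous (hasCompactSupport_dz hWc (e j))
    simpa only [mul_comm] using this
  have i2 : ∀ j, Integrable (fun w => γ j w * dz (e j) (fun w => (ψ w : ℂ)) w *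
      (X w * wekf s z w)) (om E) := by
    intro j
    have := we_li_mul (hγ j) ((contDiff_dz hψc (e j)).continuous.mul hW.continuous)
      (hWc.mul_left (f := dz (e j) (fun w => (ψ w : ℂ))))
    refine this.congr (Filter.Eventually.of_forall fun w => ?_)
    simp only [Pi.mul_apply]
    ring
  have i3 : ∀ j, Integrable (fun w => wekf s z w * (γ j w * dz (e j) X w)) (om E) := by
    intro j
    have := we_li_mul (hγ j) (hK.continuous.mul (contDiff_dz hX (e j)).continuous)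
      (hKc.mul_right (f' := dz (e j) X))
    refine this.congr (Filter.Eventually.of_forall fun w => ?_)
    simp only [Pi.mul_apply]
    ring
  have i4 : Integrable (fun w => wekf s z w * (τ w * X w)) (om E) := by
    have := we_li_mul hτ (hK.continuous.mul hX.continuous) (hKc.mul_right (f' := X))
    refine this.congr (Filter.Eventually.of_forall fun w => ?_)
    simp only [Pi.mul_apply]
    ring
  have i12 : ∀ j ∈ Finset.univ, Integrable (fun w => γ j w * dz (e j) (fun w => X w * wekf s z w) w +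
        γ j w * dz (e j) (fun w => (ψ w : ℂ)) w * (X w * wekf s z w)) (om E) :=
    fun j _ => (i1 j).add (i2 j)
  rw [integral_finsetSum _ i12] at hA
  have hA3 : ∀ j, ∫ w, (γ j w * dz (e j) (fun w => X w * wekf s z w) w +
        γ j w * dz (e j) (fun w => (ψ w : ℂ)) w * (X w * wekf s z w)) ∂(om E) =
      ∫ w, γ j w * dz (e j) (fun w => X w * wekf s z w) w ∂(om E) +
      ∫ w, γ j w * dz (e j) (fun w => (ψ w : ℂ)) w * (X w * wekf s z w) ∂(om E) :=
    fun j => integral_add (i1 j) (i2 j)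
  simp only [hA3, Finset.sum_add_distrib] at hA
  have h1 : ∀ j, ∫ w, dz (e j) (wekf s z) w * (X w * γ j w) ∂(om E) =
      ∫ w, γ j w * dz (e j) (fun w => X w * wekf s z w) w ∂(om E) -
      ∫ w, wekf s z w * (γ j w * dz (e j) X w) ∂(om E) := by
    intro j
    rw [← integral_sub (i1 j) (i3 j)]
    refine integral_congr_ae (Filter.Eventually.of_forall fun w => ?_)
    simp only
    rw [dz_mul (hX.differentiable (by simp) w) (hK.differentiable (by simp) w)]
    ring
  have h2 : ∀ j, dz (e j) (moll s (fun w => X w * γ j w)) z =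
      -(∫ w, γ j w * dz (e j) (fun w => X w * wekf s z w) w ∂(om E)) +
      ∫ w, wekf s z w * (γ j w * dz (e j) X w) ∂(om E) := by
    intro j
    rw [we_dz_moll_kf hs (hXl j), h1]
    ring
  simp only [h2, Finset.sum_add_distrib, Finset.sum_neg_distrib]
  rw [we_moll_eq_kf hs]
  have i5 : Integrable (fun w => ∑ j, γ j w * dz (e j) (fun w => (ψ w : ℂ)) w *
      (X w * wekf s z w)) (om E) := integrable_finsetSum _ fun j _ => i2 j
  have i6 : Integrable (fun w => ∑ j, wekf s z w * (γ j w * dz (e j) X w)) (om E) :=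
    integrable_finsetSum _ fun j _ => i3 j
  have h3 : ∫ w, wekf s z w * (-(τ w * X w) + ∑ j, γ j w * dz (e j) (fun w => (ψ w : ℂ)) w * X w +
        ∑ j, γ j w * dz (e j) X w) ∂(om E) =
      -(∫ w, wekf s z w * (τ w * X w) ∂(om E)) +
      ∑ j, ∫ w, γ j w * dz (e j) (fun w => (ψ w : ℂ)) w * (X w * wekf s z w) ∂(om E) +
      ∑ j, ∫ w, wekf s z w * (γ j w * dz (e j) X w) ∂(om E) := by
    have i7 : Integrable (fun w => -(wekf s z w * (τ w * X w))) (om E) := i4.neg
    have i8 : Integrable (fun w => -(wekf s z w * (τ w * X w)) +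
      ∑ j, γ j w * dz (e j) (fun w => (ψ w : ℂ)) w * (X w * wekf s z w)) (om E) := i7.add i5
    rw [← integral_finsetSum _ (fun j _ => i2 j), ← integral_finsetSum _ (fun j _ => i3 j),
      ← integral_neg, ← integral_add i7 i5, ← integral_add i8 i6]
    refine integral_congr_ae (Filter.Eventually.of_forall fun w => ?_)
    simp only [mul_add, Finset.mul_sum]
    congr 1
    congr 1
    · ring
    · refine Finset.sum_congr rfl fun j _ => ?_
      ring
  rw [h3]
  linear_combination -hA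

omit [FiniteDimensional ℂ E] [MeasurableSpace E] [BorelSpace E] in
theorem we_norm_sum (e : OrthonormalBasis ι ℂ E) (c : ι → ℂ) :
    ‖∑ j, c j • e j‖ ^ 2 = ∑ j, ‖c j‖ ^ 2 := by
  classical
  rw [← e.sum_sq_norm_inner_right]
  refine Finset.sum_congr rfl fun i _ => ?_
  have : inner ℂ (e i) (∑ j, c j • e j) = c i := by
    simp [e.inner_eq_ite]
  rw [this]

omit [FiniteDimensional ℂ E] [MeasurableSpace E] [BorelSpace E] in
theorem we_levi_cont {ψ : E → ℝ} (hψ : ContDiff ℝ ∞ ψ) {v : E → E} (hv : Continuous v) :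
    Continuous (fun z => Levi ψ z (v z)) := by
  have h1 : ContDiff ℝ ∞ (fderiv ℝ ψ) := hψ.fderiv_right (m := ∞) (by simp)
  have h2 : Continuous (fderiv ℝ (fderiv ℝ ψ)) := h1.continuous_fderiv (by simp)
  have h3 : Continuous (fun z => I • v z) := hv.const_smul I
  unfold Levi
  exact ((h2.clm_apply hv).clm_apply hv).add ((h2.clm_apply h3).clm_apply h3)

theorem we_fixed (e : OrthonormalBasis ι ℂ E) {ψ : E → ℝ} (hψ : ContDiff ℝ ∞ ψ)
    (hL : ∀ z v, 0 ≤ Levi ψ z v) {γ : ι → E → ℂ} {τ : E → ℂ}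
    (hγm : ∀ j, AEStronglyMeasurable (γ j) (om E)) (hτm : AEStronglyMeasurable τ (om E))
    (hγ : ∀ j, Integrable (fun z => ‖γ j z‖ ^ 2 * Real.exp (-ψ z)) (om E))
    (hτ : Integrable (fun z => ‖τ z‖ ^ 2 * Real.exp (-ψ z)) (om E))
    (hcl : ∀ w : E → ℂ, ContDiff ℝ ∞ w → HasCompactSupport w → ∀ j k,
      ∫ z, γ k z * dzb (e j) w z ∂(om E) = ∫ z, γ j z * dzb (e k) w z ∂(om E))
    (hadj : ∀ w : E → ℂ, ContDiff ℝ ∞ w → HasCompactSupport w →
      ∫ z, (∑ j, γ j z * dz (e j) w z) * (Real.exp (-ψ z) : ℂ) ∂(om E)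
        = ∫ z, τ z * w z * (Real.exp (-ψ z) : ℂ) ∂(om E))
    {F : Set E} (hF : MeasurableSet F) {c : ℝ}
    (hcF : ∀ z ∈ F, ∀ v, c * ‖v‖ ^ 2 ≤ Levi ψ z v)
    {χ : E → ℝ} (hχ : ContDiff ℝ ∞ χ) {R : ℝ} (hχ0 : ∀ z, R < ‖z‖ → χ z = 0)
    (hχd : ∀ z, R < ‖z‖ → fderiv ℝ χ z = 0) (hχF : ∀ z ∈ F, χ z = 1) :
    c / 4 * ∫ z in F, (∑ j, ‖γ j z‖ ^ 2) * Real.exp (-ψ z) ∂(om E) ≤
      (∫ z, ‖-(τ z * χ z) + ∑ j, γ j z * dz (e j) (fun w => (χ w : ℂ)) z‖ ^ 2
        * Real.exp (-ψ z) ∂(om E)) +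
      (1 / 2) * ∑ j, ∑ k, ∫ z, ‖γ k z * dzb (e j) (fun w => (χ w : ℂ)) z -
        γ j z * dzb (e k) (fun w => (χ w : ℂ)) z‖ ^ 2 * Real.exp (-ψ z) ∂(om E) := by
  classical
  have hprop : ProperSpace E := FiniteDimensional.proper ℂ E
  set X : E → ℂ := fun w => (χ w : ℂ) with hXdef
  have hX : ContDiff ℝ ∞ X := Complex.ofRealCLM.contDiff.comp hχ
  have hX0 : ∀ z, R < ‖z‖ → X z = 0 := fun z hz => by simp [hXdef, hχ0 z hz]
  have hXfd : ∀ z, fderiv ℝ X z = Complex.ofRealCLM.comp (fderiv ℝ χ z) := fun z =>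
    (Complex.ofRealCLM.hasFDerivAt.comp z (hχ.differentiable (by simp) z).hasFDerivAt).fderiv
  have hXdz : ∀ v z, R < ‖z‖ → dz v X z = 0 := fun v z hz => by
    simp [dz, hXfd, hχd z hz]
  have hXdzb : ∀ v z, R < ‖z‖ → dzb v X z = 0 := fun v z hz => by
    simp [dzb, hXfd, hχd z hz]
  have hXc : HasCompactSupport X := by
    refine HasCompactSupport.intro (isCompact_closedBall (0 : E) R) fun z hz => hX0 z ?_
    rw [Metric.mem_closedBall, dist_zero_right, not_le] at hz
    exact hz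
  have hψc : ContDiff ℝ ∞ (fun w => (ψ w : ℂ)) := Complex.ofRealCLM.contDiff.comp hψ
  have hγl : ∀ j, LocallyIntegrable (γ j) (om E) := fun j =>
    we_locInt hψ.continuous (hγm j) (hγ j)
  have hτl : LocallyIntegrable τ (om E) := we_locInt hψ.continuous hτm hτ
  -- the functions
  set A : E → ℂ := fun w => -(τ w * X w) + ∑ j, γ j w * dz (e j) (fun w => (ψ w : ℂ)) w * X w +
        ∑ j, γ j w * dz (e j) X w with hAdef
  set B : ι → ι → E → ℂ := fun j k w => γ k w * dzb (e j) X w - γ j w * dzb (e k) X w with hBdef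
  set g : ι → E → ℂ := fun j w => X w * γ j w with hgdef
  have mg : ∀ j, MemLp (g j) 2 (om E) := fun j => by
    have := we_memLp hψ.continuous (hγm j) (hγ j) hX.continuous hXc
    refine this.ae_eq (Filter.Eventually.of_forall fun z => ?_)
    simp only [hgdef]; ring
  have mB : ∀ j k, MemLp (B j k) 2 (om E) := fun j k =>
    (we_memLp hψ.continuous (hγm k) (hγ k) (contDiff_dzb hX (e j)).continuous
      (hasCompactSupport_dzb hXc (e j))).sub
    (we_memLp hψ.continuous (hγm j) (hγ j) (contDiff_dzb hX (e k)).continuous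
      (hasCompactSupport_dzb hXc (e k)))
  have mA : MemLp A 2 (om E) := by
    refine MemLp.add (MemLp.add (we_memLp hψ.continuous hτm hτ hX.continuous hXc).neg ?_) ?_
    · refine memLp_finsetSum _ fun j _ => ?_
      have := we_memLp hψ.continuous (hγm j) (hγ j)
        ((contDiff_dz hψc (e j)).continuous.mul hX.continuous)
        (hXc.mul_left (f := dz (e j) (fun w => (ψ w : ℂ))))
      refine this.ae_eq (Filter.Eventually.of_forall fun z => ?_)
      simp only [Pi.mul_apply]; ring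
    · exact memLp_finsetSum _ fun j _ => we_memLp hψ.continuous (hγm j) (hγ j)
        (contDiff_dz hX (e j)).continuous (hasCompactSupport_dz hXc (e j))
  have hg0 : ∀ j z, R < ‖z‖ → g j z = 0 := fun j z hz => by simp [hgdef, hX0 z hz]
  have hA0 : ∀ z, R < ‖z‖ → A z = 0 := fun z hz => by
    simp only [hAdef, hX0 z hz, hXdz _ z hz, mul_zero, Finset.sum_const_zero, neg_zero, add_zero]
  have hB0 : ∀ j k z, R < ‖z‖ → B j k z = 0 := fun j k z hz => by
    simp only [hBdef, hXdzb _ z hz, mul_zero, sub_zero]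
  -- weights
  set K : Set E := Metric.closedBall 0 (R + 1) with hK
  have hKm : MeasurableSet K := measurableSet_closedBall
  have hexpc : Continuous (fun z => Real.exp (-ψ z)) := Real.continuous_exp.comp hψ.continuous.neg
  obtain ⟨M, hM⟩ := (isCompact_closedBall (0 : E) (R + 1)).exists_bound_of_continuousOn
    hexpc.continuousOn
  have hM0 : ∀ z ∈ K, Real.exp (-ψ z) ≤ M := fun z hz => (Real.le_norm_self _).trans (hM z hz)
  have hFK : F ⊆ K := by
    intro z hz
    rw [hK, Metric.mem_closedBall, dist_zero_right]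
    by_contra hcon
    have h1 := hχ0 z (by linarith)
    rw [hχF z hz] at h1
    exact one_ne_zero h1
  set φ : E → ℝ := K.indicator (fun z => Real.exp (-ψ z)) with hφ
  set φF : E → ℝ := F.indicator (fun z => Real.exp (-ψ z)) with hφF
  have hφm : Measurable φ := hexpc.measurable.indicator hKm
  have hφFm : Measurable φF := hexpc.measurable.indicator hF
  have hφ0 : ∀ z, 0 ≤ φ z := fun z => Set.indicator_nonneg (fun _ _ => (Real.exp_pos _).le) z
  have hφF0 : ∀ z, 0 ≤ φF z := fun z => Set.indicator_nonneg (fun _ _ => (Real.exp_pos _).le) z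
  have hφM : ∀ z, φ z ≤ max M 0 := fun z => by
    by_cases hz : z ∈ K
    · rw [hφ, Set.indicator_of_mem hz]; exact (hM0 z hz).trans (le_max_left _ _)
    · rw [hφ, Set.indicator_of_notMem hz]; exact le_max_right _ _
  have hφFM : ∀ z, φF z ≤ max M 0 := fun z => by
    by_cases hz : z ∈ F
    · rw [hφF, Set.indicator_of_mem hz]; exact (hM0 z (hFK hz)).trans (le_max_left _ _)
    · rw [hφF, Set.indicator_of_notMem hz]; exact le_max_right _ _
  -- bounded coefficient functions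
  set p : ι → E → ℂ := fun j => K.indicator (fun z => -dz (e j) (fun w => (ψ w : ℂ)) z) with hp
  have hpm : ∀ j, AEStronglyMeasurable (p j) (om E) := fun j =>
    ((contDiff_dz hψc (e j)).continuous.neg.measurable.indicator hKm).aestronglyMeasurable
  have hpb : ∀ j, ∃ M, ∀ z, ‖p j z‖ ≤ M := fun j => by
    obtain ⟨M', hM'⟩ := (isCompact_closedBall (0 : E) (R + 1)).exists_bound_of_continuousOn
      (contDiff_dz hψc (e j)).continuous.neg.continuousOn
    refine ⟨max M' 0, fun z => ?_⟩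
    by_cases hz : z ∈ K
    · simp only [hp, Set.indicator_of_mem hz]; exact (hM' z hz).trans (le_max_left _ _)
    · simp only [hp, Set.indicator_of_notMem hz, norm_zero]; exact le_max_right _ _
  choose Mp hMp using hpb
  have cvU : WeCv (fun s z => moll s A z + ∑ j, p j z * moll s (g j) z)
      (fun z => A z + ∑ j, p j z * g j z) :=
    (we_cv_moll mA).add (WeCv.sum Finset.univ fun j _ => (we_cv_moll (mg j)).mul (hpm j) (hMp j))
  -- limits
  have l1 := cvU.weight hφm hφ0 hφM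
  have l2 : ∀ j k, _ := fun j k => (we_cv_moll (mB j k)).weight hφm hφ0 hφM
  have l3 : ∀ j, _ := fun j => (we_cv_moll (mg j)).weight hφFm hφF0 hφFM
  have lR : Tendsto (fun s => (∫ z, ‖moll s A z + ∑ j, p j z * moll s (g j) z‖ ^ 2 * φ z ∂(om E)) +
      (1 / 2) * ∑ j, ∑ k, ∫ z, ‖moll s (B j k) z‖ ^ 2 * φ z ∂(om E)) (𝓝[>] 0)
      (𝓝 ((∫ z, ‖A z + ∑ j, p j z * g j z‖ ^ 2 * φ z ∂(om E)) +
      (1 / 2) * ∑ j, ∑ k, ∫ z, ‖B j k z‖ ^ 2 * φ z ∂(om E))) :=
    l1.add ((tendsto_finsetSum _ fun j _ => tendsto_finsetSum _ fun k _ => l2 j k).const_mul _)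
  have lL : Tendsto (fun s => c / 4 * ∑ j, ∫ z, ‖moll s (g j) z‖ ^ 2 * φF z ∂(om E)) (𝓝[>] 0)
      (𝓝 (c / 4 * ∑ j, ∫ z, ‖g j z‖ ^ 2 * φF z ∂(om E))) :=
    (tendsto_finsetSum _ fun j _ => l3 j).const_mul _
  -- the inequality for small `s`
  have key : ∀ᶠ s in 𝓝[>] (0 : ℝ), c / 4 * ∑ j, ∫ z, ‖moll s (g j) z‖ ^ 2 * φF z ∂(om E) ≤
      (∫ z, ‖moll s A z + ∑ j, p j z * moll s (g j) z‖ ^ 2 * φ z ∂(om E)) +
      (1 / 2) * ∑ j, ∑ k, ∫ z, ‖moll s (B j k) z‖ ^ 2 * φ z ∂(om E) := by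
    filter_upwards [Ioo_mem_nhdsGT (show (0 : ℝ) < 1 by norm_num)] with s hs
    obtain ⟨hs0, hs1⟩ := hs
    have vg : ∀ j z, R + 1 < ‖z‖ → moll s (g j) z = 0 := fun j z hz =>
      moll_support (hg0 j) hs0 (by linarith)
    have vA : ∀ z, R + 1 < ‖z‖ → moll s A z = 0 := fun z hz =>
      moll_support hA0 hs0 (by linarith)
    have vB : ∀ j k z, R + 1 < ‖z‖ → moll s (B j k) z = 0 := fun j k z hz =>
      moll_support (hB0 j k) hs0 (by linarith)
    have sg : ∀ j, ContDiff ℝ ∞ (moll s (g j)) := fun j =>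
      moll_contDiff hs0 ((mg j).locallyIntegrable (by norm_num))
    have cg : ∀ j, HasCompactSupport (moll s (g j)) := fun j => by
      refine HasCompactSupport.intro (isCompact_closedBall (0 : E) (R + 1)) fun z hz => vg j z ?_
      rw [Metric.mem_closedBall, dist_zero_right, not_le] at hz
      exact hz
    have KM := kohn_morrey (fun j => e j) hψ sg cg
    have r1 : (∫ z, ‖∑ j, (dz (e j) (moll s (g j)) z -
        dz (e j) (fun w => (ψ w : ℂ)) z * moll s (g j) z)‖ ^ 2 * Real.exp (-ψ z) ∂(om E)) =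
        ∫ z, ‖moll s A z + ∑ j, p j z * moll s (g j) z‖ ^ 2 * φ z ∂(om E) := by
      refine integral_congr_ae (Filter.Eventually.of_forall fun z => ?_)
      simp only
      have h1 := we_div hψ hγl hτl (fun j => e j) hadj hX hXc hs0 z
      rw [Finset.sum_sub_distrib, h1]
      by_cases hz : z ∈ K
      · have h2 : φ z = Real.exp (-ψ z) := by rw [hφ, Set.indicator_of_mem hz]
        rw [h2]
        congr 3
        rw [sub_eq_add_neg, ← Finset.sum_neg_distrib]
        congr 1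
        refine Finset.sum_congr rfl fun j _ => ?_
        simp only [hp, Set.indicator_of_mem hz]
        ring
      · have h2 : φ z = 0 := by rw [hφ, Set.indicator_of_notMem hz]
        rw [hK, Metric.mem_closedBall, dist_zero_right, not_le] at hz
        have h3 := vA z hz
        simp only [hAdef] at h3
        rw [h2, h3]
        simp only [vg _ z hz, mul_zero, Finset.sum_const_zero, sub_zero, norm_zero]
        norm_num
    have r2 : ∀ j k, (∫ z, ‖dzb (e j) (moll s (g k)) z - dzb (e k) (moll s (g j)) z‖ ^ 2 *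
        Real.exp (-ψ z) ∂(om E)) = ∫ z, ‖moll s (B j k) z‖ ^ 2 * φ z ∂(om E) := by
      intro j k
      refine integral_congr_ae (Filter.Eventually.of_forall fun z => ?_)
      simp only
      have h1 := we_comm hγl (fun j => e j) hcl hX hXc hs0 j k z
      rw [h1]
      by_cases hz : z ∈ K
      · rw [hφ, Set.indicator_of_mem hz]
      · have h2 : φ z = 0 := by rw [hφ, Set.indicator_of_notMem hz]
        rw [hK, Metric.mem_closedBall, dist_zero_right, not_le] at hz
        have h3 := vB j k z hz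
        simp only [hBdef] at h3 ⊢
        rw [h2, h3]
        norm_num
    simp only [r1, r2] at KM
    refine le_trans ?_ KM
    -- the left-hand side
    have i1 : ∀ j, Integrable (fun z => ‖moll s (g j) z‖ ^ 2 * φF z) (om E) := fun j => by
      have h1 := (memLp_two_iff_integrable_sq_norm
        (moll_memLp (mg j) hs0).1.aestronglyMeasurable).1 (moll_memLp (mg j) hs0).1
      exact h1.mul_bdd (c := max M 0) hφFm.aestronglyMeasurable
        (Filter.Eventually.of_forall fun z => by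
          rw [Real.norm_of_nonneg (hφF0 z)]; exact hφFM z)
    have vcont : Continuous (fun z => ∑ j, moll s (g j) z • e j) :=
      continuous_finsetSum _ fun j _ => (sg j).continuous.smul continuous_const
    have i2 : Integrable (fun z => Levi ψ z (∑ j, moll s (g j) z • e j) * Real.exp (-ψ z))
        (om E) := by
      refine ((we_levi_cont hψ vcont).mul hexpc).integrable_of_hasCompactSupport ?_
      refine HasCompactSupport.intro (isCompact_closedBall (0 : E) (R + 1)) fun z hz => ?_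
      rw [Metric.mem_closedBall, dist_zero_right, not_le] at hz
      simp [vg _ z hz, Levi]
    have i3 : Integrable (fun z => c * ∑ j, ‖moll s (g j) z‖ ^ 2 * φF z) (om E) :=
      (integrable_finsetSum _ fun j _ => i1 j).const_mul c
    have hmono : ∫ z, c * ∑ j, ‖moll s (g j) z‖ ^ 2 * φF z ∂(om E) ≤
        ∫ z, Levi ψ z (∑ j, moll s (g j) z • e j) * Real.exp (-ψ z) ∂(om E) := by
      refine integral_mono i3 i2 fun z => ?_
      simp only
      by_cases hz : z ∈ F
      · have h1 : φF z = Real.exp (-ψ z) := by rw [hφF, Set.indicator_of_mem hz]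
        rw [h1, ← Finset.sum_mul, ← mul_assoc, ← we_norm_sum e]
        exact mul_le_mul_of_nonneg_right (hcF z hz _) (Real.exp_pos _).le
      · have h1 : φF z = 0 := by rw [hφF, Set.indicator_of_notMem hz]
        simp only [h1, mul_zero, Finset.sum_const_zero]
        exact mul_nonneg (hL _ _) (Real.exp_pos _).le
    rw [integral_const_mul, integral_finsetSum _ fun j _ => i1 j] at hmono
    calc c / 4 * ∑ j, ∫ z, ‖moll s (g j) z‖ ^ 2 * φF z ∂(om E)
        = 1 / 4 * (c * ∑ j, ∫ z, ‖moll s (g j) z‖ ^ 2 * φF z ∂(om E)) := by ring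
      _ ≤ _ := by gcongr
  have hfin := le_of_tendsto_of_tendsto lL lR key
  -- identify the limits
  have t1 : ∑ j, ∫ z, ‖g j z‖ ^ 2 * φF z ∂(om E) =
      ∫ z in F, (∑ j, ‖γ j z‖ ^ 2) * Real.exp (-ψ z) ∂(om E) := by
    have i1 : ∀ j, Integrable (fun z => ‖g j z‖ ^ 2 * φF z) (om E) := fun j => by
      have h1 := (memLp_two_iff_integrable_sq_norm (mg j).aestronglyMeasurable).1 (mg j)
      exact h1.mul_bdd (c := max M 0) hφFm.aestronglyMeasurable
        (Filter.Eventually.of_forall fun z => by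
          rw [Real.norm_of_nonneg (hφF0 z)]; exact hφFM z)
    rw [← integral_finsetSum _ fun j _ => i1 j, ← integral_indicator hF]
    refine integral_congr_ae (Filter.Eventually.of_forall fun z => ?_)
    simp only
    by_cases hz : z ∈ F
    · rw [Set.indicator_of_mem hz, Finset.sum_mul]
      refine Finset.sum_congr rfl fun j _ => ?_
      rw [hφF, Set.indicator_of_mem hz]
      simp [hgdef, hXdef, hχF z hz]
    · rw [Set.indicator_of_notMem hz]
      simp [hφF, Set.indicator_of_notMem hz]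
  have t2 : (∫ z, ‖A z + ∑ j, p j z * g j z‖ ^ 2 * φ z ∂(om E)) =
      ∫ z, ‖-(τ z * χ z) + ∑ j, γ j z * dz (e j) X z‖ ^ 2 * Real.exp (-ψ z) ∂(om E) := by
    refine integral_congr_ae (Filter.Eventually.of_forall fun z => ?_)
    simp only
    by_cases hz : z ∈ K
    · rw [hφ, Set.indicator_of_mem hz]
      congr 3
      simp only [hAdef, hp, Set.indicator_of_mem hz, hgdef]
      have : ∑ j, -dz (e j) (fun w => (ψ w : ℂ)) z * (X z * γ j z) =
          -∑ j, γ j z * dz (e j) (fun w => (ψ w : ℂ)) z * X z := by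
        rw [← Finset.sum_neg_distrib]
        refine Finset.sum_congr rfl fun j _ => ?_
        ring
      rw [this]
      ring
    · have h2 : φ z = 0 := by rw [hφ, Set.indicator_of_notMem hz]
      rw [hK, Metric.mem_closedBall, dist_zero_right, not_le] at hz
      have hz' : R < ‖z‖ := by linarith
      rw [h2, hχ0 z hz']
      simp only [hXdz _ z hz', mul_zero, Finset.sum_const_zero, Complex.ofReal_zero]
      norm_num
  have t3 : ∀ j k, (∫ z, ‖B j k z‖ ^ 2 * φ z ∂(om E)) =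
      ∫ z, ‖γ k z * dzb (e j) X z - γ j z * dzb (e k) X z‖ ^ 2 * Real.exp (-ψ z) ∂(om E) := by
    intro j k
    refine integral_congr_ae (Filter.Eventually.of_forall fun z => ?_)
    simp only
    by_cases hz : z ∈ K
    · rw [hφ, Set.indicator_of_mem hz]
    · have h2 : φ z = 0 := by rw [hφ, Set.indicator_of_notMem hz]
      rw [hK, Metric.mem_closedBall, dist_zero_right, not_le] at hz
      have hz' : R < ‖z‖ := by linarith
      rw [h2]
      simp only [hXdzb _ z hz', mul_zero, sub_zero]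
      norm_num
  simp only [t1, t2, t3] at hfin
  exact hfin

theorem weak_estimate (e : OrthonormalBasis ι ℂ E) {ψ : E → ℝ} (hψ : ContDiff ℝ ∞ ψ)
    (hL : ∀ z v, 0 ≤ Levi ψ z v) {γ : ι → E → ℂ} {τ : E → ℂ}
    (hγm : ∀ j, AEStronglyMeasurable (γ j) (om E)) (hτm : AEStronglyMeasurable τ (om E))
    (hγ : ∀ j, Integrable (fun z => ‖γ j z‖ ^ 2 * Real.exp (-ψ z)) (om E))
    (hτ : Integrable (fun z => ‖τ z‖ ^ 2 * Real.exp (-ψ z)) (om E))
    (hcl : ∀ w : E → ℂ, ContDiff ℝ ∞ w → HasCompactSupport w → ∀ j k,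
      ∫ z, γ k z * dzb (e j) w z ∂(om E) = ∫ z, γ j z * dzb (e k) w z ∂(om E))
    (hadj : ∀ w : E → ℂ, ContDiff ℝ ∞ w → HasCompactSupport w →
      ∫ z, (∑ j, γ j z * dz (e j) w z) * (Real.exp (-ψ z) : ℂ) ∂(om E)
        = ∫ z, τ z * w z * (Real.exp (-ψ z) : ℂ) ∂(om E))
    {F : Set E} (hF : MeasurableSet F) (hFb : Bornology.IsBounded F) {c : ℝ} (hc : 0 ≤ c)
    (hcF : ∀ z ∈ F, ∀ v, c * ‖v‖ ^ 2 ≤ Levi ψ z v) :
    c / 4 * ∫ z in F, (∑ j, ‖γ j z‖ ^ 2) * Real.exp (-ψ z) ∂(om E)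
      ≤ ∫ z, ‖τ z‖ ^ 2 * Real.exp (-ψ z) ∂(om E) := by
  classical
  obtain ⟨C, hC0, hCR⟩ := exists_cutoff E
  obtain ⟨R0, hR0⟩ := hFb.exists_norm_le
  set T : ℝ := ∫ z, ‖τ z‖ ^ 2 * Real.exp (-ψ z) ∂(om E) with hT
  set Γ : ℝ := ∑ j, ∫ z, ‖γ j z‖ ^ 2 * Real.exp (-ψ z) ∂(om E) with hΓ
  set N : ℝ := ((Fintype.card ι : ℕ) : ℝ) with hN
  set L : ℝ := c / 4 * ∫ z in F, (∑ j, ‖γ j z‖ ^ 2) * Real.exp (-ψ z) ∂(om E) with hLdef
  have hN0 : 0 ≤ N := Nat.cast_nonneg _
  have hΓ0 : 0 ≤ Γ := Finset.sum_nonneg fun j _ => integral_nonneg fun z => by positivity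
  have hT0 : 0 ≤ T := integral_nonneg fun z => by positivity
  have hγs : Integrable (fun z => (∑ j, ‖γ j z‖ ^ 2) * Real.exp (-ψ z)) (om E) := by
    have := integrable_finsetSum Finset.univ fun j _ => hγ j
    refine this.congr (Filter.Eventually.of_forall fun z => ?_)
    simp only [Finset.sum_mul]
  have hγsum : ∫ z, (∑ j, ‖γ j z‖ ^ 2) * Real.exp (-ψ z) ∂(om E) = Γ := by
    rw [hΓ, ← integral_finsetSum Finset.univ fun j _ => hγ j]
    refine integral_congr_ae (Filter.Eventually.of_forall fun z => ?_)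
    simp only [Finset.sum_mul]
  have main : ∀ R : ℝ, 1 ≤ R → R0 ≤ R → L ≤ T + 1 / R * (T + 4 * N * C ^ 2 * Γ) := by
    intro R hR1 hR2
    have hRpos : 0 < R := by linarith
    obtain ⟨χ, hχ, hχ01, hχ1, hχ0, hχd, -, hχd0⟩ := hCR R hR1
    have hfix := we_fixed e hψ hL hγm hτm hγ hτ hcl hadj hF hcF hχ (R := 2 * R)
      (fun z hz => hχ0 z hz.le) (fun z hz => hχd0 z hz)
      (fun z hz => hχ1 z ((hR0 z hz).trans hR2))
    set X : E → ℂ := fun w => (χ w : ℂ) with hXdef
    have hXfd : ∀ z, fderiv ℝ X z = Complex.ofRealCLM.comp (fderiv ℝ χ z) := fun z =>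
      (Complex.ofRealCLM.hasFDerivAt.comp z (hχ.differentiable (by simp) z).hasFDerivAt).fderiv
    have hXb : ∀ j z, ‖fderiv ℝ X z (e j)‖ ≤ C / R ∧ ‖fderiv ℝ X z (I • e j)‖ ≤ C / R := by
      intro j z
      have h1 : ‖(e j : E)‖ = 1 := e.norm_eq_one j
      have h2 : ‖I • (e j : E)‖ = 1 := by rw [norm_smul, Complex.norm_I, h1, mul_one]
      have h3 : ∀ v : E, ‖v‖ = 1 → ‖fderiv ℝ X z v‖ ≤ C / R := by
        intro v hv
        rw [hXfd, ContinuousLinearMap.comp_apply, Complex.ofRealCLM_apply, Complex.norm_real]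
        calc ‖fderiv ℝ χ z v‖ ≤ ‖fderiv ℝ χ z‖ * ‖v‖ := (fderiv ℝ χ z).le_opNorm v
          _ ≤ C / R := by rw [hv, mul_one]; exact hχd z
      exact ⟨h3 _ h1, h3 _ h2⟩
    have hdz : ∀ j z, ‖dz (e j) X z‖ ≤ C / R := by
      intro j z
      rw [dz, norm_div, Complex.norm_ofNat, div_le_iff₀ (by norm_num)]
      refine (norm_sub_le _ _).trans ?_
      rw [norm_mul, Complex.norm_I, one_mul]
      linarith [(hXb j z).1, (hXb j z).2]
    have hdzb : ∀ j z, ‖dzb (e j) X z‖ ≤ C / R := by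
      intro j z
      rw [dzb, norm_div, Complex.norm_ofNat, div_le_iff₀ (by norm_num)]
      refine (norm_add_le _ _).trans ?_
      rw [norm_mul, Complex.norm_I, one_mul]
      linarith [(hXb j z).1, (hXb j z).2]
    -- first term
    have b1 : (∫ z, ‖-(τ z * χ z) + ∑ j, γ j z * dz (e j) X z‖ ^ 2
        * Real.exp (-ψ z) ∂(om E)) ≤ (1 + 1 / R) * T + (1 + R) * (N * (C / R) ^ 2) * Γ := by
      have i1 : Integrable (fun z => (1 + 1 / R) * (‖τ z‖ ^ 2 * Real.exp (-ψ z)) +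
          (1 + R) * (N * (C / R) ^ 2) * ((∑ j, ‖γ j z‖ ^ 2) * Real.exp (-ψ z))) (om E) :=
        (hτ.const_mul _).add (hγs.const_mul _)
      have e1 : ∫ z, ((1 + 1 / R) * (‖τ z‖ ^ 2 * Real.exp (-ψ z)) +
          (1 + R) * (N * (C / R) ^ 2) * ((∑ j, ‖γ j z‖ ^ 2) * Real.exp (-ψ z))) ∂(om E) =
          (1 + 1 / R) * T + (1 + R) * (N * (C / R) ^ 2) * Γ := by
        rw [integral_add (hτ.const_mul _) (hγs.const_mul _), integral_const_mul,
          integral_const_mul, hγsum]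
      rw [← e1]
      refine integral_mono_of_nonneg (Filter.Eventually.of_forall fun z => by positivity) i1
        (Filter.Eventually.of_forall fun z => ?_)
      simp only
      have c1 : ‖∑ j, γ j z * dz (e j) X z‖ ^ 2 ≤ N * (C / R) ^ 2 * ∑ j, ‖γ j z‖ ^ 2 := by
        have d1 : ‖∑ j, γ j z * dz (e j) X z‖ ≤ (C / R) * ∑ j, ‖γ j z‖ := by
          refine (norm_sum_le _ _).trans ?_
          rw [Finset.mul_sum]
          refine Finset.sum_le_sum fun j _ => ?_
          rw [norm_mul, mul_comm]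
          exact mul_le_mul_of_nonneg_right (hdz j z) (norm_nonneg _)
        have d2 : (∑ j, ‖γ j z‖) ^ 2 ≤ N * ∑ j, ‖γ j z‖ ^ 2 := by
          have := sq_sum_le_card_mul_sum_sq (s := (Finset.univ : Finset ι))
            (f := fun j => ‖γ j z‖)
          simpa [hN, Finset.card_univ] using this
        calc ‖∑ j, γ j z * dz (e j) X z‖ ^ 2 ≤ ((C / R) * ∑ j, ‖γ j z‖) ^ 2 :=
              pow_le_pow_left₀ (norm_nonneg _) d1 2
          _ = (C / R) ^ 2 * (∑ j, ‖γ j z‖) ^ 2 := by ring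
          _ ≤ (C / R) ^ 2 * (N * ∑ j, ‖γ j z‖ ^ 2) :=
              mul_le_mul_of_nonneg_left d2 (by positivity)
          _ = _ := by ring
      have c2 : ‖-(τ z * (χ z : ℂ))‖ ≤ ‖τ z‖ := by
        rw [norm_neg, norm_mul, Complex.norm_real, Real.norm_of_nonneg (hχ01 z).1]
        exact mul_le_of_le_one_right (norm_nonneg _) (hχ01 z).2
      have c3 : ‖-(τ z * χ z) + ∑ j, γ j z * dz (e j) X z‖ ^ 2 ≤
          (1 + 1 / R) * ‖τ z‖ ^ 2 + (1 + R) * (N * (C / R) ^ 2) * ∑ j, ‖γ j z‖ ^ 2 := by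
        set a := ‖τ z‖
        set b := ‖∑ j, γ j z * dz (e j) X z‖
        have f1 : ‖-(τ z * χ z) + ∑ j, γ j z * dz (e j) X z‖ ≤ a + b :=
          (norm_add_le _ _).trans (add_le_add c2 le_rfl)
        have f2 : (a + b) ^ 2 ≤ (1 + 1 / R) * a ^ 2 + (1 + R) * b ^ 2 := by
          have f3 : 0 ≤ 1 / R * (a - R * b) ^ 2 := by positivity
          have f4 : 1 / R * (a - R * b) ^ 2 = 1 / R * a ^ 2 - 2 * a * b + R * b ^ 2 := by
            field_simp
            ring
          nlinarith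
        calc _ ≤ (a + b) ^ 2 := pow_le_pow_left₀ (norm_nonneg _) f1 2
          _ ≤ (1 + 1 / R) * a ^ 2 + (1 + R) * b ^ 2 := f2
          _ ≤ (1 + 1 / R) * a ^ 2 + (1 + R) * (N * (C / R) ^ 2 * ∑ j, ‖γ j z‖ ^ 2) := by
              gcongr
          _ = _ := by ring
      calc ‖-(τ z * χ z) + ∑ j, γ j z * dz (e j) X z‖ ^ 2 * Real.exp (-ψ z)
          ≤ ((1 + 1 / R) * ‖τ z‖ ^ 2 + (1 + R) * (N * (C / R) ^ 2) * ∑ j, ‖γ j z‖ ^ 2) *
            Real.exp (-ψ z) := mul_le_mul_of_nonneg_right c3 (Real.exp_pos _).le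
        _ = _ := by ring
    -- second term
    have b2 : ∀ j k, (∫ z, ‖γ k z * dzb (e j) X z - γ j z * dzb (e k) X z‖ ^ 2 *
        Real.exp (-ψ z) ∂(om E)) ≤ 2 * (C / R) ^ 2 *
        ((∫ z, ‖γ k z‖ ^ 2 * Real.exp (-ψ z) ∂(om E)) +
          ∫ z, ‖γ j z‖ ^ 2 * Real.exp (-ψ z) ∂(om E)) := by
      intro j k
      have i1 : Integrable (fun z => 2 * (C / R) ^ 2 * (‖γ k z‖ ^ 2 * Real.exp (-ψ z) +
          ‖γ j z‖ ^ 2 * Real.exp (-ψ z))) (om E) := ((hγ k).add (hγ j)).const_mul _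
      rw [← integral_add (hγ k) (hγ j), ← integral_const_mul]
      refine integral_mono_of_nonneg (Filter.Eventually.of_forall fun z => by positivity) i1
        (Filter.Eventually.of_forall fun z => ?_)
      simp only
      have c1 : ‖γ k z * dzb (e j) X z - γ j z * dzb (e k) X z‖ ≤ (C / R) * (‖γ k z‖ + ‖γ j z‖) := by
        refine (norm_sub_le _ _).trans ?_
        rw [norm_mul, norm_mul, mul_add]
        have := mul_le_mul_of_nonneg_left (hdzb j z) (norm_nonneg (γ k z))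
        have := mul_le_mul_of_nonneg_left (hdzb k z) (norm_nonneg (γ j z))
        linarith
      have c2 : ‖γ k z * dzb (e j) X z - γ j z * dzb (e k) X z‖ ^ 2 ≤
          2 * (C / R) ^ 2 * (‖γ k z‖ ^ 2 + ‖γ j z‖ ^ 2) := by
        calc _ ≤ ((C / R) * (‖γ k z‖ + ‖γ j z‖)) ^ 2 := pow_le_pow_left₀ (norm_nonneg _) c1 2
          _ = (C / R) ^ 2 * (‖γ k z‖ + ‖γ j z‖) ^ 2 := by ring
          _ ≤ (C / R) ^ 2 * (2 * (‖γ k z‖ ^ 2 + ‖γ j z‖ ^ 2)) := by
              refine mul_le_mul_of_nonneg_left ?_ (by positivity)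
              nlinarith [sq_nonneg (‖γ k z‖ - ‖γ j z‖)]
          _ = _ := by ring
      calc _ ≤ 2 * (C / R) ^ 2 * (‖γ k z‖ ^ 2 + ‖γ j z‖ ^ 2) * Real.exp (-ψ z) :=
            mul_le_mul_of_nonneg_right c2 (Real.exp_pos _).le
        _ = _ := by ring
    have b3 : (1 / 2 : ℝ) * ∑ j, ∑ k, ∫ z, ‖γ k z * dzb (e j) X z - γ j z * dzb (e k) X z‖ ^ 2 *
        Real.exp (-ψ z) ∂(om E) ≤ 2 * N * (C / R) ^ 2 * Γ := by
      have d1 : ∑ j, ∑ k, ∫ z, ‖γ k z * dzb (e j) X z - γ j z * dzb (e k) X z‖ ^ 2 *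
          Real.exp (-ψ z) ∂(om E) ≤ ∑ j, ∑ k, 2 * (C / R) ^ 2 *
        ((∫ z, ‖γ k z‖ ^ 2 * Real.exp (-ψ z) ∂(om E)) +
          ∫ z, ‖γ j z‖ ^ 2 * Real.exp (-ψ z) ∂(om E)) :=
        Finset.sum_le_sum fun j _ => Finset.sum_le_sum fun k _ => b2 j k
      have d2 : ∑ j : ι, ∑ k : ι, 2 * (C / R) ^ 2 *
        ((∫ z, ‖γ k z‖ ^ 2 * Real.exp (-ψ z) ∂(om E)) +
          ∫ z, ‖γ j z‖ ^ 2 * Real.exp (-ψ z) ∂(om E)) = 4 * N * (C / R) ^ 2 * Γ := by
        simp only [← Finset.mul_sum, Finset.sum_add_distrib, Finset.sum_const, Finset.card_univ,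
          nsmul_eq_mul]
        rw [← hΓ, ← hN]
        ring
      rw [d2] at d1
      linarith
    have hfin : L ≤ ((1 + 1 / R) * T + (1 + R) * (N * (C / R) ^ 2) * Γ) +
        2 * N * (C / R) ^ 2 * Γ := hfix.trans (add_le_add b1 b3)
    refine hfin.trans ?_
    have g1 : (C / R) ^ 2 ≤ C ^ 2 / R := by
      rw [div_pow]
      refine div_le_div_of_nonneg_left (by positivity) hRpos ?_
      nlinarith
    have g2 : (1 + R) * (C / R) ^ 2 ≤ 2 * (C ^ 2 / R) := by
      rw [div_pow, mul_div_assoc', mul_div_assoc', div_le_div_iff₀ (by positivity) hRpos]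
      nlinarith [mul_nonneg (sq_nonneg C) hRpos.le, mul_nonneg (mul_nonneg (sq_nonneg C) hRpos.le)
        (sub_nonneg.2 hR1)]
    have hNΓ : 0 ≤ N * Γ := mul_nonneg hN0 hΓ0
    have g3 := mul_le_mul_of_nonneg_left g1 hNΓ
    have g4 := mul_le_mul_of_nonneg_left g2 hNΓ
    have e2 : T + 1 / R * (T + 4 * N * C ^ 2 * Γ) =
        (1 + 1 / R) * T + N * Γ * (2 * (C ^ 2 / R)) + 2 * (N * Γ * (C ^ 2 / R)) := by
      field_simp
      ring
    rw [e2]
    nlinarith
  have hlim : Tendsto (fun R : ℝ => T + 1 / R * (T + 4 * N * C ^ 2 * Γ)) atTop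
      (𝓝 (T + 0 * (T + 4 * N * C ^ 2 * Γ))) := by
    refine tendsto_const_nhds.add (Tendsto.mul_const _ ?_)
    have h1 : Tendsto (fun R : ℝ => R⁻¹) atTop (𝓝 0) := tendsto_inv_atTop_zero
    exact h1.congr fun R => (one_div R).symm
  rw [zero_mul, add_zero] at hlim
  refine ge_of_tendsto hlim ?_
  filter_upwards [eventually_ge_atTop 1, eventually_ge_atTop R0] with R h1 h2
  exact main R h1 h2

end Pool.Agent.Edge
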