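import Pool.Agent.Edge.HorBase
import Pool.Agent.Edge.Moll

/-!
# Weyl's lemma for `∂̄`

If `h` is locally integrable and `∫ h ∂̄_j w = 0` for all test functions `w` and all `j`, then `h` is
a.e. equal to an entire function.
Proof.  For every smooth compactly supported kernel `κ` the convolution
`h*κ(z) = ∫ h(y) κ(z-y) dy` is smooth and `∂̄_j(h*κ)(z) = -∫ h(y) (∂̄_j)_y[κ(z-y)] dy = 0`, so it is
entire (`differentiable_of_dzb`).  Take bump kernels `κ_i` (normed `ContDiffBump`s with
`rOut → 0`, `rOut ≤ 2 rIn`): `h*κ_i → h` a.e.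
(`ContDiffBump.ae_convolution_tendsto_right_of_locallyIntegrable`).  By the mean value property
`moll 1 (h*κ_i) = h*κ_i` (`moll_entire`), and `moll 1 (h*κ_i) = (moll 1 h)*κ_i` (Fubini);
`moll 1 h` is continuous (even entire), so `(moll 1 h)*κ_i → moll 1 h` pointwise.
Hence `h = moll 1 h` a.e.
-/

namespace Pool.Agent.Edge

open MeasureTheory Filter Topology Complex

open scoped ComplexConjugate ContDiff Convolution

variable {E : Type*} [NormedAddCommGroup E] [InnerProductSpace ℂ E] [FiniteDimensional ℂ E]
  [MeasurableSpace E] [BorelSpace E]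
variable {ι : Type*} [Fintype ι]

theorem locallyIntegrable_norm' {h : E → ℂ} (hh : LocallyIntegrable h (om E)) :
    LocallyIntegrable (fun x => ‖h x‖) (om E) := by
  intro x
  obtain ⟨s, hs, hi⟩ := hh x
  exact ⟨s, hs, hi.norm⟩

omit [FiniteDimensional ℂ E] [MeasurableSpace E] [BorelSpace E] in
/-- `∂̄_v` vanishes if it vanishes on a basis. -/
theorem dzb_zero_of_basis (e : OrthonormalBasis ι ℂ E) {F : E → ℂ} {z : E}
    (h : ∀ j, dzb (e j) F z = 0) (v : E) : dzb v F z = 0 := by
  classical
  have h1 : ∀ s : Finset ι, dzb (∑ j ∈ s, inner ℂ (e j) v • e j) F z = 0 := by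
    intro s
    induction s using Finset.induction_on with
    | empty =>
      simp [dzb]
    | insert a s ha ih =>
      rw [Finset.sum_insert ha, dzb_vadd, ih, dzb_smul, h a, mul_zero, add_zero]
  have h2 := h1 Finset.univ
  rwa [e.sum_repr'] at h2

/-- mollifications of `h` by smooth kernels are entire. -/
theorem conv_entire (e : OrthonormalBasis ι ℂ E) {h : E → ℂ} (hh : LocallyIntegrable h (om E))
    (hw : ∀ w : E → ℂ, ContDiff ℝ ∞ w → HasCompactSupport w → ∀ j,
      ∫ z, h z * dzb (e j) w z ∂(om E) = 0) {κ : E → ℝ} (hκ : ContDiff ℝ ∞ κ)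
    (hc : HasCompactSupport κ) :
    Differentiable ℂ (κ ⋆[ContinuousLinearMap.lsmul ℝ ℝ, om E] h) := by
  have hd := fun x₀ => hc.hasFDerivAt_convolution_left (ContinuousLinearMap.lsmul ℝ ℝ)
    (hκ.of_le (by exact_mod_cast le_top)) hh x₀
  -- formula for the derivative
  have hder : ∀ x v : E, fderiv ℝ (κ ⋆[ContinuousLinearMap.lsmul ℝ ℝ, om E] h) x v =
      ∫ y, (fderiv ℝ κ (x - y) v) • h y ∂(om E) := by
    intro x v
    rw [(hd x).fderiv, ← integral_sub_left_eq_self (fun y => (fderiv ℝ κ (x - y) v) • h y)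
      (om E) x]
    have hex : ConvolutionExistsAt (fderiv ℝ κ) h x
        ((ContinuousLinearMap.lsmul ℝ ℝ).precompL E) (om E) := by
      refine (hc.fderiv ℝ).convolutionExists_left _ (hκ.continuous_fderiv (by simp)) hh x
    rw [convolution_def]
    rw [ContinuousLinearMap.integral_apply hex]
    refine integral_congr_ae (Eventually.of_forall fun t => ?_)
    simp [ContinuousLinearMap.precompL_apply]
  refine differentiable_of_dzb (fun x => (hd x).differentiableAt) fun x => ?_
  refine dzb_zero_of_basis e fun j => ?_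
  -- test function
  set w : E → ℂ := fun y => ((κ (x - y) : ℝ) : ℂ) with hwdef
  have hws : ContDiff ℝ ∞ w := by
    refine Complex.ofRealCLM.contDiff.comp (hκ.comp ?_)
    exact contDiff_const.sub contDiff_id
  have hwc : HasCompactSupport w := by
    have h1 : HasCompactSupport (fun y : E => κ (x - y)) := by
      have := hc.comp_homeomorph (Homeomorph.subLeft x)
      exact this
    exact h1.comp_left (g := fun r : ℝ => (r : ℂ)) (by simp)
  have h0 := hw w hws hwc j
  have hwd : ∀ y v : E, fderiv ℝ w y v = -((fderiv ℝ κ (x - y) v : ℝ) : ℂ) := by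
    intro y v
    have h1 : HasFDerivAt (fun y : E => x - y) (-(ContinuousLinearMap.id ℝ E)) y := by
      simpa using (hasFDerivAt_id y).const_sub x
    have h2 : HasFDerivAt κ (fderiv ℝ κ (x - y)) (x - y) :=
      (hκ.differentiable (by simp) (x - y)).hasFDerivAt
    have h3 := Complex.ofRealCLM.hasFDerivAt.comp y (h2.comp y h1)
    have h4 : fderiv ℝ w y = _ := h3.fderiv
    rw [h4]
    simp
  have hint : ∀ v : E, Integrable (fun y => (fderiv ℝ κ (x - y) v) • h y) (om E) := by
    intro v
    have hex : ConvolutionExistsAt (fun t => fderiv ℝ κ t v) h x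
        (ContinuousLinearMap.lsmul ℝ ℝ) (om E) := by
      refine HasCompactSupport.convolutionExists_left _ ?_ ?_ hh x
      · exact (hc.fderiv ℝ).comp_left (g := fun L : E →L[ℝ] ℝ => L v) (by simp)
      · exact (hκ.continuous_fderiv (by simp)).clm_apply continuous_const
    have h2 := hex.integrable_swap
    simpa using h2
  have key : ∫ y, h y * dzb (e j) w y ∂(om E) =
      - dzb (e j) (κ ⋆[ContinuousLinearMap.lsmul ℝ ℝ, om E] h) x := by
    rw [dzb, hder, hder]
    have e1 : (fun y => h y * dzb (e j) w y) = fun y =>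
        (-(1 / 2 : ℂ)) * ((fderiv ℝ κ (x - y) (e j)) • h y) +
        (-(I / 2)) * ((fderiv ℝ κ (x - y) (I • e j)) • h y) := by
      funext y
      rw [dzb, hwd, hwd]
      simp only [Complex.real_smul]
      ring
    rw [e1, integral_add ((hint _).const_mul _) ((hint _).const_mul _), integral_const_mul,
      integral_const_mul]
    ring
  rw [h0] at key
  have := neg_eq_zero.1 key.symm
  exact this

theorem weyl (e : OrthonormalBasis ι ℂ E) {h : E → ℂ} (hh : LocallyIntegrable h (om E))
    (hw : ∀ w : E → ℂ, ContDiff ℝ ∞ w → HasCompactSupport w → ∀ j,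
      ∫ z, h z * dzb (e j) w z ∂(om E) = 0) :
    ∃ g : E → ℂ, Differentiable ℂ g ∧ h =ᵐ[om E] g := by
  have hm : ∀ f : E → ℂ, moll 1 f = (rho : E → ℝ) ⋆[ContinuousLinearMap.lsmul ℝ ℝ, om E] f := by
    intro f
    funext z
    rw [convolution_lsmul]
    simp [moll]
  have hg : Differentiable ℂ (moll 1 h) := by
    rw [hm]
    exact conv_entire e hh hw rho_contDiff rho_hasCompactSupport
  refine ⟨moll 1 h, hg, ?_⟩
  -- bump functions
  let φ : ℕ → ContDiffBump (0 : E) := fun i =>
    ⟨1 / ((i : ℝ) + 1), 2 / ((i : ℝ) + 1), by positivity, by gcongr; norm_num⟩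
  have hφ : Tendsto (fun i => (φ i).rOut) atTop (𝓝 0) := by
    have h1 := (tendsto_one_div_add_atTop_nhds_zero_nat (𝕜 := ℝ)).const_mul 2
    rw [mul_zero] at h1
    refine h1.congr fun i => ?_
    show 2 * (1 / ((i : ℝ) + 1)) = 2 / ((i : ℝ) + 1)
    ring
  have h'φ : ∀ᶠ i in atTop, (φ i).rOut ≤ 2 * (φ i).rIn := by
    refine Eventually.of_forall fun i => ?_
    show 2 / ((i : ℝ) + 1) ≤ 2 * (1 / ((i : ℝ) + 1))
    exact le_of_eq (by ring)
  have hae := ContDiffBump.ae_convolution_tendsto_right_of_locallyIntegrable (μ := om E)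
    hφ h'φ hh
  filter_upwards [hae] with x hx
  have h2 := ContDiffBump.convolution_tendsto_right_of_continuous (μ := om E) hφ
    hg.continuous x
  have heq : ∀ i, ((φ i).normed (om E) ⋆[ContinuousLinearMap.lsmul ℝ ℝ, om E] h) x =
      ((φ i).normed (om E) ⋆[ContinuousLinearMap.lsmul ℝ ℝ, om E] (moll 1 h)) x := by
    intro i
    have hks : ContDiff ℝ ∞ ((φ i).normed (om E)) := (φ i).contDiff_normed
    have hkc : HasCompactSupport ((φ i).normed (om E)) := (φ i).hasCompactSupport_normed
    have h3 := moll_entire (conv_entire e hh hw hks hkc) 1 x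
    rw [hm] at h3
    rw [hm, ← h3]
    -- both sides equal a convolution with `rho * φ`
    have hrc : Continuous (rho : E → ℝ) := rho_contDiff.continuous
    have assoc : ∀ a b : E → ℝ, Continuous a → Continuous b → HasCompactSupport a →
        HasCompactSupport b →
        ((a ⋆[ContinuousLinearMap.mul ℝ ℝ, om E] b) ⋆[ContinuousLinearMap.lsmul ℝ ℝ, om E] h) x =
        (a ⋆[ContinuousLinearMap.lsmul ℝ ℝ, om E]
          (b ⋆[ContinuousLinearMap.lsmul ℝ ℝ, om E] h)) x := by
      intro a b ha hb hac hbc
      refine convolution_assoc _ _ _ _ ?_ ha.aestronglyMeasurable hb.aestronglyMeasurable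
        hh.aestronglyMeasurable ?_ ?_ ?_
      · intro x y z
        simp [mul_smul]
      · exact Eventually.of_forall fun y =>
          hac.convolutionExists_left _ ha hb.locallyIntegrable y
      · exact Eventually.of_forall fun y =>
          hbc.norm.convolutionExists_left _ hb.norm (locallyIntegrable_norm' hh) y
      · refine hac.norm.convolutionExists_left _ ha.norm ?_ x
        exact (hbc.norm.continuous_convolution_left _ hb.norm (locallyIntegrable_norm' hh)).locallyIntegrable
    rw [← assoc rho _ hrc hks.continuous rho_hasCompactSupport hkc,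
      ← assoc _ rho hks.continuous hrc hkc rho_hasCompactSupport]
    congr 1
    rw [← convolution_flip]
    congr 1
    ext
    simp
  have h4 : Tendsto (fun i => ((φ i).normed (om E) ⋆[ContinuousLinearMap.lsmul ℝ ℝ, om E] h) x)
      atTop (𝓝 (moll 1 h x)) := by
    refine h2.congr fun i => (heq i).symm
  exact tendsto_nhds_unique hx h4

end Pool.Agent.Edge
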