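import Pool.Agent.Edge.HorC
import Pool.Agent.Edge.HorD

/-!
# Hörmander's `L²` estimate (as a projection estimate)

Let `μ = e^{-ψ} om`.  Notation `∂_j = dz (e j)`, `∂̄_j = dzb (e j)`, test = smooth compactly supported.
For a test form `α = (α_j)` put `τ_α = -∑_j (∂_jα_j - ψ_jα_j)`, so for every test function `w`
`(*) ∫ ∑ α_j ∂_jw e^{-ψ} = ∫ τ_α w e^{-ψ}` (integration by parts, `e^{-ψ}τ_α = -∑∂_j(e^{-ψ}α_j)`).

1. In the Hilbert space `H₁ = L²(μ; E)` (or `L²(μ; EuclideanSpace ℂ ι)`), let `𝒱` be the span of the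
   fields `V_{w,j,k} = e^{ψ}(conj(∂̄_jw) e_k - conj(∂̄_kw) e_j)` (`w` test), and `N = 𝒱ᗮ`.  Then
   `γ ∈ N` iff `∫ (∂̄_jw γ_k - ∂̄_kw γ_j) dω = 0` for all `w,j,k` (weakly closed).
   For every test function `w` the form `∂̄w = ∑ (∂̄_jw) e_j` is in `N` (integration by parts and
   `dzb_dzb_comm`); in particular `β = ∂̄g ∈ N`.
2. For a test form `α` let `γ` be the orthogonal projection of `α` to `N`, `α - γ ⊥ N`.  For a test
   function `w` apply `α - γ ⊥ ∂̄(conj w)`: `∫∑γ_j∂_jw e^{-ψ} = ∫∑α_j∂_jw e^{-ψ} = ∫τ_αw e^{-ψ}`.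
   So `weak_estimate` applies to `γ, τ_α`: `(c/4)∫_F|γ|²e^{-ψ} ≤ ∫|τ_α|²e^{-ψ}`.
3. `∫ τ_α conj(g) e^{-ψ} = ∫∑α_j conj(∂̄_jg)e^{-ψ} = ⟪β,α⟫ = ⟪β,γ⟫ = ∫_F ∑ γ_j conj(β_j) e^{-ψ}`
   (`(*)` with `w = conj g`; `β = 0` off `F`), so by Cauchy–Schwarz
   `|⟪g,τ_α⟫|² ≤ (∫|β|²e^{-ψ}) (4/c) ‖τ_α‖² = A²‖τ_α‖²`.
4. In `H₀ = L²(μ; ℂ)` let `ℛ` be the closure of the subspace `{τ_α}` (linear in `α`), and `u₀` the
   orthogonal projection of `g` to `ℛ`.  By 3. and density `|⟪g,u⟫| ≤ A‖u‖` on `ℛ`, so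
   `‖u₀‖² = ⟪g,u₀⟫ ≤ A‖u₀‖`, `‖u₀‖ ≤ A`.  `h₀ = g - u₀ ⊥ τ_α` for all `α`; with
   `α = e^{ψ} w̃ e_j`, `τ_αe^{-ψ} = -∂_jw̃`: `∫ h₀ conj(∂_jw̃) = 0`, i.e. `∫ h₀ ∂̄_jw = 0` for all
   test `w` (`w = conj w̃`).  By `weyl`, `h₀ = h` a.e. with `h` entire.
-/

namespace Pool.Agent.Edge

open MeasureTheory Filter Topology Complex

open scoped ComplexConjugate ContDiff

/-! ### Elements of `L²(om)` -/

section L2

variable {E : Type*} [NormedAddCommGroup E] [InnerProductSpace ℂ E] [FiniteDimensional ℂ E]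
  [MeasurableSpace E] [BorelSpace E]

/-- the class of `f` in `L²(om)` (zero if `f` is not in `L²`) -/
private noncomputable def TT (f : E → ℂ) : Lp ℂ 2 (om E) := by
  classical exact if h : MemLp f 2 (om E) then h.toLp f else 0

private theorem TT_eq {f : E → ℂ} (h : MemLp f 2 (om E)) : TT f = h.toLp f := by
  unfold TT
  rw [dif_pos h]

private theorem TT_coe {f : E → ℂ} (h : MemLp f 2 (om E)) : TT f =ᵐ[om E] f := by
  rw [TT_eq h]
  exact h.coeFn_toLp

private theorem inner_TT {f : E → ℂ} (h : MemLp f 2 (om E)) (x : Lp ℂ 2 (om E)) :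
    inner ℂ (TT f) x = ∫ z, conj (f z) * x z ∂(om E) := by
  rw [L2.inner_def]
  refine integral_congr_ae ?_
  filter_upwards [TT_coe h] with z hz
  rw [hz, RCLike.inner_apply, mul_comm]

private theorem inner_TT_TT {f g : E → ℂ} (hf : MemLp f 2 (om E)) (hg : MemLp g 2 (om E)) :
    inner ℂ (TT f) (TT g) = ∫ z, conj (f z) * g z ∂(om E) := by
  rw [inner_TT hf]
  refine integral_congr_ae ?_
  filter_upwards [TT_coe hg] with z hz
  rw [hz]

private theorem norm_Lp_sq (x : Lp ℂ 2 (om E)) : ‖x‖ ^ 2 = ∫ z, ‖x z‖ ^ 2 ∂(om E) := by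
  have h1 : ((‖x‖ ^ 2 : ℝ) : ℂ) = inner ℂ x x := by
    rw [inner_self_eq_norm_sq_to_K]
    push_cast
    rfl
  rw [L2.inner_def] at h1
  have h2 : ∫ z, inner ℂ (x z) (x z) ∂(om E) = ((∫ z, ‖x z‖ ^ 2 ∂(om E) : ℝ) : ℂ) := by
    rw [← integral_complex_ofReal]
    refine integral_congr_ae (Eventually.of_forall fun z => ?_)
    simp only
    rw [inner_self_eq_norm_sq_to_K]
    push_cast
    rfl
  rw [h2] at h1
  exact_mod_cast h1

private theorem norm_TT_sq {f : E → ℂ} (hf : MemLp f 2 (om E)) :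
    ‖TT f‖ ^ 2 = ∫ z, ‖f z‖ ^ 2 ∂(om E) := by
  rw [norm_Lp_sq]
  refine integral_congr_ae ?_
  filter_upwards [TT_coe hf] with z hz
  rw [hz]

private theorem TT_add {f g : E → ℂ} (hf : MemLp f 2 (om E)) (hg : MemLp g 2 (om E)) :
    TT (fun z => f z + g z) = TT f + TT g := by
  have h : MemLp (fun z => f z + g z) 2 (om E) := hf.add hg
  rw [TT_eq h, TT_eq hf, TT_eq hg]
  exact MemLp.toLp_add hf hg

private theorem TT_smul {f : E → ℂ} (hf : MemLp f 2 (om E)) (c : ℂ) :
    TT (fun z => c * f z) = c • TT f := by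
  have h : MemLp (fun z => c * f z) 2 (om E) := hf.const_mul c
  rw [TT_eq h, TT_eq hf]
  exact MemLp.toLp_const_smul c hf

private theorem TT_zero : TT (fun _ : E => (0 : ℂ)) = 0 := by
  have h : MemLp (fun _ : E => (0 : ℂ)) 2 (om E) := MemLp.zero
  have := TT_smul h 0
  simp only [mul_zero, zero_smul] at this
  exact this

end L2

/-! ### Test functions -/

section Test

variable {E : Type*} [NormedAddCommGroup E] [InnerProductSpace ℂ E]

private def IsT (f : E → ℂ) : Prop := ContDiff ℝ ∞ f ∧ HasCompactSupport f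

private theorem IsT.smooth_mul {f a : E → ℂ} (hf : IsT f) (ha : ContDiff ℝ ∞ a) :
    IsT (fun z => a z * f z) :=
  ⟨ha.mul hf.1, hf.2.mul_left⟩

private theorem IsT.mul_smooth {f a : E → ℂ} (hf : IsT f) (ha : ContDiff ℝ ∞ a) :
    IsT (fun z => f z * a z) :=
  ⟨hf.1.mul ha, hf.2.mul_right⟩

private theorem IsT.add {f g : E → ℂ} (hf : IsT f) (hg : IsT g) : IsT (fun z => f z + g z) :=
  ⟨hf.1.add hg.1, hf.2.add hg.2⟩

private theorem IsT.neg {f : E → ℂ} (hf : IsT f) : IsT (fun z => - f z) :=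
  ⟨hf.1.neg, hf.2.neg⟩

private theorem IsT.sub {f g : E → ℂ} (hf : IsT f) (hg : IsT g) : IsT (fun z => f z - g z) := by
  simpa only [sub_eq_add_neg] using hf.add hg.neg

private theorem IsT.zero : IsT (fun _ : E => (0 : ℂ)) :=
  ⟨contDiff_const, HasCompactSupport.zero⟩

private theorem IsT.sum {ι : Type*} (s : Finset ι) {f : ι → E → ℂ} (hf : ∀ i, IsT (f i)) :
    IsT (fun z => ∑ i ∈ s, f i z) := by
  classical
  induction s using Finset.induction_on with
  | empty => simpa using IsT.zero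
  | insert a s ha ih =>
    have := (hf a).add ih
    simpa only [Finset.sum_insert ha] using this

private theorem IsT.conj {f : E → ℂ} (hf : IsT f) : IsT (fun z => conj (f z)) := by
  refine ⟨Complex.conjCLE.contDiff.comp hf.1, ?_⟩
  exact hf.2.comp_left (g := fun w : ℂ => (starRingEnd ℂ) w) (map_zero _)

private theorem IsT.dz {f : E → ℂ} (hf : IsT f) (v : E) : IsT (dz v f) :=
  ⟨contDiff_dz hf.1 v, hasCompactSupport_dz hf.2 v⟩

private theorem IsT.dzb {f : E → ℂ} (hf : IsT f) (v : E) : IsT (dzb v f) :=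
  ⟨contDiff_dzb hf.1 v, hasCompactSupport_dzb hf.2 v⟩

private theorem IsT.diff {f : E → ℂ} (hf : IsT f) (z : E) : DifferentiableAt ℝ f z :=
  (hf.1.differentiable (by simp)).differentiableAt

private theorem hE_ofReal {f : E → ℝ} (hf : ContDiff ℝ ∞ f) :
    ContDiff ℝ ∞ (fun z => (f z : ℂ)) :=
  Complex.ofRealCLM.contDiff.comp hf

private theorem hE_exp {f : E → ℝ} (hf : ContDiff ℝ ∞ f) :
    ContDiff ℝ ∞ (fun z => (Real.exp (f z) : ℂ)) :=
  hE_ofReal (Real.contDiff_exp.comp hf)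

private theorem hE_fderiv_ofReal {f : E → ℝ} {z : E} (hf : DifferentiableAt ℝ f z) (v : E) :
    fderiv ℝ (fun w => (f w : ℂ)) z v = (fderiv ℝ f z v : ℂ) := by
  have h := (Complex.ofRealCLM.hasFDerivAt (x := f z)).comp z hf.hasFDerivAt
  have h2 : HasFDerivAt (fun w => (f w : ℂ)) (Complex.ofRealCLM.comp (fderiv ℝ f z)) z := h
  rw [h2.fderiv]
  rfl

private theorem dz_rexp {f : E → ℝ} (hf : ContDiff ℝ ∞ f) (v z : E) :
    dz v (fun w => (Real.exp (f w) : ℂ)) z =
      dz v (fun w => (f w : ℂ)) z * (Real.exp (f z) : ℂ) := by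
  have hd : DifferentiableAt ℝ f z := (hf.differentiable (by simp)).differentiableAt
  unfold dz
  rw [hE_fderiv_ofReal hd.exp, hE_fderiv_ofReal hd.exp, hE_fderiv_ofReal hd, hE_fderiv_ofReal hd,
    fderiv_exp hd]
  simp only [FunLike.coe_smul, Pi.smul_apply, smul_eq_mul]
  push_cast
  ring

private theorem dz_neg' (f : E → ℝ) (v z : E) :
    dz v (fun w => ((-f w : ℝ) : ℂ)) z = - dz v (fun w => (f w : ℂ)) z := by
  have h : (fun w => ((-f w : ℝ) : ℂ)) = fun w => -((f w : ℂ)) := by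
    funext w
    push_cast
    rfl
  unfold dz
  rw [h, fderiv_fun_neg]
  simp only [neg_apply]
  ring

private theorem dz_const_mul {f : E → ℂ} (c : ℂ) (v z : E) (hf : DifferentiableAt ℝ f z) :
    dz v (fun w => c * f w) z = c * dz v f z := by
  rw [dz_mul (differentiableAt_const c) hf]
  unfold dz
  simp

end Test

section Main

set_option linter.unusedSectionVars false

variable {E : Type*} [NormedAddCommGroup E] [InnerProductSpace ℂ E] [FiniteDimensional ℂ E]
  [MeasurableSpace E] [BorelSpace E]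
variable {ι : Type*} [Fintype ι]

private theorem IsT.memLp {f : E → ℂ} (hf : IsT f) : MemLp f 2 (om E) :=
  hf.1.continuous.memLp_of_hasCompactSupport hf.2

private theorem IsT.integrable {f : E → ℂ} (hf : IsT f) : Integrable f (om E) :=
  hf.1.continuous.integrable_of_hasCompactSupport hf.2

/-- `τ_α` -/
private noncomputable def tau (e : ι → E) (ψ : E → ℝ) (α : ι → E → ℂ) (z : E) : ℂ :=
  - ∑ j, (dz (e j) (α j) z - dz (e j) (fun w => (ψ w : ℂ)) z * α j z)

private theorem tau_isT (e : ι → E) {ψ : E → ℝ} (hψ : ContDiff ℝ ∞ ψ) {α : ι → E → ℂ}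
    (hα : ∀ j, IsT (α j)) : IsT (tau e ψ α) := by
  unfold tau
  refine IsT.neg ?_
  refine IsT.sum _ (fun j => ?_)
  exact ((hα j).dz _).sub ((hα j).smooth_mul (contDiff_dz (hE_ofReal hψ) _))

/-- `e^{-ψ} τ_α = -∑ ∂_j (e^{-ψ} α_j)` -/
private theorem tau_mul (e : ι → E) {ψ : E → ℝ} (hψ : ContDiff ℝ ∞ ψ) {α : ι → E → ℂ}
    (hα : ∀ j, IsT (α j)) (z : E) :
    tau e ψ α z * (Real.exp (-ψ z) : ℂ) =
      - ∑ j, dz (e j) (fun w => α j w * (Real.exp (-ψ w) : ℂ)) z := by
  unfold tau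
  rw [neg_mul, Finset.sum_mul]
  congr 1
  refine Finset.sum_congr rfl (fun j _ => ?_)
  have hneg : ContDiff ℝ ∞ (fun w => -ψ w) := hψ.neg
  have hd : DifferentiableAt ℝ (fun w => (Real.exp (-ψ w) : ℂ)) z :=
    ((hE_exp hneg).differentiable (by simp)).differentiableAt
  rw [dz_mul ((hα j).diff z) hd, dz_rexp hneg, dz_neg']
  ring

/-- integration by parts -/
private theorem tau_ibp (e : ι → E) {ψ : E → ℝ} (hψ : ContDiff ℝ ∞ ψ) {α : ι → E → ℂ}
    (hα : ∀ j, IsT (α j)) {w : E → ℂ} (hw : IsT w) :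
    ∫ z, (∑ j, α j z * dz (e j) w z) * (Real.exp (-ψ z) : ℂ) ∂(om E) =
      ∫ z, tau e ψ α z * w z * (Real.exp (-ψ z) : ℂ) ∂(om E) := by
  have hneg : ContDiff ℝ ∞ (fun w => -ψ w) := hψ.neg
  have hb : ∀ j, IsT (fun z => α j z * (Real.exp (-ψ z) : ℂ)) :=
    fun j => (hα j).mul_smooth (hE_exp hneg)
  have h1 : ∀ j, ∫ z, (α j z * (Real.exp (-ψ z) : ℂ)) * dz (e j) w z ∂(om E) =
      - ∫ z, dz (e j) (fun z => α j z * (Real.exp (-ψ z) : ℂ)) z * w z ∂(om E) := by
    intro j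
    rw [integral_dz_mul ((hb j).1.of_le (by simp)) (hw.1.of_le (by simp)) (Or.inl (hb j).2),
      neg_neg]
  calc ∫ z, (∑ j, α j z * dz (e j) w z) * (Real.exp (-ψ z) : ℂ) ∂(om E)
      = ∫ z, ∑ j, (α j z * (Real.exp (-ψ z) : ℂ)) * dz (e j) w z ∂(om E) := by
        refine integral_congr_ae (Eventually.of_forall fun z => ?_)
        simp only
        rw [Finset.sum_mul]
        refine Finset.sum_congr rfl (fun j _ => ?_)
        ring
    _ = ∑ j, ∫ z, (α j z * (Real.exp (-ψ z) : ℂ)) * dz (e j) w z ∂(om E) := by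
        rw [integral_finsetSum]
        intro j _
        exact ((hb j).mul_smooth (contDiff_dz hw.1 (e j))).integrable
    _ = ∑ j, - ∫ z, dz (e j) (fun z => α j z * (Real.exp (-ψ z) : ℂ)) z * w z ∂(om E) :=
        Finset.sum_congr rfl (fun j _ => h1 j)
    _ = ∫ z, ∑ j, -(dz (e j) (fun z => α j z * (Real.exp (-ψ z) : ℂ)) z * w z) ∂(om E) := by
        rw [integral_finsetSum]
        · refine Finset.sum_congr rfl (fun j _ => ?_)
          rw [integral_neg]
        · intro j _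
          exact (((hb j).dz (e j)).mul_smooth hw.1).integrable.neg
    _ = ∫ z, tau e ψ α z * w z * (Real.exp (-ψ z) : ℂ) ∂(om E) := by
        refine integral_congr_ae (Eventually.of_forall fun z => ?_)
        simp only
        have := tau_mul e hψ hα z
        calc ∑ j, -(dz (e j) (fun z => α j z * (Real.exp (-ψ z) : ℂ)) z * w z)
            = (- ∑ j, dz (e j) (fun w => α j w * (Real.exp (-ψ w) : ℂ)) z) * w z := by
              rw [Finset.sum_neg_distrib, neg_mul, Finset.sum_mul]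
          _ = tau e ψ α z * (Real.exp (-ψ z) : ℂ) * w z := by rw [← this]
          _ = _ := by ring

/-! ### The weights -/

private noncomputable def ep (ψ : E → ℝ) (z : E) : ℂ := (Real.exp (ψ z / 2) : ℂ)

private noncomputable def em (ψ : E → ℝ) (z : E) : ℂ := (Real.exp (-(ψ z / 2)) : ℂ)

private theorem ep_smooth {ψ : E → ℝ} (hψ : ContDiff ℝ ∞ ψ) : ContDiff ℝ ∞ (ep ψ) :=
  hE_exp (hψ.div_const 2)

private theorem em_smooth {ψ : E → ℝ} (hψ : ContDiff ℝ ∞ ψ) : ContDiff ℝ ∞ (em ψ) :=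
  hE_exp (hψ.div_const 2).neg

private theorem ep_mul_em (ψ : E → ℝ) (z : E) : ep ψ z * em ψ z = 1 := by
  unfold ep em
  rw [← Complex.ofReal_mul, ← Real.exp_add]
  simp

private theorem em_mul_em (ψ : E → ℝ) (z : E) : em ψ z * em ψ z = (Real.exp (-ψ z) : ℂ) := by
  unfold em
  rw [← Complex.ofReal_mul, ← Real.exp_add]
  congr 2
  ring

private theorem conj_em (ψ : E → ℝ) (z : E) : conj (em ψ z) = em ψ z := Complex.conj_ofReal _

private theorem conj_ep (ψ : E → ℝ) (z : E) : conj (ep ψ z) = ep ψ z := Complex.conj_ofReal _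

private theorem norm_mul_em_sq (ψ : E → ℝ) (x : ℂ) (z : E) :
    ‖x * em ψ z‖ ^ 2 = ‖x‖ ^ 2 * Real.exp (-ψ z) := by
  unfold em
  rw [norm_mul, mul_pow, Complex.norm_real, Real.norm_eq_abs, sq_abs, ← Real.exp_nat_mul]
  congr 2
  push_cast
  ring

private theorem norm_ep_mul_sq (ψ : E → ℝ) (x : ℂ) (z : E) :
    ‖ep ψ z * x‖ ^ 2 * Real.exp (-ψ z) = ‖x‖ ^ 2 := by
  rw [← norm_mul_em_sq, mul_right_comm, ep_mul_em, one_mul]

/-! ### The space of forms -/

private noncomputable abbrev HH (E : Type*) [NormedAddCommGroup E] [InnerProductSpace ℂ E]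
    [FiniteDimensional ℂ E] [MeasurableSpace E] [BorelSpace E] (ι : Type*) [Fintype ι] : Type _ :=
  PiLp 2 (fun _ : ι => Lp ℂ 2 (om E))

private noncomputable def bb (e : ι → E) (ψ : E → ℝ) (w : E → ℂ) : HH E ι :=
  WithLp.toLp 2 (fun j => TT (fun z => dzb (e j) w z * em ψ z))

open Classical in
private noncomputable def VF (e : ι → E) (ψ : E → ℝ) (w : E → ℂ) (j k : ι) : HH E ι :=
  WithLp.toLp 2 (fun l => (if l = k then TT (fun z => conj (dzb (e j) w z) * ep ψ z) else 0) -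
    (if l = j then TT (fun z => conj (dzb (e k) w z) * ep ψ z) else 0))

private theorem inner_VF (e : ι → E) {ψ : E → ℝ} (hψ : ContDiff ℝ ∞ ψ) {w : E → ℂ} (hw : IsT w)
    (j k : ι) (x : HH E ι) :
    inner ℂ (VF e ψ w j k) x =
      (∫ z, (ep ψ z * (x k : E → ℂ) z) * dzb (e j) w z ∂(om E)) -
        ∫ z, (ep ψ z * (x j : E → ℂ) z) * dzb (e k) w z ∂(om E) := by
  classical
  have hm : ∀ j, MemLp (fun z => conj (dzb (e j) w z) * ep ψ z) 2 (om E) := fun j =>
    (((hw.dzb (e j)).conj).mul_smooth (ep_smooth hψ)).memLp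
  have h1 : ∀ j k, inner ℂ (TT (fun z => conj (dzb (e j) w z) * ep ψ z)) (x k) =
      ∫ z, (ep ψ z * (x k : E → ℂ) z) * dzb (e j) w z ∂(om E) := by
    intro j k
    rw [inner_TT (hm j)]
    refine integral_congr_ae (Eventually.of_forall fun z => ?_)
    simp only [map_mul, Complex.conj_conj, conj_ep]
    ring
  have h2 : ∀ (a : Lp ℂ 2 (om E)) (k : ι),
      ∑ l, inner ℂ (if l = k then a else 0) (x l) = inner ℂ a (x k) := by
    intro a k
    rw [Finset.sum_eq_single k]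
    · simp
    · intro l _ hl
      simp [hl]
    · simp
  rw [PiLp.inner_apply]
  simp only [VF, inner_sub_left]
  rw [Finset.sum_sub_distrib, h2, h2, h1, h1]

private noncomputable def NN (e : ι → E) (ψ : E → ℝ) : Submodule ℂ (HH E ι) :=
  (Submodule.span ℂ {V | ∃ (w : E → ℂ) (j k : ι), IsT w ∧ V = VF e ψ w j k})ᗮ

private theorem mem_NN (e : ι → E) (ψ : E → ℝ) (x : HH E ι) :
    x ∈ NN e ψ ↔ ∀ (w : E → ℂ) (j k : ι), IsT w → inner ℂ (VF e ψ w j k) x = 0 := by
  unfold NN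
  rw [Submodule.mem_orthogonal]
  constructor
  · intro h w j k hw
    exact h _ (Submodule.subset_span ⟨w, j, k, hw, rfl⟩)
  · intro h u hu
    induction hu using Submodule.span_induction with
    | mem u hu =>
      obtain ⟨w, j, k, hw, rfl⟩ := hu
      exact h w j k hw
    | zero => exact inner_zero_left _
    | add a b _ _ ha hb => rw [inner_add_left, ha, hb, add_zero]
    | smul c a _ ha => rw [inner_smul_left, ha, mul_zero]

private theorem bb_comp (e : ι → E) {ψ : E → ℝ} (hψ : ContDiff ℝ ∞ ψ) {w : E → ℂ} (hw : IsT w)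
    (j : ι) : MemLp (fun z => dzb (e j) w z * em ψ z) 2 (om E) :=
  ((hw.dzb (e j)).mul_smooth (em_smooth hψ)).memLp

private theorem bb_mem (e : ι → E) {ψ : E → ℝ} (hψ : ContDiff ℝ ∞ ψ) {w : E → ℂ} (hw : IsT w) :
    bb e ψ w ∈ NN e ψ := by
  rw [mem_NN]
  intro w' j k hw'
  rw [inner_VF e hψ hw']
  have h1 : ∀ j k, ∫ z, (ep ψ z * (bb e ψ w k : E → ℂ) z) * dzb (e j) w' z ∂(om E) =
      - ∫ z, w' z * dzb (e j) (dzb (e k) w) z ∂(om E) := by
    intro j k
    rw [← integral_dzb_mul (hw'.1.of_le (by simp)) ((hw.dzb (e k)).1.of_le (by simp))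
      (Or.inl hw'.2)]
    refine integral_congr_ae ?_
    filter_upwards [TT_coe (bb_comp e hψ hw k)] with z hz
    have : (bb e ψ w k : E → ℂ) z = dzb (e k) w z * em ψ z := hz
    rw [this]
    have h2 := ep_mul_em ψ z
    calc ep ψ z * (dzb (e k) w z * em ψ z) * dzb (e j) w' z
        = (ep ψ z * em ψ z) * (dzb (e k) w z * dzb (e j) w' z) := by ring
      _ = dzb (e j) w' z * dzb (e k) w z := by rw [h2]; ring
  rw [h1, h1, sub_eq_zero]
  congr 1
  refine integral_congr_ae (Eventually.of_forall fun z => ?_)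
  simp only
  rw [dzb_dzb_comm (hw.1.of_le ENat.LEInfty.out)]

/-- inner product with `bb w` -/
private theorem inner_bb (e : ι → E) {ψ : E → ℝ} (hψ : ContDiff ℝ ∞ ψ) {w : E → ℂ} (hw : IsT w)
    (x : HH E ι) :
    inner ℂ (bb e ψ w) x =
      ∑ j, ∫ z, conj (dzb (e j) w z) * em ψ z * (x j : E → ℂ) z ∂(om E) := by
  rw [PiLp.inner_apply]
  refine Finset.sum_congr rfl (fun j _ => ?_)
  have : (bb e ψ w).ofLp j = TT (fun z => dzb (e j) w z * em ψ z) := rfl
  rw [this, inner_TT (bb_comp e hψ hw j)]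
  refine integral_congr_ae (Eventually.of_forall fun z => ?_)
  simp only [map_mul, conj_em]

private theorem inner_bb_form (e : ι → E) {ψ : E → ℝ} (hψ : ContDiff ℝ ∞ ψ) {w : E → ℂ}
    (hw : IsT w) {α : ι → E → ℂ} (hα : ∀ j, IsT (α j)) :
    inner ℂ (bb e ψ w) (WithLp.toLp 2 (fun j => TT (fun z => α j z * em ψ z)) : HH E ι) =
      ∫ z, (∑ j, α j z * conj (dzb (e j) w z)) * (Real.exp (-ψ z) : ℂ) ∂(om E) := by
  rw [inner_bb e hψ hw]
  have hm : ∀ j, MemLp (fun z => α j z * em ψ z) 2 (om E) := fun j =>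
    ((hα j).mul_smooth (em_smooth hψ)).memLp
  have hneg : ContDiff ℝ ∞ (fun w => -ψ w) := hψ.neg
  have h1 : ∀ j, ∫ z, conj (dzb (e j) w z) * em ψ z *
      ((WithLp.toLp 2 (fun j => TT (fun z => α j z * em ψ z)) : HH E ι) j : E → ℂ) z ∂(om E) =
      ∫ z, α j z * conj (dzb (e j) w z) * (Real.exp (-ψ z) : ℂ) ∂(om E) := by
    intro j
    refine integral_congr_ae ?_
    filter_upwards [TT_coe (hm j)] with z hz
    have h2 : ((WithLp.toLp 2 (fun j => TT (fun z => α j z * em ψ z)) : HH E ι) j : E → ℂ) z =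
        α j z * em ψ z := hz
    rw [h2, ← em_mul_em]
    ring
  rw [Finset.sum_congr rfl (fun j _ => h1 j), ← integral_finsetSum]
  · refine integral_congr_ae (Eventually.of_forall fun z => ?_)
    simp only
    rw [Finset.sum_mul]
  · intro j _
    have : IsT (fun z => α j z * conj (dzb (e j) w z) * (Real.exp (-ψ z) : ℂ)) :=
      ((hα j).mul_smooth ((hw.dzb (e j)).conj).1).mul_smooth (hE_exp hneg)
    exact this.integrable

/-- the a priori estimate -/
private theorem a_priori (e : OrthonormalBasis ι ℂ E) {ψ : E → ℝ} (hψ : ContDiff ℝ ∞ ψ)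
    (hL : ∀ z v, 0 ≤ Levi ψ z v) {g : E → ℂ} (hg : IsT g)
    {F : Set E} (hF : MeasurableSet F) (hFb : Bornology.IsBounded F)
    (hgF : ∀ z, z ∉ F → ∀ v, dzb v g z = 0) {c : ℝ} (hc : 0 < c)
    (hcF : ∀ z ∈ F, ∀ v, c * ‖v‖ ^ 2 ≤ Levi ψ z v) {α : ι → E → ℂ} (hα : ∀ j, IsT (α j)) :
    ‖inner ℂ (TT (fun z => g z * em ψ z)) (TT (fun z => tau e ψ α z * em ψ z))‖ ^ 2 ≤
      (4 / c * ∫ z, (∑ j, ‖dzb (e j) g z‖ ^ 2) * Real.exp (-ψ z) ∂(om E)) *
        ‖TT (fun z => tau e ψ α z * em ψ z)‖ ^ 2 := by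
  classical
  set x₀ : HH E ι := WithLp.toLp 2 (fun j => TT (fun z => α j z * em ψ z)) with hx₀
  have hcs : CompleteSpace (NN (fun j => e j) ψ) := by
    unfold NN
    infer_instance
  obtain ⟨n, hn, m, hm, hnm⟩ := Submodule.exists_add_mem_mem_orthogonal (K := NN (fun j => e j) ψ) x₀
  have hbn : ∀ w : E → ℂ, IsT w → inner ℂ (bb (fun j => e j) ψ w) n =
      inner ℂ (bb (fun j => e j) ψ w) x₀ := by
    intro w hw
    rw [hnm, inner_add_right]
    have := (Submodule.mem_orthogonal _ m).mp hm _ (bb_mem (fun j => e j) hψ hw)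
    rw [this, add_zero]
  set γ : ι → E → ℂ := fun j z => ep ψ z * (n j : E → ℂ) z with hγ
  have hnorm : ∀ j z, ‖γ j z‖ ^ 2 * Real.exp (-ψ z) = ‖(n j : E → ℂ) z‖ ^ 2 :=
    fun j z => norm_ep_mul_sq ψ _ z
  have hint : ∀ j, Integrable (fun z => ‖(n j : E → ℂ) z‖ ^ 2) (om E) := fun j =>
    (memLp_two_iff_integrable_sq_norm (Lp.aestronglyMeasurable _)).mp (Lp.memLp (n j))
  have htau := tau_isT (fun j => e j) hψ hα
  have htm : MemLp (fun z => tau (fun j => e j) ψ α z * em ψ z) 2 (om E) :=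
    (htau.mul_smooth (em_smooth hψ)).memLp
  have htnorm : ‖TT (fun z => tau (fun j => e j) ψ α z * em ψ z)‖ ^ 2 =
      ∫ z, ‖tau (fun j => e j) ψ α z‖ ^ 2 * Real.exp (-ψ z) ∂(om E) := by
    rw [norm_TT_sq htm]
    refine integral_congr_ae (Eventually.of_forall fun z => ?_)
    simp only
    rw [norm_mul_em_sq]
  have hwe := weak_estimate e hψ hL (γ := γ) (τ := tau (fun j => e j) ψ α)
    (fun j => (ep_smooth hψ).continuous.aestronglyMeasurable.mul (Lp.aestronglyMeasurable _))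
    htau.1.continuous.aestronglyMeasurable
    (fun j => by simpa only [hnorm] using hint j)
    (by
      have := (memLp_two_iff_integrable_sq_norm htm.1).mp htm
      simpa only [norm_mul_em_sq] using this)
    (fun w hw hwc j k => by
      have := (mem_NN (fun j => e j) ψ n).mp hn w j k ⟨hw, hwc⟩
      rw [inner_VF (fun j => e j) hψ ⟨hw, hwc⟩, sub_eq_zero] at this
      exact this)
    (fun w hw hwc => by
      have hw' : IsT w := ⟨hw, hwc⟩
      have h1 := hbn _ hw'.conj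
      rw [hx₀, inner_bb_form (fun j => e j) hψ hw'.conj hα, inner_bb (fun j => e j) hψ hw'.conj] at h1
      have h2 := tau_ibp (fun j => e j) hψ hα hw'
      have h3 : ∀ z, (∑ j, α j z * conj (dzb (e j) (fun z => conj (w z)) z)) *
          (Real.exp (-ψ z) : ℂ) = (∑ j, α j z * dz (e j) w z) * (Real.exp (-ψ z) : ℂ) := by
        intro z
        congr 1
        refine Finset.sum_congr rfl (fun j _ => ?_)
        rw [dzb_conj, Complex.conj_conj]
      rw [← h2, ← integral_congr_ae (Eventually.of_forall h3), ← h1, ← integral_finsetSum]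
      · refine integral_congr_ae (Eventually.of_forall fun z => ?_)
        simp only
        rw [Finset.sum_mul]
        refine Finset.sum_congr rfl (fun j _ => ?_)
        rw [dzb_conj, Complex.conj_conj, ← em_mul_em]
        simp only [hγ]
        have h4 := ep_mul_em ψ z
        calc ep ψ z * (n j : E → ℂ) z * dz (e j) w z * (em ψ z * em ψ z)
            = (ep ψ z * em ψ z) * (dz (e j) w z * em ψ z * (n j : E → ℂ) z) := by ring
          _ = dz (e j) w z * em ψ z * (n j : E → ℂ) z := by rw [h4, one_mul]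
      · intro j _
        have h5 : MemLp (fun z => dzb (e j) (fun z => conj (w z)) z * em ψ z) 2 (om E) :=
          ((hw'.conj.dzb (e j)).mul_smooth (em_smooth hψ)).memLp
        have h6 := (h5.star).integrable_mul (Lp.memLp (n j))
        refine h6.congr (Eventually.of_forall fun z => ?_)
        simp only [Pi.mul_apply, Pi.star_apply, RCLike.star_def, map_mul, conj_em])
    hF hFb hc.le hcF
  rw [← htnorm] at hwe
  have hB : ‖bb (fun j => e j) ψ g‖ ^ 2 =
      ∫ z, (∑ j, ‖dzb (e j) g z‖ ^ 2) * Real.exp (-ψ z) ∂(om E) := by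
    rw [PiLp.norm_sq_eq_of_L2]
    have h1 : ∀ j, ‖(bb (fun j => e j) ψ g) j‖ ^ 2 =
        ∫ z, ‖dzb (e j) g z‖ ^ 2 * Real.exp (-ψ z) ∂(om E) := by
      intro j
      have : (bb (fun j => e j) ψ g) j = TT (fun z => dzb (e j) g z * em ψ z) := rfl
      rw [this, norm_TT_sq (bb_comp (fun j => e j) hψ hg j)]
      refine integral_congr_ae (Eventually.of_forall fun z => ?_)
      simp only
      rw [norm_mul_em_sq]
    rw [Finset.sum_congr rfl (fun j _ => h1 j), ← integral_finsetSum]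
    · refine integral_congr_ae (Eventually.of_forall fun z => ?_)
      simp only
      rw [Finset.sum_mul]
    · intro j _
      have h2 := bb_comp (fun j => e j) hψ hg j
      have := (memLp_two_iff_integrable_sq_norm h2.1).mp h2
      simpa only [norm_mul_em_sq] using this
  have hmF : ∀ j, MemLp (F.indicator (n j : E → ℂ)) 2 (om E) := fun j =>
    (Lp.memLp (n j)).indicator hF
  set y : HH E ι := WithLp.toLp 2 (fun j => TT (F.indicator (n j : E → ℂ))) with hy
  have hYn : ‖y‖ ^ 2 = ∫ z in F, (∑ j, ‖γ j z‖ ^ 2) * Real.exp (-ψ z) ∂(om E) := by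
    rw [PiLp.norm_sq_eq_of_L2]
    have h1 : ∀ j, ‖y j‖ ^ 2 = ∫ z in F, ‖(n j : E → ℂ) z‖ ^ 2 ∂(om E) := by
      intro j
      have : y j = TT (F.indicator (n j : E → ℂ)) := rfl
      rw [this, norm_TT_sq (hmF j), ← integral_indicator hF]
      refine integral_congr_ae (Eventually.of_forall fun z => ?_)
      by_cases hz : z ∈ F
      · simp [hz]
      · simp [hz]
    rw [Finset.sum_congr rfl (fun j _ => h1 j), ← integral_finsetSum]
    · refine integral_congr_ae (Eventually.of_forall fun z => ?_)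
      simp only
      rw [Finset.sum_mul]
      exact Finset.sum_congr rfl (fun j _ => (hnorm j z).symm)
    · intro j _
      exact (hint j).integrableOn
  have hin : inner ℂ (TT (fun z => g z * em ψ z)) (TT (fun z => tau e ψ α z * em ψ z)) =
      inner ℂ (bb (fun j => e j) ψ g) y := by
    have e1 : inner ℂ (TT (fun z => g z * em ψ z)) (TT (fun z => tau e ψ α z * em ψ z)) =
        inner ℂ (bb (fun j => e j) ψ g) x₀ := by
      rw [inner_TT_TT (hg.mul_smooth (em_smooth hψ)).memLp htm, hx₀,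
        inner_bb_form (fun j => e j) hψ hg hα]
      have h2 := tau_ibp (fun j => e j) hψ hα hg.conj
      have h3 : ∀ z, conj (g z * em ψ z) * (tau (fun j => e j) ψ α z * em ψ z) =
          tau (fun j => e j) ψ α z * conj (g z) * (Real.exp (-ψ z) : ℂ) := by
        intro z
        rw [map_mul, conj_em, ← em_mul_em]
        ring
      rw [integral_congr_ae (Eventually.of_forall h3), ← h2]
      refine integral_congr_ae (Eventually.of_forall fun z => ?_)
      simp only
      congr 1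
      refine Finset.sum_congr rfl (fun j _ => ?_)
      rw [dz_conj]
    rw [e1, ← hbn g hg, inner_bb (fun j => e j) hψ hg, inner_bb (fun j => e j) hψ hg]
    refine Finset.sum_congr rfl (fun j _ => ?_)
    refine integral_congr_ae ?_
    filter_upwards [TT_coe (hmF j)] with z hz
    have h2 : (y j : E → ℂ) z = F.indicator (n j : E → ℂ) z := hz
    rw [h2]
    by_cases hzF : z ∈ F
    · rw [Set.indicator_of_mem hzF]
    · rw [hgF z hzF, map_zero, zero_mul, zero_mul, zero_mul]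
  rw [hin]
  have hcs2 := norm_inner_le_norm (𝕜 := ℂ) (bb (fun j => e j) ψ g) y
  have h7 : ‖inner ℂ (bb (fun j => e j) ψ g) y‖ ^ 2 ≤ ‖bb (fun j => e j) ψ g‖ ^ 2 * ‖y‖ ^ 2 := by
    rw [← mul_pow]
    exact pow_le_pow_left₀ (norm_nonneg _) hcs2 2
  refine h7.trans ?_
  rw [hB, hYn]
  set B : ℝ := ∫ z, (∑ j, ‖dzb (e j) g z‖ ^ 2) * Real.exp (-ψ z) ∂(om E) with hBdef
  have hB0 : 0 ≤ B := integral_nonneg fun z => by positivity
  set Y : ℝ := ∫ z in F, (∑ j, ‖γ j z‖ ^ 2) * Real.exp (-ψ z) ∂(om E) with hY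
  have h8 : Y ≤ 4 / c * ‖TT (fun z => tau (fun j => e j) ψ α z * em ψ z)‖ ^ 2 := by
    have : Y = 4 / c * (c / 4 * Y) := by
      field_simp
    rw [this]
    exact mul_le_mul_of_nonneg_left hwe (by positivity)
  calc B * Y ≤ B * (4 / c * ‖TT (fun z => tau (fun j => e j) ψ α z * em ψ z)‖ ^ 2) :=
        mul_le_mul_of_nonneg_left h8 hB0
    _ = _ := by ring

/-- the range of `α ↦ τ_α` -/
private noncomputable def RR (e : ι → E) (ψ : E → ℝ) (hψ : ContDiff ℝ ∞ ψ) :
    Submodule ℂ (Lp ℂ 2 (om E)) where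
  carrier := {x | ∃ α : ι → E → ℂ, (∀ j, IsT (α j)) ∧ x = TT (fun z => tau e ψ α z * em ψ z)}
  zero_mem' := by
    refine ⟨fun _ _ => 0, fun _ => IsT.zero, ?_⟩
    have h : (fun z => tau e ψ (fun _ _ => (0 : ℂ)) z * em ψ z) = fun _ => 0 := by
      funext z
      unfold tau dz
      simp
    rw [h, TT_zero]
  add_mem' := by
    rintro x y ⟨α, hα, rfl⟩ ⟨β, hβ, rfl⟩
    refine ⟨fun j z => α j z + β j z, fun j => (hα j).add (hβ j), ?_⟩
    rw [← TT_add ((tau_isT e hψ hα).mul_smooth (em_smooth hψ)).memLp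
      ((tau_isT e hψ hβ).mul_smooth (em_smooth hψ)).memLp]
    congr 1
    funext z
    rw [← add_mul]
    congr 1
    unfold tau
    rw [← neg_add, ← Finset.sum_add_distrib]
    congr 1
    refine Finset.sum_congr rfl (fun j _ => ?_)
    rw [dz_add ((hα j).diff z) ((hβ j).diff z)]
    ring
  smul_mem' := by
    rintro c x ⟨α, hα, rfl⟩
    refine ⟨fun j z => c * α j z, fun j => (hα j).smooth_mul contDiff_const, ?_⟩
    rw [← TT_smul ((tau_isT e hψ hα).mul_smooth (em_smooth hψ)).memLp]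
    congr 1
    funext z
    rw [← mul_assoc]
    congr 1
    unfold tau
    rw [mul_neg, Finset.mul_sum]
    congr 1
    refine Finset.sum_congr rfl (fun j _ => ?_)
    rw [dz_const_mul c _ _ ((hα j).diff z)]
    ring

theorem hormander (e : OrthonormalBasis ι ℂ E) {ψ : E → ℝ} (hψ : ContDiff ℝ ∞ ψ)
    (hL : ∀ z v, 0 ≤ Levi ψ z v) {g : E → ℂ} (hg : ContDiff ℝ ∞ g) (hgc : HasCompactSupport g)
    {F : Set E} (hF : MeasurableSet F) (hFb : Bornology.IsBounded F)
    (hgF : ∀ z, z ∉ F → ∀ v, dzb v g z = 0) {c : ℝ} (hc : 0 < c)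
    (hcF : ∀ z ∈ F, ∀ v, c * ‖v‖ ^ 2 ≤ Levi ψ z v) :
    ∃ h : E → ℂ, Differentiable ℂ h ∧
      Integrable (fun z => ‖h z‖ ^ 2 * Real.exp (-ψ z)) (om E) ∧
      Integrable (fun z => ‖g z - h z‖ ^ 2 * Real.exp (-ψ z)) (om E) ∧
      ∫ z, ‖g z - h z‖ ^ 2 * Real.exp (-ψ z) ∂(om E) ≤
        4 / c * ∫ z, (∑ j, ‖dzb (e j) g z‖ ^ 2) * Real.exp (-ψ z) ∂(om E) := by
  classical
  have hgT : IsT g := ⟨hg, hgc⟩
  set B : ℝ := ∫ z, (∑ j, ‖dzb (e j) g z‖ ^ 2) * Real.exp (-ψ z) ∂(om E) with hB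
  have hB0 : 0 ≤ B := integral_nonneg fun z => by positivity
  set G : Lp ℂ 2 (om E) := TT (fun z => g z * em ψ z) with hG
  have hgm : MemLp (fun z => g z * em ψ z) 2 (om E) := (hgT.mul_smooth (em_smooth hψ)).memLp
  set R := (RR (fun j => e j) ψ hψ).topologicalClosure with hR
  set A : ℝ := √(4 / c * B) with hA
  have hA0 : 0 ≤ A := Real.sqrt_nonneg _
  have hAsq : A ^ 2 = 4 / c * B := Real.sq_sqrt (by positivity)
  have hbd : ∀ x ∈ R, ‖inner ℂ G x‖ ≤ A * ‖x‖ := by
    have hcl : IsClosed {x : Lp ℂ 2 (om E) | ‖inner ℂ G x‖ ≤ A * ‖x‖} :=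
      isClosed_le (continuous_const.inner continuous_id).norm (continuous_const.mul continuous_norm)
    have hsub : ((RR (fun j => e j) ψ hψ : Submodule ℂ (Lp ℂ 2 (om E))) : Set (Lp ℂ 2 (om E))) ⊆
        {x : Lp ℂ 2 (om E) | ‖inner ℂ G x‖ ≤ A * ‖x‖} := by
      rintro x ⟨α, hα, rfl⟩
      have := a_priori e hψ hL hgT hF hFb hgF hc hcF hα
      rw [← hB, ← hAsq, ← mul_pow] at this
      exact (sq_le_sq₀ (norm_nonneg _) (by positivity)).mp this
    intro x hx
    exact closure_minimal hsub hcl hx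
  obtain ⟨u, hu, v, hv, huv⟩ := Submodule.exists_add_mem_mem_orthogonal (K := R) G
  have hunorm : ‖u‖ ≤ A := by
    have h1 := hbd u hu
    have h2 : inner ℂ G u = inner ℂ u u := by
      rw [huv, inner_add_left]
      have := (Submodule.mem_orthogonal' _ v).mp hv u hu
      rw [this, add_zero]
    rw [h2, inner_self_eq_norm_sq_to_K] at h1
    have h3 : ‖((‖u‖ : ℂ)) ^ 2‖ = ‖u‖ * ‖u‖ := by
      rw [norm_pow, Complex.norm_real, norm_norm, sq]
    have h4 : ‖u‖ * ‖u‖ ≤ A * ‖u‖ := by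
      rw [← h3]
      exact h1
    by_cases h0 : ‖u‖ = 0
    · rw [h0]
      exact hA0
    · exact le_of_mul_le_mul_right h4 (lt_of_le_of_ne (norm_nonneg _) (Ne.symm h0))
  set h₀ : E → ℂ := fun z => ep ψ z * (v : E → ℂ) z with hh₀
  have hloc : LocallyIntegrable h₀ (om E) :=
    ((Lp.memLp v).locallyIntegrable (by norm_num)).continuous_mul (ep_smooth hψ).continuous
  have hortho : ∀ w : E → ℂ, ContDiff ℝ ∞ w → HasCompactSupport w → ∀ j,
      ∫ z, h₀ z * dzb (e j) w z ∂(om E) = 0 := by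
    intro w hw hwc j
    have hwT : IsT w := ⟨hw, hwc⟩
    set b : E → ℂ := fun z => conj (w z) * (Real.exp (ψ z) : ℂ) with hb
    have hbT : IsT b := hwT.conj.mul_smooth (hE_exp hψ)
    set α : ι → E → ℂ := fun k => if k = j then b else fun _ => 0 with hα
    have hαT : ∀ k, IsT (α k) := by
      intro k
      simp only [hα]
      by_cases hk : k = j
      · rw [if_pos hk]
        exact hbT
      · rw [if_neg hk]
        exact IsT.zero
    have htau : ∀ z, tau (fun j => e j) ψ α z = - (conj (dzb (e j) w z) * (Real.exp (ψ z) : ℂ)) := by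
      intro z
      unfold tau
      congr 1
      rw [Finset.sum_eq_single j]
      · have h1 : α j = b := by
          simp only [hα, if_true]
        rw [h1, hb]
        have hd : DifferentiableAt ℝ (fun w => (Real.exp (ψ w) : ℂ)) z :=
          ((hE_exp hψ).differentiable (by simp)).differentiableAt
        rw [dz_mul (hwT.conj.diff z) hd, dz_rexp hψ, dz_conj]
        ring
      · intro k _ hk
        have h1 : α k = fun _ => 0 := by
          simp only [hα, if_neg hk]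
        rw [h1]
        unfold dz
        simp
      · simp
    have hmem : TT (fun z => tau (fun j => e j) ψ α z * em ψ z) ∈ R :=
      Submodule.le_topologicalClosure _ ⟨α, hαT, rfl⟩
    have h2 := (Submodule.mem_orthogonal _ v).mp hv _ hmem
    rw [inner_TT ((tau_isT (fun j => e j) hψ hαT).mul_smooth (em_smooth hψ)).memLp] at h2
    have h3 : ∫ z, h₀ z * dzb (e j) w z ∂(om E) =
        - ∫ z, conj (tau (fun j => e j) ψ α z * em ψ z) * (v : E → ℂ) z ∂(om E) := by
      rw [← integral_neg]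
      refine integral_congr_ae (Eventually.of_forall fun z => ?_)
      simp only [hh₀]
      rw [htau]
      have h4 : (Real.exp (ψ z) : ℂ) * em ψ z = ep ψ z := by
        unfold em ep
        rw [← Complex.ofReal_mul, ← Real.exp_add]
        congr 2
        ring
      rw [map_mul, map_neg, map_mul, Complex.conj_conj, conj_em, Complex.conj_ofReal, ← h4]
      ring
    rw [h3, h2, neg_zero]
  obtain ⟨h, hh, hae⟩ := weyl e hloc hortho
  have hnv : ∀ z, ‖h₀ z‖ ^ 2 * Real.exp (-ψ z) = ‖(v : E → ℂ) z‖ ^ 2 := fun z =>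
    norm_ep_mul_sq ψ _ z
  have hvi : Integrable (fun z => ‖(v : E → ℂ) z‖ ^ 2) (om E) :=
    (memLp_two_iff_integrable_sq_norm (Lp.aestronglyMeasurable _)).mp (Lp.memLp v)
  have hui : Integrable (fun z => ‖(u : E → ℂ) z‖ ^ 2) (om E) :=
    (memLp_two_iff_integrable_sq_norm (Lp.aestronglyMeasurable _)).mp (Lp.memLp u)
  have hue : ∀ᵐ z ∂(om E), ‖(u : E → ℂ) z‖ ^ 2 = ‖g z - h z‖ ^ 2 * Real.exp (-ψ z) := by
    have e1 : u = G - v := by
      rw [huv]
      abel
    have e2 : (u : E → ℂ) =ᵐ[om E] fun z => (G : E → ℂ) z - (v : E → ℂ) z := by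
      rw [e1]
      exact Lp.coeFn_sub G v
    filter_upwards [e2, TT_coe hgm, hae] with z h1 h2 h3
    rw [h1, h2, ← h3, ← norm_mul_em_sq]
    congr 2
    simp only [hh₀]
    have := ep_mul_em ψ z
    calc g z * em ψ z - (v : E → ℂ) z = g z * em ψ z - (ep ψ z * em ψ z) * (v : E → ℂ) z := by
          rw [this, one_mul]
      _ = _ := by ring
  refine ⟨h, hh, ?_, ?_, ?_⟩
  · refine hvi.congr ?_
    filter_upwards [hae] with z hz
    rw [← hz, hnv]
  · exact hui.congr hue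
  · rw [← integral_congr_ae hue, ← norm_Lp_sq, ← hAsq]
    exact pow_le_pow_left₀ (norm_nonneg _) hunorm 2

end Main

end Pool.Agent.Edge
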