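import Pool.Agent.Edge.PSHBasic

/-!
# Maximum principle, local-to-global principle, gluing, `log max(|F|², t)`, Bernstein–Walsh
-/

namespace Pool.Agent.Edge

open MeasureTheory Filter Topology Complex

open scoped ComplexConjugate

/-- Maximum principle in one variable for functions with the local sub-mean value property.
Proof: let `M' = max` over the compact set `closure U`, suppose `M' > M`; the compact set
`F = {z ∈ closure U | u z = M'}` lies in `U`; take `z* ∈ F` with maximal real part; on a small circle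
around `z*` (inside `U`) `u ≤ M'`, and `u(z* + s) < M'`, so the circle average is `< M'`. -/
theorem max_principle {U : Set ℂ} (hU : IsOpen U) (hb : Bornology.IsBounded U) {u : ℂ → ℝ}
    (hc : ContinuousOn u (closure U))
    (hs : ∀ z ∈ U, ∀ᶠ s in 𝓝[>] (0:ℝ), u z ≤ Real.circleAverage u z s) {M : ℝ}
    (hM : ∀ z ∈ frontier U, u z ≤ M) : ∀ z ∈ U, u z ≤ M := by
  intro z0 hz0
  by_contra hcon
  push Not at hcon
  have hK : IsCompact (closure U) := hb.isCompact_closure
  obtain ⟨z1, hz1, hz1max⟩ := hK.exists_isMaxOn ⟨z0, subset_closure hz0⟩ hc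
  set M' := u z1 with hM'
  have hmax : ∀ z ∈ closure U, u z ≤ M' := fun z hz => hz1max hz
  have hMM' : M < M' := lt_of_lt_of_le hcon (hmax z0 (subset_closure hz0))
  set F : Set ℂ := {z ∈ closure U | u z = M'} with hF
  have hFc : IsCompact F := by
    have h1 : IsClosed F := by
      have := hc.preimage_isClosed_of_isClosed isClosed_closure (isClosed_singleton (x := M'))
      exact this
    exact hK.of_isClosed_subset h1 fun z hz => hz.1
  obtain ⟨zs, hzs, hzsmax⟩ := hFc.exists_isMaxOn (f := Complex.re) ⟨z1, hz1, rfl⟩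
    Complex.continuous_re.continuousOn
  have hzsU : zs ∈ U := by
    by_contra hn
    have h1 : zs ∈ frontier U := by
      rw [frontier, hU.interior_eq]
      exact ⟨hzs.1, hn⟩
    have := hM zs h1
    rw [hzs.2] at this
    linarith
  have hev1 := hs zs hzsU
  obtain ⟨r, hr, hrU⟩ := Metric.isOpen_iff.1 hU zs hzsU
  have hev2 : ∀ᶠ s in 𝓝[>] (0:ℝ), s < r :=
    mem_nhdsWithin_of_mem_nhds (Iio_mem_nhds hr)
  have hev3 : ∀ᶠ s in 𝓝[>] (0:ℝ), 0 < s := self_mem_nhdsWithin
  obtain ⟨s, ⟨hs1, hs2⟩, hs3⟩ := ((hev1.and hev2).and hev3).exists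
  have hsub : ∀ θ, circleMap zs s θ ∈ U := fun θ => hrU (by
    rw [Metric.mem_ball, dist_eq_norm]
    have : ‖circleMap zs s θ - zs‖ = s := by
      rw [circleMap, add_sub_cancel_left, norm_mul, Complex.norm_exp_ofReal_mul_I, mul_one,
        Complex.norm_real, Real.norm_eq_abs, abs_of_pos hs3]
    rw [this]
    exact hs2)
  have hcont : Continuous (fun θ => u (circleMap zs s θ)) :=
    hc.comp_continuous (continuous_circleMap zs s) fun θ => subset_closure (hsub θ)
  have hlt : ∫ θ in (0:ℝ)..2 * Real.pi, u (circleMap zs s θ) < ∫ _θ in (0:ℝ)..2 * Real.pi, M' := by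
    apply intervalIntegral.integral_lt_integral_of_continuousOn_of_le_of_exists_lt
      (by positivity) hcont.continuousOn continuousOn_const
    · intro θ _
      exact hmax _ (subset_closure (hsub θ))
    · refine ⟨0, ⟨le_rfl, by positivity⟩, ?_⟩
      refine lt_of_le_of_ne (hmax _ (subset_closure (hsub 0))) ?_
      intro heq
      have h2 : circleMap zs s 0 ∈ F := ⟨subset_closure (hsub 0), heq⟩
      have h3 := hzsmax h2
      simp only [circleMap, Complex.ofReal_zero, zero_mul, Complex.exp_zero, mul_one] at h3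
      have h4 : (zs + (s : ℂ)).re ≤ zs.re := h3
      rw [Complex.add_re, Complex.ofReal_re] at h4
      linarith
  rw [hzs.2, Real.circleAverage_def] at hs1
  rw [intervalIntegral.integral_const, sub_zero, smul_eq_mul] at hlt
  rw [smul_eq_mul] at hs1
  have hpi : 0 < 2 * Real.pi := by positivity
  have h5 : (2 * Real.pi)⁻¹ * ∫ θ in (0:ℝ)..2 * Real.pi, u (circleMap zs s θ) <
      (2 * Real.pi)⁻¹ * (2 * Real.pi * M') :=
    mul_lt_mul_of_pos_left hlt (inv_pos.2 hpi)
  rw [← mul_assoc, inv_mul_cancel₀ hpi.ne', one_mul] at h5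
  linarith

/-- Density of real parts of polynomials (entire functions) in the real continuous functions on a
circle (from `span_fourier_closure_eq_top`: `Re ∑_{|k|≤N} a_k e^{ikθ} = Re p(e^{iθ})` with
`p(w) = ∑_{k≥0} a_k w^k + ∑_{k<0} conj(a_k) w^{-k}`). -/
theorem exists_entire_approx_circle {u : ℂ → ℝ} (hu : Continuous u) (c : ℂ) (R : ℝ)
    {ε : ℝ} (hε : 0 < ε) :
    ∃ p : ℂ → ℂ, Differentiable ℂ p ∧ ∀ z ∈ Metric.sphere c |R|, |u z - (p z).re| ≤ ε := by
  rcases eq_or_ne R 0 with hR | hR
  · refine ⟨fun _ => (u c : ℂ), differentiable_const _, fun z hz => ?_⟩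
    rw [hR, abs_zero, Metric.sphere_zero, Set.mem_singleton_iff] at hz
    rw [hz, Complex.ofReal_re, sub_self, abs_zero]
    exact hε.le
  have hRpos : 0 < |R| := abs_pos.2 hR
  have : Fact (0 < 2 * Real.pi) := ⟨by positivity⟩
  -- trigonometric polynomials
  have key : ∀ f ∈ Submodule.span ℂ (Set.range (fourier (T := 2 * Real.pi))), ∀ a : ℂ,
      ∃ p : ℂ → ℂ, Differentiable ℂ p ∧
        ∀ x : AddCircle (2 * Real.pi), (a * f x).re = (p (AddCircle.toCircle x)).re := by
    intro f hf
    induction hf using Submodule.span_induction with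
    | mem f hf =>
      obtain ⟨n, rfl⟩ := hf
      intro a
      rcases le_total 0 n with hn | hn
      · obtain ⟨k, rfl⟩ := Int.eq_ofNat_of_zero_le hn
        refine ⟨fun w => a * w ^ k, by fun_prop, fun x => ?_⟩
        rw [fourier_apply, AddCircle.toCircle_zsmul]
        simp
      · obtain ⟨k, hk⟩ := Int.eq_ofNat_of_zero_le (neg_nonneg.2 hn)
        refine ⟨fun w => conj a * w ^ k, by fun_prop, fun x => ?_⟩
        have hn' : n = -(k : ℤ) := by omega
        rw [fourier_apply, AddCircle.toCircle_zsmul, hn', zpow_neg, Circle.coe_inv_eq_conj,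
          ← Complex.conj_re (conj a * _)]
        simp
    | zero =>
      intro a
      exact ⟨0, differentiable_const 0, fun x => by simp⟩
    | add f g _ _ hf hg =>
      intro a
      obtain ⟨p, hp, hp'⟩ := hf a
      obtain ⟨q, hq, hq'⟩ := hg a
      refine ⟨fun w => p w + q w, hp.add hq, fun x => ?_⟩
      rw [ContinuousMap.add_apply, mul_add, Complex.add_re, Complex.add_re, hp', hq']
    | smul b f _ hf =>
      intro a
      obtain ⟨p, hp, hp'⟩ := hf (a * b)
      refine ⟨p, hp, fun x => ?_⟩
      rw [← hp' x, ContinuousMap.smul_apply, smul_eq_mul, mul_assoc]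
  let g : C(AddCircle (2 * Real.pi), ℂ) :=
    ⟨fun x => (u (c + (|R| : ℝ) * (AddCircle.toCircle x : ℂ)) : ℂ), by
      have h1 : Continuous (fun x : AddCircle (2 * Real.pi) => ((AddCircle.toCircle x : Circle) : ℂ)) :=
        continuous_subtype_val.comp AddCircle.continuous_toCircle
      exact Complex.continuous_ofReal.comp (hu.comp (by fun_prop))⟩
  have hg : g ∈ (Submodule.span ℂ (Set.range (fourier (T := 2 * Real.pi)))).topologicalClosure := by
    rw [span_fourier_closure_eq_top]
    trivial
  rw [← SetLike.mem_coe, Submodule.topologicalClosure_coe, Metric.mem_closure_iff] at hg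
  obtain ⟨f, hf, hfg⟩ := hg ε hε
  obtain ⟨p, hp, hp'⟩ := key f hf 1
  refine ⟨fun w => p ((w - c) / (|R| : ℝ)), by fun_prop, fun z hz => ?_⟩
  have hz1 : ‖(z - c) / (|R| : ℝ)‖ = 1 := by
    rw [norm_div, Complex.norm_real, Real.norm_eq_abs, abs_abs, ← dist_eq_norm,
      Metric.mem_sphere.1 hz, div_self hRpos.ne']
  obtain ⟨x, hx⟩ := (AddCircle.homeomorphCircle (T := 2 * Real.pi) (by positivity)).surjective
    ⟨(z - c) / (|R| : ℝ), mem_sphere_zero_iff_norm.2 hz1⟩
  rw [AddCircle.homeomorphCircle_apply] at hx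
  have hx' : ((AddCircle.toCircle x : Circle) : ℂ) = (z - c) / (|R| : ℝ) := by
    rw [hx]
  have hzx : c + (|R| : ℝ) * ((AddCircle.toCircle x : Circle) : ℂ) = z := by
    rw [hx', mul_div_cancel₀]
    · ring
    · exact_mod_cast hRpos.ne'
  have h2 : g x = (u z : ℂ) := by
    change ((u (c + (|R| : ℝ) * ((AddCircle.toCircle x : Circle) : ℂ)) : ℝ) : ℂ) = _
    rw [hzx]
  have h3 : dist (g x) (f x) < ε := lt_of_le_of_lt (ContinuousMap.dist_apply_le_dist x) hfg
  rw [h2, dist_eq_norm] at h3
  have h4 : |((u z : ℂ) - f x).re| ≤ ‖(u z : ℂ) - f x‖ := Complex.abs_re_le_norm _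
  have h5 := hp' x
  rw [one_mul, hx'] at h5
  rw [Complex.sub_re, Complex.ofReal_re, h5] at h4
  exact h4.trans h3.le

/-- Local to global in one variable: compare `u` with `Re p + ε` on the disc by the maximum
principle (`u - Re p` has the local sub-mean value property), then
`u c ≤ Re p c + ε = avg (Re p) + ε ≤ avg u + 2 ε`. -/
theorem circle_local_to_global {u : ℂ → ℝ} (hc : Continuous u)
    (hs : ∀ z, ∀ᶠ s in 𝓝[>] (0:ℝ), u z ≤ Real.circleAverage u z s) (c : ℂ) (R : ℝ) :
    u c ≤ Real.circleAverage u c R := by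
  rcases eq_or_ne R 0 with hR | hR
  · rw [hR, Real.circleAverage_zero]
  have hRpos : 0 < |R| := abs_pos.2 hR
  apply le_of_forall_pos_le_add
  intro ε hε
  obtain ⟨p, hp, hpu⟩ := exists_entire_approx_circle hc c R (ε := ε / 2) (by positivity)
  have hpavg : ∀ (z : ℂ) (s : ℝ), Real.circleAverage (fun w => (p w).re) z s = (p z).re := by
    intro z s
    have h1 : Real.circleAverage p z s = p z := hp.diffContOnCl.circleAverage
    have h2 : CircleIntegrable p z s := hp.continuous.continuousOn.circleIntegrable'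
    have h3 := Complex.reCLM.circleAverage_comp_comm h2
    rw [h1] at h3
    exact h3
  have hpre : Continuous (fun w => (p w).re) := Complex.continuous_re.comp hp.continuous
  have hmp := max_principle (U := Metric.ball c |R|) Metric.isOpen_ball Metric.isBounded_ball
    (u := fun z => u z - (p z).re) (hc.sub hpre).continuousOn
    (by
      intro z _
      filter_upwards [hs z] with s hs1
      rw [Real.circleAverage_fun_sub hc.continuousOn.circleIntegrable'
        hpre.continuousOn.circleIntegrable', hpavg]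
      linarith) (M := ε / 2)
    (by
      intro z hz
      rw [frontier_ball c hRpos.ne'] at hz
      exact (le_abs_self _).trans (hpu z hz)) c (Metric.mem_ball_self hRpos)
  have h1 : Real.circleAverage (fun w => (p w).re) c R ≤
      Real.circleAverage (fun w => u w + ε / 2) c R := by
    refine Real.circleAverage_mono hpre.continuousOn.circleIntegrable'
      (hc.add continuous_const).continuousOn.circleIntegrable' fun x hx => ?_
    have := (abs_le.1 (hpu x hx)).1
    linarith
  rw [hpavg, Real.circleAverage_fun_add hc.continuousOn.circleIntegrable'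
    (circleIntegrable_const _ _ _), Real.circleAverage_const] at h1
  linarith

variable {E : Type*} [NormedAddCommGroup E] [InnerProductSpace ℂ E]

/-- A continuous function which has the sub-mean value property on all sufficiently small circles
around each point is `PSH`. -/
theorem psh_of_local {f : E → ℝ} (hc : Continuous f)
    (hs : ∀ z : E, ∃ r > 0, ∀ v : E, ‖v‖ < r →
      f z ≤ Real.circleAverage (fun ζ : ℂ => f (z + ζ • v)) 0 1) : PSH f := by
  refine ⟨hc, fun z v => ?_⟩
  have hcu : Continuous (fun l : ℂ => f (z + l • v)) := by fun_prop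
  have h := circle_local_to_global hcu ?_ 0 1
  · simpa using h
  intro l
  obtain ⟨r, hr, hr'⟩ := hs (z + l • v)
  have hev1 : ∀ᶠ s in 𝓝[>] (0:ℝ), s * ‖v‖ < r := by
    have h1 : Tendsto (fun s : ℝ => s * ‖v‖) (𝓝 0) (𝓝 (0 * ‖v‖)) := by
      exact (continuous_id.mul continuous_const).tendsto 0
    rw [zero_mul] at h1
    exact mem_nhdsWithin_of_mem_nhds (h1 (Iio_mem_nhds hr))
  have hev2 : ∀ᶠ s in 𝓝[>] (0:ℝ), 0 < s := self_mem_nhdsWithin
  filter_upwards [hev1, hev2] with s hs1 hs2
  have h2 := hr' ((s : ℂ) • v) (by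
    rw [norm_smul, Complex.norm_real, Real.norm_eq_abs, abs_of_pos hs2]
    exact hs1)
  rw [Real.circleAverage_eq_circleAverage_zero_one]
  refine h2.trans (le_of_eq ?_)
  congr 1
  funext ζ
  congr 1
  rw [smul_smul, add_smul, mul_comm ζ]
  abel

open Classical in
/-- Gluing: if `g < f` on the sphere then `max f g` inside the ball and `f` outside is psh
(near the sphere the glued function equals `f`). -/
theorem psh_glue [FiniteDimensional ℂ E] {f g : E → ℝ} (hf : PSH f) (hg : PSH g) {a : E} {r : ℝ}
    (hr : 0 < r) (h : ∀ z ∈ Metric.sphere a r, g z < f z) :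
    PSH (fun z => if z ∈ Metric.ball a r then max (f z) (g z) else f z) := by
  set k : E → ℝ := fun z => if z ∈ Metric.ball a r then max (f z) (g z) else f z with hk
  have hmax : PSH (fun z => max (f z) (g z)) := hf.max hg
  -- locally `k` agrees with one of the two functions
  have hloc : ∀ z : E, ∃ ρ > 0, ∃ q : E → ℝ, PSH q ∧ ∀ y ∈ Metric.ball z ρ, k y = q y := by
    intro z
    by_cases hz : z ∈ Metric.ball a r
    · obtain ⟨ρ, hρ, hρ'⟩ := Metric.isOpen_iff.1 Metric.isOpen_ball z hz
      exact ⟨ρ, hρ, _, hmax, fun y hy => if_pos (hρ' hy)⟩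
    · by_cases hz2 : z ∈ Metric.closedBall a r
      · have hzs : z ∈ Metric.sphere a r := by
          rw [Metric.mem_sphere]
          rw [Metric.mem_ball, not_lt] at hz
          exact le_antisymm hz2 hz
        have hopen : IsOpen {y | g y < f y} := isOpen_lt hg.1 hf.1
        obtain ⟨ρ, hρ, hρ'⟩ := Metric.isOpen_iff.1 hopen z (h z hzs)
        refine ⟨ρ, hρ, f, hf, fun y hy => ?_⟩
        have hy' : g y < f y := hρ' hy
        simp only [hk]
        split_ifs
        · exact max_eq_left hy'.le
        · rfl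
      · obtain ⟨ρ, hρ, hρ'⟩ := Metric.isOpen_iff.1 Metric.isClosed_closedBall.isOpen_compl z hz2
        refine ⟨ρ, hρ, f, hf, fun y hy => ?_⟩
        have hy' : y ∉ Metric.ball a r := fun h' => hρ' hy (Metric.ball_subset_closedBall h')
        exact if_neg hy'
  have hkc : Continuous k := by
    rw [continuous_iff_continuousAt]
    intro z
    obtain ⟨ρ, hρ, q, hq, hq'⟩ := hloc z
    refine hq.1.continuousAt.congr ?_
    filter_upwards [Metric.ball_mem_nhds z hρ] with y hy using (hq' y hy).symm
  refine psh_of_local hkc fun z => ?_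
  obtain ⟨ρ, hρ, q, hq, hq'⟩ := hloc z
  refine ⟨ρ, hρ, fun v hv => ?_⟩
  rw [hq' z (Metric.mem_ball_self hρ)]
  refine (hq.2 z v).trans (le_of_eq ?_)
  refine Real.circleAverage_congr_sphere fun ζ hζ => ?_
  rw [abs_one, mem_sphere_zero_iff_norm] at hζ
  refine (hq' _ ?_).symm
  rw [mem_ball_iff_norm, add_sub_cancel_left, norm_smul, hζ, one_mul]
  exact hv

/-- `log max(|F|², t)` is psh for `F` entire and `t > 0`.  Use `psh_of_local`: at points with
`|F|² ≤ t` the value is the minimum `log t`; at points with `|F|² > t` the function `log|F|²` is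
harmonic along complex lines near the point (`AnalyticAt.harmonicAt_log_norm`,
`HarmonicOnNhd.circleAverage_eq`), so `log|F(z)|² = avg log|F|² ≤ avg log max`. -/
theorem psh_log_max {F : E → ℂ} (hF : Differentiable ℂ F) {t : ℝ} (ht : 0 < t) :
    PSH (fun z => Real.log (max (‖F z‖ ^ 2) t)) := by
  have hFc : Continuous (fun z => ‖F z‖ ^ 2) := hF.continuous.norm.pow 2
  have hpos : ∀ z, 0 < max (‖F z‖ ^ 2) t := fun z => lt_max_of_lt_right ht
  have hc : Continuous (fun z => Real.log (max (‖F z‖ ^ 2) t)) :=
    (hFc.max continuous_const).log fun z => (hpos z).ne'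
  refine psh_of_local hc fun z => ?_
  rcases le_or_gt (‖F z‖ ^ 2) t with hz | hz
  · refine ⟨1, one_pos, fun v _ => ?_⟩
    rw [max_eq_right hz]
    calc Real.log t = Real.circleAverage (fun _ : ℂ => Real.log t) 0 1 :=
          (Real.circleAverage_const _ _ _).symm
      _ ≤ _ := Real.circleAverage_mono (circleIntegrable_const _ _ _) (circInt hc z v)
          fun x _ => Real.log_le_log ht (le_max_right _ _)
  · have hopen : IsOpen {y | t < ‖F y‖ ^ 2} := isOpen_lt continuous_const hFc
    obtain ⟨ρ, hρ, hρ'⟩ := Metric.isOpen_iff.1 hopen z hz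
    refine ⟨ρ, hρ, fun v hv => ?_⟩
    have hmem : ∀ ζ : ℂ, ‖ζ‖ ≤ 1 → t < ‖F (z + ζ • v)‖ ^ 2 := by
      intro ζ hζ
      apply hρ'
      rw [mem_ball_iff_norm, add_sub_cancel_left, norm_smul]
      calc ‖ζ‖ * ‖v‖ ≤ 1 * ‖v‖ := by gcongr
        _ < ρ := by rw [one_mul]; exact hv
    have hG : Differentiable ℂ (fun ζ : ℂ => F (z + ζ • v)) := by fun_prop
    have hharm : InnerProductSpace.HarmonicOnNhd (fun ζ : ℂ => Real.log ‖F (z + ζ • v)‖)
        (Metric.closedBall 0 |1|) := by
      intro ζ hζ
      rw [abs_one, mem_closedBall_zero_iff] at hζ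
      refine AnalyticAt.harmonicAt_log_norm (f := fun ζ : ℂ => F (z + ζ • v))
        (hG.analyticAt ζ) ?_
      intro h0
      have h1 := hmem ζ hζ
      rw [h0] at h1
      simp at h1
      linarith
    have havg := hharm.circleAverage_eq
    have h1 : Real.log (max (‖F z‖ ^ 2) t) =
        Real.circleAverage (fun ζ : ℂ => Real.log (‖F (z + ζ • v)‖ ^ 2)) 0 1 := by
      have h2 : (fun ζ : ℂ => Real.log (‖F (z + ζ • v)‖ ^ 2)) =
          fun ζ : ℂ => (2 : ℝ) • Real.log ‖F (z + ζ • v)‖ := by
        funext ζ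
        rw [Real.log_pow, smul_eq_mul]
        norm_num
      rw [h2, Real.circleAverage_fun_smul, havg, zero_smul, add_zero, max_eq_left hz.le,
        Real.log_pow, smul_eq_mul]
      norm_num
    rw [h1]
    refine le_of_eq (Real.circleAverage_congr_sphere fun ζ hζ => ?_)
    rw [abs_one, mem_sphere_zero_iff_norm] at hζ
    rw [max_eq_left (hmem ζ hζ.le).le]

/-- Bernstein–Walsh: if `ψ` is psh with logarithmic growth and `ψ ≤ M` on the unit ball, then
`ψ(z) ≤ M + log(1+|z|²)`.  For `‖z‖ > 1` put `e = z/‖z‖`, `u_ε(λ) = ψ(λ e) - M - (2+ε) log|λ|` on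
`1 < |λ| < R`, `R` large: `u_ε ≤ 0` on both boundary circles, hence inside (`max_principle`;
`log|λ|` is harmonic off `0`), let `ε → 0` to get `ψ(z) ≤ M + log ‖z‖²`. -/
theorem bernstein_walsh {ψ : E → ℝ} (hψ : PSH ψ) (hg : LogGrowth ψ) {M : ℝ}
    (hM : ∀ z, ‖z‖ ≤ 1 → ψ z ≤ M) (z : E) : ψ z ≤ M + Real.log (1 + ‖z‖ ^ 2) := by
  obtain ⟨C, hC⟩ := hg
  have hlog0 : ∀ x : ℝ, 0 ≤ Real.log (1 + x ^ 2) := fun x =>
    Real.log_nonneg (by nlinarith [sq_nonneg x])
  rcases le_or_gt ‖z‖ 1 with hz | hz
  · linarith [hM z hz, hlog0 ‖z‖]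
  have hz0 : 0 < ‖z‖ := by linarith
  set e : E := ((‖z‖⁻¹ : ℝ) : ℂ) • z with he
  have hen : ‖e‖ = 1 := by
    rw [he, norm_smul, Complex.norm_real, Real.norm_eq_abs, abs_of_pos (inv_pos.2 hz0),
      inv_mul_cancel₀ hz0.ne']
  have hze : ((‖z‖ : ℝ) : ℂ) • e = z := by
    rw [he, smul_smul, ← Complex.ofReal_mul, mul_inv_cancel₀ hz0.ne', Complex.ofReal_one, one_smul]
  have main : ∀ ε : ℝ, 0 < ε → ψ z ≤ M + (2 + ε) * Real.log ‖z‖ := by
    intro ε hε
    set R : ℝ := max (‖z‖ + 1) (Real.exp ((Real.log 2 + C - M) / ε)) with hR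
    have hRz : ‖z‖ < R := lt_of_lt_of_le (by linarith) (le_max_left _ _)
    have hR1 : 1 < R := hz.trans hRz
    have hRlog : Real.log 2 + C - M ≤ ε * Real.log R := by
      have h1 : (Real.log 2 + C - M) / ε ≤ Real.log R := by
        rw [Real.le_log_iff_exp_le (by linarith)]
        exact le_max_right _ _
      rw [div_le_iff₀ hε] at h1
      linarith
    set U : Set ℂ := {l | 1 < ‖l‖} ∩ Metric.ball 0 R with hU
    have hUo : IsOpen U := (isOpen_lt continuous_const continuous_norm).inter Metric.isOpen_ball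
    have hUb : Bornology.IsBounded U := Metric.isBounded_ball.subset Set.inter_subset_right
    have hcl : closure U ⊆ {l | 1 ≤ ‖l‖} ∩ Metric.closedBall 0 R := by
      apply closure_minimal
      · intro l hl
        have hl1 : 1 < ‖l‖ := hl.1
        exact ⟨hl1.le, Metric.ball_subset_closedBall hl.2⟩
      · exact (isClosed_le continuous_const continuous_norm).inter Metric.isClosed_closedBall
    set u : ℂ → ℝ := fun l => ψ (l • e) - M - (2 + ε) * Real.log ‖l‖ with hu
    have hψe : Continuous (fun l : ℂ => ψ (l • e)) := hψ.1.comp (by fun_prop)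
    have huc : ContinuousOn u (closure U) := by
      refine (hψe.sub continuous_const).continuousOn.sub (continuousOn_const.mul ?_)
      refine continuous_norm.continuousOn.log fun l hl => ?_
      have : 1 ≤ ‖l‖ := (hcl hl).1
      linarith
    have hfr : ∀ l ∈ frontier U, u l ≤ 0 := by
      intro l hl
      have hl1 : 1 ≤ ‖l‖ := (hcl (frontier_subset_closure hl)).1
      have hl2 : ‖l‖ ≤ R := by
        have := (hcl (frontier_subset_closure hl)).2
        rwa [mem_closedBall_zero_iff] at this
      have hl3 : ‖l‖ = 1 ∨ ‖l‖ = R := by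
        by_contra hcon
        push Not at hcon
        have : l ∈ U := ⟨lt_of_le_of_ne hl1 (Ne.symm hcon.1), by
          rw [mem_ball_zero_iff]
          exact lt_of_le_of_ne hl2 hcon.2⟩
        rw [frontier, hUo.interior_eq] at hl
        exact hl.2 this
      rcases hl3 with h1 | h1
      · have h2 : ψ (l • e) ≤ M := hM _ (by rw [norm_smul, hen, h1, one_mul])
        simp only [hu, h1, Real.log_one]
        linarith
      · have h2 := hC (l • e)
        rw [norm_smul, hen, h1, mul_one] at h2
        have h3 : Real.log (1 + R ^ 2) ≤ Real.log 2 + 2 * Real.log R := by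
          have h4 : (1 : ℝ) + R ^ 2 ≤ 2 * R ^ 2 := by nlinarith
          calc Real.log (1 + R ^ 2) ≤ Real.log (2 * R ^ 2) := Real.log_le_log (by positivity) h4
            _ = Real.log 2 + 2 * Real.log R := by
                rw [Real.log_mul (by norm_num) (by positivity), Real.log_pow]
                norm_num
        simp only [hu, h1]
        nlinarith
    have hsub : ∀ l ∈ U, ∀ᶠ s in 𝓝[>] (0:ℝ), u l ≤ Real.circleAverage u l s := by
      intro l hl
      obtain ⟨ρ, hρ, hρ'⟩ := Metric.isOpen_iff.1 hUo l hl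
      have hev1 : ∀ᶠ s in 𝓝[>] (0:ℝ), s < ρ := mem_nhdsWithin_of_mem_nhds (Iio_mem_nhds hρ)
      have hev2 : ∀ᶠ s in 𝓝[>] (0:ℝ), 0 < s := self_mem_nhdsWithin
      filter_upwards [hev1, hev2] with s hs1 hs2
      have hball : Metric.closedBall l |s| ⊆ U := by
        rw [abs_of_pos hs2]
        exact (Metric.closedBall_subset_ball hs1).trans hρ'
      have hne : ∀ x ∈ Metric.closedBall l |s|, x ≠ 0 := by
        intro x hx h0
        have := (hball hx).1
        rw [h0] at this
        simp at this
        linarith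
      have hharm : InnerProductSpace.HarmonicOnNhd (fun x : ℂ => Real.log ‖x‖)
          (Metric.closedBall l |s|) := by
        intro x hx
        exact AnalyticAt.harmonicAt_log_norm (f := fun x => x) analyticAt_id (hne x hx)
      have havg := hharm.circleAverage_eq
      have hi1 : CircleIntegrable (fun x : ℂ => ψ (x • e) - M) l s :=
        (hψe.sub continuous_const).continuousOn.circleIntegrable'
      have hi2 : CircleIntegrable (fun x : ℂ => (2 + ε) * Real.log ‖x‖) l s := by
        refine ContinuousOn.circleIntegrable' (continuousOn_const.mul ?_)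
        refine continuous_norm.continuousOn.log fun x hx => ?_
        exact norm_ne_zero_iff.2 (hne x (Metric.sphere_subset_closedBall hx))
      have hi3 : CircleIntegrable (fun x : ℂ => ψ (x • e)) l s :=
        hψe.continuousOn.circleIntegrable'
      have h1 : Real.circleAverage u l s =
          Real.circleAverage (fun x : ℂ => ψ (x • e)) l s - M - (2 + ε) * Real.log ‖l‖ := by
        have h2 : Real.circleAverage (fun x : ℂ => (2 + ε) * Real.log ‖x‖) l s =
            (2 + ε) * Real.log ‖l‖ := by
          have h3 : Real.circleAverage (fun x : ℂ => (2 + ε) • Real.log ‖x‖) l s =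
            (2 + ε) • Real.circleAverage (fun x : ℂ => Real.log ‖x‖) l s :=
            Real.circleAverage_fun_smul
          rw [havg] at h3
          exact h3
        rw [hu, Real.circleAverage_fun_sub hi1 hi2, h2,
          Real.circleAverage_fun_sub hi3 (circleIntegrable_const _ _ _), Real.circleAverage_const]
      have h4 : ψ (l • e) ≤ Real.circleAverage (fun x : ℂ => ψ (x • e)) l s := by
        refine (hψ.2 (l • e) ((s : ℂ) • e)).trans (le_of_eq ?_)
        rw [Real.circleAverage_eq_circleAverage_zero_one (c := l)]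
        congr 1
        funext ζ
        congr 1
        rw [add_smul, mul_comm (s : ℂ) ζ, mul_smul]
        abel
      rw [h1]
      simp only [hu]
      linarith
    have hfin := max_principle hUo hUb huc hsub hfr ((‖z‖ : ℝ) : ℂ) ⟨by
      rw [Set.mem_setOf_eq, Complex.norm_real, norm_norm]
      exact hz, by
      rw [mem_ball_zero_iff, Complex.norm_real, norm_norm]
      exact hRz⟩
    simp only [hu, hze, Complex.norm_real, norm_norm] at hfin
    linarith
  have h1 : ψ z ≤ M + 2 * Real.log ‖z‖ := by
    have hlog : 0 < Real.log ‖z‖ := Real.log_pos hz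
    apply le_of_forall_pos_le_add
    intro ε hε
    have := main (ε / Real.log ‖z‖) (by positivity)
    have h2 : (2 + ε / Real.log ‖z‖) * Real.log ‖z‖ = 2 * Real.log ‖z‖ + ε := by
      rw [add_mul, div_mul_cancel₀ _ hlog.ne']
    linarith
  have h2 : 2 * Real.log ‖z‖ ≤ Real.log (1 + ‖z‖ ^ 2) := by
    have h3 : 2 * Real.log ‖z‖ = Real.log (‖z‖ ^ 2) := by
      rw [Real.log_pow]
      norm_num
    rw [h3]
    exact Real.log_le_log (by positivity) (by linarith)
  linarith

end Pool.Agent.Edge
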