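import Pool.Agent.Edge.Base

/-!
# Basic properties of continuous plurisubharmonic functions

`PSH f` : `f` continuous and `f z ≤ circleAverage (fun ζ => f (z + ζ • v)) 0 1` for all `z v`.
Note `Real.circleAverage g 0 1 = (2π)⁻¹ • ∫ θ in 0..2π, g (circleMap 0 1 θ)`,
`circleMap 0 1 θ = e^{iθ}`.
-/

namespace Pool.Agent.Edge

open MeasureTheory Filter Topology Complex

open scoped ComplexConjugate

variable {E : Type*} [NormedAddCommGroup E] [InnerProductSpace ℂ E]
variable {E' : Type*} [NormedAddCommGroup E'] [InnerProductSpace ℂ E']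

theorem PSH.continuous {f : E → ℝ} (hf : PSH f) : Continuous f := hf.1

theorem circInt {F : Type*} [NormedAddCommGroup F] {f : E → F} (hf : Continuous f) (z v : E) :
    CircleIntegrable (fun ζ : ℂ => f (z + ζ • v)) 0 1 := by
  have : Continuous (fun ζ : ℂ => f (z + ζ • v)) := by fun_prop
  exact this.continuousOn.circleIntegrable zero_le_one

theorem psh_const (c : ℝ) : PSH (fun _ : E => c) := by
  refine ⟨continuous_const, fun z v => ?_⟩
  rw [Real.circleAverage_const]

theorem PSH.add {f g : E → ℝ} (hf : PSH f) (hg : PSH g) : PSH (fun z => f z + g z) := by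
  refine ⟨hf.1.add hg.1, fun z v => ?_⟩
  rw [Real.circleAverage_fun_add (circInt hf.1 z v) (circInt hg.1 z v)]
  exact add_le_add (hf.2 z v) (hg.2 z v)

theorem PSH.const_mul {f : E → ℝ} (hf : PSH f) {c : ℝ} (hc : 0 ≤ c) : PSH (fun z => c * f z) := by
  refine ⟨continuous_const.mul hf.1, fun z v => ?_⟩
  have h : Real.circleAverage (fun ζ : ℂ => c * f (z + ζ • v)) 0 1
      = c * Real.circleAverage (fun ζ : ℂ => f (z + ζ • v)) 0 1 :=
    Real.circleAverage_fun_smul (𝕜 := ℝ) (a := c) (f := fun ζ : ℂ => f (z + ζ • v))
  rw [h]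
  exact mul_le_mul_of_nonneg_left (hf.2 z v) hc

theorem PSH.max {f g : E → ℝ} (hf : PSH f) (hg : PSH g) : PSH (fun z => max (f z) (g z)) := by
  refine ⟨hf.1.max hg.1, fun z v => ?_⟩
  have hm := circInt (hf.1.max hg.1) z v
  apply max_le
  · exact (hf.2 z v).trans (Real.circleAverage_mono (circInt hf.1 z v) hm
      fun x _ => le_max_left _ _)
  · exact (hg.2 z v).trans (Real.circleAverage_mono (circInt hg.1 z v) hm
      fun x _ => le_max_right _ _)

/-- composition with an affine holomorphic map. -/
theorem PSH.comp_affine {f : E → ℝ} (hf : PSH f) (a : E) (L : E' →L[ℂ] E) :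
    PSH (fun z : E' => f (a + L z)) := by
  refine ⟨hf.1.comp (by fun_prop), fun z v => ?_⟩
  have h := hf.2 (a + L z) (L v)
  have e : ∀ ζ : ℂ, a + L (z + ζ • v) = a + L z + ζ • L v := by
    intro ζ
    rw [map_add, map_smul, add_assoc]
  simp only [e]
  exact h

/-- Special case: `ζ ↦ f (sc a n ζ)`. -/
theorem PSH.comp_sc {f : E → ℝ} (hf : PSH f) (a : E) (n : ℕ) : PSH (fun ζ : E => f (sc a n ζ)) := by
  have h := hf.comp_affine a ((((Real.sqrt n)⁻¹ : ℝ) : ℂ) • ContinuousLinearMap.id ℂ E)
  convert h using 2 with ζ
  rw [sc, smul_apply, ContinuousLinearMap.id_apply, Complex.coe_smul]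

/-- mean value property itself. -/
theorem circleAverage_entire {F : E → ℂ} (hF : Differentiable ℂ F) (z v : E) :
    Real.circleAverage (fun ζ : ℂ => F (z + ζ • v)) 0 1 = F z := by
  have h : Differentiable ℂ (fun ζ : ℂ => F (z + ζ • v)) := by fun_prop
  have := h.diffContOnCl.circleAverage (c := 0) (R := 1)
  rw [this]
  simp

theorem circleAverage_re_entire {F : E → ℂ} (hF : Differentiable ℂ F) (z v : E) :
    Real.circleAverage (fun ζ : ℂ => (F (z + ζ • v)).re) 0 1 = (F z).re := by
  have h := Complex.reCLM.circleAverage_comp_comm (circInt hF.continuous z v)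
  rw [circleAverage_entire hF] at h
  exact h

/-- Real parts of entire functions are plurisubharmonic (mean value property of
`ζ ↦ F (z + ζ • v)`, e.g. `circleAverage` of a holomorphic function is its value at the centre). -/
theorem psh_re {F : E → ℂ} (hF : Differentiable ℂ F) : PSH (fun z => (F z).re) := by
  refine ⟨Complex.continuous_re.comp hF.continuous, fun z v => ?_⟩
  rw [circleAverage_re_entire hF]

theorem psh_neg_re {F : E → ℂ} (hF : Differentiable ℂ F) : PSH (fun z => -(F z).re) := by
  have h := psh_re hF.neg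
  convert h using 2
  simp

/-- `|F|²` is plurisubharmonic for `F` entire: `|F(z)|² = |avg F|² ≤ avg |F|²`. -/
theorem psh_normSq {F : E → ℂ} (hF : Differentiable ℂ F) : PSH (fun z => ‖F z‖ ^ 2) := by
  have hc : Continuous (fun z => ‖F z‖ ^ 2) := hF.continuous.norm.pow 2
  refine ⟨hc, fun z v => ?_⟩
  set c := F z with hcdef
  have hG : Differentiable ℂ (fun w => conj c * (2 * F w - c)) := by fun_prop
  have h1 := circleAverage_re_entire hG z v
  have h2 : (conj c * (2 * F z - c)).re = ‖F z‖ ^ 2 := by
    rw [← hcdef]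
    have : conj c * (2 * c - c) = ((‖c‖ ^ 2 : ℝ) : ℂ) := by
      rw [Complex.ofReal_pow, ← Complex.conj_mul']
      ring
    rw [this, Complex.ofReal_re]
  rw [h2] at h1
  refine le_trans h1.symm.le ?_
  refine Real.circleAverage_mono ?_ (circInt hc z v) fun ζ _ => ?_
  · exact circInt (f := fun w => (conj c * (2 * F w - c)).re)
      (Complex.continuous_re.comp hG.continuous) z v
  · set w := F (z + ζ • v)
    have h3 : 0 ≤ ‖w - c‖ ^ 2 := by positivity
    have h4 : ‖w - c‖ ^ 2 = ‖w‖ ^ 2 - (conj c * (2 * w - c)).re := by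
      rw [Complex.sq_norm, Complex.sq_norm, Complex.normSq_apply, Complex.normSq_apply]
      simp only [Complex.sub_re, Complex.sub_im, Complex.mul_re, Complex.conj_re, Complex.conj_im,
        Complex.mul_im, Complex.re_ofNat, Complex.im_ofNat]
      ring
    linarith

theorem circleAverage_rot (g : ℂ → ℝ) (η : ℝ) :
    Real.circleAverage g 0 1 = Real.circleAverage (fun ζ => g (cexp (η * I) * ζ)) 0 1 := by
  rw [Real.circleAverage_eq_integral_add η, Real.circleAverage_def]
  congr 1
  apply intervalIntegral.integral_congr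
  intro θ _
  simp only [circleMap, zero_add, Complex.ofReal_one, one_mul]
  congr 1
  rw [← Complex.exp_add]
  congr 1
  push_cast
  ring

/-- Quadratic polynomials with `B(v,v) + B(iv,iv) ≥ 0`.  (The average of
`q(z + e^{iθ}v)` over the circle is `q(z) + ¼ (B(v,v) + B(iv,iv))`.) -/
theorem psh_quadratic (a : E) (c : ℝ) (L : E →L[ℝ] ℝ) (B : E →L[ℝ] E →L[ℝ] ℝ)
    (hB : ∀ v, 0 ≤ B v v + B (I • v) (I • v)) :
    PSH (fun z => c + L (z - a) + (1 / 2) * B (z - a) (z - a)) := by
  set q : E → ℝ := fun z => c + L (z - a) + (1 / 2) * B (z - a) (z - a) with hq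
  have hqc : Continuous q := by
    rw [hq]
    fun_prop
  refine ⟨hqc, fun z v => ?_⟩
  have e0 : cexp ((0 : ℝ) * I) = 1 := by simp
  have e1 : cexp (((Real.pi / 2 : ℝ) : ℂ) * I) = I := by
    push_cast
    exact Complex.exp_pi_div_two_mul_I
  have e2 : cexp (((Real.pi : ℝ) : ℂ) * I) = -1 := Complex.exp_pi_mul_I
  have e3 : cexp (((-(Real.pi / 2) : ℝ) : ℂ) * I) = -I := by
    have : ((-(Real.pi / 2) : ℝ) : ℂ) * I = -(Real.pi : ℂ) / 2 * I := by
      push_cast
      ring
    rw [this]
    exact Complex.exp_neg_pi_div_two_mul_I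
  have r1 := circleAverage_rot (fun ζ => q (z + ζ • v)) (Real.pi / 2)
  have r2 := circleAverage_rot (fun ζ => q (z + ζ • v)) Real.pi
  have r3 := circleAverage_rot (fun ζ => q (z + ζ • v)) (-(Real.pi / 2))
  simp only [e1] at r1
  simp only [e2] at r2
  simp only [e3] at r3
  have i0 := circInt hqc z v
  have i1 : CircleIntegrable (fun ζ : ℂ => q (z + (I * ζ) • v)) 0 1 := by
    have : Continuous (fun ζ : ℂ => q (z + (I * ζ) • v)) := by fun_prop
    exact this.continuousOn.circleIntegrable zero_le_one
  have i2 : CircleIntegrable (fun ζ : ℂ => q (z + (-1 * ζ) • v)) 0 1 := by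
    have : Continuous (fun ζ : ℂ => q (z + (-1 * ζ) • v)) := by fun_prop
    exact this.continuousOn.circleIntegrable zero_le_one
  have i3 : CircleIntegrable (fun ζ : ℂ => q (z + (-I * ζ) • v)) 0 1 := by
    have : Continuous (fun ζ : ℂ => q (z + (-I * ζ) • v)) := by fun_prop
    exact this.continuousOn.circleIntegrable zero_le_one
  have i01 : CircleIntegrable (fun ζ : ℂ => q (z + ζ • v) + q (z + (I * ζ) • v)) 0 1 := i0.add i1
  have i23 : CircleIntegrable
      (fun ζ : ℂ => q (z + (-1 * ζ) • v) + q (z + (-I * ζ) • v)) 0 1 := i2.add i3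
  have hsum : Real.circleAverage (fun ζ : ℂ => (q (z + ζ • v) + q (z + (I * ζ) • v)) +
      (q (z + (-1 * ζ) • v) + q (z + (-I * ζ) • v))) 0 1
      = 4 * Real.circleAverage (fun ζ : ℂ => q (z + ζ • v)) 0 1 := by
    rw [Real.circleAverage_fun_add i01 i23, Real.circleAverage_fun_add i0 i1,
      Real.circleAverage_fun_add i2 i3, ← r1, ← r2, ← r3]
    ring
  have hle : Real.circleAverage (fun _ : ℂ => 4 * q z) 0 1 ≤
      Real.circleAverage (fun ζ : ℂ => (q (z + ζ • v) + q (z + (I * ζ) • v)) +
      (q (z + (-1 * ζ) • v) + q (z + (-I * ζ) • v))) 0 1 := by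
    refine Real.circleAverage_mono (circleIntegrable_const _ _ _) (i01.add i23)
      fun ζ _ => ?_
    have hh := hB (ζ • v)
    set h : E := ζ • v with hh'
    have k1 : (I * ζ) • v = I • h := by rw [hh', smul_smul]
    have k2 : (-1 * ζ) • v = -h := by rw [hh', neg_one_mul, neg_smul]
    have k3 : (-I * ζ) • v = -(I • h) := by rw [hh', smul_smul, neg_mul, neg_smul]
    simp only [k1, k2, k3]
    set h' : E := I • h
    have m0 : z + h - a = (z - a) + h := by abel
    have m1 : z + h' - a = (z - a) + h' := by abel
    have m2 : z + -h - a = (z - a) - h := by abel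
    have m3 : z + -h' - a = (z - a) - h' := by abel
    simp only [hq]
    rw [m0, m1, m2, m3]
    set w : E := z - a
    simp only [map_add, map_sub, add_apply, sub_apply]
    linarith
  rw [hsum, Real.circleAverage_const] at hle
  linarith

/-- Locally uniform limits (uniform convergence on the compact circle `z + e^{iθ} v` gives
convergence of the circle averages; this works for every filter `l`). -/
theorem psh_of_tendstoLocallyUniformly {ι : Type*} {l : Filter ι} [l.NeBot] {f : ι → E → ℝ}
    {g : E → ℝ} (hf : ∀ᶠ i in l, PSH (f i)) (h : TendstoLocallyUniformly f g l) : PSH g := by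
  have hgc : Continuous g := h.continuous (hf.mono fun i hi => hi.1).frequently
  refine ⟨hgc, fun z v => ?_⟩
  apply le_of_forall_pos_le_add
  intro ε hε
  set K : Set E := insert z ((fun ζ : ℂ => z + ζ • v) '' Metric.sphere 0 |1|) with hK
  have hKc : IsCompact K := by
    apply IsCompact.insert
    exact (isCompact_sphere _ _).image (by fun_prop)
  have hu : TendstoUniformlyOn f g l K :=
    (tendstoLocallyUniformlyOn_iff_tendstoUniformlyOn_of_compact hKc).mp
      h.tendstoLocallyUniformlyOn
  rw [Metric.tendstoUniformlyOn_iff] at hu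
  obtain ⟨i, hi1, hi2⟩ := (hf.and (hu (ε / 2) (by positivity))).exists
  have h1 := hi2 z (Set.mem_insert _ _)
  rw [Real.dist_eq, abs_lt] at h1
  have h2 : Real.circleAverage (fun ζ : ℂ => f i (z + ζ • v)) 0 1 ≤
      Real.circleAverage (fun ζ : ℂ => g (z + ζ • v) + ε / 2) 0 1 := by
    refine Real.circleAverage_mono (circInt hi1.1 z v)
      ((circInt hgc z v).add (circleIntegrable_const _ _ _)) fun ζ hζ => ?_
    have h3 := hi2 (z + ζ • v) (Set.mem_insert_of_mem _ ⟨ζ, hζ, rfl⟩)
    rw [Real.dist_eq, abs_lt] at h3
    linarith [h3.1]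
  rw [Real.circleAverage_fun_add (circInt hgc z v) (circleIntegrable_const _ _ _),
    Real.circleAverage_const] at h2
  have h4 := hi1.2 z v
  linarith [h1.2]

section meas

variable [FiniteDimensional ℂ E] [MeasurableSpace E] [BorelSpace E]

/-- multiplication by a unit complex number as a real linear isometry -/
noncomputable def rotIso {u : ℂ} (hu : ‖u‖ = 1) : E ≃ₗᵢ[ℝ] E where
  toFun z := u • z
  invFun z := u⁻¹ • z
  left_inv z := by
    have : u ≠ 0 := by
      rintro rfl
      simp at hu
    simp only [smul_smul, inv_mul_cancel₀ this, one_smul]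
  right_inv z := by
    have : u ≠ 0 := by
      rintro rfl
      simp at hu
    simp only [smul_smul, mul_inv_cancel₀ this, one_smul]
  map_add' x y := smul_add _ _ _
  map_smul' c x := by
    simp only [RingHom.id_apply]
    rw [smul_comm]
  norm_map' x := by
    change ‖u • x‖ = ‖x‖
    rw [norm_smul, hu, one_mul]

/-- Multiplication by `e^{iθ}` preserves `om E`. (It is a linear isometry; determinant of modulus
one, or: the push-forward is a Haar measure with the same Gaussian integral.) -/
theorem measurePreserving_smul {u : ℂ} (hu : ‖u‖ = 1) :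
    MeasurePreserving (fun z : E => u • z) (om E) (om E) := by
  let _ : InnerProductSpace ℝ E := InnerProductSpace.complexToReal
  have h1 : MeasurePreserving (rotIso (E := E) hu) (volume : Measure E) volume :=
    (rotIso (E := E) hu).measurePreserving
  rw [Measure.isAddLeftInvariant_eq_smul (om E) (volume : Measure E)]
  exact h1.smul_measure _

/-- Sub-mean value property with respect to circled weights `g`.
Proof: `∫ g(y) f(z+y) dy = ∫ g(y) f(z+e^{iθ}y) dy` for every `θ` (rotation invariance of `om` and
of `g`), average over `θ ∈ [0,2π]` and exchange the integrals (the absolute integral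
`∫ |g(y) f(z+e^{iθ}y)| dy` does not depend on `θ`), then use the circle inequality. -/
theorem PSH.le_integral {f : E → ℝ} (hf : PSH f) {g : E → ℝ} (hg0 : ∀ y, 0 ≤ g y)
    (hgm : Measurable g)
    (hgr : ∀ (u : ℂ) (y : E), ‖u‖ = 1 → g (u • y) = g y) (hgi : Integrable g (om E)) (z : E)
    (hfi : Integrable (fun y => g y * f (z + y)) (om E)) :
    (∫ y, g y ∂(om E)) * f z ≤ ∫ y, g y * f (z + y) ∂(om E) := by
  set e : ℝ → ℂ := fun θ => circleMap 0 1 θ with he
  have hen : ∀ θ, ‖e θ‖ = 1 := by
    intro θ
    simp [he]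
  have hec : Continuous e := continuous_circleMap 0 1
  set φ : ℝ → E → ℝ := fun θ y => g y * f (z + e θ • y) with hφ
  have hmp : ∀ θ, MeasurePreserving (fun y : E => e θ • y) (om E) (om E) :=
    fun θ => measurePreserving_smul (hen θ)
  have hemb : ∀ θ, MeasurableEmbedding (fun y : E => e θ • y) := fun θ =>
    (rotIso (E := E) (hen θ)).toHomeomorph.measurableEmbedding
  have hφeq : ∀ θ, φ θ = (fun y => g y * f (z + y)) ∘ (fun y : E => e θ • y) := by
    intro θ
    funext y
    simp only [hφ, Function.comp_apply, hgr (e θ) y (hen θ)]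
  have hφint : ∀ θ, Integrable (φ θ) (om E) := by
    intro θ
    rw [hφeq θ, (hmp θ).integrable_comp_emb (hemb θ)]
    exact hfi
  have hφval : ∀ θ, ∫ y, φ θ y ∂(om E) = ∫ y, g y * f (z + y) ∂(om E) := by
    intro θ
    rw [hφeq θ]
    exact (hmp θ).integral_comp (hemb θ) (fun y => g y * f (z + y))
  have hφnorm : ∀ θ, ∫ y, ‖φ θ y‖ ∂(om E) = ∫ y, ‖g y * f (z + y)‖ ∂(om E) := by
    intro θ
    rw [hφeq θ]
    exact (hmp θ).integral_comp (hemb θ) (fun y => ‖g y * f (z + y)‖)
  have hmeas : Measurable (Function.uncurry φ) := by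
    have h1 : Measurable (fun p : ℝ × E => g p.2) := hgm.comp measurable_snd
    have h2 : Continuous (fun p : ℝ × E => f (z + e p.1 • p.2)) :=
      hf.1.comp (continuous_const.add ((hec.comp continuous_fst).smul continuous_snd))
    exact h1.mul h2.measurable
  have hprod : Integrable (Function.uncurry φ)
      ((volume.restrict (Set.Ioc 0 (2 * Real.pi))).prod (om E)) := by
    rw [integrable_prod_iff hmeas.aestronglyMeasurable]
    refine ⟨Filter.Eventually.of_forall fun θ => hφint θ, ?_⟩
    have hconst : (fun θ => ∫ y, ‖Function.uncurry φ (θ, y)‖ ∂(om E)) =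
        fun _ => ∫ y, ‖g y * f (z + y)‖ ∂(om E) := funext fun θ => hφnorm θ
    rw [hconst]
    exact integrable_const _
  have hswap := integral_integral_swap hprod
  have hleft : ∫ θ in Set.Ioc 0 (2 * Real.pi), ∫ y, φ θ y ∂(om E)
      = (2 * Real.pi) * ∫ y, g y * f (z + y) ∂(om E) := by
    simp only [hφval]
    rw [setIntegral_const, smul_eq_mul, Real.volume_real_Ioc_of_le (by positivity), sub_zero]
  have hinner : ∀ y, ∫ θ in Set.Ioc 0 (2 * Real.pi), φ θ y
      = (2 * Real.pi) * (g y * Real.circleAverage (fun ζ : ℂ => f (z + ζ • y)) 0 1) := by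
    intro y
    rw [Real.circleAverage_def, intervalIntegral.integral_of_le (by positivity), smul_eq_mul]
    have : ∫ θ in Set.Ioc 0 (2 * Real.pi), φ θ y
        = g y * ∫ θ in Set.Ioc 0 (2 * Real.pi), f (z + e θ • y) := integral_const_mul _ _
    rw [this]
    simp only [he]
    field_simp
  have hright : (2 * Real.pi) * ((∫ y, g y ∂(om E)) * f z) ≤
      ∫ y, (∫ θ in Set.Ioc 0 (2 * Real.pi), φ θ y) ∂(om E) := by
    have e1 : (2 * Real.pi) * ((∫ y, g y ∂(om E)) * f z)
        = ∫ y, (2 * Real.pi) * (g y * f z) ∂(om E) := by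
      rw [integral_const_mul, integral_mul_const]
    rw [e1]
    apply integral_mono
    · exact (hgi.mul_const _).const_mul _
    · exact hprod.integral_prod_right
    · intro y
      simp only [hinner y]
      have := hf.2 z y
      have := hg0 y
      gcongr
  have hpi : 0 < 2 * Real.pi := by positivity
  rw [← hswap, hleft] at hright
  exact le_of_mul_le_mul_left hright hpi

/-- Sub-mean value property on balls. -/
theorem PSH.le_ball {f : E → ℝ} (hf : PSH f) (z : E) {r : ℝ} (hr : 0 < r) :
    ((om E) (Metric.closedBall z r)).toReal * f z ≤ ∫ y in Metric.closedBall z r, f y ∂(om E) := by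
  have hprop : ProperSpace E := FiniteDimensional.proper ℂ E
  set g : E → ℝ := (Metric.closedBall (0 : E) r).indicator (fun _ => 1) with hg
  have hgm : Measurable g := measurable_const.indicator measurableSet_closedBall
  have hgi : Integrable g (om E) := by
    rw [hg, integrable_indicator_iff measurableSet_closedBall]
    exact integrableOn_const (isCompact_closedBall _ _).measure_lt_top.ne
  have hfi : Integrable (fun y => g y * f (z + y)) (om E) := by
    have e1 : (fun y => g y * f (z + y)) =
        (Metric.closedBall (0 : E) r).indicator (fun y => f (z + y)) := by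
      funext y
      rw [hg]
      by_cases hy : y ∈ Metric.closedBall (0 : E) r
      · rw [Set.indicator_of_mem hy, Set.indicator_of_mem hy, one_mul]
      · rw [Set.indicator_of_notMem hy, Set.indicator_of_notMem hy, zero_mul]
    rw [e1, integrable_indicator_iff measurableSet_closedBall]
    exact (hf.1.comp (continuous_const.add continuous_id)).continuousOn.integrableOn_compact
      (isCompact_closedBall _ _)
  have h := hf.le_integral (g := g) (fun y => Set.indicator_nonneg (fun _ _ => zero_le_one) y) hgm
    (by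
      intro u y hu
      rw [hg]
      by_cases hy : y ∈ Metric.closedBall (0 : E) r
      · have hy' : u • y ∈ Metric.closedBall (0 : E) r := by
          rw [mem_closedBall_zero_iff] at hy ⊢
          rwa [norm_smul, hu, one_mul]
        rw [Set.indicator_of_mem hy, Set.indicator_of_mem hy']
      · have hy' : u • y ∉ Metric.closedBall (0 : E) r := by
          rw [mem_closedBall_zero_iff] at hy ⊢
          rwa [norm_smul, hu, one_mul]
        rw [Set.indicator_of_notMem hy, Set.indicator_of_notMem hy']) hgi z hfi
  have e2 : ∫ y, g y ∂(om E) = ((om E) (Metric.closedBall z r)).toReal := by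
    rw [hg, integral_indicator measurableSet_closedBall, setIntegral_const, smul_eq_mul, mul_one,
      Measure.real, ← Measure.addHaar_closedBall_center (om E) z r]
  have e3 : ∫ y, g y * f (z + y) ∂(om E) = ∫ y in Metric.closedBall z r, f y ∂(om E) := by
    have e4 : ∀ y, g y * f (z + y) =
        ((Metric.closedBall z r).indicator f) (z + y) := by
      intro y
      rw [hg]
      by_cases hy : y ∈ Metric.closedBall (0 : E) r
      · have hy' : z + y ∈ Metric.closedBall z r := by
          rw [mem_closedBall_iff_norm, add_sub_cancel_left]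
          rwa [mem_closedBall_zero_iff] at hy
        rw [Set.indicator_of_mem hy, Set.indicator_of_mem hy', one_mul]
      · have hy' : z + y ∉ Metric.closedBall z r := by
          rw [mem_closedBall_iff_norm, add_sub_cancel_left]
          rwa [mem_closedBall_zero_iff] at hy
        rw [Set.indicator_of_notMem hy, Set.indicator_of_notMem hy', zero_mul]
    simp only [e4]
    rw [integral_add_left_eq_self (fun y => (Metric.closedBall z r).indicator f y) z,
      integral_indicator measurableSet_closedBall]
  rw [e2, e3] at h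
  exact h

end meas

end Pool.Agent.Edge
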